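import Mathlib

/-!
# Exponential sizes, part A: vectors of polynomials and a linear differential system over a field

`k` is a field (of characteristic zero); `T u' = B u` is a linear differential system with coefficients in `k[X]`.
-/

set_option autoImplicit false

namespace Pool.Agent.Lib.MP_bbe012_lc.XS

open Polynomial

/-- The derivation `T d/dX` on power series. -/
noncomputable def LD {k : Type} [Field k] (T : k[X]) (f : PowerSeries k) : PowerSeries k :=
  (T : PowerSeries k) * PowerSeries.derivative k f

/-- The iterated derivatives of a vector of polynomials: `∑ i, it T B v s i * u i = (T d/dX) ^ s (∑ i, v i * u i)` for every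
solution `u` of `T u' = B u` (`it_pair`). -/
noncomputable def it {k : Type} [Field k] {m : ℕ} (T : k[X]) (B : Fin m → Fin m → k[X]) (v : Fin m → k[X]) :
    ℕ → Fin m → k[X]
  | 0 => v
  | s + 1 => fun i => T * derivative (it T B v s i) + ∑ j, B j i * it T B v s j

/-- `u` is a solution of `T u' = B u`. -/
def Sol {k : Type} [Field k] {m : ℕ} (T : k[X]) (B : Fin m → Fin m → k[X]) (u : Fin m → PowerSeries k) : Prop :=
  ∀ i, LD T (u i) = ∑ j, (B i j : PowerSeries k) * u j

/-- The pairing of a vector of polynomials with a vector of power series. -/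
noncomputable def pr {k : Type} [Field k] {m : ℕ} (v : Fin m → k[X]) (u : Fin m → PowerSeries k) : PowerSeries k :=
  ∑ i, (v i : PowerSeries k) * u i

/-- The combination `∑ i, c i * H i` of the vectors `H i` of power series with constants `c i`. -/
noncomputable def comb {k : Type} [Field k] {m : ℕ} (H : Fin m → Fin m → PowerSeries k) (c : Fin m → k) :
    Fin m → PowerSeries k :=
  fun j => ∑ i, PowerSeries.C (c i) * H i j

theorem comb_add {k : Type} [Field k] {m : ℕ} (H : Fin m → Fin m → PowerSeries k) (c c' : Fin m → k) (j : Fin m) :
    comb H (c + c') j = comb H c j + comb H c' j := by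
  unfold comb
  rw [← Finset.sum_add_distrib]
  refine Finset.sum_congr rfl fun i _ => ?_
  rw [Pi.add_apply, map_add, add_mul]

theorem comb_smul {k : Type} [Field k] {m : ℕ} (H : Fin m → Fin m → PowerSeries k) (a : k) (c : Fin m → k) (j : Fin m) :
    comb H (a • c) j = PowerSeries.C a * comb H c j := by
  unfold comb
  rw [Finset.mul_sum]
  refine Finset.sum_congr rfl fun i _ => ?_
  rw [Pi.smul_apply, smul_eq_mul, map_mul, mul_assoc]

/-- The space of the constants `c` such that `∑ i, c i * H i` is orthogonal to `v`. -/
noncomputable def hor {k : Type} [Field k] {m : ℕ} (H : Fin m → Fin m → PowerSeries k) (v : Fin m → k[X]) :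
    Submodule k (Fin m → k) where
  carrier := {c | pr v (comb H c) = 0}
  add_mem' := by
    intro a b ha hb
    have h : pr v (comb H (a + b)) = pr v (comb H a) + pr v (comb H b) := by
      unfold pr
      rw [← Finset.sum_add_distrib]
      refine Finset.sum_congr rfl fun i _ => ?_
      rw [comb_add, mul_add]
    rw [Set.mem_ofPred_eq] at ha hb ⊢
    rw [h, ha, hb, add_zero]
  zero_mem' := by
    rw [Set.mem_ofPred_eq]
    unfold pr comb
    refine Finset.sum_eq_zero fun i _ => ?_
    simp
  smul_mem' := by
    intro a c hc
    have h : pr v (comb H (a • c)) = PowerSeries.C a * pr v (comb H c) := by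
      unfold pr
      rw [Finset.mul_sum]
      refine Finset.sum_congr rfl fun i _ => ?_
      rw [comb_smul]
      ring
    rw [Set.mem_ofPred_eq] at hc ⊢
    rw [h, hc, mul_zero]

theorem mem_hor {k : Type} [Field k] {m : ℕ} {H : Fin m → Fin m → PowerSeries k} {v : Fin m → k[X]} {c : Fin m → k} :
    c ∈ hor H v ↔ pr v (comb H c) = 0 := Iff.rfl

end Pool.Agent.Lib.MP_bbe012_lc.XS
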