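import Pool.Agent.Lib.MP_bbe012_lc.XS.A0

/-!
# LEAF XA1 (easy+): a fundamental matrix of solutions at a regular point
-/

set_option autoImplicit false

namespace Pool.Agent.Lib.MP_bbe012_lc.XS

open Polynomial

private theorem XA1_sol {K : Type} [Field K] [CharZero K] {m : ℕ} (T : PowerSeries K)
    (hT : PowerSeries.constantCoeff T ≠ 0) (B : Fin m → Fin m → PowerSeries K) (lam : Fin m → K) :
    ∃ η : Fin m → PowerSeries K, (∀ i, PowerSeries.constantCoeff (η i) = lam i) ∧
      ∀ i, T * PowerSeries.derivative K (η i) = ∑ j, B i j * η j := by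
  classical
  obtain ⟨G, hG⟩ : ∃ G : Fin m → Fin m → PowerSeries K, ∀ j i, G j i = T⁻¹ * B i j :=
    ⟨fun j i => T⁻¹ * B i j, fun _ _ => rfl⟩
  obtain ⟨c, hc0, hc⟩ : ∃ c : ℕ → Fin m → K, (∀ i, c 0 i = lam i) ∧ ∀ (k : ℕ) (i : Fin m),
      ((k : K) + 1) * c (k + 1) i =
        ∑ j, ∑ a ∈ Finset.range (k + 1), c a j * PowerSeries.coeff (k - a) (G j i) := by
    let F : ℕ → (ℕ → Fin m → K) := fun n => Nat.rec (fun _ => lam)
      (fun k f => fun a => if a ≤ k then f a else fun i =>
        ((k : K) + 1)⁻¹ * ∑ j, ∑ a ∈ Finset.range (k + 1), f a j * PowerSeries.coeff (k - a) (G j i)) n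
    have hFs : ∀ k a, F (k + 1) a = if a ≤ k then F k a else fun i =>
        ((k : K) + 1)⁻¹ * ∑ j, ∑ a ∈ Finset.range (k + 1), F k a j *
          PowerSeries.coeff (k - a) (G j i) := fun k a => rfl
    have hst : ∀ n a, a ≤ n → F n a = F a a := by
      intro n
      induction n with
      | zero =>
        intro a ha
        obtain rfl : a = 0 := by omega
        rfl
      | succ k ih =>
        intro a ha
        rcases Nat.lt_or_ge k a with h | h
        · obtain rfl : a = k + 1 := by omega
          rfl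
        · rw [hFs, if_pos h, ih a h]
    refine ⟨fun k => F k k, fun i => rfl, fun k i => ?_⟩
    have h1 : ((k : K) + 1) ≠ 0 := Nat.cast_add_one_ne_zero k
    show ((k : K) + 1) * F (k + 1) (k + 1) i = _
    rw [hFs, if_neg (by omega), ← mul_assoc, mul_inv_cancel₀ h1, one_mul]
    refine Finset.sum_congr rfl fun j _ => Finset.sum_congr rfl fun a ha => ?_
    rw [hst k a (by have := Finset.mem_range.1 ha; omega)]
  refine ⟨fun i => PowerSeries.mk fun k => c k i, fun i => ?_, fun i => ?_⟩
  · rw [← PowerSeries.coeff_zero_eq_constantCoeff_apply, PowerSeries.coeff_mk, hc0]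
  · have h1 : PowerSeries.derivative K (PowerSeries.mk fun k => c k i) =
        ∑ j, (PowerSeries.mk fun k => c k j) * G j i := by
      ext k
      rw [PowerSeries.coeff_derivative, PowerSeries.coeff_mk, mul_comm,
        hc k i, map_sum]
      refine Finset.sum_congr rfl fun j _ => ?_
      rw [PowerSeries.coeff_mul, Finset.Nat.sum_antidiagonal_eq_sum_range_succ_mk]
      refine Finset.sum_congr rfl fun a _ => ?_
      rw [PowerSeries.coeff_mk]
    rw [h1, Finset.mul_sum]
    refine Finset.sum_congr rfl fun j _ => ?_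
    rw [hG, mul_left_comm, ← mul_assoc T, PowerSeries.mul_inv_cancel T hT, one_mul, mul_comm]

/-- PROOF. This is `exists_sol` of PP/Sol.lean (copy it; there the field is `ℚ` and the equation is the transposed one with a minus sign): the coefficients of the solution are defined by
recursion. `T` is a unit of `k⟦X⟧` (`PowerSeries.isUnit_iff_constantCoeff`, `Polynomial.constantCoeff_coe` or `Polynomial.coeff_coe` for the constant coefficient); put `G i j = T⁻¹ * B i j`; one needs
`η_i' = ∑ j, G i j * η_j`, i.e. (`PowerSeries.coeff_derivative`, `PowerSeries.coeff_mul`) `(n + 1) c (n + 1) i = ∑ j, ∑ over the antidiagonal of n of coeff a (G i j) * c b j`; `(n + 1 : k) ≠ 0`. -/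
theorem sol_exists {k : Type} [Field k] [CharZero k] {m : ℕ} (T : k[X]) (hT : T.coeff 0 ≠ 0)
    (B : Fin m → Fin m → k[X]) :
    ∃ H : Fin m → Fin m → PowerSeries k, (∀ c, Sol T B (H c)) ∧
      ∀ c i, PowerSeries.constantCoeff (H c i) = if i = c then 1 else 0 := by
  have hT' : PowerSeries.constantCoeff (T : PowerSeries k) ≠ 0 := by
    rw [← PowerSeries.coeff_zero_eq_constantCoeff_apply, Polynomial.coeff_coe]
    exact hT
  choose H h0 h1 using fun c : Fin m => XA1_sol (T : PowerSeries k) hT' (fun i j => (B i j : PowerSeries k))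
    (fun i => if i = c then 1 else 0)
  exact ⟨H, fun c i => h1 c i, h0⟩

end Pool.Agent.Lib.MP_bbe012_lc.XS
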