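import Pool.Agent.Lib.MP_bbe012_lc.XS.A0

/-!
# LEAF XA3 (medium): the power series solutions of a scalar differential equation of order `ρ` are determined by `ρ` coefficients
-/

set_option autoImplicit false

namespace Pool.Agent.Lib.MP_bbe012_lc.XS

open Polynomial

private theorem XA3_trip {k : Type} [Field k] (F : ℕ → ℕ → ℕ → k) (N : ℕ) :
    ∑ p ∈ Finset.HasAntidiagonal.antidiagonal N, ∑ q ∈ Finset.HasAntidiagonal.antidiagonal p.1, F q.1 q.2 p.2 =
      ∑ p ∈ Finset.HasAntidiagonal.antidiagonal N, ∑ q ∈ Finset.HasAntidiagonal.antidiagonal p.2, F p.1 q.1 q.2 := by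
  rw [Finset.sum_sigma', Finset.sum_sigma']
  apply Finset.sum_nbij' (fun ⟨⟨_i, j⟩, ⟨a, l⟩⟩ ↦ ⟨(a, l + j), (l, j)⟩)
    (fun ⟨⟨i, _j⟩, ⟨a, l⟩⟩ ↦ ⟨(i + a, l), (i, a)⟩) <;> aesop (add simp [add_assoc])

/-- `g` is a combination of the coefficients of `f` with polynomials in the index -/
private def XA3Rep {k : Type} [Field k] (f g : PowerSeries k) (P : ℕ → k[X]) : Prop :=
  ∀ N, PowerSeries.coeff N g = ∑ x ∈ Finset.HasAntidiagonal.antidiagonal N, (P x.1).eval (x.2 : k) * PowerSeries.coeff x.2 f

private theorem XA3_base {k : Type} [Field k] (f : PowerSeries k) :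
    XA3Rep f f (fun i => if i = 0 then 1 else 0) := by
  intro N
  rw [Finset.sum_eq_single (0, N)]
  · simp
  · rintro ⟨a, b⟩ hx hne
    rw [Finset.HasAntidiagonal.mem_antidiagonal] at hx
    have ha : a ≠ 0 := by
      rintro rfl
      apply hne
      simp only [zero_add] at hx
      rw [hx]
    show (if a = 0 then (1 : k[X]) else 0).eval (b : k) * _ = 0
    rw [if_neg ha, Polynomial.eval_zero, zero_mul]
  · intro h
    exact absurd (Finset.HasAntidiagonal.mem_antidiagonal.2 (zero_add N)) h

private theorem XA3_sum {k : Type} [Field k] {f : PowerSeries k} (S : Finset ℕ) {g : ℕ → PowerSeries k}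
    {P : ℕ → ℕ → k[X]} (h : ∀ s ∈ S, XA3Rep f (g s) (P s)) :
    XA3Rep f (∑ s ∈ S, g s) (fun i => ∑ s ∈ S, P s i) := by
  intro N
  rw [map_sum, Finset.sum_congr rfl fun s hs => h s hs N, Finset.sum_comm]
  refine Finset.sum_congr rfl fun x _ => ?_
  rw [Polynomial.eval_finsetSum, Finset.sum_mul]

private theorem XA3_mul {k : Type} [Field k] {f g : PowerSeries k} {P : ℕ → k[X]} (h : XA3Rep f g P)
    (a : k[X]) : XA3Rep f ((a : PowerSeries k) * g)
      (fun i => ∑ x ∈ Finset.HasAntidiagonal.antidiagonal i, C (a.coeff x.1) * P x.2) := by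
  intro N
  have h1 := XA3_trip (fun i j l => a.coeff i * ((P j).eval (l : k) * PowerSeries.coeff l f)) N
  rw [PowerSeries.coeff_mul]
  have h2 : ∀ p ∈ Finset.HasAntidiagonal.antidiagonal N, PowerSeries.coeff p.1 (a : PowerSeries k) * PowerSeries.coeff p.2 g =
      ∑ q ∈ Finset.HasAntidiagonal.antidiagonal p.2, a.coeff p.1 * ((P q.1).eval (q.2 : k) * PowerSeries.coeff q.2 f) := by
    intro p _
    rw [h p.2, Polynomial.coeff_coe, Finset.mul_sum]
  rw [Finset.sum_congr rfl h2, ← h1]
  refine Finset.sum_congr rfl fun x _ => ?_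
  rw [Polynomial.eval_finsetSum, Finset.sum_mul]
  refine Finset.sum_congr rfl fun q _ => ?_
  rw [Polynomial.eval_mul, Polynomial.eval_C]
  ring

private theorem XA3_th {k : Type} [Field k] {f g : PowerSeries k} {P : ℕ → k[X]} (h : XA3Rep f g P) (s : ℕ) :
    XA3Rep f (PowerSeries.X * PowerSeries.derivative k g - PowerSeries.C (s : k) * g)
      (fun i => (X + C (i : k) - C (s : k)) * P i) := by
  intro N
  have h1 : PowerSeries.coeff N (PowerSeries.X * PowerSeries.derivative k g) = (N : k) * PowerSeries.coeff N g := by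
    cases N with
    | zero => simp
    | succ N =>
      rw [PowerSeries.coeff_succ_X_mul, PowerSeries.coeff_derivative]
      push_cast
      ring
  rw [map_sub, h1, PowerSeries.coeff_C_mul, h N, Finset.mul_sum, Finset.mul_sum, ← Finset.sum_sub_distrib]
  refine Finset.sum_congr rfl fun x hx => ?_
  rw [Finset.HasAntidiagonal.mem_antidiagonal] at hx
  rw [← hx, Polynomial.eval_mul, Polynomial.eval_sub, Polynomial.eval_add, Polynomial.eval_X,
    Polynomial.eval_C, Polynomial.eval_C]
  push_cast
  ring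

/-- the coefficient polynomials of `X ^ s * (LD T)^[s]` -/
private noncomputable def XA3P {k : Type} [Field k] (T : k[X]) : ℕ → ℕ → k[X]
  | 0, i => if i = 0 then 1 else 0
  | s + 1, i => ∑ x ∈ Finset.HasAntidiagonal.antidiagonal i, C (T.coeff x.1) * ((X + C (x.2 : k) - C (s : k)) * XA3P T s x.2)

private theorem XA3_step {k : Type} [Field k] (T : k[X]) (f : PowerSeries k) (s : ℕ) :
    XA3Rep f (PowerSeries.X ^ s * (LD T)^[s] f) (XA3P T s) := by
  induction s with
  | zero =>
    rw [pow_zero, one_mul, Function.iterate_zero, id]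
    have h := XA3_base f
    intro N
    rw [h N]
    refine Finset.sum_congr rfl fun x _ => ?_
    rw [XA3P]
  | succ s ih =>
    have h := XA3_mul (XA3_th ih s) T
    have h1 : PowerSeries.X ^ (s + 1) * (LD T)^[s + 1] f = (T : PowerSeries k) *
        (PowerSeries.X * PowerSeries.derivative k (PowerSeries.X ^ s * (LD T)^[s] f) -
          PowerSeries.C (s : k) * (PowerSeries.X ^ s * (LD T)^[s] f)) := by
      rw [Function.iterate_succ_apply', Derivation.leibniz, Derivation.leibniz_pow, PowerSeries.derivative_X]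
      have h2 : PowerSeries.X * (((LD T)^[s] f) • (s • (PowerSeries.X : PowerSeries k) ^ (s - 1) • (1 : PowerSeries k))) =
          PowerSeries.C (s : k) * (PowerSeries.X ^ s * (LD T)^[s] f) := by
        cases s with
        | zero => simp
        | succ s =>
          rw [Nat.add_sub_cancel, smul_eq_mul, smul_eq_mul, mul_one, nsmul_eq_mul, map_natCast]
          ring
      rw [smul_eq_mul, mul_add, h2]
      unfold LD
      ring
    rw [h1]
    intro N
    rw [h N]
    refine Finset.sum_congr rfl fun x _ => ?_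
    rw [XA3P]

private theorem XA3_deg {k : Type} [Field k] (T : k[X]) (s : ℕ) : ∀ i, (XA3P T s i).natDegree ≤ s := by
  induction s with
  | zero =>
    intro i
    rw [XA3P]
    split_ifs <;> simp
  | succ s ih =>
    intro i
    rw [XA3P]
    refine Polynomial.natDegree_sum_le_of_forall_le _ _ fun x _ => ?_
    refine (Polynomial.natDegree_C_mul_le _ _).trans (Polynomial.natDegree_mul_le.trans ?_)
    have h1 : (X + C (x.2 : k) - C (s : k) : k[X]).natDegree ≤ 1 := by
      rw [add_sub_assoc, ← C_sub, Polynomial.natDegree_X_add_C]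
    have h2 := ih x.2
    omega

private theorem XA3_lead {k : Type} [Field k] (T : k[X]) (s : ℕ) :
    ∀ i, (XA3P T s i).coeff s = (T ^ s).coeff i := by
  induction s with
  | zero =>
    intro i
    rw [XA3P, pow_zero, Polynomial.coeff_one]
    split_ifs <;> simp
  | succ s ih =>
    intro i
    rw [XA3P, pow_succ', Polynomial.coeff_mul, Polynomial.finsetSum_coeff]
    refine Finset.sum_congr rfl fun x _ => ?_
    rw [Polynomial.coeff_C_mul, ← ih x.2, add_sub_assoc, ← C_sub, add_mul, Polynomial.coeff_add,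
      Polynomial.coeff_X_mul, Polynomial.coeff_C_mul,
      Polynomial.coeff_eq_zero_of_natDegree_lt (lt_of_le_of_lt (XA3_deg T s x.2) (Nat.lt_succ_self s)),
      mul_zero, add_zero]

/-- PROOF (indicial polynomial). Let `θ = X d/dX` on `k⟦X⟧`, so `coeff n (θ f) = n * coeff n f`. (1) There are polynomials `α s j` (`j ≤ s`) with `X ^ s * (LD T)^[s] f = ∑ j ∈ range (s + 1), α s j * θ^[j] f` for all `f`
and `α s s = T ^ s`: induction, `X ^ (s + 1) * LD T g = T * (θ (X ^ s * g) - s * (X ^ s * g))` and `θ (α * θ^[j] f) = (X * α') * θ^[j] f + α * θ^[j + 1] f`.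
(2) So for `f` as in the statement `0 = X ^ ρ * ∑ s, c s * (LD T)^[s] f = ∑ j ∈ range (ρ + 1), β j * θ^[j] f` with `β j = ∑ s, c s * X ^ (ρ - s) * α s j` (`β j` does not depend on `f`) and `β ρ = c ρ * T ^ ρ ≠ 0`.
(3) Let `e` be the smallest index such that some `(β j).coeff e ≠ 0` (`Nat.find`), `P = ∑ j ∈ range (ρ + 1), C ((β j).coeff e) * X ^ j : k[X]`: `P ≠ 0`, `natDegree P ≤ ρ`; `R` = the natural numbers `n` with `P.eval (n : k) = 0`: a finite set with at most
`natDegree P ≤ ρ` elements (`Polynomial.card_roots'`, `Nat.cast_injective`; for instance the preimage of `P.roots.toFinset`).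
(4) If `f ≠ 0` let `n` be its order (`PowerSeries.order`, or `Nat.find`: `coeff n f ≠ 0`, `coeff i f = 0` for `i < n`). The coefficient of `X ^ (n + e)` of `β j * θ^[j] f` is `(β j).coeff e * n ^ j * coeff n f` (all other terms `(β j).coeff a * coeff b` with `a + b = n + e` have `a < e` or `b < n`).
So `P.eval n * coeff n f = 0`, `n ∈ R`, and `coeff n f = 0` by hypothesis: contradiction. -/
theorem indicial {k : Type} [Field k] [CharZero k] (T : k[X]) (hT : T ≠ 0) (ρ : ℕ) (c : ℕ → k[X]) (hc : c ρ ≠ 0) :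
    ∃ R : Finset ℕ, R.card ≤ ρ ∧ ∀ f : PowerSeries k,
      ∑ s ∈ Finset.range (ρ + 1), (c s : PowerSeries k) * (LD T)^[s] f = 0 →
      (∀ n ∈ R, PowerSeries.coeff n f = 0) → f = 0 := by
  classical
  obtain ⟨Q, hQ⟩ : ∃ Q : ℕ → k[X], Q = fun i => ∑ s ∈ Finset.range (ρ + 1),
      ∑ x ∈ Finset.HasAntidiagonal.antidiagonal i, C ((c s * X ^ (ρ - s)).coeff x.1) * XA3P T s x.2 := ⟨_, rfl⟩
  have hdeg : ∀ i, (Q i).natDegree ≤ ρ := by
    intro i
    rw [hQ]
    refine Polynomial.natDegree_sum_le_of_forall_le _ _ fun s hs => ?_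
    refine Polynomial.natDegree_sum_le_of_forall_le _ _ fun x _ => ?_
    rw [Finset.mem_range] at hs
    have h1 := XA3_deg T s x.2
    exact (Polynomial.natDegree_C_mul_le _ _).trans (by omega)
  have hlead : ∀ i, (Q i).coeff ρ = (c ρ * T ^ ρ).coeff i := by
    intro i
    rw [hQ]
    show (∑ s ∈ Finset.range (ρ + 1), ∑ x ∈ Finset.HasAntidiagonal.antidiagonal i,
      C ((c s * X ^ (ρ - s)).coeff x.1) * XA3P T s x.2).coeff ρ = _
    rw [Polynomial.finsetSum_coeff, Finset.sum_range_succ, Finset.sum_eq_zero, zero_add, Nat.sub_self, pow_zero,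
      mul_one, Polynomial.finsetSum_coeff, Polynomial.coeff_mul]
    · refine Finset.sum_congr rfl fun x _ => ?_
      rw [Polynomial.coeff_C_mul, XA3_lead]
    · intro s hs
      rw [Finset.mem_range] at hs
      rw [Polynomial.finsetSum_coeff]
      refine Finset.sum_eq_zero fun x _ => ?_
      rw [Polynomial.coeff_C_mul,
        Polynomial.coeff_eq_zero_of_natDegree_lt (lt_of_le_of_lt (XA3_deg T s x.2) hs), mul_zero]
  have hex : ∃ i, Q i ≠ 0 := by
    have h1 : c ρ * T ^ ρ ≠ 0 := mul_ne_zero hc (pow_ne_zero _ hT)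
    by_contra hcon
    push Not at hcon
    apply h1
    ext i
    rw [← hlead i, hcon i, Polynomial.coeff_zero, Polynomial.coeff_zero]
  obtain ⟨e, he⟩ : ∃ e, e = Nat.find hex := ⟨_, rfl⟩
  have he1 : Q e ≠ 0 := by
    rw [he]
    exact Nat.find_spec hex
  have he2 : ∀ i, i < e → Q i = 0 := by
    intro i hi
    by_contra h
    rw [he] at hi
    exact Nat.find_min hex hi h
  obtain ⟨R, hR⟩ : ∃ R : Finset ℕ, R = (Q e).roots.toFinset.preimage (fun n : ℕ => (n : k))
      (Nat.cast_injective.injOn) := ⟨_, rfl⟩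
  have hmem : ∀ n : ℕ, n ∈ R ↔ (Q e).eval (n : k) = 0 := by
    intro n
    rw [hR, Finset.mem_preimage, Multiset.mem_toFinset, Polynomial.mem_roots he1]
    rfl
  refine ⟨R, ?_, fun f hf hfR => ?_⟩
  · have h1 : R.image (fun n : ℕ => (n : k)) ⊆ (Q e).roots.toFinset := by
      intro y hy
      rw [Finset.mem_image] at hy
      obtain ⟨n, hn, rfl⟩ := hy
      rw [hR, Finset.mem_preimage] at hn
      exact hn
    calc R.card = (R.image (fun n : ℕ => (n : k))).card :=
          (Finset.card_image_of_injective _ Nat.cast_injective).symm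
      _ ≤ (Q e).roots.toFinset.card := Finset.card_le_card h1
      _ ≤ Multiset.card (Q e).roots := Multiset.toFinset_card_le _
      _ ≤ (Q e).natDegree := Polynomial.card_roots' _
      _ ≤ ρ := hdeg e
  · by_contra hf0
    have hexn : ∃ n, PowerSeries.coeff n f ≠ 0 := by
      by_contra hcon
      push Not at hcon
      apply hf0
      ext n
      rw [hcon n, map_zero]
    obtain ⟨n, hn⟩ : ∃ n, n = Nat.find hexn := ⟨_, rfl⟩
    have hn1 : PowerSeries.coeff n f ≠ 0 := by
      rw [hn]
      exact Nat.find_spec hexn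
    have hn2 : ∀ i, i < n → PowerSeries.coeff i f = 0 := by
      intro i hi
      by_contra h
      rw [hn] at hi
      exact Nat.find_min hexn hi h
    have h1 : XA3Rep f (∑ s ∈ Finset.range (ρ + 1), ((c s * X ^ (ρ - s) : k[X]) : PowerSeries k) *
        (PowerSeries.X ^ s * (LD T)^[s] f)) Q := by
      rw [hQ]
      exact XA3_sum _ fun s _ => XA3_mul (XA3_step T f s) _
    have h2 : ∑ s ∈ Finset.range (ρ + 1), ((c s * X ^ (ρ - s) : k[X]) : PowerSeries k) *
        (PowerSeries.X ^ s * (LD T)^[s] f) = 0 := by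
      have h3 : ∑ s ∈ Finset.range (ρ + 1), ((c s * X ^ (ρ - s) : k[X]) : PowerSeries k) *
          (PowerSeries.X ^ s * (LD T)^[s] f) = PowerSeries.X ^ ρ *
            ∑ s ∈ Finset.range (ρ + 1), (c s : PowerSeries k) * (LD T)^[s] f := by
        rw [Finset.mul_sum]
        refine Finset.sum_congr rfl fun s hs => ?_
        rw [Finset.mem_range] at hs
        have h4 : (PowerSeries.X : PowerSeries k) ^ ρ = PowerSeries.X ^ (ρ - s) * PowerSeries.X ^ s := by
          rw [← pow_add]
          congr 1
          omega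
        rw [Polynomial.coe_mul, Polynomial.coe_pow, Polynomial.coe_X, h4]
        ring
      rw [h3, hf, mul_zero]
    have h3 := h1 (e + n)
    rw [h2, map_zero, Finset.sum_eq_single (e, n)] at h3
    · rcases mul_eq_zero.1 h3.symm with h4 | h4
      · exact hn1 (hfR n ((hmem n).2 h4))
      · exact hn1 h4
    · rintro ⟨a, b⟩ hx hne'
      rw [Finset.HasAntidiagonal.mem_antidiagonal] at hx
      rcases Nat.lt_or_ge a e with h4 | h4
      · show (Q a).eval (b : k) * _ = 0
        rw [he2 a h4, Polynomial.eval_zero, zero_mul]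
      · have h5 : b < n := by
          rcases Nat.lt_or_ge b n with h6 | h6
          · exact h6
          · exfalso
            apply hne'
            have h7 : a = e := by
              simp only at hx
              omega
            have h8 : b = n := by
              simp only at hx
              omega
            rw [h7, h8]
        show _ * PowerSeries.coeff b f = 0
        rw [hn2 b h5, mul_zero]
    · intro h
      exfalso
      apply h
      rw [Finset.HasAntidiagonal.mem_antidiagonal]

end Pool.Agent.Lib.MP_bbe012_lc.XS
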