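import Pool.Agent.Lib.MP_bbe012_lc.XS.A2
import Pool.Agent.Lib.MP_bbe012_lc.XS.A3

/-!
# LEAF XA4 (medium-): many horizontal sections are orthogonal to `v`
-/

set_option autoImplicit false

namespace Pool.Agent.Lib.MP_bbe012_lc.XS

open Polynomial

private theorem XA4_add {k : Type} [Field k] {m : ℕ} (H : Fin m → Fin m → PowerSeries k)
    (v : Fin m → k[X]) (a b : Fin m → k) :
    pr v (comb H (a + b)) = pr v (comb H a) + pr v (comb H b) := by
  unfold pr
  rw [← Finset.sum_add_distrib]
  refine Finset.sum_congr rfl fun i _ => ?_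
  rw [comb_add, mul_add]

private theorem XA4_smul {k : Type} [Field k] {m : ℕ} (H : Fin m → Fin m → PowerSeries k)
    (v : Fin m → k[X]) (a : k) (c : Fin m → k) :
    pr v (comb H (a • c)) = PowerSeries.C a * pr v (comb H c) := by
  unfold pr
  rw [Finset.mul_sum]
  refine Finset.sum_congr rfl fun i _ => ?_
  rw [comb_smul]
  ring

private noncomputable def XA4_map {k : Type} [Field k] {m : ℕ} (H : Fin m → Fin m → PowerSeries k)
    (v : Fin m → k[X]) (R : Finset ℕ) : (Fin m → k) →ₗ[k] (R → k) where
  toFun a n := PowerSeries.coeff (n : ℕ) (pr v (comb H a))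
  map_add' a b := by
    funext n
    rw [XA4_add, map_add]
    rfl
  map_smul' a c := by
    funext n
    rw [XA4_smul, PowerSeries.coeff_C_mul]
    rfl

/-- PROOF. Let `R` be from `indicial T _ ρ c hc` (`T ≠ 0` by `hT`). The map `Ψ : (Fin m → k) →ₗ[k] (R → k)`, `c ↦ (coeff n (pr v (comb H c)))_{n ∈ R}`, is linear (see the proofs in `hor`); its kernel is contained in `hor H v`: for `c` in the kernel put `f = pr v (comb H c)`;
`∑ s ≤ ρ, c s * (LD T)^[s] f = ∑ s ≤ ρ, c s * pr (it T B v s) (comb H c) = ∑_i (∑ s, c s * it T B v s i) * comb H c i = 0` (`it_pair`, `sol_comb`, `hrel`, `Polynomial.coe_mul`, `Finset.sum_comm`), so `f = 0` by `indicial`.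
So `m - ρ ≤ m - R.card ≤ finrank (ker Ψ) ≤ finrank (hor H v)` (`LinearMap.finrank_range_add_finrank_ker`, `Submodule.finrank_le`, `Submodule.finrank_mono`, `Module.finrank_fin_fun`, `Module.finrank_pi`). -/
theorem hor_dim {k : Type} [Field k] [CharZero k] {m : ℕ} {T : k[X]} (hT : T ≠ 0) {B : Fin m → Fin m → k[X]}
    {H : Fin m → Fin m → PowerSeries k} (hH : ∀ c, Sol T B (H c)) (v : Fin m → k[X]) (ρ : ℕ) (c : ℕ → k[X])
    (hc : c ρ ≠ 0) (hrel : ∀ i, ∑ s ∈ Finset.range (ρ + 1), c s * it T B v s i = 0) :
    m ≤ ρ + Module.finrank k (hor H v) := by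
  obtain ⟨R, hR1, hR2⟩ := indicial T hT ρ c hc
  have hker : LinearMap.ker (XA4_map H v R) ≤ hor H v := by
    intro a ha
    rw [LinearMap.mem_ker] at ha
    rw [mem_hor]
    apply hR2
    · have hs : ∀ s, (LD T)^[s] (pr v (comb H a)) = pr (it T B v s) (comb H a) := fun s =>
        it_pair (sol_comb hH a) v s
      simp only [hs]
      unfold pr
      simp only [Finset.mul_sum]
      rw [Finset.sum_comm]
      refine Finset.sum_eq_zero fun i _ => ?_
      have h1 : ∑ s ∈ Finset.range (ρ + 1), (c s : PowerSeries k) *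
          ((it T B v s i : PowerSeries k) * comb H a i) =
          ((∑ s ∈ Finset.range (ρ + 1), c s * it T B v s i : k[X]) : PowerSeries k) *
            comb H a i := by
        have h2 : ((∑ s ∈ Finset.range (ρ + 1), c s * it T B v s i : k[X]) : PowerSeries k) =
            ∑ s ∈ Finset.range (ρ + 1), (c s : PowerSeries k) * (it T B v s i : PowerSeries k) := by
          have h3 := map_sum (Polynomial.coeToPowerSeries.ringHom (R := k))
            (fun s => c s * it T B v s i) (Finset.range (ρ + 1))
          simp only [Polynomial.coeToPowerSeries.ringHom_apply, Polynomial.coe_mul] at h3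
          exact h3
        rw [h2, Finset.sum_mul]
        refine Finset.sum_congr rfl fun s _ => ?_
        ring
      rw [h1, hrel i, Polynomial.coe_zero, zero_mul]
    · intro n hn
      have h := congrFun ha ⟨n, hn⟩
      exact h
  have h1 := LinearMap.finrank_range_add_finrank_ker (XA4_map H v R)
  have h2 : Module.finrank k (LinearMap.range (XA4_map H v R)) ≤ ρ := by
    have h3 := Submodule.finrank_le (LinearMap.range (XA4_map H v R))
    rw [Module.finrank_pi, Fintype.card_coe] at h3
    exact h3.trans hR1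
  have h4 := Submodule.finrank_mono hker
  rw [Module.finrank_pi, Fintype.card_fin] at h1
  omega

end Pool.Agent.Lib.MP_bbe012_lc.XS
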