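import Pool.Agent.Lib.MP_bbe012_lc.XS.A0

/-!
# LEAF XA5 (medium-): the orthogonality to horizontal sections is given by linear forms of bounded degree
-/

set_option autoImplicit false

namespace Pool.Agent.Lib.MP_bbe012_lc.XS

open Polynomial

/-- A maximal independent subfamily of a finite family in a domain, over the polynomials. -/
private theorem XA5_sub {k κ : Type} [Field k] [Fintype κ] [DecidableEq κ] {S : Type} [CommRing S] [IsDomain S]
    (f : k[X] →+* S) (g : κ → S) :
    ∃ (d : ℕ) (e : Fin d → S) (ρ : k[X]) (c : κ → Fin d → k[X]), ρ ≠ 0 ∧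
      (∀ x, f ρ * g x = ∑ l, f (c x l) * e l) ∧
      ∀ a : Fin d → k[X], ∑ l, f (a l) * e l = 0 → a = 0 := by
  classical
  let _ : Algebra k[X] S := f.toAlgebra
  have hsm : ∀ (p : k[X]) (x : S), p • x = f p * x := fun p x => Algebra.smul_def p x
  obtain ⟨s, hs, hmax⟩ := exists_maximal_linearIndepOn k[X] g
  let E : s ≃ Fin (Fintype.card s) := Fintype.equivFin s
  have hmul : ∀ x, ∃ (r : k[X]) (c : Fin (Fintype.card s) → k[X]), r ≠ 0 ∧
      f r * g x = ∑ l, f (c l) * g (E.symm l) := by
    intro x
    by_cases hk : x ∈ s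
    · refine ⟨1, fun l => if l = E ⟨x, hk⟩ then 1 else 0, one_ne_zero, ?_⟩
      rw [Finset.sum_eq_single (E ⟨x, hk⟩)]
      · beta_reduce
        rw [if_pos rfl, Equiv.symm_apply_apply]
      · intro l _ hl
        beta_reduce
        rw [if_neg hl, map_zero, zero_mul]
      · intro h
        exact absurd (Finset.mem_univ _) h
    · obtain ⟨a, ha, hmem⟩ := hmax x hk
      have himg : g '' s = Set.range (fun l : Fin (Fintype.card s) => g (E.symm l)) := by
        ext y
        constructor
        · rintro ⟨i, hi, rfl⟩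
          refine ⟨E ⟨i, hi⟩, ?_⟩
          show g (E.symm (E ⟨i, hi⟩)) = g i
          rw [Equiv.symm_apply_apply]
        · rintro ⟨l, rfl⟩
          exact ⟨(E.symm l : κ), (E.symm l).2, rfl⟩
      rw [himg, Submodule.mem_span_range_iff_exists_fun] at hmem
      obtain ⟨c, hc⟩ := hmem
      refine ⟨a, c, ha, ?_⟩
      rw [← hsm, ← hc]
      exact Finset.sum_congr rfl fun l _ => hsm _ _
  choose r c hr hrc using hmul
  refine ⟨Fintype.card s, fun l => g (E.symm l), ∏ x, r x,
    fun x l => (∏ j ∈ Finset.univ.erase x, r j) * c x l,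
    Finset.prod_ne_zero_iff.2 fun x _ => hr x, ?_, ?_⟩
  · intro x
    rw [← Finset.prod_erase_mul _ _ (Finset.mem_univ x), map_mul, mul_assoc, hrc x,
      Finset.mul_sum]
    refine Finset.sum_congr rfl fun l _ => ?_
    rw [map_mul, mul_assoc]
  · intro a ha
    have hli : LinearIndependent k[X] (fun i : s => g i) := hs
    rw [Fintype.linearIndependent_iff] at hli
    have h1 := hli (fun i => a (E i)) (by
      rw [← ha, ← Equiv.sum_comp E]
      refine Finset.sum_congr rfl fun i _ => ?_
      beta_reduce
      rw [hsm, Equiv.symm_apply_apply])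
    ext1 l
    have h2 := h1 (E.symm l)
    rw [Equiv.apply_symm_apply] at h2
    exact h2

/-- PROOF. First port `exists_sub` of PP/Mult.lean from `ℚ[X]` to `k[X]` (its proof works verbatim): for the finite family `g` of all entries `H i j` (index set `Fin m × Fin m ≃ Fin (m * m)`) in the domain `S = PowerSeries k`, with the ring homomorphism
`f = Polynomial.coeToPowerSeries.ringHom : k[X] →+* PowerSeries k`, there are `d`, `e : Fin d → S`, `ρ ≠ 0`, `c` with `ρ * g a = ∑ l, c a l * e l`, and the `e l` are linearly independent over `k[X]`. Let `p i j l = c (i, j) l` and `E` the sum of all the degrees.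
Then `ρ * pr z (comb H a) = ∑ l, (∑ j, (∑ i, C (a i) * p i j l) * z j) * e l` (`Polynomial.coe_C`, `Finset.sum_comm`); as `ρ ≠ 0` in the domain (`Polynomial.coe_injective`, `Polynomial.coe_eq_zero_iff`), this vanishes if and only if `pr z (comb H a) = 0`, and, by the independence of the `e l`, if and only if
all the coefficients vanish. -/
theorem forms {k : Type} [Field k] {m : ℕ} (H : Fin m → Fin m → PowerSeries k) :
    ∃ (d E : ℕ) (p : Fin m → Fin m → Fin d → k[X]), (∀ i j l, (p i j l).natDegree ≤ E) ∧
      ∀ (a : Fin m → k) (z : Fin m → k[X]),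
        pr z (comb H a) = 0 ↔ ∀ l, ∑ j, (∑ i, C (a i) * p i j l) * z j = 0 := by
  classical
  obtain ⟨d, e, ρ, c, hρ, hc, hind⟩ := XA5_sub (k := k) (Polynomial.coeToPowerSeries.ringHom)
    (fun x : Fin m × Fin m => H x.1 x.2)
  have hf : ∀ q : k[X], (Polynomial.coeToPowerSeries.ringHom : k[X] →+* PowerSeries k) q = (q : PowerSeries k) :=
    fun q => Polynomial.coeToPowerSeries.ringHom_apply
  set f : k[X] →+* PowerSeries k := Polynomial.coeToPowerSeries.ringHom with hfdef
  have key : ∀ (a : Fin m → k) (z : Fin m → k[X]), f ρ * pr z (comb H a) =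
      ∑ l, f (∑ j, (∑ i, C (a i) * c (i, j) l) * z j) * e l := by
    intro a z
    have h1 : ∀ j, f ρ * ((z j : PowerSeries k) * comb H a j) =
        ∑ l, f ((∑ i, C (a i) * c (i, j) l) * z j) * e l := by
      intro j
      have h2 : f ρ * ((z j : PowerSeries k) * comb H a j) =
          ∑ i, ∑ l, f (C (a i) * c (i, j) l * z j) * e l := by
        unfold comb
        rw [Finset.mul_sum, Finset.mul_sum]
        refine Finset.sum_congr rfl fun i _ => ?_
        have h3 : f ρ * ((z j : PowerSeries k) * (PowerSeries.C (a i) * H i j)) =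
            ((z j : PowerSeries k) * PowerSeries.C (a i)) * (f ρ * H i j) := by ring
        rw [h3, hc (i, j), Finset.mul_sum]
        refine Finset.sum_congr rfl fun l _ => ?_
        rw [map_mul, map_mul, hf (z j), hf (C (a i)), Polynomial.coe_C]
        ring
      rw [h2, Finset.sum_comm]
      refine Finset.sum_congr rfl fun l _ => ?_
      rw [← Finset.sum_mul, ← map_sum, ← Finset.sum_mul]
    unfold pr
    rw [Finset.mul_sum, Finset.sum_congr rfl fun j _ => h1 j, Finset.sum_comm]
    refine Finset.sum_congr rfl fun l _ => ?_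
    rw [← Finset.sum_mul, ← map_sum]
  have hρ' : f ρ ≠ 0 := by
    rw [hf]
    intro h
    exact hρ (Polynomial.coe_eq_zero_iff.1 h)
  refine ⟨d, ∑ i, ∑ j, ∑ l, (c (i, j) l).natDegree, fun i j l => c (i, j) l, fun i j l => ?_, fun a z => ?_⟩
  · calc (c (i, j) l).natDegree ≤ ∑ l, (c (i, j) l).natDegree :=
          Finset.single_le_sum (f := fun l => (c (i, j) l).natDegree) (fun _ _ => Nat.zero_le _)
            (Finset.mem_univ l)
      _ ≤ ∑ j, ∑ l, (c (i, j) l).natDegree :=
          Finset.single_le_sum (f := fun j => ∑ l, (c (i, j) l).natDegree) (fun _ _ => Nat.zero_le _)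
            (Finset.mem_univ j)
      _ ≤ ∑ i, ∑ j, ∑ l, (c (i, j) l).natDegree :=
          Finset.single_le_sum (f := fun i => ∑ j, ∑ l, (c (i, j) l).natDegree) (fun _ _ => Nat.zero_le _)
            (Finset.mem_univ i)
  · constructor
    · intro h
      have h1 := key a z
      rw [h, mul_zero] at h1
      have h2 := hind _ h1.symm
      intro l
      exact congrFun h2 l
    · intro h
      have h1 := key a z
      have h2 : ∑ l, f (∑ j, (∑ i, C (a i) * c (i, j) l) * z j) * e l = 0 :=
        Finset.sum_eq_zero fun l _ => by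
          have h3 : ∑ j, (∑ i, C (a i) * c (i, j) l) * z j = 0 := h l
          rw [h3, map_zero, zero_mul]
      rw [h2] at h1
      exact (mul_eq_zero.1 h1).resolve_left hρ'

end Pool.Agent.Lib.MP_bbe012_lc.XS
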