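import Pool.Agent.Lib.MP_bbe012_lc.XS.A0

/-!
# LEAF XA6 (medium+): solutions of bounded degree of linear systems over `k[X]`
-/

set_option autoImplicit false

namespace Pool.Agent.Lib.MP_bbe012_lc.XS

open Polynomial

/-- dimension count -/
private theorem XA6_dim {k : Type} [Field k] {m : ℕ} {Λ : Type} (A : Λ → Fin m → k[X]) (E : ℕ)
    (hE : ∀ l j, (A l j).natDegree ≤ E) (L : Finset Λ) (J : Finset (Fin m)) (D : ℕ)
    (hcard : L.card * (D + E + 1) < J.card * (D + 1)) :
    ∃ z : Fin m → k[X], z ≠ 0 ∧ (∀ j, j ∉ J → z j = 0) ∧ (∀ j, (z j).natDegree ≤ D) ∧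
      ∀ l ∈ L, ∑ j, A l j * z j = 0 := by
  classical
  let Z : (↥J × Fin (D + 1) → k) →ₗ[k] (Fin m → k[X]) :=
    { toFun := fun c j => if h : j ∈ J then ∑ i : Fin (D + 1), C (c (⟨j, h⟩, i)) * X ^ (i : ℕ) else 0
      map_add' := by
        intro c d
        funext j
        by_cases h : j ∈ J
        · simp only [h, dif_pos, Pi.add_apply, map_add, add_mul, Finset.sum_add_distrib]
        · simp only [h, dif_neg, not_false_iff, Pi.add_apply, add_zero]
      map_smul' := by
        intro a c
        funext j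
        by_cases h : j ∈ J
        · simp only [h, dif_pos, Pi.smul_apply, smul_eq_mul, map_mul, RingHom.id_apply, Finset.smul_sum,
            smul_eq_C_mul, mul_assoc]
        · simp only [h, dif_neg, not_false_iff, Pi.smul_apply, smul_zero, RingHom.id_apply] }
  have hZ : ∀ c j, Z c j = if h : j ∈ J then ∑ i : Fin (D + 1), C (c (⟨j, h⟩, i)) * X ^ (i : ℕ) else 0 :=
    fun c j => rfl
  let T : (↥J × Fin (D + 1) → k) →ₗ[k] (↥L × Fin (D + E + 1) → k) :=
    LinearMap.pi fun p => (lcoeff k (p.2 : ℕ)) ∘ₗ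
      (∑ j : Fin m, (LinearMap.mulLeft k (A p.1 j)) ∘ₗ (LinearMap.proj j : (Fin m → k[X]) →ₗ[k] k[X])) ∘ₗ Z
  have hT : ∀ c p, T c p = (∑ j, A p.1 j * Z c j).coeff (p.2 : ℕ) := by
    intro c p
    simp only [T, LinearMap.pi_apply, LinearMap.comp_apply, lcoeff_apply, LinearMap.sum_apply,
      LinearMap.mulLeft_apply, LinearMap.proj_apply]
  have hlt : Module.finrank k (↥L × Fin (D + E + 1) → k) < Module.finrank k (↥J × Fin (D + 1) → k) := by
    rw [Module.finrank_fintype_fun_eq_card, Module.finrank_fintype_fun_eq_card, Fintype.card_prod,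
      Fintype.card_prod, Fintype.card_coe, Fintype.card_coe, Fintype.card_fin, Fintype.card_fin]
    exact hcard
  obtain ⟨c, hcT, hc0⟩ := (Submodule.ne_bot_iff _).1 (LinearMap.ker_ne_bot_of_finrank_lt (f := T) hlt)
  have hdeg : ∀ j, (Z c j).natDegree ≤ D := by
    intro j
    rw [hZ]
    split_ifs with h
    · refine natDegree_sum_le_of_forall_le _ _ fun i _ => ?_
      exact (natDegree_C_mul_X_pow_le _ _).trans (Nat.lt_succ_iff.1 i.2)
    · rw [natDegree_zero]
      exact Nat.zero_le _
  refine ⟨Z c, ?_, fun j hj => by rw [hZ, dif_neg hj], hdeg, fun l hl => ?_⟩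
  · intro hz
    apply hc0
    funext p
    obtain ⟨⟨j, hj⟩, i⟩ := p
    have h1 := congrArg (fun q : k[X] => q.coeff (i : ℕ)) (congrFun hz j)
    simp only [hZ, hj, dif_pos, Pi.zero_apply, coeff_zero, finsetSum_coeff, coeff_C_mul_X_pow] at h1
    rw [Finset.sum_eq_single i] at h1
    · rw [if_pos rfl] at h1
      exact h1
    · intro b _ hb
      rw [if_neg]
      intro hc
      exact hb (Fin.ext hc.symm)
    · intro hc
      exact absurd (Finset.mem_univ _) hc
  · ext i
    rw [coeff_zero]
    rcases Nat.lt_or_ge i (D + E + 1) with hi | hi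
    · have h1 := congrFun (LinearMap.mem_ker.1 hcT) (⟨l, hl⟩, ⟨i, hi⟩)
      rw [hT] at h1
      exact h1
    · refine coeff_eq_zero_of_natDegree_lt (lt_of_le_of_lt ?_ hi)
      refine natDegree_sum_le_of_forall_le _ _ fun j _ => ?_
      refine natDegree_mul_le.trans ?_
      have h1 := hE l j
      have h2 := hdeg j
      omega

/-- finitely many rows are enough -/
private theorem XA6_rows {k : Type} [Field k] {m : ℕ} {Λ : Type} (A : Λ → Fin m → k[X]) (J : Finset (Fin m)) :
    ∃ L : Finset Λ, L.card ≤ J.card ∧ ∀ z : Fin m → k[X], (∀ j, j ∉ J → z j = 0) →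
      (∀ l ∈ L, ∑ j, A l j * z j = 0) → ∀ l, ∑ j, A l j * z j = 0 := by
  classical
  obtain ⟨s, hs, hs'⟩ := exists_maximal_linearIndepOn k[X] (fun (l : Λ) (j : ↥J) => A l j)
  have hs1 : LinearIndependent k[X] (fun x : ↥s => (fun (j : ↥J) => A x j)) := hs
  have hfin : Finite ↥s := hs1.finite
  have hft : Fintype ↥s := Fintype.ofFinite _
  have hcard : Fintype.card ↥s ≤ J.card := by
    have h1 := hs1.fintype_card_le_finrank
    rwa [Module.finrank_fintype_fun_eq_card, Fintype.card_coe] at h1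
  refine ⟨s.toFinset, by rwa [Set.toFinset_card], fun z hz hL l => ?_⟩
  have hsum : ∀ l, ∑ j, A l j * z j = ∑ j : ↥J, A l j * z j := by
    intro l
    rw [Finset.sum_coe_sort J fun j => A l j * z j]
    symm
    refine Finset.sum_subset (Finset.subset_univ J) fun j _ hj => ?_
    rw [hz j hj, mul_zero]
  by_cases hl : l ∈ s
  · exact hL l (Set.mem_toFinset.2 hl)
  · obtain ⟨a, ha, ha'⟩ := hs' l hl
    let ψ : (↥J → k[X]) →ₗ[k[X]] k[X] := ∑ j : ↥J, (z j) • (LinearMap.proj j : (↥J → k[X]) →ₗ[k[X]] k[X])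
    have hψ : ∀ x, ψ x = ∑ j : ↥J, x j * z j := by
      intro x
      simp only [ψ, LinearMap.sum_apply, LinearMap.smul_apply, LinearMap.proj_apply, smul_eq_mul]
      exact Finset.sum_congr rfl fun j _ => mul_comm _ _
    have h1 : Submodule.span k[X] ((fun (l : Λ) (j : ↥J) => A l j) '' s) ≤ LinearMap.ker ψ := by
      rw [Submodule.span_le]
      rintro _ ⟨l', hl', rfl⟩
      change ψ _ = 0
      rw [hψ, ← hsum]
      exact hL l' (Set.mem_toFinset.2 hl')
    have h2 : ψ (a • fun (j : ↥J) => A l j) = 0 := h1 ha'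
    rw [map_smul, hψ, ← hsum, smul_eq_mul] at h2
    exact (mul_eq_zero.1 h2).resolve_left ha

/-- the basis of the kernel -/
private theorem XA6_basis {k : Type} [Field k] {m : ℕ} {Λ : Type} (A : Λ → Fin m → k[X]) (E : ℕ)
    (hE : ∀ l j, (A l j).natDegree ≤ E) :
    ∃ J : Finset (Fin m), (∀ v : Fin m → k[X], (∀ l, ∑ j, A l j * v j = 0) → (∀ j, j ∉ J → v j = 0) → v = 0) ∧
      ∀ j₀, j₀ ∉ J → ∃ z : Fin m → k[X], (∀ l, ∑ j, A l j * z j = 0) ∧ z j₀ ≠ 0 ∧
        (∀ j, j ∉ J → j ≠ j₀ → z j = 0) ∧ ∀ j, (z j).natDegree ≤ m * E := by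
  classical
  let Ind : Finset (Fin m) → Prop := fun J =>
    ∀ v : Fin m → k[X], (∀ l, ∑ j, A l j * v j = 0) → (∀ j, j ∉ J → v j = 0) → v = 0
  have h0 : Ind ∅ := fun v _ hv => funext fun j => hv j (Finset.notMem_empty j)
  obtain ⟨J, hJ, hmax⟩ := (Finset.univ.filter Ind).exists_max_image Finset.card
    ⟨∅, Finset.mem_filter.2 ⟨Finset.mem_univ _, h0⟩⟩
  have hJI : Ind J := (Finset.mem_filter.1 hJ).2
  refine ⟨J, hJI, fun j₀ hj₀ => ?_⟩
  have hni : ¬ Ind (insert j₀ J) := by
    intro hc
    have h1 := hmax _ (Finset.mem_filter.2 ⟨Finset.mem_univ _, hc⟩)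
    rw [Finset.card_insert_of_notMem hj₀] at h1
    omega
  have hni' : ∃ w : Fin m → k[X], (∀ l, ∑ j, A l j * w j = 0) ∧ (∀ j, j ∉ insert j₀ J → w j = 0) ∧ w ≠ 0 := by
    by_contra hc
    push Not at hc
    exact hni fun v hv1 hv2 => hc v hv1 hv2
  obtain ⟨w, hw, hwJ, hw0⟩ := hni'
  have hwj : w j₀ ≠ 0 := by
    intro hc
    apply hw0
    refine hJI w hw fun j hj => ?_
    by_cases hjj : j = j₀
    · rw [hjj, hc]
    · exact hwJ j fun hc' => (Finset.mem_insert.1 hc').elim hjj hj
  obtain ⟨L, hL, hLr⟩ := XA6_rows A J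
  have hcard : L.card * (J.card * E + E + 1) < (insert j₀ J).card * (J.card * E + 1) := by
    rw [Finset.card_insert_of_notMem hj₀]
    have h1 : L.card * (J.card * E + E + 1) ≤ J.card * (J.card * E + E + 1) := Nat.mul_le_mul_right _ hL
    nlinarith
  obtain ⟨z, hz0, hzJ, hzd, hzL⟩ := XA6_dim A E hE L (insert j₀ J) (J.card * E) hcard
  have hy : (fun j => w j₀ * z j - z j₀ * w j) = 0 := by
    have hsupp : ∀ j, j ∉ J → w j₀ * z j - z j₀ * w j = 0 := by
      intro j hj
      by_cases hjj : j = j₀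
      · rw [hjj, mul_comm, sub_self]
      · have h1 : j ∉ insert j₀ J := fun hc' => (Finset.mem_insert.1 hc').elim hjj hj
        rw [hzJ j h1, hwJ j h1, mul_zero, mul_zero, sub_zero]
    have hcomb : ∀ l, ∑ j, A l j * (w j₀ * z j - z j₀ * w j) =
        w j₀ * ∑ j, A l j * z j - z j₀ * ∑ j, A l j * w j := by
      intro l
      rw [Finset.mul_sum, Finset.mul_sum, ← Finset.sum_sub_distrib]
      exact Finset.sum_congr rfl fun j _ => by ring
    refine hJI _ (hLr _ hsupp fun l hl => ?_) hsupp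
    rw [hcomb, hzL l hl, hw l, mul_zero, mul_zero, sub_zero]
  have hy' : ∀ j, w j₀ * z j = z j₀ * w j := fun j => sub_eq_zero.1 (congrFun hy j)
  refine ⟨z, fun l => ?_, ?_, fun j hj hjj => hzJ j fun hc' => (Finset.mem_insert.1 hc').elim hjj hj, fun j => ?_⟩
  · have h1 : w j₀ * ∑ j, A l j * z j = 0 := by
      calc w j₀ * ∑ j, A l j * z j = ∑ j, A l j * (w j₀ * z j) := by
            rw [Finset.mul_sum]
            exact Finset.sum_congr rfl fun j _ => by ring
        _ = ∑ j, A l j * (z j₀ * w j) := Finset.sum_congr rfl fun j _ => by rw [hy' j]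
        _ = z j₀ * ∑ j, A l j * w j := by
            rw [Finset.mul_sum]
            exact Finset.sum_congr rfl fun j _ => by ring
        _ = 0 := by rw [hw l, mul_zero]
    exact (mul_eq_zero.1 h1).resolve_left hwj
  · intro hc
    apply hz0
    funext j
    have h1 := hy' j
    rw [hc, zero_mul] at h1
    exact (mul_eq_zero.1 h1).resolve_left hwj
  · refine (hzd j).trans (Nat.mul_le_mul_right _ ?_)
    have h1 := Finset.card_le_univ J
    rwa [Fintype.card_fin] at h1

/-- The kernel of a (possibly infinite) system of linear forms of degree at most `E` is spanned, up to multiples, by vectors of degree at most `m * E`: a linear form `z ↦ ∑ φ (z j) * u j` (with values in a domain `S`) which does not vanish at a kernel vector `v` does not vanish at some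
kernel vector `z` of degree at most `m * E`.

PROOF. Let `l_1, ..., l_r` be such that the rows `A l_i` are linearly independent over `k[X]` and a non zero multiple of every row is a `k[X]`-combination of these (`exists_maximal_linearIndepOn k[X] A`, as in `exists_sub`, PP/Mult.lean; `r ≤ m` by `LinearIndependent.fintype_card_le_finrank`
or `linearIndependent_le_span`). Let `J : Fin r ↪ Fin m` be a choice of columns with `det (A l_i (J j)) ≠ 0` (work over the fraction field: the rows are independent there too, so the matrix has rank `r`, and some `r × r` submatrix is invertible; compare the private theorem `a8_rows` in PG/A8.lean; or avoid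
determinants: choose a set `J` of columns maximal among those whose columns in `k[X]^r` are independent over `k[X]`; it has `r` elements).
(1) A kernel vector of the rows `l_i` which is supported on `J` is `0`. (2) For `j₀ ∉ J` there is a kernel vector `z^{(j₀)} ≠ 0` of the rows `l_i` supported on `J ∪ {j₀}`, of degree `≤ r * E`: the `k`-linear map from the vectors supported on `J ∪ {j₀}` with entries of degree `< r E + 1`
(dimension `(r + 1) (r E + 1)`) to `(k[X]_{degree < r E + 1 + E})^r` (dimension `r (r E + 1 + E) < (r + 1) (r E + 1)`) has a non zero kernel (`LinearMap.exists_ne_zero_of_finrank_lt`-like: `LinearMap.ker_ne_bot_of_finrank_lt`; `Polynomial.degreeLT`, `Polynomial.degreeLTEquiv`). By (1) `z^{(j₀)}_{j₀} ≠ 0`. It is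
orthogonal to all rows (a non zero multiple of each row is a combination of the `A l_i`).
(3) Let `π = ∏_{j₀ ∉ J} z^{(j₀)}_{j₀}` and `π_{j₀}` the product without the factor `j₀`: `π v - ∑_{j₀ ∉ J} π_{j₀} v_{j₀} z^{(j₀)}` is a kernel vector supported on `J`, so it is `0` by (1). If all the `∑ φ (z^{(j₀)}_j) u_j` vanished, then `φ π * ∑ φ (v j) u j = 0`: contradiction. -/
theorem kernel_bdd {k : Type} [Field k] {m : ℕ} {Λ : Type} (A : Λ → Fin m → k[X]) (E : ℕ)
    (hE : ∀ l j, (A l j).natDegree ≤ E) {S : Type} [CommRing S] [IsDomain S] (φ : k[X] →+* S)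
    (hφ : Function.Injective φ) (u : Fin m → S) (v : Fin m → k[X]) (hv : ∀ l, ∑ j, A l j * v j = 0)
    (hu : ∑ j, φ (v j) * u j ≠ 0) :
    ∃ z : Fin m → k[X], (∀ j, (z j).natDegree ≤ m * E) ∧ (∀ l, ∑ j, A l j * z j = 0) ∧ ∑ j, φ (z j) * u j ≠ 0 := by
  classical
  obtain ⟨J, hJ, hz⟩ := XA6_basis A E hE
  by_contra hcon
  push Not at hcon
  -- all the kernel vectors are killed by the functional
  have key : ∀ (N : ℕ) (v : Fin m → k[X]), (∀ l, ∑ j, A l j * v j = 0) →
      (Finset.univ.filter fun j => j ∉ J ∧ v j ≠ 0).card = N → ∑ j, φ (v j) * u j = 0 := by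
    intro N
    induction N using Nat.strong_induction_on with
    | _ N ih =>
      intro v hv hN
      by_cases hex : ∃ j₀, j₀ ∉ J ∧ v j₀ ≠ 0
      · obtain ⟨j₀, hj₀, hvj⟩ := hex
        obtain ⟨z, hz1, hz2, hz3, hz4⟩ := hz j₀ hj₀
        have hz5 := hcon z hz4 hz1
        have hker : ∀ l, ∑ j, A l j * (z j₀ * v j - v j₀ * z j) = 0 := by
          intro l
          have h1 : ∑ j, A l j * (z j₀ * v j - v j₀ * z j) =
              z j₀ * ∑ j, A l j * v j - v j₀ * ∑ j, A l j * z j := by
            rw [Finset.mul_sum, Finset.mul_sum, ← Finset.sum_sub_distrib]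
            exact Finset.sum_congr rfl fun j _ => by ring
          rw [h1, hv l, hz1 l, mul_zero, mul_zero, sub_zero]
        have hsub : (Finset.univ.filter fun j => j ∉ J ∧ z j₀ * v j - v j₀ * z j ≠ 0) ⊂
            (Finset.univ.filter fun j => j ∉ J ∧ v j ≠ 0) := by
          rw [Finset.ssubset_iff_of_subset]
          · refine ⟨j₀, Finset.mem_filter.2 ⟨Finset.mem_univ _, hj₀, hvj⟩, fun hc => ?_⟩
            exact (Finset.mem_filter.1 hc).2.2 (by ring)
          · intro j hj
            obtain ⟨-, hj1, hj2⟩ := Finset.mem_filter.1 hj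
            refine Finset.mem_filter.2 ⟨Finset.mem_univ _, hj1, fun hc => hj2 ?_⟩
            by_cases hjj : j = j₀
            · rw [hjj]
              ring
            · rw [hz3 j hj1 hjj, hc, mul_zero, mul_zero, sub_zero]
        have h2 := ih _ (by rw [← hN]; exact Finset.card_lt_card hsub)
          (fun j => z j₀ * v j - v j₀ * z j) hker rfl
        have h3 : ∑ j, φ (z j₀ * v j - v j₀ * z j) * u j =
            φ (z j₀) * ∑ j, φ (v j) * u j - φ (v j₀) * ∑ j, φ (z j) * u j := by
          rw [Finset.mul_sum, Finset.mul_sum, ← Finset.sum_sub_distrib]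
          refine Finset.sum_congr rfl fun j _ => ?_
          rw [map_sub, map_mul, map_mul]
          ring
        rw [h3, hz5, mul_zero, sub_zero] at h2
        refine (mul_eq_zero.1 h2).resolve_left fun hc => hz2 ?_
        exact hφ (by rw [hc, map_zero])
      · push Not at hex
        have hv0 := hJ v hv hex
        rw [hv0]
        refine Finset.sum_eq_zero fun j _ => ?_
        rw [Pi.zero_apply, map_zero, zero_mul]
  exact hu (key _ v hv rfl)


/-- PROOF. `kernel_bdd` with `S = k[X]`, `φ = RingHom.id _` and `u = Pi.single j₀ 1` for some `j₀` with `v j₀ ≠ 0`. -/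
theorem kernel_ne {k : Type} [Field k] {m : ℕ} {Λ : Type} (A : Λ → Fin m → k[X]) (E : ℕ)
    (hE : ∀ l j, (A l j).natDegree ≤ E) (v : Fin m → k[X]) (hv : ∀ l, ∑ j, A l j * v j = 0) (hv0 : v ≠ 0) :
    ∃ z : Fin m → k[X], z ≠ 0 ∧ (∀ j, (z j).natDegree ≤ m * E) ∧ ∀ l, ∑ j, A l j * z j = 0 := by
  classical
  obtain ⟨j₀, hj₀⟩ : ∃ j₀, v j₀ ≠ 0 := by
    by_contra hc
    push Not at hc
    exact hv0 (funext hc)
  have hp : ∀ z : Fin m → k[X], ∑ j, (RingHom.id k[X]) (z j) * (Pi.single j₀ 1 : Fin m → k[X]) j = z j₀ := by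
    intro z
    rw [Finset.sum_eq_single j₀]
    · rw [Pi.single_eq_same, mul_one, RingHom.id_apply]
    · intro j _ hj
      rw [Pi.single_eq_of_ne hj, mul_zero]
    · intro hc
      exact absurd (Finset.mem_univ _) hc
  obtain ⟨z, hz1, hz2, hz3⟩ := kernel_bdd A E hE (RingHom.id k[X]) Function.injective_id (Pi.single j₀ 1) v hv
    (by rw [hp]; exact hj₀)
  refine ⟨z, ?_, hz1, hz2⟩
  intro hc
  rw [hp, hc] at hz3
  exact hz3 rfl


end Pool.Agent.Lib.MP_bbe012_lc.XS
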