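import Pool.Agent.Lib.MP_bbe012_lc.XS.A0

/-!
# LEAF XA7 (medium): vectors of polynomials orthogonal to many horizontal sections are dependent
-/

set_option autoImplicit false

namespace Pool.Agent.Lib.MP_bbe012_lc.XS

open Polynomial

private theorem XA7_set {k : Type} [Field k] {m : ℕ} (W : Submodule k (Fin m → k)) (ρ : ℕ)
    (hW : m ≤ ρ + Module.finrank k W) :
    ∃ J : Finset (Fin m), J.card ≤ ρ ∧ ∀ x : Fin m → k, (∀ j ∈ J, x j = 0) →
      (∀ c ∈ W, ∑ i, x i * c i = 0) → x = 0 := by
  classical
  obtain ⟨κ, a, ha, hspan, hli⟩ := exists_linearIndependent' k (fun j : Fin m => W.mkQ (Pi.basisFun k (Fin m) j))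
  have hfin : Finite κ := Finite.of_injective a ha
  have : Fintype κ := Fintype.ofFinite κ
  have htop : Submodule.span k (Set.range fun j : Fin m => W.mkQ (Pi.basisFun k (Fin m) j)) = ⊤ := by
    have h1 : (Set.range fun j : Fin m => W.mkQ (Pi.basisFun k (Fin m) j)) =
        W.mkQ '' Set.range (Pi.basisFun k (Fin m)) := by
      rw [← Set.range_comp]
      rfl
    rw [h1, ← Submodule.map_span, (Pi.basisFun k (Fin m)).span_eq, Submodule.map_top, Submodule.range_mkQ]
  rw [htop] at hspan
  refine ⟨Finset.univ.image a, ?_, fun x hx hc => ?_⟩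
  · refine Finset.card_image_le.trans ?_
    rw [Finset.card_univ]
    have h1 := hli.fintype_card_le_finrank
    have h2 := Submodule.finrank_quotient_add_finrank W
    rw [Module.finrank_fin_fun] at h2
    omega
  · obtain ⟨φ, hφ⟩ : ∃ φ : (Fin m → k) →ₗ[k] k, ∀ c, φ c = ∑ i, x i * c i :=
      ⟨∑ i, x i • LinearMap.proj i, fun c => by
        simp only [LinearMap.coe_sum, Finset.sum_apply, LinearMap.smul_apply, LinearMap.proj_apply, smul_eq_mul]⟩
    have hW0 : W ≤ LinearMap.ker φ := by
      intro c hcW
      rw [LinearMap.mem_ker, hφ]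
      exact hc c hcW
    have hb : ∀ j, φ (Pi.basisFun k (Fin m) j) = x j := by
      intro j
      rw [hφ, Pi.basisFun_apply, Finset.sum_eq_single j]
      · rw [Pi.single_eq_same, mul_one]
      · intro i _ hi
        rw [Pi.single_eq_of_ne hi, mul_zero]
      · intro h
        exact absurd (Finset.mem_univ _) h
    have h0 : W.liftQ φ hW0 = 0 := by
      refine LinearMap.ext_on_range hspan fun i => ?_
      simp only [Function.comp_apply, Submodule.mkQ_apply, Submodule.liftQ_apply, LinearMap.zero_apply]
      rw [hb]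
      exact hx _ (Finset.mem_image_of_mem a (Finset.mem_univ i))
    funext j
    rw [← hb j, ← Submodule.liftQ_apply W φ (h := hW0), h0]
    rfl

private theorem XA7_const {k : Type} [Field k] {m : ℕ} {H : Fin m → Fin m → PowerSeries k}
    (hH : ∀ c i, PowerSeries.constantCoeff (H c i) = if i = c then 1 else 0) (c : Fin m → k) (j : Fin m) :
    PowerSeries.constantCoeff (comb H c j) = c j := by
  unfold comb
  rw [map_sum, Finset.sum_eq_single j]
  · rw [map_mul, hH, if_pos rfl, mul_one]
    exact PowerSeries.constantCoeff_C _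
  · intro i _ hi
    rw [map_mul, hH, if_neg (fun h => hi h.symm), mul_zero]
  · intro h
    exact absurd (Finset.mem_univ _) h

private theorem XA7_zero {k : Type} [Field k] {m : ℕ} {H : Fin m → Fin m → PowerSeries k}
    (hH : ∀ c i, PowerSeries.constantCoeff (H c i) = if i = c then 1 else 0) (W : Submodule k (Fin m → k))
    {J : Finset (Fin m)} (hJ : ∀ x : Fin m → k, (∀ j ∈ J, x j = 0) → (∀ c ∈ W, ∑ i, x i * c i = 0) → x = 0)
    {x : Fin m → k[X]} (hx : ∀ j ∈ J, x j = 0) (hp : ∀ c ∈ W, pr x (comb H c) = 0) : ∀ j, x j = 0 := by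
  have hdvd : ∀ n : ℕ, ∀ j, X ^ n ∣ x j := by
    intro n
    induction n with
    | zero =>
      intro j
      rw [pow_zero]
      exact one_dvd _
    | succ n ih =>
      choose y hy using ih
      have hXn : (X : k[X]) ^ n ≠ 0 := pow_ne_zero _ X_ne_zero
      have hy0 : ∀ j ∈ J, y j = 0 := by
        intro j hj
        have h1 := hx j hj
        rw [hy j] at h1
        exact (mul_eq_zero.mp h1).resolve_left hXn
      have hpy : ∀ c ∈ W, pr y (comb H c) = 0 := by
        intro c hc
        have h1 := hp c hc
        have h2 : pr x (comb H c) = PowerSeries.X ^ n * pr y (comb H c) := by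
          unfold pr
          rw [Finset.mul_sum]
          refine Finset.sum_congr rfl fun i _ => ?_
          rw [hy i, Polynomial.coe_mul, Polynomial.coe_pow, Polynomial.coe_X]
          ring
        rw [h2] at h1
        exact (mul_eq_zero.mp h1).resolve_left (pow_ne_zero _ PowerSeries.X_ne_zero)
      have hc0 : (fun j => (y j).coeff 0) = 0 := by
        refine hJ _ (fun j hj => ?_) fun c hc => ?_
        · rw [hy0 j hj, coeff_zero]
        · have h1 := congrArg (fun f => PowerSeries.constantCoeff f) (hpy c hc)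
          unfold pr at h1
          simp only [map_sum, map_mul, map_zero] at h1
          rw [← h1]
          refine Finset.sum_congr rfl fun i _ => ?_
          rw [XA7_const hH, ← Polynomial.constantCoeff_apply]
          congr 1
      intro j
      rw [hy j, pow_succ]
      apply mul_dvd_mul_left
      rw [X_dvd_iff]
      exact congrFun hc0 j
  intro j
  ext d
  rw [coeff_zero]
  exact X_pow_dvd_iff.mp (hdvd (d + 1) j) d (Nat.lt_succ_self d)

/-- PROOF. (1) There is `J : Finset (Fin m)` with `J.card ≤ ρ` such that a vector `x : Fin m → k` with `x j = 0` for `j ∈ J` and `∑ i, c i * x i = 0` for all `c ∈ W` is `0`: the images of the standard basis vectors `Pi.single j 1` span the quotient `(Fin m → k) ⧸ W`, of dimension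
`m - finrank W ≤ ρ` (`Submodule.finrank_quotient_add_finrank`); choose a basis among them (`exists_linearIndependent'`, or a subset `J` of minimal cardinality such that they span), so `W ⊔ span {Pi.single j 1 | j ∈ J} = ⊤`; the linear form `c ↦ ∑ c i * x i` vanishes on both, so it is zero, so `x = 0`.
(2) The `ρ + 1` vectors `(w s j)_{j ∈ J}` in `J → k[X]` are linearly dependent over `k[X]` (`LinearIndependent.fintype_card_le_finrank`, `Module.finrank_fintype_fun_eq_card`, `Fintype.not_linearIndependent_iff`): `∑ s, q s * w s j = 0` for `j ∈ J`, `q ≠ 0`. Put `x j = ∑ s, q s * w s j`: `x j = 0` for `j ∈ J` and `pr x (comb H c) = 0` for all `c ∈ W`.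
(3) Claim: `X ^ n ∣ x j` for all `n`, `j` (so `x = 0`: `Polynomial.X_pow_dvd_iff`, `Polynomial.ext`). Induction on `n`: let `x j = X ^ n * y j` for all `j`. Then `y j = 0` for `j ∈ J`, and `pr y (comb H c) = 0` for `c ∈ W` (cancel `X ^ n` in the domain `PowerSeries k`); its constant coefficient is `∑ i, (y i).coeff 0 * c i`
(`hH`: the constant coefficient of `comb H c i` is `c i`). By (1) `(y j).coeff 0 = 0` for all `j`, so `X ∣ y j` (`Polynomial.X_dvd_iff`) and `X ^ (n + 1) ∣ x j`. -/
theorem dep_of_hor {k : Type} [Field k] {m : ℕ} {H : Fin m → Fin m → PowerSeries k}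
    (hH : ∀ c i, PowerSeries.constantCoeff (H c i) = if i = c then 1 else 0) (W : Submodule k (Fin m → k)) (ρ : ℕ)
    (hW : m ≤ ρ + Module.finrank k W) (w : Fin (ρ + 1) → Fin m → k[X])
    (hw : ∀ c ∈ W, ∀ s, pr (w s) (comb H c) = 0) :
    ∃ q : Fin (ρ + 1) → k[X], q ≠ 0 ∧ ∀ j, ∑ s, q s * w s j = 0 := by
  classical
  obtain ⟨J, hJc, hJ⟩ := XA7_set W ρ hW
  have hnl : ¬ LinearIndependent k[X] (fun (s : Fin (ρ + 1)) (j : J) => w s j) := by
    intro hli
    have h1 := hli.fintype_card_le_finrank
    rw [Module.finrank_fintype_fun_eq_card, Fintype.card_fin, Fintype.card_coe] at h1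
    omega
  obtain ⟨q, hq, s₀, hs₀⟩ := Fintype.not_linearIndependent_iff.mp hnl
  refine ⟨q, fun h => hs₀ (by rw [h]; rfl), ?_⟩
  refine XA7_zero hH W hJ (fun j hj => ?_) fun c hc => ?_
  · have h1 := congrFun hq ⟨j, hj⟩
    simp only [Finset.sum_apply, Pi.smul_apply, smul_eq_mul, Pi.zero_apply] at h1
    exact h1
  · have h1 : pr (fun j => ∑ s, q s * w s j) (comb H c) =
        ∑ s, (q s : PowerSeries k) * pr (w s) (comb H c) := by
      unfold pr
      simp only [Finset.mul_sum]
      rw [Finset.sum_comm]
      refine Finset.sum_congr rfl fun i _ => ?_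
      have h2 : ((∑ s, q s * w s i : k[X]) : PowerSeries k) = ∑ s, (q s : PowerSeries k) * (w s i : PowerSeries k) := by
        rw [← Polynomial.coeToPowerSeries.ringHom_apply, map_sum]
        refine Finset.sum_congr rfl fun s _ => ?_
        rw [map_mul]
        rfl
      rw [h2, Finset.sum_mul]
      refine Finset.sum_congr rfl fun s _ => ?_
      ring
    rw [h1]
    refine Finset.sum_eq_zero fun s _ => ?_
    rw [hw c hc s, mul_zero]

end Pool.Agent.Lib.MP_bbe012_lc.XS
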