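import Pool.Agent.Lib.MP_bbe012_lc.XS.A1
import Pool.Agent.Lib.MP_bbe012_lc.XS.A4
import Pool.Agent.Lib.MP_bbe012_lc.XS.A5
import Pool.Agent.Lib.MP_bbe012_lc.XS.A6
import Pool.Agent.Lib.MP_bbe012_lc.XS.A7

/-!
# LEAF XA9 (medium+): the differential module generated by `v` contains a vector of bounded degree
-/

set_option autoImplicit false

namespace Pool.Agent.Lib.MP_bbe012_lc.XS

open Polynomial

/-- a relation of the iterated derivatives whose last coefficient is not zero -/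
private def XA9_Q {k : Type} [Field k] {m : ℕ} (T : k[X]) (B : Fin m → Fin m → k[X]) (v : Fin m → k[X]) (ρ : ℕ) :
    Prop :=
  ∃ c : ℕ → k[X], c ρ ≠ 0 ∧ ∀ i, ∑ s ∈ Finset.range (ρ + 1), c s * it T B v s i = 0

private theorem XA9_last {k : Type} [Field k] {m : ℕ} {T : k[X]} {B : Fin m → Fin m → k[X]} {v : Fin m → k[X]}
    {n : ℕ} (b : ℕ → k[X]) (hb : ∀ i, ∑ s ∈ Finset.range n, b s * it T B v s i = 0) (h : ∃ s, s < n ∧ b s ≠ 0) :
    ∃ ρ, ρ < n ∧ XA9_Q T B v ρ := by
  classical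
  obtain ⟨s₀, hs₀, hbs⟩ := h
  have hne : ((Finset.range n).filter fun s => b s ≠ 0).Nonempty :=
    ⟨s₀, Finset.mem_filter.2 ⟨Finset.mem_range.2 hs₀, hbs⟩⟩
  obtain ⟨ρ, hρ⟩ : ∃ ρ, ρ = ((Finset.range n).filter fun s => b s ≠ 0).max' hne := ⟨_, rfl⟩
  have hmem := Finset.max'_mem _ hne
  rw [← hρ, Finset.mem_filter, Finset.mem_range] at hmem
  refine ⟨ρ, hmem.1, b, hmem.2, fun i => ?_⟩
  rw [← hb i]
  refine Finset.sum_subset (fun s hs => ?_) (fun s hs hs' => ?_)
  · rw [Finset.mem_range] at hs ⊢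
    omega
  · rw [Finset.mem_range] at hs hs'
    by_cases h0 : b s = 0
    · rw [h0, zero_mul]
    · have h1 := Finset.le_max' ((Finset.range n).filter fun s => b s ≠ 0) s
        (Finset.mem_filter.2 ⟨Finset.mem_range.2 hs, h0⟩)
      rw [← hρ] at h1
      omega

private theorem XA9_ex {k : Type} [Field k] {m : ℕ} (T : k[X]) (B : Fin m → Fin m → k[X]) (v : Fin m → k[X]) :
    ∃ ρ, ρ < m + 1 ∧ XA9_Q T B v ρ := by
  have h1 : ¬ LinearIndependent k[X] fun s : Fin (m + 1) => it T B v s := by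
    intro h
    have h2 := h.fintype_card_le_finrank
    rw [Fintype.card_fin, Module.finrank_fin_fun] at h2
    omega
  rw [Fintype.not_linearIndependent_iff] at h1
  obtain ⟨g, hg, s₀, hs₀⟩ := h1
  refine XA9_last (n := m + 1) (fun s => if h : s < m + 1 then g ⟨s, h⟩ else 0) (fun i => ?_)
    ⟨s₀, s₀.2, ?_⟩
  · have h2 := congrFun hg i
    rw [Finset.sum_apply, Pi.zero_apply] at h2
    rw [← h2, Finset.sum_range]
    refine Finset.sum_congr rfl fun s _ => ?_
    rw [dif_pos s.2, Pi.smul_apply, smul_eq_mul]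
  · rw [dif_pos s₀.2]
    exact hs₀

private theorem XA9_LD {k : Type} [Field k] (T : k[X]) (s : ℕ) : (LD T)^[s] 0 = 0 := by
  refine Function.iterate_fixed ?_ s
  unfold LD
  rw [map_zero, mul_zero]

/-- the vectors `z, it T B v 0, ..., it T B v (ρ - 1)` -/
private noncomputable def XA9_w {k : Type} [Field k] {m : ℕ} (T : k[X]) (B : Fin m → Fin m → k[X]) (v z : Fin m → k[X])
    (ρ : ℕ) : Fin (ρ + 1) → Fin m → k[X] :=
  Fin.cons z fun s : Fin ρ => it T B v s

/-- PROOF. `H` from `sol_exists`; `d, E, p` from `forms H`; `e = natDegree T + ∑ natDegree (B i j)`. Given `u`, `D`, `v` with `pr v u ≠ 0` (so `v ≠ 0` and `m ≥ 1`). Let `ρ` be the smallest natural number such that `it T B v 0, ..., it T B v ρ` satisfy a relation `∑ s ≤ ρ, c s * it T B v s i = 0` (all `i`) with `c ρ ≠ 0`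
(one exists with `ρ ≤ m`: `m + 1` vectors in `k[X]^m` are dependent over `k[X]`, and the last non zero coefficient gives such a relation; `1 ≤ ρ` since `v ≠ 0`). By minimality a relation `∑ s < ρ, b s * it T B v s = 0` has all `b s = 0` for `s < ρ` (else the last non zero coefficient gives a smaller `ρ`).
By `hor_dim`: `m ≤ ρ + finrank (hor H v)`. For `a ∈ hor H v` and all `s`: `pr (it T B v s) (comb H a) = (LD T)^[s] (pr v (comb H a)) = 0` (`it_pair`, `sol_comb`).
(1) `z`: apply `kernel_bdd` to the forms `A (a, l) j = ∑ i, C (a i) * p i j l`, `a ∈ hor H v`, `l : Fin d` (index type `↥(hor H v) × Fin d`), of degree `≤ E`, with `φ = Polynomial.coeToPowerSeries.ringHom` and the given `u`: `z` of degree `≤ m * E` with `pr z (comb H a) = 0` for all `a ∈ hor H v` (`forms`) and `pr z u ≠ 0`.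
(2) `dep_of_hor` for the `ρ + 1` vectors `z, it T B v 0, ..., it T B v (ρ - 1)` (`Fin.cons`): a relation `q_0 z + ∑ s < ρ, q_{s+1} it T B v s = 0`, `q ≠ 0`. (3) `kernel_ne` for the system with the unknowns `q : Fin (ρ + 1) → k[X]` and one row for every coordinate `j`; the entries have degree `≤ m E + D + m e` (`natDegree_it`, `ρ ≤ m`):
a relation of degree `≤ (m + 1) (m E + D + m e)`, not all coefficients zero. Its `q_0` is not zero (otherwise `∑ s < ρ, q_{s+1} it T B v s = 0` and all are zero). `Δ = q_0`, `b s = - q_{s+1}` for `s < ρ`, `b s = 0` for `ρ ≤ s < m`. `C = (m + 1) * (m E + m e + 1)`. -/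
theorem core {k : Type} [Field k] [CharZero k] {m : ℕ} (T : k[X]) (hT : T.coeff 0 ≠ 0) (B : Fin m → Fin m → k[X]) :
    ∃ C : ℕ, ∀ (u : Fin m → PowerSeries k) (D : ℕ) (v : Fin m → k[X]), (∀ i, (v i).natDegree ≤ D) → pr v u ≠ 0 →
      ∃ (z : Fin m → k[X]) (Δ : k[X]) (b : ℕ → k[X]), (∀ j, (z j).natDegree ≤ C) ∧ pr z u ≠ 0 ∧ Δ ≠ 0 ∧
        Δ.natDegree ≤ C * (D + 1) ∧ ∀ j, Δ * z j = ∑ s ∈ Finset.range m, b s * it T B v s j := by
  obtain ⟨H, hSol, hH⟩ := sol_exists T hT B
  obtain ⟨d, E, p, hp, hforms⟩ := forms H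
  have hT0 : T ≠ 0 := by
    intro h
    rw [h, coeff_zero] at hT
    exact hT rfl
  obtain ⟨e, he⟩ : ∃ e, e = T.natDegree + ∑ i, ∑ j, (B i j).natDegree := ⟨_, rfl⟩
  have hTe : T.natDegree ≤ e := by
    rw [he]
    exact Nat.le_add_right _ _
  have hBe : ∀ i j, (B i j).natDegree ≤ e := by
    intro i j
    have h1 : (B i j).natDegree ≤ ∑ j, (B i j).natDegree :=
      Finset.single_le_sum (f := fun j => (B i j).natDegree) (fun _ _ => Nat.zero_le _) (Finset.mem_univ j)
    have h2 : ∑ j, (B i j).natDegree ≤ ∑ i, ∑ j, (B i j).natDegree :=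
      Finset.single_le_sum (f := fun i => ∑ j, (B i j).natDegree) (fun _ _ => Nat.zero_le _) (Finset.mem_univ i)
    omega
  refine ⟨(m + 1) * (m * E + m * e + 1), fun u D v hv hpr => ?_⟩
  -- the smallest relation
  have hex : ∃ ρ, XA9_Q T B v ρ := by
    obtain ⟨ρ, -, h⟩ := XA9_ex T B v
    exact ⟨ρ, h⟩
  obtain ⟨ρ, hρm, ⟨c, hc, hrel⟩, hmin⟩ : ∃ ρ, ρ ≤ m ∧ XA9_Q T B v ρ ∧ ∀ ρ' < ρ, ¬ XA9_Q T B v ρ' := by
    classical
    refine ⟨Nat.find hex, ?_, Nat.find_spec hex, fun ρ' h => Nat.find_min hex h⟩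
    obtain ⟨ρ, h1, h2⟩ := XA9_ex T B v
    have h3 := Nat.find_min' hex h2
    omega
  have hmin' : ∀ b : ℕ → k[X], (∀ i, ∑ s ∈ Finset.range ρ, b s * it T B v s i = 0) → ∀ s, s < ρ → b s = 0 := by
    intro b hb s hs
    by_contra hne
    obtain ⟨ρ', h1, h2⟩ := XA9_last b hb ⟨s, hs, hne⟩
    exact hmin ρ' h1 h2
  have hW := hor_dim hT0 hSol v ρ c hc hrel
  have horth : ∀ a ∈ hor H v, ∀ s, pr (it T B v s) (comb H a) = 0 := by
    intro a ha s
    rw [← it_pair (sol_comb hSol a) v s, mem_hor.1 ha, XA9_LD]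
  -- (1)
  obtain ⟨z, hz1, hz2, hz3⟩ := kernel_bdd (Λ := ↥(hor H v) × Fin d)
    (fun al j => ∑ i, C (al.1.1 i) * p i j al.2) E
    (fun al j => natDegree_sum_le_of_forall_le _ _ fun i _ => (natDegree_C_mul_le _ _).trans (hp i j al.2))
    (Polynomial.coeToPowerSeries.ringHom : k[X] →+* PowerSeries k) (Polynomial.coe_injective k) u v
    (fun al => (hforms al.1.1 v).1 (mem_hor.1 al.1.2) al.2) hpr
  have hzorth : ∀ a ∈ hor H v, pr z (comb H a) = 0 := fun a ha =>
    (hforms a z).2 fun l => hz2 (⟨a, ha⟩, l)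
  -- (2)
  obtain ⟨q, hq0, hq⟩ := dep_of_hor hH (hor H v) ρ hW (XA9_w T B v z ρ) (fun a ha s => by
    refine Fin.cases ?_ (fun s => ?_) s
    · exact hzorth a ha
    · exact horth a ha s)
  -- (3)
  have hdeg : ∀ (j : Fin m) (s : Fin (ρ + 1)), (XA9_w T B v z ρ s j).natDegree ≤ m * E + D + m * e := by
    intro j s
    refine Fin.cases ?_ (fun s => ?_) s
    · show (z j).natDegree ≤ _
      have h1 := hz1 j
      omega
    · show (it T B v s j).natDegree ≤ _
      have h1 := natDegree_it hTe hBe hv s j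
      have h2 : (s : ℕ) * e ≤ m * e := Nat.mul_le_mul_right _ (by omega)
      omega
  obtain ⟨q', hq'0, hq'1, hq'2⟩ := kernel_ne (Λ := Fin m) (fun j s => XA9_w T B v z ρ s j) (m * E + D + m * e) hdeg q
    (fun j => by
      rw [← hq j]
      exact Finset.sum_congr rfl fun s _ => mul_comm _ _) hq0
  have hsplit : ∀ j, q' 0 * z j + ∑ s : Fin ρ, q' s.succ * it T B v s j = 0 := by
    intro j
    have h1 := hq'2 j
    rw [Fin.sum_univ_succ] at h1
    rw [← h1]
    refine congrArg₂ _ (mul_comm _ _) (Finset.sum_congr rfl fun s _ => mul_comm _ _)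
  obtain ⟨b, hb⟩ : ∃ b : ℕ → k[X], b = fun s => if h : s < ρ then - q' (Fin.succ ⟨s, h⟩) else 0 := ⟨_, rfl⟩
  have hbs : ∀ s : Fin ρ, b s = - q' s.succ := by
    intro s
    rw [hb]
    exact dif_pos s.2
  have hbsum : ∀ j, ∑ s ∈ Finset.range ρ, b s * it T B v s j = q' 0 * z j := by
    intro j
    have h1 := hsplit j
    rw [Finset.sum_range]
    have h2 : ∑ s : Fin ρ, b s * it T B v s j = - ∑ s : Fin ρ, q' s.succ * it T B v s j := by
      rw [← Finset.sum_neg_distrib]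
      refine Finset.sum_congr rfl fun s _ => ?_
      rw [hbs, neg_mul]
    rw [h2]
    linear_combination -h1
  have hΔ : q' 0 ≠ 0 := by
    intro h0
    apply hq'0
    have h1 := hmin' b fun i => by rw [hbsum i, h0, zero_mul]
    funext s
    refine Fin.cases h0 (fun s => ?_) s
    have h2 := h1 s s.2
    rw [hbs, neg_eq_zero] at h2
    exact h2
  refine ⟨z, q' 0, b, fun j => ?_, hz3, hΔ, ?_, fun j => ?_⟩
  · refine (hz1 j).trans ?_
    have h1 : m * E ≤ m * E + m * e + 1 := by omega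
    exact h1.trans (Nat.le_mul_of_pos_left _ (by omega))
  · refine (hq'1 0).trans ?_
    have h1 : (ρ + 1) * (m * E + D + m * e) ≤ (m + 1) * (m * E + D + m * e) := Nat.mul_le_mul_right _ (by omega)
    refine h1.trans ?_
    rw [mul_assoc]
    refine Nat.mul_le_mul_left _ ?_
    have h2 : (m * E + m * e + 1) * (D + 1) = (m * E + m * e) * D + (m * E + m * e) + D + 1 := by ring
    rw [h2]
    omega
  · rw [← hbsum j]
    refine Finset.sum_subset (fun s hs => ?_) (fun s _ hs => ?_)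
    · rw [Finset.mem_range] at hs ⊢
      omega
    · rw [Finset.mem_range] at hs
      rw [hb]
      simp only
      rw [dif_neg hs, zero_mul]

end Pool.Agent.Lib.MP_bbe012_lc.XS
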