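import Pool.Agent.Lib.MP_bbe012_lc.XS.A8
import Pool.Agent.Lib.MP_bbe012_lc.XS.A9

/-!
# LEAF XA10 (medium-): the zero estimate
-/

set_option autoImplicit false

namespace Pool.Agent.Lib.MP_bbe012_lc.XS

open Polynomial

private theorem XA10_mul {k : Type} [Field k] (f g : PowerSeries k) (a b : ℕ)
    (hf : ¬ (PowerSeries.X : PowerSeries k) ^ a ∣ f) (hg : ¬ (PowerSeries.X : PowerSeries k) ^ b ∣ g) :
    ¬ (PowerSeries.X : PowerSeries k) ^ (a + b) ∣ f * g := by
  intro h
  rw [pow_dvd_iff_le_emultiplicity] at hf hg h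
  rw [emultiplicity_mul PowerSeries.X_prime] at h
  rw [not_le] at hf hg
  generalize emultiplicity (PowerSeries.X : PowerSeries k) f = x at hf h
  generalize emultiplicity (PowerSeries.X : PowerSeries k) g = y at hg h
  lift x to ℕ using hf.ne_top
  lift y to ℕ using hg.ne_top
  norm_cast at hf hg h
  omega

private theorem XA10_pr {k : Type} [Field k] {m : ℕ} (u : Fin m → PowerSeries k) (S : Finset ℕ) (Δ : k[X])
    (z : Fin m → k[X]) (b : ℕ → k[X]) (w : ℕ → Fin m → k[X]) (h : ∀ j, Δ * z j = ∑ s ∈ S, b s * w s j) :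
    (Δ : PowerSeries k) * pr z u = ∑ s ∈ S, (b s : PowerSeries k) * pr (w s) u := by
  unfold pr
  rw [Finset.mul_sum]
  simp only [Finset.mul_sum]
  rw [Finset.sum_comm]
  refine Finset.sum_congr rfl fun j _ => ?_
  rw [← mul_assoc, ← Polynomial.coe_mul, h j, ← Polynomial.coeToPowerSeries.ringHom_apply, map_sum, Finset.sum_mul]
  refine Finset.sum_congr rfl fun s _ => ?_
  rw [Polynomial.coeToPowerSeries.ringHom_apply, Polynomial.coe_mul, mul_assoc]

/-- PROOF. `C₁` from `core`, `c'` from `order_bdd u C₁`. Let `v` be as in the statement, `n` a number with `X ^ n ∣ pr v u` and suppose `m ≤ n` (`C` will be `≥ m + 1`). `z, Δ, b` from `core`: `Δ * pr z u = ∑ s < m, b s * pr (it T B v s) u = ∑ s < m, b s * (LD T)^[s] (pr v u)` (`it_pair hu`), divisible by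
`X ^ (n - m)` (`dvd_LD` for every `s < m`, `n = (n - s) + s`). But `pr z u` is not divisible by `X ^ c'` and `Δ` (as a power series) is not divisible by `X ^ (natDegree Δ + 1)` (`Polynomial.X_pow_dvd_iff`/`Polynomial.natTrailingDegree_le_natDegree`; its coefficient of index `natDegree Δ` is not zero), so the product is not divisible by
`X ^ (natDegree Δ + c' + 1)`: the order of a product is the sum of the orders (`PowerSeries.order_mul`, or `multiplicity`/`emultiplicity_mul` with the prime `PowerSeries.X_prime`; or: if `X ^ (a + b) ∣ f * g`, then `X ^ a ∣ f` or `X ^ b ∣ g`). So `n - m ≤ C₁ (D + 1) + c'`, `n < m + C₁ (D + 1) + c' + 1`. `C = m + C₁ + c' + 1`. -/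
theorem zero_est {k : Type} [Field k] [CharZero k] {m : ℕ} (T : k[X]) (hT : T.coeff 0 ≠ 0)
    (B : Fin m → Fin m → k[X]) (u : Fin m → PowerSeries k) (hu : Sol T B u) :
    ∃ C : ℕ, ∀ (D : ℕ) (v : Fin m → k[X]), (∀ i, (v i).natDegree ≤ D) → pr v u ≠ 0 →
      ¬ (PowerSeries.X : PowerSeries k) ^ (C * (D + 1)) ∣ pr v u := by
  obtain ⟨C₁, hC₁⟩ := core T hT B
  obtain ⟨c', hc'⟩ := order_bdd u C₁
  refine ⟨m + C₁ + c' + 1, fun D v hv hne hdvd => ?_⟩
  obtain ⟨z, Δ, b, hz, hzu, hΔ, hΔd, hrel⟩ := hC₁ u D v hv hne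
  obtain ⟨N, hN⟩ : ∃ N : ℕ, N = (m + C₁ + c' + 1) * (D + 1) := ⟨_, rfl⟩
  rw [← hN] at hdvd
  have hN1 : m + (Δ.natDegree + 1 + c') ≤ N := by
    have e1 : (m + C₁ + c' + 1) * (D + 1) = C₁ * (D + 1) + (m + c' + 1) * (D + 1) := by ring
    have e2 : m + c' + 1 ≤ (m + c' + 1) * (D + 1) := Nat.le_mul_of_pos_right _ (Nat.succ_pos D)
    rw [hN, e1]
    omega
  have h1 : ∀ s ∈ Finset.range m, (PowerSeries.X : PowerSeries k) ^ (N - m) ∣ pr (it T B v s) u := by
    intro s hs
    rw [← it_pair hu]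
    apply dvd_LD
    have hs' := Finset.mem_range.1 hs
    exact (pow_dvd_pow _ (by omega)).trans hdvd
  have h2 : (PowerSeries.X : PowerSeries k) ^ (N - m) ∣ (Δ : PowerSeries k) * pr z u := by
    rw [XA10_pr u (Finset.range m) Δ z b (it T B v) hrel]
    exact Finset.dvd_sum fun s hs => (h1 s hs).mul_left _
  have h3 : ¬ (PowerSeries.X : PowerSeries k) ^ (Δ.natDegree + 1) ∣ (Δ : PowerSeries k) := by
    intro h
    have h4 := PowerSeries.X_pow_dvd_iff.1 h Δ.natDegree (Nat.lt_succ_self _)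
    rw [Polynomial.coeff_coe, Polynomial.coeff_natDegree] at h4
    exact hΔ (Polynomial.leadingCoeff_eq_zero.1 h4)
  refine XA10_mul _ _ _ _ h3 (hc' z hz hzu) ((pow_dvd_pow _ ?_).trans h2)
  omega

end Pool.Agent.Lib.MP_bbe012_lc.XS
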