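import Pool.Agent.Lib.MP_bbe012_lc.XS.A0

/-!
# LEAF XA2 (easy+): the pairing of solutions with the iterated derivatives
-/

set_option autoImplicit false

namespace Pool.Agent.Lib.MP_bbe012_lc.XS

open Polynomial

private theorem XA2_mul {k : Type} [Field k] (T : k[X]) (f g : PowerSeries k) :
    LD T (f * g) = LD T f * g + f * LD T g := by
  unfold LD
  rw [Derivation.leibniz, smul_eq_mul, smul_eq_mul]
  ring

private theorem XA2_sum {k : Type} [Field k] {ι : Type} (T : k[X]) (s : Finset ι) (f : ι → PowerSeries k) :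
    LD T (∑ i ∈ s, f i) = ∑ i ∈ s, LD T (f i) := by
  unfold LD
  rw [map_sum, Finset.mul_sum]

private theorem XA2_C {k : Type} [Field k] (T : k[X]) (a : k) (f : PowerSeries k) :
    LD T (PowerSeries.C a * f) = PowerSeries.C a * LD T f := by
  unfold LD
  rw [← PowerSeries.smul_eq_C_mul, Derivation.map_smul, PowerSeries.smul_eq_C_mul]
  ring

private theorem XA2_coe {k : Type} [Field k] (T v : k[X]) :
    LD T (v : PowerSeries k) = ((T * derivative v : k[X]) : PowerSeries k) := by
  unfold LD
  rw [PowerSeries.derivative_coe, Polynomial.coe_mul]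

private theorem XA2_coe_sum {k : Type} [Field k] {ι : Type} (s : Finset ι) (f : ι → k[X]) :
    ((∑ i ∈ s, f i : k[X]) : PowerSeries k) = ∑ i ∈ s, (f i : PowerSeries k) :=
  map_sum (Polynomial.coeToPowerSeries.ringHom (R := k)) f s

/-- PROOF. Induction on `s` (`Function.iterate_succ_apply'`): `LD T (∑ w_i u_i) = ∑ (T w_i') u_i + ∑ w_i (T u_i') = ∑_i (T w_i' + ∑_j B_{ji} w_j) u_i` (`Derivation.leibniz`, `PowerSeries.derivative_coe`,
`Polynomial.coe_mul`, `Polynomial.coe_add`, `Finset.sum_comm`). -/
theorem it_pair {k : Type} [Field k] {m : ℕ} {T : k[X]} {B : Fin m → Fin m → k[X]} {u : Fin m → PowerSeries k}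
    (hu : Sol T B u) (v : Fin m → k[X]) (s : ℕ) : (LD T)^[s] (pr v u) = pr (it T B v s) u := by
  induction s with
  | zero => rfl
  | succ s ih =>
    rw [Function.iterate_succ_apply', ih]
    have h1 : LD T (pr (it T B v s) u) = ∑ i, (((T * derivative (it T B v s i) : k[X]) : PowerSeries k) * u i +
        (it T B v s i : PowerSeries k) * ∑ j, (B i j : PowerSeries k) * u j) := by
      unfold pr
      rw [XA2_sum]
      refine Finset.sum_congr rfl fun i _ => ?_
      rw [XA2_mul, XA2_coe, hu i]
    have h2 : pr (it T B v (s + 1)) u = ∑ i, (((T * derivative (it T B v s i) : k[X]) : PowerSeries k) * u i +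
        (∑ j, (B j i : PowerSeries k) * (it T B v s j : PowerSeries k)) * u i) := by
      unfold pr
      refine Finset.sum_congr rfl fun i _ => ?_
      have h3 : it T B v (s + 1) i = T * derivative (it T B v s i) + ∑ j, B j i * it T B v s j := rfl
      rw [h3, Polynomial.coe_add, XA2_coe_sum, add_mul]
      refine congrArg _ (congrArg (· * u i) (Finset.sum_congr rfl fun j _ => ?_))
      rw [Polynomial.coe_mul]
    rw [h1, h2, Finset.sum_add_distrib, Finset.sum_add_distrib]
    refine congrArg _ ?_
    have h4 : ∀ i : Fin m, (it T B v s i : PowerSeries k) * ∑ j, (B i j : PowerSeries k) * u j =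
        ∑ j, (B i j : PowerSeries k) * (it T B v s i : PowerSeries k) * u j := by
      intro i
      rw [Finset.mul_sum]
      refine Finset.sum_congr rfl fun j _ => ?_
      ring
    rw [Finset.sum_congr rfl (fun i _ => h4 i), Finset.sum_comm]
    refine Finset.sum_congr rfl fun i _ => ?_
    rw [Finset.sum_mul]

/-- PROOF. Linearity of the equation: `LD T (C a * f) = C a * LD T f` (the derivation is `k`-linear: `PowerSeries.smul_eq_C_mul`, `Derivation.map_smul`). -/
theorem sol_comb {k : Type} [Field k] {m : ℕ} {T : k[X]} {B : Fin m → Fin m → k[X]} {H : Fin m → Fin m → PowerSeries k}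
    (hH : ∀ c, Sol T B (H c)) (c : Fin m → k) : Sol T B (comb H c) := by
  intro i
  unfold comb
  rw [XA2_sum]
  have h1 : ∀ l : Fin m, LD T (PowerSeries.C (c l) * H l i) =
      ∑ j, (B i j : PowerSeries k) * (PowerSeries.C (c l) * H l j) := by
    intro l
    rw [XA2_C, hH l i, Finset.mul_sum]
    refine Finset.sum_congr rfl fun j _ => ?_
    ring
  rw [Finset.sum_congr rfl (fun l _ => h1 l), Finset.sum_comm]
  refine Finset.sum_congr rfl fun j _ => ?_
  rw [Finset.mul_sum]

/-- PROOF. Induction on `s`: `natDegree_mul_le`, `natDegree_derivative_le`, `natDegree_sum_le_of_forall_le`. -/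
theorem natDegree_it {k : Type} [Field k] {m : ℕ} {T : k[X]} {B : Fin m → Fin m → k[X]} {e D : ℕ}
    (hT : T.natDegree ≤ e) (hB : ∀ i j, (B i j).natDegree ≤ e) {v : Fin m → k[X]} (hv : ∀ i, (v i).natDegree ≤ D)
    (s : ℕ) (i : Fin m) : (it T B v s i).natDegree ≤ D + s * e := by
  induction s generalizing i with
  | zero =>
    have h := hv i
    have h3 : it T B v 0 i = v i := rfl
    rw [h3]
    omega
  | succ s ih =>
    have h3 : it T B v (s + 1) i = T * derivative (it T B v s i) + ∑ j, B j i * it T B v s j := rfl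
    rw [h3]
    have e1 : D + (s + 1) * e = e + (D + s * e) := by ring
    rw [e1]
    refine (natDegree_add_le _ _).trans (max_le ?_ ?_)
    · refine natDegree_mul_le.trans (add_le_add hT ?_)
      have h4 := natDegree_derivative_le (it T B v s i)
      have h5 := ih i
      omega
    · refine natDegree_sum_le_of_forall_le _ _ fun j _ => ?_
      exact natDegree_mul_le.trans (add_le_add (hB j i) (ih j))

/-- PROOF. Induction on `s`, and `X ^ (n + 1) ∣ f → X ^ n ∣ f'`: `f = X ^ (n + 1) g`, `Derivation.leibniz`, `Derivation.leibniz_pow` (or `PowerSeries.X_pow_dvd_iff` and `PowerSeries.coeff_derivative`). -/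
theorem dvd_LD {k : Type} [Field k] (T : k[X]) (s n : ℕ) (f : PowerSeries k)
    (h : (PowerSeries.X : PowerSeries k) ^ (n + s) ∣ f) : (PowerSeries.X : PowerSeries k) ^ n ∣ (LD T)^[s] f := by
  induction s generalizing f with
  | zero => exact h
  | succ s ih =>
    rw [Function.iterate_succ_apply]
    refine ih _ ?_
    unfold LD
    refine Dvd.dvd.mul_left ?_ _
    rw [PowerSeries.X_pow_dvd_iff] at h ⊢
    intro a ha
    rw [PowerSeries.coeff_derivative, h (a + 1) (by omega), zero_mul]

end Pool.Agent.Lib.MP_bbe012_lc.XS
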