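import Pool.Agent.Lib.MP_bbe012_lc.XS.A0

/-!
# LEAF XA8 (easy): bounded order of vanishing of the combinations of bounded degree
-/

set_option autoImplicit false

namespace Pool.Agent.Lib.MP_bbe012_lc.XS

open Polynomial

/-- PROOF. Copy `order_bound` of PP/OrderBd.lean (there `k = ℚ` and the `u i` are independent): the subspaces `F n` of the finite dimensional space of the vectors `a` of degree `≤ c` with `X ^ n ∣ pr a u` are decreasing, so stationary (`IsArtinian.monotone_stabilizes`): `F c' = F n` for all `n ≥ c'`; a member of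
`F c'` has `pr a u` divisible by all powers of `X`, so `pr a u = 0`. -/
theorem order_bdd {k : Type} [Field k] {m : ℕ} (u : Fin m → PowerSeries k) (c : ℕ) :
    ∃ c' : ℕ, ∀ a : Fin m → k[X], (∀ i, (a i).natDegree ≤ c) → pr a u ≠ 0 →
      ¬ (PowerSeries.X : PowerSeries k) ^ c' ∣ pr a u := by
  classical
  have hfin : Module.Finite k (Polynomial.degreeLT k (c + 1)) :=
    Module.Finite.equiv (Polynomial.degreeLTEquiv k (c + 1)).symm
  let F : ℕ → Submodule k (Fin m → Polynomial.degreeLT k (c + 1)) := fun n =>
    { carrier := {a | (PowerSeries.X : PowerSeries k) ^ n ∣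
        ∑ i, (((a i : Polynomial.degreeLT k (c + 1)) : k[X]) : PowerSeries k) * u i}
      add_mem' := by
        intro a b ha hb
        have h : ∑ i, ((((a + b) i : Polynomial.degreeLT k (c + 1)) : k[X]) : PowerSeries k) * u i
            = ∑ i, (((a i : Polynomial.degreeLT k (c + 1)) : k[X]) : PowerSeries k) * u i +
              ∑ i, (((b i : Polynomial.degreeLT k (c + 1)) : k[X]) : PowerSeries k) * u i := by
          rw [← Finset.sum_add_distrib]
          refine Finset.sum_congr rfl fun i _ => ?_
          rw [Pi.add_apply, Submodule.coe_add, Polynomial.coe_add, add_mul]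
        rw [Set.mem_ofPred_eq, h]
        exact dvd_add ha hb
      zero_mem' := by
        rw [Set.mem_ofPred_eq]
        have h : ∑ i, ((((0 : Fin m → Polynomial.degreeLT k (c + 1)) i :
            Polynomial.degreeLT k (c + 1)) : k[X]) : PowerSeries k) * u i = 0 := by
          refine Finset.sum_eq_zero fun i _ => ?_
          rw [Pi.zero_apply, Submodule.coe_zero, Polynomial.coe_zero, zero_mul]
        rw [h]
        exact dvd_zero _
      smul_mem' := by
        intro r a ha
        have h : ∑ i, ((((r • a) i : Polynomial.degreeLT k (c + 1)) : k[X]) : PowerSeries k) * u i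
            = PowerSeries.C r *
              ∑ i, (((a i : Polynomial.degreeLT k (c + 1)) : k[X]) : PowerSeries k) * u i := by
          rw [Finset.mul_sum]
          refine Finset.sum_congr rfl fun i _ => ?_
          rw [Pi.smul_apply, Submodule.coe_smul, Polynomial.smul_eq_C_mul, Polynomial.coe_mul,
            Polynomial.coe_C, mul_assoc]
        rw [Set.mem_ofPred_eq, h]
        exact Dvd.dvd.mul_left ha _ }
  have hF : ∀ n (a : Fin m → Polynomial.degreeLT k (c + 1)), a ∈ F n ↔
      (PowerSeries.X : PowerSeries k) ^ n ∣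
        ∑ i, (((a i : Polynomial.degreeLT k (c + 1)) : k[X]) : PowerSeries k) * u i :=
    fun n a => Iff.rfl
  have hanti : ∀ n l, n ≤ l → F l ≤ F n := by
    intro n l hnl a ha
    rw [hF] at ha ⊢
    exact (pow_dvd_pow _ hnl).trans ha
  let G : ℕ →o (Submodule k (Fin m → Polynomial.degreeLT k (c + 1)))ᵒᵈ :=
    ⟨fun n => OrderDual.toDual (F n), fun n l hnl => hanti n l hnl⟩
  obtain ⟨n, hn⟩ := IsArtinian.monotone_stabilizes G
  refine ⟨n, ?_⟩
  intro a hdeg ha hdvd
  let b : Fin m → Polynomial.degreeLT k (c + 1) := fun i =>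
    ⟨a i, Polynomial.mem_degreeLT.2 (lt_of_le_of_lt Polynomial.degree_le_natDegree
      (by exact_mod_cast Nat.lt_succ_of_le (hdeg i)))⟩
  have hb : b ∈ F n := (hF n b).2 hdvd
  have hall : ∀ l, n ≤ l → b ∈ F l := by
    intro l hl
    have h1 : F n = F l := hn l hl
    rw [← h1]
    exact hb
  apply ha
  unfold pr
  ext l
  have h2 := (hF (n + l + 1) b).1 (hall _ (by omega))
  rw [PowerSeries.X_pow_dvd_iff] at h2
  rw [map_zero]
  exact h2 l (by omega)

end Pool.Agent.Lib.MP_bbe012_lc.XS
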