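import Pool.Agent.Lib.MP_bbe012_lc.PM.Ct0
import Pool.Agent.Lib.MP_bbe012_lc.PG.ADefs

/-!
# Exponential sizes, block B: the interface
-/

namespace Pool.Agent.Lib.MP_bbe012_lc.XS

open MvPolynomial Set PG PM

/-- The effective non-degeneracy of the family `V` (proved in block A): in every box of side `ℓ ≥ T ^ (-2)` around a point of `S` there is a point `θ₁` at which one of the functions `G j = w * N_j`,
`N_j = ∑ i, y j i * V i` with rational polynomials `y j i` of degree at most `D`, is at least `T ^ (- C (D + 1) ^ a)`, where the common factor `w` (a constant times a fixed polynomial) is such that all the `G j` have expansions at `θ₁` bounded by `C ^ (D + 1)`. -/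
def FamPt {s r : ℕ} (Ω S : Set (Fin s → ℝ)) (V : Fin r → (Fin s → ℝ) → ℝ) (r₁ : ℝ) (C a : ℕ) : Prop :=
  ∀ (D T : ℕ), 2 ≤ T → ∀ ℓ : ℝ, 1 / (T : ℝ) ^ 2 ≤ ℓ → ℓ ≤ r₁ → ∀ θ₀ ∈ S, ∀ (q : ℕ)
    (y : Fin q → Fin r → MvPolynomial (Fin s) ℚ), (∀ j i l, (y j i).degreeOf l ≤ D) →
    (∃ j, ∃ θ ∈ Ω, ∑ i, aeval θ (y j i) * V i θ ≠ 0) →
    ∃ (θ₁ : Fin s → ℝ) (w : (Fin s → ℝ) → ℝ) (G : Fin q → (Fin s → ℝ) → ℝ) (ν : Fin q → (Fin s → ℕ) → ℝ),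
      (∀ i, |θ₁ i - θ₀ i| ≤ ℓ) ∧ (∀ j, Exp r₁ ((C : ℝ) ^ (D + 1)) θ₁ (G j) (ν j)) ∧
      (∀ j, ∀ θ ∈ Ω, G j θ = w θ * ∑ i, aeval θ (y j i) * V i θ) ∧
      ∃ j, Real.exp (-((C : ℝ) * (D + 1) ^ a * Real.log T)) ≤ |ν j 0|

end Pool.Agent.Lib.MP_bbe012_lc.XS
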