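import Pool.Agent.Lib.MP_bbe012_lc.PG.A8

/-!
# LEAF XB1 (medium-): a triangular minor

PROOF.  `I e = (e, j₀)` (the coordinates of `e` as elements of `Fin (2 * h + 1)`, `h + 1 ≤ 2 * h + 1`).  By the definition of `Ymat` (`PG/A8.lean`, `d = 2 * h`) the entry of the minor in the row `e'` and the column `e` is `ν j₀ (e' - e)` if `e ≤ e'` (coordinatewise), else `0`.
For the degree `f e = ∑ l, e l` the matrix is block triangular (an entry is not zero only if `e ≤ e'`, so `f e ≤ f e'`; take `Matrix.BlockTriangular` for `f` of the transpose, or for `OrderDual.toDual ∘ f`), and two indices of the same degree with `e ≤ e'` are equal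
(`Finset.sum_eq_sum_iff_of_le`), so every diagonal block is `ν j₀ 0` times the identity matrix.  So the determinant is the product of the `(ν j₀ 0) ^ (size of the block)`, which is `ν j₀ 0 ^ (number of the e)`.
Exactly the same argument is in the proof of `det_shift` (`PG/A7.lean`, there all diagonal entries are `1`).  Shorter: factor nothing out but use `Matrix.det_of_upperTriangular` / `det_of_lowerTriangular` for a linear extension of the order, or divide by `ν j₀ 0` after the case `ν j₀ 0 = 0`
(then the matrix of the blocks is nilpotent ...); the first way is the best.  `Fintype.card (ι → Fin (h + 1)) = (h + 1) ^ card ι`.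
-/

namespace Pool.Agent.Lib.MP_bbe012_lc.XS

open Finset PG

theorem Y_minor0 {ι J : Type} [Fintype ι] [DecidableEq ι] [Fintype J] [DecidableEq J] (ν : J → (ι → ℕ) → ℝ) (j₀ : J)
    (h : ℕ) : ∃ I : (ι → Fin (h + 1)) ↪ (ι → Fin (2 * h + 1)) × J,
      ((Ymat ν (2 * h) h).submatrix I id).det = ν j₀ 0 ^ (h + 1) ^ Fintype.card ι := by
  classical
  have hle : h + 1 ≤ 2 * h + 1 := by omega
  obtain ⟨I, hI⟩ : ∃ I : (ι → Fin (h + 1)) ↪ (ι → Fin (2 * h + 1)) × J, ∀ e, I e = (fun l => Fin.castLE hle (e l), j₀) := by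
    refine ⟨⟨fun e => (fun l => Fin.castLE hle (e l), j₀), ?_⟩, fun e => rfl⟩
    intro e e' hee
    funext l
    have h1 := congrFun (congrArg Prod.fst hee) l
    exact Fin.castLE_injective hle h1
  refine ⟨I, ?_⟩
  obtain ⟨M, hM⟩ : ∃ M : Matrix (ι → Fin (h + 1)) (ι → Fin (h + 1)) ℝ, M = Matrix.transpose ((Ymat ν (2 * h) h).submatrix I id) :=
    ⟨_, rfl⟩
  have hMe : ∀ e e' : ι → Fin (h + 1), M e e' = if ∀ l, (e l : ℕ) ≤ e' l then ν j₀ (fun l => (e' l : ℕ) - e l) else 0 := by
    intro e e'
    rw [hM, Matrix.transpose_apply, Matrix.submatrix_apply, hI]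
    rfl
  rw [← Matrix.det_transpose, ← hM]
  have hzero : ∀ e e' : ι → Fin (h + 1), (∃ l, (e' l : ℕ) < e l) → M e e' = 0 := by
    rintro e e' ⟨l, hl⟩
    rw [hMe, if_neg fun hcon => absurd (hcon l) (not_le.2 hl)]
  have htri : Matrix.BlockTriangular M (fun e => ∑ l, (e l : ℕ)) := by
    intro e e' hlt
    apply hzero
    by_contra hcon
    push Not at hcon
    exact absurd (Finset.sum_le_sum fun l _ => hcon l) (not_le.2 hlt)
  rw [htri.det]
  have hblk : ∀ k, (M.toSquareBlock (fun e => ∑ l, (e l : ℕ)) k).det =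
      ν j₀ 0 ^ (Finset.univ.filter fun e : ι → Fin (h + 1) => ∑ l, (e l : ℕ) = k).card := by
    intro k
    have hone : M.toSquareBlock (fun e => ∑ l, (e l : ℕ)) k = ν j₀ 0 • 1 := by
      ext p q
      rw [Matrix.toSquareBlock_def, Matrix.of_apply, Matrix.smul_apply, Matrix.one_apply]
      split_ifs with hpq
      · rw [hpq, hMe, if_pos fun l => le_rfl, smul_eq_mul, mul_one]
        congr 1
        funext l
        exact Nat.sub_self _
      · rw [smul_zero]
        apply hzero
        by_contra hcon
        push Not at hcon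
        have hs : ∑ l, (p.1 l : ℕ) = ∑ l, (q.1 l : ℕ) := p.2.trans q.2.symm
        have h3 := (Finset.sum_eq_sum_iff_of_le fun l _ => hcon l).1 hs
        exact hpq (Subtype.ext (funext fun l => Fin.ext (h3 l (Finset.mem_univ l))))
    rw [hone, Matrix.det_smul, Matrix.det_one, mul_one, Fintype.card_subtype]
  rw [Finset.prod_congr rfl fun k _ => hblk k, Finset.prod_pow_eq_pow_sum, ← Finset.card_eq_sum_card_image,
    Finset.card_univ, Fintype.card_fun, Fintype.card_fin]

end Pool.Agent.Lib.MP_bbe012_lc.XS
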