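import Pool.Agent.Lib.MP_bbe012_lc.XS.B1
import Pool.Agent.Lib.MP_bbe012_lc.PG.A9

/-!
# LEAF XB2 (medium): the determinant of relations near a point where one function is not small

PROOF.  Copy of `det_upper` (`PG/A9.lean`) with its private lemmas `A9_sum`, `A9_entry`, `A9_bound` (names `XB2_`), in the simpler situation of a center `θ₁` with `μ ≤ |ν j₀ 0|`.  `u i l = (σ i l - θ₁ l) / ℓ`, `|u i l| ≤ 1`; `det_shift` and `det_scale` (`PG/A7.lean`):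
`det (rowMat (2 h) σ cf) = ℓ ^ (card J * ∑ a, ∑ l, a l) * det V`, `V = rowMat (2 * h) u cf`, whose entries are at most `X` in absolute value.  Let `Y = Ymat (fun j b => ν j b * ℓ ^ dg b) (2 * h) h` (NO division by `μ`); by `Y_minor0` one minor of `Y` is
`(ν j₀ 0 * ℓ ^ dg 0) ^ E = (ν j₀ 0) ^ E`, `E = (h + 1) ^ card ι`, so at least `c = μ ^ E > 0` in absolute value.  The entry `(V * Y) i e` is `mon (u i) e * ∑ j, cf i j * ∑ b ∈ F, ν j b * ℓ ^ dg b * mon (u i) b` (`A9_entry`), `F = {b | b l ≤ 2 h - e l}` contains all `b` with `dg b < h + 1`, so by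
`Exp.approx` (`n = h + 1`) and `∑ j, cf i j * N j (σ i) = 0` it is at most `card J * X * (B * 2 ^ card ι * (2 ℓ / r) ^ (h + 1)) = X * ε` (the computation `hS` in `A9_bound`).  `det_le_of_cols` (`PG/A6.lean`) with `c = μ ^ E`, `A = X`, this `ε`.
-/

namespace Pool.Agent.Lib.MP_bbe012_lc.XS

open Finset PG

private theorem XB2_sum {ι : Type} [Fintype ι] [DecidableEq ι] (h : ℕ) (e : ι → Fin (h + 1))
    (u : ι → ℝ) (w : (ι → ℕ) → ℝ) :
    ∑ a : ι → Fin (2 * h + 1), (∏ l, u l ^ (a l : ℕ)) *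
      (if ∀ l, (e l : ℕ) ≤ a l then w (fun l => (a l : ℕ) - e l) else 0) =
    mon u (fun l => (e l : ℕ)) *
      ∑ b ∈ Fintype.piFinset (fun l => Finset.range (2 * h + 1 - e l)), w b * mon u b := by
  rw [Finset.mul_sum]
  have h1 : ∀ a : ι → Fin (2 * h + 1), (∏ l, u l ^ (a l : ℕ)) *
      (if ∀ l, (e l : ℕ) ≤ a l then w (fun l => (a l : ℕ) - e l) else 0) =
      if ∀ l, (e l : ℕ) ≤ a l then
        (∏ l, u l ^ (a l : ℕ)) * w (fun l => (a l : ℕ) - e l) else 0 := by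
    intro a
    split_ifs with h2
    · rfl
    · exact mul_zero _
  rw [Finset.sum_congr rfl fun a _ => h1 a, ← Finset.sum_filter]
  refine Finset.sum_nbij' (fun a l => (a l : ℕ) - e l)
    (fun b l => (⟨min (e l + b l) (2 * h), by omega⟩ : Fin (2 * h + 1))) ?_ ?_ ?_ ?_ ?_
  · intro a ha
    rw [Finset.mem_filter] at ha
    rw [Fintype.mem_piFinset]
    intro l
    rw [Finset.mem_range]
    have h2 := (a l).2
    have h3 := ha.2 l
    omega
  · intro b hb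
    rw [Fintype.mem_piFinset] at hb
    rw [Finset.mem_filter]
    refine ⟨Finset.mem_univ _, fun l => ?_⟩
    have h2 := hb l
    rw [Finset.mem_range] at h2
    have h3 := (e l).2
    show (e l : ℕ) ≤ min ((e l : ℕ) + b l) (2 * h)
    omega
  · intro a ha
    rw [Finset.mem_filter] at ha
    funext l
    apply Fin.ext
    have h2 := (a l).2
    have h3 := ha.2 l
    show min ((e l : ℕ) + ((a l : ℕ) - e l)) (2 * h) = a l
    omega
  · intro b hb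
    rw [Fintype.mem_piFinset] at hb
    funext l
    have h2 := hb l
    rw [Finset.mem_range] at h2
    have h3 := (e l).2
    show min ((e l : ℕ) + b l) (2 * h) - e l = b l
    omega
  · intro a ha
    rw [Finset.mem_filter] at ha
    have h2 : ∏ l, u l ^ (a l : ℕ) =
        mon u (fun l => (e l : ℕ)) * mon u (fun l => (a l : ℕ) - e l) := by
      unfold mon
      rw [← Finset.prod_mul_distrib]
      refine Finset.prod_congr rfl fun l _ => ?_
      rw [← pow_add]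
      have h3 := ha.2 l
      have h4 : (a l : ℕ) = (e l : ℕ) + ((a l : ℕ) - e l) := by omega
      exact congrArg (fun z => u l ^ z) h4
    rw [h2]
    ring

private theorem XB2_entry {ι J : Type} [Fintype ι] [DecidableEq ι] [Fintype J] [DecidableEq J]
    (h : ℕ) (u : (ι → Fin (2 * h + 1)) × J → ι → ℝ) (cf : (ι → Fin (2 * h + 1)) × J → J → ℝ)
    (ν' : J → (ι → ℕ) → ℝ) (i : (ι → Fin (2 * h + 1)) × J) (e : ι → Fin (h + 1)) :
    (rowMat (2 * h) u cf * Ymat ν' (2 * h) h) i e = mon (u i) (fun l => (e l : ℕ)) *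
      ∑ j, cf i j * ∑ b ∈ Fintype.piFinset (fun l => Finset.range (2 * h + 1 - e l)),
        ν' j b * mon (u i) b := by
  rw [Matrix.mul_apply, Fintype.sum_prod_type_right, Finset.mul_sum]
  refine Finset.sum_congr rfl fun j _ => ?_
  have h1 := XB2_sum h e (u i) (ν' j)
  have h2 : ∑ a : ι → Fin (2 * h + 1), rowMat (2 * h) u cf i (a, j) *
      Ymat ν' (2 * h) h (a, j) e = cf i j * ∑ a : ι → Fin (2 * h + 1),
        (∏ l, u i l ^ (a l : ℕ)) *
          (if ∀ l, (e l : ℕ) ≤ a l then ν' j (fun l => (a l : ℕ) - e l) else 0) := by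
    rw [Finset.mul_sum]
    refine Finset.sum_congr rfl fun a _ => ?_
    have h3 : rowMat (2 * h) u cf i (a, j) = (∏ l, u i l ^ (a l : ℕ)) * cf i j := rfl
    have h4 : Ymat ν' (2 * h) h (a, j) e =
        if ∀ l, (e l : ℕ) ≤ a l then ν' j (fun l => (a l : ℕ) - e l) else 0 := rfl
    rw [h3, h4]
    ring
  rw [h2, h1]
  ring

/-- the bound for the entries of the product -/
private theorem XB2_bound {ι J : Type} [Fintype ι] [DecidableEq ι] [Fintype J] [DecidableEq J]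
    {r B ℓ X : ℝ} {h : ℕ} (hr : 0 < r) (hB : 0 ≤ B) (hℓ : 0 < ℓ)
    (hℓr : 4 * ℓ ≤ r) (hX : 0 ≤ X) {θ₀ : ι → ℝ}
    {N : J → (ι → ℝ) → ℝ} {ν : J → (ι → ℕ) → ℝ} (hE : ∀ j, Exp r B θ₀ (N j) (ν j))
    (u : (ι → Fin (2 * h + 1)) × J → ι → ℝ) (cf : (ι → Fin (2 * h + 1)) × J → J → ℝ)
    (hu : ∀ i l, |u i l| ≤ 1) (hcf : ∀ i j, |cf i j| ≤ X)
    (h0 : ∀ i, ∑ j, cf i j * N j (θ₀ + fun l => ℓ * u i l) = 0)
    (i : (ι → Fin (2 * h + 1)) × J) (e : ι → Fin (h + 1)) :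
    |(rowMat (2 * h) u cf * Ymat (fun j b => ν j b * ℓ ^ dg b) (2 * h) h) i e| ≤
      X * (Fintype.card J * B * 2 ^ Fintype.card ι * (2 * ℓ / r) ^ (h + 1)) := by
  rw [XB2_entry, abs_mul]
  have hm : |mon (u i) (fun l => (e l : ℕ))| ≤ 1 := by
    have := abs_mon_le (hu i) (fun l => (e l : ℕ))
    rwa [one_pow] at this
  obtain ⟨F, hF⟩ : ∃ F, F = Fintype.piFinset (fun l => Finset.range (2 * h + 1 - e l)) :=
    ⟨_, rfl⟩
  rw [← hF]
  have hFb : ∀ b, dg b < h + 1 → b ∈ F := by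
    intro b hb
    rw [hF, Fintype.mem_piFinset]
    intro l
    rw [Finset.mem_range]
    have h1 : b l ≤ dg b := by
      unfold dg
      exact Finset.single_le_sum (f := b) (fun _ _ => Nat.zero_le _) (Finset.mem_univ l)
    have h2 := (e l).2
    omega
  have happ : ∀ j, |N j (θ₀ + fun l => ℓ * u i l) - ∑ b ∈ F, ν j b * ℓ ^ dg b * mon (u i) b| ≤
      B * 2 ^ Fintype.card ι * (2 * ℓ / r) ^ (h + 1) :=
    fun j => (hE j).approx hr hB hℓ hℓr (hu i) (h + 1) F hFb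
  have hsum : ∑ j, cf i j * ∑ b ∈ F, ν j b * ℓ ^ dg b * mon (u i) b =
      ∑ j, cf i j * (∑ b ∈ F, ν j b * ℓ ^ dg b * mon (u i) b -
        N j (θ₀ + fun l => ℓ * u i l)) := by
    simp only [mul_sub, Finset.sum_sub_distrib]
    rw [h0 i, sub_zero]
  rw [hsum]
  have hS : |∑ j, cf i j * (∑ b ∈ F, ν j b * ℓ ^ dg b * mon (u i) b -
      N j (θ₀ + fun l => ℓ * u i l))| ≤
      Fintype.card J * (X * (B * 2 ^ Fintype.card ι * (2 * ℓ / r) ^ (h + 1))) := by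
    refine (Finset.abs_sum_le_sum_abs _ _).trans ?_
    have h1 : ∀ j ∈ (Finset.univ : Finset J), |cf i j * (∑ b ∈ F, ν j b * ℓ ^ dg b * mon (u i) b -
        N j (θ₀ + fun l => ℓ * u i l))| ≤
        X * (B * 2 ^ Fintype.card ι * (2 * ℓ / r) ^ (h + 1)) := by
      intro j _
      rw [abs_mul, abs_sub_comm]
      exact mul_le_mul (hcf i j) (happ j) (abs_nonneg _) hX
    refine (Finset.sum_le_card_nsmul _ _ _ h1).trans ?_
    rw [nsmul_eq_mul, Finset.card_univ]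
  have hS0 := abs_nonneg (∑ j, cf i j * (∑ b ∈ F, ν j b * ℓ ^ dg b * mon (u i) b -
      N j (θ₀ + fun l => ℓ * u i l)))
  calc |mon (u i) (fun l => (e l : ℕ))| * |∑ j, cf i j * (∑ b ∈ F, ν j b * ℓ ^ dg b * mon (u i) b -
      N j (θ₀ + fun l => ℓ * u i l))| ≤ 1 * |∑ j, cf i j * (∑ b ∈ F, ν j b * ℓ ^ dg b *
        mon (u i) b - N j (θ₀ + fun l => ℓ * u i l))| := mul_le_mul_of_nonneg_right hm hS0
    _ = |∑ j, cf i j * (∑ b ∈ F, ν j b * ℓ ^ dg b * mon (u i) b -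
      N j (θ₀ + fun l => ℓ * u i l))| := one_mul _
    _ ≤ Fintype.card J * (X * (B * 2 ^ Fintype.card ι * (2 * ℓ / r) ^ (h + 1))) := hS
    _ = _ := by ring

theorem det_upper0 {ι J : Type} [Fintype ι] [DecidableEq ι] [Fintype J] [DecidableEq J] {r B : ℝ} (h : ℕ)
    (hr : 0 < r) (hB : 0 ≤ B) {θ₁ : ι → ℝ} {N : J → (ι → ℝ) → ℝ} {ν : J → (ι → ℕ) → ℝ}
    (hE : ∀ j, Exp r B θ₁ (N j) (ν j)) {μ : ℝ} (hμ : 0 < μ) (hj : ∃ j, μ ≤ |ν j 0|)
    {ℓ : ℝ} (hℓ : 0 < ℓ) (hℓr : 4 * ℓ ≤ r) (σ : (ι → Fin (2 * h + 1)) × J → ι → ℝ)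
    (cf : (ι → Fin (2 * h + 1)) × J → J → ℝ) {X : ℝ} (hX : 0 ≤ X) (hσ : ∀ i l, |σ i l - θ₁ l| ≤ ℓ)
    (hcf : ∀ i j, |cf i j| ≤ X) (h0 : ∀ i, ∑ j, cf i j * N j (σ i) = 0) :
    |(rowMat (2 * h) σ cf).det| * μ ^ (h + 1) ^ Fintype.card ι ≤
      (Fintype.card ((ι → Fin (2 * h + 1)) × J)).factorial * X ^ Fintype.card ((ι → Fin (2 * h + 1)) × J) *
        (Fintype.card J * B * 2 ^ Fintype.card ι * (2 * ℓ / r) ^ (h + 1)) ^ (h + 1) ^ Fintype.card ι *
        ℓ ^ (Fintype.card J * ∑ a : ι → Fin (2 * h + 1), ∑ l, (a l : ℕ)) := by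
  obtain ⟨j₀, hj₀⟩ := hj
  -- scaling
  obtain ⟨u, hu⟩ : ∃ u : (ι → Fin (2 * h + 1)) × J → ι → ℝ,
      u = fun i l => (σ i l - θ₁ l) / ℓ := ⟨_, rfl⟩
  have hℓu : ∀ i l, ℓ * u i l = σ i l - θ₁ l := by
    intro i l
    rw [hu]
    exact mul_div_cancel₀ _ hℓ.ne'
  have hu1 : ∀ i l, |u i l| ≤ 1 := by
    intro i l
    rw [hu]
    show |(σ i l - θ₁ l) / ℓ| ≤ 1
    rw [abs_div, abs_of_pos hℓ, div_le_one hℓ]
    exact hσ i l
  have hσu : ∀ i, (θ₁ + fun l => ℓ * u i l) = σ i := by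
    intro i
    funext l
    show θ₁ l + ℓ * u i l = σ i l
    rw [hℓu]
    ring
  have hdet : (rowMat (2 * h) σ cf).det =
      ℓ ^ (Fintype.card J * ∑ a : ι → Fin (2 * h + 1), ∑ l, (a l : ℕ)) *
        (rowMat (2 * h) u cf).det := by
    rw [← det_scale, ← det_shift (2 * h) σ cf θ₁]
    congr 2
    funext i l
    exact (hℓu i l).symm
  obtain ⟨I, hI⟩ := Y_minor0 (fun j b => ν j b * ℓ ^ dg b) j₀ h
  have hdg0 : dg (0 : ι → ℕ) = 0 := by
    unfold dg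
    exact Finset.sum_eq_zero fun _ _ => rfl
  have hI' : μ ^ (h + 1) ^ Fintype.card ι ≤
      |((Ymat (fun j b => ν j b * ℓ ^ dg b) (2 * h) h).submatrix I id).det| := by
    rw [hI, abs_pow]
    have h1 : ν j₀ 0 * ℓ ^ dg (0 : ι → ℕ) = ν j₀ 0 := by
      rw [hdg0, pow_zero, mul_one]
    show μ ^ (h + 1) ^ Fintype.card ι ≤ |ν j₀ 0 * ℓ ^ dg (0 : ι → ℕ)| ^ (h + 1) ^ Fintype.card ι
    rw [h1]
    exact pow_le_pow_left₀ hμ.le hj₀ _
  have hentry : ∀ i e, |(rowMat (2 * h) u cf *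
      Ymat (fun j b => ν j b * ℓ ^ dg b) (2 * h) h) i e| ≤
      X * (Fintype.card J * B * 2 ^ Fintype.card ι * (2 * ℓ / r) ^ (h + 1)) := by
    intro i e
    refine XB2_bound hr hB hℓ hℓr hX hE u cf hu1 hcf ?_ i e
    intro i
    rw [hσu]
    exact h0 i
  have hVX : ∀ i j, |rowMat (2 * h) u cf i j| ≤ X := by
    intro i aj
    have h1 : rowMat (2 * h) u cf i aj = (∏ l, u i l ^ (aj.1 l : ℕ)) * cf i aj.2 := rfl
    rw [h1, abs_mul]
    have h2 : |∏ l, u i l ^ (aj.1 l : ℕ)| ≤ 1 := by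
      have := abs_mon_le (hu1 i) (fun l => (aj.1 l : ℕ))
      rwa [one_pow] at this
    calc |∏ l, u i l ^ (aj.1 l : ℕ)| * |cf i aj.2| ≤ 1 * X :=
          mul_le_mul h2 (hcf i aj.2) (abs_nonneg _) zero_le_one
      _ = X := one_mul _
  have hfin := det_le_of_cols (rowMat (2 * h) u cf)
    (Ymat (fun j b => ν j b * ℓ ^ dg b) (2 * h) h) I (μ ^ (h + 1) ^ Fintype.card ι) X
    (Fintype.card J * B * 2 ^ Fintype.card ι * (2 * ℓ / r) ^ (h + 1)) (by positivity) hI' hX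
    (by positivity) hVX hentry
  have hcard : Fintype.card (ι → Fin (h + 1)) = (h + 1) ^ Fintype.card ι := by
    rw [Fintype.card_fun, Fintype.card_fin]
  rw [hcard] at hfin
  rw [hdet, abs_mul, abs_of_pos (pow_pos hℓ _)]
  have h6 := mul_le_mul_of_nonneg_left hfin
    (pow_pos hℓ (Fintype.card J * ∑ a : ι → Fin (2 * h + 1), ∑ l, (a l : ℕ))).le
  calc ℓ ^ (Fintype.card J * ∑ a : ι → Fin (2 * h + 1), ∑ l, (a l : ℕ)) *
        |(rowMat (2 * h) u cf).det| * μ ^ (h + 1) ^ Fintype.card ι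
      = ℓ ^ (Fintype.card J * ∑ a : ι → Fin (2 * h + 1), ∑ l, (a l : ℕ)) *
        (|(rowMat (2 * h) u cf).det| * μ ^ (h + 1) ^ Fintype.card ι) := mul_assoc _ _ _
    _ ≤ _ := h6
    _ = _ := mul_comm _ _

end Pool.Agent.Lib.MP_bbe012_lc.XS
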