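import Pool.Agent.Lib.MP_bbe012_lc.PG.A12

/-!
# LEAF XB3 (medium+, real inequalities): the arithmetic of the exponents, effective in `m` and `L`

PROOF.  `K = s`, `ℓ = ell M T`, `Q = (2 h + 1) ^ K q`, `E = (h + 1) ^ K`, `Q ≤ 2 ^ K q E` (`2 h + 1 ≤ 2 (h + 1)`), `h ≥ 1`, `Λ = L`.  `T₀` is such that for `T ≥ T₀`: `2 ^ (8 K 2 ^ K q) ≤ T`, `3 ^ (8 K 2 ^ K q) ≤ T`, `q ^ (8 * 2 ^ K q) ≤ T`, `q 2 ^ K ≤ T`, `(8 / r) ^ 2 ≤ T`, `T ≥ 2`.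
(1) `ℓ T ^ 2 = T ^ (1 / M)` (`ell_spec`), `ℓ ≤ T ^ (- 3 / 2)` as `M ≥ 2`, so `4 ℓ / r ≤ T⁻¹` (and `8 ℓ ≤ r`).
(2) `(Q !) ^ 8 ≤ Q ^ (8 Q) ≤ Q ^ (8 * 2 ^ K q E)`, `Q = (2 h + 1) ^ K q`, `2 h + 1 ≤ 3 ^ h`: `Q ^ (8 * 2 ^ K q) ≤ 3 ^ (8 K 2 ^ K q h) q ^ (8 * 2 ^ K q) ≤ T ^ h T ^ h`, so `(Q !) ^ 8 ≤ T ^ (2 h E)`.
(3) `((2 ℓ) ^ (h K Q) T ^ (2 h K Q)) ^ 8 = (2 ℓ T ^ 2) ^ (8 h K Q) ≤ (2 T ^ (1 / M)) ^ (8 h K 2 ^ K q E)` and `2 ^ (8 K 2 ^ K q) ≤ T`, `T ^ (8 K 2 ^ K q / M) ≤ T` (`8 K 2 ^ K q ≤ M`), so this is at most `T ^ (2 h E)`.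
(4) `ε = q B 2 ^ K (4 ℓ / r) ^ (h + 1) ≤ T * T ^ m * T ^ (- (h + 1)) = T ^ m / T ^ h`.
(5) `(T ^ (Λ Q)) ^ 8 ≤ T ^ (8 Λ 2 ^ K q E)`.
The left side `A` (with `ε ^ E` in it) satisfies `A ^ 8 T ^ (8 h E) ≤ T ^ ((4 h + 8 Λ 2 ^ K q + 8 m) E)`, and `(right side) ^ 8 = T ^ (- 8 m E)`; `A < right side` because `(4 h + 8 Λ 2 ^ K q + 16 m) E < 8 h E` (`h ≥ 2 ^ (K + 1) q Λ + 4 m + 1`) and `T ≥ 2` (`lt_of_pow_lt_pow_left₀`).
-/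

namespace Pool.Agent.Lib.MP_bbe012_lc.XS

open Finset PG

/-- `2 * h + 1 ≤ 3 ^ h` -/
private theorem XB3_three (h : ℕ) : 2 * h + 1 ≤ 3 ^ h := by
  induction h with
  | zero => simp
  | succ h ih =>
    rw [pow_succ]
    omega

/-- the factorial -/
private theorem XB3_fact {s q h T w W : ℕ} (hh : 1 ≤ h) (hW : W = 8 * s * w)
    (h3 : 3 ^ W ≤ T) (hqT : q ^ (8 * w) ≤ T) (hQ : (2 * h + 1) ^ s * q ≤ w * (h + 1) ^ s) :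
    (((2 * h + 1) ^ s * q).factorial) ^ 8 ≤ T ^ (2 * h * (h + 1) ^ s) := by
  rcases Nat.eq_zero_or_pos q with rfl | hq
  · rw [mul_zero, Nat.factorial_zero, one_pow]
    have hT : 1 ≤ T := le_trans Nat.one_le_two_pow ((Nat.pow_le_pow_left (by norm_num) _).trans h3)
    exact Nat.one_le_pow _ _ hT
  have hT : 1 ≤ T := le_trans (Nat.one_le_pow _ _ (by norm_num)) h3
  have hQ1 : 1 ≤ (2 * h + 1) ^ s * q := Nat.mul_pos (Nat.pow_pos (by omega)) hq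
  obtain ⟨Q, hQdef⟩ : ∃ Q, Q = (2 * h + 1) ^ s * q := ⟨_, rfl⟩
  have hQ8 : Q ^ (8 * w) ≤ T ^ (2 * h) := by
    calc Q ^ (8 * w) = (2 * h + 1) ^ W * q ^ (8 * w) := by
          rw [hQdef, mul_pow, ← pow_mul, hW]
          congr 2
          ring
      _ ≤ (3 ^ h) ^ W * T := Nat.mul_le_mul (Nat.pow_le_pow_left (XB3_three h) _) hqT
      _ = (3 ^ W) ^ h * T := by rw [← pow_mul, ← pow_mul, mul_comm h W]
      _ ≤ T ^ h * T ^ h := Nat.mul_le_mul (Nat.pow_le_pow_left h3 _) (Nat.le_self_pow (by omega) _)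
      _ = T ^ (2 * h) := by rw [← pow_add, two_mul]
  rw [← hQdef] at hQ hQ1 ⊢
  calc Q.factorial ^ 8 ≤ (Q ^ Q) ^ 8 := Nat.pow_le_pow_left (Nat.factorial_le_pow Q) _
    _ = Q ^ (8 * Q) := by rw [← pow_mul, mul_comm]
    _ ≤ Q ^ (8 * (w * (h + 1) ^ s)) := Nat.pow_le_pow_right hQ1 (Nat.mul_le_mul_left _ hQ)
    _ = (Q ^ (8 * w)) ^ (h + 1) ^ s := by rw [← pow_mul, mul_assoc]
    _ ≤ (T ^ (2 * h)) ^ (h + 1) ^ s := Nat.pow_le_pow_left hQ8 _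
    _ = T ^ (2 * h * (h + 1) ^ s) := by rw [← pow_mul]

/-- the boxes -/
private theorem XB3_box {s q h T w W M : ℕ} (hW : W = 8 * s * w) (hT : 1 ≤ T) (hM : 1 ≤ M)
    (hWM : W ≤ M) (h2 : 2 ^ W ≤ T) (hQ : (2 * h + 1) ^ s * q ≤ w * (h + 1) ^ s) :
    ((2 * ell M T) ^ (q * (s * h * (2 * h + 1) ^ s)) * ((T : ℝ) ^ (2 * h * s)) ^ ((2 * h + 1) ^ s * q)) ^ 8 ≤
      (T : ℝ) ^ (2 * h * (h + 1) ^ s) := by
  obtain ⟨hl0, hl1, hl2, hl3⟩ := ell_spec hM hT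
  have hT1 : (1 : ℝ) ≤ T := by exact_mod_cast hT
  have hT0 : (0 : ℝ) < T := lt_of_lt_of_le one_pos hT1
  have hM0 : (0 : ℝ) < M := by exact_mod_cast hM
  obtain ⟨R, hR⟩ : ∃ R : ℝ, R = (T : ℝ) ^ (1 / (M : ℝ)) := ⟨_, rfl⟩
  have hR1 : 1 ≤ R := by
    rw [hR]
    exact Real.one_le_rpow hT1 (by positivity)
  have hRM : R ^ M = T := by
    rw [hR, ← Real.rpow_natCast, ← Real.rpow_mul hT0.le, one_div, inv_mul_cancel₀ hM0.ne', Real.rpow_one]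
  rw [← hR] at hl3
  have h2R : (1 : ℝ) ≤ 2 * R := by linarith
  have e1 : (2 * ell M T) ^ (q * (s * h * (2 * h + 1) ^ s)) * ((T : ℝ) ^ (2 * h * s)) ^ ((2 * h + 1) ^ s * q) =
      (2 * R) ^ (h * s * ((2 * h + 1) ^ s * q)) := by
    have e2 : ((T : ℝ) ^ (2 * h * s)) ^ ((2 * h + 1) ^ s * q) = ((T : ℝ) ^ 2) ^ (h * s * ((2 * h + 1) ^ s * q)) := by
      rw [← pow_mul, ← pow_mul]
      congr 1
      ring
    have e3 : q * (s * h * (2 * h + 1) ^ s) = h * s * ((2 * h + 1) ^ s * q) := by ring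
    rw [e2, e3, ← mul_pow, mul_assoc, hl3]
  have e4 : (2 * R) ^ W ≤ (T : ℝ) ^ 2 := by
    rw [mul_pow, sq]
    have h3 : (2 : ℝ) ^ W ≤ T := by exact_mod_cast h2
    have h4 : R ^ W ≤ T := by
      rw [← hRM]
      exact pow_le_pow_right₀ hR1 hWM
    exact mul_le_mul h3 h4 (by positivity) hT0.le
  rw [e1]
  calc ((2 * R) ^ (h * s * ((2 * h + 1) ^ s * q))) ^ 8 = (2 * R) ^ (8 * (h * s * ((2 * h + 1) ^ s * q))) := by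
        rw [← pow_mul, mul_comm (h * s * ((2 * h + 1) ^ s * q)) 8]
    _ ≤ (2 * R) ^ (W * (h * (h + 1) ^ s)) := by
        refine pow_le_pow_right₀ h2R ?_
        calc 8 * (h * s * ((2 * h + 1) ^ s * q)) ≤ 8 * (h * s * (w * (h + 1) ^ s)) :=
              Nat.mul_le_mul_left _ (Nat.mul_le_mul_left _ hQ)
          _ = W * (h * (h + 1) ^ s) := by
              rw [hW]
              ring
    _ = ((2 * R) ^ W) ^ (h * (h + 1) ^ s) := by rw [← pow_mul]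
    _ ≤ ((T : ℝ) ^ 2) ^ (h * (h + 1) ^ s) := pow_le_pow_left₀ (by positivity) e4 _
    _ = (T : ℝ) ^ (2 * h * (h + 1) ^ s) := by
        rw [← pow_mul]
        congr 1
        ring

/-- the side of the boxes is very small -/
private theorem XB3_ell {M T : ℕ} (hM : 2 ≤ M) (hT : 1 ≤ T) {r : ℝ} (hr : 0 < r) (h : (8 / r) ^ 2 ≤ T) :
    8 * ell M T * T ≤ r := by
  have hT1 : (1 : ℝ) ≤ T := by exact_mod_cast hT
  have hT0 : (0 : ℝ) < T := lt_of_lt_of_le one_pos hT1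
  have hM0 : (0 : ℝ) < M := by
    have : 0 < M := by omega
    exact_mod_cast this
  have h1 : 1 / (M : ℝ) ≤ 1 / 2 := by
    apply one_div_le_one_div_of_le (by norm_num)
    exact_mod_cast hM
  have h2 : ell M T ≤ (T : ℝ) ^ (-(3 / 2) : ℝ) := by
    rw [ell]
    exact Real.rpow_le_rpow_of_exponent_le hT1 (by linarith)
  have h3 : ell M T * T ≤ (T : ℝ) ^ (-(1 / 2) : ℝ) := by
    calc ell M T * T ≤ (T : ℝ) ^ (-(3 / 2) : ℝ) * T := mul_le_mul_of_nonneg_right h2 hT0.le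
      _ = (T : ℝ) ^ (-(3 / 2) : ℝ) * (T : ℝ) ^ (1 : ℝ) := by rw [Real.rpow_one]
      _ = (T : ℝ) ^ (-(1 / 2) : ℝ) := by
          rw [← Real.rpow_add hT0]
          norm_num
  have h4 : 8 / r ≤ Real.sqrt T := Real.le_sqrt_of_sq_le h
  have h5 : (T : ℝ) ^ (-(1 / 2) : ℝ) * Real.sqrt T = 1 := by
    rw [Real.sqrt_eq_rpow, ← Real.rpow_add hT0]
    norm_num
  have h6 : 0 < Real.sqrt T := Real.sqrt_pos.2 hT0
  have h7 : ell M T * T * Real.sqrt T ≤ 1 := by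
    rw [← h5]
    exact mul_le_mul_of_nonneg_right h3 h6.le
  have h8 : 8 ≤ r * Real.sqrt T := by
    rw [div_le_iff₀ hr] at h4
    linarith
  have h9 : 0 ≤ ell M T * T := by
    have := (ell_spec (show 1 ≤ M by omega) hT).1
    positivity
  nlinarith

theorem arithE {s q M : ℕ} (hs : 1 ≤ s) (hq : 1 ≤ q) (hM : 2 ^ (s + 3) * s * q ≤ M) {r : ℝ} (hr : 0 < r) :
    ∃ T₀ : ℕ, 2 ≤ T₀ ∧ ∀ T : ℕ, T₀ ≤ T → 4 * (2 * ell M T) ≤ r ∧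
      ∀ m L h : ℕ, 2 ^ (s + 1) * q * L + 4 * m + 1 ≤ h → ∀ B : ℝ, 0 ≤ B → B ≤ (T : ℝ) ^ m →
        (((2 * h + 1) ^ s * q).factorial : ℝ) * ((T : ℝ) ^ L) ^ ((2 * h + 1) ^ s * q) *
            (q * B * 2 ^ s * (2 * (2 * ell M T) / r) ^ (h + 1)) ^ (h + 1) ^ s *
            (2 * ell M T) ^ (q * (s * h * (2 * h + 1) ^ s)) * ((T : ℝ) ^ (2 * h * s)) ^ ((2 * h + 1) ^ s * q) <
          (((T : ℝ) ^ m)⁻¹) ^ (h + 1) ^ s := by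
  obtain ⟨w, hw⟩ : ∃ w, w = 2 ^ s * q := ⟨_, rfl⟩
  obtain ⟨W, hW⟩ : ∃ W, W = 8 * s * w := ⟨_, rfl⟩
  have hw1 : 1 ≤ w := by
    rw [hw]
    exact Nat.mul_pos (by positivity) hq
  have hWM : W ≤ M := by
    refine le_trans (le_of_eq ?_) hM
    rw [hW, hw, pow_add]
    ring
  have hW8 : 8 ≤ W := by
    rw [hW]
    nlinarith
  obtain ⟨A1, hA1⟩ : ∃ A1, A1 = 3 ^ W := ⟨_, rfl⟩
  obtain ⟨A2, hA2⟩ : ∃ A2, A2 = q ^ (8 * w) := ⟨_, rfl⟩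
  obtain ⟨A3, hA3⟩ : ∃ A3, A3 = q * 2 ^ s := ⟨_, rfl⟩
  obtain ⟨A4, hA4⟩ : ∃ A4, A4 = ⌈(8 / r) ^ 2⌉₊ := ⟨_, rfl⟩
  refine ⟨A1 + A2 + A3 + A4 + 2, by omega, fun T hT => ?_⟩
  have hT3 : 3 ^ W ≤ T := by
    rw [← hA1]
    omega
  have hTq : q ^ (8 * w) ≤ T := by
    rw [← hA2]
    omega
  have hTq2 : q * 2 ^ s ≤ T := by
    rw [← hA3]
    omega
  have hTr : ⌈(8 / r) ^ 2⌉₊ ≤ T := by
    rw [← hA4]
    omega
  have hT2 : 2 ≤ T := by omega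
  have h2W : 2 ^ W ≤ T := (Nat.pow_le_pow_left (by norm_num) _).trans hT3
  have hM2 : 2 ≤ M := by omega
  have hTr' : (8 / r) ^ 2 ≤ (T : ℝ) := (Nat.le_ceil _).trans (by exact_mod_cast hTr)
  have hℓ := XB3_ell hM2 (by omega) hr hTr'
  have hl0 : 0 < ell M T := (ell_spec (show 1 ≤ M by omega) (show 1 ≤ T by omega)).1
  have hx2 : (2 : ℝ) ≤ T := by exact_mod_cast hT2
  have hx1 : (1 : ℝ) ≤ T := by linarith
  have hx0 : (0 : ℝ) < T := by linarith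
  refine ⟨?_, fun m L h hh B hB0 hB => ?_⟩
  · calc 4 * (2 * ell M T) = 8 * ell M T * 1 := by ring
      _ ≤ 8 * ell M T * T := mul_le_mul_of_nonneg_left hx1 (by positivity)
      _ ≤ r := hℓ
  have hh1 : 1 ≤ h := by omega
  have hQ : (2 * h + 1) ^ s * q ≤ w * (h + 1) ^ s := by
    calc (2 * h + 1) ^ s * q ≤ (2 * (h + 1)) ^ s * q :=
          Nat.mul_le_mul_right _ (Nat.pow_le_pow_left (by omega) _)
      _ = w * (h + 1) ^ s := by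
          rw [hw, mul_pow]
          ring
  have hF := XB3_fact hh1 hW hT3 hTq hQ
  have hY := XB3_box (q := q) hW (show 1 ≤ T by omega) (show 1 ≤ M by omega) hWM h2W hQ
  obtain ⟨E, hE⟩ : ∃ E, E = (h + 1) ^ s := ⟨_, rfl⟩
  obtain ⟨Q, hQdef⟩ : ∃ Q, Q = (2 * h + 1) ^ s * q := ⟨_, rfl⟩
  have hE1 : 1 ≤ E := by
    rw [hE]
    exact Nat.one_le_pow _ _ (by omega)
  -- the functions
  obtain ⟨ε, hε⟩ : ∃ ε : ℝ, ε = q * B * 2 ^ s * (2 * (2 * ell M T) / r) ^ (h + 1) := ⟨_, rfl⟩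
  have hε0 : 0 ≤ ε := by
    rw [hε]
    positivity
  have hεT : ε * (T : ℝ) ^ h ≤ (T : ℝ) ^ m := by
    have h1 : 2 * (2 * ell M T) / r ≤ (T : ℝ)⁻¹ := by
      rw [div_le_iff₀ hr, inv_mul_eq_div, le_div_iff₀ hx0]
      nlinarith
    have h2 : (2 * (2 * ell M T) / r) ^ (h + 1) ≤ ((T : ℝ)⁻¹) ^ (h + 1) :=
      pow_le_pow_left₀ (by positivity) h1 _
    have h3 : (q : ℝ) * 2 ^ s ≤ T := by exact_mod_cast hTq2
    calc ε * (T : ℝ) ^ h = (q * 2 ^ s) * B * (2 * (2 * ell M T) / r) ^ (h + 1) * (T : ℝ) ^ h := by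
          rw [hε]
          ring
      _ ≤ T * (T : ℝ) ^ m * ((T : ℝ)⁻¹) ^ (h + 1) * (T : ℝ) ^ h := by
          refine mul_le_mul_of_nonneg_right ?_ (by positivity)
          exact mul_le_mul (mul_le_mul h3 hB hB0 hx0.le) h2 (by positivity) (by positivity)
      _ = (T : ℝ) ^ m := by
          rw [inv_pow, pow_succ]
          field_simp
  rw [← hε, ← hE, ← hQdef]
  rw [← hE, ← hQdef] at hY hF
  rw [← hE, ← hQdef] at hQ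
  obtain ⟨Y, hYdef⟩ : ∃ Y : ℝ, Y = (2 * ell M T) ^ (q * (s * h * (2 * h + 1) ^ s)) * ((T : ℝ) ^ (2 * h * s)) ^ Q :=
    ⟨_, rfl⟩
  have hY0 : 0 ≤ Y := by
    rw [hYdef]
    positivity
  rw [← hYdef] at hY
  have hFr : ((Q.factorial : ℕ) : ℝ) ^ 8 ≤ (T : ℝ) ^ (2 * h * E) := by exact_mod_cast hF
  have hX : (((T : ℝ) ^ L) ^ Q) ^ 8 ≤ (T : ℝ) ^ (8 * L * w * E) := by
    rw [← pow_mul, ← pow_mul]
    refine pow_le_pow_right₀ hx1 ?_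
    calc L * (Q * 8) = L * 8 * Q := by ring
      _ ≤ L * 8 * (w * E) := Nat.mul_le_mul_left _ hQ
      _ = 8 * L * w * E := by ring
  have hL : (Q.factorial : ℝ) * ((T : ℝ) ^ L) ^ Q * ε ^ E * (2 * ell M T) ^ (q * (s * h * (2 * h + 1) ^ s)) *
      ((T : ℝ) ^ (2 * h * s)) ^ Q = (Q.factorial : ℝ) * ((T : ℝ) ^ L) ^ Q * ε ^ E * Y := by
    rw [hYdef]
    ring
  rw [hL]
  by_contra hcon
  rw [not_lt] at hcon
  have h8 := pow_le_pow_left₀ (by positivity) hcon 8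
  have k1 : ((Q.factorial : ℝ) * ((T : ℝ) ^ L) ^ Q * ε ^ E * Y) ^ 8 * ((T : ℝ) ^ h) ^ (8 * E) ≤
      (T : ℝ) ^ (2 * h * E) * (T : ℝ) ^ (8 * L * w * E) * ((T : ℝ) ^ m) ^ (8 * E) * (T : ℝ) ^ (2 * h * E) := by
    have e1 : ((Q.factorial : ℝ) * ((T : ℝ) ^ L) ^ Q * ε ^ E * Y) ^ 8 * ((T : ℝ) ^ h) ^ (8 * E) =
        (Q.factorial : ℝ) ^ 8 * (((T : ℝ) ^ L) ^ Q) ^ 8 * (ε * (T : ℝ) ^ h) ^ (8 * E) * Y ^ 8 := by
      rw [mul_pow ε, mul_pow, mul_pow, mul_pow, ← pow_mul ε, mul_comm E 8]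
      ring
    rw [e1]
    have a1 := mul_le_mul hFr hX (by positivity) (by positivity)
    have a2 : (ε * (T : ℝ) ^ h) ^ (8 * E) ≤ ((T : ℝ) ^ m) ^ (8 * E) := pow_le_pow_left₀ (by positivity) hεT _
    have a3 := mul_le_mul a1 a2 (by positivity) (by positivity)
    exact mul_le_mul a3 hY (by positivity) (by positivity)
  have k2 : (((T : ℝ) ^ m)⁻¹ ^ E) ^ 8 * ((T : ℝ) ^ m) ^ (8 * E) = 1 := by
    rw [← pow_mul, mul_comm E 8, ← mul_pow, inv_mul_cancel₀ (by positivity), one_pow]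
  have k3 : ((T : ℝ) ^ h) ^ (8 * E) ≤ (T : ℝ) ^ (2 * h * E) * (T : ℝ) ^ (8 * L * w * E) * ((T : ℝ) ^ m) ^ (8 * E) *
      (T : ℝ) ^ (2 * h * E) * ((T : ℝ) ^ m) ^ (8 * E) := by
    calc ((T : ℝ) ^ h) ^ (8 * E) = (((T : ℝ) ^ m)⁻¹ ^ E) ^ 8 * ((T : ℝ) ^ h) ^ (8 * E) * ((T : ℝ) ^ m) ^ (8 * E) := by
          rw [mul_right_comm, k2, one_mul]
      _ ≤ ((Q.factorial : ℝ) * ((T : ℝ) ^ L) ^ Q * ε ^ E * Y) ^ 8 * ((T : ℝ) ^ h) ^ (8 * E) * ((T : ℝ) ^ m) ^ (8 * E) := by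
          refine mul_le_mul_of_nonneg_right (mul_le_mul_of_nonneg_right h8 (by positivity)) (by positivity)
      _ ≤ _ := mul_le_mul_of_nonneg_right k1 (by positivity)
  have k4 : (T : ℝ) ^ (2 * h * E) * (T : ℝ) ^ (8 * L * w * E) * ((T : ℝ) ^ m) ^ (8 * E) *
      (T : ℝ) ^ (2 * h * E) * ((T : ℝ) ^ m) ^ (8 * E) = (T : ℝ) ^ ((4 * h + 8 * L * w + 16 * m) * E) := by
    rw [← pow_mul, ← pow_add, ← pow_add, ← pow_add, ← pow_add]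
    congr 1
    ring
  rw [k4, ← pow_mul] at k3
  have k5 : (4 * h + 8 * L * w + 16 * m) * E < h * (8 * E) := by
    have k6 : 2 ^ (s + 1) * q * L = 2 * (L * w) := by
      rw [hw, pow_succ]
      ring
    have k7 : 4 * h + 8 * L * w + 16 * m < 8 * h := by
      have k8 : 8 * L * w = 8 * (L * w) := by ring
      omega
    calc (4 * h + 8 * L * w + 16 * m) * E < 8 * h * E := Nat.mul_lt_mul_of_pos_right k7 hE1
      _ = h * (8 * E) := by ring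
  exact absurd k3 (not_le.2 (pow_lt_pow_right₀ (by linarith) k5))

end Pool.Agent.Lib.MP_bbe012_lc.XS
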