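import Pool.Agent.Lib.MP_bbe012_lc.XS.B2
import Pool.Agent.Lib.MP_bbe012_lc.XS.B3
import Pool.Agent.Lib.MP_bbe012_lc.PM.Ct1

/-!
# LEAF XB4 (medium): the auxiliary vector of polynomials, effective

PROOF.  Copy of `stage` (`PG/A10.lean`) followed by `stageQ` (`PM/Ct1.lean`): `T₀` from `arithE`.  `exists_normal` (`PG/A6.lean`) for the real vectors `v σ (a, j) = (∏ l, σ l ^ a l) * cf σ j`, `σ ∈ Z`.  If there is a real normal vector, `rat_normal` (`PM/Ct1.lean`) gives `P` as in `stageQ`.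
Otherwise there is `f` with `det (v ∘ f) ≠ 0`, and `det_lower` (`PG/A6.lean`) gives `1 ≤ |det| * (T ^ (2 h s)) ^ Q`, `Q = card ((Fin s → Fin (2 h + 1)) × Fin q) = (2 h + 1) ^ s * q`, exactly as in `stage`.  `det_upper0` with the center `θ₁`, `ℓ = 2 * ell M T` (`|σ l - θ₁ l| ≤ 2 ell M T`), `X = T ^ L`, `μ = (T ^ m)⁻¹`;
the degree sum is `∑ a, ∑ l, a l = s * h * (2 * h + 1) ^ s` (`two_mul_sum_deg`, as in `stage`).  Multiply `det_upper0` by `(T ^ (2 h s)) ^ Q`: `μ ^ E ≤ |det| (T ^ (2 h s)) ^ Q μ ^ E ≤ (left side of arithE) < μ ^ E`: contradiction.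
-/

namespace Pool.Agent.Lib.MP_bbe012_lc.XS

open Finset PG PM

theorem stageE {s q M : ℕ} (hs : 0 < s) (hq : 0 < q) (hM : 2 ^ (s + 3) * s * q ≤ M) {r : ℝ} (hr : 0 < r) :
    ∃ T₀ : ℕ, 2 ≤ T₀ ∧ ∀ T : ℕ, T₀ ≤ T → ∀ m L h : ℕ, 2 ^ (s + 1) * q * L + 4 * m + 1 ≤ h →
      ∀ B : ℝ, 0 ≤ B → B ≤ (T : ℝ) ^ m → ∀ (θ₀ θ₁ : Fin s → ℝ) (G : Fin q → (Fin s → ℝ) → ℝ)
      (ν : Fin q → (Fin s → ℕ) → ℝ), (∀ i, |θ₁ i - θ₀ i| ≤ ell M T) → (∀ j, Exp r B θ₁ (G j) (ν j)) →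
      (∃ j, ((T : ℝ) ^ m)⁻¹ ≤ |ν j 0|) → ∀ (Z : Set (Fin s → ℚ)) (cf : (Fin s → ℚ) → Fin q → ℤ),
        (∀ σ ∈ Z, (∀ i, HLE T (σ i)) ∧ (∀ i, |(σ i : ℝ) - θ₀ i| ≤ ell M T) ∧ (∀ j, |cf σ j| ≤ (T : ℤ) ^ L) ∧
          ∑ j, (cf σ j : ℝ) * G j (fun i => (σ i : ℝ)) = 0) →
        ∃ P : Fin q → (Fin s → Fin (2 * h + 1)) → ℚ, (∀ j a, |P j a| ≤ 1) ∧ (∃ j a, |P j a| = 1) ∧
          ∀ σ ∈ Z, ∑ j, (∑ a, P j a * ∏ l, σ l ^ (a l : ℕ)) * (cf σ j : ℚ) = 0 := by
  classical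
  have hMpos : 1 ≤ M := le_trans (Nat.mul_pos (Nat.mul_pos (by positivity) hs) hq) hM
  have instS : Nonempty (Fin s) := Fin.pos_iff_nonempty.1 hs
  have instQ : Nonempty (Fin q) := Fin.pos_iff_nonempty.1 hq
  obtain ⟨T₀, hT₀, hA⟩ := arithE hs hq hM hr
  refine ⟨T₀, hT₀, fun T hT m L h hh B hB hBT θ₀ θ₁ G ν hθ hE hν Z cf hZ => ?_⟩
  have hT2 : 2 ≤ T := hT₀.trans hT
  have hT1 : 1 ≤ T := by omega
  have hTr : (1 : ℝ) ≤ T := by exact_mod_cast hT1
  have hT0 : (0 : ℝ) < T := lt_of_lt_of_le one_pos hTr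
  obtain ⟨hell0, -⟩ := ell_spec hMpos hT1
  obtain ⟨hℓr, harith⟩ := hA T hT
  have harith' := harith m L h hh B hB hBT
  let v : Z → (Fin s → Fin (2 * h + 1)) × Fin q → ℝ := fun z aj =>
    (∏ l, ((z : Fin s → ℚ) l : ℝ) ^ (aj.1 l : ℕ)) * (cf z aj.2 : ℝ)
  rcases exists_normal v with ⟨P, hP1, ⟨⟨a₀, j₀⟩, hP2⟩, hP3⟩ | ⟨f, hf⟩
  · obtain ⟨Q, hQ1, ⟨⟨j₁, a₁⟩, hQ2⟩, hQ3⟩ := rat_normal (S := Z) (n := Fin q × (Fin s → Fin (2 * h + 1)))
      (fun σ ja => (∏ l, (σ : Fin s → ℚ) l ^ (ja.2 l : ℕ)) * (cf σ ja.1 : ℚ)) (fun ja => P (ja.2, ja.1))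
      ⟨(j₀, a₀), fun h0 => by
        have h1 : P (a₀, j₀) = 0 := h0
        rw [h1, abs_zero] at hP2
        exact zero_ne_one hP2⟩
      (fun σ => by
        have h1 := hP3 σ
        rw [Fintype.sum_prod_type, Finset.sum_comm] at h1
        rw [Fintype.sum_prod_type, ← h1]
        refine Finset.sum_congr rfl fun j _ => ?_
        refine Finset.sum_congr rfl fun a _ => ?_
        simp only [v]
        push_cast
        ring)
    refine ⟨fun j a => Q (j, a), fun j a => hQ1 (j, a), ⟨j₁, a₁, hQ2⟩, fun σ hσ => ?_⟩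
    have h1 := hQ3 ⟨σ, hσ⟩
    rw [Fintype.sum_prod_type] at h1
    rw [← h1]
    refine Finset.sum_congr rfl fun j _ => ?_
    rw [Finset.sum_mul]
    refine Finset.sum_congr rfl fun a _ => ?_
    ring
  · exfalso
    -- the rational matrix
    let Mq : Matrix ((Fin s → Fin (2 * h + 1)) × Fin q) ((Fin s → Fin (2 * h + 1)) × Fin q) ℚ :=
      Matrix.of fun i aj => (∏ l, (f i : Fin s → ℚ) l ^ (aj.1 l : ℕ)) * (cf (f i) aj.2 : ℚ)
    have hcast : ((Mq.det : ℚ) : ℝ) = (Matrix.of fun i => v (f i)).det := by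
      have h1 := (Rat.castHom ℝ).map_det Mq
      have h2 : (Rat.castHom ℝ) Mq.det = ((Mq.det : ℚ) : ℝ) := rfl
      rw [← h2, h1]
      congr 1
      ext i aj
      simp only [RingHom.mapMatrix_apply, Matrix.map_apply, Matrix.of_apply, Mq, v, map_mul, map_prod,
        map_pow, eq_ratCast, map_intCast]
    have hdq : Mq.det ≠ 0 := by
      intro h0
      apply hf
      rw [← hcast, h0, Rat.cast_zero]
    have hlow := det_lower Mq (fun i => ∏ l, ((f i : Fin s → ℚ) l).den ^ (2 * h)) (T ^ (2 * h * s))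
      (by
        intro i
        constructor
        · exact Finset.prod_pos fun l _ => pow_pos ((f i : Fin s → ℚ) l).den_pos _
        · calc ∏ l, ((f i : Fin s → ℚ) l).den ^ (2 * h) ≤ ∏ _l : Fin s, T ^ (2 * h) :=
                Finset.prod_le_prod' fun l _ =>
                  Nat.pow_le_pow_left ((hZ _ (f i).2).1 l).2 _
            _ = T ^ (2 * h * s) := by
                rw [Finset.prod_const, Finset.card_univ, Fintype.card_fin, ← pow_mul])
      (by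
        intro i aj
        refine ⟨(∏ l, ((f i : Fin s → ℚ) l).num ^ (aj.1 l : ℕ) *
          (((f i : Fin s → ℚ) l).den : ℤ) ^ (2 * h - (aj.1 l : ℕ))) * cf (f i) aj.2, ?_⟩
        simp only [Mq, Matrix.of_apply]
        push_cast
        rw [← mul_assoc, ← Finset.prod_mul_distrib]
        congr 1
        refine Finset.prod_congr rfl fun l _ => ?_
        have h1 : (aj.1 l : ℕ) ≤ 2 * h := Nat.le_of_lt_succ (aj.1 l).2
        have h2 : (((f i : Fin s → ℚ) l).den : ℚ) ≠ 0 := by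
          exact_mod_cast ((f i : Fin s → ℚ) l).den_ne_zero
        have h3 : (((f i : Fin s → ℚ) l).den : ℚ) * (f i : Fin s → ℚ) l = ((f i : Fin s → ℚ) l).num :=
          Rat.den_mul_eq_num _
        have h4 : (((f i : Fin s → ℚ) l).den : ℚ) ^ (2 * h) =
            (((f i : Fin s → ℚ) l).den : ℚ) ^ (2 * h - (aj.1 l : ℕ)) *
              (((f i : Fin s → ℚ) l).den : ℚ) ^ (aj.1 l : ℕ) := by
          rw [← pow_add]
          congr 1
          omega
        rw [h4, mul_assoc, ← mul_pow, h3]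
        ring)
      hdq
    have hlow' : 1 ≤ |(Matrix.of fun i => v (f i)).det| *
        ((T : ℝ) ^ (2 * h * s)) ^ Fintype.card ((Fin s → Fin (2 * h + 1)) × Fin q) := by
      have h1 : ((1 : ℚ) : ℝ) ≤ ((|Mq.det| * ((T ^ (2 * h * s) : ℕ) : ℚ) ^
          Fintype.card ((Fin s → Fin (2 * h + 1)) × Fin q) : ℚ) : ℝ) := by exact_mod_cast hlow
      rw [← hcast]
      push_cast at h1 ⊢
      exact h1
    have hupp := det_upper0 h hr hB hE (μ := ((T : ℝ) ^ m)⁻¹) (by positivity) hν (ℓ := 2 * ell M T)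
      (by positivity) hℓr (fun i l => ((f i : Fin s → ℚ) l : ℝ))
      (fun i j => (cf (f i) j : ℝ)) (X := (T : ℝ) ^ L) (by positivity)
      (fun i l => by
        have h1 := (hZ _ (f i).2).2.1 l
        have h2 := hθ l
        rw [abs_sub_comm] at h2
        calc |((f i : Fin s → ℚ) l : ℝ) - θ₁ l| =
              |(((f i : Fin s → ℚ) l : ℝ) - θ₀ l) + (θ₀ l - θ₁ l)| := by
              congr 1
              ring
          _ ≤ |((f i : Fin s → ℚ) l : ℝ) - θ₀ l| + |θ₀ l - θ₁ l| := abs_add_le _ _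
          _ ≤ 2 * ell M T := by linarith)
      (fun i j => by
        have h1 := (hZ _ (f i).2).2.2.1 j
        have h2 : ((|cf (f i) j| : ℤ) : ℝ) ≤ (((T : ℤ) ^ L : ℤ) : ℝ) := by exact_mod_cast h1
        push_cast at h2
        exact h2)
      (fun i => (hZ _ (f i).2).2.2.2)
    have hmat : rowMat (2 * h) (fun i l => ((f i : Fin s → ℚ) l : ℝ)) (fun i j => (cf (f i) j : ℝ)) =
        Matrix.of fun i => v (f i) := by
      ext i aj
      simp only [rowMat, Matrix.of_apply, v]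
    rw [hmat] at hupp
    have hcard : Fintype.card ((Fin s → Fin (2 * h + 1)) × Fin q) = (2 * h + 1) ^ s * q := by
      rw [Fintype.card_prod, Fintype.card_fun, Fintype.card_fin, Fintype.card_fin, Fintype.card_fin]
    have hdeg : ∑ a : Fin s → Fin (2 * h + 1), ∑ l, (a l : ℕ) = s * h * (2 * h + 1) ^ s := by
      have h1 := two_mul_sum_deg (ι := Fin s) (2 * h)
      rw [Fintype.card_fin] at h1
      have h2 : 2 * ∑ a : Fin s → Fin (2 * h + 1), ∑ l, (a l : ℕ) = 2 * (s * h * (2 * h + 1) ^ s) := by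
        rw [h1]
        ring
      omega
    rw [hdeg, hcard, Fintype.card_fin, Fintype.card_fin] at hupp
    rw [hcard] at hlow'
    have hμ0 : (0 : ℝ) ≤ (((T : ℝ) ^ m)⁻¹) ^ (h + 1) ^ s := by positivity
    have hTQ : (0 : ℝ) ≤ ((T : ℝ) ^ (2 * h * s)) ^ ((2 * h + 1) ^ s * q) := by positivity
    have h1 := mul_le_mul_of_nonneg_right hlow' hμ0
    have h2 := mul_le_mul_of_nonneg_right hupp hTQ
    have h3 : |(Matrix.of fun i => v (f i)).det| * ((T : ℝ) ^ (2 * h * s)) ^ ((2 * h + 1) ^ s * q) *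
        (((T : ℝ) ^ m)⁻¹) ^ (h + 1) ^ s = |(Matrix.of fun i => v (f i)).det| * (((T : ℝ) ^ m)⁻¹) ^ (h + 1) ^ s *
        ((T : ℝ) ^ (2 * h * s)) ^ ((2 * h + 1) ^ s * q) := by ring
    rw [one_mul, h3] at h1
    exact absurd ((h1.trans h2).trans_lt harith') (lt_irrefl _)

end Pool.Agent.Lib.MP_bbe012_lc.XS
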