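import Pool.Agent.Lib.MP_bbe012_lc.PG.A12

/-!
# LEAF XB5 (medium-): zeros of a polynomial at the rational points of a small box

PROOF.  `X l = Z.image (fun σ => σ l)`, a finite set of rational numbers of height `≤ T` in an interval of length `2 ℓ`, `ℓ = ell M T`, so `|X l| ≤ 1 + 2 ℓ T ^ 2 ≤ 3 T ^ (1 / M)` (this is the `hX` of the proof of `card_box_le`, `PG/A12.lean`).  `Z` is contained in the set of the `x ∈ Fintype.piFinset X` with `eval x p = 0`.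
`MvPolynomial.schwartz_zippel_sum_degreeOf` (`hp`, `X`): `|{x ∈ piFinset X | eval x p = 0}| / ∏ i, |X i| ≤ ∑ i, degreeOf i p / |X i|`.  If `Z` is empty nothing is to be proved; otherwise all `X l` are nonempty, and multiplying by `∏ i, |X i|` (as real numbers)
`|Z| ≤ ∑ i, n ∏_{l ≠ i} |X l| ≤ s n (3 T ^ (1 / M)) ^ (s - 1) ≤ s n 3 ^ s T ^ ((s - 1) / M)`.
-/

namespace Pool.Agent.Lib.MP_bbe012_lc.XS

open Finset MvPolynomial PG

theorem zeros_poly {s : ℕ} (hs : 0 < s) {M T : ℕ} (hM : 1 ≤ M) (hT : 1 ≤ T) (θ₀ : Fin s → ℝ) {n : ℕ}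
    {p : MvPolynomial (Fin s) ℚ} (hp : p ≠ 0) (hdeg : ∀ l, p.degreeOf l ≤ n) (Z : Finset (Fin s → ℚ))
    (hZ : ∀ σ ∈ Z, (∀ i, HLE T (σ i)) ∧ (∀ i, |(σ i : ℝ) - θ₀ i| ≤ ell M T) ∧ eval σ p = 0) :
    (Z.card : ℝ) ≤ s * n * 3 ^ s * (T : ℝ) ^ (((s : ℝ) - 1) / M) := by
  classical
  obtain ⟨hl0, hl1, hl2, hl3⟩ := ell_spec hM hT
  have hT0 : (0 : ℝ) < (T : ℝ) := by exact_mod_cast hT
  have hT1 : (1 : ℝ) ≤ (T : ℝ) := by exact_mod_cast hT
  have hone : (1 : ℝ) ≤ (T : ℝ) ^ (1 / (M : ℝ)) := Real.one_le_rpow hT1 (by positivity)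
  rcases Z.eq_empty_or_nonempty with rfl | hne
  · simp only [Finset.card_empty, Nat.cast_zero]
    positivity
  have hX : ∀ i, ((Z.image fun σ => σ i).card : ℝ) ≤ 3 * (T : ℝ) ^ (1 / (M : ℝ)) := by
    intro i
    have h1 := icount_heights T (θ₀ i) (ell M T) hl0 (Z.image fun σ => σ i) (by
      intro a ha
      obtain ⟨σ, hσ, rfl⟩ := Finset.mem_image.1 ha
      exact (hZ σ hσ).1 i)
    have h2 := h1 (-1) 2 (by norm_num)
    rw [Finset.filter_true_of_mem (by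
      intro x hx
      obtain ⟨a, ha, rfl⟩ := Finset.mem_image.1 hx
      obtain ⟨σ, hσ, rfl⟩ := Finset.mem_image.1 ha
      have h3 := (hZ σ hσ).2.1 i
      rw [abs_le] at h3
      constructor
      · rw [le_div_iff₀ hl0]
        linarith [h3.1]
      · rw [div_le_iff₀ hl0]
        linarith [h3.2]), Finset.card_image_of_injective _ (by
      intro a b hab
      have h4 : ((a : ℝ) - θ₀ i) / ell M T = ((b : ℝ) - θ₀ i) / ell M T := hab
      rw [div_left_inj' hl0.ne'] at h4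
      have h5 : (a : ℝ) = (b : ℝ) := by linarith
      exact_mod_cast h5), hl3] at h2
    linarith
  have hpos : ∀ i, 0 < (Z.image fun σ => σ i).card := fun i => Finset.card_pos.2 (hne.image _)
  have hsub : Z ⊆ (Fintype.piFinset (fun i => Z.image fun σ => σ i)).filter (fun x => eval x p = 0) := by
    intro σ hσ
    rw [Finset.mem_filter, Fintype.mem_piFinset]
    exact ⟨fun i => Finset.mem_image_of_mem (fun σ : Fin s → ℚ => σ i) hσ, (hZ σ hσ).2.2⟩
  have hsz := MvPolynomial.schwartz_zippel_sum_degreeOf hp (fun i => Z.image fun σ => σ i)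
  have hsz' : ((((Fintype.piFinset (fun i => Z.image fun σ => σ i)).filter (fun x => eval x p = 0)).card : ℝ)) /
      ∏ i, (((Z.image fun σ => σ i).card : ℕ) : ℝ) ≤ ∑ i, ((p.degreeOf i : ℝ) / ((Z.image fun σ => σ i).card : ℝ)) := by
    have h := hsz
    have h2 : ((((((Fintype.piFinset (fun i => Z.image fun σ => σ i)).filter (fun x => eval x p = 0)).card : ℚ≥0) /
      ∏ i, (((Z.image fun σ => σ i).card : ℕ) : ℚ≥0) : ℚ≥0)) : ℝ) ≤ ((∑ i, ((p.degreeOf i : ℚ≥0) / ((Z.image fun σ => σ i).card : ℚ≥0)) : ℚ≥0) : ℝ) := by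
      exact_mod_cast h
    push_cast at h2
    exact h2
  have hP : (0 : ℝ) < ∏ i, (((Z.image fun σ => σ i).card : ℕ) : ℝ) :=
    Finset.prod_pos fun i _ => by exact_mod_cast hpos i
  rw [div_le_iff₀ hP, Finset.sum_mul] at hsz'
  have hterm : ∀ i : Fin s, ((p.degreeOf i : ℝ) / ((Z.image fun σ => σ i).card : ℝ)) * ∏ i, (((Z.image fun σ => σ i).card : ℕ) : ℝ) ≤
      n * (3 * (T : ℝ) ^ (1 / (M : ℝ))) ^ (s - 1) := by
    intro i
    have hi : (0 : ℝ) < ((Z.image fun σ => σ i).card : ℝ) := by exact_mod_cast hpos i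
    rw [← Finset.mul_prod_erase Finset.univ _ (Finset.mem_univ i)]
    have e : ((p.degreeOf i : ℝ) / ((Z.image fun σ => σ i).card : ℝ)) * ((((Z.image fun σ => σ i).card : ℕ) : ℝ) *
        ∏ x ∈ Finset.univ.erase i, (((Z.image fun σ => σ x).card : ℕ) : ℝ)) =
        (p.degreeOf i : ℝ) * ∏ x ∈ Finset.univ.erase i, (((Z.image fun σ => σ x).card : ℕ) : ℝ) := by
      rw [← mul_assoc, div_mul_cancel₀ _ hi.ne']
    rw [e]
    have h1 : ∏ x ∈ Finset.univ.erase i, (((Z.image fun σ => σ x).card : ℕ) : ℝ) ≤ (3 * (T : ℝ) ^ (1 / (M : ℝ))) ^ (s - 1) := by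
      calc ∏ x ∈ Finset.univ.erase i, (((Z.image fun σ => σ x).card : ℕ) : ℝ) ≤
            ∏ _x ∈ (Finset.univ : Finset (Fin s)).erase i, (3 * (T : ℝ) ^ (1 / (M : ℝ))) :=
            Finset.prod_le_prod (fun i _ => Nat.cast_nonneg _) (fun i _ => hX i)
        _ = (3 * (T : ℝ) ^ (1 / (M : ℝ))) ^ (s - 1) := by
            rw [Finset.prod_const, Finset.card_erase_of_mem (Finset.mem_univ i), Finset.card_univ, Fintype.card_fin]
    exact mul_le_mul (by exact_mod_cast hdeg i) h1 (Finset.prod_nonneg fun _ _ => Nat.cast_nonneg _) (Nat.cast_nonneg _)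
  have hs1 : ((s - 1 : ℕ) : ℝ) = (s : ℝ) - 1 := by
    rw [Nat.cast_sub hs, Nat.cast_one]
  calc (Z.card : ℝ) ≤ ((((Fintype.piFinset (fun i => Z.image fun σ => σ i)).filter (fun x => eval x p = 0)).card : ℕ) : ℝ) := by
        exact_mod_cast Finset.card_le_card hsub
    _ ≤ ∑ i : Fin s, ((p.degreeOf i : ℝ) / ((Z.image fun σ => σ i).card : ℝ)) * ∏ i, (((Z.image fun σ => σ i).card : ℕ) : ℝ) := hsz'
    _ ≤ ∑ _i : Fin s, n * (3 * (T : ℝ) ^ (1 / (M : ℝ))) ^ (s - 1) := Finset.sum_le_sum fun i _ => hterm i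
    _ = s * (n * (3 * (T : ℝ) ^ (1 / (M : ℝ))) ^ (s - 1)) := by
        rw [Finset.sum_const, Finset.card_univ, Fintype.card_fin, nsmul_eq_mul]
    _ = s * n * 3 ^ (s - 1) * (T : ℝ) ^ (((s : ℝ) - 1) / M) := by
        rw [mul_pow, ← Real.rpow_natCast ((T : ℝ) ^ (1 / (M : ℝ))), ← Real.rpow_mul hT0.le, hs1]
        rw [show 1 / (M : ℝ) * ((s : ℝ) - 1) = ((s : ℝ) - 1) / M by ring]
        ring
    _ ≤ s * n * 3 ^ s * (T : ℝ) ^ (((s : ℝ) - 1) / M) := by
        have h3 : (3 : ℝ) ^ (s - 1) ≤ 3 ^ s := pow_le_pow_right₀ (by norm_num) (Nat.sub_le s 1)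
        have h4 : 0 ≤ (T : ℝ) ^ (((s : ℝ) - 1) / M) := Real.rpow_nonneg hT0.le _
        gcongr

end Pool.Agent.Lib.MP_bbe012_lc.XS
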