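import Pool.Agent.Lib.MP_bbe012_lc.PL.L2

/-!
# Lattices: the arithmetic of the exponents, effective in `m` and `L`
-/

namespace Pool.Agent.Lib.MP_bbe012_lc.XS

open Finset PG PL

/-- `2 * h + 1 ≤ 3 ^ h` -/
private theorem BL3_three (h : ℕ) : 2 * h + 1 ≤ 3 ^ h := by
  induction h with
  | zero => simp
  | succ h ih =>
    rw [pow_succ]
    omega

/-- the factorial -/
private theorem BL3_fact {s q h T w W : ℕ} (hh : 1 ≤ h) (hW : W = 32 * s * w)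
    (h3 : 3 ^ W ≤ T) (hqT : q ^ (32 * w) ≤ T) (hQ : (2 * h + 1) ^ s * q ≤ w * (h + 1) ^ s) :
    (((2 * h + 1) ^ s * q).factorial) ^ 32 ≤ T ^ (2 * h * (h + 1) ^ s) := by
  rcases Nat.eq_zero_or_pos q with rfl | hq
  · rw [mul_zero, Nat.factorial_zero, one_pow]
    have hT : 1 ≤ T := le_trans Nat.one_le_two_pow ((Nat.pow_le_pow_left (by norm_num) _).trans h3)
    exact Nat.one_le_pow _ _ hT
  have hT : 1 ≤ T := le_trans (Nat.one_le_pow _ _ (by norm_num)) h3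
  have hQ1 : 1 ≤ (2 * h + 1) ^ s * q := Nat.mul_pos (Nat.pow_pos (by omega)) hq
  obtain ⟨Q, hQdef⟩ : ∃ Q, Q = (2 * h + 1) ^ s * q := ⟨_, rfl⟩
  have hQ8 : Q ^ (32 * w) ≤ T ^ (2 * h) := by
    calc Q ^ (32 * w) = (2 * h + 1) ^ W * q ^ (32 * w) := by
          rw [hQdef, mul_pow, ← pow_mul, hW]
          congr 2
          ring
      _ ≤ (3 ^ h) ^ W * T := Nat.mul_le_mul (Nat.pow_le_pow_left (BL3_three h) _) hqT
      _ = (3 ^ W) ^ h * T := by rw [← pow_mul, ← pow_mul, mul_comm h W]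
      _ ≤ T ^ h * T ^ h := Nat.mul_le_mul (Nat.pow_le_pow_left h3 _) (Nat.le_self_pow (by omega) _)
      _ = T ^ (2 * h) := by rw [← pow_add, two_mul]
  rw [← hQdef] at hQ hQ1 ⊢
  calc Q.factorial ^ 32 ≤ (Q ^ Q) ^ 32 := Nat.pow_le_pow_left (Nat.factorial_le_pow Q) _
    _ = Q ^ (32 * Q) := by rw [← pow_mul, mul_comm]
    _ ≤ Q ^ (32 * (w * (h + 1) ^ s)) := Nat.pow_le_pow_right hQ1 (Nat.mul_le_mul_left _ hQ)
    _ = (Q ^ (32 * w)) ^ (h + 1) ^ s := by rw [← pow_mul, mul_assoc]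
    _ ≤ (T ^ (2 * h)) ^ (h + 1) ^ s := Nat.pow_le_pow_left hQ8 _
    _ = T ^ (2 * h * (h + 1) ^ s) := by rw [← pow_mul]

/-- the boxes -/
private theorem BL3_box {s q h T w W M : ℕ} (hW : W = 32 * s * w) (hT : 1 ≤ T) (hM : 2 ≤ M)
    (hWM : W ≤ M) (h2 : 4 ^ W ≤ T) (hQ : (2 * h + 1) ^ s * q ≤ w * (h + 1) ^ s) :
    ((2 * ellL M T) ^ (q * (s * h * (2 * h + 1) ^ s)) * (2 * (T : ℝ)) ^ (q * (s * h * (2 * h + 1) ^ s))) ^ 32 ≤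
      (T : ℝ) ^ (2 * h * (h + 1) ^ s) := by
  obtain ⟨hl0, hl1, hl2, hl3⟩ := ellL_spec hM hT
  have hT1 : (1 : ℝ) ≤ T := by exact_mod_cast hT
  have hT0 : (0 : ℝ) < T := lt_of_lt_of_le one_pos hT1
  have hM0 : (0 : ℝ) < M := by
    have : 0 < M := by omega
    exact_mod_cast this
  obtain ⟨R, hR⟩ : ∃ R : ℝ, R = (T : ℝ) ^ (1 / (M : ℝ)) := ⟨_, rfl⟩
  have hR1 : 1 ≤ R := by
    rw [hR]
    exact Real.one_le_rpow hT1 (by positivity)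
  have hRM : R ^ M = T := by
    rw [hR, ← Real.rpow_natCast, ← Real.rpow_mul hT0.le, one_div, inv_mul_cancel₀ hM0.ne', Real.rpow_one]
  rw [← hR] at hl3
  have h2R : (1 : ℝ) ≤ 4 * R := by linarith
  have e1 : (2 * ellL M T) ^ (q * (s * h * (2 * h + 1) ^ s)) * (2 * (T : ℝ)) ^ (q * (s * h * (2 * h + 1) ^ s)) =
      (4 * R) ^ (h * s * ((2 * h + 1) ^ s * q)) := by
    have e3 : q * (s * h * (2 * h + 1) ^ s) = h * s * ((2 * h + 1) ^ s * q) := by ring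
    rw [e3, ← mul_pow, mul_assoc, hl3]
    congr 1
    ring
  have e4 : (4 * R) ^ W ≤ (T : ℝ) ^ 2 := by
    rw [mul_pow, sq]
    have h3 : (4 : ℝ) ^ W ≤ T := by exact_mod_cast h2
    have h4 : R ^ W ≤ T := by
      rw [← hRM]
      exact pow_le_pow_right₀ hR1 hWM
    exact mul_le_mul h3 h4 (by positivity) hT0.le
  rw [e1]
  calc ((4 * R) ^ (h * s * ((2 * h + 1) ^ s * q))) ^ 32 = (4 * R) ^ (32 * (h * s * ((2 * h + 1) ^ s * q))) := by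
        rw [← pow_mul, mul_comm (h * s * ((2 * h + 1) ^ s * q)) 32]
    _ ≤ (4 * R) ^ (W * (h * (h + 1) ^ s)) := by
        refine pow_le_pow_right₀ h2R ?_
        calc 32 * (h * s * ((2 * h + 1) ^ s * q)) ≤ 32 * (h * s * (w * (h + 1) ^ s)) :=
              Nat.mul_le_mul_left _ (Nat.mul_le_mul_left _ hQ)
          _ = W * (h * (h + 1) ^ s) := by
              rw [hW]
              ring
    _ = ((4 * R) ^ W) ^ (h * (h + 1) ^ s) := by rw [← pow_mul]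
    _ ≤ ((T : ℝ) ^ 2) ^ (h * (h + 1) ^ s) := pow_le_pow_left₀ (by positivity) e4 _
    _ = (T : ℝ) ^ (2 * h * (h + 1) ^ s) := by
        rw [← pow_mul]
        congr 1
        ring

/-- the side of the boxes is small -/
private theorem BL3_ell {M T : ℕ} (hM : 2 ≤ M) (hT : 1 ≤ T) {r : ℝ} (h : (4 / r) ^ 4 ≤ T) :
    (2 * (2 * ellL M T) / r) ^ 4 * T ≤ 1 := by
  have hT1 : (1 : ℝ) ≤ T := by exact_mod_cast hT
  have hT0 : (0 : ℝ) < T := lt_of_lt_of_le one_pos hT1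
  obtain ⟨hl0, hl1, -⟩ := ellL_spec hM hT
  have h1 : ellL M T ^ 4 * (T : ℝ) ^ 2 ≤ 1 := by
    have h2 : ellL M T ^ 4 ≤ ((T : ℝ) ^ (-(1 / 2) : ℝ)) ^ 4 := pow_le_pow_left₀ hl0.le hl1 4
    have h3 : ((T : ℝ) ^ (-(1 / 2) : ℝ)) ^ 4 * (T : ℝ) ^ 2 = 1 := by
      rw [← Real.rpow_natCast ((T : ℝ) ^ (-(1 / 2) : ℝ)) 4, ← Real.rpow_mul hT0.le, ← Real.rpow_natCast (T : ℝ) 2,
        ← Real.rpow_add hT0]
      norm_num
    calc ellL M T ^ 4 * (T : ℝ) ^ 2 ≤ ((T : ℝ) ^ (-(1 / 2) : ℝ)) ^ 4 * (T : ℝ) ^ 2 :=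
          mul_le_mul_of_nonneg_right h2 (by positivity)
      _ = 1 := h3
  have e : (2 * (2 * ellL M T) / r) ^ 4 = (4 / r) ^ 4 * ellL M T ^ 4 := by
    rw [← mul_pow]
    congr 1
    ring
  rw [e]
  calc (4 / r) ^ 4 * ellL M T ^ 4 * T ≤ T * ellL M T ^ 4 * T := by
        refine mul_le_mul_of_nonneg_right (mul_le_mul_of_nonneg_right h (by positivity)) hT0.le
    _ = ellL M T ^ 4 * (T : ℝ) ^ 2 := by ring
    _ ≤ 1 := h1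

theorem arithEL {s q M : ℕ} (hs : 1 ≤ s) (hq : 1 ≤ q) (hM : 2 ^ (s + 5) * s * q ≤ M) {r : ℝ} (hr : 0 < r) :
    ∃ T₀ : ℕ, 2 ≤ T₀ ∧ ∀ T : ℕ, T₀ ≤ T → 4 * (2 * ellL M T) ≤ r ∧
      ∀ m L h : ℕ, 2 ^ (s + 3) * q * L + 16 * m + 1 ≤ h → ∀ B : ℝ, 0 ≤ B → B ≤ (T : ℝ) ^ m →
        (((2 * h + 1) ^ s * q).factorial : ℝ) * ((T : ℝ) ^ L) ^ ((2 * h + 1) ^ s * q) *
            (q * B * 2 ^ s * (2 * (2 * ellL M T) / r) ^ (h + 1)) ^ (h + 1) ^ s *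
            (2 * ellL M T) ^ (q * (s * h * (2 * h + 1) ^ s)) * (2 * (T : ℝ)) ^ (q * (s * h * (2 * h + 1) ^ s)) <
          (((T : ℝ) ^ m)⁻¹) ^ (h + 1) ^ s := by
  obtain ⟨w, hw⟩ : ∃ w, w = 2 ^ s * q := ⟨_, rfl⟩
  obtain ⟨W, hW⟩ : ∃ W, W = 32 * s * w := ⟨_, rfl⟩
  have hw1 : 1 ≤ w := by
    rw [hw]
    exact Nat.mul_pos (by positivity) hq
  have hWM : W ≤ M := by
    refine le_trans (le_of_eq ?_) hM
    rw [hW, hw, pow_add]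
    ring
  have hW8 : 32 ≤ W := by
    rw [hW]
    nlinarith
  obtain ⟨A1, hA1⟩ : ∃ A1, A1 = 4 ^ W := ⟨_, rfl⟩
  obtain ⟨A2, hA2⟩ : ∃ A2, A2 = q ^ (32 * w) := ⟨_, rfl⟩
  obtain ⟨A3, hA3⟩ : ∃ A3, A3 = (q * 2 ^ s) ^ 4 := ⟨_, rfl⟩
  obtain ⟨A4, hA4⟩ : ∃ A4, A4 = ⌈(4 / r) ^ 4⌉₊ := ⟨_, rfl⟩
  refine ⟨A1 + A2 + A3 + A4 + 16, by omega, fun T hT => ?_⟩
  have hT4 : 4 ^ W ≤ T := by
    rw [← hA1]
    omega
  have hTq : q ^ (32 * w) ≤ T := by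
    rw [← hA2]
    omega
  have hTq2 : (q * 2 ^ s) ^ 4 ≤ T := by
    rw [← hA3]
    omega
  have hTr : ⌈(4 / r) ^ 4⌉₊ ≤ T := by
    rw [← hA4]
    omega
  have hT16 : 16 ≤ T := by omega
  have hT3 : 3 ^ W ≤ T := (Nat.pow_le_pow_left (by norm_num) _).trans hT4
  have hM2 : 2 ≤ M := by omega
  have hTr' : (4 / r) ^ 4 ≤ (T : ℝ) := (Nat.le_ceil _).trans (by exact_mod_cast hTr)
  have hℓ := BL3_ell hM2 (by omega) hTr'
  have hl0 : 0 < ellL M T := (ellL_spec hM2 (show 1 ≤ T by omega)).1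
  have hx16 : (16 : ℝ) ≤ T := by exact_mod_cast hT16
  have hx1 : (1 : ℝ) ≤ T := by linarith
  have hx0 : (0 : ℝ) < T := by linarith
  obtain ⟨u, hu⟩ : ∃ u : ℝ, u = 2 * (2 * ellL M T) / r := ⟨_, rfl⟩
  have hu0 : 0 ≤ u := by
    rw [hu]
    positivity
  rw [← hu] at hℓ
  refine ⟨?_, fun m L h hh B hB0 hB => ?_⟩
  · have h1 : u ≤ 1 / 2 := by
      by_contra hcon
      push Not at hcon
      have h2 : (1 / 2 : ℝ) ^ 4 < u ^ 4 := pow_lt_pow_left₀ hcon (by norm_num) (by norm_num)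
      have h3 : (1 : ℝ) < u ^ 4 * T := by
        calc (1 : ℝ) = (1 / 2 : ℝ) ^ 4 * 16 := by norm_num
          _ < u ^ 4 * T := mul_lt_mul h2 hx16 (by norm_num) (by positivity)
      linarith
    rw [hu, div_le_iff₀ hr] at h1
    linarith
  rw [← hu]
  have hh1 : 1 ≤ h := by omega
  have hQ : (2 * h + 1) ^ s * q ≤ w * (h + 1) ^ s := by
    calc (2 * h + 1) ^ s * q ≤ (2 * (h + 1)) ^ s * q :=
          Nat.mul_le_mul_right _ (Nat.pow_le_pow_left (by omega) _)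
      _ = w * (h + 1) ^ s := by
          rw [hw, mul_pow]
          ring
  have hF := BL3_fact hh1 hW hT3 hTq hQ
  have hY := BL3_box (q := q) hW (show 1 ≤ T by omega) hM2 hWM hT4 hQ
  obtain ⟨E, hE⟩ : ∃ E, E = (h + 1) ^ s := ⟨_, rfl⟩
  obtain ⟨Q, hQdef⟩ : ∃ Q, Q = (2 * h + 1) ^ s * q := ⟨_, rfl⟩
  obtain ⟨G₀, hG₀⟩ : ∃ G₀, G₀ = q * (s * h * (2 * h + 1) ^ s) := ⟨_, rfl⟩
  have hE1 : 1 ≤ E := by
    rw [hE]
    exact Nat.one_le_pow _ _ (by omega)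
  -- the functions
  obtain ⟨ε, hε⟩ : ∃ ε : ℝ, ε = q * B * 2 ^ s * u ^ (h + 1) := ⟨_, rfl⟩
  have hε0 : 0 ≤ ε := by
    rw [hε]
    positivity
  have hεT : ε ^ 4 * (T : ℝ) ^ h ≤ ((T : ℝ) ^ m) ^ 4 := by
    have h2 : (u ^ 4) ^ (h + 1) * (T : ℝ) ^ (h + 1) ≤ 1 := by
      rw [← mul_pow]
      exact pow_le_one₀ (by positivity) hℓ
    have h3 : ((q : ℝ) * 2 ^ s) ^ 4 ≤ T := by exact_mod_cast hTq2
    have h4 : B ^ 4 ≤ ((T : ℝ) ^ m) ^ 4 := pow_le_pow_left₀ hB0 hB 4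
    calc ε ^ 4 * (T : ℝ) ^ h = (q * 2 ^ s) ^ 4 * B ^ 4 * (u ^ 4) ^ (h + 1) * (T : ℝ) ^ h := by
          rw [hε]
          ring
      _ ≤ T * ((T : ℝ) ^ m) ^ 4 * (u ^ 4) ^ (h + 1) * (T : ℝ) ^ h := by
          refine mul_le_mul_of_nonneg_right ?_ (by positivity)
          refine mul_le_mul_of_nonneg_right ?_ (by positivity)
          exact mul_le_mul h3 h4 (by positivity) hx0.le
      _ = ((T : ℝ) ^ m) ^ 4 * ((u ^ 4) ^ (h + 1) * (T : ℝ) ^ (h + 1)) := by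
          rw [pow_succ (T : ℝ) h]
          ring
      _ ≤ ((T : ℝ) ^ m) ^ 4 * 1 := mul_le_mul_of_nonneg_left h2 (by positivity)
      _ = _ := mul_one _
  rw [← hε, ← hE, ← hQdef, ← hG₀]
  rw [← hE, ← hG₀] at hY
  rw [← hE, ← hQdef] at hF
  rw [← hE, ← hQdef] at hQ
  obtain ⟨Y, hYdef⟩ : ∃ Y : ℝ, Y = (2 * ellL M T) ^ G₀ * (2 * (T : ℝ)) ^ G₀ :=
    ⟨_, rfl⟩
  have hY0 : 0 ≤ Y := by
    rw [hYdef]
    positivity
  rw [← hYdef] at hY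
  have hFr : ((Q.factorial : ℕ) : ℝ) ^ 32 ≤ (T : ℝ) ^ (2 * h * E) := by exact_mod_cast hF
  have hX : (((T : ℝ) ^ L) ^ Q) ^ 32 ≤ (T : ℝ) ^ (32 * L * w * E) := by
    rw [← pow_mul, ← pow_mul]
    refine pow_le_pow_right₀ hx1 ?_
    calc L * (Q * 32) = L * 32 * Q := by ring
      _ ≤ L * 32 * (w * E) := Nat.mul_le_mul_left _ hQ
      _ = 32 * L * w * E := by ring
  have hL : (Q.factorial : ℝ) * ((T : ℝ) ^ L) ^ Q * ε ^ E * (2 * ellL M T) ^ G₀ *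
      (2 * (T : ℝ)) ^ G₀ = (Q.factorial : ℝ) * ((T : ℝ) ^ L) ^ Q * ε ^ E * Y := by
    rw [hYdef]
    ring
  rw [hL]
  by_contra hcon
  rw [not_lt] at hcon
  have h8 := pow_le_pow_left₀ (by positivity) hcon 32
  have k1 : ((Q.factorial : ℝ) * ((T : ℝ) ^ L) ^ Q * ε ^ E * Y) ^ 32 * ((T : ℝ) ^ h) ^ (8 * E) ≤
      (T : ℝ) ^ (2 * h * E) * (T : ℝ) ^ (32 * L * w * E) * (((T : ℝ) ^ m) ^ 4) ^ (8 * E) * (T : ℝ) ^ (2 * h * E) := by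
    have e1 : ((Q.factorial : ℝ) * ((T : ℝ) ^ L) ^ Q * ε ^ E * Y) ^ 32 * ((T : ℝ) ^ h) ^ (8 * E) =
        (Q.factorial : ℝ) ^ 32 * (((T : ℝ) ^ L) ^ Q) ^ 32 * (ε ^ 4 * (T : ℝ) ^ h) ^ (8 * E) * Y ^ 32 := by
      have e2 : (ε ^ E) ^ 32 = (ε ^ 4) ^ (8 * E) := by
        rw [← pow_mul, ← pow_mul]
        congr 1
        ring
      rw [mul_pow (ε ^ 4), mul_pow, mul_pow, mul_pow, e2]
      ring
    rw [e1]
    have a1 := mul_le_mul hFr hX (by positivity) (by positivity)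
    have a2 : (ε ^ 4 * (T : ℝ) ^ h) ^ (8 * E) ≤ (((T : ℝ) ^ m) ^ 4) ^ (8 * E) := pow_le_pow_left₀ (by positivity) hεT _
    have a3 := mul_le_mul a1 a2 (by positivity) (by positivity)
    exact mul_le_mul a3 hY (by positivity) (by positivity)
  have k2 : (((T : ℝ) ^ m)⁻¹ ^ E) ^ 32 * ((T : ℝ) ^ m) ^ (32 * E) = 1 := by
    rw [← pow_mul, mul_comm E 32, ← mul_pow, inv_mul_cancel₀ (by positivity), one_pow]
  have k3 : ((T : ℝ) ^ h) ^ (8 * E) ≤ (T : ℝ) ^ (2 * h * E) * (T : ℝ) ^ (32 * L * w * E) * (((T : ℝ) ^ m) ^ 4) ^ (8 * E) *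
      (T : ℝ) ^ (2 * h * E) * ((T : ℝ) ^ m) ^ (32 * E) := by
    calc ((T : ℝ) ^ h) ^ (8 * E) = (((T : ℝ) ^ m)⁻¹ ^ E) ^ 32 * ((T : ℝ) ^ h) ^ (8 * E) * ((T : ℝ) ^ m) ^ (32 * E) := by
          rw [mul_right_comm, k2, one_mul]
      _ ≤ ((Q.factorial : ℝ) * ((T : ℝ) ^ L) ^ Q * ε ^ E * Y) ^ 32 * ((T : ℝ) ^ h) ^ (8 * E) * ((T : ℝ) ^ m) ^ (32 * E) := by
          refine mul_le_mul_of_nonneg_right (mul_le_mul_of_nonneg_right h8 (by positivity)) (by positivity)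
      _ ≤ _ := mul_le_mul_of_nonneg_right k1 (by positivity)
  have k4 : (T : ℝ) ^ (2 * h * E) * (T : ℝ) ^ (32 * L * w * E) * (((T : ℝ) ^ m) ^ 4) ^ (8 * E) *
      (T : ℝ) ^ (2 * h * E) * ((T : ℝ) ^ m) ^ (32 * E) = (T : ℝ) ^ ((4 * h + 32 * L * w + 64 * m) * E) := by
    rw [← pow_mul, ← pow_mul, ← pow_mul, ← pow_add, ← pow_add, ← pow_add, ← pow_add]
    congr 1
    ring
  rw [k4, ← pow_mul] at k3
  have k5 : (4 * h + 32 * L * w + 64 * m) * E < h * (8 * E) := by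
    have k6 : 2 ^ (s + 3) * q * L = 8 * (L * w) := by
      rw [hw, pow_add]
      ring
    have k7 : 4 * h + 32 * L * w + 64 * m < 8 * h := by
      have k8 : 32 * L * w = 32 * (L * w) := by ring
      omega
    calc (4 * h + 32 * L * w + 64 * m) * E < 8 * h * E := Nat.mul_lt_mul_of_pos_right k7 hE1
      _ = h * (8 * E) := by ring
  exact absurd k3 (not_le.2 (pow_lt_pow_right₀ (by linarith) k5))

end Pool.Agent.Lib.MP_bbe012_lc.XS
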