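import Pool.Agent.Lib.MP_bbe012_lc.XS.B2
import Pool.Agent.Lib.MP_bbe012_lc.XS.BL3
import Pool.Agent.Lib.MP_bbe012_lc.PM.Ct1

/-!
# Lattices: the auxiliary vector of polynomials, effective
-/

namespace Pool.Agent.Lib.MP_bbe012_lc.XS

open Finset PG PM PL

/-- As `stageE` (B4.lean), for the points of a translate of a lattice. -/
theorem stageEL {s q M : ℕ} (hs : 0 < s) (hq : 0 < q) (hM : 2 ^ (s + 5) * s * q ≤ M) {r : ℝ} (hr : 0 < r) :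
    ∃ T₀ : ℕ, 2 ≤ T₀ ∧ ∀ T : ℕ, T₀ ≤ T → ∀ m L h : ℕ, 2 ^ (s + 3) * q * L + 16 * m + 1 ≤ h →
      ∀ B : ℝ, 0 ≤ B → B ≤ (T : ℝ) ^ m → ∀ (θ₀ θ₁ : Fin s → ℝ) (G : Fin q → (Fin s → ℝ) → ℝ)
      (ν : Fin q → (Fin s → ℕ) → ℝ), (∀ i, |θ₁ i - θ₀ i| ≤ ellL M T) → (∀ j, Exp r B θ₁ (G j) (ν j)) →
      (∃ j, ((T : ℝ) ^ m)⁻¹ ≤ |ν j 0|) → ∀ (a₀ h₀ : Fin s → ℚ), (∀ i, 1 ≤ 2 * (T : ℚ) * h₀ i) →
      ∀ (Z : Set (Fin s → ℚ)) (cf : (Fin s → ℚ) → Fin q → ℤ),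
        (∀ σ ∈ Z, InC a₀ h₀ σ ∧ (∀ i, |(σ i : ℝ) - θ₀ i| ≤ ellL M T) ∧ (∀ j, |cf σ j| ≤ (T : ℤ) ^ L) ∧
          ∑ j, (cf σ j : ℝ) * G j (fun i => (σ i : ℝ)) = 0) →
        ∃ P : Fin q → (Fin s → Fin (2 * h + 1)) → ℚ, (∀ j a, |P j a| ≤ 1) ∧ (∃ j a, |P j a| = 1) ∧
          ∀ σ ∈ Z, ∑ j, (∑ a, P j a * ∏ l, σ l ^ (a l : ℕ)) * (cf σ j : ℚ) = 0 := by
  classical
  have hMpos : 2 ≤ M := by
    refine le_trans ?_ hM
    have h1 : 1 ≤ s * q := Nat.mul_pos hs hq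
    have h2 : 32 ≤ 2 ^ (s + 5) := by
      rw [pow_add]
      have : 1 ≤ 2 ^ s := Nat.one_le_two_pow
      omega
    calc 2 ≤ 32 * 1 := by norm_num
      _ ≤ 2 ^ (s + 5) * (s * q) := Nat.mul_le_mul h2 h1
      _ = 2 ^ (s + 5) * s * q := by ring
  have instS : Nonempty (Fin s) := Fin.pos_iff_nonempty.1 hs
  have instQ : Nonempty (Fin q) := Fin.pos_iff_nonempty.1 hq
  obtain ⟨T₀, hT₀, hA⟩ := arithEL hs hq hM hr
  refine ⟨T₀, hT₀, fun T hT m L h hh B hB hBT θ₀ θ₁ G ν hθ hE hν a₀ h₀ hh₀ Z cf hZ => ?_⟩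
  have hT2 : 2 ≤ T := hT₀.trans hT
  have hT1 : 1 ≤ T := by omega
  have hTr : (1 : ℝ) ≤ T := by exact_mod_cast hT1
  have hT0 : (0 : ℝ) < T := lt_of_lt_of_le one_pos hTr
  obtain ⟨hell0, -⟩ := ellL_spec hMpos hT1
  obtain ⟨hℓr, harith⟩ := hA T hT
  have harith' := harith m L h hh B hB hBT
  let v : Z → (Fin s → Fin (2 * h + 1)) × Fin q → ℝ := fun z aj =>
    (∏ l, ((z : Fin s → ℚ) l : ℝ) ^ (aj.1 l : ℕ)) * (cf z aj.2 : ℝ)
  rcases exists_normal v with ⟨P, hP1, ⟨⟨b₀, j₀⟩, hP2⟩, hP3⟩ | ⟨f, hf⟩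
  · obtain ⟨Q, hQ1, ⟨⟨j₁, a₁⟩, hQ2⟩, hQ3⟩ := rat_normal (S := Z) (n := Fin q × (Fin s → Fin (2 * h + 1)))
      (fun σ ja => (∏ l, (σ : Fin s → ℚ) l ^ (ja.2 l : ℕ)) * (cf σ ja.1 : ℚ)) (fun ja => P (ja.2, ja.1))
      ⟨(j₀, b₀), fun h0 => by
        have h1 : P (b₀, j₀) = 0 := h0
        rw [h1, abs_zero] at hP2
        exact zero_ne_one hP2⟩
      (fun σ => by
        have h1 := hP3 σ
        rw [Fintype.sum_prod_type, Finset.sum_comm] at h1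
        rw [Fintype.sum_prod_type, ← h1]
        refine Finset.sum_congr rfl fun j _ => ?_
        refine Finset.sum_congr rfl fun a _ => ?_
        simp only [v]
        push_cast
        ring)
    refine ⟨fun j a => Q (j, a), fun j a => hQ1 (j, a), ⟨j₁, a₁, hQ2⟩, fun σ hσ => ?_⟩
    have h1 := hQ3 ⟨σ, hσ⟩
    rw [Fintype.sum_prod_type] at h1
    rw [← h1]
    refine Finset.sum_congr rfl fun j _ => ?_
    rw [Finset.sum_mul]
    refine Finset.sum_congr rfl fun a _ => ?_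
    ring
  · exfalso
    have hmat : rowMat (2 * h) (fun i l => ((f i : Fin s → ℚ) l : ℝ)) (fun i j => (cf (f i) j : ℝ)) =
        Matrix.of fun i => v (f i) := by
      ext i aj
      simp only [rowMat, Matrix.of_apply, v]
    have hlow := det_lowerL (2 * h) (fun i => (f i : Fin s → ℚ)) (fun i => cf (f i)) a₀ h₀
      (fun i => (hZ _ (f i).2).1) T hh₀ (by
        rw [hmat]
        exact hf)
    have hupp := det_upper0 h hr hB hE (μ := ((T : ℝ) ^ m)⁻¹) (by positivity) hν (ℓ := 2 * ellL M T)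
      (by positivity) hℓr (fun i l => ((f i : Fin s → ℚ) l : ℝ))
      (fun i j => (cf (f i) j : ℝ)) (X := (T : ℝ) ^ L) (by positivity)
      (fun i l => by
        have h1 := (hZ _ (f i).2).2.1 l
        have h2 := hθ l
        rw [abs_sub_comm] at h2
        calc |((f i : Fin s → ℚ) l : ℝ) - θ₁ l| =
              |(((f i : Fin s → ℚ) l : ℝ) - θ₀ l) + (θ₀ l - θ₁ l)| := by
              congr 1
              ring
          _ ≤ |((f i : Fin s → ℚ) l : ℝ) - θ₀ l| + |θ₀ l - θ₁ l| := abs_add_le _ _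
          _ ≤ 2 * ellL M T := by linarith)
      (fun i j => by
        have h1 := (hZ _ (f i).2).2.2.1 j
        have h2 : ((|cf (f i) j| : ℤ) : ℝ) ≤ (((T : ℤ) ^ L : ℤ) : ℝ) := by exact_mod_cast h1
        push_cast at h2
        exact h2)
      (fun i => (hZ _ (f i).2).2.2.2)
    have hcard : Fintype.card ((Fin s → Fin (2 * h + 1)) × Fin q) = (2 * h + 1) ^ s * q := by
      rw [Fintype.card_prod, Fintype.card_fun, Fintype.card_fin, Fintype.card_fin, Fintype.card_fin]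
    have hdeg : ∑ a : Fin s → Fin (2 * h + 1), ∑ l, (a l : ℕ) = s * h * (2 * h + 1) ^ s := by
      have h1 := two_mul_sum_deg (ι := Fin s) (2 * h)
      rw [Fintype.card_fin] at h1
      have h2 : 2 * ∑ a : Fin s → Fin (2 * h + 1), ∑ l, (a l : ℕ) = 2 * (s * h * (2 * h + 1) ^ s) := by
        rw [h1]
        ring
      omega
    rw [hdeg, hcard, Fintype.card_fin, Fintype.card_fin] at hupp
    rw [hdeg, Fintype.card_fin] at hlow
    have hμ0 : (0 : ℝ) ≤ (((T : ℝ) ^ m)⁻¹) ^ (h + 1) ^ s := by positivity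
    have hTQ : (0 : ℝ) ≤ (2 * (T : ℝ)) ^ (q * (s * h * (2 * h + 1) ^ s)) := by positivity
    have h1 := mul_le_mul_of_nonneg_right hlow hμ0
    have h2 := mul_le_mul_of_nonneg_right hupp hTQ
    have h3 : |(rowMat (2 * h) (fun i l => ((f i : Fin s → ℚ) l : ℝ)) (fun i j => (cf (f i) j : ℝ))).det| *
        (2 * (T : ℝ)) ^ (q * (s * h * (2 * h + 1) ^ s)) *
        (((T : ℝ) ^ m)⁻¹) ^ (h + 1) ^ s =
        |(rowMat (2 * h) (fun i l => ((f i : Fin s → ℚ) l : ℝ)) (fun i j => (cf (f i) j : ℝ))).det| *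
        (((T : ℝ) ^ m)⁻¹) ^ (h + 1) ^ s * (2 * (T : ℝ)) ^ (q * (s * h * (2 * h + 1) ^ s)) := by ring
    rw [one_mul, h3] at h1
    exact absurd ((h1.trans h2).trans_lt harith') (lt_irrefl _)

end Pool.Agent.Lib.MP_bbe012_lc.XS
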