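import Pool.Agent.Lib.MP_bbe012_lc.XS.B6
import Pool.Agent.Lib.MP_bbe012_lc.XS.BL4
import Pool.Agent.Lib.MP_bbe012_lc.XS.BL5

/-!
# Lattices: the induction on the number of functions, effective
-/

namespace Pool.Agent.Lib.MP_bbe012_lc.XS

open MvPolynomial Set PG PM PL

private theorem BL6_ne {s r q : ℕ} (hq : 0 < q) {Ω : Set (Fin s → ℝ)} {V : Fin r → (Fin s → ℝ) → ℝ}
    {y : Fin q → Fin r → MvPolynomial (Fin s) ℚ}
    (hI : ∀ P : Fin q → MvPolynomial (Fin s) ℚ,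
      (∀ θ ∈ Ω, ∑ j, aeval θ (P j) * ∑ i, aeval θ (y j i) * V i θ = 0) → ∀ j, P j = 0) :
    ∃ j, ∃ θ ∈ Ω, ∑ i, aeval θ (y j i) * V i θ ≠ 0 := by
  classical
  by_contra hcon
  push Not at hcon
  have h1 := hI (fun _ => 1) (by
    intro θ hθ
    refine Finset.sum_eq_zero fun j _ => ?_
    rw [hcon j θ hθ, mul_zero]) ⟨0, hq⟩
  exact one_ne_zero h1

private theorem BL6_eval {s : ℕ} (σ : Fin s → ℚ) (p : MvPolynomial (Fin s) ℚ)
    (h : aeval (fun i => (σ i : ℝ)) p = 0) : eval σ p = 0 := by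
  have h1 : aeval (fun i => (σ i : ℝ)) p = ((eval σ p : ℚ) : ℝ) := by
    have h2 := MvPolynomial.aeval_algebraMap_apply ℝ σ p
    rw [MvPolynomial.aeval_eq_eval] at h2
    exact h2
  rw [h1] at h
  exact_mod_cast h

private theorem BL6_h {s q L C D a : ℕ} : 2 ^ (s + 3) * q * L + 16 * (C * (D + 1) ^ (a + 1)) + 1 ≤
    (2 ^ (s + 3) * q + 16 * C + 1) * (D + L + 1) ^ (a + 1) := by
  have h0 : D + L + 1 ≤ (D + L + 1) ^ (a + 1) := Nat.le_self_pow (by omega) _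
  have h1 : L ≤ (D + L + 1) ^ (a + 1) := le_trans (by omega) h0
  have h2 : (D + 1) ^ (a + 1) ≤ (D + L + 1) ^ (a + 1) := Nat.pow_le_pow_left (by omega) _
  have h3 : 1 ≤ (D + L + 1) ^ (a + 1) := le_trans (by omega) h0
  calc 2 ^ (s + 3) * q * L + 16 * (C * (D + 1) ^ (a + 1)) + 1
      ≤ 2 ^ (s + 3) * q * (D + L + 1) ^ (a + 1) + 16 * (C * (D + L + 1) ^ (a + 1)) + (D + L + 1) ^ (a + 1) :=
        Nat.add_le_add (Nat.add_le_add (Nat.mul_le_mul_left _ h1) (Nat.mul_le_mul_left _ (Nat.mul_le_mul_left _ h2))) h3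
    _ = _ := by ring

private theorem BL6_B {C D a T : ℕ} (hT : 2 ≤ T) : ((C : ℝ) ^ (D + 1)) ≤ (T : ℝ) ^ (C * (D + 1) ^ (a + 1)) := by
  have h1 : C ^ (D + 1) ≤ T ^ (C * (D + 1) ^ (a + 1)) := by
    calc C ^ (D + 1) ≤ (T ^ C) ^ (D + 1) := by
          refine Nat.pow_le_pow_left ?_ _
          exact le_trans (le_of_lt Nat.lt_two_pow_self) (Nat.pow_le_pow_left hT _)
      _ = T ^ (C * (D + 1)) := by rw [pow_mul]
      _ ≤ T ^ (C * (D + 1) ^ (a + 1)) :=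
          Nat.pow_le_pow_right (by omega) (Nat.mul_le_mul_left _ (Nat.le_self_pow (by omega) _))
  exact_mod_cast h1

private theorem BL6_exp {C D a T : ℕ} (hT : 2 ≤ T) :
    ((T : ℝ) ^ (C * (D + 1) ^ (a + 1)))⁻¹ ≤ Real.exp (-((C : ℝ) * ((D : ℝ) + 1) ^ a * Real.log T)) := by
  have hT0 : (0 : ℝ) < T := by
    have : 0 < T := by omega
    exact_mod_cast this
  have h1 : Real.exp (-((C : ℝ) * ((D : ℝ) + 1) ^ a * Real.log T)) = ((T : ℝ) ^ (C * (D + 1) ^ a))⁻¹ := by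
    rw [Real.exp_neg]
    congr 1
    have h2 : (C : ℝ) * ((D : ℝ) + 1) ^ a * Real.log T = ((C * (D + 1) ^ a : ℕ) : ℝ) * Real.log T := by
      push_cast
      ring
    rw [h2, Real.exp_nat_mul, Real.exp_log hT0]
  rw [h1]
  have h3 : T ^ (C * (D + 1) ^ a) ≤ T ^ (C * (D + 1) ^ (a + 1)) :=
    Nat.pow_le_pow_right (by omega) (Nat.mul_le_mul_left _ (Nat.pow_le_pow_right (by omega) (by omega)))
  have h4 : (T : ℝ) ^ (C * (D + 1) ^ a) ≤ (T : ℝ) ^ (C * (D + 1) ^ (a + 1)) := by exact_mod_cast h3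
  exact inv_anti₀ (pow_pos hT0 _) h4

private theorem BL6_stage {s r : ℕ} (hs : 0 < s) {Ω S : Set (Fin s → ℝ)} {V : Fin r → (Fin s → ℝ) → ℝ}
    {r₁ : ℝ} {C a : ℕ} (h0 : 0 < r₁) (hF : FamPt Ω S V r₁ C a) {M : ℕ}
    (hM : 2 ^ (s + 5) * s * r ≤ M) (hM1 : 2 ≤ M) {q : ℕ} (hq : 0 < q) (hqr : q ≤ r) :
    ∃ T₀ : ℕ, 2 ≤ T₀ ∧ ∀ T : ℕ, T₀ ≤ T → ∀ (a₀ h₀ : Fin s → ℚ),
      (∀ i, 1 ≤ 2 * (T : ℚ) * h₀ i) → ∀ D L : ℕ, ∀ θ₀ ∈ S,
      ∀ y : Fin q → Fin r → MvPolynomial (Fin s) ℚ, (∀ j i l, (y j i).degreeOf l ≤ D) →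
      (∀ P : Fin q → MvPolynomial (Fin s) ℚ,
        (∀ θ ∈ Ω, ∑ j, aeval θ (P j) * ∑ i, aeval θ (y j i) * V i θ = 0) → ∀ j, P j = 0) →
      ∀ (Z : Finset (Fin s → ℚ)) (cf : (Fin s → ℚ) → Fin q → ℤ),
        (∀ σ ∈ Z, InC a₀ h₀ σ ∧ (∀ i, |(σ i : ℝ) - θ₀ i| ≤ ellL M T) ∧ (fun i => (σ i : ℝ)) ∈ Ω ∧
          (∃ j, cf σ j ≠ 0) ∧ (∀ j, |cf σ j| ≤ (T : ℤ) ^ L) ∧
          ∑ j, (cf σ j : ℝ) * ∑ i, aeval (fun i => (σ i : ℝ)) (y j i) * V i (fun i => (σ i : ℝ)) = 0) →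
        ∃ (p : Fin q → MvPolynomial (Fin s) ℚ) (j₁ : Fin q), p j₁ ≠ 0 ∧
          (∀ j l, (p j).degreeOf l ≤ 2 * (2 ^ (s + 3) * q * L + 16 * (C * (D + 1) ^ (a + 1)) + 1)) ∧
          ∀ σ ∈ Z, ∑ j, (cf σ j : ℝ) * aeval (fun i => (σ i : ℝ)) (p j) = 0 := by
  classical
  have hM2 : 2 ^ (s + 5) * s * q ≤ M := (Nat.mul_le_mul_left _ hqr).trans hM
  obtain ⟨T₁, hT₁, HS⟩ := stageEL hs hq hM2 h0
  refine ⟨max T₁ (⌈(1 / r₁) ^ 2⌉₊ + 1), le_trans hT₁ (le_max_left _ _), ?_⟩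
  intro T hTT a₀ h₀ hh₀ D L θ₀ hθ₀ y hdeg hI Z cf hZ
  have hTT1 : T₁ ≤ T := le_trans (le_max_left _ _) hTT
  have hT2 : 2 ≤ T := le_trans hT₁ hTT1
  have hT1 : 1 ≤ T := by omega
  have hTR0 : (0 : ℝ) < T := by exact_mod_cast hT1
  have hTR1 : (1 : ℝ) ≤ T := by exact_mod_cast hT1
  obtain ⟨hl0, hl1, hl2, hl3⟩ := ellL_spec hM1 hT1
  have hr : ellL M T ≤ r₁ := by
    have h1 : (1 / r₁) ^ 2 ≤ (T : ℝ) := by
      refine le_trans (Nat.le_ceil _) ?_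
      exact_mod_cast le_trans (Nat.le_succ _) (le_trans (le_max_right _ _) hTT)
    have h2 : ellL M T ^ 2 * (T : ℝ) ≤ 1 := by
      have h3 : ((T : ℝ) ^ (-(1 / 2) : ℝ)) ^ 2 * (T : ℝ) = 1 := by
        rw [← Real.rpow_natCast ((T : ℝ) ^ (-(1 / 2) : ℝ)) 2, ← Real.rpow_mul hTR0.le]
        norm_num
        rw [Real.rpow_neg_one, inv_mul_cancel₀ hTR0.ne']
      rw [← h3]
      exact mul_le_mul_of_nonneg_right (pow_le_pow_left₀ hl0.le hl1 2) hTR0.le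
    by_contra hcon
    push Not at hcon
    have h4 : r₁ ^ 2 < ellL M T ^ 2 := pow_lt_pow_left₀ hcon h0.le (by norm_num)
    have h5 : (1 : ℝ) ≤ r₁ ^ 2 * T := by
      rw [div_pow, one_pow, div_le_iff₀ (by positivity)] at h1
      linarith
    have h6 : r₁ ^ 2 * (T : ℝ) < ellL M T ^ 2 * T := mul_lt_mul_of_pos_right h4 hTR0
    linarith
  have hl4 : 1 / (T : ℝ) ^ 2 ≤ ellL M T := by
    have h1 : (1 : ℝ) ≤ (T : ℝ) ^ (1 / (M : ℝ)) := Real.one_le_rpow hTR1 (by positivity)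
    have h2 : (1 : ℝ) ≤ ellL M T * T := by linarith
    rw [div_le_iff₀ (pow_pos hTR0 2), sq, ← mul_assoc]
    calc (1 : ℝ) ≤ ellL M T * T := h2
      _ = ellL M T * T * 1 := (mul_one _).symm
      _ ≤ ellL M T * T * T := mul_le_mul_of_nonneg_left hTR1 (by positivity)
  obtain ⟨θ₁, lam, G, ν, hθ₁, hE, hG, hν⟩ := hF D T hT2 (ellL M T) hl4 hr θ₀ hθ₀ q y hdeg (BL6_ne hq hI)
  obtain ⟨P, hP1, ⟨j₁, a₁, hP2⟩, hP3⟩ := HS T hTT1 (C * (D + 1) ^ (a + 1)) L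
    (2 ^ (s + 3) * q * L + 16 * (C * (D + 1) ^ (a + 1)) + 1) le_rfl ((C : ℝ) ^ (D + 1)) (by positivity) (BL6_B hT2)
    θ₀ θ₁ G ν hθ₁ hE (by
      obtain ⟨j, hj⟩ := hν
      exact ⟨j, le_trans (BL6_exp hT2) hj⟩) a₀ h₀ hh₀ (Z : Set (Fin s → ℚ)) cf (by
      intro σ hσ
      obtain ⟨h1, h2, h3, h4, h5, h6⟩ := hZ σ (by simpa using hσ)
      refine ⟨h1, h2, h5, ?_⟩
      have h7 : ∀ j, (cf σ j : ℝ) * G j (fun i => (σ i : ℝ)) =
          lam (fun i => (σ i : ℝ)) * ((cf σ j : ℝ) * ∑ i, aeval (fun i => (σ i : ℝ)) (y j i) * V i (fun i => (σ i : ℝ))) := by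
        intro j
        rw [hG j _ h3]
        ring
      rw [Finset.sum_congr rfl fun j _ => h7 j, ← Finset.mul_sum, h6, mul_zero])
  refine ⟨fun j => mkQ (P j), j₁, ?_, fun j l => (mkQ_spec (P j)).2.1 l, ?_⟩
  · intro hz
    have hz' : mkQ (P j₁) = 0 := hz
    have h1 := (mkQ_spec (P j₁)).1 a₁
    rw [hz', coeff_zero] at h1
    rw [← h1] at hP2
    simp at hP2
  · intro σ hσ
    have h1 := hP3 σ (by simpa using hσ)
    have h2 : ((∑ j, (∑ a, P j a * ∏ l, σ l ^ (a l : ℕ)) * (cf σ j : ℚ) : ℚ) : ℝ) = 0 := by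
      rw [h1]
      simp
    rw [← h2]
    push_cast
    refine Finset.sum_congr rfl fun j _ => ?_
    rw [(mkQ_spec (P j)).2.2.1, mul_comm]

/-- the zeros of one of the polynomials -/
private theorem BL6_one {s : ℕ} (hs : 0 < s) {M T : ℕ} (hM : 2 ≤ M) (hT : 1 ≤ T) (θ₀ : Fin s → ℝ) {C a D L q : ℕ}
    {p : MvPolynomial (Fin s) ℚ} (hp : p ≠ 0)
    (hdeg : ∀ l, p.degreeOf l ≤ 2 * (2 ^ (s + 3) * q * L + 16 * (C * (D + 1) ^ (a + 1)) + 1))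
    {a₀ h₀ : Fin s → ℚ} (hh₀ : ∀ i, 1 ≤ 2 * (T : ℚ) * h₀ i) (Z : Finset (Fin s → ℚ))
    (hZ : ∀ σ ∈ Z, InC a₀ h₀ σ ∧ (∀ i, |(σ i : ℝ) - θ₀ i| ≤ ellL M T) ∧ eval σ p = 0) :
    (Z.card : ℝ) ≤ ((s * (2 * (2 ^ (s + 3) * q + 16 * C + 1)) * 5 ^ s : ℕ) : ℝ) * ((D : ℝ) + L + 1) ^ (a + 1) *
      (T : ℝ) ^ (((s : ℝ) - 1) / M) := by
  have h1 := zeros_polyL hs hM hT θ₀ hp hdeg hh₀ Z hZ
  refine le_trans h1 (mul_le_mul_of_nonneg_right ?_ (Real.rpow_nonneg (Nat.cast_nonneg _) _))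
  have h2 : s * (2 * (2 ^ (s + 3) * q * L + 16 * (C * (D + 1) ^ (a + 1)) + 1)) * 5 ^ s ≤
      s * (2 * (2 ^ (s + 3) * q + 16 * C + 1)) * 5 ^ s * (D + L + 1) ^ (a + 1) := by
    calc s * (2 * (2 ^ (s + 3) * q * L + 16 * (C * (D + 1) ^ (a + 1)) + 1)) * 5 ^ s
        ≤ s * (2 * ((2 ^ (s + 3) * q + 16 * C + 1) * (D + L + 1) ^ (a + 1))) * 5 ^ s :=
          Nat.mul_le_mul_right _ (Nat.mul_le_mul_left _ (Nat.mul_le_mul_left _ BL6_h))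
      _ = _ := by ring
  have h3 : ((s * (2 * (2 ^ (s + 3) * q * L + 16 * (C * (D + 1) ^ (a + 1)) + 1)) * 5 ^ s : ℕ) : ℝ) ≤
      ((s * (2 * (2 ^ (s + 3) * q + 16 * C + 1)) * 5 ^ s * (D + L + 1) ^ (a + 1) : ℕ) : ℝ) := by
    exact_mod_cast h2
  push_cast at h3 ⊢
  exact h3

theorem claimEL {s r : ℕ} (hs : 0 < s) {Ω S : Set (Fin s → ℝ)} {V : Fin r → (Fin s → ℝ) → ℝ} (hV : WHyp Ω S V)
    {r₁ : ℝ} {C a : ℕ} (h0 : 0 < r₁) (hC : 1 ≤ C) (hF : FamPt Ω S V r₁ C a) {M : ℕ}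
    (hM : 2 ^ (s + 5) * s * r ≤ M) (hM1 : 2 ≤ M) :
    ∀ q : ℕ, 1 ≤ q → q ≤ r → ∃ T₀ κ : ℕ, ∀ T : ℕ, T₀ ≤ T → ∀ (a₀ h₀ : Fin s → ℚ),
      (∀ i, 1 ≤ 2 * (T : ℚ) * h₀ i) → ∀ D L : ℕ, ∀ θ₀ ∈ S,
      ∀ y : Fin q → Fin r → MvPolynomial (Fin s) ℚ, (∀ j i l, (y j i).degreeOf l ≤ D) →
      (∀ P : Fin q → MvPolynomial (Fin s) ℚ,
        (∀ θ ∈ Ω, ∑ j, aeval θ (P j) * ∑ i, aeval θ (y j i) * V i θ = 0) → ∀ j, P j = 0) →
      ∀ (Z : Finset (Fin s → ℚ)) (cf : (Fin s → ℚ) → Fin q → ℤ),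
        (∀ σ ∈ Z, InC a₀ h₀ σ ∧ (∀ i, |(σ i : ℝ) - θ₀ i| ≤ ellL M T) ∧ (fun i => (σ i : ℝ)) ∈ Ω ∧
          (∃ j, cf σ j ≠ 0) ∧ (∀ j, |cf σ j| ≤ (T : ℤ) ^ L) ∧
          ∑ j, (cf σ j : ℝ) * ∑ i, aeval (fun i => (σ i : ℝ)) (y j i) * V i (fun i => (σ i : ℝ)) = 0) →
        (Z.card : ℝ) ≤ κ * ((D : ℝ) + L + 1) ^ bE a q * (T : ℝ) ^ (((s : ℝ) - 1) / M) := by
  classical
  intro q hq
  induction q, hq using Nat.le_induction with
  | base =>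
    intro hqr
    obtain ⟨T₀, hT₀, HS⟩ := BL6_stage hs h0 hF hM hM1 one_pos hqr
    refine ⟨T₀, s * (2 * (2 ^ (s + 3) * 1 + 16 * C + 1)) * 5 ^ s, ?_⟩
    intro T hT a₀ h₀ hh₀ D L θ₀ hθ₀ y hdeg hI Z cf hZ
    have hb : bE a 1 = a + 1 := by
      rw [bE, bE, zero_add, mul_one]
    rw [hb]
    obtain ⟨p, j₁, hp1, hpdeg, hrel⟩ := HS T hT a₀ h₀ hh₀ D L θ₀ hθ₀ y hdeg hI Z cf hZ
    refine BL6_one (a₀ := a₀) hs hM1 (by omega) θ₀ hp1 (hpdeg j₁) hh₀ Z ?_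
    intro σ hσ
    obtain ⟨h1, h2, h3, ⟨j', hj'⟩, h5, h6⟩ := hZ σ hσ
    refine ⟨h1, h2, BL6_eval σ _ ?_⟩
    have h7 := hrel σ hσ
    have hjj : j' = j₁ := Subsingleton.elim _ _
    have hj0 : (0 : Fin 1) = j₁ := Subsingleton.elim _ _
    rw [Fin.sum_univ_one, hj0] at h7
    rw [hjj] at hj'
    have h8 : (cf σ j₁ : ℝ) ≠ 0 := by exact_mod_cast hj'
    exact (mul_eq_zero.1 h7).resolve_left h8
  | succ q hq IH =>
    intro hqr
    obtain ⟨T₁, hT₁, HS⟩ := BL6_stage hs h0 hF hM hM1 (Nat.succ_pos q) hqr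
    obtain ⟨T₂, κ, H2⟩ := IH (by omega)
    obtain ⟨b, hb⟩ : ∃ b, b = bE a q := ⟨_, rfl⟩
    rw [← hb] at H2
    have hb' : bE a (q + 1) = (a + 1) * (b + 1) := by
      rw [hb, bE]
    refine ⟨max T₁ T₂, s * (2 * (2 ^ (s + 3) * (q + 1) + 16 * C + 1)) * 5 ^ s +
      κ * (1 + 2 * (2 ^ (s + 3) * (q + 1) + 16 * C + 1)) ^ b, ?_⟩
    intro T hTT a₀ h₀ hh₀ D L θ₀ hθ₀ y hdeg hI Z cf hZ
    rw [hb']
    have hTT1 : T₁ ≤ T := le_trans (le_max_left _ _) hTT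
    have hTT2 : T₂ ≤ T := le_trans (le_max_right _ _) hTT
    have hT1 : 1 ≤ T := by omega
    obtain ⟨p, j₁, hp1, hpdeg, hrel⟩ := HS T hTT1 a₀ h₀ hh₀ D L θ₀ hθ₀ y hdeg hI Z cf hZ
    obtain ⟨h, hh⟩ : ∃ h : ℕ, h = 2 ^ (s + 3) * (q + 1) * L + 16 * (C * (D + 1) ^ (a + 1)) + 1 := ⟨_, rfl⟩
    have hZ1 := BL6_one (q := q + 1) (a₀ := a₀) hs hM1 hT1 θ₀ hp1 (hpdeg j₁) hh₀ (Z.filter fun σ => ∀ j : Fin q, cf σ (j₁.succAbove j) = 0) (by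
      intro σ hσ
      rw [Finset.mem_filter] at hσ
      obtain ⟨h1, h2, h3, ⟨j, hj0⟩, h5, h6⟩ := hZ σ hσ.1
      refine ⟨h1, h2, BL6_eval σ _ ?_⟩
      have hjj : j = j₁ := by
        by_contra hne'
        obtain ⟨j', hj'⟩ := Fin.exists_succAbove_eq hne'
        exact hj0 (hj' ▸ hσ.2 j')
      have h7 := hrel σ hσ.1
      rw [Fin.sum_univ_succAbove _ j₁, Finset.sum_eq_zero (fun j' _ => by
        rw [hσ.2 j']
        simp), add_zero] at h7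
      have h8 : (cf σ j₁ : ℝ) ≠ 0 := by
        rw [← hjj]
        exact_mod_cast hj0
      exact (mul_eq_zero.1 h7).resolve_left h8)
    have hZ2 : ((Z.filter fun σ => ¬ ∀ j : Fin q, cf σ (j₁.succAbove j) = 0).card : ℝ) ≤
        κ * (((D + 2 * h : ℕ) : ℝ) + L + 1) ^ b * (T : ℝ) ^ (((s : ℝ) - 1) / M) := by
      have hN : ∀ (θ : Fin s → ℝ) (j : Fin q),
          ∑ i, aeval θ (p j₁ * y (j₁.succAbove j) i - p (j₁.succAbove j) * y j₁ i) * V i θ =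
            aeval θ (p j₁) * (∑ i, aeval θ (y (j₁.succAbove j) i) * V i θ) -
              aeval θ (p (j₁.succAbove j)) * ∑ i, aeval θ (y j₁ i) * V i θ := by
        intro θ j
        rw [Finset.mul_sum, Finset.mul_sum, ← Finset.sum_sub_distrib]
        refine Finset.sum_congr rfl fun i _ => ?_
        rw [map_sub, map_mul, map_mul]
        ring
      refine H2 T hTT2 a₀ h₀ hh₀ (D + 2 * h) L θ₀ hθ₀ (fun j i => p j₁ * y (j₁.succAbove j) i - p (j₁.succAbove j) * y j₁ i) ?_ ?_ _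
        (fun σ j => cf σ (j₁.succAbove j)) ?_
      · intro j i l
        rw [← hh] at hpdeg
        refine (degreeOf_sub_le l _ _).trans (max_le ?_ ?_)
        · refine (degreeOf_mul_le l _ _).trans ?_
          have := hpdeg j₁ l
          have := hdeg (j₁.succAbove j) i l
          omega
        · refine (degreeOf_mul_le l _ _).trans ?_
          have := hpdeg (j₁.succAbove j) l
          have := hdeg j₁ i l
          omega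
      · intro R hR j
        have h1 := hI (Fin.insertNth (α := fun _ => MvPolynomial (Fin s) ℚ) j₁ (-∑ j, R j * p (j₁.succAbove j)) fun j => R j * p j₁) (by
          intro θ hθ
          rw [Fin.sum_univ_succAbove _ j₁]
          simp only [Fin.insertNth_apply_same, Fin.insertNth_apply_succAbove]
          have h2 := hR θ hθ
          simp only [hN] at h2
          rw [← h2, map_neg, map_sum, ← sub_eq_zero]
          simp only [map_mul]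
          have h3 : ∀ j : Fin q, aeval θ (R j) * (aeval θ (p j₁) * (∑ i, aeval θ (y (j₁.succAbove j) i) * V i θ) -
              aeval θ (p (j₁.succAbove j)) * ∑ i, aeval θ (y j₁ i) * V i θ) =
              aeval θ (R j) * aeval θ (p j₁) * (∑ i, aeval θ (y (j₁.succAbove j) i) * V i θ) -
              aeval θ (R j) * aeval θ (p (j₁.succAbove j)) * ∑ i, aeval θ (y j₁ i) * V i θ := by
            intro j
            ring
          rw [Finset.sum_congr rfl fun j _ => h3 j, Finset.sum_sub_distrib, ← Finset.sum_mul]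
          ring) (j₁.succAbove j)
        rw [Fin.insertNth_apply_succAbove] at h1
        exact (mul_eq_zero.1 h1).resolve_right hp1
      · intro σ hσ
        rw [Finset.mem_filter] at hσ
        obtain ⟨h1, h2, h3, h4, h5, h6⟩ := hZ σ hσ.1
        refine ⟨h1, h2, h3, ?_, fun j => h5 _, ?_⟩
        · have h7 := hσ.2
          push Not at h7
          exact h7
        · have h8 := hrel σ hσ.1
          rw [Fin.sum_univ_succAbove _ j₁] at h6 h8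
          simp only [hN]
          have h9 : ∀ j : Fin q, (cf σ (j₁.succAbove j) : ℝ) * (aeval (fun i => (σ i : ℝ)) (p j₁) *
              (∑ i, aeval (fun i => (σ i : ℝ)) (y (j₁.succAbove j) i) * V i (fun i => (σ i : ℝ))) -
              aeval (fun i => (σ i : ℝ)) (p (j₁.succAbove j)) *
                ∑ i, aeval (fun i => (σ i : ℝ)) (y j₁ i) * V i (fun i => (σ i : ℝ))) =
              aeval (fun i => (σ i : ℝ)) (p j₁) * ((cf σ (j₁.succAbove j) : ℝ) *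
                ∑ i, aeval (fun i => (σ i : ℝ)) (y (j₁.succAbove j) i) * V i (fun i => (σ i : ℝ))) -
              ((cf σ (j₁.succAbove j) : ℝ) * aeval (fun i => (σ i : ℝ)) (p (j₁.succAbove j))) *
                ∑ i, aeval (fun i => (σ i : ℝ)) (y j₁ i) * V i (fun i => (σ i : ℝ)) := by
            intro j
            ring
          rw [Finset.sum_congr rfl fun j _ => h9 j, Finset.sum_sub_distrib, ← Finset.mul_sum, ← Finset.sum_mul,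
            eq_neg_of_add_eq_zero_right h6, eq_neg_of_add_eq_zero_right h8]
          ring
    have hsum : (Z.card : ℝ) = ((Z.filter fun σ => ∀ j : Fin q, cf σ (j₁.succAbove j) = 0).card : ℝ) +
        ((Z.filter fun σ => ¬ ∀ j : Fin q, cf σ (j₁.succAbove j) = 0).card : ℝ) := by
      rw [← Nat.cast_add, Finset.card_filter_add_card_filter_not]
    obtain ⟨H, hH⟩ : ∃ H : ℕ, H = 2 ^ (s + 3) * (q + 1) + 16 * C + 1 := ⟨_, rfl⟩
    have hhH : h ≤ H * (D + L + 1) ^ (a + 1) := by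
      rw [hh, hH]
      exact BL6_h
    rw [← hH] at hZ1 ⊢
    obtain ⟨K₁, hK₁⟩ : ∃ K₁ : ℕ, K₁ = s * (2 * H) * 5 ^ s := ⟨_, rfl⟩
    rw [← hK₁] at hZ1 ⊢
    have hX0 : D + L + 1 ≤ (D + L + 1) ^ (a + 1) := Nat.le_self_pow (by omega) _
    have hdl : D + 2 * h + L + 1 ≤ (1 + 2 * H) * (D + L + 1) ^ (a + 1) := by
      calc D + 2 * h + L + 1 = (D + L + 1) + 2 * h := by ring
        _ ≤ (D + L + 1) ^ (a + 1) + 2 * (H * (D + L + 1) ^ (a + 1)) :=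
            Nat.add_le_add hX0 (Nat.mul_le_mul_left _ hhH)
        _ = _ := by ring
    have hpow1 : (D + L + 1) ^ (a + 1) ≤ (D + L + 1) ^ ((a + 1) * (b + 1)) :=
      Nat.pow_le_pow_right (by omega) (Nat.le_mul_of_pos_right _ (by omega))
    have hpow2 : (D + 2 * h + L + 1) ^ b ≤ (1 + 2 * H) ^ b * (D + L + 1) ^ ((a + 1) * (b + 1)) := by
      calc (D + 2 * h + L + 1) ^ b ≤ ((1 + 2 * H) * (D + L + 1) ^ (a + 1)) ^ b := Nat.pow_le_pow_left hdl _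
        _ = (1 + 2 * H) ^ b * (D + L + 1) ^ ((a + 1) * b) := by rw [mul_pow, ← pow_mul]
        _ ≤ _ := Nat.mul_le_mul_left _ (Nat.pow_le_pow_right (by omega) (Nat.mul_le_mul_left _ (by omega)))
    have hnat : K₁ * (D + L + 1) ^ (a + 1) + κ * (D + 2 * h + L + 1) ^ b ≤
        (K₁ + κ * (1 + 2 * H) ^ b) * (D + L + 1) ^ ((a + 1) * (b + 1)) := by
      calc K₁ * (D + L + 1) ^ (a + 1) + κ * (D + 2 * h + L + 1) ^ b
          ≤ K₁ * (D + L + 1) ^ ((a + 1) * (b + 1)) + κ * ((1 + 2 * H) ^ b * (D + L + 1) ^ ((a + 1) * (b + 1))) :=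
            Nat.add_le_add (Nat.mul_le_mul_left _ hpow1) (Nat.mul_le_mul_left _ hpow2)
        _ = _ := by ring
    have hreal : (K₁ : ℝ) * ((D : ℝ) + L + 1) ^ (a + 1) + κ * (((D + 2 * h : ℕ) : ℝ) + L + 1) ^ b ≤
        ((K₁ + κ * (1 + 2 * H) ^ b : ℕ) : ℝ) * ((D : ℝ) + L + 1) ^ ((a + 1) * (b + 1)) := by
      exact_mod_cast hnat
    have hTp : 0 ≤ (T : ℝ) ^ (((s : ℝ) - 1) / M) := Real.rpow_nonneg (Nat.cast_nonneg _) _
    calc (Z.card : ℝ) = _ := hsum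
      _ ≤ (K₁ : ℝ) * ((D : ℝ) + L + 1) ^ (a + 1) * (T : ℝ) ^ (((s : ℝ) - 1) / M) +
          κ * (((D + 2 * h : ℕ) : ℝ) + L + 1) ^ b * (T : ℝ) ^ (((s : ℝ) - 1) / M) := add_le_add hZ1 hZ2
      _ = ((K₁ : ℝ) * ((D : ℝ) + L + 1) ^ (a + 1) + κ * (((D + 2 * h : ℕ) : ℝ) + L + 1) ^ b) *
          (T : ℝ) ^ (((s : ℝ) - 1) / M) := by ring
      _ ≤ _ := mul_le_mul_of_nonneg_right hreal hTp

end Pool.Agent.Lib.MP_bbe012_lc.XS
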