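import Pool.Agent.Lib.MP_bbe012_lc.XS.BL6
import Pool.Agent.Lib.MP_bbe012_lc.PL.L4

/-!
# Lattices: the counting theorem for relations of exponential size
-/

namespace Pool.Agent.Lib.MP_bbe012_lc.XS

open MvPolynomial Set PG PM PP PL

/-- the number of boxes times the number of points in each of them -/
private theorem BL7_large {s r : ℕ} {Ω S : Set (Fin s → ℝ)} {V : Fin r → (Fin s → ℝ) → ℝ} (hV : WHyp Ω S V) {M : ℕ}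
    (hM1 : 2 ≤ M) {T₀ κ b : ℕ}
    (H : ∀ T : ℕ, T₀ ≤ T → ∀ (a₀ h₀ : Fin s → ℚ), (∀ i, 1 ≤ 2 * (T : ℚ) * h₀ i) → ∀ D L : ℕ, ∀ θ₀ ∈ S,
      ∀ y : Fin r → Fin r → MvPolynomial (Fin s) ℚ, (∀ j i l, (y j i).degreeOf l ≤ D) →
      (∀ P : Fin r → MvPolynomial (Fin s) ℚ,
        (∀ θ ∈ Ω, ∑ j, aeval θ (P j) * ∑ i, aeval θ (y j i) * V i θ = 0) → ∀ j, P j = 0) →
      ∀ (Z : Finset (Fin s → ℚ)) (cf : (Fin s → ℚ) → Fin r → ℤ),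
        (∀ σ ∈ Z, InC a₀ h₀ σ ∧ (∀ i, |(σ i : ℝ) - θ₀ i| ≤ ellL M T) ∧ (fun i => (σ i : ℝ)) ∈ Ω ∧
          (∃ j, cf σ j ≠ 0) ∧ (∀ j, |cf σ j| ≤ (T : ℤ) ^ L) ∧
          ∑ j, (cf σ j : ℝ) * ∑ i, aeval (fun i => (σ i : ℝ)) (y j i) * V i (fun i => (σ i : ℝ)) = 0) →
        (Z.card : ℝ) ≤ κ * ((D : ℝ) + L + 1) ^ b * (T : ℝ) ^ (((s : ℝ) - 1) / M)) :
    ∃ R₀ : ℝ, 0 ≤ R₀ ∧ (∀ θ ∈ S, ∀ i, |θ i| ≤ R₀) ∧ ∀ T : ℕ, 1 ≤ T → T₀ ≤ T → ∀ (a₀ h₀ : Fin s → ℚ),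
      (∀ i, 1 ≤ 2 * (T : ℚ) * h₀ i) → ∀ L : ℕ,
      ({σ : Fin s → ℚ | InC a₀ h₀ σ ∧ cst σ ∈ S ∧ ∃ c : Fin r → ℤ, c ≠ 0 ∧ (∀ j, |c j| ≤ (T : ℤ) ^ L) ∧
        ∑ j, (c j : ℝ) * V j (cst σ) = 0}.ncard : ℝ) ≤
          (2 * R₀ + 5) ^ s * κ * ((L : ℝ) + 1) ^ b * (T : ℝ) ^ ((s : ℝ) - 1 / M) := by
  classical
  have hM0 : (0 : ℝ) < (M : ℝ) := by
    have : 0 < M := by omega
    exact_mod_cast this
  obtain ⟨R, hR⟩ := hV.compact.isBounded.exists_norm_le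
  have hRS : ∀ θ ∈ S, ∀ i, |θ i| ≤ max R 0 := fun θ hθ i =>
    ((norm_le_pi_norm θ i).trans (hR θ hθ)).trans (le_max_left _ _)
  obtain ⟨R₀, hR₀def⟩ : ∃ R₀, R₀ = max R 0 := ⟨_, rfl⟩
  have hR₀ : 0 ≤ R₀ := by
    rw [hR₀def]
    exact le_max_right _ _
  rw [← hR₀def] at hRS
  refine ⟨R₀, hR₀, hRS, ?_⟩
  intro T hT hTT a₀ h₀ hh₀ L
  obtain ⟨hl0, hl1, hl2, hl3⟩ := ellL_spec hM1 hT
  have hT0 : (0 : ℝ) < (T : ℝ) := by exact_mod_cast hT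
  have hT1 : (1 : ℝ) ≤ (T : ℝ) := by exact_mod_cast hT
  have hl1' : ellL M T ≤ 1 := by
    refine hl1.trans ?_
    exact Real.rpow_le_one_of_one_le_of_nonpos hT1 (by norm_num)
  obtain ⟨Bad, hBad⟩ : ∃ Bad : Set (Fin s → ℚ), Bad = {σ : Fin s → ℚ | InC a₀ h₀ σ ∧ cst σ ∈ S ∧
      ∃ c : Fin r → ℤ, c ≠ 0 ∧ (∀ j, |c j| ≤ (T : ℤ) ^ L) ∧
        ∑ j, (c j : ℝ) * V j (cst σ) = 0} := ⟨_, rfl⟩
  rw [← hBad]
  have hfin : Bad.Finite := by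
    refine (finite_box (a := a₀) hh₀ R₀).subset ?_
    intro σ hσ
    rw [hBad] at hσ
    exact ⟨hσ.1, fun i => hRS _ hσ.2.1 i⟩
  rw [Set.ncard_eq_toFinset_card _ hfin]
  have hmem : ∀ σ ∈ hfin.toFinset, InC a₀ h₀ σ ∧ cst σ ∈ S ∧
      ∃ c : Fin r → ℤ, c ≠ 0 ∧ (∀ j, |c j| ≤ (T : ℤ) ^ L) ∧
        ∑ j, (c j : ℝ) * V j (cst σ) = 0 := by
    intro σ hσ
    rw [Set.Finite.mem_toFinset, hBad] at hσ
    exact hσ
  have hcfex : ∃ cf : (Fin s → ℚ) → Fin r → ℤ, ∀ σ ∈ hfin.toFinset, cf σ ≠ 0 ∧ (∀ j, |cf σ j| ≤ (T : ℤ) ^ L) ∧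
      ∑ j, (cf σ j : ℝ) * V j (cst σ) = 0 := by
    refine ⟨fun σ => if hσ : σ ∈ hfin.toFinset then (hmem σ hσ).2.2.choose else 0, ?_⟩
    intro σ hσ
    simp only [dif_pos hσ]
    exact (hmem σ hσ).2.2.choose_spec
  obtain ⟨cf, hcf⟩ := hcfex
  -- the boxes
  obtain ⟨m, hm⟩ : ∃ m : ℤ, m = ⌈R₀ / ellL M T⌉ + 1 := ⟨_, rfl⟩
  have hm0 : 0 ≤ m := by
    rw [hm]
    have : 0 ≤ ⌈R₀ / ellL M T⌉ := Int.ceil_nonneg (by positivity)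
    omega
  have hmle : (m : ℝ) ≤ R₀ / ellL M T + 2 := by
    rw [hm]
    push_cast
    linarith [(Int.ceil_lt_add_one (R₀ / ellL M T)).le]
  have himg : hfin.toFinset.image (fun (σ : Fin s → ℚ) (i : Fin s) => ⌊(σ i : ℝ) / ellL M T⌋) ⊆
      Fintype.piFinset (fun _ : Fin s => Finset.Icc (-m) m) := by
    intro z hz
    obtain ⟨σ, hσ, rfl⟩ := Finset.mem_image.1 hz
    rw [Fintype.mem_piFinset]
    intro i
    have h1 := hRS _ (hmem σ hσ).2.1 i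
    rw [abs_le] at h1
    have h2 : -(R₀ / ellL M T) ≤ (σ i : ℝ) / ellL M T := by
      rw [← neg_div, div_le_div_iff_of_pos_right hl0]
      exact h1.1
    have h3 : (σ i : ℝ) / ellL M T ≤ R₀ / ellL M T := by
      rw [div_le_div_iff_of_pos_right hl0]
      exact h1.2
    have h4 : R₀ / ellL M T ≤ (⌈R₀ / ellL M T⌉ : ℝ) := Int.le_ceil _
    rw [Finset.mem_Icc]
    constructor
    · rw [Int.le_floor, hm]
      push_cast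
      linarith
    · have h5 : ⌊(σ i : ℝ) / ellL M T⌋ ≤ ⌈R₀ / ellL M T⌉ := by
        have h6 : ((⌊(σ i : ℝ) / ellL M T⌋ : ℤ) : ℝ) ≤ ((⌈R₀ / ellL M T⌉ : ℤ) : ℝ) :=
          (Int.floor_le _).trans (h3.trans h4)
        exact_mod_cast h6
      omega
  have hcardimg : ((hfin.toFinset.image (fun (σ : Fin s → ℚ) (i : Fin s) => ⌊(σ i : ℝ) / ellL M T⌋)).card : ℝ) ≤
      ((2 * R₀ + 5) / ellL M T) ^ s := by
    calc ((hfin.toFinset.image (fun (σ : Fin s → ℚ) (i : Fin s) => ⌊(σ i : ℝ) / ellL M T⌋)).card : ℝ) ≤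
          ((Fintype.piFinset (fun _ : Fin s => Finset.Icc (-m) m)).card : ℝ) := by
          exact_mod_cast Finset.card_le_card himg
      _ = (((Finset.Icc (-m) m).card : ℝ)) ^ s := by
          rw [Fintype.card_piFinset, Finset.prod_const, Finset.card_univ, Fintype.card_fin]
          push_cast
          rfl
      _ ≤ _ := by
          apply pow_le_pow_left₀ (Nat.cast_nonneg _)
          rw [Int.card_Icc]
          have h1 : (((m + 1 - -m).toNat : ℕ) : ℝ) = 2 * (m : ℝ) + 1 := by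
            have h2 : (((m + 1 - -m).toNat : ℕ) : ℤ) = 2 * m + 1 := by
              rw [Int.toNat_of_nonneg (by omega)]
              ring
            exact_mod_cast h2
          rw [h1, le_div_iff₀ hl0]
          have h3 : (m : ℝ) * ellL M T ≤ R₀ + 2 * ellL M T := by
            calc (m : ℝ) * ellL M T ≤ (R₀ / ellL M T + 2) * ellL M T := mul_le_mul_of_nonneg_right hmle hl0.le
              _ = R₀ + 2 * ellL M T := by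
                  field_simp
          nlinarith
  have hfib : ∀ z ∈ hfin.toFinset.image (fun (σ : Fin s → ℚ) (i : Fin s) => ⌊(σ i : ℝ) / ellL M T⌋),
      (((hfin.toFinset.filter fun σ => (fun i => ⌊(σ i : ℝ) / ellL M T⌋) = z).card : ℕ) : ℝ) ≤
        κ * ((L : ℝ) + 1) ^ b * (T : ℝ) ^ (((s : ℝ) - 1) / M) := by
    intro z hz
    obtain ⟨σ₀, hσ₀, rfl⟩ := Finset.mem_image.1 hz
    have hsum : ∀ (θ : Fin s → ℝ) (j : Fin r),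
        ∑ i, aeval θ ((fun (j i : Fin r) => if i = j then (1 : MvPolynomial (Fin s) ℚ) else 0) j i) * V i θ = V j θ := by
      intro θ j
      rw [Finset.sum_eq_single j]
      · simp
      · intro i _ hij
        simp [if_neg hij]
      · intro h
        exact absurd (Finset.mem_univ j) h
    refine le_of_le_of_eq (H T hTT a₀ h₀ hh₀ 0 L (cst σ₀) (hmem σ₀ hσ₀).2.1 (fun j i => if i = j then 1 else 0) ?_ ?_ _ cf ?_) ?_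
    · intro j i l
      by_cases hij : i = j
      · simp only [if_pos hij]
        rw [degreeOf_one]
      · simp only [if_neg hij]
        rw [degreeOf_zero]
    · intro P hP j
      refine hV.indep P ?_ j
      intro θ hθ
      rw [← hP θ hθ]
      refine Finset.sum_congr rfl fun j _ => ?_
      congr 1
      exact (hsum θ j).symm
    · intro σ hσ
      rw [Finset.mem_filter] at hσ
      obtain ⟨hσ1, hσ2⟩ := hσ
      obtain ⟨c1, c2, c3⟩ := hcf σ hσ1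
      refine ⟨(hmem σ hσ1).1, ?_, hV.sub (hmem σ hσ1).2.1, ?_, c2, ?_⟩
      · intro i
        have h1 : ⌊(σ i : ℝ) / ellL M T⌋ = ⌊(σ₀ i : ℝ) / ellL M T⌋ := congrFun hσ2 i
        have h2 : |(σ i : ℝ) / ellL M T - (σ₀ i : ℝ) / ellL M T| < 1 := Int.abs_sub_lt_one_of_floor_eq_floor h1
        rw [← sub_div, abs_div, abs_of_pos hl0, div_lt_one hl0] at h2
        exact h2.le
      · by_contra hcon
        push Not at hcon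
        exact c1 (funext fun j => hcon j)
      · rw [← c3]
        refine Finset.sum_congr rfl fun j _ => ?_
        congr 1
        exact hsum _ j
    · rw [Nat.cast_zero, zero_add]
  calc ((hfin.toFinset.card : ℕ) : ℝ) =
        ∑ z ∈ hfin.toFinset.image (fun (σ : Fin s → ℚ) (i : Fin s) => ⌊(σ i : ℝ) / ellL M T⌋),
          (((hfin.toFinset.filter fun σ => (fun i => ⌊(σ i : ℝ) / ellL M T⌋) = z).card : ℕ) : ℝ) := by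
        rw [← Nat.cast_sum]
        exact_mod_cast Finset.card_eq_sum_card_image _ _
    _ ≤ ∑ z ∈ hfin.toFinset.image (fun (σ : Fin s → ℚ) (i : Fin s) => ⌊(σ i : ℝ) / ellL M T⌋),
          κ * ((L : ℝ) + 1) ^ b * (T : ℝ) ^ (((s : ℝ) - 1) / M) := Finset.sum_le_sum hfib
    _ = ((hfin.toFinset.image (fun (σ : Fin s → ℚ) (i : Fin s) => ⌊(σ i : ℝ) / ellL M T⌋)).card : ℝ) *
          (κ * ((L : ℝ) + 1) ^ b * (T : ℝ) ^ (((s : ℝ) - 1) / M)) := by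
        rw [Finset.sum_const, nsmul_eq_mul]
    _ ≤ ((2 * R₀ + 5) / ellL M T) ^ s * (κ * ((L : ℝ) + 1) ^ b * (T : ℝ) ^ (((s : ℝ) - 1) / M)) := by
        apply mul_le_mul_of_nonneg_right hcardimg
        have : 0 < (T : ℝ) ^ (((s : ℝ) - 1) / M) := Real.rpow_pos_of_pos hT0 _
        positivity
    _ = (2 * R₀ + 5) ^ s * κ * ((L : ℝ) + 1) ^ b * (T : ℝ) ^ ((s : ℝ) - 1 / M) := by
        have h1 : (ellL M T ^ s)⁻¹ = (T : ℝ) ^ ((1 - 1 / (M : ℝ)) * (s : ℝ)) := by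
          rw [ellL, ← Real.rpow_natCast ((T : ℝ) ^ (-(1 - 1 / (M : ℝ)))), ← Real.rpow_mul hT0.le,
            ← Real.rpow_neg hT0.le]
          congr 1
          ring
        rw [div_pow, div_eq_mul_inv, h1]
        have h2 : (T : ℝ) ^ ((s : ℝ) - 1 / M) =
            (T : ℝ) ^ ((1 - 1 / (M : ℝ)) * (s : ℝ)) * (T : ℝ) ^ (((s : ℝ) - 1) / M) := by
          rw [← Real.rpow_add hT0]
          congr 1
          ring
        rw [h2]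
        ring

/-- As `count_exp` (B7.lean), for the points of a translate of a lattice: the exponents `k` and `η` depend only on the number `s` of parameters, the number `r` of functions and the exponent `a` of block A, not on the compact set `S`. -/
theorem count_expL {s : ℕ} (hs : 0 < s) (r a : ℕ) : ∃ k η : ℝ, 0 < k ∧ 0 < η ∧
    ∀ {Ω S : Set (Fin s → ℝ)} {V : Fin r → (Fin s → ℝ) → ℝ}, WHyp Ω S V → ∀ {r₁ : ℝ} {C : ℕ}, 0 < r₁ → 1 ≤ C →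
    FamPt Ω S V r₁ C a → ∃ K : ℝ, 0 < K ∧ ∀ T : ℕ, 1 ≤ T → ∀ (a₀ h₀ : Fin s → ℚ), (∀ i, 1 ≤ 2 * (T : ℚ) * h₀ i) →
      ({σ : Fin s → ℚ | InC a₀ h₀ σ ∧ cst σ ∈ S ∧ ∃ c : Fin r → ℤ, c ≠ 0 ∧
        (∀ j, |(c j : ℝ)| ≤ Real.exp ((T : ℝ) ^ k)) ∧ ∑ j, (c j : ℝ) * V j (cst σ) = 0}.ncard : ℝ) ≤
          K * (T : ℝ) ^ ((s : ℝ) - η) := by
  classical
  obtain ⟨M, hMdef⟩ : ∃ M, M = 2 ^ (s + 5) * s * (r + 1) := ⟨_, rfl⟩
  have hM1 : 2 ≤ M := by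
    rw [hMdef]
    have h1 : 1 ≤ s * (r + 1) := Nat.mul_pos hs (Nat.succ_pos r)
    have h2 : 32 ≤ 2 ^ (s + 5) := by
      rw [pow_add]
      have : 1 ≤ 2 ^ s := Nat.one_le_two_pow
      omega
    calc 2 ≤ 32 * 1 := by norm_num
      _ ≤ 2 ^ (s + 5) * (s * (r + 1)) := Nat.mul_le_mul h2 h1
      _ = 2 ^ (s + 5) * s * (r + 1) := by ring
  have hM0 : (0 : ℝ) < (M : ℝ) := by
    have : 0 < M := by omega
    exact_mod_cast this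
  obtain ⟨b, hb⟩ : ∃ b, b = bE a r := ⟨_, rfl⟩
  obtain ⟨k, hk⟩ : ∃ k : ℝ, k = 1 / (2 * M * (b + 1)) := ⟨_, rfl⟩
  have hk0 : 0 < k := by
    rw [hk]
    positivity
  have hs1 : (1 : ℝ) ≤ s := by exact_mod_cast hs
  have hM2 : 1 / (2 * (M : ℝ)) ≤ 1 := by
    rw [div_le_one (by positivity)]
    have : (2 : ℝ) ≤ M := by exact_mod_cast hM1
    linarith
  refine ⟨k, 1 / (2 * M), hk0, by positivity, ?_⟩
  intro Ω S V hV r₁ C h0 hC hF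
  by_cases hr : r = 0
  · subst hr
    refine ⟨1, one_pos, ?_⟩
    intro T hT a₀ h₀ hh₀
    have he : {σ : Fin s → ℚ | InC a₀ h₀ σ ∧ cst σ ∈ S ∧ ∃ c : Fin 0 → ℤ, c ≠ 0 ∧
        (∀ j, |(c j : ℝ)| ≤ Real.exp ((T : ℝ) ^ k)) ∧ ∑ j, (c j : ℝ) * V j (cst σ) = 0} = ∅ := by
      ext σ
      simp only [Set.mem_ofPred_eq, Set.mem_empty_iff_false, iff_false]
      rintro ⟨-, -, c, hc, -⟩
      exact hc (Subsingleton.elim _ _)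
    rw [he]
    rw [Set.ncard_empty]
    simp only [Nat.cast_zero, one_mul]
    positivity
  have hr1 : 1 ≤ r := Nat.one_le_iff_ne_zero.2 hr
  have hMr : 2 ^ (s + 5) * s * r ≤ M := by
    rw [hMdef]
    exact Nat.mul_le_mul_left _ (Nat.le_succ r)
  obtain ⟨T₀, κ, H⟩ := claimEL hs hV h0 hC hF hMr hM1 r hr1 le_rfl
  rw [← hb] at H
  obtain ⟨R₀, hR₀, hRS, HL⟩ := BL7_large hV hM1 H
  have hkb : k * b ≤ 1 / (2 * M) := by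
    rw [hk, div_mul_eq_mul_div, one_mul, div_le_div_iff₀ (by positivity) (by positivity)]
    nlinarith
  obtain ⟨T₁, hT₁⟩ : ∃ T₁, T₁ = max T₀ 3 := ⟨_, rfl⟩
  have hT₁1 : (1 : ℝ) ≤ (T₁ : ℝ) := by
    have : 1 ≤ T₁ := by omega
    exact_mod_cast this
  obtain ⟨K₀, hK₀⟩ : ∃ K₀ : ℝ, K₀ = (2 * R₀ + 5) ^ s * κ * 3 ^ b + 1 := ⟨_, rfl⟩
  have hK₀0 : 0 < K₀ := by
    rw [hK₀]
    positivity
  -- large `T`
  have hbig : ∀ T : ℕ, T₁ ≤ T → ∀ (a₀ h₀ : Fin s → ℚ), (∀ i, 1 ≤ 2 * (T : ℚ) * h₀ i) →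
      ({σ : Fin s → ℚ | InC a₀ h₀ σ ∧ cst σ ∈ S ∧ ∃ c : Fin r → ℤ, c ≠ 0 ∧
        (∀ j, |(c j : ℝ)| ≤ Real.exp ((T : ℝ) ^ k)) ∧ ∑ j, (c j : ℝ) * V j (cst σ) = 0}.ncard : ℝ) ≤
          K₀ * (T : ℝ) ^ ((s : ℝ) - 1 / (2 * M)) := by
    intro T hTT a₀ h₀ hh₀
    have hT3 : 3 ≤ T := (le_max_right _ _).trans (hT₁ ▸ hTT)
    have hTT₀ : T₀ ≤ T := (le_max_left _ _).trans (hT₁ ▸ hTT)
    have hT : 1 ≤ T := by omega
    have hT1 : (1 : ℝ) ≤ (T : ℝ) := by exact_mod_cast hT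
    have hT0 : (0 : ℝ) < (T : ℝ) := lt_of_lt_of_le one_pos hT1
    have hP : (0 : ℝ) < (T : ℝ) ^ ((s : ℝ) - 1 / (2 * M)) := Real.rpow_pos_of_pos hT0 _
    have hlog : 1 ≤ Real.log T := by
      rw [Real.le_log_iff_exp_le hT0]
      have h1 : (3 : ℝ) ≤ T := by exact_mod_cast hT3
      linarith [Real.exp_one_lt_d9]
    obtain ⟨L, hL⟩ : ∃ L : ℕ, L = ⌈(T : ℝ) ^ k⌉₊ := ⟨_, rfl⟩
    have hTk : (1 : ℝ) ≤ (T : ℝ) ^ k := Real.one_le_rpow hT1 hk0.le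
    have hL1 : (T : ℝ) ^ k ≤ L := by
      rw [hL]
      exact Nat.le_ceil _
    have hL2 : (L : ℝ) + 1 ≤ 3 * (T : ℝ) ^ k := by
      have h1 : (L : ℝ) < (T : ℝ) ^ k + 1 := by
        rw [hL]
        exact Nat.ceil_lt_add_one (by positivity)
      linarith
    have hsub : {σ : Fin s → ℚ | InC a₀ h₀ σ ∧ cst σ ∈ S ∧ ∃ c : Fin r → ℤ, c ≠ 0 ∧
        (∀ j, |(c j : ℝ)| ≤ Real.exp ((T : ℝ) ^ k)) ∧ ∑ j, (c j : ℝ) * V j (cst σ) = 0} ⊆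
        {σ : Fin s → ℚ | InC a₀ h₀ σ ∧ cst σ ∈ S ∧ ∃ c : Fin r → ℤ, c ≠ 0 ∧ (∀ j, |c j| ≤ (T : ℤ) ^ L) ∧
        ∑ j, (c j : ℝ) * V j (cst σ) = 0} := by
      rintro σ ⟨h1, h2, c, h3, h4, h5⟩
      refine ⟨h1, h2, c, h3, fun j => ?_, h5⟩
      have h6 : Real.exp ((T : ℝ) ^ k) ≤ (T : ℝ) ^ L := by
        calc Real.exp ((T : ℝ) ^ k) ≤ Real.exp (L * Real.log T) := by
              rw [Real.exp_le_exp]
              nlinarith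
          _ = (T : ℝ) ^ L := by
              rw [Real.exp_nat_mul, Real.exp_log hT0]
      have h7 : ((|c j| : ℤ) : ℝ) ≤ (((T : ℤ) ^ L : ℤ) : ℝ) := by
        rw [Int.cast_abs]
        push_cast
        exact (h4 j).trans h6
      exact_mod_cast h7
    have hfin : {σ : Fin s → ℚ | InC a₀ h₀ σ ∧ cst σ ∈ S ∧ ∃ c : Fin r → ℤ, c ≠ 0 ∧ (∀ j, |c j| ≤ (T : ℤ) ^ L) ∧
        ∑ j, (c j : ℝ) * V j (cst σ) = 0}.Finite :=
      (finite_box (a := a₀) hh₀ R₀).subset fun σ hσ => ⟨hσ.1, fun i => hRS _ hσ.2.1 i⟩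
    have h1 := HL T hT hTT₀ a₀ h₀ hh₀ L
    have h2 : ((({σ : Fin s → ℚ | InC a₀ h₀ σ ∧ cst σ ∈ S ∧ ∃ c : Fin r → ℤ, c ≠ 0 ∧
        (∀ j, |(c j : ℝ)| ≤ Real.exp ((T : ℝ) ^ k)) ∧ ∑ j, (c j : ℝ) * V j (cst σ) = 0}).ncard : ℕ) : ℝ) ≤
        (({σ : Fin s → ℚ | InC a₀ h₀ σ ∧ cst σ ∈ S ∧ ∃ c : Fin r → ℤ, c ≠ 0 ∧ (∀ j, |c j| ≤ (T : ℤ) ^ L) ∧
        ∑ j, (c j : ℝ) * V j (cst σ) = 0}.ncard : ℕ) : ℝ) := by
      exact_mod_cast Set.ncard_le_ncard hsub hfin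
    refine h2.trans (h1.trans ?_)
    have h3 : ((L : ℝ) + 1) ^ b ≤ 3 ^ b * (T : ℝ) ^ (1 / (2 * (M : ℝ))) := by
      calc ((L : ℝ) + 1) ^ b ≤ (3 * (T : ℝ) ^ k) ^ b := pow_le_pow_left₀ (by positivity) hL2 _
        _ = 3 ^ b * (T : ℝ) ^ (k * b) := by
            rw [mul_pow, ← Real.rpow_natCast ((T : ℝ) ^ k), ← Real.rpow_mul hT0.le]
        _ ≤ 3 ^ b * (T : ℝ) ^ (1 / (2 * (M : ℝ))) :=
            mul_le_mul_of_nonneg_left (Real.rpow_le_rpow_of_exponent_le hT1 hkb) (by positivity)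
    calc (2 * R₀ + 5) ^ s * κ * ((L : ℝ) + 1) ^ b * (T : ℝ) ^ ((s : ℝ) - 1 / M)
        ≤ (2 * R₀ + 5) ^ s * κ * (3 ^ b * (T : ℝ) ^ (1 / (2 * (M : ℝ)))) * (T : ℝ) ^ ((s : ℝ) - 1 / M) := by
          refine mul_le_mul_of_nonneg_right ?_ (Real.rpow_pos_of_pos hT0 _).le
          exact mul_le_mul_of_nonneg_left h3 (by positivity)
      _ = (2 * R₀ + 5) ^ s * κ * 3 ^ b * ((T : ℝ) ^ (1 / (2 * (M : ℝ))) * (T : ℝ) ^ ((s : ℝ) - 1 / M)) := by ring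
      _ = (2 * R₀ + 5) ^ s * κ * 3 ^ b * (T : ℝ) ^ ((s : ℝ) - 1 / (2 * M)) := by
          rw [← Real.rpow_add hT0]
          congr 2
          field_simp
          ring
      _ ≤ _ := by
          refine mul_le_mul_of_nonneg_right ?_ hP.le
          rw [hK₀]
          linarith
  -- small `T`: the same translate for `T₁`
  refine ⟨K₀ * (T₁ : ℝ) ^ ((s : ℝ) - 1 / (2 * M)), mul_pos hK₀0 (Real.rpow_pos_of_pos (by linarith) _), ?_⟩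
  intro T hT a₀ h₀ hh₀
  have hT1 : (1 : ℝ) ≤ (T : ℝ) := by exact_mod_cast hT
  have hT0 : (0 : ℝ) < (T : ℝ) := lt_of_lt_of_le one_pos hT1
  have hP : (0 : ℝ) < (T : ℝ) ^ ((s : ℝ) - 1 / (2 * M)) := Real.rpow_pos_of_pos hT0 _
  have hP1 : (1 : ℝ) ≤ (T : ℝ) ^ ((s : ℝ) - 1 / (2 * M)) := Real.one_le_rpow hT1 (by linarith)
  have hP₁ : (1 : ℝ) ≤ (T₁ : ℝ) ^ ((s : ℝ) - 1 / (2 * M)) := Real.one_le_rpow hT₁1 (by linarith)
  by_cases hTT : T₁ ≤ T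
  · refine (hbig T hTT a₀ h₀ hh₀).trans (mul_le_mul_of_nonneg_right ?_ hP.le)
    exact le_mul_of_one_le_right hK₀0.le hP₁
  · have hTT' : T ≤ T₁ := (not_le.1 hTT).le
    have hTTr : (T : ℝ) ≤ (T₁ : ℝ) := by exact_mod_cast hTT'
    have hh₁ : ∀ i, 1 ≤ 2 * (T₁ : ℚ) * h₀ i := by
      intro i
      have h1 := hh₀ i
      have hTq : (1 : ℚ) ≤ (T : ℚ) := by exact_mod_cast hT
      have hTTq : (T : ℚ) ≤ (T₁ : ℚ) := by exact_mod_cast hTT'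
      have h2 : 0 < h₀ i := by
        by_contra hcon
        push Not at hcon
        nlinarith
      nlinarith
    have hsub : {σ : Fin s → ℚ | InC a₀ h₀ σ ∧ cst σ ∈ S ∧ ∃ c : Fin r → ℤ, c ≠ 0 ∧
        (∀ j, |(c j : ℝ)| ≤ Real.exp ((T : ℝ) ^ k)) ∧ ∑ j, (c j : ℝ) * V j (cst σ) = 0} ⊆
        {σ : Fin s → ℚ | InC a₀ h₀ σ ∧ cst σ ∈ S ∧ ∃ c : Fin r → ℤ, c ≠ 0 ∧
        (∀ j, |(c j : ℝ)| ≤ Real.exp ((T₁ : ℝ) ^ k)) ∧ ∑ j, (c j : ℝ) * V j (cst σ) = 0} := by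
      rintro σ ⟨h1, h2, c, h3, h4, h5⟩
      refine ⟨h1, h2, c, h3, fun j => (h4 j).trans ?_, h5⟩
      exact Real.exp_le_exp.2 (Real.rpow_le_rpow hT0.le hTTr hk0.le)
    have hfin : {σ : Fin s → ℚ | InC a₀ h₀ σ ∧ cst σ ∈ S ∧ ∃ c : Fin r → ℤ, c ≠ 0 ∧
        (∀ j, |(c j : ℝ)| ≤ Real.exp ((T₁ : ℝ) ^ k)) ∧ ∑ j, (c j : ℝ) * V j (cst σ) = 0}.Finite :=
      (finite_box (a := a₀) hh₁ R₀).subset fun σ hσ => ⟨hσ.1, fun i => hRS _ hσ.2.1 i⟩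
    have h2 : ((({σ : Fin s → ℚ | InC a₀ h₀ σ ∧ cst σ ∈ S ∧ ∃ c : Fin r → ℤ, c ≠ 0 ∧
        (∀ j, |(c j : ℝ)| ≤ Real.exp ((T : ℝ) ^ k)) ∧ ∑ j, (c j : ℝ) * V j (cst σ) = 0}).ncard : ℕ) : ℝ) ≤
        (({σ : Fin s → ℚ | InC a₀ h₀ σ ∧ cst σ ∈ S ∧ ∃ c : Fin r → ℤ, c ≠ 0 ∧
        (∀ j, |(c j : ℝ)| ≤ Real.exp ((T₁ : ℝ) ^ k)) ∧ ∑ j, (c j : ℝ) * V j (cst σ) = 0}.ncard : ℕ) : ℝ) := by
      exact_mod_cast Set.ncard_le_ncard hsub hfin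
    refine h2.trans ((hbig T₁ le_rfl a₀ h₀ hh₁).trans ?_)
    exact le_mul_of_one_le_right (mul_pos hK₀0 (lt_of_lt_of_le one_pos hP₁)).le hP1

end Pool.Agent.Lib.MP_bbe012_lc.XS
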