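import Pool.Agent.Lib.MP_bbe012_lc.PG.BDefs
import Pool.Agent.Lib.MP_bbe012_lc.PM.Vx2

/-!
# Exponential sizes, block C: definitions
-/

namespace Pool.Agent.Lib.MP_bbe012_lc.XS

open MvPolynomial Set PG PM Filter Topology
open scoped Nat

/-- Near the rational point `e` the function `f` is a combination, with coefficients in `ℚ(θ)` regular at `e`, of finitely many analytic functions `Y_b` which satisfy a system of differential equations
`∂_l Y_b = ∑ c, (Γ_lbc / δ) Y_c` with coefficients in `ℚ(θ)` regular at `e`. -/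
def DF {s : ℕ} (e : Fin s → ℚ) (f : (Fin s → ℝ) → ℝ) : Prop :=
  ∃ (ι : Type) (_ : Fintype ι) (Y : ι → (Fin s → ℝ) → ℝ) (δ : MvPolynomial (Fin s) ℚ)
    (Γ : Fin s → ι → ι → MvPolynomial (Fin s) ℚ) (R : ι → MvPolynomial (Fin s) ℚ),
    aeval (cst e) δ ≠ (0 : ℝ) ∧ (∀ b, AnalyticAt ℝ (Y b) (cst e)) ∧
      (∀ᶠ θ in 𝓝 (cst e), ∀ l b, aeval θ δ * fderiv ℝ (Y b) θ (Pi.single l 1) = ∑ c, aeval θ (Γ l b c) * Y c θ) ∧
      ∀ᶠ θ in 𝓝 (cst e), aeval θ δ * f θ = ∑ b, aeval θ (R b) * Y b θ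

/-- The value at `(θ, t)` of a polynomial in `θ, t`. -/
noncomputable def pv {s : ℕ} (P : MvPolynomial (Fin (s + 1)) ℚ) (q : (Fin s → ℝ) × ℝ) : ℝ :=
  aeval (Fin.snoc q.1 q.2 : Fin (s + 1) → ℝ) P

/-- The coefficient of `(t - M) ^ k` in the expansion of `H(θ, t)` at `t = M`. -/
noncomputable def tc {s : ℕ} (M : ℝ) (k : ℕ) (H : (Fin s → ℝ) × ℝ → ℝ) (θ : Fin s → ℝ) : ℝ :=
  iteratedDeriv k (fun t => H (θ, t)) M / (k ! : ℝ)

end Pool.Agent.Lib.MP_bbe012_lc.XS
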