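import Pool.Agent.Lib.MP_bbe012_lc.XS.C0

/-!
# LEAF XC1 (medium): Taylor coefficients in `t` of functions of `(θ, t)`

PROOF.  `tc_add`, `tc_sum`, `tc_const`: `iteratedDeriv_fun_add` (or `iteratedDeriv_lin` in `PM/Vx2.lean`) and `iteratedDeriv_const_mul_field` for the slices `t ↦ H (θ, t)`, which are analytic at `M`
(`AnalyticAt.comp` with `t ↦ (θ, t)`, as `hslice` in `exists_V`, `PM/Vx.lean`), hence `ContDiffAt`.  `tc_congr`: the slices are eventually equal near `M` (`Filter.EventuallyEq.iteratedDeriv_eq`, or induction with `EventuallyEq.deriv`).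
`tc_analytic`: `analyticAt_iteratedDeriv` (`PM/Vx2.lean`) and division by a constant.
`tc_mulT`: `iteratedDeriv_mul_sub` (`PM/Vx2.lean`) at `t = M`: `iteratedDeriv (k + 1) ((t - M) G) M = (k + 1) * iteratedDeriv k G M`, and `(k + 1)! = (k + 1) * k !`; for `k = 0` the value at `t = M` is `0`.
`tc_mulT_pow`: induction on `n` from `tc_mulT` (`(t - M) ^ (n + 1) H = (t - M) * ((t - M) ^ n H)`, the function `(t - M) ^ n H` is analytic).
`tc_fderiv`: let `D H q = fderiv ℝ H q (v, 0)`.  For `K` analytic at `p`: `dT (D K)` and `D (dT K)` are equal near `p` (`dT K q = fderiv ℝ K q (0, 1)`): at every `q` near `p` at which `K` is analytic both are the value of the second derivative (`fderiv ℝ (fderiv ℝ K) q`) at the two vectors `(v, 0)`, `(0, 1)`, which is symmetric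
(`ContDiffAt.isSymmSndFDerivAt`, or `second_derivative_symmetric_of_eventually`; `fderiv` of `q ↦ fderiv ℝ K q w` is `fderiv_clm_apply` or the composition with `ContinuousLinearMap.apply`).  By induction on `k`: `dT^[k] (D H)` and `D (dT^[k] H)` are equal near `(θ, M)` (`dT` of eventually equal functions are eventually equal:
`EventuallyEq.fderiv`).  Near `θ` the function `θ' ↦ iteratedDeriv k (fun t => H (θ', t)) M` is `θ' ↦ dT^[k] H (θ', M)` (`iteratedDeriv_slice`, as in the proof of `analyticAt_iteratedDeriv`); its derivative at `θ` in the direction `v` is `fderiv ℝ (dT^[k] H) (θ, M) (v, 0)` (chain rule for `θ' ↦ (θ', M)`), which is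
`dT^[k] (D H) (θ, M)`, and this is `iteratedDeriv k (fun t => D H (θ, t)) M` (`iteratedDeriv_slice` for `D H`, analytic by `AnalyticAt.fderiv`).
-/

namespace Pool.Agent.Lib.MP_bbe012_lc.XS

open MvPolynomial Set PG PM Filter Topology
open scoped Nat

private theorem c1_slice {s : ℕ} {M : ℝ} {H : (Fin s → ℝ) × ℝ → ℝ} {θ : Fin s → ℝ} (hH : AnalyticAt ℝ H (θ, M)) :
    AnalyticAt ℝ (fun t : ℝ => H (θ, t)) M :=
  AnalyticAt.comp (g := H) (f := fun t : ℝ => (θ, t)) (x := M) hH (analyticAt_const.prod analyticAt_id)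

private theorem c1_tend {s : ℕ} (M : ℝ) (θ : Fin s → ℝ) : Tendsto (fun t : ℝ => (θ, t)) (𝓝 M) (𝓝 (θ, M)) :=
  (continuous_const.prodMk continuous_id).tendsto M

private theorem c1_tend' {s : ℕ} (M : ℝ) (θ : Fin s → ℝ) :
    Tendsto (fun θ' : Fin s → ℝ => (θ', M)) (𝓝 θ) (𝓝 (θ, M)) :=
  (continuous_id.prodMk continuous_const).tendsto θ

private theorem c1_cd {G : ℝ → ℝ} {M : ℝ} (hG : AnalyticAt ℝ G M) (k : ℕ) : ContDiffAt ℝ k G M :=
  contDiffAt_of_analyticAt hG k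

private theorem c1_an {s : ℕ} {M : ℝ} (n : ℕ) {H : (Fin s → ℝ) × ℝ → ℝ} {θ : Fin s → ℝ}
    (hH : AnalyticAt ℝ H (θ, M)) : AnalyticAt ℝ (fun q : (Fin s → ℝ) × ℝ => (q.2 - M) ^ n * H q) (θ, M) :=
  ((analyticAt_snd.sub analyticAt_const).pow n).mul hH

private theorem c1_snd {E : Type*} [NormedAddCommGroup E] [NormedSpace ℝ E] {K : E → ℝ} {q : E}
    (hK : AnalyticAt ℝ K q) (u w : E) :
    fderiv ℝ (fun q' => fderiv ℝ K q' w) q u = fderiv ℝ (fun q' => fderiv ℝ K q' u) q w := by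
  have h1 : ∀ u w : E, fderiv ℝ (fun q' => fderiv ℝ K q' w) q u = fderiv ℝ (fderiv ℝ K) q u w := by
    intro u w
    have hd : DifferentiableAt ℝ (fderiv ℝ K) q := hK.fderiv.differentiableAt
    have h2 := hd.hasFDerivAt.clm_apply (hasFDerivAt_const w q)
    rw [h2.fderiv]
    simp
  rw [h1, h1]
  have h2 : IsSymmSndFDerivAt ℝ K q := (hK.contDiffAt (n := 2)).isSymmSndFDerivAt (by simp)
  exact h2 u w

private theorem c1_comm {s : ℕ} {p : (Fin s → ℝ) × ℝ} {H : (Fin s → ℝ) × ℝ → ℝ} (hH : AnalyticAt ℝ H p)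
    (v : Fin s → ℝ) (k : ℕ) :
    dT^[k] (fun q => fderiv ℝ H q (v, 0)) =ᶠ[𝓝 p] fun q => fderiv ℝ (dT^[k] H) q (v, 0) := by
  induction k with
  | zero => exact EventuallyEq.rfl
  | succ k ih =>
    rw [Function.iterate_succ_apply', Function.iterate_succ_apply']
    have h1 := ih.fderiv (𝕜 := ℝ)
    filter_upwards [h1, (analyticAt_iter hH k).eventually_analyticAt] with q hq1 hq2
    show fderiv ℝ (dT^[k] (fun q => fderiv ℝ H q (v, 0))) q (0, 1) =
      fderiv ℝ (fun q' => fderiv ℝ (dT^[k] H) q' (0, 1)) q (v, 0)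
    rw [hq1]
    exact c1_snd hq2 _ _

theorem tc_congr {s : ℕ} {M : ℝ} (k : ℕ) {H H' : (Fin s → ℝ) × ℝ → ℝ} {θ : Fin s → ℝ} (h : H =ᶠ[𝓝 (θ, M)] H') :
    tc M k H θ = tc M k H' θ := by
  have h1 : (fun t : ℝ => H (θ, t)) =ᶠ[𝓝 M] fun t : ℝ => H' (θ, t) := (c1_tend M θ).eventually h
  show iteratedDeriv k (fun t => H (θ, t)) M / (k ! : ℝ) = iteratedDeriv k (fun t => H' (θ, t)) M / (k ! : ℝ)
  rw [h1.iteratedDeriv_eq k]

theorem tc_analytic {s : ℕ} {M : ℝ} (k : ℕ) {H : (Fin s → ℝ) × ℝ → ℝ} {θ : Fin s → ℝ} (hH : AnalyticAt ℝ H (θ, M)) :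
    AnalyticAt ℝ (tc M k H) θ := by
  have hfac : (k ! : ℝ) ≠ 0 := by exact_mod_cast Nat.factorial_ne_zero k
  exact (analyticAt_iteratedDeriv hH k).div analyticAt_const hfac

theorem tc_sum {s : ℕ} {ι : Type} [Fintype ι] {M : ℝ} (k : ℕ) {H : ι → (Fin s → ℝ) × ℝ → ℝ} {θ : Fin s → ℝ}
    (hH : ∀ i, AnalyticAt ℝ (H i) (θ, M)) : tc M k (fun q => ∑ i, H i q) θ = ∑ i, tc M k (H i) θ := by
  show iteratedDeriv k (fun t => ∑ i, H i (θ, t)) M / (k ! : ℝ) =
    ∑ i, iteratedDeriv k (fun t => H i (θ, t)) M / (k ! : ℝ)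
  rw [iteratedDeriv_fun_sum (fun i _ => c1_cd (c1_slice (hH i)) k), Finset.sum_div]

theorem tc_add {s : ℕ} {M : ℝ} (k : ℕ) {H H' : (Fin s → ℝ) × ℝ → ℝ} {θ : Fin s → ℝ} (hH : AnalyticAt ℝ H (θ, M))
    (hH' : AnalyticAt ℝ H' (θ, M)) : tc M k (fun q => H q + H' q) θ = tc M k H θ + tc M k H' θ := by
  show iteratedDeriv k (fun t => H (θ, t) + H' (θ, t)) M / (k ! : ℝ) =
    iteratedDeriv k (fun t => H (θ, t)) M / (k ! : ℝ) + iteratedDeriv k (fun t => H' (θ, t)) M / (k ! : ℝ)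
  rw [iteratedDeriv_fun_add (c1_cd (c1_slice hH) k) (c1_cd (c1_slice hH') k), add_div]

/-- A factor which depends on `θ` only. -/
theorem tc_const {s : ℕ} {M : ℝ} (k : ℕ) {H : (Fin s → ℝ) × ℝ → ℝ} {θ : Fin s → ℝ} (hH : AnalyticAt ℝ H (θ, M))
    (g : (Fin s → ℝ) → ℝ) : tc M k (fun q => g q.1 * H q) θ = g θ * tc M k H θ := by
  show iteratedDeriv k (fun t => g θ * H (θ, t)) M / (k ! : ℝ) = g θ * (iteratedDeriv k (fun t => H (θ, t)) M / (k ! : ℝ))
  rw [iteratedDeriv_const_mul_field (g θ) (fun t => H (θ, t)), mul_div_assoc]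

theorem tc_mulT {s : ℕ} {M : ℝ} {H : (Fin s → ℝ) × ℝ → ℝ} {θ : Fin s → ℝ} (hH : AnalyticAt ℝ H (θ, M)) :
    tc M 0 (fun q => (q.2 - M) * H q) θ = 0 ∧
      ∀ k, tc M (k + 1) (fun q => (q.2 - M) * H q) θ = tc M k H θ := by
  constructor
  · show iteratedDeriv 0 (fun t => (t - M) * H (θ, t)) M / (0 ! : ℝ) = 0
    rw [iteratedDeriv_zero, sub_self, zero_mul, zero_div]
  · intro k
    show iteratedDeriv (k + 1) (fun t => (t - M) * H (θ, t)) M / ((k + 1) ! : ℝ) =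
      iteratedDeriv k (fun t => H (θ, t)) M / (k ! : ℝ)
    rw [(iteratedDeriv_mul_sub (c1_slice hH) k).eq_of_nhds, sub_self, zero_mul, zero_add, Nat.factorial_succ]
    have h1 : (k ! : ℝ) ≠ 0 := by exact_mod_cast Nat.factorial_ne_zero k
    have h2 : ((k : ℝ) + 1) ≠ 0 := by positivity
    push_cast
    rw [mul_div_mul_left _ _ h2]

theorem tc_mulT_pow {s : ℕ} {M : ℝ} (n : ℕ) {H : (Fin s → ℝ) × ℝ → ℝ} {θ : Fin s → ℝ} (hH : AnalyticAt ℝ H (θ, M))
    (k : ℕ) (hk : k < n) : tc M k (fun q => (q.2 - M) ^ n * H q) θ = 0 := by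
  induction n generalizing k with
  | zero => exact absurd hk (Nat.not_lt_zero k)
  | succ n ih =>
    have h1 : (fun q : (Fin s → ℝ) × ℝ => (q.2 - M) ^ (n + 1) * H q) =
        fun q => (q.2 - M) * ((q.2 - M) ^ n * H q) := by
      funext q
      rw [pow_succ']
      ring
    have h2 := tc_mulT (c1_an n hH)
    rw [h1]
    cases k with
    | zero => exact h2.1
    | succ k =>
      rw [h2.2 k]
      exact ih k (by omega)

/-- The Taylor coefficients of a derivative in a direction of `θ`. -/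
theorem tc_fderiv {s : ℕ} {M : ℝ} (k : ℕ) {H : (Fin s → ℝ) × ℝ → ℝ} {θ : Fin s → ℝ} (hH : AnalyticAt ℝ H (θ, M))
    (v : Fin s → ℝ) : fderiv ℝ (tc M k H) θ v = tc M k (fun q => fderiv ℝ H q (v, 0)) θ := by
  have h1 : tc M k H =ᶠ[𝓝 θ] fun θ' => dT^[k] H (θ', M) / (k ! : ℝ) := by
    filter_upwards [(c1_tend' M θ).eventually hH.eventually_analyticAt] with θ' hθ'
    show iteratedDeriv k (fun t => H (θ', t)) M / (k ! : ℝ) = dT^[k] H (θ', M) / (k ! : ℝ)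
    rw [(iteratedDeriv_slice hθ' k).eq_of_nhds]
  rw [h1.fderiv_eq]
  have h2 : HasFDerivAt (dT^[k] H) (fderiv ℝ (dT^[k] H) (θ, M)) (θ, M) :=
    (analyticAt_iter hH k).differentiableAt.hasFDerivAt
  have h3 : HasFDerivAt (fun θ' : Fin s → ℝ => (θ', M))
      ((ContinuousLinearMap.id ℝ (Fin s → ℝ)).prod (0 : (Fin s → ℝ) →L[ℝ] ℝ)) θ :=
    (hasFDerivAt_id θ).prodMk (hasFDerivAt_const M θ)
  have h4 := (h2.comp θ h3).mul_const ((k ! : ℝ)⁻¹)
  have h5 : fderiv ℝ (fun θ' => dT^[k] H (θ', M) / (k ! : ℝ)) θ v =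
      fderiv ℝ (dT^[k] H) (θ, M) (v, 0) / (k ! : ℝ) := by
    have h6 := congrArg (fun L : (Fin s → ℝ) →L[ℝ] ℝ => L v) h4.fderiv
    have h7 : (fun θ' => dT^[k] H (θ', M) / (k ! : ℝ)) =
        fun θ' => (dT^[k] H ∘ fun θ' : Fin s → ℝ => (θ', M)) θ' * (k ! : ℝ)⁻¹ := by
      funext θ'
      rw [div_eq_mul_inv]
      rfl
    rw [h7]
    refine h6.trans ?_
    simp [div_eq_mul_inv, mul_comm]
  rw [h5]
  have hD : AnalyticAt ℝ (fun q => fderiv ℝ H q ((v, 0) : (Fin s → ℝ) × ℝ)) (θ, M) :=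
    (ContinuousLinearMap.analyticAt (ContinuousLinearMap.apply ℝ ℝ ((v, 0) : (Fin s → ℝ) × ℝ)) _).comp hH.fderiv
  show _ = iteratedDeriv k (fun t => fderiv ℝ H (θ, t) (v, 0)) M / (k ! : ℝ)
  have h7 := (iteratedDeriv_slice hD k).eq_of_nhds
  have h8 := (c1_comm hH v k).eq_of_nhds
  rw [h7, h8]

end Pool.Agent.Lib.MP_bbe012_lc.XS
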