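import Pool.Agent.Lib.MP_bbe012_lc.XS.C1
import Pool.Agent.Lib.MP_bbe012_lc.PM.Vx1
import Pool.Agent.Lib.MP_bbe012_lc.PM.Vx4

/-!
# LEAF XC2 (medium-): Taylor coefficients of products with polynomials; inversion of a polynomial modulo `(t - M) ^ (ν + 1)`

PROOF.  `tc_poly`: induction on `P` (`MvPolynomial.induction_on`), `k` fixed.  `P = C a`: `p i = if i = k then C a else 0`, `tc_const`.  Sums: `p + p'`, `tc_add`.  `P * X (castSucc j)`: apply the induction hypothesis to `q ↦ q.1 j * H q`, analytic, `tc_const` with `g = fun θ => θ j`: `p i * X j`.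
`P * X (last s)`: apply the induction hypothesis to `q ↦ q.2 * H q = (q.2 - M) * H q + M * H q`: `tc M i (q.2 * H) = (if i = 0 then 0 else tc M (i - 1) H) + M * tc M i H` (`tc_mulT`, `tc_add`, `tc_const`), so `p' i = (if i < k then p (i + 1) else 0) + C M * p i` (reindex the sum, `Fin.sum_univ_succ` and `Fin.sum_univ_castSucc`).
Here `pv (P * X j) q = pv P q * q.1 j` or `pv P q * q.2` (`aeval_X`, `Fin.snoc_castSucc`, `Fin.snoc_last`).
`pv_analytic`: `analyticAt_poly` (`PM/Vx4.lean`).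
`poly_inv`: `d₀ = rename Fin.castSucc (spt M δ)`; `δ = d₀ + tM s M * d₁` (`dvd_sub_spt`, `PM/Vx1.lean`); `sub_dvd_pow_sub_pow d₀ (- (tM s M * d₁)) (ν + 1)`: `δ = d₀ - (- (tM s M * d₁))` divides `d₀ ^ (ν + 1) - (- (tM s M * d₁)) ^ (ν + 1)`, so `δ * g = d₀ ^ (ν + 1) + tM s M ^ (ν + 1) * g'` with `g' = - (- d₁) ^ (ν + 1)`.
`tc_inv`: by `poly_inv` evaluated at `q` (`aeval_spt`, `aeval_tM` in `PM/Vx1.lean`; `pv (rename Fin.castSucc f) q = aeval q.1 f`): `pv g q * (pv δ q * H q) = (aeval q.1 (spt M δ)) ^ (ν + 1) * H q + (q.2 - M) ^ (ν + 1) * (pv g' q * H q)`; take `tc M k`: `tc_add`, `tc_const`, and the second term is `0` by `tc_mulT_pow` (`k < ν + 1`).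
-/

namespace Pool.Agent.Lib.MP_bbe012_lc.XS

open MvPolynomial Set PG PM Filter Topology
open scoped Nat

theorem pv_analytic {s : ℕ} (P : MvPolynomial (Fin (s + 1)) ℚ) (q : (Fin s → ℝ) × ℝ) : AnalyticAt ℝ (pv P) q := by
  exact analyticAt_poly P q

private theorem XC2_coord {s : ℕ} (j : Fin s) (q : (Fin s → ℝ) × ℝ) :
    AnalyticAt ℝ (fun q : (Fin s → ℝ) × ℝ => q.1 j) q :=
  ((ContinuousLinearMap.proj j : (Fin s → ℝ) →L[ℝ] ℝ).comp
    (ContinuousLinearMap.fst ℝ (Fin s → ℝ) ℝ)).analyticAt q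

private theorem XC2_mulT {s : ℕ} (M : ℕ) {H : (Fin s → ℝ) × ℝ → ℝ} {θ : Fin s → ℝ}
    (hH : AnalyticAt ℝ H (θ, (M : ℝ))) :
    tc (M : ℝ) 0 (fun q => q.2 * H q) θ = M * tc (M : ℝ) 0 H θ ∧
      ∀ k, tc (M : ℝ) (k + 1) (fun q => q.2 * H q) θ = tc (M : ℝ) k H θ + M * tc (M : ℝ) (k + 1) H θ := by
  have h1 : (fun q : (Fin s → ℝ) × ℝ => q.2 * H q) = fun q => (q.2 - M) * H q + (M : ℝ) * H q := by
    funext q
    ring
  have h2 : AnalyticAt ℝ (fun q : (Fin s → ℝ) × ℝ => (q.2 - M) * H q) (θ, (M : ℝ)) :=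
    (analyticAt_snd.sub analyticAt_const).mul hH
  have h3 : AnalyticAt ℝ (fun q : (Fin s → ℝ) × ℝ => (M : ℝ) * H q) (θ, (M : ℝ)) := analyticAt_const.mul hH
  have h4 := tc_mulT hH
  have h5 : ∀ k, tc (M : ℝ) k (fun q => (M : ℝ) * H q) θ = M * tc (M : ℝ) k H θ := fun k =>
    tc_const k hH fun _ => (M : ℝ)
  rw [h1]
  refine ⟨?_, fun k => ?_⟩
  · rw [tc_add 0 h2 h3, h4.1, zero_add, h5]
  · rw [tc_add (k + 1) h2 h3, h4.2, h5]

theorem tc_poly {s : ℕ} (M k : ℕ) (P : MvPolynomial (Fin (s + 1)) ℚ) :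
    ∃ p : Fin (k + 1) → MvPolynomial (Fin s) ℚ, ∀ (θ : Fin s → ℝ) (H : (Fin s → ℝ) × ℝ → ℝ),
      AnalyticAt ℝ H (θ, (M : ℝ)) → tc (M : ℝ) k (fun q => pv P q * H q) θ = ∑ i, aeval θ (p i) * tc (M : ℝ) i H θ := by
  induction P using MvPolynomial.induction_on with
  | C a =>
    refine ⟨fun i => if i = Fin.last k then C a else 0, fun θ H hH => ?_⟩
    have h1 : (fun q : (Fin s → ℝ) × ℝ => pv (C a) q * H q) = fun q => (a : ℝ) * H q := by
      funext q
      unfold pv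
      rw [aeval_C]
      rfl
    have h2 : tc (M : ℝ) k (fun q => (a : ℝ) * H q) θ = a * tc (M : ℝ) k H θ := tc_const k hH fun _ => (a : ℝ)
    rw [h1, h2, Finset.sum_eq_single (Fin.last k)]
    · simp only [if_true]
      rw [aeval_C]
      rfl
    · intro i _ hi
      simp only [if_neg hi, map_zero, zero_mul]
    · intro h
      exact absurd (Finset.mem_univ _) h
  | add P Q hP hQ =>
    obtain ⟨p, hp⟩ := hP
    obtain ⟨p', hp'⟩ := hQ
    refine ⟨fun i => p i + p' i, fun θ H hH => ?_⟩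
    have h1 : (fun q : (Fin s → ℝ) × ℝ => pv (P + Q) q * H q) = fun q => pv P q * H q + pv Q q * H q := by
      funext q
      unfold pv
      rw [map_add, add_mul]
    rw [h1, tc_add (H := fun q => pv P q * H q) (H' := fun q => pv Q q * H q) k ((pv_analytic P _).mul hH)
      ((pv_analytic Q _).mul hH), hp θ H hH, hp' θ H hH, ← Finset.sum_add_distrib]
    refine Finset.sum_congr rfl fun i _ => ?_
    rw [map_add, add_mul]
  | mul_X P j hP =>
    obtain ⟨p, hp⟩ := hP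
    refine Fin.lastCases ?_ (fun j => ?_) j
    · refine ⟨fun i => C (M : ℚ) * p i + (if h : i.val + 1 < k + 1 then p ⟨i.val + 1, h⟩ else 0),
        fun θ H hH => ?_⟩
      have h1 : (fun q : (Fin s → ℝ) × ℝ => pv (P * X (Fin.last s)) q * H q) = fun q => pv P q * (q.2 * H q) := by
        funext q
        unfold pv
        rw [map_mul, aeval_X, Fin.snoc_last, mul_assoc]
      rw [h1, hp θ (fun q => q.2 * H q) (analyticAt_snd.mul hH)]
      have h2 := XC2_mulT M hH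
      have h3 : ∀ i : Fin (k + 1), aeval θ (C (M : ℚ) * p i + (if h : i.val + 1 < k + 1 then p ⟨i.val + 1, h⟩ else 0)) *
          tc (M : ℝ) i H θ = (M : ℝ) * aeval θ (p i) * tc (M : ℝ) i H θ +
            aeval θ (if h : i.val + 1 < k + 1 then p ⟨i.val + 1, h⟩ else 0) * tc (M : ℝ) i H θ := by
        intro i
        rw [map_add, add_mul, map_mul, aeval_C]
        rw [eq_ratCast, Rat.cast_natCast]
      rw [Finset.sum_congr rfl fun i _ => h3 i, Finset.sum_add_distrib,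
        Fin.sum_univ_succ fun i : Fin (k + 1) => aeval θ (p i) * tc (M : ℝ) i (fun q => q.2 * H q) θ,
        Fin.sum_univ_succ fun i : Fin (k + 1) => (M : ℝ) * aeval θ (p i) * tc (M : ℝ) i H θ,
        Fin.sum_univ_castSucc fun i : Fin (k + 1) =>
          aeval θ (if h : i.val + 1 < k + 1 then p ⟨i.val + 1, h⟩ else 0) * tc (M : ℝ) i H θ]
      have h4 : aeval θ (if h : (Fin.last k).val + 1 < k + 1 then p ⟨(Fin.last k).val + 1, h⟩ else 0) = (0 : ℝ) := by
        rw [dif_neg (by rw [Fin.val_last]; omega), map_zero]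
      rw [h4, zero_mul, add_zero]
      have h5 : ∀ i : Fin k, aeval θ (p i.succ) * tc (M : ℝ) (i.succ : Fin (k + 1)) (fun q => q.2 * H q) θ =
          (M : ℝ) * aeval θ (p i.succ) * tc (M : ℝ) (i.succ : Fin (k + 1)) H θ +
            aeval θ (if h : i.castSucc.val + 1 < k + 1 then p ⟨i.castSucc.val + 1, h⟩ else 0) *
              tc (M : ℝ) (i.castSucc : Fin (k + 1)) H θ := by
        intro i
        rw [dif_pos (by rw [Fin.val_castSucc]; omega)]
        have h6 : (⟨i.castSucc.val + 1, by rw [Fin.val_castSucc]; omega⟩ : Fin (k + 1)) = i.succ := rfl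
        rw [h6, Fin.val_succ, h2.2, Fin.val_castSucc]
        ring
      rw [Finset.sum_congr rfl fun i _ => h5 i, Finset.sum_add_distrib, Fin.val_zero, h2.1]
      ring
    · refine ⟨fun i => p i * X j, fun θ H hH => ?_⟩
      have h1 : (fun q : (Fin s → ℝ) × ℝ => pv (P * X (Fin.castSucc j)) q * H q) = fun q => pv P q * (q.1 j * H q) := by
        funext q
        unfold pv
        rw [map_mul, aeval_X, Fin.snoc_castSucc, mul_assoc]
      rw [h1, hp θ (fun q => q.1 j * H q) ((XC2_coord j _).mul hH)]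
      refine Finset.sum_congr rfl fun i _ => ?_
      have h2 : tc (M : ℝ) i (fun q => q.1 j * H q) θ = θ j * tc (M : ℝ) i H θ := tc_const (i : ℕ) hH fun θ => θ j
      rw [h2, map_mul, aeval_X, mul_assoc]

theorem poly_inv {s : ℕ} (M ν : ℕ) (δ : MvPolynomial (Fin (s + 1)) ℚ) :
    ∃ g g' : MvPolynomial (Fin (s + 1)) ℚ,
      g * δ = rename Fin.castSucc (spt M δ) ^ (ν + 1) + tM s M ^ (ν + 1) * g' := by
  obtain ⟨d, hd⟩ := dvd_sub_spt M δ
  obtain ⟨g, hg⟩ := sub_dvd_pow_sub_pow (rename Fin.castSucc (spt M δ)) (tM s M * -d) (ν + 1)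
  refine ⟨g, -((-d) ^ (ν + 1)), ?_⟩
  have h1 : rename Fin.castSucc (spt M δ) - tM s M * -d = δ := by
    rw [mul_neg, sub_neg_eq_add, ← hd]
    ring
  rw [h1, mul_pow] at hg
  rw [mul_comm g δ, ← hg]
  ring

private theorem XC2_ren {s : ℕ} (f : MvPolynomial (Fin s) ℚ) (q : (Fin s → ℝ) × ℝ) :
    pv (rename Fin.castSucc f) q = aeval q.1 f := by
  unfold pv
  rw [aeval_rename]
  congr 1
  congr 1
  funext i
  exact Fin.snoc_castSucc _ _ _

theorem tc_inv {s : ℕ} (M ν : ℕ) (δ : MvPolynomial (Fin (s + 1)) ℚ) :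
    ∃ g : MvPolynomial (Fin (s + 1)) ℚ, ∀ k ≤ ν, ∀ (θ : Fin s → ℝ) (H : (Fin s → ℝ) × ℝ → ℝ),
      AnalyticAt ℝ H (θ, (M : ℝ)) →
      tc (M : ℝ) k (fun q => pv g q * (pv δ q * H q)) θ = aeval θ (spt M δ ^ (ν + 1)) * tc (M : ℝ) k H θ := by
  obtain ⟨g, g', hg⟩ := poly_inv M ν δ
  refine ⟨g, fun k hk θ H hH => ?_⟩
  have h1 : (fun q : (Fin s → ℝ) × ℝ => pv g q * (pv δ q * H q)) =
      fun q => (aeval q.1 (spt M δ ^ (ν + 1)) : ℝ) * H q +
        (q.2 - (M : ℝ)) ^ (ν + 1) * (pv g' q * H q) := by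
    funext q
    have h2 : pv g q * pv δ q = aeval q.1 (spt M δ ^ (ν + 1)) + (q.2 - (M : ℝ)) ^ (ν + 1) * pv g' q := by
      have h3 : pv g q * pv δ q = pv (g * δ) q := by
        unfold pv
        rw [map_mul]
      have h4 : pv (rename Fin.castSucc (spt M δ) ^ (ν + 1) + tM s M ^ (ν + 1) * g') q =
          pv (rename Fin.castSucc (spt M δ)) q ^ (ν + 1) + (q.2 - (M : ℝ)) ^ (ν + 1) * pv g' q := by
        unfold pv
        rw [map_add, map_mul, map_pow, map_pow, aeval_tM]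
      rw [h3, hg, h4, XC2_ren, map_pow]
    show pv g q * (pv δ q * H q) = aeval q.1 (spt M δ ^ (ν + 1)) * H q + (q.2 - (M : ℝ)) ^ (ν + 1) * (pv g' q * H q)
    rw [← mul_assoc, h2]
    ring
  have h5 : AnalyticAt ℝ (fun q : (Fin s → ℝ) × ℝ => (aeval q.1 (spt M δ ^ (ν + 1)) : ℝ) * H q)
      (θ, (M : ℝ)) := by
    refine AnalyticAt.mul ?_ hH
    have h6 : (fun q : (Fin s → ℝ) × ℝ => (aeval q.1 (spt M δ ^ (ν + 1)) : ℝ)) =
        pv (rename Fin.castSucc (spt M δ ^ (ν + 1))) := by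
      funext q
      exact (XC2_ren _ q).symm
    rw [h6]
    exact pv_analytic _ _
  have h7 : AnalyticAt ℝ (fun q : (Fin s → ℝ) × ℝ => pv g' q * H q) (θ, (M : ℝ)) := (pv_analytic g' _).mul hH
  have h8 : AnalyticAt ℝ (fun q : (Fin s → ℝ) × ℝ => (q.2 - (M : ℝ)) ^ (ν + 1) * (pv g' q * H q)) (θ, (M : ℝ)) :=
    ((analyticAt_snd.sub analyticAt_const).pow _).mul h7
  have h9 : tc (M : ℝ) k (fun q => (aeval q.1 (spt M δ ^ (ν + 1)) : ℝ) * H q) θ =
      aeval θ (spt M δ ^ (ν + 1)) * tc (M : ℝ) k H θ := tc_const k hH fun θ => (aeval θ (spt M δ ^ (ν + 1)) : ℝ)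
  rw [h1, tc_add k h5 h8, tc_mulT_pow (ν + 1) h7 k (Nat.lt_succ_of_le hk), add_zero, h9]

end Pool.Agent.Lib.MP_bbe012_lc.XS
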