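import Pool.Agent.Lib.MP_bbe012_lc.XS.C2

/-!
# LEAF XC3 (medium): the Taylor coefficients in `t` at `t = M` of a solution of a system with parameters

PROOF.  `g` from `tc_inv M ν δ`.  For `l, b, b'` and `k ≤ ν` `tc_poly M k (g * c l b b')` gives `p k l b b' : Fin (k + 1) → ..`; `tc_poly M ν (g * w b)` gives `p' b`.  Take `ι = Fin m × Fin (ν + 1)`, `Y (b, k) = tc M k (F b)` (analytic at `cst e`: `tc_analytic`), the denominator `spt M δ ^ (ν + 1)` (its value at `cst e` is not zero: `aeval_spt`, `hδ`),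
`Γ l (b, k) (b', i) = if h : i ≤ k then p k l b b' ⟨i, _⟩ else 0`, `R (b, i) = p' b i`.
All hypotheses hold at all points `(θ, M)` with `θ` near `cst e`: `Filter.Eventually.eventually_nhds` (and `AnalyticAt.eventually_analyticAt`) and the continuity of `θ ↦ (θ, M)` at `cst e`.  For such a `θ`: by `tc_fderiv` `fderiv ℝ (tc M k (F b)) θ (Pi.single l 1) = tc M k (D F b) θ` with `D F b q = fderiv ℝ (F b) q (Pi.single l 1, 0)`, analytic at `(θ, M)`;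
`aeval θ (spt M δ ^ (ν + 1)) * tc M k (D F b) θ = tc M k (pv g * (pv δ * D F b)) θ` (`tc_inv`) `= tc M k (fun q => ∑ b', pv (g * c l b b') q * F b' q) θ` (`tc_congr`, `hd`) `= ∑ b', ∑ i, aeval θ (p k l b b' i) * tc M i (F b') θ` (`tc_sum`, `tc_poly`); rewrite the double sum as a sum over `Fin m × Fin (ν + 1)` (`Fintype.sum_prod_type`;
the terms with `i > k` are `0`: `Fin.sum_univ_eq_sum_range`-like, or `Finset.sum_fiberwise`, or extend `p` by zero to a function `ℕ → ..` and use `Finset.sum_range`).  Similarly `aeval θ (spt M δ ^ (ν + 1)) * tc M ν H θ = ∑ b, ∑ i, aeval θ (p' b i) * tc M i (F b) θ` with `hw`; `tc M ν H θ` is by definition the function in the statement.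
-/

namespace Pool.Agent.Lib.MP_bbe012_lc.XS

open MvPolynomial Set PG PM Filter Topology
open scoped Nat

/-- The coefficients of a product with a polynomial, with a common range for the indices. -/
private theorem XC3_poly {s : ℕ} (M ν : ℕ) (k : ℕ) (hk : k ≤ ν) (P : MvPolynomial (Fin (s + 1)) ℚ) :
    ∃ p : Fin (ν + 1) → MvPolynomial (Fin s) ℚ, ∀ (θ : Fin s → ℝ) (H : (Fin s → ℝ) × ℝ → ℝ),
      AnalyticAt ℝ H (θ, (M : ℝ)) →
        tc (M : ℝ) k (fun q => pv P q * H q) θ = ∑ i, aeval θ (p i) * tc (M : ℝ) i H θ := by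
  obtain ⟨p, hp⟩ := tc_poly M k P
  refine ⟨fun i => if h : (i : ℕ) < k + 1 then p ⟨i, h⟩ else 0, fun θ H hH => ?_⟩
  rw [hp θ H hH]
  have e1 : ∑ i : Fin (k + 1), aeval θ (p i) * tc (M : ℝ) i H θ =
      ∑ i ∈ Finset.range (k + 1), (if h : i < k + 1 then aeval θ (p ⟨i, h⟩) * tc (M : ℝ) i H θ else 0) := by
    rw [Finset.sum_range]
    refine Finset.sum_congr rfl fun i _ => ?_
    rw [dif_pos i.2]
  have e2 : ∑ i : Fin (ν + 1), aeval θ (if h : (i : ℕ) < k + 1 then p ⟨i, h⟩ else 0) * tc (M : ℝ) i H θ =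
      ∑ i ∈ Finset.range (ν + 1), (if h : i < k + 1 then aeval θ (p ⟨i, h⟩) * tc (M : ℝ) i H θ else 0) := by
    rw [Finset.sum_range]
    refine Finset.sum_congr rfl fun i _ => ?_
    by_cases h : (i : ℕ) < k + 1
    · rw [dif_pos h, dif_pos h]
    · rw [dif_neg h, dif_neg h, map_zero, zero_mul]
  rw [e1, e2]
  refine Finset.sum_subset (Finset.range_subset_range.2 (by omega)) fun i _ hi => ?_
  rw [Finset.mem_range] at hi
  rw [dif_neg hi]

/-- The value of a product of polynomials. -/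
private theorem XC3_pv_mul {s : ℕ} (P Q : MvPolynomial (Fin (s + 1)) ℚ) (q : (Fin s → ℝ) × ℝ) :
    pv (P * Q) q = pv P q * pv Q q := by
  unfold pv
  rw [map_mul]

/-- One relation. -/
private theorem XC3_rel {s m : ℕ} (M ν k : ℕ) {δ g : MvPolynomial (Fin (s + 1)) ℚ}
    {F : Fin m → (Fin s → ℝ) × ℝ → ℝ} {D : (Fin s → ℝ) × ℝ → ℝ} {θ : Fin s → ℝ}
    (hg : ∀ (H : (Fin s → ℝ) × ℝ → ℝ), AnalyticAt ℝ H (θ, (M : ℝ)) →
      tc (M : ℝ) k (fun q => pv g q * (pv δ q * H q)) θ = aeval θ (spt M δ ^ (ν + 1)) * tc (M : ℝ) k H θ)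
    (hF : ∀ b, AnalyticAt ℝ (F b) (θ, (M : ℝ))) (hD : AnalyticAt ℝ D (θ, (M : ℝ)))
    (w : Fin m → MvPolynomial (Fin (s + 1)) ℚ)
    (hw : ∀ᶠ q in 𝓝 (θ, (M : ℝ)), pv δ q * D q = ∑ b, pv (w b) q * F b q)
    (p : Fin m → Fin (ν + 1) → MvPolynomial (Fin s) ℚ)
    (hp : ∀ b, ∀ (H : (Fin s → ℝ) × ℝ → ℝ), AnalyticAt ℝ H (θ, (M : ℝ)) →
      tc (M : ℝ) k (fun q => pv (g * w b) q * H q) θ = ∑ i, aeval θ (p b i) * tc (M : ℝ) i H θ) :
    aeval θ (spt M δ ^ (ν + 1)) * tc (M : ℝ) k D θ =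
      ∑ bi : Fin m × Fin (ν + 1), aeval θ (p bi.1 bi.2) * tc (M : ℝ) bi.2 (F bi.1) θ := by
  have h1 : tc (M : ℝ) k (fun q => pv g q * (pv δ q * D q)) θ =
      tc (M : ℝ) k (fun q => ∑ b, pv (g * w b) q * F b q) θ := by
    refine tc_congr k ?_
    filter_upwards [hw] with q hq
    rw [hq, Finset.mul_sum]
    refine Finset.sum_congr rfl fun b _ => ?_
    rw [XC3_pv_mul, mul_assoc]
  have h2 : tc (M : ℝ) k (fun q => ∑ b, pv (g * w b) q * F b q) θ =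
      ∑ b, tc (M : ℝ) k (fun q => pv (g * w b) q * F b q) θ :=
    tc_sum (H := fun b q => pv (g * w b) q * F b q) k fun b => (pv_analytic (g * w b) (θ, (M : ℝ))).mul (hF b)
  rw [← hg D hD, h1, h2, Fintype.sum_prod_type]
  exact Finset.sum_congr rfl fun b _ => hp b (F b) (hF b)

theorem df_jet {s m : ℕ} (M ν : ℕ) (e : Fin s → ℚ) {F : Fin m → (Fin s → ℝ) × ℝ → ℝ} {H : (Fin s → ℝ) × ℝ → ℝ}
    {δ : MvPolynomial (Fin (s + 1)) ℚ} {c : Fin s → Fin m → Fin m → MvPolynomial (Fin (s + 1)) ℚ}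
    {w : Fin m → MvPolynomial (Fin (s + 1)) ℚ} (hF : ∀ b, AnalyticAt ℝ (F b) (cst e, (M : ℝ)))
    (hH : AnalyticAt ℝ H (cst e, (M : ℝ))) (hδ : pv δ (cst e, (M : ℝ)) ≠ 0)
    (hd : ∀ᶠ q in 𝓝 (cst e, (M : ℝ)), ∀ l b, pv δ q * fderiv ℝ (F b) q (Pi.single l 1, 0) = ∑ b', pv (c l b b') q * F b' q)
    (hw : ∀ᶠ q in 𝓝 (cst e, (M : ℝ)), pv δ q * H q = ∑ b, pv (w b) q * F b q) :
    DF e fun θ => iteratedDeriv ν (fun t => H (θ, t)) (M : ℝ) / (ν ! : ℝ) := by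
  obtain ⟨g, hg⟩ := tc_inv M ν δ
  have hp0 : ∀ (k : Fin (ν + 1)) (l : Fin s) (b b' : Fin m), ∃ p : Fin (ν + 1) → MvPolynomial (Fin s) ℚ,
      ∀ (θ : Fin s → ℝ) (H : (Fin s → ℝ) × ℝ → ℝ), AnalyticAt ℝ H (θ, (M : ℝ)) →
        tc (M : ℝ) k (fun q => pv (g * c l b b') q * H q) θ = ∑ i, aeval θ (p i) * tc (M : ℝ) i H θ :=
    fun k l b b' => XC3_poly M ν k (Nat.lt_succ_iff.1 k.2) (g * c l b b')
  choose p hp using hp0
  have hr0 : ∀ b : Fin m, ∃ p : Fin (ν + 1) → MvPolynomial (Fin s) ℚ,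
      ∀ (θ : Fin s → ℝ) (H : (Fin s → ℝ) × ℝ → ℝ), AnalyticAt ℝ H (θ, (M : ℝ)) →
        tc (M : ℝ) ν (fun q => pv (g * w b) q * H q) θ = ∑ i, aeval θ (p i) * tc (M : ℝ) i H θ :=
    fun b => XC3_poly M ν ν le_rfl (g * w b)
  choose r hr using hr0
  have hcont : Tendsto (fun θ : Fin s → ℝ => (θ, (M : ℝ))) (𝓝 (cst e)) (𝓝 (cst e, (M : ℝ))) :=
    (continuous_id.prodMk continuous_const).continuousAt
  have hF' : ∀ᶠ θ in 𝓝 (cst e), ∀ b, AnalyticAt ℝ (F b) (θ, (M : ℝ)) :=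
    hcont.eventually (Filter.eventually_all.2 fun b => (hF b).eventually_analyticAt)
  have hH' : ∀ᶠ θ in 𝓝 (cst e), AnalyticAt ℝ H (θ, (M : ℝ)) := hcont.eventually hH.eventually_analyticAt
  have hd' := hcont.eventually hd.eventually_nhds
  have hw' := hcont.eventually hw.eventually_nhds
  refine ⟨Fin m × Fin (ν + 1), inferInstance, fun bk => tc (M : ℝ) bk.2 (F bk.1), spt M δ ^ (ν + 1),
    fun l bk bi => p bk.2 l bk.1 bi.1 bi.2, fun bi => r bi.1 bi.2, ?_, ?_, ?_, ?_⟩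
  · rw [map_pow, aeval_spt]
    exact pow_ne_zero _ hδ
  · exact fun b => tc_analytic _ (hF b.1)
  · filter_upwards [hF', hd'] with θ h1 h2
    rintro l ⟨b, k⟩
    have hD : AnalyticAt ℝ (fun q => fderiv ℝ (F b) q (Pi.single l 1, 0)) (θ, (M : ℝ)) :=
      ((ContinuousLinearMap.apply ℝ ℝ ((Pi.single l 1, 0) : (Fin s → ℝ) × ℝ)).analyticAt _).comp (h1 b).fderiv
    change aeval θ (spt M δ ^ (ν + 1)) * fderiv ℝ (tc (M : ℝ) k (F b)) θ (Pi.single l 1) = _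
    rw [tc_fderiv _ (h1 b)]
    exact XC3_rel M ν k (fun H hH => hg k (Nat.lt_succ_iff.1 k.2) θ H hH) h1 hD (c l b)
      (h2.mono fun q hq => hq l b) (p k l b) (fun b' H hH => hp k l b b' θ H hH)
  · filter_upwards [hF', hH', hw'] with θ h1 h2 h3
    exact XC3_rel M ν ν (fun H hH => hg ν le_rfl θ H hH) h1 h2 w h3 r (fun b' H hH => hr b' θ H hH)

end Pool.Agent.Lib.MP_bbe012_lc.XS
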