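import Pool.Agent.Lib.MP_bbe012_lc.XS.C0

/-!
# LEAF XC4 (medium-): products

PROOF.  `DF.one`: `ι = Unit`, `Y = 1`, `δ = 1`, `Γ = 0`, `R = 1`.  `DF.mul`: if `ι, Y, δ, Γ, R` and `ι', Y', δ', Γ', R'` are the data of `f` and `f'`, those of `f f'` are `ι × ι'`, `Y b * Y' b'`, `δ * δ'`,
`Γ'' l (b, b') (c, c') = (if c' = b' then δ' * Γ l b c else 0) + (if c = b then δ * Γ' l b' c' else 0)`, `R b * R' b'` (`DecidableEq` by `classical`); near `cst e` all `Y b`, `Y' b'` are differentiable at `θ` (`AnalyticAt.eventually_analyticAt`, `Filter.eventually_all`), so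
`fderiv (Y b * Y' b') θ v = Y b θ * fderiv (Y' b') θ v + Y' b' θ * fderiv (Y b) θ v` (`fderiv_fun_mul`), and the sum over `(c, c')` splits (`Fintype.sum_prod_type`, `Finset.sum_ite_eq`).  `DF.congr`: only the values near `cst e` matter.  `DF.pow`, `DF.prod`: induction (for `DF.prod` over a `Finset`).
-/

namespace Pool.Agent.Lib.MP_bbe012_lc.XS

open MvPolynomial Set PG PM Filter Topology

theorem DF.congr {s : ℕ} {e : Fin s → ℚ} {f f' : (Fin s → ℝ) → ℝ} (h : DF e f) (hf : f =ᶠ[𝓝 (cst e)] f') : DF e f' := by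
  obtain ⟨ι, hι, Y, δ, Γ, R, h1, h2, h3, h4⟩ := h
  refine ⟨ι, hι, Y, δ, Γ, R, h1, h2, h3, ?_⟩
  filter_upwards [h4, hf] with θ h5 h6
  rw [← h6]
  exact h5

theorem DF.one {s : ℕ} (e : Fin s → ℚ) : DF e fun _ => 1 := by
  refine ⟨Unit, inferInstance, fun _ _ => 1, 1, fun _ _ _ => 0, fun _ => 1, ?_, fun _ => analyticAt_const, ?_, ?_⟩
  · rw [map_one]
    exact one_ne_zero
  · filter_upwards with θ l b
    rw [map_one, fderiv_const_apply]
    simp
  · filter_upwards with θ
    simp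

theorem DF.mul {s : ℕ} {e : Fin s → ℚ} {f f' : (Fin s → ℝ) → ℝ} (h : DF e f) (h' : DF e f') : DF e fun θ => f θ * f' θ := by
  classical
  obtain ⟨ι, hι, Y, δ, Γ, R, h1, h2, h3, h4⟩ := h
  obtain ⟨ι', hι', Y', δ', Γ', R', h1', h2', h3', h4'⟩ := h'
  refine ⟨ι × ι', inferInstance, fun b θ => Y b.1 θ * Y' b.2 θ, δ * δ',
    fun l b c => (if c.2 = b.2 then δ' * Γ l b.1 c.1 else 0) + (if c.1 = b.1 then δ * Γ' l b.2 c.2 else 0),
    fun b => R b.1 * R' b.2, ?_, fun b => (h2 b.1).mul (h2' b.2), ?_, ?_⟩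
  · rw [map_mul]
    exact mul_ne_zero h1 h1'
  · have h5 : ∀ᶠ θ in 𝓝 (cst e), ∀ b, AnalyticAt ℝ (Y b) θ :=
      Filter.eventually_all.mpr fun b => (h2 b).eventually_analyticAt
    have h5' : ∀ᶠ θ in 𝓝 (cst e), ∀ b, AnalyticAt ℝ (Y' b) θ :=
      Filter.eventually_all.mpr fun b => (h2' b).eventually_analyticAt
    filter_upwards [h3, h3', h5, h5'] with θ g3 g3' g5 g5' l b
    obtain ⟨b, b'⟩ := b
    show aeval θ (δ * δ') * fderiv ℝ (fun θ => Y b θ * Y' b' θ) θ (Pi.single l 1) =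
      ∑ c : ι × ι', aeval θ ((if c.2 = b' then δ' * Γ l b c.1 else 0) + (if c.1 = b then δ * Γ' l b' c.2 else 0)) *
        (Y c.1 θ * Y' c.2 θ)
    rw [fderiv_fun_mul (g5 b).differentiableAt (g5' b').differentiableAt, Fintype.sum_prod_type]
    have e1 : ∑ c, ∑ c', aeval θ (if c' = b' then δ' * Γ l b c else 0) * (Y c θ * Y' c' θ) =
        aeval θ δ' * Y' b' θ * ∑ c, aeval θ (Γ l b c) * Y c θ := by
      rw [Finset.mul_sum]
      refine Finset.sum_congr rfl fun c _ => ?_
      rw [Finset.sum_eq_single b']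
      · rw [if_pos rfl, map_mul]
        ring
      · intro c' _ hc'
        rw [if_neg hc', map_zero, zero_mul]
      · intro h
        exact absurd (Finset.mem_univ b') h
    have e2 : ∑ c, ∑ c', aeval θ (if c = b then δ * Γ' l b' c' else 0) * (Y c θ * Y' c' θ) =
        aeval θ δ * Y b θ * ∑ c', aeval θ (Γ' l b' c') * Y' c' θ := by
      rw [Finset.mul_sum, Finset.sum_eq_single b]
      · refine Finset.sum_congr rfl fun c' _ => ?_
        rw [if_pos rfl, map_mul]
        ring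
      · intro c _ hc
        refine Finset.sum_eq_zero fun c' _ => ?_
        rw [if_neg hc, map_zero, zero_mul]
      · intro h
        exact absurd (Finset.mem_univ b) h
    have e3 : ∑ c, ∑ c', aeval θ ((if c' = b' then δ' * Γ l b c else 0) + (if c = b then δ * Γ' l b' c' else 0)) *
        (Y c θ * Y' c' θ) =
        (∑ c, ∑ c', aeval θ (if c' = b' then δ' * Γ l b c else 0) * (Y c θ * Y' c' θ)) +
          ∑ c, ∑ c', aeval θ (if c = b then δ * Γ' l b' c' else 0) * (Y c θ * Y' c' θ) := by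
      rw [← Finset.sum_add_distrib]
      refine Finset.sum_congr rfl fun c _ => ?_
      rw [← Finset.sum_add_distrib]
      refine Finset.sum_congr rfl fun c' _ => ?_
      rw [map_add, add_mul]
    show aeval θ (δ * δ') * (Y b θ * fderiv ℝ (Y' b') θ (Pi.single l 1) + Y' b' θ * fderiv ℝ (Y b) θ (Pi.single l 1)) =
      ∑ c, ∑ c', aeval θ ((if c' = b' then δ' * Γ l b c else 0) + (if c = b then δ * Γ' l b' c' else 0)) *
        (Y c θ * Y' c' θ)
    rw [e3, e1, e2, ← g3 l b, ← g3' l b', map_mul]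
    ring
  · filter_upwards [h4, h4'] with θ g4 g4'
    show aeval θ (δ * δ') * (f θ * f' θ) = ∑ b : ι × ι', aeval θ (R b.1 * R' b.2) * (Y b.1 θ * Y' b.2 θ)
    have e1 : ∑ b : ι × ι', aeval θ (R b.1 * R' b.2) * (Y b.1 θ * Y' b.2 θ) =
        (∑ b, aeval θ (R b) * Y b θ) * ∑ b', aeval θ (R' b') * Y' b' θ := by
      rw [Fintype.sum_prod_type, Finset.sum_mul_sum]
      refine Finset.sum_congr rfl fun b _ => Finset.sum_congr rfl fun b' _ => ?_
      rw [map_mul]
      ring
    rw [e1, ← g4, ← g4', map_mul]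
    ring

theorem DF.pow {s : ℕ} {e : Fin s → ℚ} {f : (Fin s → ℝ) → ℝ} (h : DF e f) (n : ℕ) : DF e fun θ => f θ ^ n := by
  induction n with
  | zero =>
    simp only [pow_zero]
    exact DF.one e
  | succ n ih =>
    simp only [pow_succ]
    exact ih.mul h

theorem DF.prod {s : ℕ} {e : Fin s → ℚ} {κ : Type} (S : Finset κ) {f : κ → (Fin s → ℝ) → ℝ} (h : ∀ k, DF e (f k)) :
    DF e fun θ => ∏ k ∈ S, f k θ := by
  classical
  induction S using Finset.induction_on with
  | empty =>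
    simp only [Finset.prod_empty]
    exact DF.one e
  | insert a S ha ih =>
    simp only [Finset.prod_insert ha]
    exact (h a).mul ih

end Pool.Agent.Lib.MP_bbe012_lc.XS
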