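import Pool.Agent.Lib.MP_bbe012_lc.XS.C0

/-!
# LEAF XC5 (medium-): the data of finitely many functions together

PROOF.  Let `ι i, Y i, δ i, Γ i, R i` be the data of `U i` (`choose`; the instances `Fintype (ι i)`).  Take `κ = Σ i : Fin r, ι i`, `N = Fintype.card κ`, `ε : κ ≃ Fin N` (`Fintype.equivFin`), `δ = ∏ i, δ i` (its value at `cst e` is `∏ i, aeval (cst e) (δ i) ≠ 0`), `δ' i = ∏ j ∈ univ.erase i, δ j`, so `δ = δ' i * δ i`,
`Y b = Y (ε.symm b).1 (ε.symm b).2`, `Γ l b c = if h : (ε.symm b).1 = (ε.symm c).1 then δ' _ * Γ _ l (ε.symm b).2 (cast (ε.symm c).2) else 0`, `R i b = if h : (ε.symm b).1 = i then δ' i * R i (cast ..) else 0`.  To avoid casts define these on `κ` by recursion on the first component: for `x = ⟨i, b⟩`, `y = ⟨j, c⟩`: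
`G l ⟨i, b⟩ ⟨j, c⟩ = if h : j = i then δ' i * Γ i l b (h ▸ c) else 0`, and for the sum over `y` use `Fintype.sum_sigma` and `Finset.sum_eq_single i` (`dif_pos rfl`, `dif_neg`).  Sums over `Fin N` are sums over `κ` (`Equiv.sum_comp`).  The conditions hold near `cst e` for all `i` (`Filter.eventually_all`).
`aeval (cst e) δ = ((eval e δ : ℚ) : ℝ)`: `MvPolynomial.aeval_algebraMap_apply ℝ e δ`, or induction on `δ` (`aeval_cst` in `PN/CRep.lean`).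
-/

namespace Pool.Agent.Lib.MP_bbe012_lc.XS

open MvPolynomial Set PG PM Filter Topology

private theorem C5_cst {s : ℕ} (θ : Fin s → ℚ) (p : MvPolynomial (Fin s) ℚ) :
    aeval (cst θ) p = ((eval θ p : ℚ) : ℝ) := by
  have h := MvPolynomial.aeval_algebraMap_apply ℝ θ p
  rw [MvPolynomial.aeval_eq_eval] at h
  exact h

private theorem C5_sum {r : ℕ} {ι : Fin r → Type} [∀ i, Fintype (ι i)] (i₀ : Fin r)
    (F : (Σ i, ι i) → ℝ) (g : ι i₀ → ℝ) (h1 : ∀ c, F ⟨i₀, c⟩ = g c)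
    (h2 : ∀ i, i ≠ i₀ → ∀ c, F ⟨i, c⟩ = 0) : ∑ x, F x = ∑ c, g c := by
  classical
  rw [Fintype.sum_sigma, Finset.sum_eq_single i₀]
  · exact Finset.sum_congr rfl fun c _ => h1 c
  · intro i _ hi
    exact Finset.sum_eq_zero fun c _ => h2 i hi c
  · intro h
    exact absurd (Finset.mem_univ i₀) h

private theorem C5_kappa {s r : ℕ} {e : Fin s → ℚ} {U : Fin r → (Fin s → ℝ) → ℝ}
    (h : ∀ i, DF e (U i)) :
    ∃ (κ : Type) (_ : Fintype κ) (Y : κ → (Fin s → ℝ) → ℝ) (δ : MvPolynomial (Fin s) ℚ)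
      (Γ : Fin s → κ → κ → MvPolynomial (Fin s) ℚ) (R : Fin r → κ → MvPolynomial (Fin s) ℚ),
      aeval (cst e) δ ≠ (0 : ℝ) ∧ (∀ b, AnalyticAt ℝ (Y b) (cst e)) ∧
      (∀ᶠ θ in 𝓝 (cst e), ∀ l b, aeval θ δ * fderiv ℝ (Y b) θ (Pi.single l 1) =
        ∑ c, aeval θ (Γ l b c) * Y c θ) ∧
      ∀ᶠ θ in 𝓝 (cst e), ∀ i, aeval θ δ * U i θ = ∑ b, aeval θ (R i b) * Y b θ := by
  classical
  choose ι hι Y δ Γ R hδ hY hΓ hR using h
  have hprod : ∀ (i : Fin r) (θ : Fin s → ℝ), (aeval θ (∏ j, δ j) : ℝ) =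
      aeval θ (∏ j ∈ Finset.univ.erase i, δ j) * aeval θ (δ i) := by
    intro i θ
    rw [← map_mul, Finset.prod_erase_mul _ _ (Finset.mem_univ i)]
  refine ⟨Σ i, ι i, inferInstance, fun x => Y x.1 x.2, ∏ j, δ j,
    fun l x y => if h : y.1 = x.1 then (∏ j ∈ Finset.univ.erase x.1, δ j) *
      Γ x.1 l x.2 (h ▸ y.2) else 0,
    fun i x => if h : x.1 = i then (∏ j ∈ Finset.univ.erase i, δ j) * R i (h ▸ x.2) else 0,
    ?_, fun b => hY b.1 b.2, ?_, ?_⟩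
  · rw [map_prod]
    exact Finset.prod_ne_zero_iff.2 fun i _ => hδ i
  · filter_upwards [Filter.eventually_all.2 hΓ] with θ hθ l x
    rw [C5_sum x.1 _ (fun c => aeval θ ((∏ j ∈ Finset.univ.erase x.1, δ j) * Γ x.1 l x.2 c) *
      Y x.1 c θ) (fun c => by rw [dif_pos rfl]) (fun i hi c => by
        rw [dif_neg hi, map_zero, zero_mul])]
    rw [hprod x.1 θ, mul_assoc, hθ x.1 l x.2, Finset.mul_sum]
    exact Finset.sum_congr rfl fun c _ => by rw [map_mul, mul_assoc]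
  · filter_upwards [Filter.eventually_all.2 hR] with θ hθ i
    rw [C5_sum i _ (fun c => aeval θ ((∏ j ∈ Finset.univ.erase i, δ j) * R i c) *
      Y i c θ) (fun c => by rw [dif_pos rfl]) (fun j hj c => by
        rw [dif_neg hj, map_zero, zero_mul])]
    rw [hprod i θ, mul_assoc, hθ i, Finset.mul_sum]
    exact Finset.sum_congr rfl fun c _ => by rw [map_mul, mul_assoc]

theorem DF.family {s r : ℕ} {e : Fin s → ℚ} {U : Fin r → (Fin s → ℝ) → ℝ} (h : ∀ i, DF e (U i)) :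
    ∃ (N : ℕ) (Y : Fin N → (Fin s → ℝ) → ℝ) (δ : MvPolynomial (Fin s) ℚ)
      (Γ : Fin s → Fin N → Fin N → MvPolynomial (Fin s) ℚ) (R : Fin r → Fin N → MvPolynomial (Fin s) ℚ),
      eval e δ ≠ 0 ∧ (∀ b, AnalyticAt ℝ (Y b) (cst e)) ∧
      (∀ᶠ θ in 𝓝 (cst e), ∀ l b, aeval θ δ * fderiv ℝ (Y b) θ (Pi.single l 1) = ∑ c, aeval θ (Γ l b c) * Y c θ) ∧
      ∀ᶠ θ in 𝓝 (cst e), ∀ i, aeval θ δ * U i θ = ∑ b, aeval θ (R i b) * Y b θ := by
  obtain ⟨κ, hκ, Y, δ, Γ, R, h1, h2, h3, h4⟩ := C5_kappa h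
  obtain ⟨ε⟩ : Nonempty (κ ≃ Fin (Fintype.card κ)) := ⟨Fintype.equivFin κ⟩
  refine ⟨Fintype.card κ, fun b => Y (ε.symm b), δ, fun l b c => Γ l (ε.symm b) (ε.symm c),
    fun i b => R i (ε.symm b), ?_, fun b => h2 _, ?_, ?_⟩
  · intro h0
    rw [C5_cst, h0, Rat.cast_zero] at h1
    exact h1 rfl
  · filter_upwards [h3] with θ hθ l b
    rw [hθ l (ε.symm b)]
    exact (Equiv.sum_comp ε.symm fun c => aeval θ (Γ l (ε.symm b) c) * Y c θ).symm
  · filter_upwards [h4] with θ hθ i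
    rw [hθ i]
    exact (Equiv.sum_comp ε.symm fun c => aeval θ (R i c) * Y c θ).symm

end Pool.Agent.Lib.MP_bbe012_lc.XS
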