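import Pool.Agent.Lib.MP_bbe012_lc.PN.BVR
import Pool.Agent.Lib.MP_bbe012_lc.XS.C3

/-!
# Regularised values as analytic functions: differential equations
-/

namespace Pool.Agent.Lib.MP_bbe012_lc.XS

open MvPolynomial MeasureTheory Set PP PG PM PN Filter Topology
open scoped Nat

/-- As `exists_VR` (PN/BVR.lean), and the functions `V i` satisfy differential equations near every rational point `e` with `z(e) ≠ 0`. -/
theorem exists_VRE {s n r N : ℕ} (p : Fin r → Pz s n) (hp : hh p ≠ 0) (W : Fin N → Pz s n) (k : ℕ) :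
    ∃ (z : MvPolynomial (Fin s) ℚ) (V : Fin N → (Fin s → ℝ) → ℝ), z ≠ 0 ∧
      (∀ i, AnalyticOnNhd ℝ (V i) {θ | aeval θ z ≠ 0}) ∧
      (∀ θ : Fin s → ℝ, aeval θ z ≠ 0 → ∀ i, RegV p θ (fun y => vl (W i) θ y / vl (hh p) θ y ^ k) (V i θ)) ∧
      ∀ e : Fin s → ℚ, aeval (cst e) z ≠ (0 : ℝ) → ∀ i, DF e (V i) := by
  obtain ⟨m, k₀, e, hspan⟩ := exists_span hp
  choose δ c K g hδ hK hK0 hid using fun q : Fin s × Fin m => hspan (td (hh p) k₀ (e q.2) q.1) (k₀ + 1)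
  obtain ⟨M, hM, hM2⟩ := exists_M (f := ∏ q, δ q) (Finset.prod_ne_zero_iff.mpr fun q _ => hδ q)
    (k₀ + 2 + ∑ q, (K q + 2))
  have hMK : ∀ q, K q + 2 ≤ M := fun q => by
    have := Finset.single_le_sum (f := fun q => K q + 2) (fun _ _ => Nat.zero_le _) (Finset.mem_univ q)
    omega
  choose δ' c' K' g' hδ' hK' hK0' hid' using fun i => hspan (up (W i)) (k + M)
  obtain ⟨ν, Δ1, hΔ1, hΔ1'⟩ := exists_factor M (f := ∏ i, δ' i)
    (Finset.prod_ne_zero_iff.mpr fun i _ => hδ' i)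
  set H : Fin N → (Fin s → ℝ) × ℝ → ℝ := fun i q =>
    (∑ b, (aeval (Fin.snoc q.1 q.2 : Fin (s + 1) → ℝ) (c' i b * ∏ j ∈ Finset.univ.erase i, δ' j) : ℝ) *
      FI p (e b) k₀ q.1 q.2) / (aeval (Fin.snoc q.1 q.2 : Fin (s + 1) → ℝ) Δ1 : ℝ) with hHdef
  have hHan : ∀ θ : Fin s → ℝ, aeval θ (spt M Δ1 * spt M (∏ q, δ q)) ≠ (0 : ℝ) → ∀ i,
      AnalyticAt ℝ (H i) (θ, (M : ℝ)) := by
    intro θ hθ i
    rw [map_mul, mul_ne_zero_iff, aeval_spt, aeval_spt] at hθ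
    obtain ⟨hθ1, hθ2⟩ := hθ
    rw [map_prod, Finset.prod_ne_zero_iff] at hθ2
    refine AnalyticAt.div ?_ (analyticAt_poly _ _) hθ1
    refine Finset.analyticAt_fun_sum _ fun b _ => (analyticAt_poly _ _).mul ?_
    exact FI_analyticAt p k₀ M hK hK0 hid (by omega) hMK θ (fun q => hθ2 q (Finset.mem_univ q)) b
  have hfac : (ν ! : ℝ) ≠ 0 := by exact_mod_cast Nat.factorial_ne_zero ν
  refine ⟨spt M Δ1 * spt M (∏ q, δ q), fun i θ => iteratedDeriv ν (fun t => H i (θ, t)) M / (ν ! : ℝ),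
    mul_ne_zero hΔ1' hM2, ?_, ?_, ?_⟩
  · intro i θ hθ
    exact (analyticAt_iteratedDeriv (hHan θ hθ i) ν).div analyticAt_const hfac
  · intro θ hθ i
    have hθ1 : (aeval (Fin.snoc θ (M : ℝ) : Fin (s + 1) → ℝ) Δ1 : ℝ) ≠ 0 := by
      rw [map_mul, mul_ne_zero_iff, aeval_spt] at hθ
      exact hθ.1
    have hadd : ∀ t : ℝ, AnalyticAt ℝ (fun t : ℝ => t + (M : ℝ)) t :=
      fun t => analyticAt_id.add analyticAt_const
    have hpoly : ∀ (f : MvPolynomial (Fin (s + 1)) ℚ) (t : ℝ),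
        AnalyticAt ℝ (fun t : ℝ => (aeval (Fin.snoc θ (t + M) : Fin (s + 1) → ℝ) f : ℝ)) t := by
      intro f t
      exact AnalyticAt.comp (g := fun t : ℝ => (aeval (Fin.snoc θ t : Fin (s + 1) → ℝ) f : ℝ))
        (f := fun t : ℝ => t + (M : ℝ)) (x := t) (analyticAt_poly_t f θ (t + M)) (hadd t)
    have hA : AnalyticOnNhd ℝ (fun t : ℝ => ∑ b,
        (aeval (Fin.snoc θ (t + M) : Fin (s + 1) → ℝ) (c' i b * ∏ j ∈ Finset.univ.erase i, δ' j) : ℝ) *
          FI p (e b) k₀ θ (t + M)) (Ioi 0) := by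
      intro t ht
      refine Finset.analyticAt_fun_sum _ fun b _ => (hpoly _ t).mul ?_
      refine AnalyticAt.comp (g := fun t : ℝ => FI p (e b) k₀ θ t) (f := fun t : ℝ => t + (M : ℝ))
        (x := t) (FI_analytic p (e b) k₀ θ ?_) (hadd t)
      have h1 : ((k₀ + 2 : ℕ) : ℝ) ≤ M := by exact_mod_cast (show k₀ + 2 ≤ M by omega)
      push_cast at h1
      have h2 : (0 : ℝ) < t := ht
      linarith
    have hval : ∀ t : ℝ, (vrp M θ (∏ i, δ' i)).eval t =
        t ^ ν * (aeval (Fin.snoc θ (t + M) : Fin (s + 1) → ℝ) Δ1 : ℝ) := by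
      intro t
      rw [vrp_eval, hΔ1, map_mul, map_pow, aeval_tM, add_sub_cancel_right]
    have hne : ∀ᶠ t : ℝ in 𝓝[>] 0, (aeval (Fin.snoc θ (t + M) : Fin (s + 1) → ℝ) Δ1 : ℝ) ≠ 0 := by
      refine nhdsWithin_le_nhds ((hpoly Δ1 0).continuousAt.eventually_ne ?_)
      rw [zero_add]; exact hθ1
    refine ⟨vrp M θ (∏ i, δ' i), fun t : ℝ => ∑ b,
        (aeval (Fin.snoc θ (t + M) : Fin (s + 1) → ℝ) (c' i b * ∏ j ∈ Finset.univ.erase i, δ' j) : ℝ) *
          FI p (e b) k₀ θ (t + M), ?_, hA, ?_, ?_⟩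
    · intro h0
      obtain ⟨t, ht, ht1⟩ := (hne.and self_mem_nhdsWithin).exists
      have ht2 : (0 : ℝ) < t := ht1
      have h1 := hval t
      rw [h0, Polynomial.eval_zero] at h1
      exact mul_ne_zero (pow_ne_zero ν ht2.ne') ht h1.symm
    · filter_upwards [eventually_gt_atTop ((K' i : ℝ) + 1), eventually_ge_atTop (k : ℝ)] with t ht1 ht2
      have hfun : ∀ x ∈ rg p θ, vl (W i) θ x / vl (hh p) θ x ^ k * vl (hh p) θ x ^ t =
          vl (W i) θ x * vl (hh p) θ x ^ (t - k) := by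
        intro x hx
        have hpx := vx_hh_pos p θ hx
        rw [Real.rpow_sub hpx, Real.rpow_natCast, div_mul_eq_mul_div, mul_div_assoc]
      refine ⟨?_, ?_⟩
      · refine (vx_int p θ (vx_vl_cont (W i) θ) (sub_nonneg.mpr ht2)).congr_fun ?_ (vx_rg_meas p θ)
        intro x hx
        exact (hfun x hx).symm
      · have h0 : ∫ x in rg p θ, vl (W i) θ x / vl (hh p) θ x ^ k * vl (hh p) θ x ^ t =
            FI p (up (W i)) (k + M) θ (t + M) := by
          rw [FI_shiftN]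
          exact setIntegral_congr_fun (vx_rg_meas p θ) hfun
        have h1 := FI_span p (hK' i) (hK0' i) (hid' i) θ (t := t + M) (by
          have hM0 : (0 : ℝ) ≤ M := Nat.cast_nonneg M
          linarith)
        have h2 : (aeval (Fin.snoc θ (t + M) : Fin (s + 1) → ℝ) (∏ i, δ' i) : ℝ) =
            aeval (Fin.snoc θ (t + M) : Fin (s + 1) → ℝ) (∏ j ∈ Finset.univ.erase i, δ' j) *
              aeval (Fin.snoc θ (t + M) : Fin (s + 1) → ℝ) (δ' i) := by
          rw [← map_mul, mul_comm, Finset.mul_prod_erase _ _ (Finset.mem_univ i)]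
        change (vrp M θ (∏ i, δ' i)).eval t * _ = ∑ b,
          (aeval (Fin.snoc θ (t + M) : Fin (s + 1) → ℝ) (c' i b * ∏ j ∈ Finset.univ.erase i, δ' j) : ℝ) *
            FI p (e b) k₀ θ (t + M)
        rw [h0, vrp_eval, h2, mul_assoc, h1, Finset.mul_sum]
        refine Finset.sum_congr rfl fun b _ => ?_
        rw [map_mul]
        ring
    · have hslice : AnalyticAt ℝ (fun t : ℝ => H i (θ, t + M)) 0 := by
        have h1 : AnalyticAt ℝ (H i) (θ, (0 : ℝ) + M) := by rw [zero_add]; exact hHan θ hθ i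
        exact AnalyticAt.comp (g := H i) (f := fun t : ℝ => (θ, t + (M : ℝ))) (x := (0 : ℝ)) h1
          (analyticAt_const.prod (hadd 0))
      obtain ⟨a, ha⟩ := tendsto_laurent ν hslice
      have h4 := congrFun (iteratedDeriv_comp_add_const (n := ν) (f := fun t => H i (θ, t)) (M : ℝ)) 0
      rw [zero_add] at h4
      have h5 : iteratedDeriv ν (fun t : ℝ => H i (θ, t + M)) 0 = iteratedDeriv ν (fun t => H i (θ, t)) M := h4
      rw [h5] at ha
      refine ⟨ν, a, ha.congr' ?_⟩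
      filter_upwards [hne, self_mem_nhdsWithin] with t ht ht1
      have ht2 : (0 : ℝ) < t := ht1
      have h6 : t⁻¹ ^ ν * H i (θ, t + M) = (∑ b,
          (aeval (Fin.snoc θ (t + M) : Fin (s + 1) → ℝ) (c' i b * ∏ j ∈ Finset.univ.erase i, δ' j) : ℝ) *
            FI p (e b) k₀ θ (t + M)) / (vrp M θ (∏ i, δ' i)).eval t := by
        rw [hval, inv_pow, hHdef]
        change (t ^ ν)⁻¹ * (_ / _) = _
        rw [inv_mul_eq_div, div_div, mul_comm (aeval (Fin.snoc θ (t + M) : Fin (s + 1) → ℝ) Δ1 : ℝ)]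
      rw [h6]
  · intro e₀ he₀ i
    have he1 := he₀
    rw [map_mul, mul_ne_zero_iff, aeval_spt, aeval_spt] at he1
    obtain ⟨hθ1, hθ2⟩ := he1
    have hθ3 := hθ2
    rw [map_prod, Finset.prod_ne_zero_iff] at hθ3
    have hFan : ∀ b, AnalyticAt ℝ (fun q : (Fin s → ℝ) × ℝ => FI p (e b) k₀ q.1 q.2) (cst e₀, (M : ℝ)) := fun b =>
      FI_analyticAt p k₀ M hK hK0 hid (by omega) hMK (cst e₀) (fun q => hθ3 q (Finset.mem_univ q)) b
    have hpvm : ∀ (f g : MvPolynomial (Fin (s + 1)) ℚ) (q : (Fin s → ℝ) × ℝ), pv (f * g) q = pv f q * pv g q :=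
      fun f g q => map_mul _ _ _
    refine df_jet M ν e₀ (F := fun b q => FI p (e b) k₀ q.1 q.2) (H := H i) (δ := Δ1 * ∏ q, δ q)
      (c := fun l b b' => Δ1 * (∏ q ∈ Finset.univ.erase (l, b), δ q) * c (l, b) b')
      (w := fun b => (∏ q, δ q) * (c' i b * ∏ j ∈ Finset.univ.erase i, δ' j)) hFan (hHan (cst e₀) he₀ i) ?_ ?_ ?_
    · rw [hpvm]
      exact mul_ne_zero hθ1 hθ2
    · have h1 : ∀ᶠ q : (Fin s → ℝ) × ℝ in 𝓝 (cst e₀, (M : ℝ)), (k₀ : ℝ) + 1 < q.2 := by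
        refine (continuous_snd.tendsto (cst e₀, (M : ℝ))).eventually (lt_mem_nhds ?_)
        have h7 : ((k₀ + 2 : ℕ) : ℝ) ≤ M := by exact_mod_cast (show k₀ + 2 ≤ M by omega)
        push_cast at h7
        change (k₀ : ℝ) + 1 < (M : ℝ)
        linarith
      have h2 : ∀ᶠ q : (Fin s → ℝ) × ℝ in 𝓝 (cst e₀, (M : ℝ)), ∀ jb, (K jb : ℝ) + 1 < q.2 := by
        rw [eventually_all]
        intro jb
        refine (continuous_snd.tendsto (cst e₀, (M : ℝ))).eventually (lt_mem_nhds ?_)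
        have h7 : ((K jb + 2 : ℕ) : ℝ) ≤ M := by exact_mod_cast hMK jb
        push_cast at h7
        change (K jb : ℝ) + 1 < (M : ℝ)
        linarith
      have h3 : ∀ᶠ q : (Fin s → ℝ) × ℝ in 𝓝 (cst e₀, (M : ℝ)), ∀ b,
          AnalyticAt ℝ (fun q : (Fin s → ℝ) × ℝ => FI p (e b) k₀ q.1 q.2) q := by
        rw [eventually_all]
        exact fun b => (hFan b).eventually_analyticAt
      filter_upwards [h1, h2, h3] with q hq1 hq2 hq3 l b
      have h4 := FI_deriv p (e b) k₀ hq1 q.1 l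
      have h5 := (hq3 b).differentiableAt.hasFDerivAt
      have h6 : HasDerivAt (fun τ : ℝ => (q.1 + τ • (Pi.single l 1 : Fin s → ℝ), q.2)) ((Pi.single l 1 : Fin s → ℝ), (0 : ℝ)) 0 := by
        have h8 : HasDerivAt (fun τ : ℝ => q.1 + τ • (Pi.single l 1 : Fin s → ℝ)) (Pi.single l 1 : Fin s → ℝ) 0 := by
          have h9 := ((hasDerivAt_id (0 : ℝ)).smul_const (Pi.single l 1 : Fin s → ℝ)).const_add q.1
          simpa using h9
        exact h8.prodMk (hasDerivAt_const 0 q.2)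
      have h7 : HasDerivAt (fun τ : ℝ => FI p (e b) k₀ (q.1 + τ • (Pi.single l 1 : Fin s → ℝ)) q.2)
          (fderiv ℝ (fun q : (Fin s → ℝ) × ℝ => FI p (e b) k₀ q.1 q.2) q (Pi.single l 1, 0)) 0 := by
        have h9 : HasFDerivAt (fun q : (Fin s → ℝ) × ℝ => FI p (e b) k₀ q.1 q.2)
            (fderiv ℝ (fun q : (Fin s → ℝ) × ℝ => FI p (e b) k₀ q.1 q.2) q)
            ((fun τ : ℝ => (q.1 + τ • (Pi.single l 1 : Fin s → ℝ), q.2)) 0) := by
          simpa using h5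
        exact h9.comp_hasDerivAt (0 : ℝ) h6
      have h8 := h7.unique h4
      have h9 := FI_span p (hK (l, b)) (hK0 (l, b)) (hid (l, b)) q.1 (hq2 (l, b))
      have h10 : pv (∏ q, δ q) q = pv (∏ q ∈ Finset.univ.erase (l, b), δ q) q * pv (δ (l, b)) q := by
        rw [← hpvm, mul_comm, Finset.mul_prod_erase _ _ (Finset.mem_univ (l, b))]
      rw [hpvm, h10]
      have h11 : pv (δ (l, b)) q * FI p (td (hh p) k₀ (e b) l) (k₀ + 1) q.1 q.2 =
          ∑ b', pv (c (l, b) b') q * FI p (e b') k₀ q.1 q.2 := h9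
      change pv Δ1 q * (pv (∏ q ∈ Finset.univ.erase (l, b), δ q) q * pv (δ (l, b)) q) *
        fderiv ℝ (fun q : (Fin s → ℝ) × ℝ => FI p (e b) k₀ q.1 q.2) q (Pi.single l 1, 0) = _
      rw [h8, mul_assoc, mul_assoc, h11, Finset.mul_sum, Finset.mul_sum]
      refine Finset.sum_congr rfl fun b' _ => ?_
      rw [hpvm, hpvm]
      ring
    · have h1 : ∀ᶠ q : (Fin s → ℝ) × ℝ in 𝓝 (cst e₀, (M : ℝ)), pv Δ1 q ≠ 0 :=
        (analyticAt_poly Δ1 (cst e₀, (M : ℝ))).continuousAt.eventually_ne hθ1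
      filter_upwards [h1] with q hq
      have h2 : H i q = (∑ b, pv (c' i b * ∏ j ∈ Finset.univ.erase i, δ' j) q * FI p (e b) k₀ q.1 q.2) / pv Δ1 q := rfl
      rw [h2, hpvm]
      rw [mul_comm (pv Δ1 q), mul_assoc, mul_div_cancel₀ _ hq, Finset.mul_sum]
      refine Finset.sum_congr rfl fun b' _ => ?_
      rw [hpvm (∏ q, δ q) (c' i b' * ∏ j ∈ Finset.univ.erase i, δ' j)]
      ring

end Pool.Agent.Lib.MP_bbe012_lc.XS
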