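import Pool.Agent.Lib.MP_bbe012_lc.PN.AFE
import Pool.Agent.Lib.MP_bbe012_lc.PN.ABas
import Pool.Agent.Lib.MP_bbe012_lc.PN.CCell
import Pool.Agent.Lib.MP_bbe012_lc.PN.Ht
import Pool.Agent.Lib.MP_bbe012_lc.XS.C6

/-!
# The data for all cells, with differential equations
-/

namespace Pool.Agent.Lib.MP_bbe012_lc.XS

open MvPolynomial MeasureTheory Set PP PG PM PN Filter Topology

private noncomputable def C7_phi (s : ℕ) : MvPolynomial (Fin (s + 1)) ℚ →ₐ[ℚ] Polynomial (MvPolynomial (Fin s) ℚ) :=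
  aeval (Fin.snoc (fun i => Polynomial.C (X i)) Polynomial.X : Fin (s + 1) → Polynomial (MvPolynomial (Fin s) ℚ))

private noncomputable def C7_psi (s : ℕ) : Polynomial (MvPolynomial (Fin s) ℚ) →+* MvPolynomial (Fin (s + 1)) ℚ :=
  Polynomial.eval₂RingHom (rename Fin.castSucc : MvPolynomial (Fin s) ℚ →ₐ[ℚ] MvPolynomial (Fin (s + 1)) ℚ).toRingHom
    (X (Fin.last s))

private theorem C7_psi_phi {s : ℕ} (b : MvPolynomial (Fin (s + 1)) ℚ) : C7_psi s (C7_phi s b) = b := by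
  induction b using MvPolynomial.induction_on with
  | C a =>
    rw [C7_phi, aeval_C, Polynomial.algebraMap_apply, algebraMap_eq, C7_psi, Polynomial.coe_eval₂RingHom,
      Polynomial.eval₂_C]
    exact rename_C _ _
  | add p q hp hq => rw [map_add, map_add, hp, hq]
  | mul_X p i hp =>
    rw [map_mul, map_mul, hp]
    congr 1
    rw [C7_phi, aeval_X]
    refine Fin.lastCases ?_ (fun i => ?_) i
    · rw [Fin.snoc_last, C7_psi, Polynomial.coe_eval₂RingHom, Polynomial.eval₂_X]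
    · rw [Fin.snoc_castSucc, C7_psi, Polynomial.coe_eval₂RingHom, Polynomial.eval₂_C]
      exact rename_X _ _

private theorem C7_spp {s : ℕ} (b : MvPolynomial (Fin (s + 1)) ℚ) (θ : Fin s → ℚ) :
    Polynomial.map (eval θ) (C7_phi s b) = PN.spp b θ := by
  induction b using MvPolynomial.induction_on with
  | C a =>
    rw [C7_phi, aeval_C, Polynomial.algebraMap_apply, algebraMap_eq, Polynomial.map_C, eval_C, PN.spp, aeval_C]
    rfl
  | add p q hp hq =>
    have h1 : PN.spp (p + q) θ = PN.spp p θ + PN.spp q θ := map_add _ _ _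
    rw [map_add, Polynomial.map_add, hp, hq, h1]
  | mul_X p i hp =>
    have h1 : PN.spp (p * X i) θ = PN.spp p θ * PN.spp (X i) θ := map_mul _ _ _
    rw [map_mul, Polynomial.map_mul, hp, h1]
    congr 1
    rw [C7_phi, aeval_X, PN.spp, aeval_X]
    refine Fin.lastCases ?_ (fun i => ?_) i
    · rw [Fin.snoc_last, Fin.snoc_last, Polynomial.map_X]
    · rw [Fin.snoc_castSucc, Fin.snoc_castSucc, Polynomial.map_C, eval_X]

private theorem C7_cst {s : ℕ} (θ : Fin s → ℚ) (p : MvPolynomial (Fin s) ℚ) :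
    aeval (cst θ) p = ((eval θ p : ℚ) : ℝ) := by
  induction p using MvPolynomial.induction_on with
  | C a => rw [aeval_C, eval_C]; rfl
  | add p q hp hq => rw [map_add, map_add, hp, hq, Rat.cast_add]
  | mul_X p i hp => rw [map_mul, map_mul, hp, Rat.cast_mul, aeval_X, eval_X]; rfl

private theorem C7_ne {s : ℕ} (F : Sup s) (σ : Fin F.r → Bool) : hh (psg F σ) ≠ 0 := by
  rw [hh]
  refine mul_ne_zero (Finset.prod_ne_zero_iff.mpr fun j _ => ?_) (Finset.prod_ne_zero_iff.mpr fun i _ => ?_)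
  · rw [psg]
    split_ifs
    · exact sh_ne_zero (F.g0 j)
    · exact neg_ne_zero.mpr (sh_ne_zero (F.g0 j))
  · intro h0
    have h1 : vl (1 - X (Sum.inr i) ^ 2 : Pz s F.n) 0 0 = 1 := by
      simp [vl]
    rw [h0] at h1
    have h2 : vl (0 : Pz s F.n) 0 0 = 0 := map_zero _
    rw [h2] at h1
    exact zero_ne_one h1

/-- The data of a cell, as `exists_bas` (PN/CRep.lean), with differential equations. -/
theorem exists_basE {s : ℕ} (F : Sup s) (σ : Fin F.r → Bool) :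
    ∃ (D : Bas s F.n) (z : MvPolynomial (Fin s) ℚ) (V : Fin D.N → (Fin s → ℝ) → ℝ), z ≠ 0 ∧ BasOK F σ D z V ∧
      SpanN (hh (psg F σ)) D ∧ ∀ e : Fin s → ℚ, aeval (cst e) z ≠ (0 : ℝ) → ∀ i, DF e (V i) := by
  have h0 := C7_ne F σ
  obtain ⟨kk, b, hb0, hFE⟩ := PN.gen_FE h0
  have hP0 : C7_phi s b ≠ 0 := by
    intro h
    apply hb0
    rw [← C7_psi_phi b, h, map_zero]
  obtain ⟨D, hDj, hspan⟩ := gen_basis h0 ((C7_phi s b).natDegree + 1)
  obtain ⟨z₁, V, hz₁, hVa, hVr, hVd⟩ := exists_VRE (psg F σ) h0 D.W D.k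
  obtain ⟨z₂, -, hz₂, -, hnz, -⟩ := exists_W
    ({ n := F.n, Q := 1, L := List.ofFn F.g, Q0 := one_ne_zero, L0 := by
        intro l hl
        obtain ⟨j, rfl⟩ := (List.mem_ofFn' _ _).mp hl
        exact F.g0 j } : Fam s) 0
  refine ⟨D, z₁ * ((C7_phi s b).leadingCoeff * z₂), V,
    mul_ne_zero hz₁ (mul_ne_zero (Polynomial.leadingCoeff_ne_zero.mpr hP0) hz₂), ⟨?_, ?_, ?_, ?_⟩, hspan, ?_⟩
  · intro i θ hθ
    simp only [mem_ofPred_eq, map_mul] at hθ
    exact hVa i θ (left_ne_zero_of_mul hθ)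
  · intro θ hθ
    rw [map_mul] at hθ
    exact hVr θ (left_ne_zero_of_mul hθ)
  · intro θ hθ
    rw [map_mul, map_mul] at hθ
    have h1 := left_ne_zero_of_mul (right_ne_zero_of_mul hθ)
    rw [C7_cst] at h1
    refine ⟨kk, PN.spp b θ, ?_, ?_, hFE θ⟩
    · intro h2
      rw [← C7_spp] at h2
      have h3 := congrArg (fun p => Polynomial.coeff p (C7_phi s b).natDegree) h2
      simp only [Polynomial.coeff_map, Polynomial.coeff_zero] at h3
      apply h1
      rw [Polynomial.leadingCoeff, h3, Rat.cast_zero]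
    · rw [hDj, ← C7_spp]
      exact Nat.succ_le_succ Polynomial.natDegree_map_le
  · intro θ hθ j
    rw [map_mul, map_mul] at hθ
    exact (hnz θ (right_ne_zero_of_mul (right_ne_zero_of_mul hθ))).2 (F.g j) ((List.mem_ofFn' _ _).mpr ⟨j, rfl⟩)
  · intro e₀ he₀ i
    rw [map_mul] at he₀
    exact hVd e₀ (left_ne_zero_of_mul he₀) i

private theorem C7_mulR {s : ℕ} {F : Sup s} {σ : Fin F.r → Bool} {D : Bas s F.n} {z w : MvPolynomial (Fin s) ℚ}
    {V : Fin D.N → (Fin s → ℝ) → ℝ} (h : BasOK F σ D z V) : BasOK F σ D (z * w) V := by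
  refine ⟨fun i θ hθ => ?_, fun θ hθ => ?_, fun θ hθ => ?_, fun θ hθ => ?_⟩
  · simp only [mem_ofPred_eq, map_mul] at hθ
    exact h.ana i θ (left_ne_zero_of_mul hθ)
  · rw [map_mul] at hθ
    exact h.reg θ (left_ne_zero_of_mul hθ)
  · rw [map_mul] at hθ
    exact h.fe θ (left_ne_zero_of_mul hθ)
  · rw [map_mul] at hθ
    exact h.nz θ (left_ne_zero_of_mul hθ)

/-- The data of all cells, as `exists_all` (PN/CRep.lean), with differential equations. -/
theorem exists_allE {s μ : ℕ} (F : Fin μ → Sup s) :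
    ∃ (D : (l : Lam F) → Bas s (F l.1).n) (z : MvPolynomial (Fin s) ℚ) (V : Ix D → (Fin s → ℝ) → ℝ), z ≠ 0 ∧
      (∀ l, BasOK (F l.1) l.2 (D l) z fun i => V ⟨l, i⟩) ∧ (∀ l, SpanN (hh (psg (F l.1) l.2)) (D l)) ∧
      ∀ e : Fin s → ℚ, aeval (cst e) z ≠ (0 : ℝ) → ∀ y, DF e (V y) := by
  classical
  choose D z V hz hOK hS hd using fun l : Lam F => exists_basE (F l.1) l.2
  refine ⟨D, ∏ l, z l, fun x => V x.1 x.2, Finset.prod_ne_zero_iff.mpr fun l _ => hz l, fun l => ?_, hS, ?_⟩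
  · rw [← Finset.mul_prod_erase _ _ (Finset.mem_univ l)]
    exact C7_mulR (hOK l)
  · intro e₀ he₀ y
    rw [map_prod, Finset.prod_ne_zero_iff] at he₀
    exact hd y.1 e₀ (he₀ y.1 (Finset.mem_univ _)) y.2

end Pool.Agent.Lib.MP_bbe012_lc.XS
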