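import Pool.Agent.Lib.MP_bbe012_lc.PL.L6
import Pool.Agent.Lib.MP_bbe012_lc.PN.Dy

/-!
# Exponential sizes, assembly: definitions
-/

namespace Pool.Agent.Lib.MP_bbe012_lc.XS

open MvPolynomial MeasureTheory Set PP PG PM PN PL Filter Topology

/-- The integer part of `exp (T ^ k)`. -/
noncomputable def eT (k : ℝ) (T : ℕ) : ℕ := ⌊Real.exp ((T : ℝ) ^ k)⌋₊

/-- There is a linear relation with integer coefficients, not all zero and at most `exp (T ^ k)` in absolute value, between the values `V_j(θ)`. -/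
def RelE {s r : ℕ} (V : Fin r → (Fin s → ℝ) → ℝ) (k : ℝ) (T : ℕ) (θ : Fin s → ℚ) : Prop :=
  ∃ cc : Fin r → ℤ, cc ≠ 0 ∧ (∀ j, |(cc j : ℝ)| ≤ Real.exp ((T : ℝ) ^ k)) ∧ ∑ j, (cc j : ℝ) * V j (cst θ) = 0

/-- Few relations, for the points of height at most `T`. -/
def FewE {s r : ℕ} (z : MvPolynomial (Fin s) ℚ) (e : Fin s → ℚ) (V : Fin r → (Fin s → ℝ) → ℝ) (k η : ℝ) : Prop :=
  ∀ S : Set (Fin s → ℝ), IsCompact S → (∀ θ ∈ S, aeval θ z ≠ 0) → ∃ C : ℝ, 0 < C ∧ ∀ T : ℕ, 1 ≤ T →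
    ({θ : Fin s → ℚ | (∀ i, HLE T (θ i)) ∧ cst θ ∈ S ∩ Om z e ∧ RelE V k T θ}.ncard : ℝ) ≤ C * (T : ℝ) ^ (2 * (s : ℝ) - η)

/-- Few relations, for the points of a translate of a lattice. -/
def FewL {s r : ℕ} (z : MvPolynomial (Fin s) ℚ) (e : Fin s → ℚ) (V : Fin r → (Fin s → ℝ) → ℝ) (k η : ℝ) : Prop :=
  ∀ S : Set (Fin s → ℝ), IsCompact S → (∀ θ ∈ S, aeval θ z ≠ 0) → ∃ C : ℝ, 0 < C ∧ ∀ T : ℕ, 1 ≤ T →
    ∀ (a₀ h₀ : Fin s → ℚ), (∀ i, 1 ≤ 2 * (T : ℚ) * h₀ i) →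
      ({θ : Fin s → ℚ | InC a₀ h₀ θ ∧ cst θ ∈ S ∩ Om z e ∧ RelE V k T θ}.ncard : ℝ) ≤ C * (T : ℝ) ^ ((s : ℝ) - η)

end Pool.Agent.Lib.MP_bbe012_lc.XS
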