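import Pool.Agent.Lib.MP_bbe012_lc.XS.D0

/-!
# LEAF XD1 (easy+): the sizes `exp (T ^ k)`

PROOF.  `eT_mono`: `Nat.floor_le_floor`, `Real.exp_le_exp`, `Real.rpow_le_rpow_of_exponent_le`.  `two_le_eT`: `(T : ℝ) ^ k ≥ 1` (`Real.one_le_rpow`), `exp 1 ≥ 2` (`Real.add_one_le_exp`), `Nat.le_floor`.
`pow_le_eT`: `x ^ m ≤ exp (x ^ k)` for large `x`: `m log x ≤ x ^ k` for large `x` (`isLittleO_log_rpow_atTop`, or `Real.log_le_rpow_div`), and `x ^ m = exp (m log x)`; compose with `Nat.cast` (`tendsto_natCast_atTop_atTop`), `Nat.le_floor`.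
`mul_eT_le`: `c exp (x ^ k) ≤ exp (x ^ k')` for large `x`: `log c + x ^ k ≤ x ^ k'` for large `x`, as `x ^ k' = x ^ k * x ^ (k' - k)` and `x ^ (k' - k) → ∞` (`tendsto_rpow_atTop`), `x ^ k ≥ 1`.  `eT_pow_le`: `(exp (x ^ k)) ^ m = exp (m x ^ k) ≤ exp (x ^ k')` for large `x`, similarly; `Nat.floor_le`.
`eT_le`: `Nat.floor_le`.
-/

namespace Pool.Agent.Lib.MP_bbe012_lc.XS

open Filter Topology

private theorem XD1_log {k : ℝ} (hk : 0 < k) (m : ℕ) :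
    ∃ T₀ : ℕ, ∀ T : ℕ, T₀ ≤ T → (m : ℝ) * Real.log T ≤ (T : ℝ) ^ k := by
  have h1 := (isLittleO_log_rpow_atTop hk).def (c := 1 / ((m : ℝ) + 1)) (by positivity)
  have h2 := tendsto_natCast_atTop_atTop.eventually h1
  obtain ⟨T₀, hT₀⟩ := eventually_atTop.mp h2
  refine ⟨max T₀ 1, fun T hT => ?_⟩
  have h3 := hT₀ T (le_trans (le_max_left _ _) hT)
  have hT1 : (1 : ℝ) ≤ (T : ℝ) := by exact_mod_cast le_trans (le_max_right _ _) hT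
  have hpos : (0 : ℝ) ≤ (T : ℝ) ^ k := Real.rpow_nonneg (by linarith) _
  have hl : 0 ≤ Real.log (T : ℝ) := Real.log_nonneg hT1
  rw [Real.norm_of_nonneg hpos, Real.norm_of_nonneg hl] at h3
  have h4 : ((m : ℝ) + 1) * Real.log T ≤ (T : ℝ) ^ k := by
    have h5 : (0 : ℝ) < (m : ℝ) + 1 := by positivity
    calc ((m : ℝ) + 1) * Real.log T ≤ ((m : ℝ) + 1) * (1 / ((m : ℝ) + 1) * (T : ℝ) ^ k) :=
          mul_le_mul_of_nonneg_left h3 h5.le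
      _ = (T : ℝ) ^ k := by field_simp
  nlinarith

private theorem XD1_pow {k k' : ℝ} (hk : 0 < k) (h : k < k') (m c : ℕ) :
    ∃ T₀ : ℕ, ∀ T : ℕ, T₀ ≤ T → (m : ℝ) * (T : ℝ) ^ k + c ≤ (T : ℝ) ^ k' := by
  have h1 := (tendsto_rpow_atTop (sub_pos.mpr h)).eventually_ge_atTop ((m : ℝ) + c)
  have h2 := tendsto_natCast_atTop_atTop.eventually h1
  obtain ⟨T₀, hT₀⟩ := eventually_atTop.mp h2
  refine ⟨max T₀ 1, fun T hT => ?_⟩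
  have h3 := hT₀ T (le_trans (le_max_left _ _) hT)
  have hT1 : (1 : ℝ) ≤ (T : ℝ) := by exact_mod_cast le_trans (le_max_right _ _) hT
  have h4 : (1 : ℝ) ≤ (T : ℝ) ^ k := Real.one_le_rpow hT1 hk.le
  have h5 : (T : ℝ) ^ k' = (T : ℝ) ^ k * (T : ℝ) ^ (k' - k) := by
    rw [← Real.rpow_add (by linarith)]
    congr 1
    ring
  rw [h5]
  have h6 : (T : ℝ) ^ k * ((m : ℝ) + c) ≤ (T : ℝ) ^ k * (T : ℝ) ^ (k' - k) :=
    mul_le_mul_of_nonneg_left h3 (by linarith)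
  have h7 : (0 : ℝ) ≤ (c : ℝ) := Nat.cast_nonneg c
  nlinarith

theorem eT_le (k : ℝ) (T : ℕ) : (eT k T : ℝ) ≤ Real.exp ((T : ℝ) ^ k) := by
  exact Nat.floor_le (Real.exp_pos _).le

theorem eT_mono {k k' : ℝ} (h : k ≤ k') {T : ℕ} (hT : 1 ≤ T) : eT k T ≤ eT k' T := by
  apply Nat.floor_le_floor
  apply Real.exp_le_exp.mpr
  exact Real.rpow_le_rpow_of_exponent_le (by exact_mod_cast hT) h

theorem two_le_eT {k : ℝ} (hk : 0 < k) {T : ℕ} (hT : 1 ≤ T) : 2 ≤ eT k T := by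
  apply Nat.le_floor
  have h1 : (1 : ℝ) ≤ (T : ℝ) ^ k := Real.one_le_rpow (by exact_mod_cast hT) hk.le
  have h2 := Real.add_one_le_exp ((T : ℝ) ^ k)
  push_cast
  linarith

theorem pow_le_eT {k : ℝ} (hk : 0 < k) (m : ℕ) : ∃ T₀ : ℕ, ∀ T : ℕ, T₀ ≤ T → T ^ m ≤ eT k T := by
  obtain ⟨T₀, hT₀⟩ := XD1_log hk m
  refine ⟨max T₀ 1, fun T hT => ?_⟩
  have h1 := hT₀ T (le_trans (le_max_left _ _) hT)
  have hT1 : (1 : ℝ) ≤ (T : ℝ) := by exact_mod_cast le_trans (le_max_right _ _) hT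
  apply Nat.le_floor
  have h2 : ((T ^ m : ℕ) : ℝ) = Real.exp ((m : ℝ) * Real.log T) := by
    rw [mul_comm, Real.exp_mul, Real.exp_log (by linarith), Real.rpow_natCast, Nat.cast_pow]
  rw [h2]
  exact Real.exp_le_exp.mpr h1

theorem mul_eT_le {k k' : ℝ} (hk : 0 < k) (h : k < k') (c : ℕ) : ∃ T₀ : ℕ, ∀ T : ℕ, T₀ ≤ T → eT k T * c ≤ eT k' T := by
  obtain ⟨T₀, hT₀⟩ := XD1_pow hk h 1 c
  refine ⟨T₀, fun T hT => ?_⟩
  have h1 := hT₀ T hT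
  apply Nat.le_floor
  have h2 : (c : ℝ) ≤ Real.exp (c : ℝ) := by
    have := Real.add_one_le_exp (c : ℝ)
    linarith
  rw [Nat.cast_mul]
  calc (eT k T : ℝ) * (c : ℝ) ≤ Real.exp ((T : ℝ) ^ k) * Real.exp (c : ℝ) :=
        mul_le_mul (eT_le k T) h2 (Nat.cast_nonneg _) (Real.exp_pos _).le
    _ = Real.exp ((T : ℝ) ^ k + c) := (Real.exp_add _ _).symm
    _ ≤ Real.exp ((T : ℝ) ^ k') := Real.exp_le_exp.mpr (by simpa using h1)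

theorem eT_pow_le {k k' : ℝ} (hk : 0 < k) (h : k < k') (m : ℕ) :
    ∃ T₀ : ℕ, ∀ T : ℕ, T₀ ≤ T → (eT k T : ℝ) ^ m ≤ Real.exp ((T : ℝ) ^ k') := by
  obtain ⟨T₀, hT₀⟩ := XD1_pow hk h m 0
  refine ⟨T₀, fun T hT => ?_⟩
  have h1 := hT₀ T hT
  calc (eT k T : ℝ) ^ m ≤ Real.exp ((T : ℝ) ^ k) ^ m :=
        pow_le_pow_left₀ (Nat.cast_nonneg _) (eT_le k T) m
    _ = Real.exp ((m : ℝ) * (T : ℝ) ^ k) := (Real.exp_nat_mul _ _).symm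
    _ ≤ Real.exp ((T : ℝ) ^ k') := Real.exp_le_exp.mpr (by simpa using h1)

end Pool.Agent.Lib.MP_bbe012_lc.XS
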