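import Pool.Agent.Lib.MP_bbe012_lc.XS.D0
import Pool.Agent.Lib.MP_bbe012_lc.PM.Dens
import Pool.Agent.Lib.MP_bbe012_lc.PG.DHt

/-!
# LEAF XD2 (easy+): the density of the exceptional parameters is zero

PROOF.  Copy of the private theorem `fz_pos` in `PL/L7.lean` (source on main), with the hypothesis `hF` instead of `few_rel`: there `hfew := fun i => few_rel hs hSc hSz1 (han i) (hI i) (A₃ i)`, here the constants `C i` are chosen from `hF i S hSc hSz1` after the set `S` has been chosen, the exponents `η i` are given.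
`RelE (V' i) (k i) T θ` replaces the existential statement about `cc`, and `2 ≤ T` is replaced by `T₀' ≤ T` (take `max (max T₀ T₁) (max T₂ (max T₀' 2))`).
-/

namespace Pool.Agent.Lib.MP_bbe012_lc.XS

open MvPolynomial MeasureTheory Set PP PG PM PN PL Filter Topology

private theorem XD2_fin {s : ℕ} (T : ℕ) : {θ : Fin s → ℚ | ∀ i, HLE T (θ i)}.Finite :=
  Set.Finite.pi' (t := fun _ : Fin s => {a : ℚ | HLE T a}) fun _ => finite_HLE T

theorem fz_posE {s : ℕ} (hs : 0 < s) {ι : Type} [Fintype ι] {z : MvPolynomial (Fin s) ℚ} (hz : z ≠ 0)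
    {e : ι → Fin s → ℚ} (hE : ∀ θ : Fin s → ℝ, aeval θ z ≠ 0 → ∃ i, θ ∈ Om z (e i))
    {δ : ι → MvPolynomial (Fin s) ℚ} (hδ : ∀ i, δ i ≠ 0) {r : ι → ℕ} {V' : (i : ι) → Fin (r i) → (Fin s → ℝ) → ℝ}
    {k η : ι → ℝ} (hη : ∀ i, 0 < η i) (hF : ∀ i, FewE z (e i) (V' i) (k i) (η i))
    (B : ℕ → Set (Fin s → ℚ)) (T₀' : ℕ)
    (hB : ∀ T, T₀' ≤ T → ∀ θ ∈ B T, (∀ i, HLE T (θ i)) ∧ ∀ i, cst θ ∈ Om z (e i) → eval θ (δ i) ≠ 0 →
      RelE (V' i) (k i) T θ) :
    Tendsto (fun T : ℕ => ((B T).ncard : ℝ) / ({θ : Fin s → ℚ | ∀ i, HLE T (θ i)}.ncard : ℝ)) atTop (𝓝 0) := by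
  classical
  obtain ⟨c, T₁, hc, hmany⟩ := many_pts (s := s) (S := Set.univ) (by simp)
  have hz' : z * ∏ i, δ i ≠ 0 := mul_ne_zero hz (Finset.prod_ne_zero_iff.2 fun i _ => hδ i)
  rw [Metric.tendsto_atTop]
  intro ε hε
  obtain ⟨S, hSc, hSz, T₀, hT₀⟩ := dens hs hz' (half_pos hε)
  have hSz1 : ∀ θ ∈ S, aeval θ z ≠ 0 := by
    intro θ hθ h
    apply hSz θ hθ
    rw [map_mul, h, zero_mul]
  have hSz2 : ∀ θ ∈ S, ∀ i, aeval θ (δ i) ≠ 0 := by
    intro θ hθ i h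
    apply hSz θ hθ
    rw [map_mul, map_prod, Finset.prod_eq_zero (Finset.mem_univ i) h, mul_zero]
  have hfew := fun i => hF i S hSc hSz1
  choose C hC hbd using hfew
  have hlim : Tendsto (fun T : ℕ => ∑ i, C i / c * (T : ℝ) ^ (-η i)) atTop (𝓝 0) := by
    have h0 : (0 : ℝ) = ∑ i : ι, C i / c * 0 := by simp
    rw [h0]
    apply tendsto_finsetSum
    intro i _
    exact ((tendsto_rpow_neg_atTop (hη i)).comp tendsto_natCast_atTop_atTop).const_mul _
  obtain ⟨T₂, hT₂⟩ := (Metric.tendsto_atTop.1 hlim) (ε / 2) (half_pos hε)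
  refine ⟨max (max T₀ T₁) (max T₂ (max T₀' 2)), fun T hT => ?_⟩
  have h0 : T₀ ≤ T := le_trans (le_trans (le_max_left _ _) (le_max_left _ _)) hT
  have h1 : T₁ ≤ T := le_trans (le_trans (le_max_right _ _) (le_max_left _ _)) hT
  have h2 : T₂ ≤ T := le_trans (le_trans (le_max_left _ _) (le_max_right _ _)) hT
  have h3' : max T₀' 2 ≤ T := le_trans (le_trans (le_max_right _ _) (le_max_right _ _)) hT
  have h3 : 2 ≤ T := le_trans (le_max_right _ _) h3'
  have h3'' : T₀' ≤ T := le_trans (le_max_left _ _) h3'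
  have hTpos : (0 : ℝ) < T := by
    have : 0 < T := by omega
    exact_mod_cast this
  set N : ℝ := ({θ : Fin s → ℚ | ∀ i, HLE T (θ i)}.ncard : ℝ) with hN
  have hN1 : c * (T : ℝ) ^ (2 * (s : ℝ)) ≤ N := by
    have h := hmany T h1
    have hset : {θ : Fin s → ℚ | (∀ i, HLE T (θ i)) ∧ (fun i => (θ i : ℝ)) ∈ (Set.univ : Set (Fin s → ℝ))} =
        {θ : Fin s → ℚ | ∀ i, HLE T (θ i)} := by
      ext θ
      simp
    rw [hset] at h
    exact h
  have hpow : (0 : ℝ) < (T : ℝ) ^ (2 * (s : ℝ)) := Real.rpow_pos_of_pos hTpos _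
  have hN0 : 0 < N := lt_of_lt_of_le (mul_pos hc hpow) hN1
  have hcount : ((B T).ncard : ℝ) ≤ ε / 2 * N + ∑ i, C i * (T : ℝ) ^ (2 * (s : ℝ) - η i) := by
    set U₁ : Set (Fin s → ℚ) := {θ | (∀ i, HLE T (θ i)) ∧ cst θ ∉ S} with hU₁
    set U₂ : ι → Set (Fin s → ℚ) := fun i => {θ | (∀ i, HLE T (θ i)) ∧ cst θ ∈ S ∩ Om z (e i) ∧
        RelE (V' i) (k i) T θ} with hU₂
    have hsub : B T ⊆ U₁ ∪ ⋃ i, U₂ i := by
      intro θ hθ
      obtain ⟨hH, hR⟩ := hB T h3'' θ hθ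
      by_cases hθS : cst θ ∈ S
      · right
        obtain ⟨i, hi⟩ := hE (cst θ) (hSz1 _ hθS)
        have hd : eval θ (δ i) ≠ 0 := by
          intro h
          apply hSz2 _ hθS i
          have h' : aeval (cst θ) (δ i) = ((eval θ (δ i) : ℚ) : ℝ) := by
            have h'' := MvPolynomial.aeval_algebraMap_apply ℝ θ (δ i)
            have h3 : (⇑(algebraMap ℚ ℝ) ∘ θ : Fin s → ℝ) = cst θ := by
              funext j
              rfl
            rw [h3] at h''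
            rw [h'']
            simp
          rw [h', h, Rat.cast_zero]
        exact Set.mem_iUnion.2 ⟨i, hH, ⟨hθS, hi⟩, hR i hi hd⟩
      · exact Or.inl ⟨hH, hθS⟩
    have hfin : (U₁ ∪ ⋃ i, U₂ i).Finite := by
      refine (XD2_fin (s := s) T).subset ?_
      rintro θ (h | h)
      · exact h.1
      · obtain ⟨i, hi⟩ := Set.mem_iUnion.1 h
        exact hi.1
    have hc1 : (B T).ncard ≤ U₁.ncard + ∑ i, (U₂ i).ncard := by
      refine (Set.ncard_le_ncard hsub hfin).trans ((Set.ncard_union_le _ _).trans ?_)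
      exact Nat.add_le_add_left (Set.ncard_iUnion_le_of_fintype U₂) _
    have hc2 : ((B T).ncard : ℝ) ≤ (U₁.ncard : ℝ) + ∑ i, ((U₂ i).ncard : ℝ) := by exact_mod_cast hc1
    refine hc2.trans (add_le_add (hT₀ T h0) (Finset.sum_le_sum fun i _ => hbd i T (by omega)))
  have hq : ((B T).ncard : ℝ) / N ≤ ε / 2 + ∑ i, C i / c * (T : ℝ) ^ (-η i) := by
    rw [div_le_iff₀ hN0]
    refine hcount.trans ?_
    rw [add_mul, Finset.sum_mul]
    refine add_le_add le_rfl (Finset.sum_le_sum fun i _ => ?_)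
    have hTi : (0 : ℝ) < (T : ℝ) ^ (-η i) := Real.rpow_pos_of_pos hTpos _
    have hsplit : (T : ℝ) ^ (2 * (s : ℝ) - η i) = (T : ℝ) ^ (-η i) * (T : ℝ) ^ (2 * (s : ℝ)) := by
      rw [← Real.rpow_add hTpos]
      ring_nf
    rw [hsplit]
    calc C i * ((T : ℝ) ^ (-η i) * (T : ℝ) ^ (2 * (s : ℝ)))
        = C i / c * (T : ℝ) ^ (-η i) * (c * (T : ℝ) ^ (2 * (s : ℝ))) := by
          field_simp
      _ ≤ C i / c * (T : ℝ) ^ (-η i) * N :=
          mul_le_mul_of_nonneg_left hN1 (mul_nonneg (div_nonneg (hC i).le hc.le) hTi.le)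
  have hsum : ∑ i, C i / c * (T : ℝ) ^ (-η i) < ε / 2 := by
    have h := hT₂ T h2
    rw [Real.dist_eq, sub_zero] at h
    exact lt_of_le_of_lt (le_abs_self _) h
  rw [Real.dist_eq, sub_zero, abs_of_nonneg (div_nonneg (Nat.cast_nonneg _) hN0.le)]
  linarith

end Pool.Agent.Lib.MP_bbe012_lc.XS
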