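import Pool.Agent.Lib.MP_bbe012_lc.XS.D0
import Pool.Agent.Lib.MP_bbe012_lc.PM.Dens
import Pool.Agent.Lib.MP_bbe012_lc.PG.DHt

/-!
# LEAF XD3 (medium-): few exceptional parameters in a compact set

PROOF.  `fz_zeroE`: copy of the private theorem `fz_zero` in `PL/L7.lean` (source on main); `RelE` replaces the existential statement about `cc`.
`fz_rateE`: copy of the private theorem `fz_rate` in `PL/L7.lean`, with `hF` instead of `few_rel`: the exponents `η i` are given, so `η₀ = ∏ i, min (η i) 1 ≤ 1` does not depend on `S`; `C i` from `hF i S hSc hSz`.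
For `T < T₀'` (and for all `T` if `s = 0`, where `B T = ∅` for `T₀' ≤ T` by `fz_zeroE`): `B T` is contained in the finite set of the `θ` of height at most `T₀'`, with `N` elements, and `N ≤ N * (T₀' + 1) ^ η₀ * T ^ (2 s - η₀)` for `1 ≤ T ≤ T₀'`, as `T ^ (2 s) ≥ 1` and `(T₀' + 1) ^ η₀ ≥ T ^ η₀` (`Real.rpow_sub`).  So add `N * (T₀' + 1) ^ η₀` to the constant.
(The height bound of `B T` is assumed for all `T`; `HLE T a → HLE T' a` for `T ≤ T'`.)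
-/

namespace Pool.Agent.Lib.MP_bbe012_lc.XS

open MvPolynomial MeasureTheory Set PP PG PM PN PL Filter Topology

private theorem XD3_fin {s : ℕ} (T : ℕ) : {θ : Fin s → ℚ | ∀ i, HLE T (θ i)}.Finite :=
  Set.Finite.pi' (t := fun _ : Fin s => {a : ℚ | HLE T a}) fun _ => finite_HLE T

theorem fz_zeroE {ι : Type} {z : MvPolynomial (Fin 0) ℚ} (hz : z ≠ 0)
    {e : ι → Fin 0 → ℚ} (hE : ∀ θ : Fin 0 → ℝ, aeval θ z ≠ 0 → ∃ i, θ ∈ Om z (e i))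
    {δ : ι → MvPolynomial (Fin 0) ℚ} (hδ : ∀ i, δ i ≠ 0) {r : ι → ℕ} {V' : (i : ι) → Fin (r i) → (Fin 0 → ℝ) → ℝ}
    {k : ι → ℝ}
    (hI : ∀ i, ∀ P : Fin (r i) → MvPolynomial (Fin 0) ℚ,
      (∀ θ ∈ Om z (e i), ∑ j, aeval θ (P j) * V' i j θ = 0) → ∀ j, P j = 0)
    (B : ℕ → Set (Fin 0 → ℚ)) (T₀' : ℕ)
    (hB : ∀ T, T₀' ≤ T → ∀ θ ∈ B T, (∀ i, HLE T (θ i)) ∧ ∀ i, cst θ ∈ Om z (e i) → eval θ (δ i) ≠ 0 →
      RelE (V' i) (k i) T θ) :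
    ∀ T, T₀' ≤ T → B T = ∅ := by
  intro T hT
  by_contra hne
  obtain ⟨θ, hθ⟩ := Set.nonempty_iff_ne_empty.2 hne
  obtain ⟨-, hR⟩ := hB T hT θ hθ
  have hz1 : aeval (cst θ) z ≠ 0 := by
    rw [MvPolynomial.eq_C_of_isEmpty z, MvPolynomial.aeval_C]
    intro h
    apply hz
    rw [MvPolynomial.eq_C_of_isEmpty z]
    have h' : ((coeff 0 z : ℚ) : ℝ) = 0 := h
    rw [Rat.cast_eq_zero.1 h', map_zero]
  obtain ⟨i, hi⟩ := hE (cst θ) hz1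
  have hd : eval θ (δ i) ≠ 0 := by
    intro h
    apply hδ i
    rw [MvPolynomial.eq_C_of_isEmpty (δ i), MvPolynomial.eval_C] at h
    rw [MvPolynomial.eq_C_of_isEmpty (δ i), h, map_zero]
  obtain ⟨cc, hcc, -, hsum⟩ := hR i hi hd
  apply hcc
  funext j
  have h := hI i (fun j => C (cc j : ℚ)) (by
    intro θ' _
    rw [Subsingleton.elim θ' (cst θ)]
    rw [← hsum]
    apply Finset.sum_congr rfl
    intro j _
    rw [MvPolynomial.aeval_C]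
    simp) j
  have h' : (cc j : ℚ) = 0 := by
    have h'' := congrArg (coeff 0) h
    rwa [coeff_zero_C, coeff_zero] at h''
  exact_mod_cast h'

theorem fz_rateE {s : ℕ} {ι : Type} [Fintype ι] {z : MvPolynomial (Fin s) ℚ} (hz : z ≠ 0)
    {e : ι → Fin s → ℚ} (hE : ∀ θ : Fin s → ℝ, aeval θ z ≠ 0 → ∃ i, θ ∈ Om z (e i))
    {δ : ι → MvPolynomial (Fin s) ℚ} (hδ : ∀ i, δ i ≠ 0) {r : ι → ℕ} {V' : (i : ι) → Fin (r i) → (Fin s → ℝ) → ℝ}
    {k η : ι → ℝ} (hη : ∀ i, 0 < η i) (hF : ∀ i, FewE z (e i) (V' i) (k i) (η i))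
    (hI : ∀ i, ∀ P : Fin (r i) → MvPolynomial (Fin s) ℚ,
      (∀ θ ∈ Om z (e i), ∑ j, aeval θ (P j) * V' i j θ = 0) → ∀ j, P j = 0)
    (B : ℕ → Set (Fin s → ℚ)) (T₀' : ℕ) (hB0 : ∀ T, ∀ θ ∈ B T, ∀ i, HLE T (θ i))
    (hB : ∀ T, T₀' ≤ T → ∀ θ ∈ B T, (∀ i, HLE T (θ i)) ∧ ∀ i, cst θ ∈ Om z (e i) → eval θ (δ i) ≠ 0 →
      RelE (V' i) (k i) T θ) :
    ∃ η₀ : ℝ, 0 < η₀ ∧ ∀ S : Set (Fin s → ℝ), IsCompact S → (∀ θ ∈ S, aeval θ z ≠ 0) → ∃ C : ℝ, 0 < C ∧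
      ∀ T : ℕ, 1 ≤ T → ({θ ∈ B T | cst θ ∈ S}.ncard : ℝ) ≤ C * (T : ℝ) ^ (2 * (s : ℝ) - η₀) := by
  classical
  obtain ⟨η₀, hη₀def⟩ : ∃ η₀ : ℝ, η₀ = ∏ i, min (η i) 1 := ⟨_, rfl⟩
  have hη₀ : 0 < η₀ := by
    rw [hη₀def]
    exact Finset.prod_pos fun i _ => lt_min (hη i) one_pos
  have hη₁ : η₀ ≤ 1 := by
    rw [hη₀def]
    exact Finset.prod_le_one (fun i _ => (lt_min (hη i) one_pos).le) fun i _ => min_le_right _ _
  have hη₂ : ∀ i, η₀ ≤ η i := by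
    intro i
    rw [hη₀def, ← Finset.mul_prod_erase Finset.univ _ (Finset.mem_univ i)]
    calc min (η i) 1 * ∏ j ∈ Finset.univ.erase i, min (η j) 1 ≤ min (η i) 1 * 1 := by
          refine mul_le_mul_of_nonneg_left ?_ (lt_min (hη i) one_pos).le
          exact Finset.prod_le_one (fun i _ => (lt_min (hη i) one_pos).le) fun i _ => min_le_right _ _
      _ ≤ η i := by
          rw [mul_one]
          exact min_le_left _ _
  refine ⟨η₀, hη₀, fun S hSc hSz => ?_⟩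
  -- the small values of `T`
  set M : ℝ := ({θ : Fin s → ℚ | ∀ i, HLE T₀' (θ i)}.ncard : ℝ) * ((T₀' : ℝ) + 1) ^ η₀ with hM
  have hM0 : 0 ≤ M := by positivity
  have hsmall : ∀ T : ℕ, 1 ≤ T → T ≤ T₀' →
      ({θ ∈ B T | cst θ ∈ S}.ncard : ℝ) ≤ M * (T : ℝ) ^ (2 * (s : ℝ) - η₀) := by
    intro T hT hTT
    have hT1 : (1 : ℝ) ≤ T := by exact_mod_cast hT
    have hTpos : (0 : ℝ) < T := lt_of_lt_of_le one_pos hT1
    have hTT' : (T : ℝ) ≤ T₀' := by exact_mod_cast hTT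
    have hsub : {θ ∈ B T | cst θ ∈ S} ⊆ {θ : Fin s → ℚ | ∀ i, HLE T₀' (θ i)} := by
      rintro θ ⟨hθ, -⟩ i
      have h := hB0 T θ hθ i
      exact ⟨h.1.trans hTT, h.2.trans hTT⟩
    have h1 : ({θ ∈ B T | cst θ ∈ S}.ncard : ℝ) ≤ ({θ : Fin s → ℚ | ∀ i, HLE T₀' (θ i)}.ncard : ℝ) := by
      exact_mod_cast Set.ncard_le_ncard hsub (XD3_fin T₀')
    refine h1.trans ?_
    rw [hM, mul_assoc]
    refine le_mul_of_one_le_right (Nat.cast_nonneg _) ?_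
    have h2 : (T : ℝ) ^ η₀ ≤ ((T₀' : ℝ) + 1) ^ η₀ :=
      Real.rpow_le_rpow hTpos.le (by linarith) hη₀.le
    have h3 : (1 : ℝ) ≤ (T : ℝ) ^ (2 * (s : ℝ)) := Real.one_le_rpow hT1 (by positivity)
    rw [Real.rpow_sub hTpos]
    have h4 : 0 < (T : ℝ) ^ η₀ := Real.rpow_pos_of_pos hTpos _
    rw [mul_div_assoc', le_div_iff₀ h4, one_mul]
    calc (T : ℝ) ^ η₀ = (T : ℝ) ^ η₀ * 1 := (mul_one _).symm
      _ ≤ ((T₀' : ℝ) + 1) ^ η₀ * (T : ℝ) ^ (2 * (s : ℝ)) := mul_le_mul h2 h3 zero_le_one (by positivity)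
  rcases Nat.eq_zero_or_pos s with hs | hs
  · subst hs
    have h0 := fz_zeroE hz hE hδ hI B T₀' hB
    refine ⟨M + 1, by positivity, fun T hT => ?_⟩
    have hT1 : (1 : ℝ) ≤ T := by exact_mod_cast hT
    have hP : (0 : ℝ) ≤ (T : ℝ) ^ (2 * ((0 : ℕ) : ℝ) - η₀) := Real.rpow_nonneg (by linarith) _
    rcases Nat.lt_or_ge T T₀' with h2 | h2
    · refine (hsmall T hT h2.le).trans (mul_le_mul_of_nonneg_right (by linarith) hP)
    · have h3 : {θ ∈ B T | cst θ ∈ S} = (∅ : Set (Fin 0 → ℚ)) := by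
        rw [h0 T h2]
        ext θ
        simp
      rw [h3, Set.ncard_empty, Nat.cast_zero]
      positivity
  · have hfew := fun i => hF i S hSc hSz
    choose C hC hbd using hfew
    have hzer := fun i => few_zeros hs (hδ i)
    choose C' hC' hbd' using hzer
    have h1 : 0 ≤ ∑ i, C' i := Finset.sum_nonneg fun i _ => (hC' i).le
    have h2 : 0 ≤ ∑ i, C i := Finset.sum_nonneg fun i _ => (hC i).le
    refine ⟨∑ i, C' i + ∑ i, C i + (M + 1), by positivity, fun T hT => ?_⟩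
    have hT1 : (1 : ℝ) ≤ T := by exact_mod_cast hT
    have hTpos : (0 : ℝ) < T := lt_of_lt_of_le one_pos hT1
    have hP : (0 : ℝ) < (T : ℝ) ^ (2 * (s : ℝ) - η₀) := Real.rpow_pos_of_pos hTpos _
    rcases Nat.lt_or_ge T T₀' with h3 | h3
    · refine (hsmall T hT h3.le).trans (mul_le_mul_of_nonneg_right (by linarith) hP.le)
    set U₁ : ι → Set (Fin s → ℚ) := fun i => {θ | (∀ i, HLE T (θ i)) ∧ aeval θ (δ i) = 0} with hU₁
    set U₂ : ι → Set (Fin s → ℚ) := fun i => {θ | (∀ i, HLE T (θ i)) ∧ cst θ ∈ S ∩ Om z (e i) ∧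
        RelE (V' i) (k i) T θ} with hU₂
    have hsub : {θ ∈ B T | cst θ ∈ S} ⊆ (⋃ i, U₁ i) ∪ ⋃ i, U₂ i := by
      rintro θ ⟨hθ, hθS⟩
      obtain ⟨hH, hR⟩ := hB T h3 θ hθ
      obtain ⟨i, hi⟩ := hE (cst θ) (hSz _ hθS)
      by_cases hd : eval θ (δ i) = 0
      · left
        refine Set.mem_iUnion.2 ⟨i, hH, ?_⟩
        rw [MvPolynomial.aeval_eq_eval]
        exact hd
      · exact Or.inr (Set.mem_iUnion.2 ⟨i, hH, ⟨hθS, hi⟩, hR i hi hd⟩)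
    have hfin : ((⋃ i, U₁ i) ∪ ⋃ i, U₂ i).Finite := by
      refine (XD3_fin (s := s) T).subset ?_
      rintro θ (h | h)
      · obtain ⟨i, hi⟩ := Set.mem_iUnion.1 h
        exact hi.1
      · obtain ⟨i, hi⟩ := Set.mem_iUnion.1 h
        exact hi.1
    have hc1 : {θ ∈ B T | cst θ ∈ S}.ncard ≤ ∑ i, (U₁ i).ncard + ∑ i, (U₂ i).ncard := by
      refine (Set.ncard_le_ncard hsub hfin).trans ((Set.ncard_union_le _ _).trans ?_)
      exact Nat.add_le_add (Set.ncard_iUnion_le_of_fintype U₁) (Set.ncard_iUnion_le_of_fintype U₂)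
    have hc2 : ({θ ∈ B T | cst θ ∈ S}.ncard : ℝ) ≤ ∑ i, ((U₁ i).ncard : ℝ) + ∑ i, ((U₂ i).ncard : ℝ) := by
      exact_mod_cast hc1
    have hk1 : ∑ i, ((U₁ i).ncard : ℝ) ≤ (∑ i, C' i) * (T : ℝ) ^ (2 * (s : ℝ) - η₀) := by
      rw [Finset.sum_mul]
      refine Finset.sum_le_sum fun i _ => (hbd' i T hT).trans ?_
      refine mul_le_mul_of_nonneg_left ?_ (hC' i).le
      exact Real.rpow_le_rpow_of_exponent_le hT1 (by linarith)
    have hk2 : ∑ i, ((U₂ i).ncard : ℝ) ≤ (∑ i, C i) * (T : ℝ) ^ (2 * (s : ℝ) - η₀) := by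
      rw [Finset.sum_mul]
      refine Finset.sum_le_sum fun i _ => (hbd i T hT).trans ?_
      refine mul_le_mul_of_nonneg_left ?_ (hC i).le
      exact Real.rpow_le_rpow_of_exponent_le hT1 (by linarith [hη₂ i])
    have hk3 : 0 ≤ (M + 1) * (T : ℝ) ^ (2 * (s : ℝ) - η₀) := by positivity
    calc ({θ ∈ B T | cst θ ∈ S}.ncard : ℝ) ≤ ∑ i, ((U₁ i).ncard : ℝ) + ∑ i, ((U₂ i).ncard : ℝ) := hc2
      _ ≤ (∑ i, C' i) * (T : ℝ) ^ (2 * (s : ℝ) - η₀) + (∑ i, C i) * (T : ℝ) ^ (2 * (s : ℝ) - η₀) +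
          (M + 1) * (T : ℝ) ^ (2 * (s : ℝ) - η₀) := by linarith
      _ = _ := by ring

end Pool.Agent.Lib.MP_bbe012_lc.XS
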