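import Pool.Agent.Lib.MP_bbe012_lc.XS.D0

/-!
# LEAF XD4 (medium-): zeros of a polynomial in a translate of a lattice

PROOF.  `S` is contained in `[- R, R] ^ s`, `R ≥ 0` (`hS.isBounded.exists_norm_le`, `norm_le_pi_norm`).  For the points `θ` of the set and each `l` the numbers `θ l` are in `{a₀ l + k h₀ l} ∩ [- R, R]`, a finite set `X l` (`finite_line`, `PL/L4.lean`) with at most `1 + 2 R * 2 T ≤ (4 R + 1) T` elements: two different elements have a distance `≥ h₀ l ≥ 1 / (2 T)`;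
use `icount_coset` (`PL/L0.lean`) with `x₀ = 0, ℓ = 1` for the interval `[- R, R]`: `card ≤ 1 + 2 R * (1 * (2 T))`.  The set is contained in the set of the `x ∈ Fintype.piFinset X` with `eval x q = 0` (`aeval (cst θ) q = ((eval θ q : ℚ) : ℝ)`, `l6_rat` in `PL/L6.lean`, private: copy), which by `MvPolynomial.schwartz_zippel_sum_degreeOf` has at most
`∑ i, degreeOf i q * ∏_{l ≠ i} |X l| ≤ (∑ i, degreeOf i q) ((4 R + 1) T) ^ (s - 1)` elements (if some `X l` is empty the set is empty; multiply the inequality by `∏ |X i|`).  The same computation with heights instead of lattices is the leaf XB5 (`XS/B5.lean`, `zeros_poly`; store `XS_B5.lean`).  `(T : ℝ) ^ ((s : ℝ) - 1) = T ^ (s - 1)` (`Real.rpow_natCast`, `0 < s`).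
-/

namespace Pool.Agent.Lib.MP_bbe012_lc.XS

open MvPolynomial MeasureTheory Set PP PG PM PN PL Filter Topology

private theorem XD4_rat {s : ℕ} (q : MvPolynomial (Fin s) ℚ) (θ : Fin s → ℚ) :
    (aeval (cst θ) q : ℝ) = ((eval θ q : ℚ) : ℝ) := by
  have h'' := MvPolynomial.aeval_algebraMap_apply ℝ θ q
  have h3 : (⇑(algebraMap ℚ ℝ) ∘ θ : Fin s → ℝ) = cst θ := by
    funext j
    rfl
  rw [h3] at h''
  rw [h'']
  simp

private theorem XD4_line {T : ℕ} (hT : 1 ≤ T) {a h : ℚ} (hh : 1 ≤ 2 * (T : ℚ) * h) {R : ℝ} (hR : 0 ≤ R) (X : Finset ℚ)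
    (hX : ∀ x ∈ X, (∃ k : ℤ, x = a + k * h) ∧ |(x : ℝ)| ≤ R) : (X.card : ℝ) ≤ (4 * R + 1) * T := by
  classical
  have hT1 : (1 : ℝ) ≤ (T : ℝ) := by exact_mod_cast hT
  have h1 := icount_coset hh 0 1 one_pos X (fun x hx => (hX x hx).1)
  have h2 := h1 (-R) (2 * R) (by positivity)
  rw [Finset.filter_true_of_mem (by
      intro x hx
      obtain ⟨b, hb, rfl⟩ := Finset.mem_image.1 hx
      have h3 := abs_le.1 (hX b hb).2
      simp only [sub_zero, div_one]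
      exact ⟨h3.1, by linarith [h3.2]⟩), Finset.card_image_of_injective _ (by
      intro x y hxy
      have h4 : ((x : ℝ) - 0) / 1 = ((y : ℝ) - 0) / 1 := hxy
      simp only [sub_zero, div_one] at h4
      exact_mod_cast h4)] at h2
  refine h2.trans ?_
  linarith

theorem few_zerosLE {s : ℕ} (hs : 0 < s) {q : MvPolynomial (Fin s) ℚ} (hq : q ≠ 0) {S : Set (Fin s → ℝ)} (hS : IsCompact S) :
    ∃ C : ℝ, 0 < C ∧ ∀ T : ℕ, 1 ≤ T → ∀ (a₀ h₀ : Fin s → ℚ), (∀ i, 1 ≤ 2 * (T : ℚ) * h₀ i) →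
      ({θ : Fin s → ℚ | InC a₀ h₀ θ ∧ cst θ ∈ S ∧ aeval (cst θ) q = (0 : ℝ)}.ncard : ℝ) ≤ C * (T : ℝ) ^ ((s : ℝ) - 1) := by
  classical
  obtain ⟨R, hR⟩ := hS.isBounded.exists_norm_le
  have hRS : ∀ θ ∈ S, ∀ i, |θ i| ≤ max R 0 := fun θ hθ i =>
    ((norm_le_pi_norm θ i).trans (hR θ hθ)).trans (le_max_left _ _)
  obtain ⟨R₀, hR₀def⟩ : ∃ R₀, R₀ = max R 0 := ⟨_, rfl⟩
  have hR₀ : 0 ≤ R₀ := by
    rw [hR₀def]
    exact le_max_right _ _
  rw [← hR₀def] at hRS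
  refine ⟨(((∑ i, q.degreeOf i : ℕ) : ℝ) + 1) * (4 * R₀ + 1) ^ (s - 1), by positivity, fun T hT a₀ h₀ hh₀ => ?_⟩
  have hT0 : (0 : ℝ) < (T : ℝ) := by exact_mod_cast hT
  obtain ⟨Bd, hBd⟩ : ∃ Bd : Set (Fin s → ℚ), Bd = {θ : Fin s → ℚ | InC a₀ h₀ θ ∧ cst θ ∈ S ∧ aeval (cst θ) q = (0 : ℝ)} :=
    ⟨_, rfl⟩
  rw [← hBd]
  have hfin : Bd.Finite := by
    refine (finite_box (a := a₀) hh₀ R₀).subset ?_
    intro σ hσ
    rw [hBd] at hσ
    exact ⟨hσ.1, fun i => hRS _ hσ.2.1 i⟩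
  rcases Bd.eq_empty_or_nonempty with hemp | hne
  · rw [hemp, Set.ncard_empty, Nat.cast_zero]
    positivity
  let X : Fin s → Finset ℚ := fun i => (finite_line (a := a₀ i) (hh₀ i) R₀).toFinset
  have hXm : ∀ i x, x ∈ X i → (∃ k : ℤ, x = a₀ i + k * h₀ i) ∧ |(x : ℝ)| ≤ R₀ := by
    intro i x hx
    have h1 := (Set.Finite.mem_toFinset _).1 hx
    exact h1
  have hX : ∀ i, ((X i).card : ℝ) ≤ (4 * R₀ + 1) * T := fun i => XD4_line hT (hh₀ i) hR₀ (X i) (hXm i)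
  have hmem : ∀ σ ∈ Bd, ∀ i, σ i ∈ X i := by
    intro σ hσ i
    rw [hBd] at hσ
    exact (Set.Finite.mem_toFinset _).2 ⟨hσ.1 i, hRS _ hσ.2.1 i⟩
  have hpos : ∀ i, 0 < (X i).card := by
    intro i
    obtain ⟨σ, hσ⟩ := hne
    exact Finset.card_pos.2 ⟨σ i, hmem σ hσ i⟩
  have hsub : hfin.toFinset ⊆ (Fintype.piFinset X).filter (fun x => eval x q = 0) := by
    intro σ hσ
    have hσ' := (Set.Finite.mem_toFinset _).1 hσ
    rw [Finset.mem_filter, Fintype.mem_piFinset]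
    refine ⟨fun i => hmem σ hσ' i, ?_⟩
    rw [hBd] at hσ'
    have h1 := hσ'.2.2
    rw [XD4_rat] at h1
    exact_mod_cast h1
  have hsz := MvPolynomial.schwartz_zippel_sum_degreeOf hq X
  have hsz' : ((((Fintype.piFinset X).filter (fun x => eval x q = 0)).card : ℝ)) /
      ∏ i, (((X i).card : ℕ) : ℝ) ≤ ∑ i, ((q.degreeOf i : ℝ) / ((X i).card : ℝ)) := by
    have h := hsz
    have h2 : ((((((Fintype.piFinset X).filter (fun x => eval x q = 0)).card : ℚ≥0) /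
      ∏ i, (((X i).card : ℕ) : ℚ≥0) : ℚ≥0)) : ℝ) ≤ ((∑ i, ((q.degreeOf i : ℚ≥0) / ((X i).card : ℚ≥0)) : ℚ≥0) : ℝ) := by
      exact_mod_cast h
    push_cast at h2
    exact h2
  have hP : (0 : ℝ) < ∏ i, (((X i).card : ℕ) : ℝ) :=
    Finset.prod_pos fun i _ => by exact_mod_cast hpos i
  rw [div_le_iff₀ hP, Finset.sum_mul] at hsz'
  have hterm : ∀ i : Fin s, ((q.degreeOf i : ℝ) / ((X i).card : ℝ)) * ∏ i, (((X i).card : ℕ) : ℝ) ≤
      (q.degreeOf i : ℝ) * ((4 * R₀ + 1) * T) ^ (s - 1) := by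
    intro i
    have hi : (0 : ℝ) < ((X i).card : ℝ) := by exact_mod_cast hpos i
    rw [← Finset.mul_prod_erase Finset.univ _ (Finset.mem_univ i)]
    have e : ((q.degreeOf i : ℝ) / ((X i).card : ℝ)) * ((((X i).card : ℕ) : ℝ) *
        ∏ x ∈ Finset.univ.erase i, (((X x).card : ℕ) : ℝ)) =
        (q.degreeOf i : ℝ) * ∏ x ∈ Finset.univ.erase i, (((X x).card : ℕ) : ℝ) := by
      rw [← mul_assoc, div_mul_cancel₀ _ hi.ne']
    rw [e]
    have h1 : ∏ x ∈ Finset.univ.erase i, (((X x).card : ℕ) : ℝ) ≤ ((4 * R₀ + 1) * T) ^ (s - 1) := by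
      calc ∏ x ∈ Finset.univ.erase i, (((X x).card : ℕ) : ℝ) ≤
            ∏ _x ∈ (Finset.univ : Finset (Fin s)).erase i, ((4 * R₀ + 1) * T) :=
            Finset.prod_le_prod (fun i _ => Nat.cast_nonneg _) (fun i _ => hX i)
        _ = ((4 * R₀ + 1) * T) ^ (s - 1) := by
            rw [Finset.prod_const, Finset.card_erase_of_mem (Finset.mem_univ i), Finset.card_univ, Fintype.card_fin]
    exact mul_le_mul_of_nonneg_left h1 (Nat.cast_nonneg _)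
  have hs1 : ((s - 1 : ℕ) : ℝ) = (s : ℝ) - 1 := by
    rw [Nat.cast_sub hs, Nat.cast_one]
  rw [Set.ncard_eq_toFinset_card _ hfin]
  calc (hfin.toFinset.card : ℝ) ≤ ((((Fintype.piFinset X).filter (fun x => eval x q = 0)).card : ℕ) : ℝ) := by
        exact_mod_cast Finset.card_le_card hsub
    _ ≤ ∑ i : Fin s, ((q.degreeOf i : ℝ) / ((X i).card : ℝ)) * ∏ i, (((X i).card : ℕ) : ℝ) := hsz'
    _ ≤ ∑ i : Fin s, (q.degreeOf i : ℝ) * ((4 * R₀ + 1) * T) ^ (s - 1) := Finset.sum_le_sum fun i _ => hterm i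
    _ = ((∑ i, q.degreeOf i : ℕ) : ℝ) * ((4 * R₀ + 1) * T) ^ (s - 1) := by
        rw [← Finset.sum_mul]
        push_cast
        rfl
    _ = ((∑ i, q.degreeOf i : ℕ) : ℝ) * (4 * R₀ + 1) ^ (s - 1) * (T : ℝ) ^ ((s : ℝ) - 1) := by
        rw [mul_pow, ← hs1, Real.rpow_natCast]
        ring
    _ ≤ (((∑ i, q.degreeOf i : ℕ) : ℝ) + 1) * (4 * R₀ + 1) ^ (s - 1) * (T : ℝ) ^ ((s : ℝ) - 1) := by
        have h4 : 0 ≤ (T : ℝ) ^ ((s : ℝ) - 1) := Real.rpow_nonneg hT0.le _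
        have h5 : 0 ≤ (4 * R₀ + 1) ^ (s - 1) := by positivity
        have h6 : ((∑ i, q.degreeOf i : ℕ) : ℝ) ≤ ((∑ i, q.degreeOf i : ℕ) : ℝ) + 1 := by linarith
        exact mul_le_mul_of_nonneg_right (mul_le_mul_of_nonneg_right h6 h5) h4

end Pool.Agent.Lib.MP_bbe012_lc.XS
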