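import Pool.Agent.Lib.MP_bbe012_lc.XS.D4

/-!
# LEAF XD5 (easy+): the exceptional points of a lattice in a compact set

PROOF.  Copy of `lat_rate` in `PL/L6.lean` (source on main; the private `l6_rat` has to be copied too), with `hF i S hSc hSz` instead of `few_relL`, `few_zerosLE` (`XS/D4.lean`, exponent `1`) instead of `few_zerosL`, and `RelE (V' i) (k i) T θ` instead of the existential statement about `cc`.
`η₀ = ∏ i, min (η i) 1` does not depend on `S` (in `lat_rate`: `min (min (η i) (η' i)) 1` with `η' i = 1`); for `s = 0` take any `η₀ > 0`, `C = 1`, the set `B` is empty as there.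
-/

namespace Pool.Agent.Lib.MP_bbe012_lc.XS

open MvPolynomial MeasureTheory Set PP PG PM PN PL Filter Topology

private theorem XD5_rat {s : ℕ} (q : MvPolynomial (Fin s) ℚ) (θ : Fin s → ℚ) :
    (aeval (cst θ) q : ℝ) = ((eval θ q : ℚ) : ℝ) := by
  have h'' := MvPolynomial.aeval_algebraMap_apply ℝ θ q
  have h3 : (⇑(algebraMap ℚ ℝ) ∘ θ : Fin s → ℝ) = cst θ := by
    funext j
    rfl
  rw [h3] at h''
  rw [h'']
  simp

theorem lat_rateE {s : ℕ} {ι : Type} [Fintype ι] {z : MvPolynomial (Fin s) ℚ} (hz : z ≠ 0)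
    {e : ι → Fin s → ℚ} (hE : ∀ θ : Fin s → ℝ, aeval θ z ≠ 0 → ∃ i, θ ∈ Om z (e i))
    {δ : ι → MvPolynomial (Fin s) ℚ} (hδ : ∀ i, δ i ≠ 0) {r : ι → ℕ} {V' : (i : ι) → Fin (r i) → (Fin s → ℝ) → ℝ}
    {k η : ι → ℝ} (hη : ∀ i, 0 < η i) (hF : ∀ i, FewL z (e i) (V' i) (k i) (η i))
    (hI : ∀ i, ∀ P : Fin (r i) → MvPolynomial (Fin s) ℚ,
      (∀ θ ∈ Om z (e i), ∑ j, aeval θ (P j) * V' i j θ = 0) → ∀ j, P j = 0) :
    ∃ η₀ : ℝ, 0 < η₀ ∧ ∀ S : Set (Fin s → ℝ), IsCompact S → (∀ θ ∈ S, aeval θ z ≠ 0) → ∃ C : ℝ, 0 < C ∧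
      ∀ T : ℕ, 1 ≤ T → ∀ D : Fin s → ℕ, (∀ i, T ≤ D i) → ∀ B : Set (Fin s → ℚ),
        (∀ θ ∈ B, InLattice D θ ∧ cst θ ∈ S ∧ ∀ i, cst θ ∈ Om z (e i) → eval θ (δ i) ≠ 0 → RelE (V' i) (k i) T θ) →
          (B.ncard : ℝ) ≤ C * (T : ℝ) ^ (-η₀) * ∏ i, (D i : ℝ) := by
  classical
  rcases Nat.eq_zero_or_pos s with hs | hs
  · subst hs
    refine ⟨1, one_pos, fun S _ _ => ⟨1, one_pos, fun T hT D hD B hB => ?_⟩⟩
    have hne : B = ∅ := by
      by_contra hne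
      obtain ⟨θ, hθ⟩ := Set.nonempty_iff_ne_empty.2 hne
      obtain ⟨-, -, hR⟩ := hB θ hθ
      have hz1 : aeval (cst θ) z ≠ 0 := by
        rw [XD5_rat]
        intro h
        apply hz
        rw [MvPolynomial.eq_C_of_isEmpty z] at h ⊢
        rw [MvPolynomial.eval_C] at h
        rw [Rat.cast_eq_zero.1 h, map_zero]
      obtain ⟨i, hi⟩ := hE (cst θ) hz1
      have hd : eval θ (δ i) ≠ 0 := by
        intro h
        apply hδ i
        rw [MvPolynomial.eq_C_of_isEmpty (δ i), MvPolynomial.eval_C] at h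
        rw [MvPolynomial.eq_C_of_isEmpty (δ i), h, map_zero]
      obtain ⟨cc, hcc, -, hsum⟩ := hR i hi hd
      apply hcc
      funext j
      have h := hI i (fun j => C (cc j : ℚ)) (by
        intro θ' _
        rw [Subsingleton.elim θ' (cst θ)]
        rw [← hsum]
        apply Finset.sum_congr rfl
        intro j _
        rw [MvPolynomial.aeval_C]
        simp) j
      have h' : (cc j : ℚ) = 0 := by
        have h'' := congrArg (coeff 0) h
        rwa [coeff_zero_C, coeff_zero] at h''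
      exact_mod_cast h'
    rw [hne, Set.ncard_empty, Nat.cast_zero]
    positivity
  · obtain ⟨η', hη'def⟩ : ∃ η' : ι → ℝ, η' = fun _ => 1 := ⟨_, rfl⟩
    have hη' : ∀ i, 0 < η' i := fun i => by rw [hη'def]; exact one_pos
    obtain ⟨η₀, hη₀def⟩ : ∃ η₀ : ℝ, η₀ = ∏ i, min (min (η i) (η' i)) 1 := ⟨_, rfl⟩
    have hm0 : ∀ i, 0 < min (min (η i) (η' i)) 1 := fun i => lt_min (lt_min (hη i) (hη' i)) one_pos
    have hη₀ : 0 < η₀ := by
      rw [hη₀def]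
      exact Finset.prod_pos fun i _ => hm0 i
    have hη₂ : ∀ i, η₀ ≤ min (η i) (η' i) := by
      intro i
      rw [hη₀def, ← Finset.mul_prod_erase Finset.univ _ (Finset.mem_univ i)]
      calc min (min (η i) (η' i)) 1 * ∏ j ∈ Finset.univ.erase i, min (min (η j) (η' j)) 1
          ≤ min (min (η i) (η' i)) 1 * 1 := by
            refine mul_le_mul_of_nonneg_left ?_ (hm0 i).le
            exact Finset.prod_le_one (fun i _ => (hm0 i).le) fun i _ => min_le_right _ _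
        _ ≤ min (η i) (η' i) := by
            rw [mul_one]
            exact min_le_left _ _
    refine ⟨η₀, hη₀, fun S hSc hSz => ?_⟩
    have hfew := fun i => hF i S hSc hSz
    choose C hC hbd using hfew
    have hzer := fun i => few_zerosLE hs (hδ i) hSc
    choose C' hC' hbd' using hzer
    have h1 : 0 ≤ ∑ i, C' i := Finset.sum_nonneg fun i _ => (hC' i).le
    have h2 : 0 ≤ ∑ i, C i := Finset.sum_nonneg fun i _ => (hC i).le
    refine ⟨∑ i, C' i + ∑ i, C i + 1, by positivity, fun T hT D hD B hB => ?_⟩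
    have hT1 : (1 : ℝ) ≤ T := by exact_mod_cast hT
    have hTpos : (0 : ℝ) < T := lt_of_lt_of_le one_pos hT1
    obtain ⟨Q, h, hh, hQ, hcov⟩ := coset_cover hT D hD
    obtain ⟨R, hR⟩ := hSc.isBounded.exists_norm_le
    set U₁ : (Fin s → ℚ) → ι → Set (Fin s → ℚ) := fun a i => {θ | InC a h θ ∧ cst θ ∈ S ∧ aeval (cst θ) (δ i) = (0 : ℝ)}
      with hU₁
    set U₂ : (Fin s → ℚ) → ι → Set (Fin s → ℚ) := fun a i => {θ | InC a h θ ∧ cst θ ∈ S ∩ Om z (e i) ∧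
        RelE (V' i) (k i) T θ}
      with hU₂
    have hfin : ∀ a, ((⋃ i, U₁ a i) ∪ ⋃ i, U₂ a i).Finite := by
      intro a
      refine (finite_box (a := a) hh R).subset ?_
      rintro θ (h | h)
      · obtain ⟨i, hi⟩ := Set.mem_iUnion.1 h
        exact ⟨hi.1, fun i => (norm_le_pi_norm (cst θ) i).trans (hR _ hi.2.1)⟩
      · obtain ⟨i, hi⟩ := Set.mem_iUnion.1 h
        exact ⟨hi.1, fun i => (norm_le_pi_norm (cst θ) i).trans (hR _ hi.2.1.1)⟩
    have hsub : B ⊆ ⋃ a ∈ Q, ((⋃ i, U₁ a i) ∪ ⋃ i, U₂ a i) := by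
      intro θ hθ
      obtain ⟨hH, hθS, hR⟩ := hB θ hθ
      obtain ⟨a, haQ, ha⟩ := hcov θ hH
      obtain ⟨i, hi⟩ := hE (cst θ) (hSz _ hθS)
      refine Set.mem_iUnion₂.2 ⟨a, haQ, ?_⟩
      by_cases hd : eval θ (δ i) = 0
      · left
        refine Set.mem_iUnion.2 ⟨i, ha, hθS, ?_⟩
        rw [XD5_rat, hd, Rat.cast_zero]
      · exact Or.inr (Set.mem_iUnion.2 ⟨i, ha, ⟨hθS, hi⟩, hR i hi hd⟩)
    have hone : ∀ a ∈ Q, (((((⋃ i, U₁ a i) ∪ ⋃ i, U₂ a i)).ncard : ℕ) : ℝ) ≤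
        (∑ i, C' i + ∑ i, C i) * (T : ℝ) ^ ((s : ℝ) - η₀) := by
      intro a _
      have hc1 : ((⋃ i, U₁ a i) ∪ ⋃ i, U₂ a i).ncard ≤ ∑ i, (U₁ a i).ncard + ∑ i, (U₂ a i).ncard := by
        refine (Set.ncard_union_le _ _).trans ?_
        exact Nat.add_le_add (Set.ncard_iUnion_le_of_fintype (U₁ a)) (Set.ncard_iUnion_le_of_fintype (U₂ a))
      have hc2 : (((((⋃ i, U₁ a i) ∪ ⋃ i, U₂ a i)).ncard : ℕ) : ℝ) ≤ ∑ i, ((U₁ a i).ncard : ℝ) + ∑ i, ((U₂ a i).ncard : ℝ) := by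
        exact_mod_cast hc1
      have hk1 : ∑ i, ((U₁ a i).ncard : ℝ) ≤ (∑ i, C' i) * (T : ℝ) ^ ((s : ℝ) - η₀) := by
        rw [Finset.sum_mul]
        refine Finset.sum_le_sum fun i _ => (hbd' i T hT a h hh).trans ?_
        refine mul_le_mul_of_nonneg_left ?_ (hC' i).le
        refine Real.rpow_le_rpow_of_exponent_le hT1 ?_
        have h8 : η' i = 1 := by rw [hη'def]
        linarith [hη₂ i, min_le_right (η i) (η' i)]
      have hk2 : ∑ i, ((U₂ a i).ncard : ℝ) ≤ (∑ i, C i) * (T : ℝ) ^ ((s : ℝ) - η₀) := by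
        rw [Finset.sum_mul]
        refine Finset.sum_le_sum fun i _ => (hbd i T hT a h hh).trans ?_
        refine mul_le_mul_of_nonneg_left ?_ (hC i).le
        exact Real.rpow_le_rpow_of_exponent_le hT1 (by linarith [hη₂ i, min_le_left (η i) (η' i)])
      calc _ ≤ _ := hc2
        _ ≤ (∑ i, C' i) * (T : ℝ) ^ ((s : ℝ) - η₀) + (∑ i, C i) * (T : ℝ) ^ ((s : ℝ) - η₀) := add_le_add hk1 hk2
        _ = _ := by ring
    have hfin2 : (⋃ a ∈ Q, ((⋃ i, U₁ a i) ∪ ⋃ i, U₂ a i)).Finite := Q.finite_toSet.biUnion fun a _ => hfin a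
    have hcard : (B.ncard : ℝ) ≤ ∑ a ∈ Q, (((((⋃ i, U₁ a i) ∪ ⋃ i, U₂ a i)).ncard : ℕ) : ℝ) := by
      have h3 : B.ncard ≤ ∑ a ∈ Q, ((⋃ i, U₁ a i) ∪ ⋃ i, U₂ a i).ncard :=
        (Set.ncard_le_ncard hsub hfin2).trans (Finset.set_ncard_biUnion_le Q _)
      exact_mod_cast h3
    calc (B.ncard : ℝ) ≤ ∑ a ∈ Q, (((((⋃ i, U₁ a i) ∪ ⋃ i, U₂ a i)).ncard : ℕ) : ℝ) := hcard
      _ ≤ ∑ _a ∈ Q, (∑ i, C' i + ∑ i, C i) * (T : ℝ) ^ ((s : ℝ) - η₀) := Finset.sum_le_sum hone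
      _ = (∑ i, C' i + ∑ i, C i) * (T : ℝ) ^ (-η₀) * ((Q.card : ℝ) * (T : ℝ) ^ s) := by
          rw [Finset.sum_const, nsmul_eq_mul, sub_eq_add_neg, Real.rpow_add hTpos, Real.rpow_natCast]
          ring
      _ ≤ (∑ i, C' i + ∑ i, C i) * (T : ℝ) ^ (-η₀) * ∏ i, (D i : ℝ) := by
          refine mul_le_mul_of_nonneg_left hQ ?_
          have := Real.rpow_pos_of_pos hTpos (-η₀)
          positivity
      _ ≤ (∑ i, C' i + ∑ i, C i + 1) * (T : ℝ) ^ (-η₀) * ∏ i, (D i : ℝ) := by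
          have h4 := Real.rpow_pos_of_pos hTpos (-η₀)
          have h5 : 0 ≤ ∏ i, (D i : ℝ) := Finset.prod_nonneg fun i _ => Nat.cast_nonneg _
          refine mul_le_mul_of_nonneg_right (mul_le_mul_of_nonneg_right ?_ h4.le) h5
          linarith

end Pool.Agent.Lib.MP_bbe012_lc.XS
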