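import Pool.Agent.Lib.MP_bbe012_lc.XS.D1
import Pool.Agent.Lib.MP_bbe012_lc.PL.L8

/-!
# LEAF XD6 (easy+): integer points, for families which are homogeneous in the parameters

PROOF.  `und_scaleE`: copy of `und_scale` in `PL/L8.lean` (source on main) with the size `N` instead of `T` in `InN`, `Bdd`, `ItemN` (the scaling factor is still `T`): in `hbd` use `Bdd A N q a → Bdd (A + E + 1) N (q * N' ) (a / T ^ w)` with the denominator `q * T ^ E` and `T ^ E ≤ N ^ E` (`q * T ^ E ≤ N ^ A * N ^ E`).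
`und_mono`: `InN.mono` (`PL/L7.lean`).
`int_pointsE`: copy of `int_points` in `PL/L8.lean`: `A'` from `und_scaleE`, `k` and the density statement from `H A'`, `T ≤ eT k T` for large `T` (`pow_le_eT` with `m = 1`, `XS/D1.lean`); `D = fun _ => T`, and `T ≤ eT k T` gives `T ≤ D i ∧ D i ≤ eT k T`.
-/

namespace Pool.Agent.Lib.MP_bbe012_lc.XS

open MvPolynomial MeasureTheory Set PP PG PM PN PL Filter Topology

private theorem XD6_mon {s : ℕ} {F : Sup s} {e : Fin F.r → ℕ}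
    (he : ∀ j, ∀ (t : ℚ) (θ : Fin s → ℚ), spz (F.g j) (fun i => t * θ i) = C (t ^ e j) * spz (F.g j) θ)
    {t : ℚ} (ht : t ≠ 0) {θ : Fin s → ℚ} {c : ℚ} {κ : Fin F.r → ℕ} {p : MvPolynomial (Fin F.n) ℚ}
    (h : IsMon F (fun i => t * θ i) c κ p) : IsMon F θ (c * t ^ (∑ j, e j * κ j)) κ p := by
  obtain ⟨h1, h2⟩ := h
  refine ⟨mul_ne_zero h1 (pow_ne_zero _ ht), ?_⟩
  rw [h2, C_mul, mul_assoc]
  congr 1
  have h3 : ∀ j, spz (F.g j) (fun i => t * θ i) ^ κ j = C (t ^ (e j * κ j)) * spz (F.g j) θ ^ κ j := by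
    intro j
    rw [he j t θ, mul_pow, ← C_pow, ← pow_mul]
  rw [Finset.prod_congr rfl fun j _ => h3 j, Finset.prod_mul_distrib]
  congr 1
  rw [← Finset.prod_pow_eq_pow_sum, map_prod]

theorem und_mono {s μ : ℕ} {F : Fin μ → Sup s} (f : PCode × List PeriodCode →. Bool) (A : ℕ) {N N' : ℕ} (h : N ≤ N')
    (hN : 1 ≤ N') : Undecided F f A N ⊆ Undecided F f A N' := by
  rintro θ ⟨x, hx, hfx⟩
  exact ⟨x, InN.mono hN h hx, hfx⟩

theorem und_scaleE {s μ : ℕ} {F : Fin μ → Sup s} (hF : Homog F) (f : PCode × List PeriodCode →. Bool) (A : ℕ) :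
    ∃ A' : ℕ, 1 ≤ A' ∧ ∀ T N : ℕ, 1 ≤ T → T ≤ N → ∀ θ : Fin s → ℚ, (fun i => (T : ℚ) * θ i) ∈ Undecided F f A N →
      θ ∈ Undecided F f A' N := by
  classical
  choose e he using hF
  obtain ⟨E, hE⟩ : ∃ E, E = A * ∑ k, ∑ j, e k j := ⟨_, rfl⟩
  refine ⟨A + E + 1, by omega, fun T N hT hTN θ hθ => ?_⟩
  obtain ⟨x, ⟨h1, h2, h3, q, hq1, hq2, h4, h5⟩, hfx⟩ := hθ
  have hT0 : (T : ℚ) ≠ 0 := by
    have : T ≠ 0 := by omega
    exact_mod_cast this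
  have hT1 : (1 : ℚ) ≤ T := by exact_mod_cast hT
  have hN : 1 ≤ N := hT.trans hTN
  have hN1 : (1 : ℚ) ≤ N := by exact_mod_cast hN
  have hpow : N ^ A ≤ N ^ (A + E + 1) := Nat.pow_le_pow_right hN (by omega)
  have hpowq : (N : ℚ) ^ A ≤ (N : ℚ) ^ (A + E + 1) := pow_le_pow_right₀ hN1 (by omega)
  have hbd : ∀ a : ℚ, ∀ w ≤ E, Bdd A N q a → Bdd (A + E + 1) N (q * T ^ E) (a / (T : ℚ) ^ w) := by
    rintro a w hw ⟨b1, x, b2⟩
    have hw1 : (1 : ℚ) ≤ (T : ℚ) ^ w := one_le_pow₀ hT1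
    constructor
    · rw [abs_div, abs_of_pos (lt_of_lt_of_le one_pos hw1)]
      exact (div_le_self (abs_nonneg _) hw1).trans (b1.trans hpowq)
    · refine ⟨x * (T : ℤ) ^ (E - w), ?_⟩
      push_cast
      rw [← b2]
      have h6 : (T : ℚ) ^ E = (T : ℚ) ^ (E - w) * (T : ℚ) ^ w := by
        rw [← pow_add]
        congr 1
        omega
      rw [h6]
      field_simp
  have hI : ∀ {k : Fin μ} {I : IntCode}, ItemN (F k) A N q (fun i => (T : ℚ) * θ i) I →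
      ItemN (F k) (A + E + 1) N (q * T ^ E) θ I := by
    rintro k I ⟨a1, ⟨c, κ, a2, a3, a4⟩, a5, a6⟩
    have hw : ∑ j, e k j * κ j ≤ E := by
      rw [hE, Finset.mul_sum]
      calc ∑ j, e k j * κ j ≤ ∑ j, A * e k j := by
            refine Finset.sum_le_sum fun j _ => ?_
            rw [mul_comm]
            exact Nat.mul_le_mul_right _ (a3 j)
        _ = A * ∑ j, e k j := by rw [Finset.mul_sum]
        _ ≤ ∑ k, A * ∑ j, e k j :=
            Finset.single_le_sum (f := fun k => A * ∑ j, e k j) (fun _ _ => Nat.zero_le _) (Finset.mem_univ k)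
    refine ⟨a1, ⟨_, κ, XD6_mon (he k) hT0 a2, fun j => (a3 j).trans (by omega), fun u => ?_⟩, ?_, a6.trans (by omega)⟩
    · rw [← div_div]
      exact hbd _ _ hw (a4 u)
    · intro t ht
      obtain ⟨c', κ', h⟩ := a5 t ht
      exact ⟨_, κ', XD6_mon (he k) hT0 h⟩
  refine ⟨x, ⟨h1, h2.trans hpow, h3.trans (by omega), q * T ^ E, ?_, ?_, ?_, ?_⟩, hfx⟩
  · exact Nat.mul_pos hq1 (pow_pos (by omega) _)
  · calc q * T ^ E ≤ N ^ A * N ^ E := Nat.mul_le_mul hq2 (Nat.pow_le_pow_left hTN _)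
      _ = N ^ (A + E) := (pow_add _ _ _).symm
      _ ≤ N ^ (A + E + 1) := Nat.pow_le_pow_right hN (by omega)
  · intro u
    have h6 := hbd _ 0 (Nat.zero_le _) (h4 u)
    rwa [pow_zero, div_one] at h6
  · intro X hX
    obtain ⟨⟨k, hk⟩, l, hl⟩ := h5 X hX
    exact ⟨⟨k, hI hk⟩, l, hI hl⟩

theorem int_pointsE {s μ : ℕ} {F : Fin μ → Sup s} (hF : Homog F) {f : PCode × List PeriodCode →. Bool}
    (H : ∀ A : ℕ, ∃ k : ℝ, 0 < k ∧ ∀ (R : ℕ) (ε : ℝ), 0 < ε → ∃ T₀ : ℕ, ∀ T : ℕ, T₀ ≤ T → ∀ D : Fin s → ℕ,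
      (∀ i, T ≤ D i ∧ D i ≤ eT k T) →
        ({θ ∈ Undecided F f A (eT k T) | InLattice D θ ∧ ∀ i, |(θ i : ℝ)| ≤ R}.ncard : ℝ) ≤ ε * ∏ i, (D i : ℝ)) (A : ℕ) :
    ∃ k : ℝ, 0 < k ∧ Tendsto (fun T : ℕ =>
      ({c : Fin s → ℤ | (∀ i, |c i| ≤ T) ∧ (fun i => (c i : ℚ)) ∈ Undecided F f A (eT k T)}.ncard : ℝ) /
        (2 * (T : ℝ) + 1) ^ s) atTop (𝓝 0) := by
  classical
  obtain ⟨A', hA', hsc⟩ := und_scaleE hF f A
  obtain ⟨k, hk, H'⟩ := H A'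
  refine ⟨k, hk, ?_⟩
  rw [Metric.tendsto_atTop]
  intro ε hε
  obtain ⟨T₀, hT₀⟩ := H' 1 (ε / 2) (half_pos hε)
  obtain ⟨T₁, hT₁⟩ := pow_le_eT hk 1
  refine ⟨max (max T₀ 1) T₁, fun T hT => ?_⟩
  have hT1 : 1 ≤ T := le_trans (le_max_right _ _) (le_trans (le_max_left _ _) hT)
  have hT2 : T₀ ≤ T := le_trans (le_max_left _ _) (le_trans (le_max_left _ _) hT)
  have hTe : T ≤ eT k T := by
    have h0 := hT₁ T (le_trans (le_max_right _ _) hT)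
    rwa [pow_one] at h0
  have hTq : (0 : ℚ) < T := by exact_mod_cast hT1
  have hTr : (0 : ℝ) < T := by exact_mod_cast hT1
  have h1 := hT₀ T hT2 (fun _ => T) (fun _ => ⟨le_rfl, hTe⟩)
  have hfin : {θ ∈ Undecided F f A' (eT k T) | InLattice (fun _ => T) θ ∧ ∀ i, |(θ i : ℝ)| ≤ ((1 : ℕ) : ℝ)}.Finite := by
    obtain ⟨Q, h, hh, -, hcov⟩ := coset_cover (s := s) hT1 (fun _ => T) fun i => le_rfl
    refine (Q.finite_toSet.biUnion fun a _ => finite_box (a := a) hh ((1 : ℕ) : ℝ)).subset ?_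
    rintro θ ⟨-, h1, h2⟩
    obtain ⟨a, haQ, ha⟩ := hcov θ h1
    exact Set.mem_iUnion₂.2 ⟨a, haQ, ha, h2⟩
  have h2 : {c : Fin s → ℤ | (∀ i, |c i| ≤ T) ∧ (fun i => (c i : ℚ)) ∈ Undecided F f A (eT k T)}.ncard ≤
      {θ ∈ Undecided F f A' (eT k T) | InLattice (fun _ => T) θ ∧ ∀ i, |(θ i : ℝ)| ≤ ((1 : ℕ) : ℝ)}.ncard := by
    refine Set.ncard_le_ncard_of_injOn (fun c i => (c i : ℚ) / (T : ℚ)) ?_ ?_ hfin
    · rintro c ⟨h3, h4⟩
      refine ⟨hsc T (eT k T) hT1 hTe _ ?_, ?_, ?_⟩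
      · have e : (fun i => (T : ℚ) * ((c i : ℚ) / (T : ℚ))) = fun i => (c i : ℚ) := by
          funext i
          field_simp
        rw [e]
        exact h4
      · intro i
        refine ⟨c i, ?_⟩
        field_simp
      · intro i
        have h5 : (|(c i : ℝ)|) ≤ T := by
          have h6 := h3 i
          have h7 : ((|c i| : ℤ) : ℝ) ≤ (((T : ℕ) : ℤ) : ℝ) := by exact_mod_cast h6
          rw [Int.cast_abs] at h7
          exact_mod_cast h7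
        push_cast
        rw [abs_div, abs_of_pos hTr, div_le_one hTr]
        exact h5
    · intro c _ c' _ h
      funext i
      have h3 : (c i : ℚ) / (T : ℚ) = (c' i : ℚ) / (T : ℚ) := congrFun h i
      rw [div_left_inj' hTq.ne'] at h3
      exact_mod_cast h3
  have h3 : ({c : Fin s → ℤ | (∀ i, |c i| ≤ T) ∧ (fun i => (c i : ℚ)) ∈ Undecided F f A (eT k T)}.ncard : ℝ) ≤ ε / 2 * (T : ℝ) ^ s := by
    have h4 : ({c : Fin s → ℤ | (∀ i, |c i| ≤ T) ∧ (fun i => (c i : ℚ)) ∈ Undecided F f A (eT k T)}.ncard : ℝ) ≤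
        ({θ ∈ Undecided F f A' (eT k T) | InLattice (fun _ => T) θ ∧ ∀ i, |(θ i : ℝ)| ≤ ((1 : ℕ) : ℝ)}.ncard : ℝ) := by exact_mod_cast h2
    refine h4.trans (h1.trans (le_of_eq ?_))
    rw [Finset.prod_const, Finset.card_univ, Fintype.card_fin]
  have h5 : (T : ℝ) ^ s ≤ (2 * (T : ℝ) + 1) ^ s := pow_le_pow_left₀ hTr.le (by linarith) s
  have h6 : 0 < (2 * (T : ℝ) + 1) ^ s := by positivity
  rw [Real.dist_eq, sub_zero, abs_of_nonneg (div_nonneg (Nat.cast_nonneg _) h6.le), div_lt_iff₀ h6]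
  calc _ ≤ ε / 2 * (T : ℝ) ^ s := h3
    _ ≤ ε / 2 * (2 * (T : ℝ) + 1) ^ s := mul_le_mul_of_nonneg_left h5 (by linarith)
    _ < ε * (2 * (T : ℝ) + 1) ^ s := mul_lt_mul_of_pos_right (by linarith) h6

end Pool.Agent.Lib.MP_bbe012_lc.XS
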