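import Pool.Agent.Lib.MP_bbe012_lc.XS.F21
import Pool.Agent.Lib.MP_bbe012_lc.XS.B7
import Pool.Agent.Lib.MP_bbe012_lc.XS.BL7
import Pool.Agent.Lib.MP_bbe012_lc.XS.C5
import Pool.Agent.Lib.MP_bbe012_lc.XS.D0

/-!
# Few relations of exponential size, on one component
-/

namespace Pool.Agent.Lib.MP_bbe012_lc.XS

open MvPolynomial MeasureTheory Set PP PG PM PN PL Filter Topology

private theorem D7_cont {s : ℕ} (z : MvPolynomial (Fin s) ℚ) : Continuous fun θ : Fin s → ℝ => (aeval θ z : ℝ) := by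
  have h : (fun θ : Fin s → ℝ => (aeval θ z : ℝ)) = fun θ => eval θ (map (algebraMap ℚ ℝ) z) := by
    funext θ
    rw [eval_map, aeval_def]
  rw [h]
  exact MvPolynomial.continuous_eval _

private theorem D7_open {s : ℕ} (z : MvPolynomial (Fin s) ℚ) (e : Fin s → ℚ) : IsOpen (Om z e) := by
  have hop : IsOpen {θ : Fin s → ℝ | aeval θ z ≠ 0} := isOpen_ne_fun (D7_cont z) continuous_const
  exact hop.connectedComponentIn

private theorem D7_compact {s : ℕ} {z : MvPolynomial (Fin s) ℚ} {e : Fin s → ℚ} {S : Set (Fin s → ℝ)} (hS : IsCompact S)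
    (hSz : ∀ θ ∈ S, aeval θ z ≠ 0) : IsCompact (S ∩ Om z e) := by
  have hop : IsOpen {θ : Fin s → ℝ | aeval θ z ≠ 0} := isOpen_ne_fun (D7_cont z) continuous_const
  have hcl : IsClosed (S ∩ Om z e) := by
    have e1 : S ∩ Om z e = S ∩ (⋃ θ ∈ {θ : Fin s → ℝ | aeval θ z ≠ 0} \ Om z e,
        connectedComponentIn {θ : Fin s → ℝ | aeval θ z ≠ 0} θ)ᶜ := by
      ext θ
      simp only [Set.mem_inter_iff, Set.mem_compl_iff, Set.mem_iUnion, not_exists]
      refine and_congr_right fun hθ => ⟨fun h θ' hθ' h2 => ?_, fun h => ?_⟩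
      · have h3 : connectedComponentIn {θ : Fin s → ℝ | aeval θ z ≠ 0} θ' =
            connectedComponentIn {θ : Fin s → ℝ | aeval θ z ≠ 0} θ := connectedComponentIn_eq h2
        have h4 : connectedComponentIn {θ : Fin s → ℝ | aeval θ z ≠ 0} (cst e) =
            connectedComponentIn {θ : Fin s → ℝ | aeval θ z ≠ 0} θ := connectedComponentIn_eq h
        apply hθ'.2
        rw [Om, h4, ← h3]
        exact mem_connectedComponentIn hθ'.1
      · by_contra h2
        exact h θ ⟨hSz θ hθ, h2⟩ (mem_connectedComponentIn (hSz θ hθ))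
    rw [e1]
    refine hS.isClosed.inter (isOpen_biUnion fun θ _ => ?_).isClosed_compl
    exact hop.connectedComponentIn
  exact hS.of_isClosed_subset hcl Set.inter_subset_left

/-- Few exceptional relations of exponential size, ordered by height and in translates of lattices, on the component of the rational point `e`. -/
theorem few_relE {s r : ℕ} (hs : 0 < s) {z : MvPolynomial (Fin s) ℚ} {e : Fin s → ℚ} (he : aeval (cst e) z ≠ (0 : ℝ))
    {V' : Fin r → (Fin s → ℝ) → ℝ} (hV : ∀ i, AnalyticOnNhd ℝ (V' i) (Om z e)) (hd : ∀ i, DF e (V' i))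
    (hI : ∀ P : Fin r → MvPolynomial (Fin s) ℚ, (∀ θ ∈ Om z e, ∑ i, aeval θ (P i) * V' i θ = 0) → ∀ i, P i = 0) :
    ∃ k η k' η' : ℝ, 0 < k ∧ 0 < η ∧ 0 < k' ∧ 0 < η' ∧ FewE z e V' k η ∧ FewL z e V' k' η' := by
  have hpf : PfHyp (Om z e) V' := by
    obtain ⟨N, Y, δ, Γ, R, h1, h2, h3, h4⟩ := DF.family hd
    exact ⟨N, e, Y, δ, Γ, R, mem_connectedComponentIn he, h1, h2, h3, h4⟩
  obtain ⟨a, ha⟩ := fam_point (D7_open z e) isPreconnected_connectedComponentIn hV hpf
  obtain ⟨k, η, hk, hη, H⟩ := count_exp hs r a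
  obtain ⟨k', η', hk', hη', H'⟩ := count_expL hs r a
  refine ⟨k, η, k', η', hk, hη, hk', hη', fun S hS hSz => ?_, fun S hS hSz => ?_⟩
  · have hc := D7_compact (e := e) hS hSz
    obtain ⟨r₁, C, hr₁, hC, hF⟩ := ha _ hc Set.inter_subset_right
    have hW : WHyp (Om z e) (S ∩ Om z e) V' :=
      { op := D7_open z e
        conn := isPreconnected_connectedComponentIn
        compact := hc
        sub := Set.inter_subset_right
        ana := hV
        indep := hI }
    exact H hW hr₁ hC hF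
  · have hc := D7_compact (e := e) hS hSz
    obtain ⟨r₁, C, hr₁, hC, hF⟩ := ha _ hc Set.inter_subset_right
    have hW : WHyp (Om z e) (S ∩ Om z e) V' :=
      { op := D7_open z e
        conn := isPreconnected_connectedComponentIn
        compact := hc
        sub := Set.inter_subset_right
        ana := hV
        indep := hI }
    exact H' hW hr₁ hC hF

end Pool.Agent.Lib.MP_bbe012_lc.XS
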