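import Pool.Agent.Lib.MP_bbe012_lc.XS.D0

/-!
# LEAF XD9 (easy+): points of the lattice `∏ (1 / D_i) ℤ` in a box; few relations without parameters

PROOF.  `lat_triv`: the map `θ ↦ (k_i)`, `k_i = D_i θ_i` (an integer, the numerator of `(D i : ℚ) * θ i`), is injective on the set and maps it into `Fintype.piFinset fun i => Finset.Icc (- (R * D i : ℤ)) (R * D i)`, which has `∏ i, (2 R D i + 1) ≤ ∏ i, (2 R + 1) (D i) = (2 R + 1) ^ s ∏ i, D i` elements (`Int.card_Icc`, `Finset.prod_le_prod`, `Finset.prod_mul_distrib`).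
Or: the set is the image of that `Finset` under `k ↦ fun i => (k i : ℚ) / D i` intersected with something: `Set.Finite.subset`, `Set.ncard_image_le`, `Set.ncard_le_ncard`.
`hle_lat`: copy of the private theorems `l7_div` and `l7_hle` of `PL/L7.lean` (source on main): `x = k / D`, `|k| ≤ D R ≤ N R`, the denominator divides `D ≤ N ≤ N R`.
`few_zeroE`: for `s = 0` there is only one point; a relation `∑ cc_j V_j(θ) = 0` contradicts `hI` for the constants `P j = C (cc j)` (copy of the end of the proof of the private theorem `fz_zero` in `PL/L7.lean`), so the sets in `FewE` and `FewL` are empty; `C = 1`.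
-/

namespace Pool.Agent.Lib.MP_bbe012_lc.XS

open MvPolynomial MeasureTheory Set PP PG PM PN PL Filter Topology

private theorem XD9_abs {R D : ℕ} (hD : 1 ≤ D) {x : ℚ} {k : ℤ} (hk : (D : ℚ) * x = k) (hx : |(x : ℝ)| ≤ R) :
    x = (k : ℚ) / (D : ℚ) ∧ k.natAbs ≤ D * R := by
  have hD0 : (0 : ℚ) < D := by exact_mod_cast hD
  have hx' : |x| ≤ (R : ℚ) := by
    have h1 : ((|x| : ℚ) : ℝ) ≤ ((R : ℚ) : ℝ) := by
      push_cast
      exact hx
    exact_mod_cast h1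
  refine ⟨?_, ?_⟩
  · rw [eq_div_iff hD0.ne', mul_comm]
    exact hk
  · have h1 : ((k.natAbs : ℕ) : ℚ) ≤ (D : ℚ) * R := by
      rw [Nat.cast_natAbs, Int.cast_abs, ← hk, abs_mul, abs_of_pos hD0]
      exact mul_le_mul_of_nonneg_left hx' hD0.le
    exact_mod_cast h1

theorem lat_triv {s : ℕ} (R : ℕ) {D : Fin s → ℕ} (hD : ∀ i, 1 ≤ D i) :
    {θ : Fin s → ℚ | InLattice D θ ∧ ∀ i, |(θ i : ℝ)| ≤ R}.Finite ∧
      ({θ : Fin s → ℚ | InLattice D θ ∧ ∀ i, |(θ i : ℝ)| ≤ R}.ncard : ℝ) ≤ (2 * (R : ℝ) + 1) ^ s * ∏ i, (D i : ℝ) := by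
  classical
  obtain ⟨t, ht⟩ : ∃ t : Fin s → Finset ℚ, t = fun i =>
      (Finset.Icc (-((D i * R : ℕ) : ℤ)) ((D i * R : ℕ) : ℤ)).image fun k : ℤ => (k : ℚ) / (D i : ℚ) := ⟨_, rfl⟩
  have hsub : {θ : Fin s → ℚ | InLattice D θ ∧ ∀ i, |(θ i : ℝ)| ≤ R} ⊆ (Fintype.piFinset t : Set (Fin s → ℚ)) := by
    rintro θ ⟨h1, h2⟩
    rw [Finset.mem_coe, Fintype.mem_piFinset]
    intro i
    obtain ⟨k, hk⟩ := h1 i
    obtain ⟨h3, h4⟩ := XD9_abs (hD i) hk (h2 i)
    rw [ht, Finset.mem_image]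
    refine ⟨k, ?_, h3.symm⟩
    rw [Finset.mem_Icc]
    omega
  have hcard : ∀ i, ((t i).card : ℝ) ≤ (2 * (R : ℝ) + 1) * (D i : ℝ) := by
    intro i
    have h1 : (t i).card ≤ 2 * (D i * R) + 1 := by
      rw [ht]
      refine Finset.card_image_le.trans ?_
      rw [Int.card_Icc]
      omega
    have h2 : ((t i).card : ℝ) ≤ 2 * ((D i : ℝ) * R) + 1 := by exact_mod_cast h1
    have h3 : (1 : ℝ) ≤ D i := by exact_mod_cast hD i
    nlinarith
  refine ⟨(Finset.finite_toSet _).subset hsub, ?_⟩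
  have h1 : ({θ : Fin s → ℚ | InLattice D θ ∧ ∀ i, |(θ i : ℝ)| ≤ R}).ncard ≤ (Fintype.piFinset t).card := by
    rw [← Set.ncard_coe_finset]
    exact Set.ncard_le_ncard hsub (Finset.finite_toSet _)
  calc (({θ : Fin s → ℚ | InLattice D θ ∧ ∀ i, |(θ i : ℝ)| ≤ R}).ncard : ℝ) ≤ ((Fintype.piFinset t).card : ℝ) := by
        exact_mod_cast h1
    _ = ∏ i, ((t i).card : ℝ) := by
        rw [Fintype.card_piFinset]
        push_cast
        rfl
    _ ≤ ∏ i, ((2 * (R : ℝ) + 1) * (D i : ℝ)) :=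
        Finset.prod_le_prod (fun i _ => Nat.cast_nonneg _) fun i _ => hcard i
    _ = (2 * (R : ℝ) + 1) ^ s * ∏ i, (D i : ℝ) := by
        rw [Finset.prod_mul_distrib, Finset.prod_const, Finset.card_univ, Fintype.card_fin]

theorem hle_lat {N R D : ℕ} (hD : 1 ≤ D) (hDN : D ≤ N) (hR : 1 ≤ R) {x : ℚ} (hk : ∃ k : ℤ, (D : ℚ) * x = k)
    (hx : |(x : ℝ)| ≤ R) : HLE (N * R) x := by
  obtain ⟨k, hk⟩ := hk
  obtain ⟨h3, h4⟩ := XD9_abs hD hk hx
  have hb' : (D : ℤ) ≠ 0 := by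
    have : 0 < D := hD
    exact_mod_cast this.ne'
  have e : x = Rat.divInt k (D : ℤ) := by
    rw [h3, Rat.divInt_eq_div]
    push_cast
    rfl
  rw [e]
  constructor
  · rcases eq_or_ne k 0 with rfl | h0
    · rw [Rat.zero_divInt]
      simp
    · have h1 := Int.natAbs_dvd_natAbs.2 (Rat.num_dvd k hb')
      exact (Nat.le_of_dvd (Int.natAbs_pos.2 h0) h1).trans (h4.trans (Nat.mul_le_mul_right _ hDN))
  · have h1 := Rat.den_dvd k (D : ℤ)
    have h2 : (Rat.divInt k (D : ℤ)).den ∣ D := by exact_mod_cast h1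
    exact (Nat.le_of_dvd hD h2).trans (hDN.trans (Nat.le_mul_of_pos_right _ (by omega)))

private theorem XD9_norel {r : ℕ} {z : MvPolynomial (Fin 0) ℚ} {e : Fin 0 → ℚ} {V' : Fin r → (Fin 0 → ℝ) → ℝ}
    (hI : ∀ P : Fin r → MvPolynomial (Fin 0) ℚ, (∀ θ ∈ Om z e, ∑ i, aeval θ (P i) * V' i θ = 0) → ∀ i, P i = 0)
    (k : ℝ) (T : ℕ) (θ : Fin 0 → ℚ) : ¬ RelE V' k T θ := by
  rintro ⟨cc, hcc, -, hsum⟩
  apply hcc
  funext j
  have h := hI (fun j => C (cc j : ℚ)) (by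
    intro θ' _
    rw [Subsingleton.elim θ' (cst θ)]
    rw [← hsum]
    apply Finset.sum_congr rfl
    intro j _
    rw [MvPolynomial.aeval_C]
    simp) j
  have h' : (cc j : ℚ) = 0 := by
    have h'' := congrArg (coeff 0) h
    rwa [coeff_zero_C, coeff_zero] at h''
  exact_mod_cast h'

theorem few_zeroE {r : ℕ} {z : MvPolynomial (Fin 0) ℚ} {e : Fin 0 → ℚ} {V' : Fin r → (Fin 0 → ℝ) → ℝ}
    (hI : ∀ P : Fin r → MvPolynomial (Fin 0) ℚ, (∀ θ ∈ Om z e, ∑ i, aeval θ (P i) * V' i θ = 0) → ∀ i, P i = 0) (k η : ℝ) :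
    FewE z e V' k η ∧ FewL z e V' k η := by
  constructor
  · intro S _ _
    refine ⟨1, one_pos, fun T hT => ?_⟩
    have h1 : {θ : Fin 0 → ℚ | (∀ i, HLE T (θ i)) ∧ cst θ ∈ S ∩ Om z e ∧ RelE V' k T θ} = ∅ := by
      ext θ
      constructor
      · rintro ⟨-, -, h⟩
        exact absurd h (XD9_norel hI k T θ)
      · intro h
        exact absurd h (Set.notMem_empty _)
    rw [h1, Set.ncard_empty, Nat.cast_zero]
    positivity
  · intro S _ _
    refine ⟨1, one_pos, fun T hT a₀ h₀ _ => ?_⟩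
    have h1 : {θ : Fin 0 → ℚ | InC a₀ h₀ θ ∧ cst θ ∈ S ∩ Om z e ∧ RelE V' k T θ} = ∅ := by
      ext θ
      constructor
      · rintro ⟨-, -, h⟩
        exact absurd h (XD9_norel hI k T θ)
      · intro h
        exact absurd h (Set.notMem_empty _)
    rw [h1, Set.ncard_empty, Nat.cast_zero]
    positivity

end Pool.Agent.Lib.MP_bbe012_lc.XS
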