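import Pool.Agent.Lib.MP_bbe012_lc.XS.C7
import Pool.Agent.Lib.MP_bbe012_lc.XS.C9
import Pool.Agent.Lib.MP_bbe012_lc.XS.D1
import Pool.Agent.Lib.MP_bbe012_lc.XS.D2
import Pool.Agent.Lib.MP_bbe012_lc.XS.D3
import Pool.Agent.Lib.MP_bbe012_lc.XS.D5
import Pool.Agent.Lib.MP_bbe012_lc.XS.D6
import Pool.Agent.Lib.MP_bbe012_lc.XS.D7
import Pool.Agent.Lib.MP_bbe012_lc.XS.D9

/-!
# Exponential sizes: assembly
-/

namespace Pool.Agent.Lib.MP_bbe012_lc.XS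

open MvPolynomial MeasureTheory Set PP PG PM PN PL Filter Topology

/-- Common exponents for all components. -/
private theorem D8_few {s : ℕ} {ι : Type} [Fintype ι] {z : MvPolynomial (Fin s) ℚ} {e : ι → Fin s → ℚ}
    (he : ∀ i, aeval (cst (e i)) z ≠ (0 : ℝ)) {r : ι → ℕ} {V' : (i : ι) → Fin (r i) → (Fin s → ℝ) → ℝ}
    (hV : ∀ i j, AnalyticOnNhd ℝ (V' i j) (Om z (e i))) (hd : ∀ i j, DF (e i) (V' i j))
    (hI : ∀ i, ∀ P : Fin (r i) → MvPolynomial (Fin s) ℚ,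
      (∀ θ ∈ Om z (e i), ∑ j, aeval θ (P j) * V' i j θ = 0) → ∀ j, P j = 0) :
    ∃ k η k' η' : ι → ℝ, (∀ i, 0 < k i ∧ 0 < η i ∧ 0 < k' i ∧ 0 < η' i) ∧
      (∀ i, FewE z (e i) (V' i) (k i) (η i)) ∧ ∀ i, FewL z (e i) (V' i) (k' i) (η' i) := by
  rcases Nat.eq_zero_or_pos s with hs | hs
  · subst hs
    exact ⟨fun _ => 1, fun _ => 1, fun _ => 1, fun _ => 1, fun _ => ⟨one_pos, one_pos, one_pos, one_pos⟩,
      fun i => (few_zeroE (hI i) 1 1).1, fun i => (few_zeroE (hI i) 1 1).2⟩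
  · choose k η k' η' h1 h2 h3 h4 h5 h6 using fun i => few_relE hs (he i) (hV i) (hd i) (hI i)
    exact ⟨k, η, k', η', fun i => ⟨h1 i, h2 i, h3 i, h4 i⟩, h5, h6⟩

/-- A positive number below finitely many positive numbers. -/
private theorem D8_min {ι : Type} [Fintype ι] {k : ι → ℝ} (hk : ∀ i, 0 < k i) : ∃ κ : ℝ, 0 < κ ∧ ∀ i, κ < k i := by
  classical
  obtain ⟨m, hm⟩ : ∃ m : ℝ, m = ∏ i, min (k i) 1 := ⟨_, rfl⟩
  have hm0 : 0 < m := by
    rw [hm]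
    exact Finset.prod_pos fun i _ => lt_min (hk i) one_pos
  have hm1 : ∀ i, m ≤ k i := by
    intro i
    rw [hm, ← Finset.mul_prod_erase Finset.univ _ (Finset.mem_univ i)]
    calc min (k i) 1 * ∏ j ∈ Finset.univ.erase i, min (k j) 1 ≤ min (k i) 1 * 1 := by
          refine mul_le_mul_of_nonneg_left ?_ (lt_min (hk i) one_pos).le
          exact Finset.prod_le_one (fun i _ => (lt_min (hk i) one_pos).le) fun i _ => min_le_right _ _
      _ ≤ k i := by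
          rw [mul_one]
          exact min_le_left _ _
  exact ⟨m / 2, half_pos hm0, fun i => lt_of_lt_of_le (half_lt_self hm0) (hm1 i)⟩

private theorem D8_hle {T T' : ℕ} {a : ℚ} (h : T ≤ T') (ha : HLE T a) : HLE T' a := ⟨ha.1.trans h, ha.2.trans h⟩

/-- Relations of size `N ^ A₃`, `N ≤ exp (T ^ κ)`, are relations of size `exp (T ^ k)`. -/
private theorem D8_rel {s r : ℕ} {V : Fin r → (Fin s → ℝ) → ℝ} {κ k : ℝ} (hκ : 0 < κ) (h : κ < k) (A₃ : ℕ) :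
    ∃ T₀ : ℕ, ∀ T : ℕ, T₀ ≤ T → ∀ θ : Fin s → ℚ,
      (∃ cc : Fin r → ℤ, cc ≠ 0 ∧ (∀ j, |cc j| ≤ ((eT κ T : ℕ) : ℤ) ^ A₃) ∧ ∑ j, (cc j : ℝ) * V j (cst θ) = 0) →
        RelE V k T θ := by
  obtain ⟨T₀, hT₀⟩ := eT_pow_le hκ h A₃
  refine ⟨T₀, fun T hT θ => ?_⟩
  rintro ⟨cc, h1, h2, h3⟩
  refine ⟨cc, h1, fun j => ?_, h3⟩
  refine le_trans ?_ (hT₀ T hT)
  have h4 : ((|cc j| : ℤ) : ℝ) ≤ ((((eT κ T : ℕ) : ℤ) ^ A₃ : ℤ) : ℝ) := by exact_mod_cast h2 j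
  rw [Int.cast_abs] at h4
  refine h4.trans (le_of_eq ?_)
  push_cast
  rfl

/-- One algorithm; the exceptional parameters for inputs of exponential size, ordered by height, and in lattices. -/
theorem targetE {s μ : ℕ} (F : Fin μ → Sup s) :
    ∃ (f : PCode × List PeriodCode →. Bool) (z : MvPolynomial (Fin s) ℚ), Partrec f ∧ z ≠ 0 ∧
      (∀ x, (∀ X ∈ x.2, PeriodAdmissible X) → ∀ b ∈ f x, (b = true ↔ Vanishes x)) ∧
      (∀ x, (∀ X ∈ x.2, PeriodAdmissible X) → ¬ Vanishes x → (f x).Dom) ∧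
      ∀ A : ℕ, ∃ k η : ℝ, 0 < k ∧ 0 < η ∧
        (Tendsto (fun T : ℕ => ({θ ∈ Undecided F f A (eT k T) | ∀ i, HLE T (θ i)}.ncard : ℝ) /
            ({θ : Fin s → ℚ | ∀ i, HLE T (θ i)}.ncard : ℝ)) atTop (𝓝 0)) ∧
        (∀ (R : ℕ) (ε : ℝ), 0 < ε → ∃ T₀ : ℕ, ∀ T : ℕ, T₀ ≤ T → ∀ D : Fin s → ℕ, (∀ i, T ≤ D i ∧ D i ≤ eT k T) →
          ({θ ∈ Undecided F f A (eT k T) | InLattice D θ ∧ ∀ i, |(θ i : ℝ)| ≤ R}.ncard : ℝ) ≤ ε * ∏ i, (D i : ℝ)) ∧
        ∀ S : Set (Fin s → ℝ), IsCompact S → (∀ θ ∈ S, aeval θ z ≠ 0) → ∃ C : ℝ, 0 < C ∧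
          (∀ T : ℕ, 1 ≤ T → ({θ ∈ Undecided F f A (eT k T) | (∀ i, HLE T (θ i)) ∧ cst θ ∈ S}.ncard : ℝ) ≤
            C * (T : ℝ) ^ (2 * (s : ℝ) - η)) ∧
          ∀ T : ℕ, 1 ≤ T → ∀ D : Fin s → ℕ, (∀ i, T ≤ D i ∧ D i ≤ eT k T) →
            ({θ ∈ Undecided F f A (eT k T) | InLattice D θ ∧ cst θ ∈ S}.ncard : ℝ) ≤
              C * (T : ℝ) ^ (-η) * ∏ i, (D i : ℝ) := by
  classical
  obtain ⟨D, z, V, hz, hD, hS, hdf⟩ := exists_allE F
  obtain ⟨E, hE0, hE⟩ := finite_components z hz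
  have hG : ∀ e : {e // e ∈ E}, ∃ (m : ℕ) (R : Fin m → Pz s (Fintype.card (Ix D) + 1)),
      GensOK (Om z e.1) (fun y => V ((Fintype.equivFin (Ix D)).symm y)) R := fun e => exists_gens _ _
  choose m R hR using hG
  have hE' : ∀ θ : Fin s → ℝ, aeval θ z ≠ 0 → ∃ i : {e // e ∈ E}, θ ∈ Om z i.1 := by
    intro θ hθ
    obtain ⟨e, he, h⟩ := hE θ hθ
    exact ⟨⟨e, he⟩, h⟩
  have hCE : CE fun x : PCode × List PeriodCode => ∃ e : {e // e ∈ E}, GoodX D z e.1 (R e) x :=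
    CE.fin_ex fun e => good_ceX D z e.1 (hE0 e.1 e.2) (R e)
  obtain ⟨g₁, hg₁, hd₁⟩ := CE.partrec hCE
  obtain ⟨g₂, hg₂, hd₂⟩ := PN.exists_nv
  obtain ⟨f, hf, hfs, hfd⟩ := merge_bool hg₁ hg₂ hd₁ (fun a => Iff.rfl)
  refine ⟨f, z, hf, hz, ?_, ?_, ?_⟩
  · intro x hx b hb
    rcases hfs x b hb with ⟨h1, ⟨e, he⟩⟩ | ⟨h1, h2⟩
    · exact ⟨fun _ => good_soundX hD (hR e) hx he, fun _ => h1⟩
    · have h3 := (hd₂ x hx).1 h2
      constructor
      · intro h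
        rw [h1] at h
        exact absurd h (by decide)
      · intro h
        exact absurd h h3
  · intro x hx hv
    exact (hfd x).2 (Or.inr ((hd₂ x hx).2 hv))
  · intro A
    have hcomp := fun e : {e // e ∈ E} => complete_oneE hD hS (hR e) (hdf e.1 (hE0 e.1 e.2)) A
    choose δ r V' A₃ hδ han hdf' hI hrel using hcomp
    obtain ⟨k, η, k', η', hpos, hFE, hFL⟩ := D8_few (fun i : {e // e ∈ E} => hE0 i.1 i.2) han hdf' hI
    -- the relations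
    have hgen : ∀ N, 2 ≤ N → ∀ θ ∈ Undecided F f A N, (∀ i, HLE N (θ i)) →
        ∀ i : {e // e ∈ E}, cst θ ∈ Om z i.1 → eval θ (δ i) ≠ 0 →
          ∃ cc : Fin (r i) → ℤ, cc ≠ 0 ∧ (∀ j, |cc j| ≤ ((N : ℕ) : ℤ) ^ A₃ i) ∧
            ∑ j, (cc j : ℝ) * V' i j (cst θ) = 0 := by
      rintro N hN θ ⟨x, hx, hfx⟩ hH i hi hd
      have hng : ¬ (g₂ x).Dom := fun h => hfx ((hfd x).2 (Or.inr h))
      have hv : Vanishes x := by
        by_contra hv
        exact hng ((hd₂ x hx.1).2 hv)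
      rcases hrel i N hN θ hH hi hd x hx hv with h | h
      · exact absurd ((hfd x).2 (Or.inl ⟨i, h⟩)) hfx
      · exact h
    obtain ⟨κ, hκ, hκk⟩ := D8_min (k := fun i => min (k i) (k' i)) fun i => lt_min (hpos i).1 (hpos i).2.2.1
    -- heights: `B T`
    choose t₁ ht₁ using fun i => D8_rel (V := V' i) hκ ((hκk i).trans_le (min_le_left _ _)) (A₃ i)
    choose t₂ ht₂ using fun i => D8_rel (V := V' i) hκ ((hκk i).trans_le (min_le_right _ _)) (A₃ i)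
    obtain ⟨u₁, hu₁⟩ := pow_le_eT hκ 1
    have hκ2 : 0 < κ / 2 := half_pos hκ
    have hκ3 : κ / 2 < κ := half_lt_self hκ
    have hb₁ : ∀ i, t₁ i ≤ ∑ i, t₁ i := fun i => Finset.single_le_sum (f := t₁) (fun _ _ => Nat.zero_le _) (Finset.mem_univ i)
    have hb₂ : ∀ i, t₂ i ≤ ∑ i, t₂ i := fun i => Finset.single_le_sum (f := t₂) (fun _ _ => Nat.zero_le _) (Finset.mem_univ i)
    obtain ⟨B, hBdef⟩ : ∃ B : ℕ → Set (Fin s → ℚ), B = fun T => {θ ∈ Undecided F f A (eT (κ / 2) T) | ∀ i, HLE T (θ i)} :=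
      ⟨_, rfl⟩
    have hB0 : ∀ T, ∀ θ ∈ B T, ∀ i, HLE T (θ i) := by
      intro T θ hθ
      rw [hBdef] at hθ
      exact hθ.2
    have hB : ∀ T, max 1 (max u₁ (∑ i, t₁ i)) ≤ T → ∀ θ ∈ B T, (∀ i, HLE T (θ i)) ∧
        ∀ i : {e // e ∈ E}, cst θ ∈ Om z i.1 → eval θ (δ i) ≠ 0 → RelE (V' i) (k i) T θ := by
      intro T hT θ hθ
      have hT1 : 1 ≤ T := (le_max_left _ _).trans hT
      have hT2 : u₁ ≤ T := ((le_max_left _ _).trans (le_max_right _ _)).trans hT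
      have hT3 : ∑ i, t₁ i ≤ T := ((le_max_right _ _).trans (le_max_right _ _)).trans hT
      rw [hBdef] at hθ
      refine ⟨hθ.2, fun i hi hd => ?_⟩
      have h1 : T ≤ eT κ T := by
        have := hu₁ T hT2
        rwa [pow_one] at this
      exact ht₁ i T ((hb₁ i).trans hT3) θ (hgen _ (two_le_eT hκ hT1) θ
        (und_mono f A (eT_mono hκ3.le hT1) (one_le_two.trans (two_le_eT hκ hT1)) hθ.1)
        (fun l => D8_hle h1 (hθ.2 l)) i hi hd)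
    obtain ⟨η₁, hη₁, H₁⟩ := fz_rateE hz hE' hδ (fun i => (hpos i).2.1) hFE hI B _ hB0 hB
    obtain ⟨η₂, hη₂, H₂⟩ := lat_rateE hz hE' hδ (fun i => (hpos i).2.2.2) hFL hI
    -- lattices, for a compact set
    have hlat : ∀ S : Set (Fin s → ℝ), IsCompact S → (∀ θ ∈ S, aeval θ z ≠ 0) → ∃ C : ℝ, 0 < C ∧
        ∀ T : ℕ, 1 ≤ T → ∀ D : Fin s → ℕ, (∀ i, T ≤ D i ∧ D i ≤ eT (κ / 2) T) →
          ({θ ∈ Undecided F f A (eT (κ / 2) T) | InLattice D θ ∧ cst θ ∈ S}.ncard : ℝ) ≤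
            C * (T : ℝ) ^ (-η₂) * ∏ i, (D i : ℝ) := by
      intro S hSc hSz
      obtain ⟨R₁, hR₁⟩ := hSc.isBounded.exists_norm_le
      obtain ⟨R₀, hR₀⟩ := exists_nat_ge R₁
      obtain ⟨C, hC, H⟩ := H₂ S hSc hSz
      obtain ⟨u₂, hu₂⟩ := mul_eT_le hκ2 hκ3 (R₀ + 1)
      obtain ⟨τ, hτ⟩ : ∃ τ, τ = max 1 (max u₂ (∑ i, t₂ i)) := ⟨_, rfl⟩
      have hτ1 : 1 ≤ τ := by rw [hτ]; exact le_max_left _ _
      refine ⟨C + (2 * ((R₀ + 1 : ℕ) : ℝ) + 1) ^ s * (τ : ℝ) ^ η₂, by positivity, fun T hT D hD => ?_⟩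
      have hT0 : (0 : ℝ) < T := by exact_mod_cast hT
      have hP : 0 ≤ ∏ i, (D i : ℝ) := Finset.prod_nonneg fun i _ => Nat.cast_nonneg _
      have hTη : 0 < (T : ℝ) ^ (-η₂) := Real.rpow_pos_of_pos hT0 _
      have hbox : ∀ θ : Fin s → ℚ, cst θ ∈ S → ∀ l, |(θ l : ℝ)| ≤ ((R₀ + 1 : ℕ) : ℝ) := by
        intro θ hθ l
        have h1 := ((norm_le_pi_norm (cst θ) l).trans (hR₁ _ hθ)).trans hR₀
        push_cast
        have h2 : |(θ l : ℝ)| ≤ R₀ := h1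
        linarith
      rcases Nat.lt_or_ge T τ with hTτ | hTτ
      · -- few values of `T`
        obtain ⟨h1, h2⟩ := lat_triv (s := s) (R₀ + 1) (D := D) fun i => hT.trans (hD i).1
        have h3 : ({θ ∈ Undecided F f A (eT (κ / 2) T) | InLattice D θ ∧ cst θ ∈ S}.ncard : ℝ) ≤
            ({θ : Fin s → ℚ | InLattice D θ ∧ ∀ i, |(θ i : ℝ)| ≤ ((R₀ + 1 : ℕ) : ℝ)}.ncard : ℝ) := by
          refine Nat.cast_le.2 (Set.ncard_le_ncard ?_ h1)
          rintro θ ⟨-, h4, h5⟩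
          exact ⟨h4, hbox θ h5⟩
        refine h3.trans (h2.trans ?_)
        have h4 : (1 : ℝ) ≤ (τ : ℝ) ^ η₂ * (T : ℝ) ^ (-η₂) := by
          rw [Real.rpow_neg hT0.le, ← div_eq_mul_inv, one_le_div (Real.rpow_pos_of_pos hT0 _)]
          exact Real.rpow_le_rpow hT0.le (by exact_mod_cast hTτ.le) hη₂.le
        have h5 : 0 ≤ (2 * ((R₀ + 1 : ℕ) : ℝ) + 1) ^ s := by positivity
        calc (2 * ((R₀ + 1 : ℕ) : ℝ) + 1) ^ s * ∏ i, (D i : ℝ)
            = (2 * ((R₀ + 1 : ℕ) : ℝ) + 1) ^ s * 1 * ∏ i, (D i : ℝ) := by ring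
          _ ≤ (2 * ((R₀ + 1 : ℕ) : ℝ) + 1) ^ s * ((τ : ℝ) ^ η₂ * (T : ℝ) ^ (-η₂)) * ∏ i, (D i : ℝ) :=
              mul_le_mul_of_nonneg_right (mul_le_mul_of_nonneg_left h4 h5) hP
          _ = 0 + (2 * ((R₀ + 1 : ℕ) : ℝ) + 1) ^ s * (τ : ℝ) ^ η₂ * (T : ℝ) ^ (-η₂) * ∏ i, (D i : ℝ) := by ring
          _ ≤ C * (T : ℝ) ^ (-η₂) * ∏ i, (D i : ℝ) +
                (2 * ((R₀ + 1 : ℕ) : ℝ) + 1) ^ s * (τ : ℝ) ^ η₂ * (T : ℝ) ^ (-η₂) * ∏ i, (D i : ℝ) :=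
              add_le_add (mul_nonneg (mul_nonneg hC.le hTη.le) hP) le_rfl
          _ = _ := by ring
      · have g2 : u₂ ≤ T := (((le_max_left _ _).trans (le_max_right _ _)).trans hτ.ge).trans hTτ
        have g3 : ∑ i, t₂ i ≤ T := (((le_max_right _ _).trans (le_max_right _ _)).trans hτ.ge).trans hTτ
        have h1 : ({θ ∈ Undecided F f A (eT (κ / 2) T) | InLattice D θ ∧ cst θ ∈ S}.ncard : ℝ) ≤
            C * (T : ℝ) ^ (-η₂) * ∏ i, (D i : ℝ) := by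
          refine H T hT D (fun i => (hD i).1) _ ?_
          rintro θ ⟨hθ, hD', hθS⟩
          refine ⟨hD', hθS, fun i hi hd => ?_⟩
          refine ht₂ i T ((hb₂ i).trans g3) θ (hgen _ (two_le_eT hκ hT) θ
            (und_mono f A (eT_mono hκ3.le hT) (one_le_two.trans (two_le_eT hκ hT)) hθ) (fun l => ?_) i hi hd)
          exact D8_hle (hu₂ T g2) (hle_lat (hT.trans (hD l).1) (hD l).2 (by omega) (hD' l) (hbox θ hθS l))
        refine h1.trans ?_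
        have h5 : 0 ≤ (2 * ((R₀ + 1 : ℕ) : ℝ) + 1) ^ s * (τ : ℝ) ^ η₂ := by positivity
        refine mul_le_mul_of_nonneg_right (mul_le_mul_of_nonneg_right ?_ hTη.le) hP
        linarith
    refine ⟨κ / 2, min η₁ η₂, hκ2, lt_min hη₁ hη₂, ?_, ?_, ?_⟩
    · rcases Nat.eq_zero_or_pos s with hs | hs
      · subst hs
        have h := fz_zeroE hz hE' hδ hI B _ hB
        refine tendsto_const_nhds.congr' ?_
        filter_upwards [Filter.eventually_ge_atTop (max 1 (max u₁ (∑ i, t₁ i)))] with T hT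
        have h1 := h T hT
        rw [hBdef] at h1
        have h2 : {θ ∈ Undecided F f A (eT (κ / 2) T) | ∀ i, HLE T (θ i)} = (∅ : Set (Fin 0 → ℚ)) := h1
        rw [h2]
        simp
      · have h1 := fz_posE hs hz hE' hδ (fun i => (hpos i).2.1) hFE B _ hB
        rw [hBdef] at h1
        exact h1
    · intro R₀ ε hε
      obtain ⟨ε', hε', T₁, G₁⟩ := lat_near hz (R := R₀ + 1) (by omega) (half_pos hε)
      have hcont : Continuous fun θ : Fin s → ℝ => (aeval θ z : ℝ) := by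
        have h : (fun θ : Fin s → ℝ => (aeval θ z : ℝ)) = fun θ => eval θ (map (algebraMap ℚ ℝ) z) := by
          funext θ
          rw [eval_map, aeval_def]
        rw [h]
        exact MvPolynomial.continuous_eval _
      obtain ⟨S, hSdef⟩ : ∃ S : Set (Fin s → ℝ), S = {θ : Fin s → ℝ | (∀ i, |θ i| ≤ (R₀ : ℝ)) ∧ ε' ≤ |(aeval θ z : ℝ)|} := ⟨_, rfl⟩
      have hSc : IsCompact S := by
        rw [hSdef]
        apply Metric.isCompact_of_isClosed_isBounded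
        · have hc1 : IsClosed {θ : Fin s → ℝ | ∀ i, |θ i| ≤ (R₀ : ℝ)} := by
            have h : {θ : Fin s → ℝ | ∀ i, |θ i| ≤ (R₀ : ℝ)} = ⋂ i, {θ : Fin s → ℝ | |θ i| ≤ (R₀ : ℝ)} := by
              ext θ
              simp
            rw [h]
            exact isClosed_iInter fun i => isClosed_le (by fun_prop) continuous_const
          have hc2 : IsClosed {θ : Fin s → ℝ | ε' ≤ |(aeval θ z : ℝ)|} :=
            isClosed_le continuous_const (continuous_abs.comp hcont)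
          exact hc1.inter hc2
        · apply (Metric.isBounded_closedBall (x := (0 : Fin s → ℝ)) (r := R₀)).subset
          rintro θ ⟨h1, -⟩
          rw [Metric.mem_closedBall, dist_zero_right, pi_norm_le_iff_of_nonneg (Nat.cast_nonneg _)]
          intro i
          rw [Real.norm_eq_abs]
          exact h1 i
      have hSz : ∀ θ ∈ S, aeval θ z ≠ 0 := by
        rw [hSdef]
        rintro θ ⟨-, h⟩ h0
        rw [h0, abs_zero] at h
        linarith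
      obtain ⟨C, hC, G₂⟩ := hlat S hSc hSz
      have hlim : Tendsto (fun T : ℕ => C * (T : ℝ) ^ (-η₂)) atTop (𝓝 0) := by
        have h0 := ((tendsto_rpow_neg_atTop hη₂).comp tendsto_natCast_atTop_atTop).const_mul C
        rw [mul_zero] at h0
        exact h0
      obtain ⟨T₂, hT₂⟩ := Filter.eventually_atTop.1 (hlim.eventually_le_const (half_pos hε))
      refine ⟨max (max T₁ T₂) 2, fun T hT D hD => ?_⟩
      have g1 : T₁ ≤ T := le_trans (le_trans (le_max_left _ _) (le_max_left _ _)) hT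
      have g2 : T₂ ≤ T := le_trans (le_trans (le_max_right _ _) (le_max_left _ _)) hT
      have g3 : 2 ≤ T := le_trans (le_max_right _ _) hT
      have hT1 : 1 ≤ T := by omega
      have hP : 0 ≤ ∏ i, (D i : ℝ) := Finset.prod_nonneg fun i _ => Nat.cast_nonneg _
      have k1 := G₁ T g1 D fun i => (hD i).1
      have k2 := G₂ T hT1 D hD
      have k3 := hT₂ T g2
      have hsub : {θ ∈ Undecided F f A (eT (κ / 2) T) | InLattice D θ ∧ ∀ i, |(θ i : ℝ)| ≤ R₀} ⊆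
          {θ : Fin s → ℚ | InLattice D θ ∧ (∀ i, |(θ i : ℝ)| ≤ ((R₀ + 1 : ℕ) : ℝ)) ∧ |aeval (cst θ) z| < ε'} ∪
            {θ ∈ Undecided F f A (eT (κ / 2) T) | InLattice D θ ∧ cst θ ∈ S} := by
        rintro θ ⟨h1, h2, h3⟩
        by_cases h4 : |(aeval (cst θ) z : ℝ)| < ε'
        · left
          refine ⟨h2, fun i => (h3 i).trans ?_, h4⟩
          push_cast
          linarith
        · right
          refine ⟨h1, h2, ?_⟩
          rw [hSdef]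
          exact ⟨h3, not_lt.1 h4⟩
      have hfin : ({θ : Fin s → ℚ | InLattice D θ ∧ (∀ i, |(θ i : ℝ)| ≤ ((R₀ + 1 : ℕ) : ℝ)) ∧ |aeval (cst θ) z| < ε'} ∪
            {θ ∈ Undecided F f A (eT (κ / 2) T) | InLattice D θ ∧ cst θ ∈ S}).Finite := by
        refine Set.Finite.union ((lat_triv (s := s) (R₀ + 1) (D := D) fun i => hT1.trans (hD i).1).1.subset ?_)
          ((lat_triv (s := s) R₀ (D := D) fun i => hT1.trans (hD i).1).1.subset ?_)
        · rintro θ ⟨h1, h2, -⟩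
          exact ⟨h1, h2⟩
        · rintro θ ⟨-, h1, h2⟩
          rw [hSdef] at h2
          exact ⟨h1, h2.1⟩
      have hc : ({θ ∈ Undecided F f A (eT (κ / 2) T) | InLattice D θ ∧ ∀ i, |(θ i : ℝ)| ≤ R₀}.ncard : ℝ) ≤
          ({θ : Fin s → ℚ | InLattice D θ ∧ (∀ i, |(θ i : ℝ)| ≤ ((R₀ + 1 : ℕ) : ℝ)) ∧ |aeval (cst θ) z| < ε'}.ncard : ℝ) +
            ({θ ∈ Undecided F f A (eT (κ / 2) T) | InLattice D θ ∧ cst θ ∈ S}.ncard : ℝ) := by
        exact_mod_cast (Set.ncard_le_ncard hsub hfin).trans (Set.ncard_union_le _ _)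
      calc _ ≤ _ := hc
        _ ≤ ε / 2 * ∏ i, (D i : ℝ) + C * (T : ℝ) ^ (-η₂) * ∏ i, (D i : ℝ) := add_le_add k1 k2
        _ ≤ ε / 2 * ∏ i, (D i : ℝ) + ε / 2 * ∏ i, (D i : ℝ) :=
            add_le_add le_rfl (mul_le_mul_of_nonneg_right k3 hP)
        _ = ε * ∏ i, (D i : ℝ) := by ring
    · intro S hSc hSz
      obtain ⟨C₁, hC₁, G₁⟩ := H₁ S hSc hSz
      obtain ⟨C₂, hC₂, G₂⟩ := hlat S hSc hSz
      refine ⟨C₁ + C₂, by positivity, fun T hT => ?_, fun T hT D hD => ?_⟩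
      · have hT1 : (1 : ℝ) ≤ T := by exact_mod_cast hT
        have e : {θ ∈ Undecided F f A (eT (κ / 2) T) | (∀ i, HLE T (θ i)) ∧ cst θ ∈ S} = {θ ∈ B T | cst θ ∈ S} := by
          rw [hBdef]
          ext θ
          constructor
          · rintro ⟨h1, h2, h3⟩
            exact ⟨⟨h1, h2⟩, h3⟩
          · rintro ⟨⟨h1, h2⟩, h3⟩
            exact ⟨h1, h2, h3⟩
        rw [e]
        refine (G₁ T hT).trans ?_
        have hle : (T : ℝ) ^ (2 * (s : ℝ) - η₁) ≤ (T : ℝ) ^ (2 * (s : ℝ) - min η₁ η₂) :=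
          Real.rpow_le_rpow_of_exponent_le hT1 (sub_le_sub_left (min_le_left _ _) _)
        exact mul_le_mul (by linarith) hle (Real.rpow_nonneg (by linarith) _) (by linarith)
      · have hT1 : (1 : ℝ) ≤ T := by exact_mod_cast hT
        refine (G₂ T hT D hD).trans ?_
        have hP : 0 ≤ ∏ i, (D i : ℝ) := Finset.prod_nonneg fun i _ => Nat.cast_nonneg _
        have hle : (T : ℝ) ^ (-η₂) ≤ (T : ℝ) ^ (-min η₁ η₂) :=
          Real.rpow_le_rpow_of_exponent_le hT1 (neg_le_neg (min_le_right _ _))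
        refine mul_le_mul_of_nonneg_right ?_ hP
        exact mul_le_mul (by linarith) hle (Real.rpow_nonneg (by linarith) _) (by linarith)

end Pool.Agent.Lib.MP_bbe012_lc.XS
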