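import Pool.Agent.Lib.MP_bbe012_lc.PG.ADefs

/-!
# Exponential sizes: the hypothesis on the functions `V_i`
-/

set_option autoImplicit false

namespace Pool.Agent.Lib.MP_bbe012_lc.XS

open MvPolynomial Topology

/-- Near one rational point `e` of `Ω` the functions `V i` are combinations, with rational functions as coefficients, of analytic functions `Y b` which satisfy a linear system `δ ∂_l Y_b = ∑ c, Γ_l b c Y_c` with rational polynomials `δ`, `Γ_l b c`, `δ(e) ≠ 0`. (No integrability condition; the values `Y_b(e)` are arbitrary real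
numbers.) -/
def PfHyp {s r : ℕ} (Ω : Set (Fin s → ℝ)) (V : Fin r → (Fin s → ℝ) → ℝ) : Prop :=
  ∃ (N : ℕ) (e : Fin s → ℚ) (Y : Fin N → (Fin s → ℝ) → ℝ) (δ : MvPolynomial (Fin s) ℚ)
    (Γ : Fin s → Fin N → Fin N → MvPolynomial (Fin s) ℚ) (R : Fin r → Fin N → MvPolynomial (Fin s) ℚ),
    (fun i => (e i : ℝ)) ∈ Ω ∧ eval e δ ≠ 0 ∧ (∀ b, AnalyticAt ℝ (Y b) (fun i => (e i : ℝ))) ∧
    (∀ᶠ θ in 𝓝 (fun i => (e i : ℝ)), ∀ l b,
      aeval θ δ * fderiv ℝ (Y b) θ (Pi.single l 1) = ∑ c, aeval θ (Γ l b c) * Y c θ) ∧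
    ∀ᶠ θ in 𝓝 (fun i => (e i : ℝ)), ∀ i, aeval θ δ * V i θ = ∑ b, aeval θ (R i b) * Y b θ

end Pool.Agent.Lib.MP_bbe012_lc.XS
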