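import Pool.Agent.Lib.MP_bbe012_lc.XS.A0
import Pool.Agent.Lib.MP_bbe012_lc.PG.BSer

/-!
# Exponential sizes, part A: power series in several variables

`h = θ - e` are the local coordinates at the base point `e`.
-/

set_option autoImplicit false

namespace Pool.Agent.Lib.MP_bbe012_lc.XS

open MvPolynomial PG

/-- The polynomial `p(e + h)` in `h`. -/
noncomputable def sh {R : Type} [CommRing R] {s : ℕ} (e : Fin s → R) (p : MvPolynomial (Fin s) R) :
    MvPolynomial (Fin s) R :=
  aeval (fun i => X i + C (e i) : Fin s → MvPolynomial (Fin s) R) p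

/-- The real polynomial `p(e + h)` in `h`, for a rational polynomial `p` and a rational point `e`. -/
noncomputable def shr {s : ℕ} (e : Fin s → ℚ) (p : MvPolynomial (Fin s) ℚ) : MvPolynomial (Fin s) ℝ :=
  map (algebraMap ℚ ℝ) (sh e p)

/-- The Euler operator `∑ l, h_l ∂_l`: multiplication of the coefficient of `h ^ β` by the degree of `β`. -/
noncomputable def eu {R : Type} [CommRing R] {s : ℕ} (f : MvPowerSeries (Fin s) R) : MvPowerSeries (Fin s) R :=
  fun β => ((β.degree : ℕ) : R) * MvPowerSeries.coeff β f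

theorem coeff_eu {R : Type} [CommRing R] {s : ℕ} (f : MvPowerSeries (Fin s) R) (β : Fin s →₀ ℕ) :
    MvPowerSeries.coeff β (eu f) = ((β.degree : ℕ) : R) * MvPowerSeries.coeff β f := rfl

/-- The polynomial matrix of the radial equation: `∑ l, h_l Γ_l`. -/
noncomputable def rad {R : Type} [CommRing R] {s N : ℕ} (Γ : Fin s → Fin N → Fin N → MvPolynomial (Fin s) R)
    (b b' : Fin N) : MvPolynomial (Fin s) R :=
  ∑ l, X l * Γ l b b'

/-- The combination `∑ w b c * U b c` of the entries of a matrix of power series. -/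
noncomputable def Phi {s N : ℕ} (w : Fin N → Fin N → MvPolynomial (Fin s) ℝ)
    (U : Fin N → Fin N → MvPowerSeries (Fin s) ℝ) : MvPowerSeries (Fin s) ℝ :=
  ∑ b, ∑ c, (w b c : MvPowerSeries (Fin s) ℝ) * U b c

/-- `U` is the fundamental solution of the radial equation `δ * eu U = G * U`, `U(0) = 1`, with rational coefficients; `q` and `K` control the denominators and the size of the coefficients. -/
structure Fund {s N : ℕ} (δ : MvPolynomial (Fin s) ℚ) (G : Fin N → Fin N → MvPolynomial (Fin s) ℚ)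
    (U : Fin N → Fin N → MvPowerSeries (Fin s) ℚ) (q K : ℕ) : Prop where
  q1 : 1 ≤ q
  K1 : 1 ≤ K
  eq : ∀ b c, (δ : MvPowerSeries (Fin s) ℚ) * eu (U b c) = ∑ b', (G b b' : MvPowerSeries (Fin s) ℚ) * U b' c
  init : ∀ b c, MvPowerSeries.constantCoeff (U b c) = if b = c then 1 else 0
  den : ∀ b c (β : Fin s →₀ ℕ), ∃ z : ℤ, (q : ℚ) ^ β.degree * (Nat.factorial β.degree : ℚ) * MvPowerSeries.coeff β (U b c) = z
  bd : ∀ b c (β : Fin s →₀ ℕ), |MvPowerSeries.coeff β (U b c)| ≤ (K : ℚ) ^ β.degree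

/-- The real power series of a rational one. -/
noncomputable def toR {s : ℕ} (f : MvPowerSeries (Fin s) ℚ) : MvPowerSeries (Fin s) ℝ :=
  MvPowerSeries.map (algebraMap ℚ ℝ) f

/-- The combination `∑ j ∈ E, z_j V_j` as a function. -/
noncomputable def cb {s r : ℕ} (E : Finset (Fin r)) (V : Fin r → (Fin s → ℝ) → ℝ)
    (z : Fin r → MvPolynomial (Fin s) ℝ) (θ : Fin s → ℝ) : ℝ :=
  ∑ j ∈ E, eval θ (z j) * V j θ

/-- The vector `z` of polynomials of total degree at most `D` is normalised: all coefficients are at most `1` in absolute value, one is `± 1`. -/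
def Nrm {s r : ℕ} (E : Finset (Fin r)) (D : ℕ) (z : Fin r → MvPolynomial (Fin s) ℝ) : Prop :=
  (∀ j ∈ E, (z j).totalDegree ≤ D) ∧ (∀ j ∈ E, ∀ α, |coeff α (z j)| ≤ 1) ∧ ∃ j ∈ E, ∃ α, |coeff α (z j)| = 1

/-- Lower bound at the point `p`: every normalised combination of degree `D` has a Taylor coefficient at `p` of order at most `C (D + 1) ^ a` and size at least `exp (- C (D + 1) ^ a)`. -/
def LB {s r : ℕ} (E : Finset (Fin r)) (V : Fin r → (Fin s → ℝ) → ℝ) (C a : ℕ) (p : Fin s → ℝ) : Prop :=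
  ∀ (D : ℕ) (z : Fin r → MvPolynomial (Fin s) ℝ), Nrm E D z →
    ∀ (ρ B : ℝ) (ν : (Fin s → ℕ) → ℝ), 0 < ρ → 0 ≤ B → Exp ρ B p (cb E V z) ν →
      ∃ b, dg b ≤ C * (D + 1) ^ a ∧ Real.exp (-((C : ℝ) * (D + 1) ^ a)) ≤ |ν b|

end Pool.Agent.Lib.MP_bbe012_lc.XS
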