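import Pool.Agent.Lib.MP_bbe012_lc.XS.F0

/-!
# LEAF XF1 (medium): homogenisation: a power series in `h_1, ..., h_s` as a power series in one variable `x`, `h = x w`
-/

set_option autoImplicit false

namespace Pool.Agent.Lib.MP_bbe012_lc.XS

open MvPolynomial

/-- The field of rational functions in `w_1, ..., w_s`. -/
abbrev Kf (s : ℕ) : Type := FractionRing (MvPolynomial (Fin s) ℝ)

/-- The homogeneous part of degree `n` of a power series. -/
noncomputable def hc {s : ℕ} (n : ℕ) (f : MvPowerSeries (Fin s) ℝ) : MvPolynomial (Fin s) ℝ :=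
  ∑ β ∈ Finset.univ.finsuppAntidiag n, monomial β (MvPowerSeries.coeff β f)

/-- `f(x w)` as a power series in `x` with coefficients in the field `Kf s`. -/
noncomputable def hz {s : ℕ} (f : MvPowerSeries (Fin s) ℝ) : PowerSeries (Kf s) :=
  PowerSeries.mk fun n => algebraMap (MvPolynomial (Fin s) ℝ) (Kf s) (hc n f)

/-- PROOF. `Finset.mem_finsuppAntidiag`, `Finsupp.degree`. -/
theorem coeff_hc {s : ℕ} (n : ℕ) (f : MvPowerSeries (Fin s) ℝ) (β : Fin s →₀ ℕ) :
    coeff β (hc n f) = if β.degree = n then MvPowerSeries.coeff β f else 0 := by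
  classical
  rw [hc, coeff_sum]
  simp only [coeff_monomial]
  rw [Finset.sum_ite_eq']
  have h : β ∈ Finset.univ.finsuppAntidiag n ↔ β.degree = n := by
    rw [Finset.mem_finsuppAntidiag, Finsupp.degree_eq_sum]
    exact ⟨fun h => h.1, fun h => ⟨h, Finset.subset_univ _⟩⟩
  by_cases hb : β.degree = n
  · rw [if_pos (h.2 hb), if_pos hb]
  · rw [if_neg (fun h' => hb (h.1 h')), if_neg hb]

private theorem XF1_coeff {s : ℕ} (n : ℕ) (f : MvPowerSeries (Fin s) ℝ) :
    PowerSeries.coeff n (hz f) = algebraMap (MvPolynomial (Fin s) ℝ) (Kf s) (hc n f) :=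
  PowerSeries.coeff_mk _ _

private theorem XF1_inj {s : ℕ} :
    Function.Injective (algebraMap (MvPolynomial (Fin s) ℝ) (Kf s)) :=
  IsFractionRing.injective _ _

theorem hz_zero {s : ℕ} : hz (0 : MvPowerSeries (Fin s) ℝ) = 0 := by
  ext1 n
  rw [XF1_coeff, map_zero]
  have h : hc n (0 : MvPowerSeries (Fin s) ℝ) = 0 := by
    ext1 β
    rw [coeff_hc, map_zero, coeff_zero, ite_self]
  rw [h, map_zero]

theorem hz_add {s : ℕ} (f g : MvPowerSeries (Fin s) ℝ) : hz (f + g) = hz f + hz g := by
  ext1 n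
  rw [map_add, XF1_coeff, XF1_coeff, XF1_coeff, ← map_add]
  congr 1
  ext1 β
  rw [coeff_add, coeff_hc, coeff_hc, coeff_hc, map_add]
  split_ifs
  · rfl
  · rw [add_zero]

theorem hz_sum {s : ℕ} {ι : Type} (t : Finset ι) (f : ι → MvPowerSeries (Fin s) ℝ) :
    hz (∑ i ∈ t, f i) = ∑ i ∈ t, hz (f i) := by
  classical
  induction t using Finset.induction_on with
  | empty => rw [Finset.sum_empty, Finset.sum_empty, hz_zero]
  | insert a t ha ih => rw [Finset.sum_insert ha, Finset.sum_insert ha, hz_add, ih]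

/-- PROOF. Coefficient of `x ^ n` (`PowerSeries.coeff_mul`), then coefficient of `w ^ β` (`MvPolynomial.coeff_mul`, `MvPowerSeries.coeff_mul`, `coeff_hc`): both sides are the sum over the antidiagonal of `β` (if the degree of `β` is `n`, else `0`); the degree is additive (`map_add`), so for `γ + γ' = β` exactly one
pair `(i, j)` with `i + j = n` contributes, `(degree γ, degree γ')`. -/
theorem hz_mul {s : ℕ} (f g : MvPowerSeries (Fin s) ℝ) : hz (f * g) = hz f * hz g := by
  classical
  ext1 n
  rw [PowerSeries.coeff_mul, XF1_coeff]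
  have e1 : ∑ p ∈ Finset.HasAntidiagonal.antidiagonal n, PowerSeries.coeff p.1 (hz f) * PowerSeries.coeff p.2 (hz g) =
      algebraMap (MvPolynomial (Fin s) ℝ) (Kf s)
        (∑ p ∈ Finset.HasAntidiagonal.antidiagonal n, hc p.1 f * hc p.2 g) := by
    rw [map_sum]
    refine Finset.sum_congr rfl fun p _ => ?_
    rw [XF1_coeff, XF1_coeff, map_mul]
  rw [e1]
  congr 1
  ext1 β
  rw [coeff_hc, coeff_sum, MvPowerSeries.coeff_mul]
  have e2 : ∀ p ∈ Finset.HasAntidiagonal.antidiagonal n, coeff β (hc p.1 f * hc p.2 g) =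
      ∑ q ∈ Finset.HasAntidiagonal.antidiagonal β, (if q.1.degree = p.1 then MvPowerSeries.coeff q.1 f else 0) *
        (if q.2.degree = p.2 then MvPowerSeries.coeff q.2 g else 0) := by
    intro p _
    rw [coeff_mul]
    refine Finset.sum_congr rfl fun q _ => ?_
    rw [coeff_hc, coeff_hc]
  rw [Finset.sum_congr rfl e2, Finset.sum_comm]
  have e3 : ∀ q ∈ Finset.HasAntidiagonal.antidiagonal β, ∑ p ∈ Finset.HasAntidiagonal.antidiagonal n,
      (if q.1.degree = p.1 then MvPowerSeries.coeff q.1 f else 0) *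
        (if q.2.degree = p.2 then MvPowerSeries.coeff q.2 g else 0) =
      if β.degree = n then MvPowerSeries.coeff q.1 f * MvPowerSeries.coeff q.2 g else 0 := by
    intro q hq
    have hd : q.1.degree + q.2.degree = β.degree := by
      rw [← map_add, Finset.HasAntidiagonal.mem_antidiagonal.1 hq]
    by_cases hb : β.degree = n
    · rw [if_pos hb, Finset.sum_eq_single (q.1.degree, q.2.degree)]
      · rw [if_pos rfl, if_pos rfl]
      · intro p _ hp
        by_cases h1 : q.1.degree = p.1
        · by_cases h2 : q.2.degree = p.2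
          · exact absurd (Prod.ext h1.symm h2.symm) hp
          · rw [if_neg h2, mul_zero]
        · rw [if_neg h1, zero_mul]
      · intro h
        exact absurd (Finset.HasAntidiagonal.mem_antidiagonal.2 (hd.trans hb)) h
    · rw [if_neg hb]
      refine Finset.sum_eq_zero fun p hp => ?_
      by_cases h1 : q.1.degree = p.1
      · by_cases h2 : q.2.degree = p.2
        · exfalso
          apply hb
          rw [← hd, h1, h2]
          exact Finset.HasAntidiagonal.mem_antidiagonal.1 hp
        · rw [if_neg h2, mul_zero]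
      · rw [if_neg h1, zero_mul]
  rw [Finset.sum_congr rfl e3]
  split_ifs
  · rfl
  · rw [Finset.sum_const_zero]

/-- PROOF. `P = ∑ n ∈ range (p.totalDegree + 1), Polynomial.monomial n (algebraMap _ _ (hc n p))`; the homogeneous parts of degree `> totalDegree` vanish (`MvPolynomial.coeff_eq_zero_of_totalDegree_lt`, `MvPolynomial.coeff_coe`). -/
theorem hz_poly {s : ℕ} (p : MvPolynomial (Fin s) ℝ) :
    ∃ P : Polynomial (Kf s), (P : PowerSeries (Kf s)) = hz (p : MvPowerSeries (Fin s) ℝ) ∧
      P.natDegree ≤ p.totalDegree ∧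
      P.coeff 0 = algebraMap (MvPolynomial (Fin s) ℝ) (Kf s) (C (constantCoeff p)) := by
  classical
  have hbig : ∀ n, p.totalDegree < n → hc n (p : MvPowerSeries (Fin s) ℝ) = 0 := by
    intro n hn
    ext1 β
    rw [coeff_hc, coeff_zero]
    split_ifs with h
    · rw [coeff_coe]
      refine coeff_eq_zero_of_totalDegree_lt ?_
      rw [← Finsupp.degree_apply, h]
      exact hn
    · rfl
  have hco : ∀ n, (∑ j ∈ Finset.range (p.totalDegree + 1), Polynomial.monomial j
      (algebraMap (MvPolynomial (Fin s) ℝ) (Kf s) (hc j (p : MvPowerSeries (Fin s) ℝ)))).coeff n =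
      algebraMap (MvPolynomial (Fin s) ℝ) (Kf s) (hc n (p : MvPowerSeries (Fin s) ℝ)) := by
    intro n
    rw [Polynomial.finsetSum_coeff]
    simp only [Polynomial.coeff_monomial]
    rw [Finset.sum_ite_eq']
    split_ifs with h
    · rfl
    · rw [Finset.mem_range, not_lt] at h
      rw [hbig n (by omega), map_zero]
  refine ⟨∑ n ∈ Finset.range (p.totalDegree + 1), Polynomial.monomial n
    (algebraMap (MvPolynomial (Fin s) ℝ) (Kf s) (hc n (p : MvPowerSeries (Fin s) ℝ))), ?_, ?_, ?_⟩
  · ext1 n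
    rw [Polynomial.coeff_coe, hco, XF1_coeff]
  · rw [Polynomial.natDegree_le_iff_coeff_eq_zero]
    intro n hn
    rw [hco, hbig n hn, map_zero]
  · rw [hco]
    congr 1
    ext1 β
    rw [coeff_hc, coeff_C, coeff_coe]
    by_cases h : β = 0
    · rw [h, if_pos (map_zero _), if_pos rfl]
      rfl
    · rw [if_neg, if_neg (fun h' => h h'.symm)]
      intro h'
      exact h (Finsupp.degree_eq_zero_iff _ |>.1 h')

/-- PROOF. Only the coefficient of index `1` does not vanish. -/
theorem hz_X {s : ℕ} (l : Fin s) :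
    hz ((X l : MvPolynomial (Fin s) ℝ) : MvPowerSeries (Fin s) ℝ) =
      PowerSeries.C (algebraMap (MvPolynomial (Fin s) ℝ) (Kf s) (X l)) * PowerSeries.X := by
  classical
  ext1 n
  rw [XF1_coeff, PowerSeries.coeff_C_mul, PowerSeries.coeff_X]
  have h : hc n ((X l : MvPolynomial (Fin s) ℝ) : MvPowerSeries (Fin s) ℝ) =
      if n = 1 then (X l : MvPolynomial (Fin s) ℝ) else 0 := by
    ext1 β
    rw [coeff_hc, coeff_coe, coeff_X]
    by_cases hb : Finsupp.single l 1 = β
    · subst hb
      rw [Finsupp.degree_single]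
      by_cases hn : n = 1
      · rw [if_pos hn.symm, if_pos hn, coeff_X, if_pos rfl]
      · rw [if_neg (fun h => hn h.symm), if_neg hn, coeff_zero]
    · rw [if_neg hb, ite_self]
      split_ifs
      · rw [coeff_X, if_neg hb]
      · rw [coeff_zero]
  rw [h]
  split_ifs
  · rw [mul_one]
  · rw [map_zero, mul_zero]

/-- PROOF. Coefficient of index `n`: `n * hc n f` on both sides (`coeff_eu`, `PowerSeries.coeff_derivative`, `PowerSeries.coeff_succ_X_mul`, `PowerSeries.coeff_zero_X_mul`). -/
theorem hz_eu {s : ℕ} (f : MvPowerSeries (Fin s) ℝ) :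
    hz (eu f) = PowerSeries.X * PowerSeries.derivative (Kf s) (hz f) := by
  have h : ∀ n, hc n (eu f) = (n : MvPolynomial (Fin s) ℝ) * hc n f := by
    intro n
    ext1 β
    have e : ((n : ℕ) : MvPolynomial (Fin s) ℝ) = C (n : ℝ) := by rw [map_natCast]
    rw [e, coeff_C_mul, coeff_hc, coeff_hc, coeff_eu]
    split_ifs with h
    · rw [h]
    · rw [mul_zero]
  ext1 n
  rw [XF1_coeff, h]
  cases n with
  | zero => rw [PowerSeries.coeff_zero_X_mul, Nat.cast_zero, zero_mul, map_zero]
  | succ n =>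
    rw [PowerSeries.coeff_succ_X_mul, PowerSeries.coeff_derivative, XF1_coeff, map_mul, map_natCast,
      mul_comm]
    push_cast
    rfl

/-- PROOF. `PowerSeries.X_pow_dvd_iff`, injectivity of `algebraMap`, `coeff_hc`. -/
theorem hz_dvd {s : ℕ} (f : MvPowerSeries (Fin s) ℝ) (n : ℕ) :
    (PowerSeries.X : PowerSeries (Kf s)) ^ n ∣ hz f ↔ ∀ β : Fin s →₀ ℕ, β.degree < n → MvPowerSeries.coeff β f = 0 := by
  rw [PowerSeries.X_pow_dvd_iff]
  constructor
  · intro h β hβ
    have h1 := h β.degree hβ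
    rw [XF1_coeff, map_eq_zero_iff _ XF1_inj] at h1
    have h2 := congrArg (coeff β) h1
    rw [coeff_hc, if_pos rfl, coeff_zero] at h2
    exact h2
  · intro h m hm
    rw [XF1_coeff, map_eq_zero_iff _ XF1_inj]
    ext1 β
    rw [coeff_hc, coeff_zero]
    split_ifs with hb
    · exact h β (by rw [hb]; exact hm)
    · rfl

theorem hz_inj {s : ℕ} {f : MvPowerSeries (Fin s) ℝ} (h : hz f = 0) : f = 0 := by
  ext1 β
  rw [map_zero]
  exact (hz_dvd f (β.degree + 1)).1 (by rw [h]; exact dvd_zero _) β (Nat.lt_succ_self _)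

end Pool.Agent.Lib.MP_bbe012_lc.XS
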