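import Pool.Agent.Lib.MP_bbe012_lc.XS.F0

/-!
# LEAF XF10 (medium): the Euler operator and expansions
-/

set_option autoImplicit false

namespace Pool.Agent.Lib.MP_bbe012_lc.XS

open MvPolynomial PG Topology

private theorem XF10_cf {s : ℕ} (F : MvPowerSeries (Fin s) ℝ) (b : Fin s → ℕ) :
    cf (eu F) b = (dg b : ℝ) * cf F b := by
  unfold cf
  rw [coeff_eu, Finsupp.degree_eq_sum]
  rfl

private theorem XF10_summable {s : ℕ} {r B : ℝ} {ν : (Fin s → ℕ) → ℝ} (hr : 0 < r) (hB : 0 ≤ B)
    (hν : ∀ b, |ν b| ≤ B * r⁻¹ ^ dg b) (h : Fin s → ℝ) (hh : ∀ i, |h i| < r) :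
    Summable (fun b => ν b * mon h b) := by
  have h1 : ‖h‖ < r := (pi_norm_lt_iff hr).2 fun i => by
    rw [Real.norm_eq_abs]
    exact hh i
  have h2 : ∀ i, |h i| ≤ ‖h‖ := fun i => norm_le_pi_norm h i
  have h3 := (hasSum_pow_dg (ι := Fin s) (y := ‖h‖ / r) (by positivity)
    ((div_lt_one hr).2 h1)).summable.mul_left B
  refine Summable.of_norm_bounded h3 fun b => ?_
  rw [Real.norm_eq_abs, abs_mul]
  calc |ν b| * |mon h b| ≤ (B * r⁻¹ ^ dg b) * ‖h‖ ^ dg b :=
        mul_le_mul (hν b) (abs_mon_le h2 b) (abs_nonneg _) (by positivity)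
    _ = B * (‖h‖ / r) ^ dg b := by rw [mul_assoc, ← mul_pow, div_eq_inv_mul]

private theorem XF10_two (n : ℕ) : (n : ℝ) ≤ 2 ^ n := by
  exact_mod_cast (Nat.lt_two_pow_self (n := n)).le

private theorem XF10_bound {s : ℕ} {r B : ℝ} {F : MvPowerSeries (Fin s) ℝ} (hr : 0 < r)
    (hb : ∀ b, |cf F b| ≤ B * r⁻¹ ^ dg b) (b : Fin s → ℕ) :
    |cf (eu F) b| ≤ B * (r / 2)⁻¹ ^ dg b := by
  have h1 : (r / 2)⁻¹ = 2 * r⁻¹ := by
    field_simp
  rw [XF10_cf, abs_mul, h1, mul_pow, abs_of_nonneg (Nat.cast_nonneg _)]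
  calc (dg b : ℝ) * |cf F b| ≤ 2 ^ dg b * (B * r⁻¹ ^ dg b) :=
        mul_le_mul (XF10_two _) (hb b) (abs_nonneg _) (by positivity)
    _ = B * (2 ^ dg b * r⁻¹ ^ dg b) := by ring

/-- PROOF. Let `f' θ = ∑' b, (dg b) * cf F b * mon (θ - p) b`. The coefficients: `cf (eu F) b = dg b * cf F b` (`coeff_eu`; the degree of `Finsupp.equivFunOnFinite.symm b` is `dg b`), and `|dg b * cf F b| ≤ B (r / 2)⁻¹ ^ dg b` as `n ≤ 2 ^ n`; the series converges absolutely for `|h i| < r / 2` (compare `hasSum_mon`, `hasSum_pow_dg` in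
PG/A3.lean and the proof of `Exp.approx`). So `Exp (r / 2) B p f' (cf (eu F))`. For small `h` (`|h i| < r / 8`, and `f` differentiable at `p + h`, `AnalyticAt.eventually_analyticAt`): `φ(t) = f(p + t h) = ∑' b, cf F b * t ^ dg b * mon h b` for `|t| < 8` (`mon_smul`); it has the derivative `∑' b, cf F b * dg b * mon h b = f'(p + h)` at `t = 1` (`hasDerivAt_tsum` / `hasDerivAt_tsum_of_isPreconnected`, or the power
series in `t` with the coefficients `∑ dg b = n`), and by the chain rule the derivative is `fderiv ℝ f (p + h) h = ∑ l, h l * fderiv ℝ f (p + h) (Pi.single l 1)` (`pi_eq_sum_univ`-like decomposition, `map_sum`, `map_smul`). -/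
theorem exp_eu {s : ℕ} {r B : ℝ} {p : Fin s → ℝ} {f : (Fin s → ℝ) → ℝ} {F : MvPowerSeries (Fin s) ℝ}
    (h : Exp r B p f (cf F)) (hr : 0 < r) (hB : 0 ≤ B) (hf : AnalyticAt ℝ f p) :
    ∃ f' : (Fin s → ℝ) → ℝ, Exp (r / 2) B p f' (cf (eu F)) ∧
      ∀ᶠ θ in 𝓝 p, f' θ = ∑ l, (θ l - p l) * fderiv ℝ f θ (Pi.single l 1) := by
  have hr2 : 0 < r / 2 := by positivity
  have hbd : ∀ b, |cf (eu F) b| ≤ B * (r / 2)⁻¹ ^ dg b := XF10_bound hr h.bound
  refine ⟨fun θ => ∑' b, cf (eu F) b * mon (θ - p) b, ⟨hbd, fun k hk => ?_⟩, ?_⟩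
  · have h1 := (XF10_summable hr2 hB hbd k hk).hasSum
    have h2 : p + k - p = k := add_sub_cancel_left p k
    show HasSum (fun b => cf (eu F) b * mon k b) (∑' b, cf (eu F) b * mon (p + k - p) b)
    rw [h2]
    exact h1
  · have hsmall : ∀ i, ∀ᶠ θ : Fin s → ℝ in 𝓝 p, |θ i - p i| < r / 8 := by
      intro i
      have h2 : Filter.Tendsto (fun θ : Fin s → ℝ => |θ i - p i|) (𝓝 p) (𝓝 |p i - p i|) :=
        (((continuous_apply i).sub continuous_const).abs).tendsto p
      rw [sub_self, abs_zero] at h2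
      exact h2.eventually_lt_const (by positivity)
    filter_upwards [Filter.eventually_all.2 hsmall, hf.eventually_analyticAt] with θ hθ hθa
    obtain ⟨k, hk⟩ : ∃ k : Fin s → ℝ, k = θ - p := ⟨_, rfl⟩
    have hki : ∀ i, |k i| < r / 8 := fun i => by
      rw [hk]
      exact hθ i
    have hθk : θ = p + k := by
      rw [hk]
      abel
    -- the derivative by the chain rule
    have hd1 : HasDerivAt (fun t : ℝ => f (p + t • k)) (fderiv ℝ f θ k) 1 := by
      have h1 : HasFDerivAt f (fderiv ℝ f θ) (p + (1 : ℝ) • k) := by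
        rw [one_smul, ← hθk]
        exact hθa.differentiableAt.hasFDerivAt
      have h2 : HasDerivAt (fun t : ℝ => p + t • k) k 1 := by
        have h3 := ((hasDerivAt_id (1 : ℝ)).smul_const k).const_add p
        rw [one_smul] at h3
        exact h3
      exact h1.comp_hasDerivAt 1 h2
    -- the derivative of the series
    have hsum2 : Summable (fun b : Fin s → ℕ => B * (1 / 2 : ℝ) ^ dg b) :=
      (hasSum_pow_dg (ι := Fin s) (y := 1 / 2) (by norm_num) (by norm_num)).summable.mul_left B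
    have hd2 : HasDerivAt (fun t : ℝ => ∑' b, cf F b * t ^ dg b * mon k b)
        (∑' b, cf F b * ((dg b : ℝ) * (1 : ℝ) ^ (dg b - 1)) * mon k b) 1 := by
      refine hasDerivAt_tsum_of_isPreconnected (g := fun b t => cf F b * t ^ dg b * mon k b)
        (g' := fun b t => cf F b * ((dg b : ℝ) * t ^ (dg b - 1)) * mon k b) hsum2
        (Metric.isOpen_ball (x := (0 : ℝ)) (ε := 2)) (convex_ball (0 : ℝ) 2).isPreconnected
        ?_ ?_ (Metric.mem_ball_self (by norm_num : (0 : ℝ) < 2)) ?_ ?_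
      · intro b t _
        exact ((hasDerivAt_pow (dg b) t).const_mul (cf F b)).mul_const (mon k b)
      · intro b t ht
        rw [Metric.mem_ball, dist_zero_right, Real.norm_eq_abs] at ht
        rw [Real.norm_eq_abs, abs_mul, abs_mul, abs_mul,
          abs_of_nonneg (Nat.cast_nonneg (α := ℝ) (dg b))]
        have h1 : |t ^ (dg b - 1)| ≤ 2 ^ dg b := by
          rw [abs_pow]
          calc |t| ^ (dg b - 1) ≤ 2 ^ (dg b - 1) := pow_le_pow_left₀ (abs_nonneg _) ht.le _
            _ ≤ 2 ^ dg b := pow_le_pow_right₀ (by norm_num) (Nat.sub_le _ _)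
        have h2 : |mon k b| ≤ (r / 8) ^ dg b := abs_mon_le (fun i => (hki i).le) b
        have h3 : (dg b : ℝ) * |t ^ (dg b - 1)| ≤ 2 ^ dg b * 2 ^ dg b :=
          mul_le_mul (XF10_two _) h1 (abs_nonneg _) (by positivity)
        calc |cf F b| * ((dg b : ℝ) * |t ^ (dg b - 1)|) * |mon k b|
            ≤ (B * r⁻¹ ^ dg b) * (2 ^ dg b * 2 ^ dg b) * (r / 8) ^ dg b := by
              refine mul_le_mul (mul_le_mul (h.bound b) h3 (by positivity) ?_) h2 (abs_nonneg _) ?_
              · positivity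
              · positivity
          _ = B * (1 / 2) ^ dg b := by
              rw [mul_assoc, mul_assoc, ← mul_pow, ← mul_pow, ← mul_pow]
              congr 2
              field_simp
              norm_num
      · have h1 : (fun b => cf F b * (0 : ℝ) ^ dg b * mon k b) =
            fun b => cf F b * mon (fun i => (0 : ℝ) * k i) b := by
          funext b
          rw [mon_smul, mul_assoc]
        show Summable (fun b => cf F b * (0 : ℝ) ^ dg b * mon k b)
        rw [h1]
        refine XF10_summable hr hB h.bound _ fun i => ?_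
        rw [zero_mul, abs_zero]
        exact hr
      · rw [Metric.mem_ball, dist_zero_right, norm_one]
        norm_num
    have hev : (fun t : ℝ => f (p + t • k)) =ᶠ[𝓝 1]
        fun t : ℝ => ∑' b, cf F b * t ^ dg b * mon k b := by
      have h1 : ∀ᶠ t : ℝ in 𝓝 1, |t| < 2 := by
        have h2 : Filter.Tendsto (fun t : ℝ => |t|) (𝓝 1) (𝓝 |(1 : ℝ)|) :=
          (continuous_abs).tendsto 1
        rw [abs_one] at h2
        exact h2.eventually_lt_const (by norm_num)
      filter_upwards [h1] with t ht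
      have h3 := h.sum (fun i => t * k i) fun i => by
        rw [abs_mul]
        have h4 : |t| * |k i| ≤ 2 * (r / 8) :=
          mul_le_mul ht.le (hki i).le (abs_nonneg _) (by norm_num)
        linarith
      have h5 : (fun b => cf F b * mon (fun i => t * k i) b) =
          fun b => cf F b * t ^ dg b * mon k b := by
        funext b
        rw [mon_smul, mul_assoc]
      rw [h5] at h3
      exact h3.tsum_eq.symm
    have hd3 := hd2.congr_of_eventuallyEq hev
    have heq : fderiv ℝ f θ k = ∑' b, cf F b * ((dg b : ℝ) * (1 : ℝ) ^ (dg b - 1)) * mon k b :=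
      hd1.unique hd3
    have hf' : (∑' b, cf (eu F) b * mon (θ - p) b) = fderiv ℝ f θ k := by
      rw [heq, ← hk]
      refine tsum_congr fun b => ?_
      rw [XF10_cf, one_pow]
      ring
    rw [hf']
    have h6 : k = ∑ l, k l • (Pi.single l 1 : Fin s → ℝ) := by
      funext j
      rw [Finset.sum_apply]
      simp [Pi.single_apply]
    conv_lhs => rw [h6]
    rw [map_sum]
    refine Finset.sum_congr rfl fun l _ => ?_
    rw [map_smul, smul_eq_mul, hk]
    rfl

end Pool.Agent.Lib.MP_bbe012_lc.XS
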