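import Pool.Agent.Lib.MP_bbe012_lc.XS.F10
import Pool.Agent.Lib.MP_bbe012_lc.PH.HA1

/-!
# LEAF XF11 (medium): from the analytic system to power series
-/

set_option autoImplicit false

namespace Pool.Agent.Lib.MP_bbe012_lc.XS

open MvPolynomial PG PH Topology

/-- expansions with some radius -/
private def XF11_Ex {s : ℕ} (p : Fin s → ℝ) (f : (Fin s → ℝ) → ℝ) (F : MvPowerSeries (Fin s) ℝ) : Prop :=
  ∃ r B : ℝ, 0 < r ∧ 0 ≤ B ∧ Exp r B p f (cf F)

private theorem XF11_common {s : ℕ} {J : Type} [Fintype J] {p : Fin s → ℝ} {f : J → (Fin s → ℝ) → ℝ}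
    {F : J → MvPowerSeries (Fin s) ℝ} (h : ∀ j, XF11_Ex p (f j) (F j)) :
    ∃ r B : ℝ, 0 < r ∧ 0 ≤ B ∧ ∀ j, Exp r B p (f j) (cf (F j)) := by
  choose r B hr hB hE using h
  have h1 : ∀ j, 0 < (r j)⁻¹ := fun j => inv_pos.2 (hr j)
  have h2 : 0 ≤ ∑ j, (r j)⁻¹ := Finset.sum_nonneg fun j _ => (h1 j).le
  have h3 : 0 < (1 + ∑ j, (r j)⁻¹)⁻¹ := by positivity
  refine ⟨(1 + ∑ j, (r j)⁻¹)⁻¹, ∑ j, B j, h3, Finset.sum_nonneg fun j _ => hB j, fun j => ?_⟩
  have h4 : (r j)⁻¹ ≤ ∑ j, (r j)⁻¹ :=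
    Finset.single_le_sum (f := fun j => (r j)⁻¹) (fun j _ => (h1 j).le) (Finset.mem_univ j)
  have h5 : (1 + ∑ j, (r j)⁻¹)⁻¹ ≤ r j := by
    rw [inv_le_comm₀ (by positivity) (hr j)]
    linarith
  exact ((hE j).mono_radius h3 h5 (hB j)).mono h3
    (Finset.single_le_sum (f := B) (fun j _ => hB j) (Finset.mem_univ j))

private theorem XF11_lin {s : ℕ} {J : Type} [Fintype J] {p : Fin s → ℝ} {f : J → (Fin s → ℝ) → ℝ}
    {F : J → MvPowerSeries (Fin s) ℝ} (h : ∀ j, XF11_Ex p (f j) (F j)) (x : J → ℝ)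
    {g : (Fin s → ℝ) → ℝ} {G : MvPowerSeries (Fin s) ℝ} (hg : ∀ θ, g θ = ∑ j, x j * f j θ)
    (hG : ∀ b, cf G b = ∑ j, x j * cf (F j) b) : XF11_Ex p g G := by
  obtain ⟨r, B, hr, hB, hE⟩ := XF11_common h
  have h1 := Exp.linear hE x
  have h2 : g = fun θ => ∑ j, x j * f j θ := funext hg
  have h3 : cf G = fun b => ∑ j, x j * cf (F j) b := funext hG
  refine ⟨r, (∑ j, |x j|) * B, hr, mul_nonneg (Finset.sum_nonneg fun _ _ => abs_nonneg _) hB, ?_⟩
  rw [h2, h3]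
  exact h1

private theorem XF11_sum {s : ℕ} {J : Type} [Fintype J] {p : Fin s → ℝ} {f : J → (Fin s → ℝ) → ℝ}
    {F : J → MvPowerSeries (Fin s) ℝ} (h : ∀ j, XF11_Ex p (f j) (F j)) :
    XF11_Ex p (fun θ => ∑ j, f j θ) (∑ j, F j) := by
  refine XF11_lin h (fun _ => 1) (fun θ => ?_) (fun b => ?_)
  · exact Finset.sum_congr rfl fun j _ => (one_mul _).symm
  · unfold cf
    rw [map_sum]
    exact Finset.sum_congr rfl fun j _ => (one_mul _).symm

private theorem XF11_sub {s : ℕ} {p : Fin s → ℝ} {f g : (Fin s → ℝ) → ℝ} {F G : MvPowerSeries (Fin s) ℝ}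
    (hf : XF11_Ex p f F) (hg : XF11_Ex p g G) : XF11_Ex p (fun θ => f θ - g θ) (F - G) := by
  have h : ∀ j : Bool, XF11_Ex p (bif j then f else g) (bif j then F else G) := by
    intro j
    cases j
    · exact hg
    · exact hf
  refine XF11_lin h (fun j => bif j then 1 else -1) (fun θ => ?_) (fun b => ?_)
  · rw [Fintype.sum_bool]
    change f θ - g θ = 1 * f θ + (-1) * g θ
    ring
  · rw [Fintype.sum_bool]
    change cf (F - G) b = 1 * cf F b + (-1) * cf G b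
    unfold cf
    rw [map_sub]
    ring

private theorem XF11_ext {s : ℕ} {p : Fin s → ℝ} {f g : (Fin s → ℝ) → ℝ} {F G : MvPowerSeries (Fin s) ℝ}
    (hf : XF11_Ex p f F) (hg : XF11_Ex p g G) (h : ∀ᶠ θ in 𝓝 p, f θ = g θ) : F = G := by
  obtain ⟨r, B, hr, hB, hE⟩ := XF11_sub hf hg
  have h1 := hE.unique hr hB (h.mono fun θ hθ => sub_eq_zero.2 hθ)
  refine sub_eq_zero.1 (MvPowerSeries.ext fun n => ?_)
  have h2 := h1 n
  unfold cf at h2
  have h3 : Finsupp.equivFunOnFinite.symm (n : Fin s → ℕ) = n :=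
    Finsupp.equivFunOnFinite.symm_apply_apply n
  rw [h3] at h2
  rw [h2, map_zero]

private theorem XF11_mul {s : ℕ} {p : Fin s → ℝ} {f : (Fin s → ℝ) → ℝ} {F : MvPowerSeries (Fin s) ℝ}
    (h : XF11_Ex p f F) (q : MvPolynomial (Fin s) ℝ) :
    XF11_Ex p (fun θ => eval (fun i => θ i - p i) q * f θ) ((q : MvPowerSeries (Fin s) ℝ) * F) := by
  obtain ⟨r, B, hr, hB, hE⟩ := h
  obtain ⟨B', hB', hE'⟩ := hE.mul_poly hr hB q
  exact ⟨r, B', hr, hB', hE'⟩

private theorem XF11_exists {s : ℕ} {p : Fin s → ℝ} {f : (Fin s → ℝ) → ℝ} (hf : AnalyticAt ℝ f p) :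
    ∃ F : MvPowerSeries (Fin s) ℝ, XF11_Ex p f F := by
  obtain ⟨r, B, ν, hr, hB, hE⟩ := exists_Exp hf
  exact ⟨fun β => ν β, r, B, hr, hB, hE⟩

private theorem XF11_sh {s : ℕ} (e : Fin s → ℚ) (q : MvPolynomial (Fin s) ℚ) (θ : Fin s → ℝ) :
    eval (fun i => θ i - (e i : ℝ)) (map (algebraMap ℚ ℝ) (sh e q)) = aeval θ q := by
  rw [eval_map]
  change aeval (fun i => θ i - (e i : ℝ)) (sh e q) = aeval θ q
  unfold sh
  have h : (aeval (fun i => θ i - (e i : ℝ)) : MvPolynomial (Fin s) ℚ →ₐ[ℚ] ℝ).comp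
      (aeval (fun i => X i + C (e i) : Fin s → MvPolynomial (Fin s) ℚ)) = aeval θ := by
    refine algHom_ext fun i => ?_
    rw [AlgHom.comp_apply, aeval_X, aeval_X, map_add, aeval_X, aeval_C, eq_ratCast]
    ring
  exact congrArg (fun φ : MvPolynomial (Fin s) ℚ →ₐ[ℚ] ℝ => φ q) h

private theorem XF11_rad {s N : ℕ} (e : Fin s → ℚ) (Γ : Fin s → Fin N → Fin N → MvPolynomial (Fin s) ℚ) (b b' : Fin N)
    (θ : Fin s → ℝ) :
    eval (fun i => θ i - (e i : ℝ)) (map (algebraMap ℚ ℝ) (rad (fun l b c => sh e (Γ l b c)) b b')) =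
      ∑ l, (θ l - (e l : ℝ)) * aeval θ (Γ l b b') := by
  unfold rad
  rw [map_sum, map_sum]
  refine Finset.sum_congr rfl fun l _ => ?_
  rw [map_mul, map_mul, map_X, eval_X, XF11_sh]

/-- PROOF. `exists_Exp` (PH/HA1.lean) for the finitely many functions `Y b`, `V i`; common radius `r₀` and bound `B` (`Exp.mono_radius`, `Exp.mono`; minimum over a finite set, or sums of inverses as in PM/Ct2.lean); the series are `Ys b = fun β => ν_b β` (so that `cf (Ys b) = ν_b`). For the first relation: the function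
`θ ↦ aeval θ δ * f'_b θ - ∑ b', aeval θ (∑ l, (X l - e l) * Γ l b b') * Y b' θ` vanishes near `e` (`exp_eu`; multiply the hypothesis by `θ l - e l` and sum over `l`). It has an expansion whose coefficients are those of the difference of the two sides: `Exp.mul_poly` (PG/BSer.lean; `aeval θ δ = eval (θ - e) (map (sh e δ))`,
`(θ l - e l) * aeval θ (Γ l b b') = eval (θ - e) (X l * map (sh e (Γ l b b')))`), `Exp.linear`; so all coefficients vanish by `Exp.unique`, and `cf` determines the power series (`MvPowerSeries.ext`). The second relation in the same way. -/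
theorem to_formal {s r N : ℕ} {e : Fin s → ℚ} {Y : Fin N → (Fin s → ℝ) → ℝ} {V : Fin r → (Fin s → ℝ) → ℝ}
    {δ : MvPolynomial (Fin s) ℚ} {Γ : Fin s → Fin N → Fin N → MvPolynomial (Fin s) ℚ}
    {R : Fin r → Fin N → MvPolynomial (Fin s) ℚ}
    (hYa : ∀ b, AnalyticAt ℝ (Y b) (fun i => (e i : ℝ))) (hVa : ∀ i, AnalyticAt ℝ (V i) (fun i => (e i : ℝ)))
    (hY : ∀ᶠ θ in 𝓝 (fun i => (e i : ℝ)), ∀ l b,
      aeval θ δ * fderiv ℝ (Y b) θ (Pi.single l 1) = ∑ c, aeval θ (Γ l b c) * Y c θ)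
    (hV : ∀ᶠ θ in 𝓝 (fun i => (e i : ℝ)), ∀ i, aeval θ δ * V i θ = ∑ b, aeval θ (R i b) * Y b θ) :
    ∃ (r₀ B : ℝ) (Ys : Fin N → MvPowerSeries (Fin s) ℝ) (Vs : Fin r → MvPowerSeries (Fin s) ℝ),
      0 < r₀ ∧ 0 ≤ B ∧ (∀ i, Exp r₀ B (fun i => (e i : ℝ)) (V i) (cf (Vs i))) ∧
      (∀ b, (map (algebraMap ℚ ℝ) (sh e δ) : MvPowerSeries (Fin s) ℝ) * eu (Ys b) =
        ∑ b', (map (algebraMap ℚ ℝ) (rad (fun l b c => sh e (Γ l b c)) b b') : MvPowerSeries (Fin s) ℝ) * Ys b') ∧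
      ∀ i, (map (algebraMap ℚ ℝ) (sh e δ) : MvPowerSeries (Fin s) ℝ) * Vs i =
        ∑ b, (map (algebraMap ℚ ℝ) (sh e (R i b)) : MvPowerSeries (Fin s) ℝ) * Ys b := by
  choose Ys hYs using fun b => XF11_exists (hYa b)
  choose Vs hVs using fun i => XF11_exists (hVa i)
  obtain ⟨r₀, B, hr₀, hB, hV'⟩ := XF11_common hVs
  refine ⟨r₀, B, Ys, Vs, hr₀, hB, hV', fun b => ?_, fun i => ?_⟩
  · obtain ⟨r, B, hr, hB, hE⟩ := hYs b
    obtain ⟨f', hf1, hf2⟩ := exp_eu hE hr hB (hYa b)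
    have h1 : XF11_Ex (fun i => (e i : ℝ)) f' (eu (Ys b)) := ⟨r / 2, B, by positivity, hB, hf1⟩
    refine XF11_ext (XF11_mul h1 _) (XF11_sum fun b' => XF11_mul (hYs b') _) ?_
    filter_upwards [hf2, hY] with θ h2 h3
    rw [XF11_sh, h2, Finset.mul_sum]
    have h4 : ∀ l, aeval θ δ * ((θ l - (e l : ℝ)) * fderiv ℝ (Y b) θ (Pi.single l 1)) =
        ∑ c, (θ l - (e l : ℝ)) * (aeval θ (Γ l b c) * Y c θ) := by
      intro l
      rw [← Finset.mul_sum, ← h3 l b]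
      ring
    rw [Finset.sum_congr rfl fun l _ => h4 l, Finset.sum_comm]
    refine Finset.sum_congr rfl fun c _ => ?_
    rw [XF11_rad, Finset.sum_mul]
    exact Finset.sum_congr rfl fun l _ => (mul_assoc _ _ _).symm
  · refine XF11_ext (XF11_mul (hVs i) _) (XF11_sum fun b => XF11_mul (hYs b) _) ?_
    filter_upwards [hV] with θ h3
    rw [XF11_sh, h3 i]
    exact Finset.sum_congr rfl fun c _ => by rw [XF11_sh]

end Pool.Agent.Lib.MP_bbe012_lc.XS
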