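import Pool.Agent.Lib.MP_bbe012_lc.XS.F0

/-!
# LEAF XF12 (easy+): translations of polynomials
-/

set_option autoImplicit false

namespace Pool.Agent.Lib.MP_bbe012_lc.XS

open MvPolynomial

private theorem f12_mono {R : Type} [CommRing R] {s : ℕ} (e : Fin s → R) (β : Fin s →₀ ℕ) (c : R) :
    sh e (monomial β c) = C c * ∏ i, (X i + C (e i)) ^ β i := by
  unfold sh
  rw [aeval_monomial, MvPolynomial.algebraMap_eq, Finsupp.prod_fintype]
  intro i
  exact pow_zero _

private theorem f12_sum {R : Type} [CommRing R] {s : ℕ} (e : Fin s → R) (p : MvPolynomial (Fin s) R) :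
    sh e p = ∑ β ∈ p.support, C (coeff β p) * ∏ i, (X i + C (e i)) ^ β i := by
  have h1 : sh e p = sh e (∑ β ∈ p.support, monomial β (coeff β p)) := by
    rw [← p.as_sum]
  rw [h1]
  have h2 : sh e (∑ β ∈ p.support, monomial β (coeff β p)) = ∑ β ∈ p.support, sh e (monomial β (coeff β p)) := by
    unfold sh
    rw [map_sum]
  rw [h2]
  exact Finset.sum_congr rfl fun β _ => f12_mono e β _

private theorem f12_mul {s : ℕ} {p P q Q : MvPolynomial (Fin s) ℝ} (h : ∀ α, |coeff α p| ≤ coeff α P)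
    (h' : ∀ α, |coeff α q| ≤ coeff α Q) (α : Fin s →₀ ℕ) : |coeff α (p * q)| ≤ coeff α (P * Q) := by
  rw [coeff_mul, coeff_mul]
  refine (Finset.abs_sum_le_sum_abs _ _).trans (Finset.sum_le_sum fun x _ => ?_)
  rw [abs_mul]
  exact mul_le_mul (h _) (h' _) (abs_nonneg _) ((abs_nonneg _).trans (h _))

private theorem f12_one {s : ℕ} (α : Fin s →₀ ℕ) :
    |coeff α (1 : MvPolynomial (Fin s) ℝ)| ≤ coeff α (1 : MvPolynomial (Fin s) ℝ) := by
  rw [coeff_one]
  split_ifs <;> simp

private theorem f12_pow {s : ℕ} {p P : MvPolynomial (Fin s) ℝ} (h : ∀ α, |coeff α p| ≤ coeff α P) (n : ℕ) :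
    ∀ α, |coeff α (p ^ n)| ≤ coeff α (P ^ n) := by
  induction n with
  | zero =>
    intro α
    rw [pow_zero, pow_zero]
    exact f12_one α
  | succ n ih =>
    intro α
    rw [pow_succ, pow_succ]
    exact f12_mul ih h α

private theorem f12_prod {s : ℕ} {ι : Type} (S : Finset ι) {p P : ι → MvPolynomial (Fin s) ℝ}
    (h : ∀ i α, |coeff α (p i)| ≤ coeff α (P i)) : ∀ α, |coeff α (∏ i ∈ S, p i)| ≤ coeff α (∏ i ∈ S, P i) := by
  classical
  induction S using Finset.induction_on with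
  | empty =>
    intro α
    rw [Finset.prod_empty, Finset.prod_empty]
    exact f12_one α
  | insert a S ha ih =>
    intro α
    rw [Finset.prod_insert ha, Finset.prod_insert ha]
    exact f12_mul (h a) ih α

private theorem f12_lin {s : ℕ} (e : Fin s → ℝ) (i : Fin s) (α : Fin s →₀ ℕ) :
    |coeff α (X i + C (e i) : MvPolynomial (Fin s) ℝ)| ≤ coeff α (X i + C |e i| : MvPolynomial (Fin s) ℝ) := by
  classical
  rw [coeff_add, coeff_add, coeff_X, coeff_C, coeff_C]
  refine (abs_add_le _ _).trans (add_le_add ?_ ?_)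
  · split_ifs <;> simp
  · split_ifs <;> simp

private theorem f12_eval {s : ℕ} (P : MvPolynomial (Fin s) ℝ) (h : ∀ α, 0 ≤ coeff α P) (α : Fin s →₀ ℕ) :
    coeff α P ≤ eval (fun _ => 1) P := by
  have h1 : eval (fun _ => (1 : ℝ)) P = ∑ β ∈ P.support, coeff β P := by
    rw [eval_eq]
    refine Finset.sum_congr rfl fun β _ => ?_
    simp
  rw [h1]
  by_cases hα : α ∈ P.support
  · exact Finset.single_le_sum (f := fun β => coeff β P) (fun β _ => h β) hα
  · rw [notMem_support_iff.mp hα]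
    exact Finset.sum_nonneg fun β _ => h β

private theorem f12_bd {s : ℕ} (e : Fin s → ℝ) (M : ℝ) (hM : ∀ i, |e i| ≤ M) (hM0 : 0 ≤ M) (D : ℕ) (β : Fin s →₀ ℕ)
    (hβ : ∑ i, β i ≤ D) (α : Fin s →₀ ℕ) :
    |coeff α (∏ i, (X i + C (e i)) ^ β i : MvPolynomial (Fin s) ℝ)| ≤ (1 + M) ^ D := by
  have h1 := f12_prod Finset.univ (p := fun i => (X i + C (e i) : MvPolynomial (Fin s) ℝ) ^ β i)
    (P := fun i => (X i + C |e i| : MvPolynomial (Fin s) ℝ) ^ β i) (fun i α => f12_pow (f12_lin e i) (β i) α)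
  refine (h1 α).trans ((f12_eval _ (fun γ => (abs_nonneg _).trans (h1 γ)) α).trans ?_)
  rw [map_prod]
  have h2 : ∀ i ∈ (Finset.univ : Finset (Fin s)),
      eval (fun _ => (1 : ℝ)) ((X i + C |e i| : MvPolynomial (Fin s) ℝ) ^ β i) ≤ (1 + M) ^ β i := by
    intro i _
    rw [map_pow, map_add, eval_X, eval_C]
    exact pow_le_pow_left₀ (by have := abs_nonneg (e i); linarith) (by have := hM i; linarith) _
  refine (Finset.prod_le_prod (fun i _ => ?_) h2).trans ?_
  · rw [map_pow, map_add, eval_X, eval_C]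
    have := abs_nonneg (e i)
    positivity
  · rw [Finset.prod_pow_eq_pow_sum]
    exact pow_le_pow_right₀ (by linarith) hβ

private theorem f12_deg {R : Type} [CommRing R] {s : ℕ} (p : MvPolynomial (Fin s) R) (β : Fin s →₀ ℕ)
    (hβ : β ∈ p.support) : ∑ i, β i ≤ p.totalDegree := by
  have h1 := le_totalDegree hβ
  rwa [Finsupp.sum_fintype _ _ (fun _ => rfl)] at h1

private theorem f12_card {s : ℕ} (p : MvPolynomial (Fin s) ℝ) (D : ℕ) (hp : p.totalDegree ≤ D) :
    p.support.card ≤ (D + 1) ^ s := by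
  classical
  have h1 : p.support.card ≤ Fintype.card (Fin s → Fin (D + 1)) := by
    rw [← Fintype.card_coe]
    refine Fintype.card_le_of_injective
      (fun β : p.support => fun i : Fin s => (⟨β.1 i, ?_⟩ : Fin (D + 1))) ?_
    · have h2 := (f12_deg p β.1 β.2).trans hp
      have h3 : β.1 i ≤ ∑ j, β.1 j := Finset.single_le_sum (f := fun j => β.1 j) (fun _ _ => Nat.zero_le _) (Finset.mem_univ i)
      omega
    · intro β γ hβγ
      apply Subtype.ext
      ext i
      have h2 := congrFun hβγ i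
      exact congrArg Fin.val h2
  rwa [Fintype.card_fun, Fintype.card_fin, Fintype.card_fin] at h1

/-- PROOF. `sh` is an algebra homomorphism: `MvPolynomial.induction_on`, or `eval` of `aeval` (`MvPolynomial.eval₂Hom`, `comp_aeval`). -/
theorem sh_eval {R : Type} [CommRing R] {s : ℕ} (e : Fin s → R) (p : MvPolynomial (Fin s) R) (h : Fin s → R) :
    eval h (sh e p) = eval (fun i => e i + h i) p := by
  unfold sh
  induction p using MvPolynomial.induction_on with
  | C a => simp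
  | add p q hp hq => rw [map_add, map_add, map_add, hp, hq]
  | mul_X p i hp =>
    rw [map_mul, map_mul, map_mul, hp, aeval_X, map_add, eval_X, eval_X, eval_C, add_comm]

/-- PROOF. Both sides are algebra homomorphisms of `p` which agree on the variables. -/
theorem sh_sh {R : Type} [CommRing R] {s : ℕ} (e : Fin s → R) (p : MvPolynomial (Fin s) R) :
    sh (fun i => - e i) (sh e p) = p := by
  unfold sh
  induction p using MvPolynomial.induction_on with
  | C a => simp
  | add p q hp hq => rw [map_add, map_add, hp, hq]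
  | mul_X p i hp =>
    rw [map_mul, map_mul, hp, aeval_X, map_add, aeval_X, aeval_C, MvPolynomial.algebraMap_eq, C_neg, neg_add_cancel_right]

/-- PROOF. `p` is the sum of its monomials; `aeval` of a monomial is `C c * ∏ (X i + C (e i)) ^ β i`, of total degree `≤ ∑ β i` (`totalDegree_mul`, `totalDegree_finset_prod`, `totalDegree_pow`, `totalDegree_add`; `totalDegree_finset_sum`). -/
theorem totalDegree_sh {R : Type} [CommRing R] {s : ℕ} (e : Fin s → R) (p : MvPolynomial (Fin s) R) :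
    (sh e p).totalDegree ≤ p.totalDegree := by
  rw [f12_sum]
  refine totalDegree_finsetSum_le fun β hβ => ?_
  refine (totalDegree_mul _ _).trans ?_
  rw [totalDegree_C, zero_add]
  refine (totalDegree_finsetProd _ _).trans ?_
  refine le_trans (Finset.sum_le_sum fun i _ => ?_) (f12_deg p β hβ)
  refine (totalDegree_pow _ _).trans ?_
  have h1 : (X i + C (e i) : MvPolynomial (Fin s) R).totalDegree ≤ 1 := by
    refine (totalDegree_add _ _).trans ?_
    rw [totalDegree_C]
    refine max_le ?_ (Nat.zero_le _)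
    unfold X
    refine (totalDegree_monomial_le _ _).trans ?_
    rw [Finsupp.sum_single_index rfl]
    exact le_rfl
  calc β i * (X i + C (e i) : MvPolynomial (Fin s) R).totalDegree ≤ β i * 1 := Nat.mul_le_mul_left _ h1
    _ = β i := mul_one _

/-- PROOF. The sum of the absolute values of the coefficients (`l1`) is submultiplicative and subadditive; for `X i + C (e i)` it is at most `1 + M`, `M` a bound for the `|e i|`. So for a monomial of degree `≤ D` it is at most `|c| (1 + M) ^ D`, and for `p` (at most `(D + 1) ^ s ≤ 2 ^ (s D)`.. monomials) at most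
`(D + 1) ^ s (1 + M) ^ D μ ≤ C ^ (D + 1) μ` with `C ≥ 2 ^ s (1 + M)` (`D + 1 ≤ 2 ^ D`). -/
theorem coeff_sh_le {s : ℕ} (e : Fin s → ℝ) :
    ∃ C : ℕ, 1 ≤ C ∧ ∀ (D : ℕ) (p : MvPolynomial (Fin s) ℝ), p.totalDegree ≤ D → ∀ μ : ℝ,
      (∀ α, |coeff α p| ≤ μ) → ∀ α, |coeff α (sh e p)| ≤ (C : ℝ) ^ (D + 1) * μ := by
  obtain ⟨M, hM⟩ : ∃ M : ℕ, ∀ i, |e i| ≤ (M : ℝ) := by
    obtain ⟨M, hM⟩ := exists_nat_ge (∑ i, |e i|)
    refine ⟨M, fun i => le_trans ?_ hM⟩
    exact Finset.single_le_sum (f := fun i => |e i|) (fun _ _ => abs_nonneg _) (Finset.mem_univ i)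
  refine ⟨2 ^ s * (1 + M), ?_, ?_⟩
  · exact Nat.mul_pos (pow_pos (by norm_num) s) (by omega)
  · intro D p hp μ hμ α
    have hμ0 : 0 ≤ μ := (abs_nonneg _).trans (hμ 0)
    have hM0 : (0 : ℝ) ≤ (M : ℝ) := Nat.cast_nonneg M
    have h1 : |coeff α (sh e p)| ≤ ∑ β ∈ p.support, μ * (1 + (M : ℝ)) ^ D := by
      rw [f12_sum, coeff_sum]
      refine (Finset.abs_sum_le_sum_abs _ _).trans (Finset.sum_le_sum fun β hβ => ?_)
      rw [coeff_C_mul, abs_mul]
      exact mul_le_mul (hμ β) (f12_bd e M hM hM0 D β ((f12_deg p β hβ).trans hp) α) (abs_nonneg _) hμ0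
    have h2 : (p.support.card : ℝ) ≤ ((2 : ℝ) ^ s) ^ D := by
      have h3 : p.support.card ≤ (2 ^ s) ^ D := by
        refine (f12_card p D hp).trans ?_
        rw [← pow_mul, mul_comm, pow_mul]
        exact Nat.pow_le_pow_left (Nat.lt_two_pow_self) s
      exact_mod_cast h3
    have h4 : (1 : ℝ) ≤ (2 : ℝ) ^ s * (1 + (M : ℝ)) := by
      have h5 : (1 : ℝ) ≤ (2 : ℝ) ^ s := one_le_pow₀ (by norm_num)
      have h6 : (1 : ℝ) ≤ 1 + (M : ℝ) := by linarith
      exact one_le_mul_of_one_le_of_one_le h5 h6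
    calc |coeff α (sh e p)| ≤ ∑ β ∈ p.support, μ * (1 + (M : ℝ)) ^ D := h1
      _ = (p.support.card : ℝ) * (μ * (1 + (M : ℝ)) ^ D) := by rw [Finset.sum_const, nsmul_eq_mul]
      _ ≤ ((2 : ℝ) ^ s) ^ D * (μ * (1 + (M : ℝ)) ^ D) := mul_le_mul_of_nonneg_right h2 (by positivity)
      _ = ((2 : ℝ) ^ s * (1 + (M : ℝ))) ^ D * μ := by rw [mul_pow]; ring
      _ ≤ ((2 : ℝ) ^ s * (1 + (M : ℝ))) ^ (D + 1) * μ :=
          mul_le_mul_of_nonneg_right (pow_le_pow_right₀ h4 (Nat.le_succ D)) hμ0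
      _ = ((2 ^ s * (1 + M) : ℕ) : ℝ) ^ (D + 1) * μ := by push_cast; rfl

end Pool.Agent.Lib.MP_bbe012_lc.XS
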