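import Pool.Agent.Lib.MP_bbe012_lc.XS.F0

/-!
# LEAF XF13 (medium): uniqueness of expansions, expansions at nearby points
-/

set_option autoImplicit false

namespace Pool.Agent.Lib.MP_bbe012_lc.XS

open PG

private theorem XF13_regroup {β γ : Type} {c : β → ℝ} {a : ℝ} (h : HasSum c a) (g : β → γ)
    (D : γ → Finset β) (hD : ∀ y x, g x = y ↔ x ∈ D y) : HasSum (fun y => ∑ x ∈ D y, c x) a := by
  have h1 : HasSum (c ∘ (Equiv.sigmaFiberEquiv g)) a := (Equiv.hasSum_iff _).mpr h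
  refine h1.sigma fun y => ?_
  have h2 : HasSum (c ∘ ((↑) : {x // x ∈ D y} → β)) (∑ b ∈ D y, c b) := Finset.hasSum (D y) c
  have h3 := (Equiv.hasSum_iff (Equiv.subtypeEquivRight (fun x => hD y x))).mpr h2
  exact h3

/-- product of binomial coefficients -/
private noncomputable def XF13_ch {s : ℕ} (b c : Fin s → ℕ) : ℝ := ∏ i, ((b i).choose (c i) : ℝ)

private theorem XF13_ch_nonneg {s : ℕ} (b c : Fin s → ℕ) : 0 ≤ XF13_ch b c :=
  Finset.prod_nonneg fun _ _ => Nat.cast_nonneg _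

private theorem XF13_ch_le {s : ℕ} (b c : Fin s → ℕ) : XF13_ch b c ≤ 2 ^ dg b := by
  unfold XF13_ch dg
  rw [← Finset.prod_pow_eq_pow_sum]
  refine Finset.prod_le_prod (fun _ _ => Nat.cast_nonneg _) fun i _ => ?_
  exact_mod_cast Nat.choose_le_two_pow (b i) (c i)

/-- the terms of the double series -/
private noncomputable def XF13_G {s : ℕ} (ν : (Fin s → ℕ) → ℝ) (k : Fin s → ℝ)
    (c b : Fin s → ℕ) : ℝ :=
  ν (b + c) * XF13_ch (b + c) c * mon k b

private theorem XF13_G_abs {s : ℕ} {r x : ℝ} {ν : (Fin s → ℕ) → ℝ} (hr : 0 < r)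
    {k : Fin s → ℝ} (hk : ∀ i, |k i| ≤ r / 8) (c b : Fin s → ℕ) (hx : |ν (b + c)| ≤ x) :
    |XF13_G ν k c b| ≤ x * 2 ^ dg (b + c) * (r / 8) ^ dg b := by
  unfold XF13_G
  rw [abs_mul, abs_mul, abs_of_nonneg (XF13_ch_nonneg _ _)]
  have h0 : 0 ≤ x := (abs_nonneg _).trans hx
  exact mul_le_mul (mul_le_mul hx (XF13_ch_le (b + c) c) (XF13_ch_nonneg _ _) h0) (abs_mon_le hk b)
    (abs_nonneg _) (by positivity)

private theorem XF13_G_bound {s : ℕ} {r B : ℝ} {ν : (Fin s → ℕ) → ℝ}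
    (hν : ∀ b, |ν b| ≤ B * r⁻¹ ^ dg b) (hr : 0 < r) (hB : 0 ≤ B) {k : Fin s → ℝ}
    (hk : ∀ i, |k i| ≤ r / 8) (c b : Fin s → ℕ) :
    |XF13_G ν k c b| ≤ B * (2 / r) ^ dg c * (1 / 4) ^ dg b := by
  refine (XF13_G_abs hr hk c b (hν (b + c))).trans (le_of_eq ?_)
  calc B * r⁻¹ ^ dg (b + c) * 2 ^ dg (b + c) * (r / 8) ^ dg b
      = B * (2 / r) ^ dg c * (r⁻¹ * 2 * (r / 8)) ^ dg b := by
        rw [dg_add, pow_add, pow_add, div_eq_mul_inv 2 r, mul_pow 2 r⁻¹, mul_pow (r⁻¹ * 2),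
          mul_pow r⁻¹ 2]
        ring
    _ = B * (2 / r) ^ dg c * (1 / 4) ^ dg b := by
        have : r⁻¹ * 2 * (r / 8) = 1 / 4 := by field_simp; norm_num
        rw [this]

private theorem XF13_binom {s : ℕ} (k h : Fin s → ℝ) (b : Fin s → ℕ) :
    ∑ c ∈ Fintype.piFinset (fun i => Finset.range (b i + 1)),
      XF13_ch b c * mon k (b - c) * mon h c = mon (k + h) b := by
  classical
  unfold mon XF13_ch
  have h1 : ∀ i, (k + h) i ^ b i = ∑ c ∈ Finset.range (b i + 1),
      ((b i).choose c : ℝ) * k i ^ (b i - c) * h i ^ c := by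
    intro i
    rw [Pi.add_apply, add_comm, add_pow]
    refine Finset.sum_congr rfl fun c _ => ?_
    ring
  rw [Finset.prod_congr rfl (fun i _ => h1 i), Finset.prod_univ_sum]
  refine Finset.sum_congr rfl fun c _ => ?_
  rw [← Finset.prod_mul_distrib, ← Finset.prod_mul_distrib]
  rfl

/-- the pairs `(c, b')` with `b' + c = b` -/
private noncomputable def XF13_P {s : ℕ} (b : Fin s → ℕ) : Finset ((Fin s → ℕ) × (Fin s → ℕ)) :=
  (Fintype.piFinset (fun i => Finset.range (b i + 1))).map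
    ⟨fun c => (c, b - c), fun _ _ h => (Prod.ext_iff.mp h).1⟩

private theorem XF13_P_mem {s : ℕ} (b : Fin s → ℕ) (x : (Fin s → ℕ) × (Fin s → ℕ)) :
    x.2 + x.1 = b ↔ x ∈ XF13_P b := by
  unfold XF13_P
  rw [Finset.mem_map]
  constructor
  · rintro rfl
    refine ⟨x.1, ?_, ?_⟩
    · rw [Fintype.mem_piFinset]
      intro i
      rw [Finset.mem_range, Pi.add_apply]
      omega
    · show (x.1, x.2 + x.1 - x.1) = x
      rw [add_tsub_cancel_right]
  · rintro ⟨c, hc, rfl⟩
    rw [Fintype.mem_piFinset] at hc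
    funext i
    show b i - c i + c i = b i
    have := hc i
    rw [Finset.mem_range] at this
    omega

private theorem XF13_half (s : ℕ) : HasSum (fun b : Fin s → ℕ => (1 / 2 : ℝ) ^ dg b) (2 ^ s) := by
  have h1 := hasSum_pow_dg (ι := Fin s) (y := 1 / 2) (by norm_num) (by norm_num)
  have h4 : ((1 - 1 / 2 : ℝ))⁻¹ = 2 := by norm_num
  rw [h4, Fintype.card_fin] at h1
  exact h1

/-- PROOF. `Exp.mono_radius`, `Exp.mono` to a common radius and bound, `Exp.linear` for the difference (`Fin 2`, coefficients `1, -1`), `Exp.unique` (PG/BSer.lean) for the function `0`. -/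
theorem exp_uniq {s : ℕ} {r r' B B' : ℝ} {p : Fin s → ℝ} {F : (Fin s → ℝ) → ℝ} {ν ν' : (Fin s → ℕ) → ℝ}
    (h : Exp r B p F ν) (h' : Exp r' B' p F ν') (hr : 0 < r) (hr' : 0 < r') (hB : 0 ≤ B) (hB' : 0 ≤ B') : ν = ν' := by
  have h1 : Exp (min r r') (max B B') p F ν :=
    (h.mono_radius (lt_min hr hr') (min_le_left _ _) hB).mono (lt_min hr hr') (le_max_left _ _)
  have h2 : Exp (min r r') (max B B') p F ν' :=
    (h'.mono_radius (lt_min hr hr') (min_le_right _ _) hB').mono (lt_min hr hr') (le_max_right _ _)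
  have hlin := Exp.linear (J := Bool) (N := fun _ => F) (ν := fun j => if j then ν else ν')
    (r := min r r') (B := max B B') (θ₀ := p) (fun j => by
      cases j
      · exact h2
      · exact h1) (fun j => if j then 1 else -1)
  funext b
  have hz := hlin.unique (lt_min hr hr') (mul_nonneg (Finset.sum_nonneg fun _ _ => abs_nonneg _)
    (le_max_of_le_left hB)) (Filter.Eventually.of_forall fun θ' => by
      rw [Fintype.sum_bool]
      simp) b
  rw [Fintype.sum_bool] at hz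
  simp at hz
  linarith

/-- PROOF. Let `d = q - p`, `|d i| ≤ r / 8`, and `bin c b = ∏ i, (c i).choose (b i)` (it vanishes unless `b ≤ c`). Put `ν' b = ∑' c, bin c b * ν c * mon d (c - b)`. Since `bin c b ≤ 2 ^ dg c` and `|mon d (c - b)| ≤ (r / 8) ^ (dg c - dg b)` for `b ≤ c`:
(1) `|ν' b| ≤ ∑_{c ≥ b} 2 ^ dg c |ν c| (r / 8) ^ (dg c - dg b)`. With `|ν c| ≤ ε` for `dg c ≤ L` and `|ν c| ≤ B r⁻¹ ^ dg c` for all `c`: the first part is at most `(8 / r) ^ dg b ε ∑_c (r / 4) ^ dg c ≤ (8 / r) ^ dg b ε (4 / 3) ^ s` (`r ≤ 1`), the second at most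
`(8 / r) ^ dg b B ∑_{dg c > L} (1 / 4) ^ dg c ≤ (8 / r) ^ dg b B (1 / 2) ^ L ∑_c (1 / 2) ^ dg c = (8 / r) ^ dg b B (1 / 2) ^ L 2 ^ s` (`hasSum_pow_dg`).
(2) The bound of `Exp (r / 2) (2 ^ s B)`: `|ν' b| ≤ ∑_{c ≥ b} bin c b B r⁻¹ ^ dg c (r / 8) ^ (dg c - dg b) = B r⁻¹ ^ dg b ∏ i, ∑_{c ≥ b i} c.choose (b i) (1 / 8) ^ (c - b i) = B r⁻¹ ^ dg b (8 / 7) ^ (dg b + s) ≤ 2 ^ s B (r / 2)⁻¹ ^ dg b` (`tsum_choose_mul_geometric`-like; or: bound `bin c b (1 / 8) ^ (dg c - dg b) ≤ 2 ^ dg b (1 / 4) ^ (dg c - dg b)`,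
since `Nat.choose c b ≤ 2 ^ c = 2 ^ b 2 ^ (c - b)`, and `∑ (1 / 4) ^ dg ≤ (4 / 3) ^ s`).
(3) The sum: for `|h i| < r / 2`: `F (q + h) = F (p + (d + h)) = ∑ c, ν c mon (d + h) c`, `mon (d + h) c = ∑_{b ≤ c} bin c b mon d (c - b) mon h b` (binomial theorem, `Finset.prod_add`/`add_pow` and `Finset.prod_univ_sum`), and the double family is absolutely summable: its sum is at most `B ∑ c, r⁻¹ ^ dg c ∏ (|d i| + |h i|) ^ c i < ∞` (`|d i| + |h i| ≤ 5 r / 8`); exchange the summations (`Summable.tsum_comm`,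
`HasSum.prod_fiberwise`/`HasSum.sigma`). -/
theorem reexp {s : ℕ} {r B : ℝ} {p q : Fin s → ℝ} {F : (Fin s → ℝ) → ℝ} {ν : (Fin s → ℕ) → ℝ}
    (h : Exp r B p F ν) (hr : 0 < r) (hr1 : r ≤ 1) (hB : 0 ≤ B) (hq : ∀ i, |q i - p i| ≤ r / 8) :
    ∃ ν' : (Fin s → ℕ) → ℝ, Exp (r / 2) (2 ^ s * B) q F ν' ∧
      ∀ (L : ℕ) (ε : ℝ), 0 ≤ ε → (∀ c, dg c ≤ L → |ν c| ≤ ε) →
        ∀ b, |ν' b| ≤ (8 / r) ^ dg b * 2 ^ s * (ε + B * (1 / 2) ^ L) := by
  classical
  have hhalf := XF13_half s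
  have hk : ∀ i, |(q - p) i| ≤ r / 8 := hq
  have hquart : ∀ m : ℕ, (1 / 4 : ℝ) ^ m ≤ (1 / 2) ^ m := fun m =>
    pow_le_pow_left₀ (by norm_num) (by norm_num) m
  have hbd : ∀ c b, |XF13_G ν (q - p) c b| ≤ B * (2 / r) ^ dg c * (1 / 2) ^ dg b := fun c b =>
    (XF13_G_bound h.bound hr hB hk c b).trans
      (mul_le_mul_of_nonneg_left (hquart _) (by positivity))
  refine ⟨fun c => ∑' b, XF13_G ν (q - p) c b, ⟨fun c => ?_, fun k hk2 => ?_⟩, ?_⟩
  · have h1 := hhalf.mul_left (B * (2 / r) ^ dg c)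
    have h2 : ‖∑' b, XF13_G ν (q - p) c b‖ ≤ B * (2 / r) ^ dg c * 2 ^ s := by
      refine tsum_of_norm_bounded h1 fun b => ?_
      rw [Real.norm_eq_abs]
      exact hbd c b
    rw [Real.norm_eq_abs] at h2
    refine h2.trans (le_of_eq ?_)
    rw [inv_div]
    ring
  · -- the double series
    have ht : ‖k‖ < r / 2 := by
      refine (pi_norm_lt_iff (by positivity)).2 fun i => ?_
      rw [Real.norm_eq_abs]
      exact hk2 i
    have hkt : ∀ i, |k i| ≤ ‖k‖ := fun i => by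
      have := norm_le_pi_norm k i
      rwa [Real.norm_eq_abs] at this
    have hy0 : 0 ≤ 2 / r * ‖k‖ := by positivity
    have hy1 : 2 / r * ‖k‖ < 1 := by
      have h1 : 2 / r * ‖k‖ < 2 / r * (r / 2) := mul_lt_mul_of_pos_left ht (by positivity)
      have h2 : 2 / r * (r / 2) = 1 := by field_simp
      rwa [h2] at h1
    have hsy := hasSum_pow_dg (ι := Fin s) hy0 hy1
    let Φ : (Fin s → ℕ) × (Fin s → ℕ) → ℝ := fun x => XF13_G ν (q - p) x.1 x.2 * mon k x.1
    have hqc : ∀ c : Fin s → ℕ, (2 / r) ^ dg c * |mon k c| ≤ (2 / r * ‖k‖) ^ dg c := by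
      intro c
      have h1 : |mon k c| ≤ ‖k‖ ^ dg c := abs_mon_le hkt c
      rw [mul_pow]
      exact mul_le_mul_of_nonneg_left h1 (by positivity)
    have hFs : Summable Φ := by
      have h1 : Summable (fun x : (Fin s → ℕ) × (Fin s → ℕ) =>
          ((2 / r * ‖k‖) ^ dg x.1) * ((1 / 2 : ℝ) ^ dg x.2)) :=
        Summable.mul_of_nonneg (f := fun b : Fin s → ℕ => (2 / r * ‖k‖) ^ dg b)
          (g := fun b : Fin s → ℕ => (1 / 2 : ℝ) ^ dg b) hsy.summable hhalf.summable
          (fun _ => by positivity) (fun _ => by positivity)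
      refine Summable.of_norm_bounded (h1.mul_left B) fun x => ?_
      rw [Real.norm_eq_abs]
      show |XF13_G ν (q - p) x.1 x.2 * mon k x.1| ≤ _
      rw [abs_mul]
      calc |XF13_G ν (q - p) x.1 x.2| * |mon k x.1|
          ≤ (B * (2 / r) ^ dg x.1 * (1 / 2) ^ dg x.2) * |mon k x.1| :=
            mul_le_mul_of_nonneg_right (hbd x.1 x.2) (abs_nonneg _)
        _ = B * (((2 / r) ^ dg x.1 * |mon k x.1|) * (1 / 2) ^ dg x.2) := by ring
        _ ≤ B * ((2 / r * ‖k‖) ^ dg x.1 * (1 / 2) ^ dg x.2) :=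
            mul_le_mul_of_nonneg_left (mul_le_mul_of_nonneg_right (hqc x.1) (by positivity)) hB
    have hS := hFs.hasSum
    -- grouping by the first variable
    have h1 : HasSum (fun c => (∑' b, XF13_G ν (q - p) c b) * mon k c) (∑' x, Φ x) := by
      refine HasSum.prod_fiberwise (f := Φ)
        (g := fun c => (∑' b, XF13_G ν (q - p) c b) * mon k c) hS (fun c => ?_)
      have h2 : Summable (fun b => XF13_G ν (q - p) c b) := by
        refine Summable.of_norm_bounded (hhalf.summable.mul_left (B * (2 / r) ^ dg c)) fun b => ?_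
        rw [Real.norm_eq_abs]
        exact hbd c b
      exact h2.hasSum.mul_right (mon k c)
    -- grouping by the sum
    have h3 := XF13_regroup hS (fun x => x.2 + x.1) XF13_P (fun b x => XF13_P_mem b x)
    have h4 : (fun b => ∑ x ∈ XF13_P b, Φ x) = fun b => ν b * mon ((q - p) + k) b := by
      funext b
      rw [← XF13_binom, Finset.mul_sum]
      unfold XF13_P
      rw [Finset.sum_map]
      refine Finset.sum_congr rfl fun c hc => ?_
      show ν (b - c + c) * XF13_ch (b - c + c) c * mon (q - p) (b - c) * mon k c = _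
      have h5 : b - c + c = b := by
        rw [Fintype.mem_piFinset] at hc
        funext i
        show b i - c i + c i = b i
        have := hc i
        rw [Finset.mem_range] at this
        omega
      rw [h5]
      ring
    rw [h4] at h3
    have h6 : ∀ i, |((q - p) + k) i| < r := by
      intro i
      have h7 : |(q - p) i| ≤ r / 8 := hk i
      have h8 := hk2 i
      have h9 : |(q - p) i + k i| ≤ |(q - p) i| + |k i| := abs_add_le _ _
      rw [Pi.add_apply]
      linarith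
    have h7 := h.sum _ h6
    have h8 : p + ((q - p) + k) = q + k := by
      rw [← add_assoc, add_sub_cancel]
    rw [h8] at h7
    rw [h7.unique h3]
    exact h1
  · intro L ε hε hL c
    have h1 := hhalf.mul_left ((8 / r) ^ dg c * (ε + B * (1 / 2) ^ L))
    have h2 : ‖∑' b, XF13_G ν (q - p) c b‖ ≤ (8 / r) ^ dg c * (ε + B * (1 / 2) ^ L) * 2 ^ s := by
      refine tsum_of_norm_bounded h1 fun b => ?_
      rw [Real.norm_eq_abs]
      rcases Nat.lt_or_ge L (dg (b + c)) with hlt | hle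
      · refine (XF13_G_bound h.bound hr hB hk c b).trans ?_
        have e1 : (2 / r) ^ dg c = (8 / r) ^ dg c * (1 / 4) ^ dg c := by
          rw [← mul_pow]
          congr 1
          ring
        have e2 : (1 / 4 : ℝ) ^ dg c * (1 / 4) ^ dg b ≤ (1 / 2) ^ dg b * (1 / 2) ^ L := by
          have e3 : (1 / 4 : ℝ) ^ dg c * (1 / 4) ^ dg b =
              (1 / 2) ^ dg (b + c) * (1 / 2) ^ dg (b + c) := by
            have e4 : (1 / 4 : ℝ) = 1 / 2 * (1 / 2) := by norm_num
            rw [dg_add, e4, mul_pow, mul_pow, pow_add]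
            ring
          rw [e3]
          refine mul_le_mul ?_ ?_ (by positivity) (by positivity)
          · refine pow_le_pow_of_le_one (by norm_num) (by norm_num) ?_
            rw [dg_add]
            omega
          · exact pow_le_pow_of_le_one (by norm_num) (by norm_num) hlt.le
        calc B * (2 / r) ^ dg c * (1 / 4) ^ dg b
            = B * (8 / r) ^ dg c * ((1 / 4) ^ dg c * (1 / 4) ^ dg b) := by
              rw [e1]
              ring
          _ ≤ B * (8 / r) ^ dg c * ((1 / 2) ^ dg b * (1 / 2) ^ L) :=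
              mul_le_mul_of_nonneg_left e2 (by positivity)
          _ ≤ (8 / r) ^ dg c * (ε + B * (1 / 2) ^ L) * (1 / 2) ^ dg b := by
              have e5 : 0 ≤ (8 / r) ^ dg c * ε * (1 / 2) ^ dg b := by positivity
              nlinarith [e5]
      · refine (XF13_G_abs hr hk c b (hL (b + c) hle)).trans ?_
        have e1 : ε * 2 ^ dg (b + c) * (r / 8) ^ dg b = ε * 2 ^ dg c * (r / 4) ^ dg b := by
          have e2 : r / 4 = 2 * (r / 8) := by ring
          rw [dg_add, pow_add, e2, mul_pow]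
          ring
        have e3 : (r / 4) ^ dg b ≤ (1 / 2) ^ dg b :=
          pow_le_pow_left₀ (by positivity) (by linarith) _
        have e4 : (2 : ℝ) ^ dg c ≤ (8 / r) ^ dg c := by
          refine pow_le_pow_left₀ (by norm_num) ?_ _
          rw [le_div_iff₀ hr]
          linarith
        rw [e1]
        calc ε * 2 ^ dg c * (r / 4) ^ dg b ≤ ε * (8 / r) ^ dg c * (1 / 2) ^ dg b :=
              mul_le_mul (mul_le_mul_of_nonneg_left e4 hε) e3 (by positivity) (by positivity)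
          _ ≤ (8 / r) ^ dg c * (ε + B * (1 / 2) ^ L) * (1 / 2) ^ dg b := by
              have e5 : 0 ≤ (8 / r) ^ dg c * (B * (1 / 2) ^ L) * (1 / 2) ^ dg b := by positivity
              nlinarith [e5]
    rw [Real.norm_eq_abs] at h2
    refine h2.trans (le_of_eq ?_)
    ring

end Pool.Agent.Lib.MP_bbe012_lc.XS
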