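import Pool.Agent.Lib.MP_bbe012_lc.XS.F0

/-!
# LEAF XF14 (medium-): upper bounds for the combinations
-/

set_option autoImplicit false

namespace Pool.Agent.Lib.MP_bbe012_lc.XS

open MvPolynomial PG

private theorem XF14_dg_single {s : ℕ} (i : Fin s) : dg (Pi.single i 1 : Fin s → ℕ) = 1 := by
  unfold dg
  rw [Finset.sum_eq_single i]
  · exact Pi.single_eq_same _ _
  · intro j _ hj
    exact Pi.single_eq_of_ne hj _
  · intro hi
    exact absurd (Finset.mem_univ i) hi

private theorem XF14_mon_single {s : ℕ} (k : Fin s → ℝ) (i : Fin s) :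
    mon k (Pi.single i 1 : Fin s → ℕ) = k i := by
  unfold mon
  rw [Finset.prod_eq_single i]
  · rw [Pi.single_eq_same, pow_one]
  · intro j _ hj
    rw [Pi.single_eq_of_ne hj, pow_zero]
  · intro hi
    exact absurd (Finset.mem_univ i) hi

private theorem XF14_sub_single {s : ℕ} {b : Fin s → ℕ} {i : Fin s} (hb : b i ≠ 0) :
    b = (b - Pi.single i 1) + Pi.single i 1 := by
  funext j
  rw [Pi.add_apply, Pi.sub_apply]
  rcases eq_or_ne j i with rfl | hj
  · rw [Pi.single_eq_same]
    omega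
  · rw [Pi.single_eq_of_ne hj]
    omega

private theorem XF14_coord {s : ℕ} {r B M : ℝ} {p : Fin s → ℝ} {f : (Fin s → ℝ) → ℝ}
    {m : (Fin s → ℕ) → ℝ} (h : Exp r B p f m) (hr : 0 < r) (hB : 0 ≤ B) (i : Fin s) (hM : |p i| ≤ M) :
    ∃ m', Exp r (B * (M + r)) p (fun θ => θ i * f θ) m' := by
  refine ⟨fun b => p i * m b + (if b i = 0 then 0 else m (b - Pi.single i 1)), fun b => ?_, fun k hk => ?_⟩
  · have h1 : |p i * m b| ≤ M * B * r⁻¹ ^ dg b := by
      rw [abs_mul, mul_assoc]
      exact mul_le_mul hM (h.bound b) (abs_nonneg _) ((abs_nonneg _).trans hM)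
    have h2 : |(if b i = 0 then 0 else m (b - Pi.single i 1) : ℝ)| ≤ B * r * r⁻¹ ^ dg b := by
      by_cases hb : b i = 0
      · rw [if_pos hb, abs_zero]
        positivity
      · rw [if_neg hb]
        refine (h.bound _).trans (le_of_eq ?_)
        have h3 : b = (b - Pi.single i 1) + Pi.single i 1 := XF14_sub_single hb
        have h4 : dg b = dg (b - Pi.single i 1) + 1 := by
          have h5 := dg_add (b - Pi.single i 1) (Pi.single i 1)
          rw [← h3, XF14_dg_single] at h5
          exact h5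
        rw [h4, pow_succ]
        field_simp
    refine (abs_add_le _ _).trans ((add_le_add h1 h2).trans (le_of_eq ?_))
    ring
  · have h1 := h.sum k hk
    have h2 := h1.mul_left (p i)
    have h3 : HasSum (fun b => (if b i = 0 then 0 else m (b - Pi.single i 1)) * mon k b)
        (k i * f (p + k)) := by
      have h4 : Function.Injective fun b : Fin s → ℕ => b + Pi.single i 1 := add_left_injective _
      refine (h4.hasSum_iff ?_).1 ?_
      · intro b hb
        by_cases hb0 : b i = 0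
        · rw [if_pos hb0, zero_mul]
        · exact absurd ⟨b - Pi.single i 1, (XF14_sub_single hb0).symm⟩ hb
      · have h5 : ((fun b => (if b i = 0 then 0 else m (b - Pi.single i 1)) * mon k b) ∘
            fun b : Fin s → ℕ => b + Pi.single i 1) = fun b => k i * (m b * mon k b) := by
          funext b
          have h6 : (b + Pi.single i 1 : Fin s → ℕ) i ≠ 0 := by
            rw [Pi.add_apply, Pi.single_eq_same]
            exact Nat.succ_ne_zero _
          change (if (b + Pi.single i 1 : Fin s → ℕ) i = 0 then 0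
            else m (b + Pi.single i 1 - Pi.single i 1)) * mon k (b + Pi.single i 1) = _
          rw [if_neg h6, add_tsub_cancel_right, mon_add, XF14_mon_single]
          ring
        rw [h5]
        exact h1.mul_left (k i)
    have h7 := h2.add h3
    have h8 : (p + k) i * f (p + k) = p i * f (p + k) + k i * f (p + k) := by
      rw [Pi.add_apply]
      ring
    change HasSum _ ((p + k) i * f (p + k))
    rw [h8]
    have h9 : (fun b => (p i * m b + (if b i = 0 then 0 else m (b - Pi.single i 1))) * mon k b) =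
        fun b => p i * (m b * mon k b) +
          (if b i = 0 then 0 else m (b - Pi.single i 1)) * mon k b := by
      funext b
      ring
    rw [h9]
    exact h7

private theorem XF14_mon {s : ℕ} {r B M : ℝ} {p : Fin s → ℝ} {f : (Fin s → ℝ) → ℝ}
    {m : (Fin s → ℕ) → ℝ} (h : Exp r B p f m) (hr : 0 < r) (hB : 0 ≤ B) (hM0 : 0 ≤ M)
    (hM : ∀ i, |p i| ≤ M) (n : ℕ) : ∀ a : Fin s → ℕ, dg a = n →
      ∃ m', Exp r (B * (M + r) ^ n) p (fun θ => mon θ a * f θ) m' := by
  induction n with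
  | zero =>
    intro a ha
    have h1 : ∀ i, a i = 0 := by
      intro i
      unfold dg at ha
      exact (Finset.sum_eq_zero_iff.1 ha) i (Finset.mem_univ i)
    refine ⟨m, ?_⟩
    have h2 : (fun θ => mon θ a * f θ) = f := by
      funext θ
      have h3 : mon θ a = 1 := by
        unfold mon
        exact Finset.prod_eq_one fun i _ => by rw [h1 i, pow_zero]
      rw [h3, one_mul]
    rw [h2, pow_zero, mul_one]
    exact h
  | succ n ih =>
    intro a ha
    obtain ⟨i, hi⟩ : ∃ i, a i ≠ 0 := by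
      by_contra hcon
      have h1 : ∀ i, a i = 0 := fun i => by
        by_contra h2
        exact hcon ⟨i, h2⟩
      unfold dg at ha
      rw [Finset.sum_eq_zero fun i _ => h1 i] at ha
      omega
    have h1 := XF14_sub_single hi
    have h2 : dg (a - Pi.single i 1) = n := by
      have h3 := dg_add (a - Pi.single i 1) (Pi.single i 1)
      rw [← h1, XF14_dg_single, ha] at h3
      omega
    obtain ⟨m', hm'⟩ := ih _ h2
    obtain ⟨m'', hm''⟩ := XF14_coord hm' hr (by positivity) i (hM i)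
    refine ⟨m'', ?_⟩
    have h4 : (fun θ : Fin s → ℝ => θ i * (mon θ (a - Pi.single i 1) * f θ)) =
        fun θ => mon θ a * f θ := by
      funext θ
      have h5 : mon θ a = mon θ (a - Pi.single i 1) * θ i := by
        rw [← XF14_mon_single θ i, ← mon_add, ← h1]
      rw [h5]
      ring
    rw [h4] at hm''
    rw [pow_succ, ← mul_assoc]
    exact hm''

private theorem XF14_eval {s D : ℕ} (z : MvPolynomial (Fin s) ℝ) (hz : z.totalDegree ≤ D) (θ : Fin s → ℝ) :
    eval θ z = ∑ a : Fin s → Fin (D + 1),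
      coeff (Finsupp.equivFunOnFinite.symm fun i => (a i : ℕ)) z * mon θ (fun i => (a i : ℕ)) := by
  classical
  rw [eval_eq']
  have hinj : Function.Injective fun a : Fin s → Fin (D + 1) =>
      (Finsupp.equivFunOnFinite.symm fun i => (a i : ℕ) : Fin s →₀ ℕ) := by
    intro a b hab
    have h1 := Finsupp.equivFunOnFinite.symm.injective hab
    funext i
    exact Fin.ext (congrFun h1 i)
  have h1 : ∑ d ∈ z.support, coeff d z * ∏ i, θ i ^ d i =
      ∑ d ∈ (Finset.univ.image fun a : Fin s → Fin (D + 1) =>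
        (Finsupp.equivFunOnFinite.symm fun i => (a i : ℕ) : Fin s →₀ ℕ)), coeff d z * ∏ i, θ i ^ d i := by
    apply Finset.sum_subset
    · intro d hd
      rw [Finset.mem_image]
      have h2 : ∀ i, d i < D + 1 := by
        intro i
        have h3 := le_totalDegree hd
        have h4 : d i ≤ d.sum fun _ e => e := by
          rw [Finsupp.sum_fintype _ _ (fun _ => rfl)]
          exact Finset.single_le_sum (f := fun i => d i) (fun _ _ => Nat.zero_le _) (Finset.mem_univ i)
        omega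
      refine ⟨fun i => ⟨d i, h2 i⟩, Finset.mem_univ _, ?_⟩
      ext i
      rfl
    · intro d _ hd
      rw [notMem_support_iff.1 hd, zero_mul]
  rw [h1, Finset.sum_image fun a _ b _ hab => hinj hab]
  rfl

/-- PROOF. Multiplication by a coordinate: if `Exp ρ B p f ν`, then `θ ↦ θ i * f θ` has an expansion at `p` with the same radius and the bound `B * (M + ρ)` (`θ i = p i + h i`; see the proof of `LA.mul_coord`, PG/A3.lean, and of `bser_X`, PG/BSer.lean: the coefficients are `p i * ν b + ν (b - e_i)`). By induction a monomial of degree `≤ D` gives the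
bound `B (M + ρ + 1) ^ D`, and `cb E V z` is a sum of at most `r (D + 1) ^ s` monomials times `V j`, with coefficients at most `1` (`Exp.linear`; write `eval θ (z j)` as the sum over the support, which has at most `(D + 1) ^ s` elements as all exponents are `≤ D`): `r (D + 1) ^ s B (M + ρ + 1) ^ D ≤ C ^ (D + 1)` for a natural number
`C ≥ (r + 1) (B + 1) 2 ^ s (M + ρ + 1)` (`D + 1 ≤ 2 ^ D`). `Exp.mono` for the final bound. -/
theorem exp_cb {s r : ℕ} (E : Finset (Fin r)) (V : Fin r → (Fin s → ℝ) → ℝ) (ρ B M : ℝ) (hρ : 0 < ρ) (hB : 0 ≤ B)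
    (hM : 0 ≤ M) :
    ∃ C : ℕ, 1 ≤ C ∧ ∀ p : Fin s → ℝ, (∀ i, |p i| ≤ M) → (∀ j, ∃ ν, Exp ρ B p (V j) ν) →
      ∀ (D : ℕ) (z : Fin r → MvPolynomial (Fin s) ℝ), (∀ j ∈ E, (z j).totalDegree ≤ D) →
        (∀ j ∈ E, ∀ α, |coeff α (z j)| ≤ 1) → ∃ ν, Exp ρ ((C : ℝ) ^ (D + 1)) p (cb E V z) ν := by
  classical
  have hX1 : (1 : ℝ) ≤ (M + ρ + 1) ^ s := one_le_pow₀ (by linarith)
  have hY1 : (1 : ℝ) ≤ 2 ^ s := one_le_pow₀ (by norm_num)
  have hr1 : (1 : ℝ) ≤ (r : ℝ) + 1 := by
    have : (0 : ℝ) ≤ r := Nat.cast_nonneg r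
    linarith
  have hB1 : (1 : ℝ) ≤ B + 1 := by linarith
  set Q : ℝ := ((r : ℝ) + 1) * (B + 1) * 2 ^ s * (M + ρ + 1) ^ s with hQ
  have hQ1 : 1 ≤ Q := by
    have h1 : 1 ≤ ((r : ℝ) + 1) * (B + 1) := one_le_mul_of_one_le_of_one_le hr1 hB1
    have h2 : 1 ≤ ((r : ℝ) + 1) * (B + 1) * 2 ^ s := one_le_mul_of_one_le_of_one_le h1 hY1
    exact one_le_mul_of_one_le_of_one_le h2 hX1
  have hceil : Q ≤ (⌈Q⌉₊ : ℝ) := Nat.le_ceil Q
  refine ⟨⌈Q⌉₊, ?_, ?_⟩
  · have h1 : (1 : ℝ) ≤ (⌈Q⌉₊ : ℝ) := hQ1.trans hceil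
    exact_mod_cast h1
  intro p hp hV D z hz hc
  have hmon : ∀ (j : Fin r) (a : Fin s → Fin (D + 1)), ∃ ν, Exp ρ (B * (M + ρ + 1) ^ (s * D)) p
      (fun θ => mon θ (fun i => (a i : ℕ)) * V j θ) ν := by
    intro j a
    obtain ⟨ν, hν⟩ := hV j
    obtain ⟨ν', hν'⟩ := XF14_mon hν hρ hB hM hp (dg fun i => (a i : ℕ)) (fun i => (a i : ℕ)) rfl
    refine ⟨ν', hν'.mono hρ ?_⟩
    apply mul_le_mul_of_nonneg_left _ hB
    have h1 : dg (fun i => (a i : ℕ)) ≤ s * D := by
      unfold dg
      calc ∑ i, (a i : ℕ) ≤ ∑ _i : Fin s, D := Finset.sum_le_sum fun i _ => Nat.lt_succ_iff.1 (a i).2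
        _ = s * D := by rw [Finset.sum_const, Finset.card_univ, Fintype.card_fin, smul_eq_mul]
    calc (M + ρ) ^ dg (fun i => (a i : ℕ)) ≤ (M + ρ + 1) ^ dg (fun i => (a i : ℕ)) :=
          pow_le_pow_left₀ (by linarith) (by linarith) _
      _ ≤ (M + ρ + 1) ^ (s * D) := pow_le_pow_right₀ (by linarith) h1
  choose ν hν using hmon
  have hlin := Exp.linear (J := Fin r × (Fin s → Fin (D + 1)))
    (N := fun q θ => mon θ (fun i => (q.2 i : ℕ)) * V q.1 θ) (ν := fun q => ν q.1 q.2)
    (fun q => hν q.1 q.2)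
    (fun q => if q.1 ∈ E then coeff (Finsupp.equivFunOnFinite.symm fun i => (q.2 i : ℕ)) (z q.1) else 0)
  have hfun : (fun θ => ∑ q : Fin r × (Fin s → Fin (D + 1)),
      (if q.1 ∈ E then coeff (Finsupp.equivFunOnFinite.symm fun i => (q.2 i : ℕ)) (z q.1) else 0) *
        (mon θ (fun i => (q.2 i : ℕ)) * V q.1 θ)) = cb E V z := by
    funext θ
    rw [Fintype.sum_prod_type]
    unfold cb
    rw [← Finset.sum_filter_add_sum_filter_not Finset.univ (fun j => j ∈ E)]
    have h1 : ∑ j ∈ Finset.univ.filter (fun j => ¬ j ∈ E), ∑ a : Fin s → Fin (D + 1),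
        (if (j, a).1 ∈ E then coeff (Finsupp.equivFunOnFinite.symm fun i => ((j, a).2 i : ℕ)) (z (j, a).1) else 0) *
          (mon θ (fun i => ((j, a).2 i : ℕ)) * V (j, a).1 θ) = 0 := by
      apply Finset.sum_eq_zero
      intro j hj
      apply Finset.sum_eq_zero
      intro a _
      rw [if_neg (Finset.mem_filter.1 hj).2, zero_mul]
    rw [h1, add_zero]
    have h2 : Finset.univ.filter (fun j => j ∈ E) = E := by
      ext j
      simp
    rw [h2]
    apply Finset.sum_congr rfl
    intro j hj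
    rw [XF14_eval (z j) (hz j hj) θ, Finset.sum_mul]
    apply Finset.sum_congr rfl
    intro a _
    rw [if_pos hj, mul_assoc]
  rw [hfun] at hlin
  refine ⟨_, hlin.mono hρ ?_⟩
  have hsum : ∑ q : Fin r × (Fin s → Fin (D + 1)),
      |(if q.1 ∈ E then coeff (Finsupp.equivFunOnFinite.symm fun i => (q.2 i : ℕ)) (z q.1) else 0)| ≤
      (r : ℝ) * ((D : ℝ) + 1) ^ s := by
    calc ∑ q : Fin r × (Fin s → Fin (D + 1)),
        |(if q.1 ∈ E then coeff (Finsupp.equivFunOnFinite.symm fun i => (q.2 i : ℕ)) (z q.1) else 0)| ≤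
        ∑ _q : Fin r × (Fin s → Fin (D + 1)), (1 : ℝ) := by
          apply Finset.sum_le_sum
          intro q _
          by_cases hq : q.1 ∈ E
          · rw [if_pos hq]
            exact hc _ hq _
          · rw [if_neg hq, abs_zero]
            exact zero_le_one
      _ = (r : ℝ) * ((D : ℝ) + 1) ^ s := by
          rw [Finset.sum_const, Finset.card_univ, Fintype.card_prod, Fintype.card_fin, Fintype.card_fun,
            Fintype.card_fin, Fintype.card_fin, nsmul_eq_mul, mul_one]
          push_cast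
          ring
  have hD : ((D : ℝ) + 1) ^ s ≤ (2 ^ s) ^ (D + 1) := by
    rw [← pow_mul, mul_comm s (D + 1), pow_mul]
    apply pow_le_pow_left₀ (by positivity)
    have h1 : D + 1 ≤ 2 ^ (D + 1) := Nat.lt_two_pow_self.le
    exact_mod_cast h1
  have hMp : (M + ρ + 1) ^ (s * D) ≤ ((M + ρ + 1) ^ s) ^ (D + 1) := by
    rw [← pow_mul]
    exact pow_le_pow_right₀ (by linarith) (Nat.mul_le_mul_left s (Nat.le_succ D))
  have hrp : (r : ℝ) ≤ ((r : ℝ) + 1) ^ (D + 1) := by
    have h1 : ((r : ℝ) + 1) ^ 1 ≤ ((r : ℝ) + 1) ^ (D + 1) := pow_le_pow_right₀ hr1 (by omega)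
    rw [pow_one] at h1
    linarith
  have hBp : B ≤ (B + 1) ^ (D + 1) := by
    have h1 : (B + 1) ^ 1 ≤ (B + 1) ^ (D + 1) := pow_le_pow_right₀ hB1 (by omega)
    rw [pow_one] at h1
    linarith
  have hr0 : (0 : ℝ) ≤ r := Nat.cast_nonneg r
  calc (∑ q : Fin r × (Fin s → Fin (D + 1)),
      |(if q.1 ∈ E then coeff (Finsupp.equivFunOnFinite.symm fun i => (q.2 i : ℕ)) (z q.1) else 0)|) *
        (B * (M + ρ + 1) ^ (s * D)) ≤ ((r : ℝ) * ((D : ℝ) + 1) ^ s) * (B * (M + ρ + 1) ^ (s * D)) :=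
        mul_le_mul_of_nonneg_right hsum (by positivity)
    _ ≤ (((r : ℝ) + 1) ^ (D + 1) * (2 ^ s) ^ (D + 1)) * ((B + 1) ^ (D + 1) * ((M + ρ + 1) ^ s) ^ (D + 1)) := by
        apply mul_le_mul
        · exact mul_le_mul hrp hD (by positivity) (by positivity)
        · exact mul_le_mul hBp hMp (by positivity) (by positivity)
        · positivity
        · positivity
    _ = Q ^ (D + 1) := by
        rw [hQ]
        simp only [mul_pow]
        ring
    _ ≤ ((⌈Q⌉₊ : ℕ) : ℝ) ^ (D + 1) := pow_le_pow_left₀ (by linarith) hceil _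

end Pool.Agent.Lib.MP_bbe012_lc.XS
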