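import Pool.Agent.Lib.MP_bbe012_lc.XS.F0

/-!
# LEAF XF4 (medium-): every solution of the radial equation is a combination of the columns of the fundamental matrix
-/

set_option autoImplicit false

namespace Pool.Agent.Lib.MP_bbe012_lc.XS

open MvPolynomial

private theorem XF4_eu_sub {R : Type} [CommRing R] {s : ℕ} (f g : MvPowerSeries (Fin s) R) :
    eu (f - g) = eu f - eu g := by
  ext β
  rw [map_sub, coeff_eu, coeff_eu, coeff_eu, map_sub, mul_sub]

private theorem XF4_eu_zero {R : Type} [CommRing R] {s : ℕ} :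
    eu (0 : MvPowerSeries (Fin s) R) = 0 := by
  ext β
  rw [coeff_eu, map_zero, mul_zero]

private theorem XF4_eu_add {R : Type} [CommRing R] {s : ℕ} (f g : MvPowerSeries (Fin s) R) :
    eu (f + g) = eu f + eu g := by
  ext β
  rw [map_add, coeff_eu, coeff_eu, coeff_eu, map_add, mul_add]

private theorem XF4_eu_sum {R ι : Type} [CommRing R] {s : ℕ} (S : Finset ι)
    (f : ι → MvPowerSeries (Fin s) R) : eu (∑ i ∈ S, f i) = ∑ i ∈ S, eu (f i) := by
  classical
  induction S using Finset.induction_on with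
  | empty => rw [Finset.sum_empty, Finset.sum_empty, XF4_eu_zero]
  | insert a S ha ih => rw [Finset.sum_insert ha, Finset.sum_insert ha, XF4_eu_add, ih]

private theorem XF4_eu_C {R : Type} [CommRing R] {s : ℕ} (a : R) (f : MvPowerSeries (Fin s) R) :
    eu (MvPowerSeries.C a * f) = MvPowerSeries.C a * eu f := by
  ext β
  rw [coeff_eu, MvPowerSeries.coeff_C_mul, MvPowerSeries.coeff_C_mul, coeff_eu]
  ring

private theorem XF4_toR_eu {s : ℕ} (f : MvPowerSeries (Fin s) ℚ) : toR (eu f) = eu (toR f) := by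
  ext β
  rw [coeff_eu]
  simp only [toR, MvPowerSeries.coeff_map, coeff_eu, map_mul, map_natCast]

private theorem XF4_coe {s : ℕ} (p : MvPolynomial (Fin s) ℚ) :
    (map (algebraMap ℚ ℝ) p : MvPowerSeries (Fin s) ℝ) = toR (p : MvPowerSeries (Fin s) ℚ) := by
  ext β
  simp only [toR, MvPowerSeries.coeff_map, MvPolynomial.coeff_coe, MvPolynomial.coeff_map]

private theorem XF4_mul_coeff {s : ℕ} {f g : MvPowerSeries (Fin s) ℝ} {β : Fin s →₀ ℕ}
    (hg : ∀ γ : Fin s →₀ ℕ, γ.degree < β.degree → MvPowerSeries.coeff γ g = 0) :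
    MvPowerSeries.coeff β (f * g) = MvPowerSeries.constantCoeff f * MvPowerSeries.coeff β g := by
  classical
  rw [MvPowerSeries.coeff_mul, Finset.sum_eq_single (0, β)]
  · rw [MvPowerSeries.coeff_zero_eq_constantCoeff_apply]
  · rintro ⟨i, j⟩ hij hne
    rw [Finset.HasAntidiagonal.mem_antidiagonal] at hij
    simp only at hij ⊢
    have hi : i ≠ 0 := by
      rintro rfl
      apply hne
      rw [zero_add] at hij
      rw [hij]
    have hd : i.degree + j.degree = β.degree := by rw [← hij, map_add]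
    have hi' : i.degree ≠ 0 := by
      rwa [Ne, Finsupp.degree_eq_zero_iff]
    rw [hg j (by omega), mul_zero]
  · intro h
    exfalso
    apply h
    rw [Finset.HasAntidiagonal.mem_antidiagonal]
    simp

private theorem XF4_unique {s N : ℕ} {δ : MvPowerSeries (Fin s) ℝ}
    (hδ : MvPowerSeries.constantCoeff δ ≠ 0)
    {G : Fin N → Fin N → MvPowerSeries (Fin s) ℝ}
    (hG : ∀ b c, MvPowerSeries.constantCoeff (G b c) = 0)
    {Z : Fin N → MvPowerSeries (Fin s) ℝ} (hZ : ∀ b, δ * eu (Z b) = ∑ b', G b b' * Z b')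
    (h0 : ∀ b, MvPowerSeries.constantCoeff (Z b) = 0) (b : Fin N) : Z b = 0 := by
  have key : ∀ n : ℕ, ∀ β : Fin s →₀ ℕ, β.degree = n → ∀ b, MvPowerSeries.coeff β (Z b) = 0 := by
    intro n
    induction n using Nat.strong_induction_on with
    | _ n ih =>
      intro β hβ b
      rcases Nat.eq_zero_or_pos n with hn | hn
      · have h1 : β = 0 := by
          rw [← Finsupp.degree_eq_zero_iff, hβ, hn]
        rw [h1, MvPowerSeries.coeff_zero_eq_constantCoeff_apply]
        exact h0 b
      · have hlow : ∀ b', ∀ γ : Fin s →₀ ℕ, γ.degree < β.degree →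
            MvPowerSeries.coeff γ (Z b') = 0 := fun b' γ hγ =>
          ih γ.degree (by omega) γ rfl b'
        have h1 := congrArg (MvPowerSeries.coeff β) (hZ b)
        rw [map_sum, XF4_mul_coeff (fun γ hγ => by rw [coeff_eu, hlow b γ hγ, mul_zero]),
          coeff_eu] at h1
        rw [Finset.sum_eq_zero (fun b' _ => by
          rw [XF4_mul_coeff (hlow b'), hG, zero_mul])] at h1
        have hn' : ((β.degree : ℕ) : ℝ) ≠ 0 := by
          rw [hβ]
          exact_mod_cast hn.ne'
        rcases mul_eq_zero.1 h1 with h2 | h2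
        · exact absurd h2 hδ
        · rcases mul_eq_zero.1 h2 with h3 | h3
          · exact absurd h3 hn'
          · exact h3
  ext β
  rw [key β.degree β rfl b, map_zero]

private theorem XF4_fund {s N : ℕ} {δ : MvPolynomial (Fin s) ℚ}
    {G : Fin N → Fin N → MvPolynomial (Fin s) ℚ}
    {U : Fin N → Fin N → MvPowerSeries (Fin s) ℚ} {q K : ℕ} (hU : Fund δ G U q K) (b c : Fin N) :
    (map (algebraMap ℚ ℝ) δ : MvPowerSeries (Fin s) ℝ) * eu (toR (U b c)) =
      ∑ b', (map (algebraMap ℚ ℝ) (G b b') : MvPowerSeries (Fin s) ℝ) * toR (U b' c) := by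
  rw [XF4_coe, ← XF4_toR_eu]
  have h1 := congrArg toR (hU.eq b c)
  simp only [toR, map_mul, map_sum] at h1 ⊢
  rw [h1]
  refine Finset.sum_congr rfl fun b' _ => ?_
  rw [XF4_coe]
  rfl

/-- PROOF. Let `Z b = Y b - ∑ c, C (y c) * U b c`, `y c = constantCoeff (Y c)`, `U` over the reals. The equation `δ * eu Z = G * Z` is linear (`eu` is additive and commutes with constants; `toR` is a ring homomorphism and `toR (eu f) = eu (toR f)`, `MvPowerSeries.coeff_map`; the coercion of `map (algebraMap ℚ ℝ) p` is `toR` of the coercion of `p`), and `constantCoeff (Z b) = 0` (`hU.init`).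
Claim: all coefficients of `Z` vanish, by strong induction on the degree `n` of `β`: for `n ≥ 1` the coefficient of `h ^ β` of the equation is `∑_γ δ_γ (n - |γ|) Z_(β-γ) = ∑_γ G_γ Z_(β-γ)`; the terms with `γ ≠ 0` vanish by induction, and `G_0 = 0`, so `δ_0 n Z_β = 0`. -/
theorem series_eq {s N : ℕ} {δ : MvPolynomial (Fin s) ℚ} (hδ : constantCoeff δ ≠ 0)
    {G : Fin N → Fin N → MvPolynomial (Fin s) ℚ} (hG : ∀ b c, constantCoeff (G b c) = 0)
    {U : Fin N → Fin N → MvPowerSeries (Fin s) ℚ} {q K : ℕ} (hU : Fund δ G U q K)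
    (Y : Fin N → MvPowerSeries (Fin s) ℝ)
    (hY : ∀ b, (map (algebraMap ℚ ℝ) δ : MvPowerSeries (Fin s) ℝ) * eu (Y b) =
      ∑ b', (map (algebraMap ℚ ℝ) (G b b') : MvPowerSeries (Fin s) ℝ) * Y b') (b : Fin N) :
    Y b = ∑ c, MvPowerSeries.C (MvPowerSeries.constantCoeff (Y c)) * toR (U b c) := by
  have hcoe : ∀ p : MvPolynomial (Fin s) ℚ,
      MvPowerSeries.constantCoeff (map (algebraMap ℚ ℝ) p : MvPowerSeries (Fin s) ℝ) =
        algebraMap ℚ ℝ (constantCoeff p) := by
    intro p
    rw [← MvPowerSeries.coeff_zero_eq_constantCoeff_apply, MvPolynomial.coeff_coe,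
      MvPolynomial.coeff_map, MvPolynomial.constantCoeff_eq]
  have hd : MvPowerSeries.constantCoeff (map (algebraMap ℚ ℝ) δ : MvPowerSeries (Fin s) ℝ) ≠ 0 := by
    rw [hcoe]
    exact fun h => hδ ((map_eq_zero_iff _ (algebraMap ℚ ℝ).injective).1 h)
  have hg : ∀ b c, MvPowerSeries.constantCoeff
      (map (algebraMap ℚ ℝ) (G b c) : MvPowerSeries (Fin s) ℝ) = 0 := by
    intro b c
    rw [hcoe, hG, map_zero]
  have h1 := XF4_unique (δ := (map (algebraMap ℚ ℝ) δ : MvPowerSeries (Fin s) ℝ)) hd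
    (G := fun b c => (map (algebraMap ℚ ℝ) (G b c) : MvPowerSeries (Fin s) ℝ)) hg
    (Z := fun b => Y b - ∑ c, MvPowerSeries.C (MvPowerSeries.constantCoeff (Y c)) * toR (U b c))
    (fun b => by
      simp only [XF4_eu_sub, XF4_eu_sum, XF4_eu_C, mul_sub, Finset.sum_sub_distrib, hY b,
        Finset.mul_sum]
      congr 1
      rw [Finset.sum_comm]
      refine Finset.sum_congr rfl fun c _ => ?_
      rw [mul_left_comm, XF4_fund hU b c, Finset.mul_sum]
      refine Finset.sum_congr rfl fun b' _ => ?_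
      rw [mul_left_comm])
    (fun b => by
      have hi : ∀ c, MvPowerSeries.constantCoeff (toR (U b c)) = if b = c then (1 : ℝ) else 0 := by
        intro c
        rw [toR, MvPowerSeries.constantCoeff_map, hU.init]
        split_ifs <;> simp
      simp only [map_sub, map_sum, map_mul, MvPowerSeries.constantCoeff_C, hi]
      simp) b
  exact sub_eq_zero.1 h1

/-- PROOF. As above: `toR` is a ring homomorphism (`MvPowerSeries.map`), `toR (eu f) = eu (toR f)` coefficientwise. -/
theorem fund_real {s N : ℕ} {δ : MvPolynomial (Fin s) ℚ} {G : Fin N → Fin N → MvPolynomial (Fin s) ℚ}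
    {U : Fin N → Fin N → MvPowerSeries (Fin s) ℚ} {q K : ℕ} (hU : Fund δ G U q K) (b c : Fin N) :
    (map (algebraMap ℚ ℝ) δ : MvPowerSeries (Fin s) ℝ) * eu (toR (U b c)) =
      ∑ b', (map (algebraMap ℚ ℝ) (G b b') : MvPowerSeries (Fin s) ℝ) * toR (U b' c) :=
  XF4_fund hU b c

end Pool.Agent.Lib.MP_bbe012_lc.XS
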