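import Mathlib

/-!
# LEAF XF5 (medium): small solutions of rational linear systems with real right sides
-/

set_option autoImplicit false

namespace Pool.Agent.Lib.MP_bbe012_lc.XS

private theorem f5_rank {I J : Type} [Fintype J] (A : Matrix I J ℚ) :
    ∃ (r : ℕ) (f : Fin r → I) (g : Fin r → J), Function.Injective g ∧ (A.submatrix f g).det ≠ 0 ∧
      ∃ c : I → Fin r → ℚ, ∀ i j, A i j = ∑ b, c i b * A (f b) j := by
  classical
  let P : ℕ → Prop := fun r => ∃ (f : Fin r → I) (g : Fin r → J), (A.submatrix f g).det ≠ 0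
  have hinj : ∀ r (f : Fin r → I) (g : Fin r → J), (A.submatrix f g).det ≠ 0 → Function.Injective g := by
    intro r f g hdet a b hab
    by_contra hne
    apply hdet
    exact Matrix.det_zero_of_column_eq hne (fun k => by rw [Matrix.submatrix_apply, Matrix.submatrix_apply, hab])
  have hle : ∀ r, P r → r ≤ Fintype.card J := by
    rintro r ⟨f, g, hdet⟩
    have h1 := Fintype.card_le_of_injective g (hinj r f g hdet)
    rwa [Fintype.card_fin] at h1
  have hP0 : P 0 := ⟨Fin.elim0, Fin.elim0, by rw [Matrix.det_isEmpty]; exact one_ne_zero⟩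
  let r := Nat.findGreatest P (Fintype.card J)
  have hr : P r := Nat.findGreatest_spec (Nat.zero_le _) hP0
  have hr1 : ¬ P (r + 1) := by
    intro h1
    exact Nat.findGreatest_is_greatest (Nat.lt_succ_self r) (hle _ h1) h1
  obtain ⟨f, g, hdet⟩ := hr
  refine ⟨r, f, g, hinj r f g hdet, hdet, fun i b => ∑ a, A i (g a) * (A.submatrix f g)⁻¹ a b, ?_⟩
  intro i j
  have h0 : (A.submatrix (Sum.elim f (fun _ : Fin 1 => i)) (Sum.elim g (fun _ : Fin 1 => j))).det = 0 := by
    by_contra hne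
    apply hr1
    refine ⟨Sum.elim f (fun _ : Fin 1 => i) ∘ finSumFinEquiv.symm,
      Sum.elim g (fun _ : Fin 1 => j) ∘ finSumFinEquiv.symm, ?_⟩
    rw [← Matrix.submatrix_submatrix, Matrix.det_submatrix_equiv_self]
    exact hne
  have hb : A.submatrix (Sum.elim f (fun _ : Fin 1 => i)) (Sum.elim g (fun _ : Fin 1 => j)) =
      Matrix.fromBlocks (A.submatrix f g) (A.submatrix f (fun _ => j)) (A.submatrix (fun _ => i) g)
        (A.submatrix (fun _ => i) (fun _ => j)) := by
    ext (a | a) (b | b) <;> rfl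
  have : Invertible (A.submatrix f g) := Matrix.invertibleOfIsUnitDet _ (isUnit_iff_ne_zero.mpr hdet)
  rw [hb, Matrix.det_fromBlocks₁₁, Matrix.invOf_eq_nonsing_inv] at h0
  have h1 := (mul_eq_zero.mp h0).resolve_left hdet
  rw [Matrix.det_fin_one, Matrix.sub_apply, sub_eq_zero, Matrix.mul_apply, Matrix.submatrix_apply] at h1
  rw [h1]
  refine Finset.sum_congr rfl fun b _ => ?_
  rw [Matrix.mul_apply]
  rfl

private theorem f5_det {r : ℕ} (M : Matrix (Fin r) (Fin r) ℚ) (Q : ℕ) (hQ : 1 ≤ Q)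
    (hint : ∀ i j, ∃ z : ℤ, (Q : ℚ) * M i j = z) (hM : M.det ≠ 0) : 1 ≤ (Q : ℝ) ^ r * |((M.det : ℚ) : ℝ)| := by
  choose z hz using hint
  have h1 : (Q : ℚ) ^ r * M.det = (((Matrix.of z).det : ℤ) : ℚ) := by
    have h2 : ((Q : ℚ) • M).det = (Q : ℚ) ^ r * M.det := by
      rw [Matrix.det_smul, Fintype.card_fin]
    rw [← h2]
    have h3 : (Q : ℚ) • M = (Int.castRingHom ℚ).mapMatrix (Matrix.of z) := by
      ext i j
      rw [Matrix.smul_apply, smul_eq_mul, hz i j]
      rfl
    rw [h3, ← RingHom.map_det]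
    rfl
  have hQ0 : (Q : ℚ) ^ r ≠ 0 := pow_ne_zero r (by exact_mod_cast (by omega : Q ≠ 0))
  have h4 : (Matrix.of z).det ≠ 0 := by
    intro h0
    rw [h0, Int.cast_zero] at h1
    exact (mul_ne_zero hQ0 hM) h1
  have h5 : (1 : ℤ) ≤ |(Matrix.of z).det| := Int.one_le_abs h4
  have h6 : ((Q : ℝ) ^ r * ((M.det : ℚ) : ℝ)) = (((Matrix.of z).det : ℤ) : ℝ) := by
    have h8 := congrArg (fun q : ℚ => (q : ℝ)) h1
    push_cast at h8
    push_cast
    exact h8
  have h7 : (Q : ℝ) ^ r * |((M.det : ℚ) : ℝ)| = |(Q : ℝ) ^ r * ((M.det : ℚ) : ℝ)| := by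
    rw [abs_mul, abs_of_nonneg (by positivity : (0 : ℝ) ≤ (Q : ℝ) ^ r)]
  rw [h7, h6]
  exact_mod_cast h5

private theorem f5_cramer {r : ℕ} (M : Matrix (Fin r) (Fin r) ℝ) (H μ : ℝ) (hH : 1 ≤ H) (hμ0 : 0 ≤ μ)
    (hM : ∀ i j, |M i j| ≤ H) (t : Fin r → ℝ) (ht : ∀ i, |t i| ≤ μ) (a : Fin r) :
    |Matrix.cramer M t a| ≤ (Nat.factorial r : ℝ) * (H ^ r * μ) := by
  rw [Matrix.cramer_apply, Matrix.det_apply]
  refine (Finset.abs_sum_le_sum_abs _ _).trans ?_
  have h1 : ∀ σ : Equiv.Perm (Fin r), |Equiv.Perm.sign σ • ∏ i, M.updateCol a t (σ i) i| ≤ H ^ r * μ := by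
    intro σ
    have h2 : |Equiv.Perm.sign σ • ∏ i, M.updateCol a t (σ i) i| = ∏ i, |M.updateCol a t (σ i) i| := by
      rcases Int.units_eq_one_or (Equiv.Perm.sign σ) with h | h
      · rw [h, one_smul, Finset.abs_prod]
      · rw [h, Units.neg_smul, one_smul, abs_neg, Finset.abs_prod]
    rw [h2, ← Finset.mul_prod_erase Finset.univ _ (Finset.mem_univ a)]
    have h3 : |M.updateCol a t (σ a) a| ≤ μ := by
      rw [Matrix.updateCol_self]
      exact ht _
    have h4 : ∏ i ∈ Finset.univ.erase a, |M.updateCol a t (σ i) i| ≤ ∏ _i ∈ Finset.univ.erase a, H := by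
      refine Finset.prod_le_prod (fun i _ => abs_nonneg _) fun i hi => ?_
      rw [Matrix.updateCol_ne (Finset.ne_of_mem_erase hi)]
      exact hM _ _
    have h5 : ∏ _i ∈ Finset.univ.erase a, H ≤ H ^ r := by
      rw [Finset.prod_const]
      refine pow_le_pow_right₀ hH ?_
      refine (Finset.card_le_univ _).trans ?_
      rw [Fintype.card_fin]
    calc |M.updateCol a t (σ a) a| * ∏ i ∈ Finset.univ.erase a, |M.updateCol a t (σ i) i| ≤ μ * H ^ r :=
          mul_le_mul h3 (h4.trans h5) (Finset.prod_nonneg fun i _ => abs_nonneg _) hμ0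
      _ = H ^ r * μ := mul_comm _ _
  refine (Finset.sum_le_sum fun σ _ => h1 σ).trans ?_
  rw [Finset.sum_const, Finset.card_univ, Fintype.card_perm, Fintype.card_fin, nsmul_eq_mul]

/-- PROOF. Let `r` be the rank of `A`, and choose `r` rows `I₀` and `r` columns `J₀` such that the submatrix `M` is invertible: first `r` linearly independent rows which span the row space (`exists_linearIndependent`), then `r` independent columns of this `r × J` matrix (compare the private theorem `a8_rows` in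
PG/A8.lean; `Matrix.linearIndependent_rows_iff_isUnit`). All rows of `A` are rational combinations of the rows `I₀`. `det M` is rational, not zero, and `Q ^ r det M = det (Q M)` is an integer, so `|det M| ≥ Q ^ (- r)`. Let `t i = ∑ j, A i j * w j` (`i ∈ I₀`) and `w'` the vector supported on `J₀` with
`M w' = t`, `w' = (det M)⁻¹ adjugate M t` (real numbers): `|w' j| ≤ Q ^ r * r * (r - 1)! H ^ (r - 1) μ ≤ (card J)! (Q H) ^ (card J) μ` (the entries of the adjugate are determinants of size `r - 1` with entries at most `H`: `Matrix.adjugate_apply`, `Matrix.det_apply`; or Cramer's rule, `Matrix.cramer_apply`: `det M * w' j` is the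
determinant of `M` with one column replaced by `t`, so at most `r! H ^ (r - 1) μ`). Then `∑ j, A i j * w' j = ∑ j, A i j * w j` for `i ∈ I₀`, and so for all `i`. (If `r = 0` then `A = 0`, `w' = 0`.) -/
theorem small_sol {I J : Type} [Fintype I] [DecidableEq I] [Fintype J] [DecidableEq J] (A : Matrix I J ℚ) (Q : ℕ)
    (hQ : 1 ≤ Q) (hint : ∀ i j, ∃ z : ℤ, (Q : ℚ) * A i j = z) (H : ℝ) (hH : 1 ≤ H)
    (hA : ∀ i j, |((A i j : ℚ) : ℝ)| ≤ H) (w : J → ℝ) (μ : ℝ) (hμ0 : 0 ≤ μ)
    (hμ : ∀ i, |∑ j, ((A i j : ℚ) : ℝ) * w j| ≤ μ) :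
    ∃ w' : J → ℝ, (∀ i, ∑ j, ((A i j : ℚ) : ℝ) * w' j = ∑ j, ((A i j : ℚ) : ℝ) * w j) ∧
      ∀ j, |w' j| ≤ (Nat.factorial (Fintype.card J) : ℝ) * ((Q : ℝ) * H) ^ Fintype.card J * μ := by
  classical
  obtain ⟨r, f, g, hg, hdet, c, hc⟩ := f5_rank A
  have hr : r ≤ Fintype.card J := by
    have h1 := Fintype.card_le_of_injective g hg
    rwa [Fintype.card_fin] at h1
  let M : Matrix (Fin r) (Fin r) ℝ := (Rat.castHom ℝ).mapMatrix (A.submatrix f g)
  have hMdet : M.det = (((A.submatrix f g).det : ℚ) : ℝ) := by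
    show ((Rat.castHom ℝ).mapMatrix (A.submatrix f g)).det = _
    rw [← RingHom.map_det]
    rfl
  have hMe : ∀ a b, M a b = ((A (f a) (g b) : ℚ) : ℝ) := fun a b => rfl
  let t : Fin r → ℝ := fun b => ∑ j, ((A (f b) j : ℚ) : ℝ) * w j
  let y : Fin r → ℝ := fun a => (M.det)⁻¹ * Matrix.cramer M t a
  have hM0 : M.det ≠ 0 := by
    rw [hMdet]
    exact_mod_cast hdet
  have hMy : ∀ b, ∑ a, ((A (f b) (g a) : ℚ) : ℝ) * y a = t b := by
    intro b
    have h1 := congrFun (Matrix.mulVec_cramer M t) b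
    have h2 : (M.mulVec (Matrix.cramer M t)) b = ∑ a, M b a * Matrix.cramer M t a := rfl
    have h3 : (M.det • t) b = M.det * t b := rfl
    rw [h2, h3] at h1
    calc ∑ a, ((A (f b) (g a) : ℚ) : ℝ) * y a = (M.det)⁻¹ * ∑ a, M b a * Matrix.cramer M t a := by
          rw [Finset.mul_sum]
          refine Finset.sum_congr rfl fun a _ => ?_
          rw [hMe]
          show _ * ((M.det)⁻¹ * Matrix.cramer M t a) = _
          ring
      _ = t b := by rw [h1, inv_mul_cancel_left₀ hM0]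
  have hyb : ∀ a, |y a| ≤ (Nat.factorial r : ℝ) * (((Q : ℝ) * H) ^ r * μ) := by
    intro a
    have h1 := f5_cramer M H μ hH hμ0 (fun i j => hA _ _) t (fun i => hμ _) a
    have h2 := f5_det (A.submatrix f g) Q hQ (fun i j => hint _ _) hdet
    have h3 : |(M.det)⁻¹| ≤ (Q : ℝ) ^ r := by
      rw [abs_inv, hMdet]
      have h4 : 0 < |(((A.submatrix f g).det : ℚ) : ℝ)| := by
        rw [← hMdet]
        exact abs_pos.mpr hM0
      rw [inv_le_iff_one_le_mul₀ h4]
      exact h2
    have h5 : |y a| = |(M.det)⁻¹| * |Matrix.cramer M t a| := abs_mul _ _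
    rw [h5]
    calc |(M.det)⁻¹| * |Matrix.cramer M t a| ≤ (Q : ℝ) ^ r * ((Nat.factorial r : ℝ) * (H ^ r * μ)) :=
          mul_le_mul h3 h1 (abs_nonneg _) (by positivity)
      _ = (Nat.factorial r : ℝ) * (((Q : ℝ) * H) ^ r * μ) := by
          rw [mul_pow]
          ring
  have hfin : (Nat.factorial r : ℝ) * (((Q : ℝ) * H) ^ r * μ) ≤
      (Nat.factorial (Fintype.card J) : ℝ) * ((Q : ℝ) * H) ^ Fintype.card J * μ := by
    have hQ1 : (1 : ℝ) ≤ (Q : ℝ) := by exact_mod_cast hQ
    have hQH : (1 : ℝ) ≤ (Q : ℝ) * H := one_le_mul_of_one_le_of_one_le hQ1 hH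
    have h1 : ((Q : ℝ) * H) ^ r ≤ ((Q : ℝ) * H) ^ Fintype.card J := pow_le_pow_right₀ hQH hr
    have h2 : (Nat.factorial r : ℝ) ≤ (Nat.factorial (Fintype.card J) : ℝ) := by
      exact_mod_cast Nat.factorial_le hr
    rw [← mul_assoc]
    refine mul_le_mul_of_nonneg_right ?_ hμ0
    exact mul_le_mul h2 h1 (by positivity) (by positivity)
  have hfin0 : 0 ≤ (Nat.factorial (Fintype.card J) : ℝ) * ((Q : ℝ) * H) ^ Fintype.card J * μ := by positivity
  refine ⟨fun j => ∑ a, if g a = j then y a else 0, ?_, ?_⟩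
  · intro i
    have h1 : ∑ j, ((A i j : ℚ) : ℝ) * (∑ a, if g a = j then y a else 0) = ∑ a, ((A i (g a) : ℚ) : ℝ) * y a := by
      simp only [Finset.mul_sum]
      rw [Finset.sum_comm]
      refine Finset.sum_congr rfl fun a _ => ?_
      rw [Finset.sum_eq_single (g a)]
      · rw [if_pos rfl]
      · intro j _ hj
        rw [if_neg (fun h => hj h.symm), mul_zero]
      · intro h
        exact absurd (Finset.mem_univ _) h
    have hci : ∀ j, ((A i j : ℚ) : ℝ) = ∑ b, ((c i b : ℚ) : ℝ) * ((A (f b) j : ℚ) : ℝ) := by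
      intro j
      rw [hc i j]
      push_cast
      rfl
    have h2 : ∀ b, ∑ a, ((A (f b) (g a) : ℚ) : ℝ) * y a = ∑ j, ((A (f b) j : ℚ) : ℝ) * w j := hMy
    rw [h1]
    calc ∑ a, ((A i (g a) : ℚ) : ℝ) * y a = ∑ a, ∑ b, ((c i b : ℚ) : ℝ) * (((A (f b) (g a) : ℚ) : ℝ) * y a) := by
          refine Finset.sum_congr rfl fun a _ => ?_
          rw [hci, Finset.sum_mul]
          refine Finset.sum_congr rfl fun b _ => ?_
          ring
      _ = ∑ b, ((c i b : ℚ) : ℝ) * ∑ a, ((A (f b) (g a) : ℚ) : ℝ) * y a := by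
          rw [Finset.sum_comm]
          refine Finset.sum_congr rfl fun b _ => ?_
          rw [Finset.mul_sum]
      _ = ∑ b, ((c i b : ℚ) : ℝ) * ∑ j, ((A (f b) j : ℚ) : ℝ) * w j := by
          refine Finset.sum_congr rfl fun b _ => ?_
          rw [h2]
      _ = ∑ j, ((A i j : ℚ) : ℝ) * w j := by
          simp only [Finset.mul_sum]
          rw [Finset.sum_comm]
          refine Finset.sum_congr rfl fun j _ => ?_
          rw [hci, Finset.sum_mul]
          refine Finset.sum_congr rfl fun b _ => ?_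
          ring
  · intro j
    by_cases hj : ∃ a, g a = j
    · obtain ⟨a, rfl⟩ := hj
      have h1 : (∑ b, if g b = g a then y b else 0) = y a := by
        rw [Finset.sum_eq_single a]
        · rw [if_pos rfl]
        · intro b _ hb
          rw [if_neg (fun h => hb (hg h))]
        · intro h
          exact absurd (Finset.mem_univ _) h
      show |∑ b, if g b = g a then y b else 0| ≤ _
      rw [h1]
      exact (hyb a).trans hfin
    · have h1 : (∑ b, if g b = j then y b else 0) = 0 := by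
        refine Finset.sum_eq_zero fun b _ => ?_
        rw [if_neg (fun h => hj ⟨b, h⟩)]
      show |∑ b, if g b = j then y b else 0| ≤ _
      rw [h1, abs_zero]
      exact hfin0

end Pool.Agent.Lib.MP_bbe012_lc.XS
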