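import Pool.Agent.Lib.MP_bbe012_lc.XS.F2
import Pool.Agent.Lib.MP_bbe012_lc.XS.F4
import Pool.Agent.Lib.MP_bbe012_lc.XS.F5

/-!
# LEAF XF6 (medium+): a combination of the entries of the fundamental matrix with small Taylor coefficients has small coefficients, up to relations
-/

set_option autoImplicit false

namespace Pool.Agent.Lib.MP_bbe012_lc.XS

open MvPolynomial

/-- exponents as finitely supported functions -/
private noncomputable def XF6e {s n : ℕ} (α : Fin s → Fin n) : Fin s →₀ ℕ :=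
  Finsupp.equivFunOnFinite.symm fun i => (α i : ℕ)

private theorem XF6e_apply {s n : ℕ} (α : Fin s → Fin n) (i : Fin s) : XF6e α i = (α i : ℕ) := rfl

private theorem XF6e_inj {s n : ℕ} {α α' : Fin s → Fin n} (h : XF6e α = XF6e α') : α = α' := by
  funext i
  apply Fin.ext
  have h1 := DFunLike.congr_fun h i
  rwa [XF6e_apply, XF6e_apply] at h1

private theorem XF6e_degree {s n : ℕ} (α : Fin s → Fin n) : (XF6e α).degree = ∑ i, (α i : ℕ) := by
  rw [Finsupp.degree_eq_sum]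
  rfl

/-- the exponents of degree at most `D` -/
private abbrev XF6A (s D : ℕ) : Type := {α : Fin s → Fin (D + 1) // ∑ i, (α i : ℕ) ≤ D}

private abbrev XF6J (s N D : ℕ) : Type := (Fin N × Fin N) × XF6A s D

private noncomputable def XF6P {s N D : ℕ} (x : XF6J s N D → ℝ) (b c : Fin N) : MvPolynomial (Fin s) ℝ :=
  ∑ α : XF6A s D, monomial (XF6e α.1) (x ((b, c), α))

private theorem XF6_coeff_some {s N D : ℕ} (x : XF6J s N D → ℝ) (b c : Fin N) (α : XF6A s D) :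
    coeff (XF6e α.1) (XF6P x b c) = x ((b, c), α) := by
  rw [XF6P, coeff_sum, Finset.sum_eq_single α]
  · rw [coeff_monomial, if_pos rfl]
  · intro α' _ h
    rw [coeff_monomial, if_neg]
    intro h1
    exact h (Subtype.ext (XF6e_inj h1))
  · intro h
    exact absurd (Finset.mem_univ α) h

private theorem XF6_coeff_none {s N D : ℕ} (x : XF6J s N D → ℝ) (b c : Fin N) (m : Fin s →₀ ℕ)
    (hm : ∀ α : XF6A s D, XF6e α.1 ≠ m) : coeff m (XF6P x b c) = 0 := by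
  rw [XF6P, coeff_sum]
  refine Finset.sum_eq_zero fun α _ => ?_
  rw [coeff_monomial, if_neg (hm α)]

private theorem XF6_exists {s D : ℕ} (m : Fin s →₀ ℕ) (hm : m.degree ≤ D) : ∃ α : XF6A s D, XF6e α.1 = m := by
  rw [Finsupp.degree_eq_sum] at hm
  have h1 : ∀ i, m i < D + 1 := fun i =>
    Nat.lt_succ_of_le ((Finset.single_le_sum (f := fun i => m i) (fun _ _ => Nat.zero_le _)
      (Finset.mem_univ i)).trans hm)
  refine ⟨⟨fun i => ⟨m i, h1 i⟩, hm⟩, ?_⟩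
  ext i
  rfl

private theorem XF6_rep {s N D : ℕ} (w : Fin N → Fin N → MvPolynomial (Fin s) ℝ)
    (hw : ∀ b c, (w b c).totalDegree ≤ D) (b c : Fin N) :
    XF6P (fun j : XF6J s N D => coeff (XF6e j.2.1) (w j.1.1 j.1.2)) b c = w b c := by
  ext m
  by_cases hm : m.degree ≤ D
  · obtain ⟨α, rfl⟩ := XF6_exists m hm
    rw [XF6_coeff_some]
  · rw [XF6_coeff_none]
    · rw [coeff_eq_zero_of_totalDegree_lt]
      exact lt_of_le_of_lt (hw b c) (not_le.1 hm)
    · intro α h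
      apply hm
      rw [← h, XF6e_degree]
      exact α.2

private theorem XF6_deg {s N D : ℕ} (x : XF6J s N D → ℝ) (b c : Fin N) : (XF6P x b c).totalDegree ≤ D := by
  refine totalDegree_finsetSum_le fun α _ => ?_
  refine (totalDegree_monomial_le _ _).trans ?_
  have h1 : ((XF6e α.1).sum fun _ => id) = (XF6e α.1).degree := rfl
  rw [h1, XF6e_degree]
  exact α.2

/-- the matrix -/
private noncomputable def XF6M {s N D L : ℕ} (U : Fin N → Fin N → MvPowerSeries (Fin s) ℚ) :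
    Matrix (Fin s → Fin L) (XF6J s N D) ℚ := fun β j =>
  if XF6e j.2.1 ≤ XF6e β then MvPowerSeries.coeff (XF6e β - XF6e j.2.1) (U j.1.1 j.1.2) else 0

private theorem XF6_phi {s N D L : ℕ} (U : Fin N → Fin N → MvPowerSeries (Fin s) ℚ) (x : XF6J s N D → ℝ)
    (β : Fin s → Fin L) : MvPowerSeries.coeff (XF6e β) (Phi (XF6P x) fun b c => toR (U b c)) =
      ∑ j, ((XF6M U β j : ℚ) : ℝ) * x j := by
  rw [Phi, map_sum, Fintype.sum_prod_type, Fintype.sum_prod_type]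
  refine Finset.sum_congr rfl fun b _ => ?_
  rw [map_sum]
  refine Finset.sum_congr rfl fun c _ => ?_
  rw [XF6P, ← MvPolynomial.coeToMvPowerSeries.ringHom_apply, map_sum, Finset.sum_mul, map_sum]
  refine Finset.sum_congr rfl fun α _ => ?_
  rw [MvPolynomial.coeToMvPowerSeries.ringHom_apply, coe_monomial, MvPowerSeries.coeff_monomial_mul]
  simp only [XF6M]
  split_ifs with h
  · rw [toR, MvPowerSeries.coeff_map, mul_comm]
    rfl
  · rw [Rat.cast_zero, zero_mul]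

private theorem XF6_sub {s N D : ℕ} (U : Fin N → Fin N → MvPowerSeries (Fin s) ℝ) (x y : XF6J s N D → ℝ) :
    Phi (XF6P fun j => x j - y j) U = Phi (XF6P x) U - Phi (XF6P y) U := by
  unfold Phi
  rw [← Finset.sum_sub_distrib]
  refine Finset.sum_congr rfl fun b _ => ?_
  rw [← Finset.sum_sub_distrib]
  refine Finset.sum_congr rfl fun c _ => ?_
  have h1 : XF6P (fun j => x j - y j) b c = XF6P x b c - XF6P y b c := by
    rw [XF6P, XF6P, XF6P, ← Finset.sum_sub_distrib]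
    refine Finset.sum_congr rfl fun α _ => ?_
    exact map_sub (monomial (XF6e α.1)) _ _
  rw [h1, ← sub_mul, ← MvPolynomial.coeToMvPowerSeries.ringHom_apply, map_sub,
    MvPolynomial.coeToMvPowerSeries.ringHom_apply, MvPolynomial.coeToMvPowerSeries.ringHom_apply]

private theorem XF6_card (s N D : ℕ) : Fintype.card (XF6J s N D) ≤ N ^ 2 * (D + 1) ^ s := by
  have h1 : Fintype.card (XF6A s D) ≤ (D + 1) ^ s := by
    refine (Fintype.card_subtype_le _).trans ?_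
    rw [Fintype.card_fun, Fintype.card_fin, Fintype.card_fin]
  rw [Fintype.card_prod, Fintype.card_prod, Fintype.card_fin, pow_two]
  exact Nat.mul_le_mul_left _ h1

private theorem XF6_fac (n : ℕ) : (n.factorial : ℝ) ≤ Real.exp ((n : ℝ) ^ 2) := by
  have h1 : (n.factorial : ℝ) ≤ (n : ℝ) ^ n := by exact_mod_cast Nat.factorial_le_pow n
  refine h1.trans ?_
  have h2 : (n : ℝ) ≤ Real.exp n := by
    have := Real.add_one_le_exp (n : ℝ)
    linarith
  refine (pow_le_pow_left₀ (Nat.cast_nonneg n) h2 n).trans (le_of_eq ?_)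
  rw [← Real.exp_nat_mul, pow_two]

private theorem XF6_pow (q n : ℕ) : ((q : ℝ) ^ n) ≤ Real.exp ((q : ℝ) * n) := by
  have h2 : (q : ℝ) ≤ Real.exp q := by
    have := Real.add_one_le_exp (q : ℝ)
    linarith
  refine (pow_le_pow_left₀ (Nat.cast_nonneg q) h2 n).trans (le_of_eq ?_)
  rw [← Real.exp_nat_mul, mul_comm]

/-- the final estimate -/
private theorem XF6_est (s N q K c₂ D n : ℕ) (hn : n ≤ N ^ 2 * (D + 1) ^ s) (C : ℕ)
    (hC : N ^ 4 + N ^ 2 * (q * c₂ + K * c₂ + c₂ ^ 2) ≤ C) :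
    (n.factorial : ℝ) * (((q ^ (c₂ * (D + 1)) * (c₂ * (D + 1)).factorial : ℕ) : ℝ) *
      ((K : ℝ) ^ (c₂ * (D + 1)))) ^ n ≤ Real.exp ((C : ℝ) * (D + 1) ^ (2 * s + 2)) := by
  obtain ⟨X, hX⟩ : ∃ X : ℝ, X = (D : ℝ) + 1 := ⟨_, rfl⟩
  have hX1 : 1 ≤ X := by
    have : (0 : ℝ) ≤ (D : ℝ) := Nat.cast_nonneg D
    linarith
  have hX0 : 0 ≤ X := by linarith
  have hnr : (n : ℝ) ≤ (N : ℝ) ^ 2 * X ^ s := by
    have : (n : ℝ) ≤ ((N ^ 2 * (D + 1) ^ s : ℕ) : ℝ) := by exact_mod_cast hn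
    rw [hX]
    push_cast at this
    exact this
  have hn0 : (0 : ℝ) ≤ n := Nat.cast_nonneg n
  have hL : (((c₂ * (D + 1) : ℕ)) : ℝ) = (c₂ : ℝ) * X := by
    rw [hX]
    push_cast
    ring
  have h1 : ((q ^ (c₂ * (D + 1)) * (c₂ * (D + 1)).factorial : ℕ) : ℝ) * ((K : ℝ) ^ (c₂ * (D + 1))) ≤
      Real.exp (((q : ℝ) * c₂ + K * c₂ + (c₂ : ℝ) ^ 2) * X ^ 2) := by
    have h2 := XF6_pow q (c₂ * (D + 1))
    have h3 := XF6_pow K (c₂ * (D + 1))
    have h4 := XF6_fac (c₂ * (D + 1))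
    rw [hL] at h2 h3 h4
    push_cast
    calc (q : ℝ) ^ (c₂ * (D + 1)) * ((c₂ * (D + 1)).factorial : ℝ) * (K : ℝ) ^ (c₂ * (D + 1))
        ≤ Real.exp ((q : ℝ) * (c₂ * X)) * Real.exp (((c₂ : ℝ) * X) ^ 2) * Real.exp ((K : ℝ) * (c₂ * X)) :=
          mul_le_mul (mul_le_mul h2 h4 (Nat.cast_nonneg _) (Real.exp_nonneg _)) h3
            (by positivity) (by positivity)
      _ = Real.exp ((q : ℝ) * (c₂ * X) + ((c₂ : ℝ) * X) ^ 2 + (K : ℝ) * (c₂ * X)) := by
          rw [Real.exp_add, Real.exp_add]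
      _ ≤ _ := by
          apply Real.exp_le_exp.2
          have hq : (0 : ℝ) ≤ (q : ℝ) * c₂ := by positivity
          have hK : (0 : ℝ) ≤ (K : ℝ) * c₂ := by positivity
          have hXX : X ≤ X ^ 2 := by nlinarith
          nlinarith [mul_le_mul_of_nonneg_left hXX hq, mul_le_mul_of_nonneg_left hXX hK]
  obtain ⟨E, hE⟩ : ∃ E : ℝ, E = (q : ℝ) * c₂ + K * c₂ + (c₂ : ℝ) ^ 2 := ⟨_, rfl⟩
  have hE0 : 0 ≤ E := by
    rw [hE]
    positivity
  rw [← hE] at h1
  have h2 : (n.factorial : ℝ) ≤ Real.exp ((N : ℝ) ^ 4 * X ^ (2 * s)) := by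
    refine (XF6_fac n).trans (Real.exp_le_exp.2 ?_)
    calc (n : ℝ) ^ 2 ≤ ((N : ℝ) ^ 2 * X ^ s) ^ 2 := pow_le_pow_left₀ hn0 hnr 2
      _ = (N : ℝ) ^ 4 * X ^ (2 * s) := by ring
  have h3 : (((q ^ (c₂ * (D + 1)) * (c₂ * (D + 1)).factorial : ℕ) : ℝ) *
      ((K : ℝ) ^ (c₂ * (D + 1)))) ^ n ≤ Real.exp ((N : ℝ) ^ 2 * X ^ s * (E * X ^ 2)) := by
    refine (pow_le_pow_left₀ (by positivity) h1 n).trans ?_
    rw [← Real.exp_nat_mul]
    apply Real.exp_le_exp.2
    exact mul_le_mul_of_nonneg_right hnr (by positivity)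
  have h4 : (N : ℝ) ^ 4 * X ^ (2 * s) + (N : ℝ) ^ 2 * X ^ s * (E * X ^ 2) ≤ (C : ℝ) * X ^ (2 * s + 2) := by
    have h5 : X ^ (2 * s) ≤ X ^ (2 * s + 2) := pow_le_pow_right₀ hX1 (by omega)
    have h6 : X ^ (s + 2) ≤ X ^ (2 * s + 2) := pow_le_pow_right₀ hX1 (by omega)
    have h7 : (N : ℝ) ^ 4 + (N : ℝ) ^ 2 * E ≤ (C : ℝ) := by
      rw [hE]
      exact_mod_cast hC
    have hN4 : (0 : ℝ) ≤ (N : ℝ) ^ 4 := by positivity
    have hN2 : (0 : ℝ) ≤ (N : ℝ) ^ 2 * E := by positivity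
    calc (N : ℝ) ^ 4 * X ^ (2 * s) + (N : ℝ) ^ 2 * X ^ s * (E * X ^ 2)
        = (N : ℝ) ^ 4 * X ^ (2 * s) + (N : ℝ) ^ 2 * E * X ^ (s + 2) := by ring
      _ ≤ (N : ℝ) ^ 4 * X ^ (2 * s + 2) + (N : ℝ) ^ 2 * E * X ^ (2 * s + 2) :=
          add_le_add (mul_le_mul_of_nonneg_left h5 hN4) (mul_le_mul_of_nonneg_left h6 hN2)
      _ = ((N : ℝ) ^ 4 + (N : ℝ) ^ 2 * E) * X ^ (2 * s + 2) := by ring
      _ ≤ _ := mul_le_mul_of_nonneg_right h7 (by positivity)
  rw [← hX]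
  refine (mul_le_mul h2 h3 (by positivity) (Real.exp_nonneg _)).trans ?_
  rw [← Real.exp_add]
  exact Real.exp_le_exp.2 h4

/-- PROOF. `C₁` from `zero_mv` for the real matrices (`fund_real`; `map (rad Γ b b') = rad (map Γ) b b'`). Let `L = C₁ (D + 1)`. The matrix `A : I × J → ℚ`, `I` = the exponents `β` of degree `< L` (a finite set, e.g. functions `Fin s → Fin L` restricted to degree `< L`, or the subtype of a Finset), `J` = the triples
`(b, c, α)`, `α` an exponent of degree `≤ D`, `A β (b, c, α) = coeff (β - α) (U b c)` if `α ≤ β`, else `0`. For `w` with `totalDegree ≤ D`: `coeff β (Phi w U) = ∑ (b, c, α), A β (b, c, α) * coeff α (w b c)` (`MvPowerSeries.coeff_mul`, `MvPolynomial.coeff_coe`, `coeff_eq_zero_of_totalDegree_lt`).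
`Q = q ^ L L!` is a common denominator (`hU.den`: `q ^ n n!` divides `q ^ L L!` for `n ≤ L`), `H = K ^ L`. `small_sol` gives `w'` with the same truncated coefficients and `|w'| ≤ (card J)! (Q H) ^ (card J) μ`; `Phi (w - w') U = 0` by `zero_mv` (`Phi` is additive), so `Phi w' U = Phi w U`.
`card J ≤ N ^ 2 (D + 1) ^ s` (or any polynomial bound), `n! ≤ n ^ n ≤ exp (n ^ 2)`, `Q H ≤ exp (c (D + 1) ^ 2)` with a constant `c`, so the factor is at most `exp (C (D + 1) ^ a)` with, say, `a = 2 s + 2`. -/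
theorem small_lift {s N : ℕ} {δ : MvPolynomial (Fin s) ℚ} (hδ : constantCoeff δ ≠ 0)
    {Γ : Fin s → Fin N → Fin N → MvPolynomial (Fin s) ℚ}
    {U : Fin N → Fin N → MvPowerSeries (Fin s) ℚ} {q K : ℕ} (hU : Fund δ (rad Γ) U q K) :
    ∃ C a : ℕ, 1 ≤ C ∧ ∀ (D : ℕ) (w : Fin N → Fin N → MvPolynomial (Fin s) ℝ), (∀ b c, (w b c).totalDegree ≤ D) →
      ∀ μ : ℝ, 0 ≤ μ →
      (∀ β : Fin s →₀ ℕ, β.degree < C * (D + 1) →
        |MvPowerSeries.coeff β (Phi w fun b c => toR (U b c))| ≤ μ) →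
      ∃ w' : Fin N → Fin N → MvPolynomial (Fin s) ℝ, (∀ b c, (w' b c).totalDegree ≤ D) ∧
        (Phi w' fun b c => toR (U b c)) = (Phi w fun b c => toR (U b c)) ∧
        ∀ b c α, |coeff α (w' b c)| ≤ Real.exp ((C : ℝ) * (D + 1) ^ a) * μ := by
  classical
  obtain ⟨C₁, hC₁⟩ := zero_mv (map (algebraMap ℚ ℝ) δ) (by
      rw [constantCoeff_map]
      exact (map_ne_zero_iff _ (algebraMap ℚ ℝ).injective).2 hδ)
    (fun l b b' => map (algebraMap ℚ ℝ) (Γ l b b')) (fun b c => toR (U b c)) (by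
      intro b c
      rw [fund_real hU b c]
      refine Finset.sum_congr rfl fun b' _ => ?_
      congr 2
      rw [rad, rad, map_sum]
      refine Finset.sum_congr rfl fun l _ => ?_
      rw [map_mul, map_X])
  obtain ⟨c₂, hc₂⟩ : ∃ c₂ : ℕ, c₂ = s * C₁ := ⟨_, rfl⟩
  refine ⟨1 + C₁ + c₂ + (N ^ 4 + N ^ 2 * (q * c₂ + K * c₂ + c₂ ^ 2)), 2 * s + 2, by omega, ?_⟩
  intro D w hw μ hμ0 hμ
  obtain ⟨C, hC⟩ : ∃ C : ℕ, C = 1 + C₁ + c₂ + (N ^ 4 + N ^ 2 * (q * c₂ + K * c₂ + c₂ ^ 2)) := ⟨_, rfl⟩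
  rw [← hC] at hμ ⊢
  obtain ⟨L, hL⟩ : ∃ L : ℕ, L = C₁ * (D + 1) := ⟨_, rfl⟩
  obtain ⟨x, hx⟩ : ∃ x : XF6J s N D → ℝ, x = fun j => coeff (XF6e j.2.1) (w j.1.1 j.1.2) := ⟨_, rfl⟩
  have hwx : XF6P x = w := by
    funext b c
    rw [hx]
    exact XF6_rep w hw b c
  -- the degrees of the rows
  have hrow : ∀ β : Fin s → Fin L, (XF6e β).degree ≤ c₂ * (D + 1) := by
    intro β
    rw [XF6e_degree]
    refine (Finset.sum_le_card_nsmul Finset.univ _ L fun i _ => (β i).2.le).trans (le_of_eq ?_)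
    rw [Finset.card_univ, Fintype.card_fin, smul_eq_mul, hL, hc₂]
    ring
  have hrowC : c₂ * (D + 1) < C * (D + 1) := by
    refine Nat.mul_lt_mul_of_pos_right ?_ (Nat.succ_pos D)
    rw [hC]
    omega
  have hsub : ∀ (β : Fin s → Fin L) (j : XF6J s N D),
      (XF6e β - XF6e j.2.1).degree ≤ c₂ * (D + 1) := by
    intro β j
    refine le_trans ?_ (hrow β)
    rw [Finsupp.degree_eq_sum, Finsupp.degree_eq_sum]
    refine Finset.sum_le_sum fun i _ => ?_
    rw [Finsupp.tsub_apply]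
    exact Nat.sub_le _ _
  have hq1 := hU.q1
  have hK1 := hU.K1
  obtain ⟨x', hx'1, hx'2⟩ := small_sol (XF6M U : Matrix (Fin s → Fin L) (XF6J s N D) ℚ)
    (q ^ (c₂ * (D + 1)) * (c₂ * (D + 1)).factorial)
    (Nat.mul_pos (Nat.pow_pos hq1) (Nat.factorial_pos _))
    (by
      intro β j
      simp only [XF6M]
      split_ifs with h
      · obtain ⟨z, hz⟩ := hU.den j.1.1 j.1.2 (XF6e β - XF6e j.2.1)
        obtain ⟨m, hm⟩ := Nat.factorial_dvd_factorial (hsub β j)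
        obtain ⟨t, ht⟩ := Nat.exists_eq_add_of_le (hsub β j)
        refine ⟨(q : ℤ) ^ t * m * z, ?_⟩
        rw [hm]
        push_cast
        rw [← hz, ht, pow_add]
        ring
      · exact ⟨0, by simp⟩)
    ((K : ℝ) ^ (c₂ * (D + 1))) (one_le_pow₀ (by exact_mod_cast hK1))
    (by
      intro β j
      have hKr : (1 : ℝ) ≤ (K : ℝ) := by exact_mod_cast hK1
      simp only [XF6M]
      split_ifs with h
      · have h1 := hU.bd j.1.1 j.1.2 (XF6e β - XF6e j.2.1)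
        have h2 : |((MvPowerSeries.coeff (XF6e β - XF6e j.2.1) (U j.1.1 j.1.2) : ℚ) : ℝ)| ≤
            (K : ℝ) ^ (XF6e β - XF6e j.2.1).degree := by exact_mod_cast h1
        exact h2.trans (pow_le_pow_right₀ hKr (hsub β j))
      · rw [Rat.cast_zero, abs_zero]
        positivity)
    x μ hμ0
    (by
      intro β
      rw [← XF6_phi, hwx]
      exact hμ _ (lt_of_le_of_lt (hrow β) hrowC))
  have hzero : (Phi (XF6P fun j => x j - x' j) fun b c => toR (U b c)) = 0 := by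
    refine hC₁ D _ (fun b c => XF6_deg _ b c) fun β hβ => ?_
    have hβi : ∀ i, β i < L := by
      intro i
      refine lt_of_le_of_lt ?_ (hL ▸ hβ)
      rw [Finsupp.degree_eq_sum]
      exact Finset.single_le_sum (f := fun i => β i) (fun _ _ => Nat.zero_le _) (Finset.mem_univ i)
    have h1 : XF6e (fun i => (⟨β i, hβi i⟩ : Fin L)) = β := by
      ext i
      rfl
    rw [← h1, XF6_phi]
    have h2 := hx'1 (fun i => (⟨β i, hβi i⟩ : Fin L))
    simp only [mul_sub, Finset.sum_sub_distrib]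
    rw [h2, sub_self]
  rw [XF6_sub, hwx, sub_eq_zero] at hzero
  refine ⟨XF6P x', fun b c => XF6_deg _ b c, hzero.symm, fun b c α => ?_⟩
  have hest := XF6_est s N q K c₂ D (Fintype.card (XF6J s N D)) (XF6_card s N D) C (by omega)
  by_cases hα : ∃ α' : XF6A s D, XF6e α'.1 = α
  · obtain ⟨α', rfl⟩ := hα
    rw [XF6_coeff_some]
    exact (hx'2 _).trans (mul_le_mul_of_nonneg_right hest hμ0)
  · rw [XF6_coeff_none _ _ _ _ fun α' h => hα ⟨α', h⟩, abs_zero]
    positivity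

end Pool.Agent.Lib.MP_bbe012_lc.XS
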