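import Mathlib

/-!
# LEAF XF7 (medium-): multiplication by a fixed polynomial does not make the coefficients much smaller
-/

set_option autoImplicit false

namespace Pool.Agent.Lib.MP_bbe012_lc.XS

open MvPolynomial

private theorem XF7_inj {s B : ℕ} {α β : Fin s →₀ ℕ} (hα : ∀ l, α l < B) (hβ : ∀ l, β l < B)
    (h : ∑ l, α l * B ^ (l : ℕ) = ∑ l, β l * B ^ (l : ℕ)) : α = β := by
  have h1 : finFunctionFinEquiv (fun l => (⟨α l, hα l⟩ : Fin B))
      = finFunctionFinEquiv (fun l => (⟨β l, hβ l⟩ : Fin B)) := by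
    apply Fin.ext
    rw [finFunctionFinEquiv_apply, finFunctionFinEquiv_apply]
    exact h
  have h2 := finFunctionFinEquiv.injective h1
  ext l
  exact congrArg Fin.val (congrFun h2 l)

private theorem XF7_coeff {s : ℕ} (g z : MvPolynomial (Fin s) ℝ) (m : Fin s →₀ ℕ) :
    coeff m (g * z) = ∑ γ ∈ g.support, (if γ ≤ m then coeff γ g * coeff (m - γ) z else 0) := by
  conv_lhs => rw [g.as_sum]
  rw [Finset.sum_mul, coeff_sum]
  exact Finset.sum_congr rfl fun γ _ => coeff_monomial_mul' _ _ _ _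

private theorem XF7_step {s : ℕ} (g : MvPolynomial (Fin s) ℝ) (κ : (Fin s →₀ ℕ) → ℕ)
    (hadd : ∀ a b, κ (a + b) = κ a + κ b) (γ₀ : Fin s →₀ ℕ) (h0 : γ₀ ∈ g.support)
    (hlt : ∀ γ ∈ g.support, γ ≠ γ₀ → κ γ₀ < κ γ) (S : ℝ) (hS1 : 1 ≤ S)
    (hS2 : 1 ≤ S * |coeff γ₀ g|) (hS3 : ∑ γ ∈ g.support, |coeff γ g| ≤ S * |coeff γ₀ g|)
    (z : MvPolynomial (Fin s) ℝ) (μ : ℝ) (hμ : ∀ α, |coeff α (g * z)| ≤ μ) :
    ∀ n α, κ α < n → |coeff α z| ≤ (2 * S) ^ n * μ := by
  have hμ0 : 0 ≤ μ := (abs_nonneg _).trans (hμ 0)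
  have hc0 : 0 < |coeff γ₀ g| := abs_pos.mpr (mem_support_iff.mp h0)
  intro n
  induction n with
  | zero =>
    intro α h
    omega
  | succ n ih =>
    intro α hα
    have hP : (1 : ℝ) ≤ (2 * S) ^ n := one_le_pow₀ (by linarith)
    have hPμ : 0 ≤ (2 * S) ^ n * μ := mul_nonneg (by linarith) hμ0
    have e := XF7_coeff g z (γ₀ + α)
    rw [← Finset.add_sum_erase _ _ h0, if_pos le_self_add, add_tsub_cancel_left] at e
    have hT : ∀ γ ∈ g.support.erase γ₀,
        |if γ ≤ γ₀ + α then coeff γ g * coeff (γ₀ + α - γ) z else 0|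
          ≤ |coeff γ g| * ((2 * S) ^ n * μ) := by
      intro γ hγ
      split_ifs with hle
      · rw [abs_mul]
        apply mul_le_mul_of_nonneg_left _ (abs_nonneg _)
        apply ih
        have h1 := hlt γ (Finset.mem_of_mem_erase hγ) (Finset.ne_of_mem_erase hγ)
        have h2 : κ (γ₀ + α - γ) + κ γ = κ γ₀ + κ α := by
          rw [← hadd, ← hadd, tsub_add_cancel_of_le hle]
        omega
      · rw [abs_zero]
        exact mul_nonneg (abs_nonneg _) hPμ
    have h3 : |∑ γ ∈ g.support.erase γ₀,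
        (if γ ≤ γ₀ + α then coeff γ g * coeff (γ₀ + α - γ) z else 0)|
          ≤ (S * |coeff γ₀ g|) * ((2 * S) ^ n * μ) := by
      calc |∑ γ ∈ g.support.erase γ₀, (if γ ≤ γ₀ + α then coeff γ g * coeff (γ₀ + α - γ) z else 0)|
          ≤ ∑ γ ∈ g.support.erase γ₀,
            |if γ ≤ γ₀ + α then coeff γ g * coeff (γ₀ + α - γ) z else 0| :=
            Finset.abs_sum_le_sum_abs _ _
        _ ≤ ∑ γ ∈ g.support.erase γ₀, |coeff γ g| * ((2 * S) ^ n * μ) := Finset.sum_le_sum hT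
        _ = (∑ γ ∈ g.support.erase γ₀, |coeff γ g|) * ((2 * S) ^ n * μ) :=
            (Finset.sum_mul _ _ _).symm
        _ ≤ (S * |coeff γ₀ g|) * ((2 * S) ^ n * μ) := by
          apply mul_le_mul_of_nonneg_right _ hPμ
          exact (Finset.sum_le_sum_of_subset_of_nonneg (Finset.erase_subset _ _)
            (fun _ _ _ => abs_nonneg _)).trans hS3
    have h4 : |coeff γ₀ g| * |coeff α z| ≤ |coeff γ₀ g| * ((2 * S) ^ (n + 1) * μ) := by
      rw [← abs_mul]
      have h5 : coeff γ₀ g * coeff α z = coeff (γ₀ + α) (g * z)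
          - ∑ γ ∈ g.support.erase γ₀,
            (if γ ≤ γ₀ + α then coeff γ g * coeff (γ₀ + α - γ) z else 0) := by
        rw [e]
        ring
      rw [h5]
      refine (abs_sub _ _).trans ?_
      have h6 : μ ≤ (S * |coeff γ₀ g|) * ((2 * S) ^ n * μ) := by
        calc μ = 1 * (1 * μ) := by ring
          _ ≤ (S * |coeff γ₀ g|) * ((2 * S) ^ n * μ) :=
            mul_le_mul hS2 (mul_le_mul_of_nonneg_right hP hμ0) (by linarith) (by linarith)
      calc |coeff (γ₀ + α) (g * z)| + |∑ γ ∈ g.support.erase γ₀,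
            (if γ ≤ γ₀ + α then coeff γ g * coeff (γ₀ + α - γ) z else 0)|
          ≤ μ + (S * |coeff γ₀ g|) * ((2 * S) ^ n * μ) := add_le_add (hμ _) h3
        _ ≤ (S * |coeff γ₀ g|) * ((2 * S) ^ n * μ) + (S * |coeff γ₀ g|) * ((2 * S) ^ n * μ) := by
            linarith
        _ = |coeff γ₀ g| * ((2 * S) ^ (n + 1) * μ) := by ring
    exact le_of_mul_le_mul_left h4 hc0

/-- PROOF. Order the exponents lexicographically (or by an injective additive function, see below) and let `γ₀` be the smallest exponent of `g`, `c₀ = coeff γ₀ g ≠ 0`. For every `α`: `coeff (α + γ₀) (g * z) = c₀ coeff α z + ∑_{γ > γ₀} coeff γ g * coeff (α + γ₀ - γ) z`, where `α + γ₀ - γ < α`. So with `S ≥ 1` a bound for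
`1 / |c₀|` and for `∑ |coeff γ g| / |c₀|`: `|coeff α z| ≤ S (μ + max_{α' < α} |coeff α' z|)`, and by induction `|coeff α z| ≤ (2 S) ^ (rank of α) μ` where the rank counts the exponents `α' ≤ α` of degree `≤ D` (only those matter): at most `(D + 1) ^ s`.
A convenient version of the order: Kronecker substitution `κ(α) = ∑ l, α l * (D + Dg + 1) ^ l` (`Dg` the total degree of `g`), which is injective and additive on the exponents with all entries `≤ D + Dg`; strong induction on `κ(α)`: `|coeff α z| ≤ (2 S) ^ (κ(α) + 1) μ`, `κ(α) ≤ (D + Dg + 1) ^ (s + 1)`. Here `γ₀` (the exponent of `g` with the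
smallest `κ`) depends on `D`, but `S` can be chosen uniformly: `S = 1 + ∑_γ 1 / |coeff γ g| + ∑_{γ, γ'} |coeff γ g| / |coeff γ' g|`, sums over the support. (`D = 0` and `s = 0` are harmless.) `μ ≥ 0` follows from the hypothesis. -/
theorem mul_lower {s : ℕ} (g : MvPolynomial (Fin s) ℝ) (hg : g ≠ 0) :
    ∃ C a : ℕ, 1 ≤ C ∧ ∀ (D : ℕ) (z : MvPolynomial (Fin s) ℝ), z.totalDegree ≤ D → ∀ μ : ℝ,
      (∀ α, |coeff α (g * z)| ≤ μ) → ∀ α, |coeff α z| ≤ Real.exp ((C : ℝ) * (D + 1) ^ a) * μ := by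
  classical
  have hne : g.support.Nonempty := support_nonempty.mpr hg
  obtain ⟨B, hB⟩ : ∃ B, B = g.totalDegree + 1 := ⟨_, rfl⟩
  have hB1 : 1 ≤ B := by omega
  obtain ⟨κ, hκ⟩ : ∃ κ : (Fin s →₀ ℕ) → ℕ, ∀ α, κ α = ∑ l, α l * B ^ (l : ℕ) := ⟨_, fun _ => rfl⟩
  have hadd : ∀ a b, κ (a + b) = κ a + κ b := by
    intro a b
    simp only [hκ, Finsupp.add_apply, add_mul, Finset.sum_add_distrib]
  have hsum : ∀ γ : Fin s →₀ ℕ, (γ.sum fun _ e => e) = ∑ l, γ l := fun γ =>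
    Finsupp.sum_fintype _ _ (fun _ => rfl)
  have hent : ∀ γ ∈ g.support, ∀ l, γ l < B := by
    intro γ hγ l
    have h1 := le_totalDegree hγ
    rw [hsum] at h1
    have h2 : γ l ≤ ∑ l, γ l := Finset.single_le_sum (fun _ _ => Nat.zero_le _) (Finset.mem_univ l)
    omega
  obtain ⟨γ₀, h0, hmin⟩ := Finset.exists_min_image g.support κ hne
  have hlt : ∀ γ ∈ g.support, γ ≠ γ₀ → κ γ₀ < κ γ := by
    intro γ hγ hne'
    rcases (hmin γ hγ).lt_or_eq with h | h
    · exact h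
    · rw [hκ, hκ] at h
      exact absurd (XF7_inj (hent γ hγ) (hent γ₀ h0) h.symm) hne'
  have hc : 0 < |coeff γ₀ g| := abs_pos.mpr (mem_support_iff.mp h0)
  have hsg : 0 ≤ ∑ γ ∈ g.support, |coeff γ g| := Finset.sum_nonneg fun _ _ => abs_nonneg _
  obtain ⟨S, hS⟩ : ∃ S : ℝ, S = 1 + (1 + ∑ γ ∈ g.support, |coeff γ g|) / |coeff γ₀ g| := ⟨_, rfl⟩
  have hSc : S * |coeff γ₀ g| = |coeff γ₀ g| + (1 + ∑ γ ∈ g.support, |coeff γ g|) := by
    rw [hS, add_mul, one_mul, div_mul_cancel₀ _ hc.ne']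
  have hS1 : 1 ≤ S := by
    rw [hS]
    have h1 : 0 ≤ (1 + ∑ γ ∈ g.support, |coeff γ g|) / |coeff γ₀ g| := by positivity
    linarith
  obtain ⟨k, hk⟩ : ∃ k : ℕ, 2 * S ≤ Real.exp k := by
    refine ⟨⌈2 * S⌉₊, ?_⟩
    have h1 := Nat.le_ceil (2 * S)
    have h2 := Real.add_one_le_exp ((⌈2 * S⌉₊ : ℕ) : ℝ)
    linarith
  refine ⟨k * (B ^ s + 1) + 1, 1, by omega, ?_⟩
  intro D z hz μ hμ α
  have hμ0 : 0 ≤ μ := (abs_nonneg _).trans (hμ 0)
  by_cases hα : coeff α z = 0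
  · rw [hα, abs_zero]
    exact mul_nonneg (Real.exp_pos _).le hμ0
  · have hdeg : (∑ l, α l) ≤ D := by
      have h1 := le_totalDegree (mem_support_iff.mpr hα)
      rw [hsum] at h1
      exact h1.trans hz
    have hκα : κ α < (D + 1) * (B ^ s + 1) := by
      have h1 : κ α ≤ D * B ^ s := by
        rw [hκ]
        calc ∑ l, α l * B ^ (l : ℕ) ≤ ∑ l, α l * B ^ s :=
              Finset.sum_le_sum fun l _ =>
                Nat.mul_le_mul_left _ (Nat.pow_le_pow_right hB1 l.2.le)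
          _ = (∑ l, α l) * B ^ s := (Finset.sum_mul _ _ _).symm
          _ ≤ D * B ^ s := Nat.mul_le_mul_right _ hdeg
      have h2 : (D + 1) * (B ^ s + 1) = D * B ^ s + D + B ^ s + 1 := by ring
      omega
    have h5 := XF7_step g κ hadd γ₀ h0 hlt S hS1 (by linarith) (by linarith) z μ hμ
      ((D + 1) * (B ^ s + 1)) α hκα
    refine h5.trans (mul_le_mul_of_nonneg_right ?_ hμ0)
    calc (2 * S) ^ ((D + 1) * (B ^ s + 1)) ≤ (Real.exp k) ^ ((D + 1) * (B ^ s + 1)) :=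
          pow_le_pow_left₀ (by linarith) hk _
      _ = Real.exp (((D + 1) * (B ^ s + 1) : ℕ) * (k : ℝ)) := (Real.exp_nat_mul _ _).symm
      _ ≤ Real.exp (((k * (B ^ s + 1) + 1 : ℕ) : ℝ) * (D + 1) ^ 1) := by
        apply Real.exp_le_exp.mpr
        push_cast
        have h6 : (0 : ℝ) ≤ D := Nat.cast_nonneg D
        have h7 : ((k : ℝ) * ((B : ℝ) ^ s + 1) + 1) * ((D : ℝ) + 1) ^ 1
            = ((D : ℝ) + 1) * ((B : ℝ) ^ s + 1) * k + (D + 1) := by ring
        rw [h7]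
        linarith

end Pool.Agent.Lib.MP_bbe012_lc.XS
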