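import Pool.Agent.Lib.MP_bbe012_lc.XS.F0

/-!
# LEAF XF8 (medium): a basis of the `V_i` over the polynomials, and its coordinates
-/

set_option autoImplicit false

namespace Pool.Agent.Lib.MP_bbe012_lc.XS

open MvPolynomial

private theorem XF8_gen {R M : Type} [CommRing R] [IsDomain R] [CommRing M] [IsDomain M] (f : R →+* M)
    (hf : Function.Injective f) {n : ℕ} {κ : Type} [Fintype κ] (V : Fin n → M) (U : κ → M) :
    ∃ (E : Finset (Fin n)) (d : R) (Q : Fin n → Fin n → R) (P : κ → Fin n → R), d ≠ 0 ∧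
      (∀ i, f d * V i = ∑ j ∈ E, f (Q i j) * V j) ∧
      ∀ (δ : R) (z : Fin n → R) (w : κ → R), f δ * ∑ j ∈ E, f (z j) * V j = ∑ k, f (w k) * U k →
        ∀ j ∈ E, d * δ * z j = ∑ k, w k * P k j := by
  classical
  have hL : Function.Injective (algebraMap M (FractionRing M)) := IsFractionRing.injective M (FractionRing M)
  have hF : Function.Injective (algebraMap R (FractionRing R)) := IsFractionRing.injective R (FractionRing R)
  have hinj : Function.Injective ((algebraMap M (FractionRing M)).comp f) := hL.comp hf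
  obtain ⟨φ, hφ⟩ : ∃ φ : FractionRing R →+* FractionRing M,
      ∀ r, φ (algebraMap R (FractionRing R) r) = algebraMap M (FractionRing M) (f r) :=
    ⟨IsFractionRing.lift hinj, fun r => IsFractionRing.lift_algebraMap hinj r⟩
  let _ : Algebra (FractionRing R) (FractionRing M) := φ.toAlgebra
  have hsm : ∀ (c : FractionRing R) (x : FractionRing M), c • x = φ c * x := fun c x => Algebra.smul_def c x
  obtain ⟨v, hv⟩ : ∃ v : Fin n → FractionRing M, v = fun i => algebraMap M (FractionRing M) (V i) := ⟨_, rfl⟩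
  obtain ⟨s, hs, hmax⟩ := exists_maximal_linearIndepOn (FractionRing R) v
  have hspan : ∀ i, ∃ c : Fin n → FractionRing R, ∑ j ∈ s.toFinset, c j • v j = v i := by
    intro i
    have h1 : v i ∈ Submodule.span (FractionRing R) (v '' s) := by
      by_cases hi : i ∈ s
      · exact Submodule.subset_span ⟨i, hi, rfl⟩
      · obtain ⟨a, ha, hmem⟩ := hmax i hi
        have h2 := Submodule.smul_mem (Submodule.span (FractionRing R) (v '' s)) a⁻¹ hmem
        rwa [smul_smul, inv_mul_cancel₀ ha, one_smul] at h2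
    rw [← Set.coe_toFinset s, Submodule.mem_span_image_finset_iff_exists_fun'] at h1
    exact h1
  choose c hc using hspan
  have hker : LinearMap.ker (Finsupp.linearCombination (FractionRing R) fun i : s => v i) = ⊥ :=
    LinearMap.ker_eq_bot.2 hs
  obtain ⟨g, hg⟩ := LinearMap.exists_leftInverse_of_injective _ hker
  have hgv : ∀ (j j' : Fin n) (hj : j ∈ s) (hj' : j' ∈ s), g (v j') ⟨j, hj⟩ = if j' = j then 1 else 0 := by
    intro j j' hj hj'
    have h1 : Finsupp.linearCombination (FractionRing R) (fun i : s => v i) (Finsupp.single ⟨j', hj'⟩ 1) = v j' := by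
      rw [Finsupp.linearCombination_single, one_smul]
    have h2 := LinearMap.congr_fun hg (Finsupp.single ⟨j', hj'⟩ 1)
    rw [LinearMap.comp_apply, h1, LinearMap.id_apply] at h2
    rw [h2, Finsupp.single_apply]
    by_cases h : j' = j
    · rw [if_pos h, if_pos (Subtype.ext h)]
    · rw [if_neg h, if_neg fun e => h (congrArg Subtype.val e)]
  obtain ⟨la, hla⟩ : ∃ la : κ → Fin n → FractionRing R, ∀ k j (hj : j ∈ s),
      la k j = g (algebraMap M (FractionRing M) (U k)) ⟨j, hj⟩ :=
    ⟨fun k j => if hj : j ∈ s then g (algebraMap M (FractionRing M) (U k)) ⟨j, hj⟩ else 0,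
      fun k j hj => dif_pos hj⟩
  obtain ⟨b, hb⟩ := IsLocalization.exist_integer_multiples_of_finite (nonZeroDivisors R)
    (Sum.elim (fun p : Fin n × Fin n => c p.1 p.2) (fun p : κ × Fin n => la p.1 p.2))
  have hb1 : ∀ i j, ∃ r : R, algebraMap R (FractionRing R) r = algebraMap R (FractionRing R) b * c i j := by
    intro i j
    obtain ⟨r, hr⟩ := hb (Sum.inl (i, j))
    exact ⟨r, by rw [hr, Algebra.smul_def]; rfl⟩
  have hb2 : ∀ k j, ∃ r : R, algebraMap R (FractionRing R) r = algebraMap R (FractionRing R) b * la k j := by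
    intro k j
    obtain ⟨r, hr⟩ := hb (Sum.inr (k, j))
    exact ⟨r, by rw [hr, Algebra.smul_def]; rfl⟩
  choose Q hQ using hb1
  choose P hP using hb2
  refine ⟨s.toFinset, b, Q, P, nonZeroDivisors.ne_zero b.2, ?_, ?_⟩
  · intro i
    apply hL
    rw [map_mul, map_sum, ← hφ]
    have h1 : algebraMap M (FractionRing M) (V i) = ∑ j ∈ s.toFinset, c i j • v j := by
      rw [hc i, hv]
    rw [h1, Finset.mul_sum]
    refine Finset.sum_congr rfl fun j _ => ?_
    rw [map_mul, ← hφ, hQ, map_mul, hsm, hv, mul_assoc]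
  · intro δ z w h j hj
    have hj' : j ∈ s := by rwa [Set.mem_toFinset] at hj
    have h1 := congrArg (algebraMap M (FractionRing M)) h
    rw [map_mul, map_sum, map_sum, ← hφ] at h1
    have h2 : φ (algebraMap R (FractionRing R) δ) * ∑ j ∈ s.toFinset, algebraMap M (FractionRing M) (f (z j) * V j) =
        ∑ j' ∈ s.toFinset, (algebraMap R (FractionRing R) (δ * z j')) • v j' := by
      rw [Finset.mul_sum]
      refine Finset.sum_congr rfl fun j' _ => ?_
      rw [map_mul, ← hφ, map_mul, hsm, map_mul, hv, mul_assoc]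
    have h3 : ∑ k, algebraMap M (FractionRing M) (f (w k) * U k) =
        ∑ k, (algebraMap R (FractionRing R) (w k)) • algebraMap M (FractionRing M) (U k) := by
      refine Finset.sum_congr rfl fun k _ => ?_
      rw [map_mul, ← hφ, hsm]
    rw [h2, h3] at h1
    have h4 := congrArg (fun x => g x ⟨j, hj'⟩) h1
    simp only [map_sum, map_smul, Finsupp.finsetSum_apply, Finsupp.smul_apply, smul_eq_mul] at h4
    have h5 : ∑ j' ∈ s.toFinset, algebraMap R (FractionRing R) (δ * z j') * g (v j') ⟨j, hj'⟩ =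
        algebraMap R (FractionRing R) (δ * z j) := by
      rw [Finset.sum_eq_single j]
      · rw [hgv j j hj' hj', if_pos rfl, mul_one]
      · intro j' hj1 hne
        rw [hgv j j' hj' (by rwa [Set.mem_toFinset] at hj1), if_neg hne, mul_zero]
      · intro h
        exact absurd hj h
    rw [h5] at h4
    apply hF
    rw [mul_assoc, map_mul, h4, map_sum, Finset.mul_sum]
    refine Finset.sum_congr rfl fun k _ => ?_
    rw [map_mul, hP, hla k j hj']
    ring

/-- PROOF. `R = MvPolynomial (Fin s) ℝ` and `M = MvPowerSeries (Fin s) ℝ` are domains (Mathlib: `MvPowerSeries` has no zero divisors over a domain), `R` acts on `M` by multiplication and the coercion is injective. Choose `E : Finset (Fin r)` maximal such that the `V j`, `j ∈ E`, are linearly independent over `R`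
(`exists_maximal_linearIndepOn`, compare `exists_sub` in PP/Mult.lean): for every `i` some non zero multiple of `V i` is a combination of the `V j`, `j ∈ E`; `g` = the product of the multipliers. Now consider the family indexed by `Fin r ⊕ (Fin N × Fin N)`, `V` on the first and `U` on the second summand, and extend `E` to a maximal
independent set `E ∪ F` (`exists_linearIndepOn_extension`-like for modules over a domain: `exists_maximal_linearIndepOn` for the subsets which contain `E`, e.g. by Zorn/finiteness: a maximal `F : Finset (Fin N × Fin N)` such that `E ∪ F` is independent). Then for all `b, c`: `ρ₁ * U b c = ∑ j ∈ E, P₁ b c j * V j + ∑ f ∈ F, P₂ b c f * U f` with a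
common `ρ₁ ≠ 0`. If `δ * ∑ j ∈ E, z j * V j = Phi w U`, multiply by `ρ₁`: `∑ j ∈ E, (ρ₁ δ z j) V j = ∑ j ∈ E, (∑ b c, w b c P₁ b c j) V j + ∑ f ∈ F, (..) U f`, and compare the coefficients of the `V j` (independence of `E ∪ F`): `ρ = ρ₁ * δ`, `P = P₁`. -/
theorem coords {s N r : ℕ} (δ : MvPolynomial (Fin s) ℝ) (hδ : δ ≠ 0) (U : Fin N → Fin N → MvPowerSeries (Fin s) ℝ)
    (V : Fin r → MvPowerSeries (Fin s) ℝ) :
    ∃ (E : Finset (Fin r)) (g : MvPolynomial (Fin s) ℝ) (Q : Fin r → Fin r → MvPolynomial (Fin s) ℝ)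
      (ρ : MvPolynomial (Fin s) ℝ) (P : Fin N → Fin N → Fin r → MvPolynomial (Fin s) ℝ),
      g ≠ 0 ∧ ρ ≠ 0 ∧
      (∀ i, (g : MvPowerSeries (Fin s) ℝ) * V i = ∑ j ∈ E, (Q i j : MvPowerSeries (Fin s) ℝ) * V j) ∧
      ∀ (z : Fin r → MvPolynomial (Fin s) ℝ) (w : Fin N → Fin N → MvPolynomial (Fin s) ℝ),
        (δ : MvPowerSeries (Fin s) ℝ) * ∑ j ∈ E, (z j : MvPowerSeries (Fin s) ℝ) * V j = Phi w U →
        ∀ j ∈ E, ρ * z j = ∑ b, ∑ c, w b c * P b c j := by
  have hdom : IsDomain (MvPowerSeries (Fin s) ℝ) := NoZeroDivisors.to_isDomain _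
  obtain ⟨E, d, Q, P, hd, h1, h2⟩ := XF8_gen (MvPolynomial.coeToMvPowerSeries.ringHom (σ := Fin s) (R := ℝ))
    (MvPolynomial.coe_injective (Fin s) ℝ) V (fun p : Fin N × Fin N => U p.1 p.2)
  simp only [MvPolynomial.coeToMvPowerSeries.ringHom_apply] at h1 h2
  refine ⟨E, d, Q, d * δ, fun b c j => P (b, c) j, hd, mul_ne_zero hd hδ, h1, fun z w h j hj => ?_⟩
  have h3 := h2 δ z (fun p => w p.1 p.2) (by
    rw [h, Phi, Fintype.sum_prod_type]) j hj
  rw [h3, Fintype.sum_prod_type]

end Pool.Agent.Lib.MP_bbe012_lc.XS
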