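import Pool.Agent.Lib.MP_bbe012_lc.XS.F3
import Pool.Agent.Lib.MP_bbe012_lc.XS.F6
import Pool.Agent.Lib.MP_bbe012_lc.XS.F7
import Pool.Agent.Lib.MP_bbe012_lc.XS.F8

/-!
# LEAF XF9 (medium+): the lower bound at the base point, formal version
-/

set_option autoImplicit false

namespace Pool.Agent.Lib.MP_bbe012_lc.XS

open MvPolynomial

/-- A coefficient of a product with a fixed polynomial. -/
private theorem XF9_mul_le {s : ℕ} (p : MvPolynomial (Fin s) ℝ) (f : MvPowerSeries (Fin s) ℝ) (β : Fin s →₀ ℕ)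
    {m : ℝ} (hm : 0 ≤ m) (h : ∀ γ, γ ≤ β → |MvPowerSeries.coeff γ f| ≤ m) :
    |MvPowerSeries.coeff β ((p : MvPowerSeries (Fin s) ℝ) * f)| ≤ (∑ γ ∈ p.support, |coeff γ p|) * m := by
  classical
  rw [MvPowerSeries.coeff_mul]
  refine (Finset.abs_sum_le_sum_abs _ _).trans ?_
  have h1 : ∀ x ∈ Finset.HasAntidiagonal.antidiagonal β,
      |MvPowerSeries.coeff x.1 (p : MvPowerSeries (Fin s) ℝ) * MvPowerSeries.coeff x.2 f| ≤
        |coeff x.1 p| * m := by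
    intro x hx
    rw [abs_mul, MvPolynomial.coeff_coe]
    refine mul_le_mul_of_nonneg_left (h x.2 ?_) (abs_nonneg _)
    rw [Finset.HasAntidiagonal.mem_antidiagonal] at hx
    rw [← hx]
    exact le_add_self
  refine (Finset.sum_le_sum h1).trans ?_
  rw [← Finset.sum_mul]
  refine mul_le_mul_of_nonneg_right ?_ hm
  have h2 : ∑ x ∈ Finset.HasAntidiagonal.antidiagonal β, |coeff x.1 p| =
      ∑ γ ∈ (Finset.HasAntidiagonal.antidiagonal β).image Prod.fst, |coeff γ p| := by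
    rw [Finset.sum_image]
    intro x hx y hy hxy
    rw [Finset.mem_coe, Finset.HasAntidiagonal.mem_antidiagonal] at hx hy
    refine Prod.ext hxy ?_
    have : x.1 + x.2 = x.1 + y.2 := by rw [hx, hxy, hy]
    exact add_left_cancel this
  rw [h2]
  calc ∑ γ ∈ (Finset.HasAntidiagonal.antidiagonal β).image Prod.fst, |coeff γ p| ≤
      ∑ γ ∈ (Finset.HasAntidiagonal.antidiagonal β).image Prod.fst ∪ p.support, |coeff γ p| :=
        Finset.sum_le_sum_of_subset_of_nonneg Finset.subset_union_left (fun _ _ _ => abs_nonneg _)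
    _ = ∑ γ ∈ p.support, |coeff γ p| := by
        symm
        refine Finset.sum_subset Finset.subset_union_right ?_
        intro γ _ hγ
        rw [MvPolynomial.mem_support_iff, not_not] at hγ
        rw [hγ, abs_zero]

/-- The same for polynomials. -/
private theorem XF9_mul_le' {s : ℕ} (p f : MvPolynomial (Fin s) ℝ) (β : Fin s →₀ ℕ)
    {m : ℝ} (hm : 0 ≤ m) (h : ∀ γ, |coeff γ f| ≤ m) :
    |coeff β (f * p)| ≤ (∑ γ ∈ p.support, |coeff γ p|) * m := by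
  have h1 := XF9_mul_le p (f : MvPowerSeries (Fin s) ℝ) β hm (fun γ _ => by
    rw [MvPolynomial.coeff_coe]; exact h γ)
  rw [← MvPolynomial.coe_mul, MvPolynomial.coeff_coe, mul_comm] at h1
  exact h1

private theorem XF9_phi {s N r : ℕ} (E : Finset (Fin r)) (z : Fin r → MvPolynomial (Fin s) ℝ)
    (A : Fin r → Fin N → Fin N → MvPolynomial (Fin s) ℝ) (U : Fin N → Fin N → MvPowerSeries (Fin s) ℝ)
    (V : Fin r → MvPowerSeries (Fin s) ℝ) (δ : MvPowerSeries (Fin s) ℝ)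
    (h : ∀ i, δ * V i = Phi (A i) U) :
    δ * ∑ j ∈ E, (z j : MvPowerSeries (Fin s) ℝ) * V j = Phi (fun b c => ∑ j ∈ E, z j * A j b c) U := by
  have hco : ∀ b c, ((∑ j ∈ E, z j * A j b c : MvPolynomial (Fin s) ℝ) : MvPowerSeries (Fin s) ℝ) =
      ∑ j ∈ E, (z j : MvPowerSeries (Fin s) ℝ) * (A j b c : MvPowerSeries (Fin s) ℝ) := by
    intro b c
    have h1 := map_sum (MvPolynomial.coeToMvPowerSeries.ringHom (R := ℝ) (σ := Fin s))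
      (fun j => z j * A j b c) E
    rw [MvPolynomial.coeToMvPowerSeries.ringHom_apply] at h1
    rw [h1]
    refine Finset.sum_congr rfl fun j _ => ?_
    rw [MvPolynomial.coeToMvPowerSeries.ringHom_apply, MvPolynomial.coe_mul]
  unfold Phi at h ⊢
  simp only [hco, Finset.sum_mul]
  rw [Finset.mul_sum]
  have h2 : ∀ b : Fin N, ∑ c, ∑ j ∈ E, (z j : MvPowerSeries (Fin s) ℝ) * (A j b c : MvPowerSeries (Fin s) ℝ) * U b c =
      ∑ j ∈ E, ∑ c, (z j : MvPowerSeries (Fin s) ℝ) * (A j b c : MvPowerSeries (Fin s) ℝ) * U b c :=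
    fun b => Finset.sum_comm
  rw [Finset.sum_congr rfl (fun b _ => h2 b), Finset.sum_comm]
  refine Finset.sum_congr rfl fun j _ => ?_
  have h3 : δ * ((z j : MvPowerSeries (Fin s) ℝ) * V j) = (z j : MvPowerSeries (Fin s) ℝ) * (δ * V j) := by ring
  rw [h3, h j, Finset.mul_sum]
  refine Finset.sum_congr rfl fun b _ => ?_
  rw [Finset.mul_sum]
  refine Finset.sum_congr rfl fun c _ => ?_
  rw [mul_assoc]

/-- The final absorption of all constants. -/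
private theorem XF9_absorb {C₁ a₁ C₂ a₂ D₀ D : ℕ} {S T : ℝ} (hS0 : 0 ≤ S) (hT0 : 0 ≤ T) :
    Real.exp ((C₂ : ℝ) * ((D : ℝ) + 1) ^ a₂) *
        (T * (Real.exp ((C₁ : ℝ) * (((D + D₀ : ℕ) : ℝ) + 1) ^ a₁) * S)) ≤
      Real.exp (((C₁ * (D₀ + 1) ^ (a₁ + 1) + C₂ + ⌈T⌉₊ + ⌈S⌉₊ : ℕ) : ℝ) * ((D : ℝ) + 1) ^ (max a₁ a₂)) := by
  have hX : (1 : ℝ) ≤ (D : ℝ) + 1 := by
    have : (0 : ℝ) ≤ D := Nat.cast_nonneg D
    linarith
  have hXa : (1 : ℝ) ≤ ((D : ℝ) + 1) ^ (max a₁ a₂) := one_le_pow₀ hX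
  have hX1 : ((D : ℝ) + 1) ^ a₁ ≤ ((D : ℝ) + 1) ^ (max a₁ a₂) := pow_le_pow_right₀ hX (le_max_left _ _)
  have hX2 : ((D : ℝ) + 1) ^ a₂ ≤ ((D : ℝ) + 1) ^ (max a₁ a₂) := pow_le_pow_right₀ hX (le_max_right _ _)
  have hT : T ≤ Real.exp ((⌈T⌉₊ : ℝ) * ((D : ℝ) + 1) ^ (max a₁ a₂)) := by
    have h1 : T ≤ (⌈T⌉₊ : ℝ) := Nat.le_ceil T
    have h2 : (⌈T⌉₊ : ℝ) ≤ (⌈T⌉₊ : ℝ) * ((D : ℝ) + 1) ^ (max a₁ a₂) := le_mul_of_one_le_right (Nat.cast_nonneg _) hXa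
    have h3 := Real.add_one_le_exp ((⌈T⌉₊ : ℝ) * ((D : ℝ) + 1) ^ (max a₁ a₂))
    linarith
  have hS : S ≤ Real.exp ((⌈S⌉₊ : ℝ) * ((D : ℝ) + 1) ^ (max a₁ a₂)) := by
    have h1 : S ≤ (⌈S⌉₊ : ℝ) := Nat.le_ceil S
    have h2 : (⌈S⌉₊ : ℝ) ≤ (⌈S⌉₊ : ℝ) * ((D : ℝ) + 1) ^ (max a₁ a₂) := le_mul_of_one_le_right (Nat.cast_nonneg _) hXa
    have h3 := Real.add_one_le_exp ((⌈S⌉₊ : ℝ) * ((D : ℝ) + 1) ^ (max a₁ a₂))
    linarith
  have h1 : (C₁ : ℝ) * (((D + D₀ : ℕ) : ℝ) + 1) ^ a₁ ≤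
      (C₁ : ℝ) * ((D₀ : ℝ) + 1) ^ (a₁ + 1) * ((D : ℝ) + 1) ^ (max a₁ a₂) := by
    have hD : (0 : ℝ) ≤ D := Nat.cast_nonneg D
    have hD0 : (0 : ℝ) ≤ D₀ := Nat.cast_nonneg D₀
    have h2 : (((D + D₀ : ℕ) : ℝ) + 1) ≤ ((D₀ : ℝ) + 1) * ((D : ℝ) + 1) := by
      push_cast
      nlinarith
    have h3 : (((D + D₀ : ℕ) : ℝ) + 1) ^ a₁ ≤ (((D₀ : ℝ) + 1) * ((D : ℝ) + 1)) ^ a₁ :=
      pow_le_pow_left₀ (by positivity) h2 _
    rw [mul_pow] at h3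
    have h4 : ((D₀ : ℝ) + 1) ^ a₁ ≤ ((D₀ : ℝ) + 1) ^ (a₁ + 1) := pow_le_pow_right₀ (by linarith) (Nat.le_succ _)
    have h5 : ((D₀ : ℝ) + 1) ^ a₁ * ((D : ℝ) + 1) ^ a₁ ≤
        ((D₀ : ℝ) + 1) ^ (a₁ + 1) * ((D : ℝ) + 1) ^ (max a₁ a₂) :=
      mul_le_mul h4 hX1 (by positivity) (by positivity)
    rw [mul_assoc]
    exact mul_le_mul_of_nonneg_left (h3.trans h5) (Nat.cast_nonneg _)
  have h2 : (C₂ : ℝ) * ((D : ℝ) + 1) ^ a₂ ≤ (C₂ : ℝ) * ((D : ℝ) + 1) ^ (max a₁ a₂) :=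
    mul_le_mul_of_nonneg_left hX2 (Nat.cast_nonneg _)
  have e : ((C₁ * (D₀ + 1) ^ (a₁ + 1) + C₂ + ⌈T⌉₊ + ⌈S⌉₊ : ℕ) : ℝ) * ((D : ℝ) + 1) ^ (max a₁ a₂) =
      (C₂ : ℝ) * ((D : ℝ) + 1) ^ (max a₁ a₂) + ((⌈T⌉₊ : ℝ) * ((D : ℝ) + 1) ^ (max a₁ a₂) +
        ((C₁ : ℝ) * ((D₀ : ℝ) + 1) ^ (a₁ + 1) * ((D : ℝ) + 1) ^ (max a₁ a₂) +
          (⌈S⌉₊ : ℝ) * ((D : ℝ) + 1) ^ (max a₁ a₂))) := by
    push_cast
    ring
  rw [e, Real.exp_add, Real.exp_add, Real.exp_add]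
  refine mul_le_mul (Real.exp_le_exp.mpr h2) ?_
    (mul_nonneg hT0 (mul_nonneg (Real.exp_nonneg _) hS0)) (Real.exp_nonneg _)
  exact mul_le_mul hT (mul_le_mul (Real.exp_le_exp.mpr h1) hS hS0 (Real.exp_nonneg _))
    (mul_nonneg (Real.exp_nonneg _) hS0) (Real.exp_nonneg _)

/-- PROOF. `U, q, K` from `exists_fund δ hδ (rad Γ)` (`constantCoeff (rad Γ b b') = 0`). `C₁, a₁` from `small_lift`; `Y b = ∑ c, C (y c) * toR (U b c)` by `series_eq`. So with `A i b c = map (R i b) * C (y c)`: `δ * V i = ∑ b c, A i b c * toR (U b c) = Phi (A i) U`. `E, g, Q, ρ, P` from `coords (map δ) _ (toR U) V` (`map δ ≠ 0` as its constant coefficient is not `0`),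
`C₂, a₂` from `mul_lower ρ`. Let `z` be given, `F = ∑ j ∈ E, z j * V j`, all coefficients of `F` of degree `< C (D + 1)` at most `μ`. Then `δ * F = Phi w U` with `w b c = ∑ j ∈ E, z j * A j b c`, `totalDegree (w b c) ≤ D + D₀` (`D₀` a bound for the degrees of the `R i b`); the coefficients of `δ * F` of degree `< C (D + 1)` are at most
`(∑ |coeff γ δ|) μ`. If `C (D + 1) ≥ C₁ (D + D₀ + 1)`, `small_lift` gives `w'` with `Phi w' U = δ * F`, total degree `≤ D + D₀`, coefficients at most `exp (C₁ (D + D₀ + 1) ^ a₁) (∑ |coeff γ δ|) μ`. By `coords`: `ρ * z j = ∑ w' b c * P b c j`, whose coefficients are at most `N ^ 2 (max over b, c, j of the sum of the |coefficients| of P b c j)`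
times this. Conclude with `mul_lower` for `z j` (total degree `≤ D`); all constants are absorbed: `x ≤ exp x`, `(D + D₀ + 1) ≤ (D₀ + 1) (D + 1)`, and `(D + 1) ^ a₁, (D + 1) ^ a₂ ≤ (D + 1) ^ a` for `a = max a₁ a₂`. -/
theorem lb_formal {s N r : ℕ} {δ : MvPolynomial (Fin s) ℚ} (hδ : constantCoeff δ ≠ 0)
    (Γ : Fin s → Fin N → Fin N → MvPolynomial (Fin s) ℚ) (R : Fin r → Fin N → MvPolynomial (Fin s) ℚ)
    (Y : Fin N → MvPowerSeries (Fin s) ℝ) (V : Fin r → MvPowerSeries (Fin s) ℝ)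
    (hY : ∀ b, (map (algebraMap ℚ ℝ) δ : MvPowerSeries (Fin s) ℝ) * eu (Y b) =
      ∑ b', (map (algebraMap ℚ ℝ) (rad Γ b b') : MvPowerSeries (Fin s) ℝ) * Y b')
    (hV : ∀ i, (map (algebraMap ℚ ℝ) δ : MvPowerSeries (Fin s) ℝ) * V i =
      ∑ b, (map (algebraMap ℚ ℝ) (R i b) : MvPowerSeries (Fin s) ℝ) * Y b) :
    ∃ (E : Finset (Fin r)) (g : MvPolynomial (Fin s) ℝ) (Q : Fin r → Fin r → MvPolynomial (Fin s) ℝ) (C a : ℕ),
      g ≠ 0 ∧ (∀ i, (g : MvPowerSeries (Fin s) ℝ) * V i = ∑ j ∈ E, (Q i j : MvPowerSeries (Fin s) ℝ) * V j) ∧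
      1 ≤ C ∧ ∀ (D : ℕ) (z : Fin r → MvPolynomial (Fin s) ℝ), (∀ j ∈ E, (z j).totalDegree ≤ D) →
        ∀ μ : ℝ, 0 ≤ μ →
        (∀ β : Fin s →₀ ℕ, β.degree < C * (D + 1) →
          |MvPowerSeries.coeff β (∑ j ∈ E, (z j : MvPowerSeries (Fin s) ℝ) * V j)| ≤ μ) →
        ∀ j ∈ E, ∀ α, |coeff α (z j)| ≤ Real.exp ((C : ℝ) * (D + 1) ^ a) * μ := by
  classical
  have hG : ∀ b c, constantCoeff (rad Γ b c) = 0 := by
    intro b c
    unfold rad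
    rw [map_sum]
    refine Finset.sum_eq_zero fun l _ => ?_
    rw [map_mul, constantCoeff_X, zero_mul]
  obtain ⟨U, q, K, hU⟩ := exists_fund δ hδ (rad Γ) hG
  obtain ⟨C₁, a₁, hC₁, hlift⟩ := small_lift hδ hU
  have hδR : map (algebraMap ℚ ℝ) δ ≠ 0 := by
    intro h0
    have h1 : constantCoeff (map (algebraMap ℚ ℝ) δ) = 0 := by rw [h0, map_zero]
    rw [constantCoeff_map] at h1
    exact hδ ((algebraMap ℚ ℝ).injective (by rw [h1, map_zero]))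
  obtain ⟨E, g, Q, ρ, P, hg, hρ, hQ, hco⟩ := coords (map (algebraMap ℚ ℝ) δ) hδR (fun b c => toR (U b c)) V
  obtain ⟨C₂, a₂, hC₂, hml⟩ := mul_lower ρ hρ
  obtain ⟨A, hA⟩ : ∃ A : Fin r → Fin N → Fin N → MvPolynomial (Fin s) ℝ,
      ∀ i b c, A i b c = map (algebraMap ℚ ℝ) (R i b) * C (MvPowerSeries.constantCoeff (Y c)) :=
    ⟨_, fun _ _ _ => rfl⟩
  have hA1 : ∀ i, (map (algebraMap ℚ ℝ) δ : MvPowerSeries (Fin s) ℝ) * V i = Phi (A i) (fun b c => toR (U b c)) := by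
    intro i
    rw [hV i]
    unfold Phi
    refine Finset.sum_congr rfl fun b _ => ?_
    rw [series_eq hδ hG hU Y hY b, Finset.mul_sum]
    refine Finset.sum_congr rfl fun c _ => ?_
    rw [hA, MvPolynomial.coe_mul, MvPolynomial.coe_C, mul_assoc]
  obtain ⟨D₀, hD₀⟩ : ∃ D₀ : ℕ, ∀ i b, (R i b).totalDegree ≤ D₀ := by
    refine ⟨∑ i, ∑ b, (R i b).totalDegree, fun i b => ?_⟩
    refine le_trans ?_ (Finset.single_le_sum (f := fun i => ∑ b, (R i b).totalDegree)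
      (fun _ _ => Nat.zero_le _) (Finset.mem_univ i))
    exact Finset.single_le_sum (f := fun b => (R i b).totalDegree) (fun _ _ => Nat.zero_le _) (Finset.mem_univ b)
  have hAd : ∀ i b c, (A i b c).totalDegree ≤ D₀ := by
    intro i b c
    rw [hA]
    refine (totalDegree_mul _ _).trans ?_
    rw [totalDegree_C, add_zero]
    refine le_trans ?_ (hD₀ i b)
    exact Finset.sup_mono (support_map_subset _ _)
  obtain ⟨S, hS⟩ : ∃ S : ℝ, S = ∑ γ ∈ (map (algebraMap ℚ ℝ) δ).support, |coeff γ (map (algebraMap ℚ ℝ) δ)| :=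
    ⟨_, rfl⟩
  have hS0 : 0 ≤ S := by rw [hS]; exact Finset.sum_nonneg fun _ _ => abs_nonneg _
  obtain ⟨T, hT⟩ : ∃ T : ℝ, T = ∑ j, ∑ b, ∑ c, ∑ γ ∈ (P b c j).support, |coeff γ (P b c j)| := ⟨_, rfl⟩
  have hT0 : 0 ≤ T := by
    rw [hT]
    exact Finset.sum_nonneg fun _ _ => Finset.sum_nonneg fun _ _ => Finset.sum_nonneg fun _ _ =>
      Finset.sum_nonneg fun _ _ => abs_nonneg _
  have hTj : ∀ j, ∑ b, ∑ c, ∑ γ ∈ (P b c j).support, |coeff γ (P b c j)| ≤ T := by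
    intro j
    rw [hT]
    exact Finset.single_le_sum (f := fun j => ∑ b, ∑ c, ∑ γ ∈ (P b c j).support, |coeff γ (P b c j)|)
      (fun _ _ => Finset.sum_nonneg fun _ _ => Finset.sum_nonneg fun _ _ =>
        Finset.sum_nonneg fun _ _ => abs_nonneg _) (Finset.mem_univ j)
  have hD1 : D₀ + 1 ≤ (D₀ + 1) ^ (a₁ + 1) := by
    rw [pow_succ]
    exact Nat.le_mul_of_pos_left _ (pow_pos (Nat.succ_pos _) _)
  have hCC : C₁ * (D₀ + 1) ≤ C₁ * (D₀ + 1) ^ (a₁ + 1) + C₂ + ⌈T⌉₊ + ⌈S⌉₊ := by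
    have h1 : C₁ * (D₀ + 1) ≤ C₁ * (D₀ + 1) ^ (a₁ + 1) := Nat.mul_le_mul_left _ hD1
    omega
  refine ⟨E, g, Q, C₁ * (D₀ + 1) ^ (a₁ + 1) + C₂ + ⌈T⌉₊ + ⌈S⌉₊, max a₁ a₂, hg, hQ, by omega, ?_⟩
  intro D z hz μ hμ hF j hj α
  have h2 := XF9_phi E z A (fun b c => toR (U b c)) V _ hA1
  have h3 : ∀ b c, (∑ j ∈ E, z j * A j b c).totalDegree ≤ D + D₀ := by
    intro b c
    refine totalDegree_finsetSum_le fun j hj => ?_
    exact (totalDegree_mul _ _).trans (Nat.add_le_add (hz j hj) (hAd j b c))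
  have h4 : ∀ β : Fin s →₀ ℕ, β.degree < C₁ * ((D + D₀) + 1) →
      |MvPowerSeries.coeff β (Phi (fun b c => ∑ j ∈ E, z j * A j b c) fun b c => toR (U b c))| ≤ S * μ := by
    intro β hβ
    rw [← h2, hS]
    refine XF9_mul_le _ _ β hμ fun γ hγ => hF γ ?_
    have h5 : γ.degree ≤ β.degree := Finsupp.degree_mono hγ
    have h6 : C₁ * ((D + D₀) + 1) ≤ C₁ * (D₀ + 1) * (D + 1) := by
      rw [mul_assoc]
      refine Nat.mul_le_mul_left _ ?_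
      nlinarith [Nat.zero_le (D₀ * D)]
    have h7 := Nat.mul_le_mul_right (D + 1) hCC
    omega
  obtain ⟨w', -, hw1, hw2⟩ := hlift (D + D₀) _ h3 (S * μ) (mul_nonneg hS0 hμ) h4
  have h5 := hco z w' (h2.trans hw1.symm) j hj
  obtain ⟨X, hX⟩ : ∃ X : ℝ, X = Real.exp ((C₁ : ℝ) * (((D + D₀ : ℕ) : ℝ) + 1) ^ a₁) := ⟨_, rfl⟩
  rw [← hX] at hw2
  have hX0 : 0 ≤ X := by rw [hX]; exact Real.exp_nonneg _
  have hm : 0 ≤ X * (S * μ) := mul_nonneg hX0 (mul_nonneg hS0 hμ)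
  have h6 : ∀ α, |coeff α (ρ * z j)| ≤ T * (X * (S * μ)) := by
    intro α
    rw [h5]
    refine le_trans ?_ (mul_le_mul_of_nonneg_right (hTj j) hm)
    rw [coeff_sum, Finset.sum_mul]
    refine (Finset.abs_sum_le_sum_abs _ _).trans (Finset.sum_le_sum fun b _ => ?_)
    rw [coeff_sum, Finset.sum_mul]
    refine (Finset.abs_sum_le_sum_abs _ _).trans (Finset.sum_le_sum fun c _ => ?_)
    exact XF9_mul_le' _ _ α hm (hw2 b c)
  have h7 := hml D (z j) (hz j hj) _ h6 α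
  refine h7.trans ?_
  have h8 := XF9_absorb (C₁ := C₁) (a₁ := a₁) (C₂ := C₂) (a₂ := a₂) (D₀ := D₀) (D := D) (S := S) (T := T) hS0 hT0
  rw [← hX] at h8
  have h9 := mul_le_mul_of_nonneg_right h8 hμ
  refine le_trans (le_of_eq ?_) h9
  ring

end Pool.Agent.Lib.MP_bbe012_lc.XS
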