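import Pool.Agent.Lib.MP_bbe012_lc.XS.E0
import Pool.Agent.Lib.MP_bbe012_lc.XS.F9
import Pool.Agent.Lib.MP_bbe012_lc.XS.F11
import Pool.Agent.Lib.MP_bbe012_lc.XS.F12
import Pool.Agent.Lib.MP_bbe012_lc.XS.F13

/-!
# LEAF XF15 (medium+): the lower bound at the base point
-/

set_option autoImplicit false

namespace Pool.Agent.Lib.MP_bbe012_lc.XS

open MvPolynomial PG Topology

private theorem XF15_add {s : ℕ} {r B₁ B₂ : ℝ} {p : Fin s → ℝ} {f₁ f₂ : (Fin s → ℝ) → ℝ} {F₁ F₂ : MvPowerSeries (Fin s) ℝ}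
    (h₁ : Exp r B₁ p f₁ (cf F₁)) (h₂ : Exp r B₂ p f₂ (cf F₂)) :
    Exp r (B₁ + B₂) p (fun θ => f₁ θ + f₂ θ) (cf (F₁ + F₂)) := by
  have hc : ∀ b, cf (F₁ + F₂) b = cf F₁ b + cf F₂ b := by
    intro b
    unfold cf
    rw [map_add]
  refine ⟨fun b => ?_, fun k hk => ?_⟩
  · rw [hc, add_mul]
    exact (abs_add_le _ _).trans (add_le_add (h₁.bound b) (h₂.bound b))
  · have h1 := (h₁.sum k hk).add (h₂.sum k hk)
    have h2 : (fun b => cf (F₁ + F₂) b * mon k b) = fun b => cf F₁ b * mon k b + cf F₂ b * mon k b := by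
      funext b
      rw [hc, add_mul]
    rw [h2]
    exact h1

private theorem XF15_comb {s r : ℕ} {r₀ B : ℝ} {p : Fin s → ℝ} {V : Fin r → (Fin s → ℝ) → ℝ}
    {Vs : Fin r → MvPowerSeries (Fin s) ℝ} (hV : ∀ i, Exp r₀ B p (V i) (cf (Vs i))) (hr : 0 < r₀) (hB : 0 ≤ B)
    (z : Fin r → MvPolynomial (Fin s) ℝ) (E : Finset (Fin r)) :
    ∃ B' : ℝ, 0 ≤ B' ∧ Exp r₀ B' p (fun θ => ∑ j ∈ E, eval (fun i => θ i - p i) (z j) * V j θ)
      (cf (∑ j ∈ E, (z j : MvPowerSeries (Fin s) ℝ) * Vs j)) := by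
  classical
  induction E using Finset.induction_on with
  | empty =>
    refine ⟨0, le_refl _, fun b => ?_, fun k hk => ?_⟩
    · rw [Finset.sum_empty]
      unfold cf
      rw [map_zero, abs_zero, zero_mul]
    · have h1 : (fun b => cf (∑ j ∈ (∅ : Finset (Fin r)), (z j : MvPowerSeries (Fin s) ℝ) * Vs j) b * mon k b) =
          fun _ => 0 := by
        funext b
        rw [Finset.sum_empty]
        unfold cf
        rw [map_zero, zero_mul]
      rw [h1]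
      exact hasSum_zero
  | insert a E ha ih =>
    obtain ⟨B₁, hB₁, h₁⟩ := ih
    obtain ⟨B₂, hB₂, h₂⟩ := (hV a).mul_poly hr hB (z a)
    refine ⟨B₂ + B₁, by positivity, ?_⟩
    have h3 := XF15_add h₂ h₁
    rw [Finset.sum_insert ha]
    have h4 : (fun θ : Fin s → ℝ => ∑ j ∈ insert a E, eval (fun i => θ i - p i) (z j) * V j θ) =
        fun θ => eval (fun i => θ i - p i) (z a) * V a θ +
          ∑ j ∈ E, eval (fun i => θ i - p i) (z j) * V j θ := by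
      funext θ
      rw [Finset.sum_insert ha]
    rw [h4]
    exact h3

private theorem XF15_same {s : ℕ} {r B₁ B₂ : ℝ} {p : Fin s → ℝ} {f₁ f₂ : (Fin s → ℝ) → ℝ} {ν : (Fin s → ℕ) → ℝ}
    (h₁ : Exp r B₁ p f₁ ν) (h₂ : Exp r B₂ p f₂ ν) (hr : 0 < r) : ∀ᶠ θ in 𝓝 p, f₁ θ = f₂ θ := by
  have h1 : ∀ i, ∀ᶠ θ : Fin s → ℝ in 𝓝 p, |θ i - p i| < r := by
    intro i
    have h2 : Filter.Tendsto (fun θ : Fin s → ℝ => |θ i - p i|) (𝓝 p) (𝓝 |p i - p i|) :=
      (((continuous_apply i).sub continuous_const).abs).tendsto p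
    rw [sub_self, abs_zero] at h2
    exact h2.eventually_lt_const hr
  filter_upwards [Filter.eventually_all.2 h1] with θ hθ
  have h3 := h₁.sum (θ - p) hθ
  have h4 := h₂.sum (θ - p) hθ
  rw [add_sub_cancel] at h3 h4
  exact h3.unique h4

private theorem XF15_sh0 {s : ℕ} (e : Fin s → ℝ) : sh e (0 : MvPolynomial (Fin s) ℝ) = 0 := by
  unfold sh
  rw [map_zero]

private theorem XF15_deg {s : ℕ} (β : Fin s →₀ ℕ) : dg (β : Fin s → ℕ) = β.degree := by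
  unfold dg
  rw [Finsupp.degree_eq_sum]

private theorem XF15_num (C₁ C₂ a₁ D : ℕ) :
    (C₂ : ℝ) ^ (D + 1) * (Real.exp ((C₁ : ℝ) * (D + 1) ^ a₁) *
      Real.exp (-(((C₁ + C₂ + 1 : ℕ) : ℝ) * (D + 1) ^ (a₁ + 1)))) < 1 := by
  have hD : (1 : ℝ) ≤ (D : ℝ) + 1 := by
    have : (0 : ℝ) ≤ D := Nat.cast_nonneg _
    linarith
  have h1 : (C₂ : ℝ) ≤ Real.exp C₂ := by
    have := Real.add_one_le_exp (C₂ : ℝ)
    linarith
  have h2 : (C₂ : ℝ) ^ (D + 1) ≤ Real.exp (C₂ * ((D : ℝ) + 1)) := by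
    refine (pow_le_pow_left₀ (Nat.cast_nonneg _) h1 (D + 1)).trans (le_of_eq ?_)
    rw [← Real.exp_nat_mul]
    push_cast
    rw [mul_comm]
  have h3 : ((D : ℝ) + 1) ≤ ((D : ℝ) + 1) ^ (a₁ + 1) := le_self_pow₀ hD (Nat.succ_ne_zero _)
  have h4 : ((D : ℝ) + 1) ^ a₁ ≤ ((D : ℝ) + 1) ^ (a₁ + 1) := pow_le_pow_right₀ hD (Nat.le_succ _)
  have h5 : (0 : ℝ) < ((D : ℝ) + 1) ^ (a₁ + 1) := by positivity
  refine (mul_le_mul_of_nonneg_right h2 (by positivity)).trans_lt ?_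
  rw [← Real.exp_add, ← Real.exp_add]
  refine (Real.exp_lt_exp.2 ?_).trans_eq Real.exp_zero
  push_cast
  have h6 := mul_le_mul_of_nonneg_left h3 (Nat.cast_nonneg (α := ℝ) C₂)
  have h7 := mul_le_mul_of_nonneg_left h4 (Nat.cast_nonneg (α := ℝ) C₁)
  nlinarith

/-- PROOF. Take the data of `hpf`; `to_formal` gives `r₀, B₀, Ys, Vs`; `lb_formal` for `sh e δ` (`constantCoeff (sh e δ) = eval e δ ≠ 0`: `sh_eval` at `0`), `fun l b c => sh e (Γ l b c)`, `fun i b => sh e (R i b)` gives `E, g', Q', C₁, a₁` (in the coordinates `h = θ - e`). Put `g = sh (-e) g'`, `Q i j = sh (-e) (Q' i j)` (real polynomials in `θ`; `g ≠ 0` by `sh_sh`).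
(1) The relation `eval θ g * V i θ = ∑ j ∈ E, eval θ (Q i j) * V j θ` near `e`: both sides have expansions at `e` (`Exp.mul_poly`, `eval θ g = eval (θ - e) g'` by `sh_eval`), with the same coefficients by the formal relation, and the expansion determines the function near `e` (`Exp.eq_zero` for the difference).
(2) The lower bound. Let `z` be normalised (in `θ`), `z' j = sh e (z j)` with `e` real: total degree `≤ D` (`totalDegree_sh`). The series `F = ∑ j ∈ E, z' j * Vs j` satisfies `Exp r₀ B' e (cb E V z) (cf F)` for some `B'` (`Exp.mul_poly`, `Exp.linear`; `eval θ (z j) = eval (θ - e) (z' j)`), so `ν = cf F` by `exp_uniq`. Suppose that all `|ν b|` with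
`dg b < C₁ (D + 1)` are at most `μ`. Then all coefficients of the `z' j`, `j ∈ E`, are at most `exp (C₁ (D + 1) ^ a₁) μ` (`lb_formal`), so those of `z j = sh (-e) (z' j)` are at most `C₂ ^ (D + 1) exp (C₁ (D + 1) ^ a₁) μ` (`coeff_sh_le` for `-e`; apply it to each `z' j`), and one of them is `1`. With
`μ = exp (- C (D + 1) ^ a)`, `a = a₁ + 1`, `C ≥ C₁ + C₂ + 1` large (`C₂ ^ (D + 1) ≤ exp (C₂ (D + 1))`, strict inequality) this is impossible; so some `b` with `dg b < C₁ (D + 1) ≤ C (D + 1) ^ a` has `|ν b| > μ`. -/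
theorem lb_base {s r : ℕ} {Ω : Set (Fin s → ℝ)} {V : Fin r → (Fin s → ℝ) → ℝ}
    (hana : ∀ i, AnalyticOnNhd ℝ (V i) Ω) (hpf : PfHyp Ω V) :
    ∃ (E : Finset (Fin r)) (g : MvPolynomial (Fin s) ℝ) (Q : Fin r → Fin r → MvPolynomial (Fin s) ℝ)
      (e : Fin s → ℝ) (C a : ℕ), e ∈ Ω ∧ g ≠ 0 ∧ 1 ≤ C ∧ 1 ≤ a ∧
      (∀ᶠ θ in 𝓝 e, ∀ i, eval θ g * V i θ = ∑ j ∈ E, eval θ (Q i j) * V j θ) ∧ LB E V C a e := by
  obtain ⟨N, e, Y, δ, Γ, R, heΩ, hδe, hYa, hY, hV⟩ := hpf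
  obtain ⟨r₀, B, Ys, Vs, hr₀, hB, hVexp, hYf, hVf⟩ := to_formal hYa (fun i => hana i _ heΩ) hY hV
  have hδ' : constantCoeff (sh e δ) ≠ 0 := by
    rw [← eval_zero, sh_eval]
    have h1 : (fun i => e i + (0 : Fin s → ℚ) i) = e := by
      funext i
      rw [Pi.zero_apply, add_zero]
    rw [h1]
    exact hδe
  obtain ⟨E, g', Q', C₁, a₁, hg', hrel, hC₁, hlb⟩ :=
    lb_formal hδ' (fun l b c => sh e (Γ l b c)) (fun i b => sh e (R i b)) Ys Vs hYf hVf
  obtain ⟨p, hp⟩ : ∃ p : Fin s → ℝ, p = fun i => (e i : ℝ) := ⟨_, rfl⟩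
  rw [← hp] at hVexp heΩ
  obtain ⟨C₂, -, hsh⟩ := coeff_sh_le (fun i => - p i)
  have hev : ∀ (q : MvPolynomial (Fin s) ℝ) (θ : Fin s → ℝ),
      eval θ (sh (fun i => - p i) q) = eval (fun i => θ i - p i) q := by
    intro q θ
    rw [sh_eval]
    have h1 : (fun i => - p i + θ i) = fun i => θ i - p i := by
      funext i
      ring
    rw [h1]
  have hev' : ∀ (q : MvPolynomial (Fin s) ℝ) (θ : Fin s → ℝ),
      eval (fun i => θ i - p i) (sh p q) = eval θ q := by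
    intro q θ
    rw [sh_eval]
    have h1 : (fun i => p i + (θ i - p i)) = θ := by
      funext i
      ring
    rw [h1]
  refine ⟨E, sh (fun i => - p i) g', fun i j => sh (fun i => - p i) (Q' i j), p, C₁ + C₂ + 1, a₁ + 1, heΩ, ?_,
    by omega, by omega, ?_, ?_⟩
  · intro h0
    refine hg' ?_
    have h1 := sh_sh (fun i => - p i) g'
    rw [h0, XF15_sh0] at h1
    exact h1.symm
  · refine Filter.eventually_all.2 fun i => ?_
    obtain ⟨B₁, -, h₁⟩ := (hVexp i).mul_poly hr₀ hB g'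
    obtain ⟨B₂, -, h₂⟩ := XF15_comb hVexp hr₀ hB (Q' i) E
    rw [hrel i] at h₁
    filter_upwards [XF15_same h₁ h₂ hr₀] with θ hθ
    rw [hev, hθ]
    exact Finset.sum_congr rfl fun j _ => by rw [hev]
  · intro D z hz ρ B' ν hρ hB' hexp
    obtain ⟨hz1, -, j₀, hj₀, α₀, hα₀⟩ := hz
    obtain ⟨B₂, hB₂, h₂⟩ := XF15_comb hVexp hr₀ hB (fun j => sh p (z j)) E
    have h3 : (fun θ : Fin s → ℝ => ∑ j ∈ E, eval (fun i => θ i - p i) (sh p (z j)) * V j θ) = cb E V z := by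
      funext θ
      unfold cb
      exact Finset.sum_congr rfl fun j _ => by rw [hev']
    rw [h3] at h₂
    have h4 := exp_uniq hexp h₂ hρ hr₀ hB' hB₂
    by_contra hcon
    push Not at hcon
    obtain ⟨μ, hμ⟩ : ∃ μ : ℝ, μ = Real.exp (-(((C₁ + C₂ + 1 : ℕ) : ℝ) * (D + 1) ^ (a₁ + 1))) := ⟨_, rfl⟩
    rw [← hμ] at hcon
    have hμ0 : 0 ≤ μ := by
      rw [hμ]
      exact Real.exp_nonneg _
    have h5 : C₁ * (D + 1) ≤ (C₁ + C₂ + 1) * (D + 1) ^ (a₁ + 1) :=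
      Nat.mul_le_mul (by omega) (Nat.le_self_pow (Nat.succ_ne_zero _) _)
    have h6 := hlb D (fun j => sh p (z j)) (fun j hj => (totalDegree_sh p (z j)).trans (hz1 j hj)) μ hμ0
      (fun β hβ => by
        have h7 := hcon (β : Fin s → ℕ) (by rw [XF15_deg]; exact hβ.le.trans h5)
        rw [h4] at h7
        have h8 : cf (∑ j ∈ E, ((sh p (z j) : MvPolynomial (Fin s) ℝ) : MvPowerSeries (Fin s) ℝ) * Vs j)
            (β : Fin s → ℕ) = MvPowerSeries.coeff β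
              (∑ j ∈ E, ((sh p (z j) : MvPolynomial (Fin s) ℝ) : MvPowerSeries (Fin s) ℝ) * Vs j) := by
          unfold cf
          rw [Finsupp.equivFunOnFinite_symm_coe]
        rw [h8] at h7
        exact h7.le) j₀ hj₀
    have h7 := hsh D (sh p (z j₀)) ((totalDegree_sh p (z j₀)).trans (hz1 j₀ hj₀)) _ h6 α₀
    rw [sh_sh, hα₀] at h7
    have h8 := XF15_num C₁ C₂ a₁ D
    rw [← hμ] at h8
    linarith

end Pool.Agent.Lib.MP_bbe012_lc.XS
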