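import Pool.Agent.Lib.MP_bbe012_lc.XS.F13
import Pool.Agent.Lib.MP_bbe012_lc.XS.F14
import Pool.Agent.Lib.MP_bbe012_lc.PH.HA1

/-!
# LEAF XF16 (medium): propagation of the lower bound, locally
-/

set_option autoImplicit false

namespace Pool.Agent.Lib.MP_bbe012_lc.XS

open MvPolynomial PG PH

private theorem XF16_num {r₀ : ℝ} (hr : 0 < r₀) (hr1 : r₀ ≤ 1) {C₁ s C C' D T d : ℕ} (hC₁ : 1 ≤ C₁)
    (hT : D + 1 ≤ T) (hd : d ≤ C * T)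
    (hC' : 2 * ((C : ℝ) + C * Real.log (8 / r₀) + s + 1 + Real.log C₁) < C') :
    (8 / r₀) ^ d * 2 ^ s * (Real.exp (-((C' : ℝ) * T)) + (C₁ : ℝ) ^ (D + 1) * (1 / 2) ^ (C' * T)) <
      Real.exp (-((C : ℝ) * T)) := by
  have h8 : 1 ≤ 8 / r₀ := by
    rw [le_div_iff₀ hr]
    linarith
  obtain ⟨x, hx⟩ : ∃ x, x = Real.log (8 / r₀) := ⟨_, rfl⟩
  obtain ⟨y, hy⟩ : ∃ y, y = Real.log (C₁ : ℝ) := ⟨_, rfl⟩
  have hC1 : (1 : ℝ) ≤ C₁ := by exact_mod_cast hC₁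
  have hx0 : 0 ≤ x := by
    rw [hx]
    exact Real.log_nonneg h8
  have hy0 : 0 ≤ y := by
    rw [hy]
    exact Real.log_nonneg hC1
  have hex : Real.exp x = 8 / r₀ := by rw [hx, Real.exp_log (by linarith)]
  have hey : Real.exp y = C₁ := by rw [hy, Real.exp_log (by linarith)]
  rw [← hx, ← hy] at hC'
  have hT1 : (1 : ℝ) ≤ T := by
    have : 1 ≤ T := by omega
    exact_mod_cast this
  have h1 : (8 / r₀) ^ d ≤ Real.exp ((C : ℝ) * T * x) := by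
    rw [← hex, ← Real.exp_nat_mul, Real.exp_le_exp]
    have h : (d : ℝ) ≤ C * T := by exact_mod_cast hd
    exact mul_le_mul_of_nonneg_right h hx0
  have h2 : (2 : ℝ) ^ s ≤ Real.exp ((s : ℝ) * T) := by
    have h := Real.add_one_le_exp 1
    calc (2 : ℝ) ^ s ≤ (Real.exp 1) ^ s := pow_le_pow_left₀ (by norm_num) (by linarith) _
      _ = Real.exp ((s : ℝ) * 1) := (Real.exp_nat_mul 1 s).symm
      _ ≤ Real.exp ((s : ℝ) * T) := by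
        rw [Real.exp_le_exp]
        exact mul_le_mul_of_nonneg_left hT1 (Nat.cast_nonneg _)
  obtain ⟨L, hL⟩ : ∃ L : ℝ, L = (C' : ℝ) * T := ⟨_, rfl⟩
  have hL0 : 0 ≤ L := by
    rw [hL]
    positivity
  have h3 : Real.exp (-L) ≤ Real.exp (-(L / 2)) := by
    rw [Real.exp_le_exp]
    linarith
  have h4 : ((1 : ℝ) / 2) ^ (C' * T) ≤ Real.exp (-(L / 2)) := by
    have h := Real.add_one_le_exp (-(1 / 2))
    calc ((1 : ℝ) / 2) ^ (C' * T) ≤ (Real.exp (-(1 / 2))) ^ (C' * T) :=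
          pow_le_pow_left₀ (by norm_num) (by linarith) _
      _ = Real.exp (((C' * T : ℕ) : ℝ) * (-(1 / 2))) := (Real.exp_nat_mul _ _).symm
      _ = Real.exp (-(L / 2)) := by
        rw [hL]
        congr 1
        push_cast
        ring
  have h5 : (C₁ : ℝ) ^ (D + 1) ≤ Real.exp ((T : ℝ) * y) := by
    rw [← hey, ← Real.exp_nat_mul, Real.exp_le_exp]
    have h : ((D + 1 : ℕ) : ℝ) ≤ T := by exact_mod_cast hT
    exact mul_le_mul_of_nonneg_right h hy0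
  have h6 : Real.exp (-L) + (C₁ : ℝ) ^ (D + 1) * (1 / 2) ^ (C' * T) ≤
      Real.exp (-(L / 2)) * (Real.exp T * Real.exp ((T : ℝ) * y)) := by
    have a1 : (C₁ : ℝ) ^ (D + 1) * (1 / 2) ^ (C' * T) ≤
        Real.exp ((T : ℝ) * y) * Real.exp (-(L / 2)) :=
      mul_le_mul h5 h4 (by positivity) (Real.exp_pos _).le
    have a2 : 1 ≤ Real.exp ((T : ℝ) * y) := Real.one_le_exp (by positivity)
    have a3 : 2 ≤ Real.exp (T : ℝ) := by
      have := Real.add_one_le_exp (T : ℝ)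
      linarith
    have a4 : 2 * Real.exp ((T : ℝ) * y) ≤ Real.exp T * Real.exp ((T : ℝ) * y) :=
      mul_le_mul_of_nonneg_right a3 (Real.exp_pos _).le
    have a5 : 0 < Real.exp (-(L / 2)) := Real.exp_pos _
    calc Real.exp (-L) + (C₁ : ℝ) ^ (D + 1) * (1 / 2) ^ (C' * T) ≤
          Real.exp (-(L / 2)) + Real.exp ((T : ℝ) * y) * Real.exp (-(L / 2)) := add_le_add h3 a1
      _ = Real.exp (-(L / 2)) * (1 + Real.exp ((T : ℝ) * y)) := by ring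
      _ ≤ Real.exp (-(L / 2)) * (Real.exp T * Real.exp ((T : ℝ) * y)) :=
        mul_le_mul_of_nonneg_left (by linarith) a5.le
  rw [← hL]
  have h7 : (8 / r₀) ^ d * 2 ^ s ≤ Real.exp ((C : ℝ) * T * x) * Real.exp ((s : ℝ) * T) :=
    mul_le_mul h1 h2 (by positivity) (Real.exp_pos _).le
  have h9 : 0 ≤ Real.exp (-L) + (C₁ : ℝ) ^ (D + 1) * (1 / 2) ^ (C' * T) := by positivity
  refine lt_of_le_of_lt (mul_le_mul h7 h6 h9 (by positivity)) ?_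
  rw [← Real.exp_add, ← Real.exp_add, ← Real.exp_add, ← Real.exp_add, Real.exp_lt_exp, hL]
  nlinarith

/-- PROOF. Choose `ρ₀ > 0` with `closedBall θ ρ₀ ⊆ Ω`; it is compact, so by `exists_LA` (PH/HA1.lean) the `V j` have expansions of a common radius `r₀ ≤ 1` and bound `B₀` at all its points (minimum / maximum over `j`), and by `exp_cb` (`M` a bound for the coordinates) every `cb E V z` with coefficients at most `1` and total degree `≤ D` has an expansion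
`Exp r₀ (C₁ ^ (D + 1)) p _ _` at all points `p` of this ball. Let `ρ = min ρ₀ (r₀ / 16)`. Given `a ≥ 1` and `C`, let `θ', θ'' ∈ ball θ ρ` (`|θ' i - θ'' i| ≤ r₀ / 8`), `LB E V C a θ'`, `z` normalised and `ν''` the coefficients of any expansion of `cb E V z` at `θ''` (equal to those of radius `r₀`, bound `C₁ ^ (D + 1)`: `exp_uniq`). Let `L = C' (D + 1) ^ a` and suppose that
`|ν'' c| < exp (- L)` for all `c` with `dg c ≤ L`. `reexp` at `θ'` (with `ε = exp (- L)`) gives `ν'` with `|ν' b| ≤ (8 / r₀) ^ dg b * 2 ^ s * (exp (- L) + C₁ ^ (D + 1) (1 / 2) ^ L)`; for `dg b ≤ C (D + 1) ^ a` this is less than `exp (- C (D + 1) ^ a)` if `C'` is large enough compared with `C`, `log (8 / r₀)`, `log C₁`, `s` (use `(1 / 2) ^ L ≤ exp (- L / 2)`,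
`D + 1 ≤ (D + 1) ^ a`), which contradicts `LB E V C a θ'` for `z`. -/
theorem lb_local {s r : ℕ} {Ω : Set (Fin s → ℝ)} (hop : IsOpen Ω) {V : Fin r → (Fin s → ℝ) → ℝ}
    (hana : ∀ i, AnalyticOnNhd ℝ (V i) Ω) (E : Finset (Fin r)) (θ : Fin s → ℝ) (hθ : θ ∈ Ω) :
    ∃ ρ : ℝ, 0 < ρ ∧ Metric.ball θ ρ ⊆ Ω ∧ ∀ a : ℕ, 1 ≤ a → ∀ C : ℕ, ∃ C' : ℕ,
      ∀ θ' ∈ Metric.ball θ ρ, LB E V C a θ' → ∀ θ'' ∈ Metric.ball θ ρ, LB E V C' a θ'' := by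
  classical
  obtain ⟨ε, hε, hball⟩ := Metric.isOpen_iff.1 hop θ hθ
  obtain ⟨ρ₀, hρ₀⟩ : ∃ ρ₀ : ℝ, ρ₀ = ε / 2 := ⟨_, rfl⟩
  have hρ₀0 : 0 < ρ₀ := by
    rw [hρ₀]
    linarith
  have hSΩ : Metric.closedBall θ ρ₀ ⊆ Ω :=
    (Metric.closedBall_subset_ball (by rw [hρ₀]; linarith)).trans hball
  have hS : IsCompact (Metric.closedBall θ ρ₀) := isCompact_closedBall θ ρ₀
  choose rj Bj mj hrj hBj hLA using fun j => exists_LA hS (fun x hx => hana j x (hSΩ hx))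
  obtain ⟨r₀, hr₀, hr₀1, hr₀j⟩ : ∃ r₀ : ℝ, 0 < r₀ ∧ r₀ ≤ 1 ∧ ∀ j, r₀ ≤ rj j := by
    have h1 : ∀ᶠ x in nhdsWithin (0 : ℝ) (Set.Ioi 0), 0 < x ∧ x ≤ 1 ∧ ∀ j, x ≤ rj j := by
      have a1 : ∀ᶠ x in nhdsWithin (0 : ℝ) (Set.Ioi 0), 0 < x ∧ x ≤ 1 := Ioc_mem_nhdsGT one_pos
      have a2 : ∀ᶠ x in nhdsWithin (0 : ℝ) (Set.Ioi 0), ∀ j, x ≤ rj j := by
        rw [Filter.eventually_all]
        intro j
        filter_upwards [Ioc_mem_nhdsGT (hrj j)] with x hx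
        exact hx.2
      filter_upwards [a1, a2] with x h1 h2
      exact ⟨h1.1, h1.2, h2⟩
    exact h1.exists
  obtain ⟨B₀, hB₀, hB₀j⟩ : ∃ B₀ : ℝ, 0 ≤ B₀ ∧ ∀ j, Bj j ≤ B₀ :=
    ⟨∑ j, Bj j, Finset.sum_nonneg fun j _ => hBj j, fun j =>
      Finset.single_le_sum (fun i _ => hBj i) (Finset.mem_univ j)⟩
  have hExp : ∀ p ∈ Metric.closedBall θ ρ₀, ∀ j, ∃ ν, Exp r₀ B₀ p (V j) ν := by
    intro p hp j
    have h1 := (hLA j).exp p hp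
    exact ⟨mj j p, (h1.mono_radius hr₀ (hr₀j j) (hBj j)).mono hr₀ (hB₀j j)⟩
  have hM : ∀ p ∈ Metric.closedBall θ ρ₀, ∀ i, |p i| ≤ ‖θ‖ + ρ₀ := by
    intro p hp i
    have h1 := norm_le_pi_norm p i
    have h2 : ‖p‖ ≤ ‖θ‖ + ρ₀ := by
      have h3 : ‖p - θ‖ ≤ ρ₀ := mem_closedBall_iff_norm.1 hp
      calc ‖p‖ = ‖θ + (p - θ)‖ := by rw [add_sub_cancel]
        _ ≤ ‖θ‖ + ‖p - θ‖ := norm_add_le _ _
        _ ≤ ‖θ‖ + ρ₀ := by linarith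
    rw [← Real.norm_eq_abs]
    exact h1.trans h2
  obtain ⟨C₁, hC₁, hcb⟩ := exp_cb E V r₀ B₀ (‖θ‖ + ρ₀) hr₀ hB₀ (by positivity)
  refine ⟨min ρ₀ (r₀ / 16), lt_min hρ₀0 (by linarith), ?_, ?_⟩
  · refine (Metric.ball_subset_closedBall.trans (Metric.closedBall_subset_closedBall ?_)).trans hSΩ
    exact min_le_left _ _
  intro a ha C
  obtain ⟨Q, hQ⟩ : ∃ Q : ℝ, Q = (C : ℝ) + C * Real.log (8 / r₀) + s + 1 + Real.log C₁ := ⟨_, rfl⟩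
  refine ⟨⌊2 * Q⌋₊ + 1, ?_⟩
  intro θ' hθ' hLB θ'' hθ'' D z hN ρ₁ B₁ ν hρ₁ hB₁ hE
  have hin : ∀ q ∈ Metric.ball θ (min ρ₀ (r₀ / 16)), q ∈ Metric.closedBall θ ρ₀ := fun q hq =>
    Metric.closedBall_subset_closedBall (min_le_left _ _) (Metric.ball_subset_closedBall hq)
  obtain ⟨ν₂, hν₂⟩ := hcb θ'' (hM _ (hin _ hθ'')) (hExp _ (hin _ hθ'')) D z hN.1 hN.2.1
  have hB2 : (0 : ℝ) ≤ (C₁ : ℝ) ^ (D + 1) := by positivity
  have huniq := exp_uniq hE hν₂ hρ₁ hr₀ hB₁ hB2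
  subst huniq
  have hdist : ∀ i, |θ' i - θ'' i| ≤ r₀ / 8 := by
    intro i
    have h1 : dist θ' θ'' ≤ dist θ' θ + dist θ'' θ := dist_triangle_right _ _ _
    have h2 := Metric.mem_ball.1 hθ'
    have h3 := Metric.mem_ball.1 hθ''
    have h4 := min_le_right ρ₀ (r₀ / 16)
    have h5 := dist_le_pi_dist θ' θ'' i
    rw [Real.dist_eq] at h5
    linarith
  obtain ⟨ν', hν', hbd⟩ := reexp hν₂ hr₀ hr₀1 hB2 hdist
  obtain ⟨b, hb1, hb2⟩ := hLB D z hN (r₀ / 2) (2 ^ s * (C₁ : ℝ) ^ (D + 1)) ν' (by linarith)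
    (by positivity) hν'
  by_contra hcon
  push Not at hcon
  have hsm := hbd ((⌊2 * Q⌋₊ + 1) * (D + 1) ^ a)
    (Real.exp (-(((⌊2 * Q⌋₊ + 1 : ℕ) : ℝ) * (D + 1) ^ a))) (Real.exp_pos _).le
    (fun c hc => (hcon c hc).le) b
  have hT : D + 1 ≤ (D + 1) ^ a := Nat.le_self_pow (by omega) _
  have hC' : 2 * ((C : ℝ) + C * Real.log (8 / r₀) + s + 1 + Real.log C₁) <
      ((⌊2 * Q⌋₊ + 1 : ℕ) : ℝ) := by
    rw [← hQ]
    push_cast
    exact Nat.lt_floor_add_one _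
  have hnum := XF16_num (s := s) (C := C) hr₀ hr₀1 hC₁ hT hb1 hC'
  have e : (((D + 1) ^ a : ℕ) : ℝ) = ((D : ℝ) + 1) ^ a := by push_cast; rfl
  rw [e] at hnum
  exact absurd (hb2.trans hsm) (not_le.2 hnum)

end Pool.Agent.Lib.MP_bbe012_lc.XS
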