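import Pool.Agent.Lib.MP_bbe012_lc.XS.F16

/-!
# LEAF XF17 (medium-): propagation of the lower bound, globally
-/

set_option autoImplicit false

namespace Pool.Agent.Lib.MP_bbe012_lc.XS

open MvPolynomial PG

private theorem XF17_mono {s r : ℕ} {E : Finset (Fin r)} {V : Fin r → (Fin s → ℝ) → ℝ} {C C' a : ℕ}
    {p : Fin s → ℝ} (h : LB E V C a p) (hC : C ≤ C') : LB E V C' a p := by
  intro D z hz ρ B ν hρ hB hE
  obtain ⟨b, hb1, hb2⟩ := h D z hz ρ B ν hρ hB hE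
  refine ⟨b, hb1.trans (Nat.mul_le_mul_right _ hC), le_trans (Real.exp_le_exp.2 (neg_le_neg ?_)) hb2⟩
  have h1 : (C : ℝ) ≤ (C' : ℝ) := by exact_mod_cast hC
  exact mul_le_mul_of_nonneg_right h1 (by positivity)

/-- PROOF. First `LB E V C a p → C ≤ C' → LB E V C' a p`. Let `A` be the set of the `θ ∈ Ω` such that for some neighbourhood `W` of `θ` and some `C'` all points of `W` satisfy `LB E V C' a`. `A` is open, contains `e` (`lb_local` at `e`), and is closed in `Ω`: for `θ ∈ Ω` in the closure of `A` take `ρ` from `lb_local` at `θ` and a point `θ' ∈ A ∩ ball θ ρ`; it satisfies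
`LB` with some constant, so all points of `ball θ ρ` do. So `A = Ω` (`IsPreconnected.subset_of_closure_inter_subset`, or `hconn` applied to the open sets `A` and the union of the balls around the points of `Ω` outside of `A`). By compactness finitely many of the neighbourhoods cover `S`; take the maximum of the constants (and `1`). (`IsCompact.induction_on` is convenient.) -/
theorem lb_compact {s r : ℕ} {Ω : Set (Fin s → ℝ)} (hop : IsOpen Ω) (hconn : IsPreconnected Ω)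
    {V : Fin r → (Fin s → ℝ) → ℝ} (hana : ∀ i, AnalyticOnNhd ℝ (V i) Ω) {E : Finset (Fin r)} {e : Fin s → ℝ}
    (he : e ∈ Ω) {C a : ℕ} (ha : 1 ≤ a) (hLB : LB E V C a e) {S : Set (Fin s → ℝ)} (hS : IsCompact S) (hSΩ : S ⊆ Ω) :
    ∃ C' : ℕ, 1 ≤ C' ∧ ∀ θ ∈ S, LB E V C' a θ := by
  let u : Set (Fin s → ℝ) := {θ | ∃ C₁ : ℕ, ∀ᶠ p in nhds θ, LB E V C₁ a p}
  have hu : IsOpen u := by
    rw [isOpen_iff_mem_nhds]
    rintro θ ⟨C₁, h1⟩
    have h2 := eventually_eventually_nhds.2 h1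
    filter_upwards [h2] with q hq
    exact ⟨C₁, hq⟩
  have hloc : ∀ θ ∈ Ω, ∀ ρ : ℝ, 0 < ρ →
      (∀ a : ℕ, 1 ≤ a → ∀ C : ℕ, ∃ C' : ℕ, ∀ θ' ∈ Metric.ball θ ρ, LB E V C a θ' →
        ∀ θ'' ∈ Metric.ball θ ρ, LB E V C' a θ'') →
      ∀ θ' ∈ Metric.ball θ ρ, (∃ C₁, LB E V C₁ a θ') → θ ∈ u := by
    intro θ _ ρ hρ h θ' hθ' hC₁
    obtain ⟨C₁, h1⟩ := hC₁
    obtain ⟨C₂, h2⟩ := h a ha C₁
    refine ⟨C₂, ?_⟩
    filter_upwards [Metric.ball_mem_nhds θ hρ] with p hp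
    exact h2 θ' hθ' h1 p hp
  have hne : (Ω ∩ u).Nonempty := by
    obtain ⟨ρ, hρ, -, h⟩ := lb_local hop hana E e he
    exact ⟨e, he, hloc e he ρ hρ h e (Metric.mem_ball_self hρ) ⟨C, hLB⟩⟩
  have hcl : closure u ∩ Ω ⊆ u := by
    rintro θ ⟨hθ1, hθ2⟩
    obtain ⟨ρ, hρ, -, h⟩ := lb_local hop hana E θ hθ2
    obtain ⟨θ', hθ', hθu⟩ := mem_closure_iff_nhds.1 hθ1 _ (Metric.ball_mem_nhds θ hρ)
    obtain ⟨C₁, h1⟩ := hθu
    exact hloc θ hθ2 ρ hρ h θ' hθ' ⟨C₁, h1.self_of_nhds⟩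
  have hΩu : Ω ⊆ u := hconn.subset_of_closure_inter_subset hu hne hcl
  refine hS.induction_on (p := fun t => ∃ C' : ℕ, 1 ≤ C' ∧ ∀ θ ∈ t, LB E V C' a θ) ?_ ?_ ?_ ?_
  · exact ⟨1, le_rfl, fun θ hθ => absurd hθ (Set.notMem_empty θ)⟩
  · rintro t t' htt ⟨C', h1, h2⟩
    exact ⟨C', h1, fun θ hθ => h2 θ (htt hθ)⟩
  · rintro t t' ⟨C₁, h1, h2⟩ ⟨C₂, h3, h4⟩
    refine ⟨max C₁ C₂, h1.trans (le_max_left _ _), ?_⟩
    rintro θ (hθ | hθ)
    · exact XF17_mono (h2 θ hθ) (le_max_left _ _)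
    · exact XF17_mono (h4 θ hθ) (le_max_right _ _)
  · intro θ hθ
    obtain ⟨C₁, h1⟩ := hΩu (hSΩ hθ)
    refine ⟨{p | LB E V C₁ a p}, mem_nhdsWithin_of_mem_nhds h1, max 1 C₁, le_max_left _ _, fun p hp => ?_⟩
    exact XF17_mono hp (le_max_right _ _)

end Pool.Agent.Lib.MP_bbe012_lc.XS
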