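import Mathlib

/-!
# LEAF XF18 (medium-): a polynomial with a large coefficient is large somewhere in the unit cube
-/

set_option autoImplicit false

namespace Pool.Agent.Lib.MP_bbe012_lc.XS

open Polynomial in
private theorem XF18_coeff {α : Type} (s : Finset α) (c y : α → ℝ) {M : ℝ} (hM : 0 ≤ M)
    (hc : ∀ i ∈ s, |c i| ≤ M) (hy : ∀ i ∈ s, |y i| ≤ 1) :
    ∀ j, |(∏ i ∈ s, (C (c i) * (X - C (y i)))).coeff j| ≤ (2 * M) ^ s.card := by
  classical
  induction s using Finset.induction_on with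
  | empty =>
    intro j
    rw [Finset.prod_empty, Finset.card_empty, pow_zero, coeff_one]
    split_ifs
    · rw [abs_one]
    · rw [abs_zero]
      norm_num
  | insert a s ha ih =>
    intro j
    have ih' := ih (fun i hi => hc i (Finset.mem_insert_of_mem hi))
      (fun i hi => hy i (Finset.mem_insert_of_mem hi))
    obtain ⟨q, hq⟩ : ∃ q, q = ∏ i ∈ s, (C (c i) * (X - C (y i))) := ⟨_, rfl⟩
    rw [Finset.prod_insert ha, Finset.card_insert_of_notMem ha, ← hq, mul_assoc, coeff_C_mul, sub_mul,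
      coeff_sub, coeff_C_mul, abs_mul]
    rw [← hq] at ih'
    have hca := hc a (Finset.mem_insert_self _ _)
    have hya := hy a (Finset.mem_insert_self _ _)
    have h1 : |(X * q).coeff j| ≤ (2 * M) ^ s.card := by
      cases j with
      | zero =>
        rw [mul_coeff_zero, coeff_X_zero, zero_mul, abs_zero]
        positivity
      | succ j =>
        rw [coeff_X_mul]
        exact ih' j
    have h2 : |y a * q.coeff j| ≤ (2 * M) ^ s.card := by
      rw [abs_mul]
      calc |y a| * |q.coeff j| ≤ 1 * (2 * M) ^ s.card :=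
            mul_le_mul hya (ih' j) (abs_nonneg _) zero_le_one
        _ = (2 * M) ^ s.card := one_mul _
    have h3 : |(X * q).coeff j - y a * q.coeff j| ≤ 2 * (2 * M) ^ s.card := by
      refine (abs_sub _ _).trans ?_
      linarith
    calc |c a| * |(X * q).coeff j - y a * q.coeff j| ≤ M * (2 * (2 * M) ^ s.card) :=
          mul_le_mul hca h3 (abs_nonneg _) hM
      _ = (2 * M) ^ (s.card + 1) := by
          rw [pow_succ]
          ring

/-- one variable -/
private theorem XF18_one (n : ℕ) (a : Fin (n + 1) → ℝ) (ε : ℝ) (hε : 0 < ε) (h : ∃ j, ε ≤ |a j|) :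
    ∃ t : ℝ, (0 ≤ t ∧ t ≤ 1) ∧ ε / (((n : ℝ) + 1) * (2 * ((n : ℝ) + 1)) ^ n) ≤ |∑ j, a j * t ^ (j : ℕ)| := by
  classical
  obtain ⟨j₀, hj₀⟩ := h
  have hn0 : (0 : ℝ) ≤ n := Nat.cast_nonneg n
  have hn1 : (0 : ℝ) < (n : ℝ) + 1 := by linarith
  let x : Fin (n + 1) → ℝ := fun i => ((i : ℕ) : ℝ) / ((n : ℝ) + 1)
  have hx01 : ∀ i, 0 ≤ x i ∧ x i ≤ 1 := by
    intro i
    refine ⟨by positivity, ?_⟩
    rw [div_le_one hn1]
    have : (i : ℕ) ≤ n + 1 := i.2.le
    exact_mod_cast this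
  have hx1 : ∀ i, |x i| ≤ 1 := fun i => by
    rw [abs_of_nonneg (hx01 i).1]
    exact (hx01 i).2
  have hsep : ∀ i i', i ≠ i' → ((n : ℝ) + 1)⁻¹ ≤ |x i - x i'| := by
    intro i i' hne
    have h1 : x i - x i' = (((i : ℕ) : ℤ) - ((i' : ℕ) : ℤ) : ℤ) * ((n : ℝ) + 1)⁻¹ := by
      simp only [x]
      push_cast
      ring
    rw [h1, abs_mul, abs_of_pos (inv_pos.2 hn1)]
    have h2 : (1 : ℝ) ≤ |((((i : ℕ) : ℤ) - ((i' : ℕ) : ℤ) : ℤ) : ℝ)| := by
      rw [← Int.cast_abs]
      have h3 : ((i : ℕ) : ℤ) - ((i' : ℕ) : ℤ) ≠ 0 := by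
        intro h4
        apply hne
        apply Fin.ext
        omega
      exact_mod_cast Int.one_le_abs h3
    exact le_mul_of_one_le_left (inv_pos.2 hn1).le h2
  by_contra hcon
  push Not at hcon
  have hlt : ∀ i, |∑ j, a j * x i ^ (j : ℕ)| < ε / (((n : ℝ) + 1) * (2 * ((n : ℝ) + 1)) ^ n) := fun i =>
    hcon (x i) (hx01 i)
  have hinj : Set.InjOn x ((Finset.univ : Finset (Fin (n + 1))) : Set (Fin (n + 1))) := by
    intro i _ i' _ hii
    by_contra hne
    have h1 := hsep i i' hne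
    rw [hii, sub_self, abs_zero] at h1
    have := inv_pos.2 hn1
    linarith
  obtain ⟨p, hpd⟩ : ∃ p : Polynomial ℝ, p = ∑ j : Fin (n + 1), Polynomial.C (a j) * Polynomial.X ^ (j : ℕ) :=
    ⟨_, rfl⟩
  have hcoef : ∀ j : Fin (n + 1), p.coeff (j : ℕ) = a j := by
    intro j
    rw [hpd, Polynomial.finsetSum_coeff, Finset.sum_eq_single j]
    · rw [Polynomial.coeff_C_mul, Polynomial.coeff_X_pow, if_pos rfl, mul_one]
    · intro i _ hij
      rw [Polynomial.coeff_C_mul, Polynomial.coeff_X_pow, if_neg, mul_zero]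
      intro h
      exact hij (Fin.ext h.symm)
    · intro h
      exact absurd (Finset.mem_univ _) h
  have heval : ∀ t, p.eval t = ∑ j, a j * t ^ (j : ℕ) := by
    intro t
    rw [hpd, Polynomial.eval_finsetSum]
    refine Finset.sum_congr rfl fun j _ => ?_
    rw [Polynomial.eval_mul, Polynomial.eval_C, Polynomial.eval_pow, Polynomial.eval_X]
  have hdeg : p.degree < ((Finset.univ : Finset (Fin (n + 1))).card : WithBot ℕ) := by
    rw [Finset.card_univ, Fintype.card_fin, Polynomial.degree_lt_iff_coeff_zero]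
    intro m hm
    rw [hpd, Polynomial.finsetSum_coeff]
    refine Finset.sum_eq_zero fun j _ => ?_
    rw [Polynomial.coeff_C_mul, Polynomial.coeff_X_pow, if_neg, mul_zero]
    have := j.2
    omega
  have hint := Lagrange.eq_interpolate_of_eval_eq (fun i => p.eval (x i)) hinj hdeg (fun i _ => rfl)
  have hb : ∀ i : Fin (n + 1), |(Lagrange.basis Finset.univ x i).coeff (j₀ : ℕ)| ≤ (2 * ((n : ℝ) + 1)) ^ n := by
    intro i
    have h1 := XF18_coeff ((Finset.univ : Finset (Fin (n + 1))).erase i) (fun i' => (x i - x i')⁻¹) x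
      hn1.le (fun i' hi' => by
        rw [abs_inv]
        have h2 := inv_anti₀ (inv_pos.2 hn1) (hsep i i' (Finset.ne_of_mem_erase hi').symm)
        rw [inv_inv] at h2
        exact h2) (fun i' _ => hx1 i') (j₀ : ℕ)
    rw [Finset.card_erase_of_mem (Finset.mem_univ _), Finset.card_univ, Fintype.card_fin,
      Nat.add_sub_cancel] at h1
    exact h1
  have hΛ : 0 < (2 * ((n : ℝ) + 1)) ^ n := by positivity
  have hbig : |a j₀| < ε := by
    rw [← hcoef j₀, hint, Lagrange.interpolate_apply, Polynomial.finsetSum_coeff]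
    refine (Finset.abs_sum_le_sum_abs _ _).trans_lt ?_
    have h2 : ∀ i ∈ (Finset.univ : Finset (Fin (n + 1))),
        |(Polynomial.C (p.eval (x i)) * Lagrange.basis Finset.univ x i).coeff (j₀ : ℕ)| <
          ε / (((n : ℝ) + 1) * (2 * ((n : ℝ) + 1)) ^ n) * (2 * ((n : ℝ) + 1)) ^ n := by
      intro i _
      rw [Polynomial.coeff_C_mul, abs_mul, heval]
      refine lt_of_le_of_lt (mul_le_mul_of_nonneg_left (hb i) (abs_nonneg _)) ?_
      exact mul_lt_mul_of_pos_right (hlt i) hΛ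
    refine (Finset.sum_lt_sum_of_nonempty Finset.univ_nonempty h2).trans_le ?_
    rw [Finset.sum_const, Finset.card_univ, Fintype.card_fin, nsmul_eq_mul]
    push_cast
    refine le_of_eq ?_
    field_simp
  linarith

private theorem XF18_sum {K κ : ℕ} (f : (Fin (K + 1) → Fin (κ + 1)) → ℝ) :
    ∑ b, f b = ∑ j : Fin (κ + 1), ∑ b' : Fin K → Fin (κ + 1), f (Fin.cons j b') := by
  rw [← Fintype.sum_prod_type']
  exact (Fintype.sum_equiv (Fin.consEquiv fun _ : Fin (K + 1) => Fin (κ + 1)) _ _ fun _ => rfl).symm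

/-- PROOF. Induction on `s`. `s = 0`: clear. One variable: for `P(x) = ∑ j, a j x ^ j` of degree `≤ n` with `|a j₀| ≥ ε` some `x = k / (n + 1)`, `0 ≤ k ≤ n`, has `|P(x)| ≥ ε / ((n + 1) (2 (n + 1)) ^ n)`: Lagrange interpolation (see the proof of `small_separated` in PG/A1.lean; the private statement there can be copied):
the coefficients of the Lagrange polynomials are at most `2 ^ n / w ^ n`, `w = 1 / (n + 1)`. Step: split off the first variable (`Fin.consEquiv`, `Fin.sum_univ_succ` for functions: `Fintype.sum_equiv (Fin.consEquiv ..)`, compare `A1_sum`, `A1_poly` in PG/A1.lean): `∑ b, c b ∏ u_i ^ b_i = ∑_{b'} (∑_j c (cons j b') u_0 ^ j) ∏ u'_i ^ b'_i`; choose `u_0` for the index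
`b'` of the large coefficient, then apply the induction hypothesis to the coefficients `∑_j c (cons j b') u_0 ^ j`. -/
theorem poly_pt (s n : ℕ) (c : (Fin s → Fin (n + 1)) → ℝ) (ε : ℝ) (hε : 0 < ε) (h : ∃ b, ε ≤ |c b|) :
    ∃ u : Fin s → ℝ, (∀ i, 0 ≤ u i ∧ u i ≤ 1) ∧
      ε / (((n : ℝ) + 1) * (2 * ((n : ℝ) + 1)) ^ n) ^ s ≤ |∑ b, c b * ∏ i, u i ^ (b i : ℕ)| := by
  classical
  have hn1 : (0 : ℝ) < (n : ℝ) + 1 := by positivity
  have hΛ : 0 < ((n : ℝ) + 1) * (2 * ((n : ℝ) + 1)) ^ n := by positivity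
  induction s generalizing ε with
  | zero =>
    obtain ⟨b, hb⟩ := h
    refine ⟨fun i => i.elim0, fun i => i.elim0, ?_⟩
    rw [Fintype.sum_subsingleton _ b]
    simpa using hb
  | succ s ih =>
    obtain ⟨b₀, hb₀⟩ := h
    obtain ⟨t, ht, htb⟩ := XF18_one n (fun j => c (Fin.cons j (Fin.tail b₀))) ε hε ⟨b₀ 0, by
      have h1 : (Fin.cons (b₀ 0) (Fin.tail b₀) : Fin (s + 1) → Fin (n + 1)) = b₀ := Fin.cons_self_tail b₀
      show ε ≤ |c (Fin.cons (b₀ 0) (Fin.tail b₀))|
      rw [h1]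
      exact hb₀⟩
    obtain ⟨u, hu, hub⟩ := ih (fun b' => ∑ j : Fin (n + 1), c (Fin.cons j b') * t ^ (j : ℕ))
      (ε / (((n : ℝ) + 1) * (2 * ((n : ℝ) + 1)) ^ n)) (div_pos hε hΛ) ⟨Fin.tail b₀, htb⟩
    refine ⟨Fin.cons t u, fun i => ?_, ?_⟩
    · refine Fin.cases ?_ (fun l => ?_) i
      · exact ht
      · exact hu l
    · have h1 : ∑ b : Fin (s + 1) → Fin (n + 1), c b * ∏ i, (Fin.cons t u : Fin (s + 1) → ℝ) i ^ (b i : ℕ) =
          ∑ b' : Fin s → Fin (n + 1), (∑ j : Fin (n + 1), c (Fin.cons j b') * t ^ (j : ℕ)) *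
            ∏ i, u i ^ (b' i : ℕ) := by
        rw [XF18_sum, Finset.sum_comm]
        refine Finset.sum_congr rfl fun b' _ => ?_
        rw [Finset.sum_mul]
        refine Finset.sum_congr rfl fun j _ => ?_
        rw [Fin.prod_univ_succ]
        simp only [Fin.cons_zero, Fin.cons_succ]
        ring
      rw [h1, pow_succ', ← div_div]
      exact hub

end Pool.Agent.Lib.MP_bbe012_lc.XS
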