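import Pool.Agent.Lib.MP_bbe012_lc.XS.F0
import Pool.Agent.Lib.MP_bbe012_lc.XS.F18

/-!
# LEAF XF19 (medium-): an analytic function with a large Taylor coefficient is large somewhere in a small box
-/

set_option autoImplicit false

namespace Pool.Agent.Lib.MP_bbe012_lc.XS

open PG

/-- The loss in `poly_pt`. -/
noncomputable def Lam (s n : ℕ) : ℝ := (((n : ℝ) + 1) * (2 * ((n : ℝ) + 1)) ^ n) ^ s

/-- PROOF. `poly_pt s n` for the coefficients `c b = ν b * ℓ ^ dg b` (`b : Fin s → Fin (n + 1)`; the given `b₀` has all entries `≤ dg b₀ ≤ L ≤ n`, and `|c b₀| ≥ ε ℓ ^ L` as `ℓ ≤ 1`) and `ε ℓ ^ L` instead of `ε`: some `u` in the unit cube has `|P(u)| ≥ ε ℓ ^ L / Lam s n`. `Exp.approx` (PG/A3.lean) with `n + 1` and the finite set `F` of all exponents with entries `≤ n` (it contains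
all `b` with `dg b < n + 1`): `|F(p + ℓ u) - P(u)| ≤ B 2 ^ s (2 ℓ / ρ) ^ (n + 1) ≤ ε ℓ ^ L / (2 Lam s n)` by `htail`. -/
theorem exists_pt {s : ℕ} {ρ B : ℝ} (hρ : 0 < ρ) (hB : 0 ≤ B) {p : Fin s → ℝ} {F : (Fin s → ℝ) → ℝ}
    {ν : (Fin s → ℕ) → ℝ} (h : Exp ρ B p F ν) {L n : ℕ} (hLn : L ≤ n) {ε : ℝ} (hε : 0 < ε) {b₀ : Fin s → ℕ}
    (hb : dg b₀ ≤ L) (hεb : ε ≤ |ν b₀|) {ℓ : ℝ} (hℓ : 0 < ℓ) (hℓ1 : ℓ ≤ 1) (hℓρ : 4 * ℓ ≤ ρ)
    (htail : B * 2 ^ s * (2 * ℓ / ρ) ^ (n + 1) * Lam s n ≤ ε * ℓ ^ L / 2) :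
    ∃ u : Fin s → ℝ, (∀ i, 0 ≤ u i ∧ u i ≤ 1) ∧ ε * ℓ ^ L / (2 * Lam s n) ≤ |F (p + fun i => ℓ * u i)| := by
  classical
  have hd : ∀ (b : Fin s → ℕ) (i : Fin s), b i ≤ dg b := fun b i =>
    Finset.single_le_sum (f := b) (fun _ _ => Nat.zero_le _) (Finset.mem_univ i)
  have hn0 : (0 : ℝ) ≤ (n : ℝ) := Nat.cast_nonneg n
  have hLam : 0 < Lam s n := by
    unfold Lam
    positivity
  let e : (Fin s → Fin (n + 1)) → (Fin s → ℕ) := fun b i => (b i : ℕ)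
  have he : Function.Injective e := by
    intro b b' hbb
    funext i
    exact Fin.ext (congrFun hbb i)
  have hε' : 0 < ε * ℓ ^ L := by positivity
  have hlt : ∀ i, b₀ i < n + 1 := fun i => by
    have := hd b₀ i
    omega
  obtain ⟨u, hu, hP⟩ := poly_pt s n (fun b => ν (e b) * ℓ ^ dg (e b)) (ε * ℓ ^ L) hε'
    ⟨fun i => ⟨b₀ i, hlt i⟩, by
      show ε * ℓ ^ L ≤ |ν b₀ * ℓ ^ dg b₀|
      rw [abs_mul, abs_of_nonneg (pow_nonneg hℓ.le _)]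
      exact mul_le_mul hεb (pow_le_pow_of_le_one hℓ.le hℓ1 hb) (by positivity) (abs_nonneg _)⟩
  refine ⟨u, hu, ?_⟩
  have h1 := h.approx hρ hB hℓ hℓρ (u := u) (fun i => by rw [abs_of_nonneg (hu i).1]; exact (hu i).2) (n + 1)
    (Finset.univ.image e) (fun b hbn => by
      refine Finset.mem_image.mpr ⟨fun i => ⟨b i, ?_⟩, Finset.mem_univ _, rfl⟩
      have := hd b i
      omega)
  rw [Finset.sum_image (fun x _ y _ hxy => he hxy), Fintype.card_fin] at h1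
  have h2 : ε * ℓ ^ L / Lam s n ≤ |∑ b, ν (e b) * ℓ ^ dg (e b) * mon u (e b)| := hP
  have h3 : B * 2 ^ s * (2 * ℓ / ρ) ^ (n + 1) ≤ ε * ℓ ^ L / (2 * Lam s n) := by
    rw [le_div_iff₀ (by positivity)]
    have h4 : B * 2 ^ s * (2 * ℓ / ρ) ^ (n + 1) * (2 * Lam s n) =
        2 * (B * 2 ^ s * (2 * ℓ / ρ) ^ (n + 1) * Lam s n) := by ring
    rw [h4]
    linarith
  have h5 : ε * ℓ ^ L / Lam s n = ε * ℓ ^ L / (2 * Lam s n) + ε * ℓ ^ L / (2 * Lam s n) := by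
    field_simp
    ring
  have h6 := abs_sub_abs_le_abs_sub (∑ b, ν (e b) * ℓ ^ dg (e b) * mon u (e b)) (F (p + fun i => ℓ * u i))
  rw [abs_sub_comm] at h6
  linarith

end Pool.Agent.Lib.MP_bbe012_lc.XS
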