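import Pool.Agent.Lib.MP_bbe012_lc.XS.F1
import Pool.Agent.Lib.MP_bbe012_lc.XS.A10

/-!
# LEAF XF2 (medium): the zero estimate for the entries of the fundamental matrix
-/

set_option autoImplicit false

namespace Pool.Agent.Lib.MP_bbe012_lc.XS

open MvPolynomial

private theorem F2_coe {K ι : Type} [Field K] (t : Finset ι) (a : ι → K) (P : ι → Polynomial K) :
    ((∑ l ∈ t, Polynomial.C (a l) * P l : Polynomial K) : PowerSeries K) =
      ∑ l ∈ t, PowerSeries.C (a l) * (P l : PowerSeries K) := by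
  have h := map_sum (Polynomial.coeToPowerSeries.ringHom (R := K)) (fun l => Polynomial.C (a l) * P l) t
  rw [Polynomial.coeToPowerSeries.ringHom_apply] at h
  rw [h]
  refine Finset.sum_congr rfl fun l _ => ?_
  rw [Polynomial.coeToPowerSeries.ringHom_apply, Polynomial.coe_mul, Polynomial.coe_C]

private theorem F2_rad {s N : ℕ} (Γ : Fin s → Fin N → Fin N → MvPolynomial (Fin s) ℝ) (b b' : Fin N) :
    ((rad Γ b b' : MvPolynomial (Fin s) ℝ) : MvPowerSeries (Fin s) ℝ) =
      ∑ l, ((X l : MvPolynomial (Fin s) ℝ) : MvPowerSeries (Fin s) ℝ) * (Γ l b b' : MvPowerSeries (Fin s) ℝ) := by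
  have h := map_sum (coeToMvPowerSeries.ringHom (σ := Fin s) (R := ℝ)) (fun l => X l * Γ l b b') Finset.univ
  rw [coeToMvPowerSeries.ringHom_apply] at h
  unfold rad
  rw [h]
  refine Finset.sum_congr rfl fun l _ => ?_
  rw [coeToMvPowerSeries.ringHom_apply, MvPolynomial.coe_mul]

/-- PROOF. `zero_est` over the field `Kf s` for the `m = N * N` power series `u (b, c) = hz (U b c)` (index set `Fin N × Fin N ≃ Fin (N * N)`, `finProdFinEquiv`). `T` is the polynomial of `hz_poly δ`: `T.coeff 0 = algebraMap (C (constantCoeff δ)) ≠ 0`. Let `P l b b'` be the polynomial of `hz_poly (Γ l b b')`, and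
`B (b, c) (b', c') = if c = c' then ∑ l, C (algebraMap (X l)) * P l b b' else 0`. Applying `hz` to `hU` (`hz_mul`, `hz_sum`, `hz_X`, `hz_eu`; `rad Γ b b' = ∑ l, X l * Γ l b b'`): `T * (X * u_(b,c)') = ∑ b', (∑ l, w_l X P_l b b') * u_(b',c)`; cancel `X` (`PowerSeries.X_ne_zero`, domain): `Sol T B u`.
Given `w` of total degree `≤ D`: `v (b, c)` the polynomial of `hz_poly (w b c)`, of degree `≤ D`; `hz (Phi w U) = pr v u`. If `Phi w U ≠ 0`, then `pr v u ≠ 0` (`hz_inj`), so `X ^ (C (D + 1))` does not divide it; but it does by `hz_dvd` and the hypothesis. -/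
theorem zero_mv {s N : ℕ} (δ : MvPolynomial (Fin s) ℝ) (hδ : constantCoeff δ ≠ 0)
    (Γ : Fin s → Fin N → Fin N → MvPolynomial (Fin s) ℝ) (U : Fin N → Fin N → MvPowerSeries (Fin s) ℝ)
    (hU : ∀ b c, (δ : MvPowerSeries (Fin s) ℝ) * eu (U b c) =
      ∑ b', (rad Γ b b' : MvPowerSeries (Fin s) ℝ) * U b' c) :
    ∃ C : ℕ, ∀ (D : ℕ) (w : Fin N → Fin N → MvPolynomial (Fin s) ℝ), (∀ b c, (w b c).totalDegree ≤ D) →
      (∀ β : Fin s →₀ ℕ, β.degree < C * (D + 1) → MvPowerSeries.coeff β (Phi w U) = 0) → Phi w U = 0 := by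
  obtain ⟨T, hT1, _, hT3⟩ := hz_poly δ
  have hT : T.coeff 0 ≠ 0 := by
    rw [hT3]
    intro h
    have h1 : (C (constantCoeff δ) : MvPolynomial (Fin s) ℝ) = 0 :=
      IsFractionRing.injective (MvPolynomial (Fin s) ℝ) (Kf s) (h.trans (map_zero _).symm)
    exact hδ (C_eq_zero.mp h1)
  choose P hP _ _ using fun (l : Fin s) (b b' : Fin N) => hz_poly (Γ l b b')
  obtain ⟨e, he⟩ : ∃ e : Fin N × Fin N ≃ Fin (N * N), e = finProdFinEquiv := ⟨_, rfl⟩
  have hsumE : ∀ F : Fin N × Fin N → PowerSeries (Kf s),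
      ∑ j : Fin (N * N), F (e.symm j) = ∑ b, ∑ c, F (b, c) := by
    intro F
    rw [Equiv.sum_comp e.symm F, Fintype.sum_prod_type]
  have hSol : Sol T (fun i j => if (e.symm i).2 = (e.symm j).2 then
      ∑ l, Polynomial.C (algebraMap (MvPolynomial (Fin s) ℝ) (Kf s) (X l)) * P l (e.symm i).1 (e.symm j).1 else 0)
      (fun i => hz (U (e.symm i).1 (e.symm i).2)) := by
    intro i
    beta_reduce
    generalize e.symm i = x
    obtain ⟨b, c⟩ := x
    have h1 := hsumE (fun x => (((if c = x.2 then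
      ∑ l, Polynomial.C (algebraMap (MvPolynomial (Fin s) ℝ) (Kf s) (X l)) * P l b x.1 else 0 : Polynomial (Kf s))) :
        PowerSeries (Kf s)) * hz (U x.1 x.2))
    refine Eq.trans ?_ h1.symm
    have h2 : ∀ b', ∑ c', (((if c = c' then
        ∑ l, Polynomial.C (algebraMap (MvPolynomial (Fin s) ℝ) (Kf s) (X l)) * P l b b' else 0 : Polynomial (Kf s))) :
          PowerSeries (Kf s)) * hz (U b' c') =
        (∑ l, PowerSeries.C (algebraMap (MvPolynomial (Fin s) ℝ) (Kf s) (X l)) * (P l b b' : PowerSeries (Kf s))) *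
          hz (U b' c) := by
      intro b'
      rw [Finset.sum_eq_single c]
      · rw [if_pos rfl, F2_coe]
      · intro c' _ hc'
        rw [if_neg (Ne.symm hc'), Polynomial.coe_zero, zero_mul]
      · intro h
        exact absurd (Finset.mem_univ c) h
    rw [Finset.sum_congr rfl fun b' _ => h2 b']
    have h3 := congrArg hz (hU b c)
    rw [hz_mul, hz_eu, ← hT1, hz_sum] at h3
    refine mul_left_cancel₀ (PowerSeries.X_ne_zero (R := Kf s)) ?_
    show PowerSeries.X * ((T : PowerSeries (Kf s)) * PowerSeries.derivative (Kf s) (hz (U b c))) = _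
    calc PowerSeries.X * ((T : PowerSeries (Kf s)) * PowerSeries.derivative (Kf s) (hz (U b c)))
        = (T : PowerSeries (Kf s)) * (PowerSeries.X * PowerSeries.derivative (Kf s) (hz (U b c))) := by ring
      _ = ∑ b', hz ((rad Γ b b' : MvPowerSeries (Fin s) ℝ) * U b' c) := h3
      _ = _ := by
        rw [Finset.mul_sum]
        refine Finset.sum_congr rfl fun b' _ => ?_
        rw [hz_mul, F2_rad, hz_sum, Finset.sum_mul, Finset.sum_mul, Finset.mul_sum]
        refine Finset.sum_congr rfl fun l _ => ?_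
        rw [hz_mul, hz_X, ← hP]
        ring
  obtain ⟨Cc, hC⟩ := zero_est T hT _ _ hSol
  refine ⟨Cc, fun D w hw h0 => ?_⟩
  by_contra hne
  choose W hW1 hW2 _ using fun (b c : Fin N) => hz_poly (w b c)
  have hpr : pr (fun i => W (e.symm i).1 (e.symm i).2) (fun i => hz (U (e.symm i).1 (e.symm i).2)) = hz (Phi w U) := by
    have h1 := hsumE (fun x => (W x.1 x.2 : PowerSeries (Kf s)) * hz (U x.1 x.2))
    refine Eq.trans h1 ?_
    unfold Phi
    rw [hz_sum]
    refine Finset.sum_congr rfl fun b _ => ?_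
    rw [hz_sum]
    refine Finset.sum_congr rfl fun c _ => ?_
    rw [hz_mul, hW1]
  have h1 := hC D (fun i => W (e.symm i).1 (e.symm i).2) (fun i => (hW2 _ _).trans (hw _ _))
    (by rw [hpr]; exact fun h => hne (hz_inj h))
  rw [hpr] at h1
  exact h1 ((hz_dvd _ _).mpr h0)

end Pool.Agent.Lib.MP_bbe012_lc.XS
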