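import Pool.Agent.Lib.MP_bbe012_lc.XS.F19

/-!
# LEAF XF20 (medium): the estimates for the point in the box
-/

set_option autoImplicit false

namespace Pool.Agent.Lib.MP_bbe012_lc.XS

open PG

private theorem XF20_lam (s n : ℕ) : Lam s n ≤ (((2 : ℝ) * ((n : ℝ) + 1)) ^ s) ^ (n + 1) := by
  unfold Lam
  rw [← pow_mul, mul_comm s (n + 1), pow_mul]
  have h0 : (0 : ℝ) ≤ n := Nat.cast_nonneg n
  refine pow_le_pow_left₀ (by positivity) ?_ s
  rw [pow_succ']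
  refine mul_le_mul_of_nonneg_right (by linarith) (by positivity)

private theorem XF20_base (s n : ℕ) {N : ℝ} (hN0 : 0 ≤ N) (hn : (n : ℝ) + 1 = N ^ 2) :
    ((2 : ℝ) * ((n : ℝ) + 1)) ^ s ≤ Real.exp (2 * N * s) := by
  have h1 : (2 : ℝ) * ((n : ℝ) + 1) ≤ Real.exp (2 * N) := by
    have h2 := Real.quadratic_le_exp_of_nonneg (x := 2 * N) (by positivity)
    rw [hn]
    nlinarith
  have h0 : (0 : ℝ) ≤ n := Nat.cast_nonneg n
  calc ((2 : ℝ) * ((n : ℝ) + 1)) ^ s ≤ (Real.exp (2 * N)) ^ s := pow_le_pow_left₀ (by positivity) h1 s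
    _ = Real.exp (2 * N * s) := by rw [← Real.exp_nat_mul]; ring_nf

private theorem XF20_two : (2 : ℝ) ≤ Real.exp 1 := by
  have := Real.add_one_le_exp (1 : ℝ)
  linarith

private theorem XF20_four : Real.exp 1 ≤ (4 : ℝ) := by
  have := Real.exp_one_lt_d9
  linarith

/-- The tail estimate. -/
private theorem XF20_tail {s n L : ℕ} {X C c N l ρ : ℝ} {B : ℝ} (hρ : 0 < ρ) (hl : 0 < l)
    (hN0 : 0 ≤ N) (hn : (n : ℝ) + 1 = N ^ 2) (hB0 : 0 ≤ B) (hB : B ≤ Real.exp (C * X)) (hc : 8 / ρ ≤ Real.exp c)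
    (hlM : l * (8 * ((2 : ℝ) * ((n : ℝ) + 1)) ^ s) ≤ ρ) (hLn : L ≤ n)
    (hN : C * X + s + (c + 2 * N * s) * L + 2 * L + 1 ≤ N ^ 2) :
    B * 2 ^ s * (2 * l / ρ) ^ (n + 1) * Lam s n ≤ Real.exp (-(L : ℝ)) * l ^ L / 2 := by
  have h0 : (0 : ℝ) ≤ n := Nat.cast_nonneg n
  obtain ⟨M, hM⟩ : ∃ M : ℝ, M = ((2 : ℝ) * ((n : ℝ) + 1)) ^ s := ⟨_, rfl⟩
  have hM0 : 0 < M := by rw [hM]; positivity
  have hM1 := XF20_base s n hN0 hn
  have hM2 := XF20_lam s n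
  rw [← hM] at hM1 hM2 hlM
  have hx : (2 * l / ρ) * M ≤ 1 / 4 := by
    rw [div_mul_eq_mul_div, div_le_div_iff₀ hρ (by norm_num)]
    linarith
  have hx0 : 0 ≤ (2 * l / ρ) * M := by positivity
  have h1 : (2 * l / ρ) ^ (n + 1) * Lam s n ≤ ((2 * l / ρ) * M) ^ (n + 1) := by
    rw [mul_pow]
    exact mul_le_mul_of_nonneg_left hM2 (by positivity)
  have h2 : ((2 * l / ρ) * M) ^ (n + 1) ≤
      (l ^ L * Real.exp ((c + 2 * N * s) * L)) * Real.exp (-(N ^ 2 - L)) := by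
    have e1 : n + 1 = L + (n + 1 - L) := by omega
    rw [e1, pow_add]
    refine mul_le_mul ?_ ?_ (by positivity) (by positivity)
    · have e2 : (2 * l / ρ) * M = l * (2 / ρ * M) := by ring
      rw [e2, mul_pow]
      refine mul_le_mul_of_nonneg_left ?_ (by positivity)
      have h3 : 2 / ρ * M ≤ Real.exp (c + 2 * N * s) := by
        rw [Real.exp_add]
        refine mul_le_mul (le_trans ?_ hc) hM1 hM0.le (Real.exp_nonneg _)
        exact div_le_div_of_nonneg_right (by norm_num) hρ.le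
      calc (2 / ρ * M) ^ L ≤ (Real.exp (c + 2 * N * s)) ^ L := pow_le_pow_left₀ (by positivity) h3 L
        _ = Real.exp ((c + 2 * N * s) * L) := by rw [← Real.exp_nat_mul]; ring_nf
    · have h3 : ((2 * l / ρ) * M) ^ (n + 1 - L) ≤ (Real.exp (-1)) ^ (n + 1 - L) := by
        refine pow_le_pow_left₀ hx0 (hx.trans ?_) _
        rw [Real.exp_neg, one_div]
        exact inv_anti₀ (Real.exp_pos _) XF20_four
      refine h3.trans (le_of_eq ?_)
      rw [← Real.exp_nat_mul]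
      congr 1
      rw [Nat.cast_sub (by omega)]
      push_cast
      rw [hn]
      ring
  have h2s : (2 : ℝ) ^ s ≤ Real.exp s := by
    calc (2 : ℝ) ^ s ≤ (Real.exp 1) ^ s := pow_le_pow_left₀ (by norm_num) XF20_two s
      _ = Real.exp s := by rw [← Real.exp_nat_mul]; ring_nf
  have h4 : B * 2 ^ s * (2 * l / ρ) ^ (n + 1) * Lam s n ≤
      (Real.exp (C * X) * Real.exp s) * ((l ^ L * Real.exp ((c + 2 * N * s) * L)) * Real.exp (-(N ^ 2 - L))) := by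
    rw [mul_assoc]
    refine mul_le_mul (mul_le_mul hB h2s (by positivity) (Real.exp_nonneg _)) (h1.trans h2) ?_ (by positivity)
    refine mul_nonneg (by positivity) ?_
    unfold Lam
    positivity
  refine h4.trans ?_
  have h5 : Real.exp (C * X + s + (c + 2 * N * s) * L + -(N ^ 2 - L)) ≤ Real.exp (-(L : ℝ)) * 2⁻¹ := by
    have h6 : Real.exp (-1) ≤ (2 : ℝ)⁻¹ := by
      rw [Real.exp_neg]
      exact inv_anti₀ (by norm_num) XF20_two
    calc Real.exp (C * X + s + (c + 2 * N * s) * L + -(N ^ 2 - L)) ≤ Real.exp (-(L : ℝ) + -1) := by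
          apply Real.exp_le_exp.mpr
          linarith
      _ = Real.exp (-(L : ℝ)) * Real.exp (-1) := Real.exp_add _ _
      _ ≤ Real.exp (-(L : ℝ)) * 2⁻¹ := mul_le_mul_of_nonneg_left h6 (Real.exp_nonneg _)
  rw [Real.exp_add, Real.exp_add, Real.exp_add] at h5
  have h7 := mul_le_mul_of_nonneg_left h5 (pow_nonneg hl.le L)
  calc (Real.exp (C * X) * Real.exp s) * ((l ^ L * Real.exp ((c + 2 * N * s) * L)) * Real.exp (-(N ^ 2 - L))) =
      l ^ L * (Real.exp (C * X) * Real.exp s * Real.exp ((c + 2 * N * s) * L) * Real.exp (-(N ^ 2 - L))) := by ring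
    _ ≤ l ^ L * (Real.exp (-(L : ℝ)) * 2⁻¹) := h7
    _ = Real.exp (-(L : ℝ)) * l ^ L / 2 := by ring

/-- The lower bound. -/
private theorem XF20_low {s n L : ℕ} {c N l t : ℝ} (hN0 : 0 ≤ N) (hn : (n : ℝ) + 1 = N ^ 2)
    (hl : Real.exp (-(2 * t + c + 2 * N * s)) ≤ l) :
    Real.exp (-(L + L * (2 * t + c + 2 * N * s) + 1 + 2 * N * s * N ^ 2)) ≤
      Real.exp (-(L : ℝ)) * l ^ L / (2 * Lam s n) := by
  have h0 : (0 : ℝ) ≤ n := Nat.cast_nonneg n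
  have hLam0 : 0 < Lam s n := by unfold Lam; positivity
  have hM1 := XF20_base s n hN0 hn
  have hM2 := XF20_lam s n
  have h1 : Lam s n ≤ Real.exp (2 * N * s * N ^ 2) := by
    refine hM2.trans ?_
    calc (((2 : ℝ) * ((n : ℝ) + 1)) ^ s) ^ (n + 1) ≤ (Real.exp (2 * N * s)) ^ (n + 1) :=
          pow_le_pow_left₀ (by positivity) hM1 _
      _ = Real.exp (2 * N * s * N ^ 2) := by
          rw [← Real.exp_nat_mul]
          congr 1
          push_cast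
          rw [hn]
          ring
  have h2 : Real.exp (-(L * (2 * t + c + 2 * N * s))) ≤ l ^ L := by
    calc Real.exp (-(L * (2 * t + c + 2 * N * s))) = (Real.exp (-(2 * t + c + 2 * N * s))) ^ L := by
          rw [← Real.exp_nat_mul]; ring_nf
      _ ≤ l ^ L := pow_le_pow_left₀ (Real.exp_nonneg _) hl L
  rw [le_div_iff₀ (by positivity)]
  have h3 : 2 * Lam s n ≤ Real.exp 1 * Real.exp (2 * N * s * N ^ 2) :=
    mul_le_mul XF20_two h1 hLam0.le (Real.exp_nonneg _)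
  calc Real.exp (-(L + L * (2 * t + c + 2 * N * s) + 1 + 2 * N * s * N ^ 2)) * (2 * Lam s n) ≤
      Real.exp (-(L + L * (2 * t + c + 2 * N * s) + 1 + 2 * N * s * N ^ 2)) *
        (Real.exp 1 * Real.exp (2 * N * s * N ^ 2)) := mul_le_mul_of_nonneg_left h3 (Real.exp_nonneg _)
    _ = Real.exp (-(L : ℝ)) * Real.exp (-(L * (2 * t + c + 2 * N * s))) := by
        rw [← Real.exp_add, ← Real.exp_add, ← Real.exp_add]
        congr 1
        ring
    _ ≤ Real.exp (-(L : ℝ)) * l ^ L := mul_le_mul_of_nonneg_left h2 (Real.exp_nonneg _)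

/-- PROOF. Let `L = C (D + 1) ^ a`, `ε = exp (- L)`, `B = C ^ (D + 1)` and `n = K (L + D + 2) ^ 2` with a constant `K` (depending on `s`, `ρ`, `C`). Since `Lam s n ≤ (2 n + 2) ^ (s (n + 1))`, with `x = 2 ℓ' (2 n + 2) ^ s / ρ` the left side of `htail` is at most `B 2 ^ s x ^ (n + 1)` and `ℓ' = x ρ / (2 (2 n + 2) ^ s)`. Take
`ℓ' = min ℓ (ρ / (8 (2 n + 2) ^ s))`: then `x ≤ 1 / 4`, `4 ℓ' ≤ ρ`, and `htail` follows from `x ^ (n + 1 - L) ≤ 4 ^ (- (n + 1 - L)) ≤ (1 / 2) ε B⁻¹ 2 ^ (- s) (ρ / (2 (2 n + 2) ^ s)) ^ L`, that is from `(n + 1 - L) log 4 ≥ log 2 + L + (D + 1) log C + s log 2 + L (log (2 / ρ) + s log (2 n + 2))`, true for `K` large because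
`log (2 n + 2) ≤ c sqrt n` (`Real.log_le_sub_one_of_pos`-like: `log y ≤ 2 sqrt y`, `Real.log_sqrt`...; or choose `n = K (L + D + 2) ^ 4` and use `log (2 n + 2) ≤ ..`: any choice of `n` polynomial in `L + D` of degree at most `4` is good enough if the final exponent `16 * a + 16` is respected).
`exists_pt` gives `θ₁ = p + ℓ' u` with `|F θ₁| ≥ ε ℓ' ^ L / (2 Lam s n)`; `ℓ' ≥ min (T ^ (-2)) (ρ / (8 (2 n + 2) ^ s))`, so `- log` of this is at most `L + 2 L log T + L (log (8 / ρ) + s log (2 n + 2)) + log 2 + s (n + 1) log (2 n + 2) ≤ C' (D + 1) ^ (16 a + 16) log T` (`log T ≥ log 2`, all powers of `L` and `n` are bounded by powers of `D + 1` times constants). -/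
theorem exists_pt_fin (s a C : ℕ) (hC : 1 ≤ C) (ρ : ℝ) (hρ : 0 < ρ) (hρ1 : ρ ≤ 1) :
    ∃ C' : ℕ, 1 ≤ C' ∧ ∀ D T : ℕ, 2 ≤ T → ∀ ℓ : ℝ, 1 / (T : ℝ) ^ 2 ≤ ℓ →
      ∀ (p : Fin s → ℝ) (F : (Fin s → ℝ) → ℝ) (ν : (Fin s → ℕ) → ℝ), Exp ρ ((C : ℝ) ^ (D + 1)) p F ν →
        (∃ b, dg b ≤ C * (D + 1) ^ a ∧ Real.exp (-((C : ℝ) * (D + 1) ^ a)) ≤ |ν b|) →
        ∃ θ₁ : Fin s → ℝ, (∀ i, |θ₁ i - p i| ≤ ℓ ∧ |θ₁ i - p i| ≤ ρ / 4) ∧
          Real.exp (-((C' : ℝ) * (D + 1) ^ (16 * a + 16) * Real.log T)) ≤ |F θ₁| := by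
  obtain ⟨c, hc⟩ : ∃ c : ℕ, 8 / ρ ≤ Real.exp c := by
    refine ⟨⌈8 / ρ⌉₊, (Nat.le_ceil _).trans ?_⟩
    have := Real.add_one_le_exp ((⌈8 / ρ⌉₊ : ℕ) : ℝ)
    linarith
  obtain ⟨K, hK⟩ : ∃ K : ℕ, K = 2 * C * s + C * (2 + c) + C + s + 1 := ⟨_, rfl⟩
  refine ⟨4 * C + 2 * C * c + 4 * C * s * K + 2 + 4 * s * K ^ 3, by omega, ?_⟩
  intro D T hT ℓ hℓ p F ν hexp hb
  obtain ⟨b₀, hb0, hεb⟩ := hb
  obtain ⟨L, hL⟩ : ∃ L : ℕ, L = C * (D + 1) ^ a := ⟨_, rfl⟩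
  obtain ⟨N, hN⟩ : ∃ N : ℕ, N = 2 * L * s + L * (2 + c) + (D + 1) * C + s + 1 := ⟨_, rfl⟩
  have hN1 : 1 ≤ N := by omega
  obtain ⟨n, hn⟩ : ∃ n : ℕ, n + 1 = N ^ 2 := by
    have : 1 ≤ N ^ 2 := Nat.one_le_pow _ _ hN1
    exact ⟨N ^ 2 - 1, by omega⟩
  have hNN : N ≤ N ^ 2 := by
    rw [pow_two]
    exact Nat.le_mul_of_pos_left _ hN1
  have hLn : L ≤ n := by
    have h1 : L * 2 ≤ L * (2 + c) := Nat.mul_le_mul_left _ (by omega)
    omega
  have hnR : (n : ℝ) + 1 = (N : ℝ) ^ 2 := by exact_mod_cast hn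
  have hLR : (C : ℝ) * ((D : ℝ) + 1) ^ a = (L : ℝ) := by rw [hL]; push_cast; ring
  rw [hLR] at hεb
  have hM0 : 0 < ((2 : ℝ) * ((n : ℝ) + 1)) ^ s := by positivity
  have hM1 : 1 ≤ ((2 : ℝ) * ((n : ℝ) + 1)) ^ s := by
    have h0 : (0 : ℝ) ≤ n := Nat.cast_nonneg n
    exact one_le_pow₀ (by linarith)
  have hT0 : (0 : ℝ) < T := by
    have : 0 < T := by omega
    exact_mod_cast this
  have hℓ0 : 0 < ℓ := lt_of_lt_of_le (by positivity) hℓ
  obtain ⟨l, hl⟩ : ∃ l : ℝ, l = min ℓ (ρ / (8 * ((2 : ℝ) * ((n : ℝ) + 1)) ^ s)) := ⟨_, rfl⟩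
  have hl0 : 0 < l := by rw [hl]; exact lt_min hℓ0 (by positivity)
  have hlℓ : l ≤ ℓ := by rw [hl]; exact min_le_left _ _
  have hlM : l * (8 * ((2 : ℝ) * ((n : ℝ) + 1)) ^ s) ≤ ρ := by
    have : l ≤ ρ / (8 * ((2 : ℝ) * ((n : ℝ) + 1)) ^ s) := by rw [hl]; exact min_le_right _ _
    rwa [le_div_iff₀ (by positivity)] at this
  have hlρ : 8 * l ≤ ρ := by nlinarith
  have hNc : ((C : ℝ) * ((D : ℝ) + 1)) + s + ((c : ℝ) + 2 * N * s) * L + 2 * L + 1 ≤ (N : ℝ) ^ 2 := by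
    have h1 : C * (D + 1) + s + (c + 2 * N * s) * L + 2 * L + 1 ≤ N ^ 2 := by
      have h2 : N ^ 2 = N * (2 * L * s) + N * (L * (2 + c) + (D + 1) * C + s + 1) := by
        rw [pow_two]
        conv_lhs => rw [hN]
        rw [hN]
        ring
      have h3 : 1 * (L * (2 + c) + (D + 1) * C + s + 1) ≤ N * (L * (2 + c) + (D + 1) * C + s + 1) :=
        Nat.mul_le_mul_right _ hN1
      rw [h2]
      refine le_trans (le_of_eq ?_) (Nat.add_le_add_left h3 _)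
      ring
    exact_mod_cast h1
  have hCX : ((C : ℝ)) ^ (D + 1) ≤ Real.exp ((C : ℝ) * ((D : ℝ) + 1)) := by
    have h1 : (C : ℝ) ≤ Real.exp C := by
      have := Real.add_one_le_exp (C : ℝ)
      linarith
    calc ((C : ℝ)) ^ (D + 1) ≤ (Real.exp C) ^ (D + 1) := pow_le_pow_left₀ (Nat.cast_nonneg _) h1 _
      _ = Real.exp ((C : ℝ) * ((D : ℝ) + 1)) := by
        rw [← Real.exp_nat_mul]
        push_cast
        ring_nf
  have htail := XF20_tail (s := s) (n := n) (L := L) (X := (D : ℝ) + 1) (C := C) (c := c) (N := N) (l := l) (ρ := ρ)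
    (B := (C : ℝ) ^ (D + 1)) hρ hl0 (Nat.cast_nonneg _) hnR (by positivity) hCX hc hlM hLn hNc
  have hbL : dg b₀ ≤ L := by rw [hL]; exact hb0
  obtain ⟨u, hu, hFu⟩ := exists_pt hρ (pow_nonneg (Nat.cast_nonneg C) (D + 1)) hexp hLn (Real.exp_pos _) hbL hεb hl0
    (by linarith) (by linarith) htail
  have hui : ∀ i, |(p + fun i => l * u i) i - p i| ≤ l := by
    intro i
    have e : (p + fun i => l * u i) i - p i = l * u i := by
      simp only [Pi.add_apply]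
      ring
    rw [e, abs_of_nonneg (mul_nonneg hl0.le (hu i).1)]
    have := mul_le_mul_of_nonneg_left (hu i).2 hl0.le
    linarith
  refine ⟨p + fun i => l * u i, fun i => ⟨(hui i).trans hlℓ, (hui i).trans (by linarith)⟩, ?_⟩
  refine le_trans ?_ hFu
  have ht2 : (1 : ℝ) / 2 ≤ Real.log T := by
    have h1 : Real.log 2 ≤ Real.log T := Real.log_le_log (by norm_num) (by exact_mod_cast hT)
    have h2 := Real.log_two_gt_d9
    linarith
  have hlow : Real.exp (-(2 * Real.log T + c + 2 * N * s)) ≤ l := by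
    rw [hl]
    have hM2 := XF20_base s n (Nat.cast_nonneg N) hnR
    refine le_min ?_ ?_
    · refine le_trans ?_ hℓ
      have e1 : 1 / (T : ℝ) ^ 2 = Real.exp (-(2 * Real.log T)) := by
        rw [Real.exp_neg, one_div]
        congr 1
        have : (T : ℝ) ^ 2 = (Real.exp (Real.log T)) ^ 2 := by rw [Real.exp_log hT0]
        rw [this, ← Real.exp_nat_mul]
        push_cast
        ring_nf
      rw [e1]
      apply Real.exp_le_exp.mpr
      have h3 : (0 : ℝ) ≤ (c : ℝ) + 2 * N * s := by positivity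
      linarith
    · have h3 : Real.exp (-(2 * Real.log T + c + 2 * N * s)) ≤ Real.exp (-((c : ℝ) + 2 * N * s)) := by
        apply Real.exp_le_exp.mpr
        linarith
      refine h3.trans ?_
      rw [le_div_iff₀ (by positivity)]
      have h4 : 8 * ((2 : ℝ) * ((n : ℝ) + 1)) ^ s ≤ ρ * Real.exp ((c : ℝ) + 2 * N * s) := by
        rw [Real.exp_add]
        have h5 : 8 ≤ ρ * Real.exp c := by
          rw [div_le_iff₀ hρ] at hc
          linarith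
        calc 8 * ((2 : ℝ) * ((n : ℝ) + 1)) ^ s ≤ (ρ * Real.exp c) * Real.exp (2 * N * s) :=
              mul_le_mul h5 hM2 hM0.le (by positivity)
          _ = ρ * (Real.exp c * Real.exp (2 * N * s)) := by ring
      calc Real.exp (-((c : ℝ) + 2 * N * s)) * (8 * ((2 : ℝ) * ((n : ℝ) + 1)) ^ s) ≤
          Real.exp (-((c : ℝ) + 2 * N * s)) * (ρ * Real.exp ((c : ℝ) + 2 * N * s)) :=
            mul_le_mul_of_nonneg_left h4 (Real.exp_nonneg _)
        _ = ρ * (Real.exp (-((c : ℝ) + 2 * N * s)) * Real.exp ((c : ℝ) + 2 * N * s)) := by ring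
        _ = ρ := by rw [← Real.exp_add]; simp
  have hfin := XF20_low (s := s) (n := n) (L := L) (c := c) (N := N) (l := l) (t := Real.log T)
    (Nat.cast_nonneg _) hnR hlow
  refine le_trans ?_ hfin
  apply Real.exp_le_exp.mpr
  apply neg_le_neg
  obtain ⟨X, hX⟩ : ∃ X : ℝ, X = (D : ℝ) + 1 := ⟨_, rfl⟩
  have hX1 : 1 ≤ X := by
    rw [hX]
    have : (0 : ℝ) ≤ D := Nat.cast_nonneg D
    linarith
  obtain ⟨Y, hY⟩ : ∃ Y : ℝ, Y = X ^ (a + 1) := ⟨_, rfl⟩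
  have hY1 : 1 ≤ Y := by rw [hY]; exact one_le_pow₀ hX1
  have hLY : (L : ℝ) ≤ C * Y := by
    rw [← hLR, ← hX, hY]
    exact mul_le_mul_of_nonneg_left (pow_le_pow_right₀ hX1 (Nat.le_succ a)) (Nat.cast_nonneg _)
  have hXY : X ≤ Y := by
    rw [hY]
    exact le_self_pow₀ hX1 (Nat.succ_ne_zero a)
  have hNK : (N : ℝ) ≤ K * Y := by
    have e1 : (N : ℝ) = 2 * L * s + L * (2 + c) + X * C + s + 1 := by
      rw [hN, hX]; push_cast; ring
    have e2 : (K : ℝ) = 2 * C * s + C * (2 + c) + C + s + 1 := by rw [hK]; push_cast; ring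
    rw [e1, e2]
    have hs0 : (0 : ℝ) ≤ s := Nat.cast_nonneg s
    have hc0 : (0 : ℝ) ≤ c := Nat.cast_nonneg c
    have hC0 : (0 : ℝ) ≤ C := Nat.cast_nonneg C
    have h1 : 2 * L * s ≤ 2 * (C * Y) * s := by
      refine mul_le_mul_of_nonneg_right ?_ hs0
      linarith
    have h2 : (L : ℝ) * (2 + c) ≤ (C * Y) * (2 + c) := mul_le_mul_of_nonneg_right hLY (by linarith)
    have h3 : X * C ≤ Y * C := mul_le_mul_of_nonneg_right hXY hC0
    have h4 : (s : ℝ) ≤ s * Y := le_mul_of_one_le_right hs0 hY1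
    linarith
  have hY3 : Y ^ 3 ≤ X ^ (16 * a + 16) := by
    rw [hY, ← pow_mul]
    exact pow_le_pow_right₀ hX1 (by omega)
  obtain ⟨t, ht⟩ : ∃ t : ℝ, t = Real.log T := ⟨_, rfl⟩
  rw [← ht] at ht2 ⊢
  rw [← hX]
  have hs0 : (0 : ℝ) ≤ s := Nat.cast_nonneg s
  have hc0 : (0 : ℝ) ≤ c := Nat.cast_nonneg c
  have hC0 : (0 : ℝ) ≤ C := Nat.cast_nonneg C
  have hK0 : (0 : ℝ) ≤ K := Nat.cast_nonneg K
  have hN0 : (0 : ℝ) ≤ N := Nat.cast_nonneg N
  have hL0 : (0 : ℝ) ≤ L := Nat.cast_nonneg L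
  have ht0 : 0 ≤ t := by linarith
  have hYY : Y ≤ Y ^ 3 := le_self_pow₀ hY1 (by norm_num)
  have hYY2 : Y ^ 2 ≤ Y ^ 3 := pow_le_pow_right₀ hY1 (by norm_num)
  have g1 : (L : ℝ) ≤ C * Y ^ 3 := hLY.trans (mul_le_mul_of_nonneg_left hYY hC0)
  have g2 : (L : ℝ) * N ≤ C * K * Y ^ 3 := by
    calc (L : ℝ) * N ≤ (C * Y) * (K * Y) := mul_le_mul hLY hNK hN0 (by positivity)
      _ = C * K * Y ^ 2 := by ring
      _ ≤ C * K * Y ^ 3 := mul_le_mul_of_nonneg_left hYY2 (by positivity)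
  have g3 : (N : ℝ) ^ 3 ≤ K ^ 3 * Y ^ 3 := by
    rw [← mul_pow]
    exact pow_le_pow_left₀ hN0 hNK 3
  have hY31 : 1 ≤ Y ^ 3 := one_le_pow₀ hY1
  have g4 : 1 ≤ 2 * t * Y ^ 3 := by nlinarith
  have g5 : (L : ℝ) ≤ 2 * t * (C * Y ^ 3) := by
    have h1 : (1 : ℝ) * (C * Y ^ 3) ≤ (2 * t) * (C * Y ^ 3) := mul_le_mul_of_nonneg_right (by linarith) (by positivity)
    linarith
  have g6 : (L : ℝ) * (2 * t) ≤ 2 * t * (C * Y ^ 3) := by
    have := mul_le_mul_of_nonneg_left g1 (by linarith : 0 ≤ 2 * t)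
    linarith
  have g7 : (L : ℝ) * c ≤ 2 * t * (C * Y ^ 3) * c := mul_le_mul_of_nonneg_right g5 hc0
  have g8 : (L : ℝ) * (2 * N * s) ≤ 2 * t * (2 * s * (C * K * Y ^ 3)) := by
    have h1 : (L : ℝ) * (2 * N * s) ≤ 2 * s * (C * K * Y ^ 3) := by
      have := mul_le_mul_of_nonneg_left g2 (by positivity : 0 ≤ 2 * (s : ℝ))
      linarith
    have h2 : (1 : ℝ) * (2 * s * (C * K * Y ^ 3)) ≤ (2 * t) * (2 * s * (C * K * Y ^ 3)) :=
      mul_le_mul_of_nonneg_right (by linarith) (by positivity)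
    linarith
  have g9 : 2 * (N : ℝ) * s * N ^ 2 ≤ 2 * t * (2 * s * (K ^ 3 * Y ^ 3)) := by
    have h1 : 2 * (N : ℝ) * s * N ^ 2 ≤ 2 * s * (K ^ 3 * Y ^ 3) := by
      have := mul_le_mul_of_nonneg_left g3 (by positivity : 0 ≤ 2 * (s : ℝ))
      linarith
    have h2 : (1 : ℝ) * (2 * s * (K ^ 3 * Y ^ 3)) ≤ (2 * t) * (2 * s * (K ^ 3 * Y ^ 3)) :=
      mul_le_mul_of_nonneg_right (by linarith) (by positivity)
    linarith
  have g10 : (L : ℝ) + L * (2 * t + c + 2 * N * s) + 1 + 2 * N * s * N ^ 2 ≤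
      (4 * C + 2 * C * c + 4 * C * s * K + 2 + 4 * s * K ^ 3) * Y ^ 3 * t := by
    linarith
  refine g10.trans ?_
  push_cast
  refine mul_le_mul_of_nonneg_right ?_ ht0
  exact mul_le_mul_of_nonneg_left hY3 (by positivity)

end Pool.Agent.Lib.MP_bbe012_lc.XS
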