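import Pool.Agent.Lib.MP_bbe012_lc.XS.B0
import Pool.Agent.Lib.MP_bbe012_lc.XS.F15
import Pool.Agent.Lib.MP_bbe012_lc.XS.F17
import Pool.Agent.Lib.MP_bbe012_lc.XS.F20

/-!
# LEAF XF21 (medium+): the result of block A
-/

set_option autoImplicit false

namespace Pool.Agent.Lib.MP_bbe012_lc.XS

open MvPolynomial PG PM PH Topology

private theorem XF21_an {s : ℕ} (Ω : Set (Fin s → ℝ)) (p : MvPolynomial (Fin s) ℝ) :
    AnalyticOnNhd ℝ (fun θ => eval θ p) Ω :=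
  (AnalyticOnNhd.eval_mvPolynomial p).mono (Set.subset_univ Ω)

private theorem XF21_deg {s D : ℕ} (p : MvPolynomial (Fin s) ℚ) (h : ∀ l, p.degreeOf l ≤ D) :
    (map (algebraMap ℚ ℝ) p).totalDegree ≤ s * D := by
  refine Finset.sup_le fun b hb => ?_
  have hb' : b ∈ p.support := support_map_subset _ _ hb
  have h1 : (b.sum fun _ e => e) = ∑ l, b l := by
    rw [Finsupp.sum_fintype]
    intro _
    rfl
  rw [h1]
  calc ∑ l, b l ≤ ∑ _l : Fin s, D :=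
        Finset.sum_le_sum fun l _ => (monomial_le_degreeOf l hb').trans (h l)
    _ = s * D := by rw [Finset.sum_const, Finset.card_univ, Fintype.card_fin, smul_eq_mul]

private theorem XF21_zero {s : ℕ} {ρ B : ℝ} {p : Fin s → ℝ} {G : (Fin s → ℝ) → ℝ}
    {ν : (Fin s → ℕ) → ℝ} (h : Exp ρ B p G ν) (hρ : 0 < ρ) : ν 0 = G p := by
  classical
  have h1 := h.sum 0 (fun i => by rw [Pi.zero_apply, abs_zero]; exact hρ)
  rw [add_zero] at h1
  have h2 : HasSum (fun b => ν b * mon 0 b) (ν 0 * mon 0 (0 : Fin s → ℕ)) := by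
    refine hasSum_single 0 fun b hb => ?_
    obtain ⟨i, hi⟩ := Function.ne_iff.1 hb
    have h3 : mon (0 : Fin s → ℝ) b = 0 := by
      unfold mon
      refine Finset.prod_eq_zero (Finset.mem_univ i) ?_
      rw [Pi.zero_apply]
      exact zero_pow hi
    rw [h3, mul_zero]
  have h4 : mon (0 : Fin s → ℝ) (0 : Fin s → ℕ) = 1 := by
    unfold mon
    refine Finset.prod_eq_one fun i _ => ?_
    rw [Pi.zero_apply, Pi.zero_apply, pow_zero]
  rw [h4, mul_one] at h2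
  exact h2.unique h1

private theorem XF21_poly {s : ℕ} (g : MvPolynomial (Fin s) ℝ) (θ₀ : Fin s → ℝ)
    (h : ∀ᶠ θ in 𝓝 θ₀, eval θ g = 0) : g = 0 := by
  obtain ⟨ε, hε, hb⟩ := Metric.eventually_nhds_iff.1 h
  refine funext_set (fun i => Set.Ioo (θ₀ i - ε / 2) (θ₀ i + ε / 2))
    (fun i => Set.Ioo_infinite (by linarith)) fun x hx => ?_
  rw [map_zero]
  apply hb
  refine lt_of_le_of_lt ((dist_pi_le_iff (by positivity : (0 : ℝ) ≤ ε / 2)).2 fun i => ?_)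
    (half_lt_self hε)
  have := hx i (Set.mem_univ i)
  rw [Real.dist_eq, abs_le]
  exact ⟨by linarith [this.1], by linarith [this.2]⟩

private theorem XF21_bound {s : ℕ} {S : Set (Fin s → ℝ)} (hS : IsCompact S) :
    ∃ M : ℝ, 0 ≤ M ∧ ∀ p ∈ S, ∀ i, |p i| ≤ M := by
  obtain ⟨M, hM⟩ := hS.isBounded.exists_norm_le
  refine ⟨max M 0, le_max_right _ _, fun p hp i => ?_⟩
  exact ((norm_le_pi_norm p i).trans (hM p hp)).trans (le_max_left _ _)

private theorem XF21_exp {s r : ℕ} {S : Set (Fin s → ℝ)} (hS : IsCompact S)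
    {V : Fin r → (Fin s → ℝ) → ℝ} (hV : ∀ j, AnalyticOnNhd ℝ (V j) S) :
    ∃ r₀ B₀ : ℝ, 0 < r₀ ∧ 0 ≤ B₀ ∧ ∀ p ∈ S, ∀ j, ∃ ν, Exp r₀ B₀ p (V j) ν := by
  choose ρ B m hρ hB hm using fun j => PH.exists_LA hS (hV j)
  have h0 : 0 < ∑ j, (ρ j)⁻¹ + 1 := by
    have : 0 ≤ ∑ j, (ρ j)⁻¹ := Finset.sum_nonneg fun j _ => (inv_pos.2 (hρ j)).le
    linarith
  refine ⟨(∑ j, (ρ j)⁻¹ + 1)⁻¹, ∑ j, B j, inv_pos.2 h0, Finset.sum_nonneg fun j _ => hB j,
    fun p hp j => ⟨m j p, ?_⟩⟩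
  have h1 : (∑ j, (ρ j)⁻¹ + 1)⁻¹ ≤ ρ j := by
    rw [inv_le_comm₀ h0 (hρ j)]
    have := Finset.single_le_sum (f := fun j => (ρ j)⁻¹) (fun j _ => (inv_pos.2 (hρ j)).le)
      (Finset.mem_univ j)
    linarith
  have h2 : B j ≤ ∑ j, B j := Finset.single_le_sum (fun j _ => hB j) (Finset.mem_univ j)
  exact (((hm j).exp p hp).mono_radius (inv_pos.2 h0) h1 (hB j)).mono (inv_pos.2 h0) h2

/-- normalisation of a family of vectors of polynomials -/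
private theorem XF21_norm {s r q : ℕ} {E : Finset (Fin r)}
    (z : Fin q → Fin r → MvPolynomial (Fin s) ℝ) (h : ∃ j, ∃ k ∈ E, z j k ≠ 0) :
    ∃ (m : ℝ), 0 < m ∧ (∀ j, ∀ k ∈ E, ∀ α, |coeff α (z j k)| ≤ m) ∧
      ∃ j, ∃ k ∈ E, ∃ α, |coeff α (z j k)| = m := by
  classical
  obtain ⟨j₁, k₁, hk₁, hz₁⟩ := h
  obtain ⟨α₁, hα₁⟩ := MvPolynomial.ne_zero_iff.1 hz₁
  let T : Finset (Fin q × Fin r × (Fin s →₀ ℕ)) :=
    Finset.univ ×ˢ (E ×ˢ (Finset.univ.biUnion fun j => E.biUnion fun k => (z j k).support))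
  have hT : ∀ j, ∀ k ∈ E, ∀ α, coeff α (z j k) ≠ 0 → (j, k, α) ∈ T := by
    intro j k hk α hα
    simp only [T, Finset.mem_product, Finset.mem_univ, true_and, Finset.mem_biUnion]
    exact ⟨hk, j, k, hk, mem_support_iff.2 hα⟩
  obtain ⟨⟨j₀, k₀, α₀⟩, h0, hmax⟩ := T.exists_max_image (fun x => |coeff x.2.2 (z x.1 x.2.1)|)
    ⟨_, hT j₁ k₁ hk₁ α₁ hα₁⟩
  have hk₀ : k₀ ∈ E := by
    simp only [T, Finset.mem_product, Finset.mem_univ, true_and] at h0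
    exact h0.1
  have hm : ∀ j, ∀ k ∈ E, ∀ α, |coeff α (z j k)| ≤ |coeff α₀ (z j₀ k₀)| := by
    intro j k hk α
    by_cases h1 : coeff α (z j k) = 0
    · rw [h1, abs_zero]
      exact abs_nonneg _
    · exact hmax (j, k, α) (hT j k hk α h1)
  exact ⟨|coeff α₀ (z j₀ k₀)|, (abs_pos.2 hα₁).trans_le (hm j₁ k₁ hk₁ α₁), hm, j₀, k₀, hk₀, α₀, rfl⟩

/-- PROOF. `E, g, Q, e, C₀, a₀` from `lb_base`; the relation `eval θ g * V i θ = ∑ j ∈ E, eval θ (Q i j) * V j θ` holds on all of `Ω` (identity theorem: `AnalyticOnNhd.eqOn_of_preconnected_of_eventuallyEq`; polynomials are analytic). `a = 16 * a₀ + 16`. Let `S` be compact; choose `η > 0` with `S' = Metric.cthickening η S ⊆ Ω` compact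
(`IsCompact.exists_cthickening_subset_open`, `IsCompact.cthickening`). `C₁` from `lb_compact` for `S`. By `exists_LA` (PH/HA1.lean) for `S'` the `V j` have expansions of radius `r₀` and bound `B₀` at all points of `S'`; `C₂` from `exp_cb` with `ρ = min r₀ (min η 1)` (`Exp.mono_radius`).
Let `y` be given, `z j k = ∑ i, map (algebraMap ℚ ℝ) (y j i) * Q i k` (`k ∈ E`), of total degree `≤ D' = s D + D_Q` (`totalDegree ≤ ∑ degreeOf`), so `g * N_j = cb E V (z j)` on `Ω` for `N_j = ∑ i, aeval θ (y j i) * V i θ`. Not all `z j k`, `k ∈ E`, are zero: otherwise `g N_j = 0` on `Ω` for all `j`; but `N_j(θ) ≠ 0` for some `j, θ ∈ Ω`, so `N_j ≠ 0` and `g = 0` on a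
neighbourhood of `θ`, so `g = 0` (a polynomial vanishing on a non-empty open set: `MvPolynomial.funext_set`, or the private lemmas in PG). Let `m > 0` be the maximum of the `|coeff α (z j k)|` (finitely many), attained for `j = j₀`, `lam = 1 / m`, `z' j k = C lam * z j k`, `G j = cb E V (z' j)`, `w θ = lam * eval θ g`. `z' j₀` is normalised (`Nrm E D' (z' j₀)`), the others have coefficients at most `1`.
At `θ₀ ∈ S` the function `G j₀` has an expansion `ν` with radius `ρ` and bound `C₂ ^ (D' + 1)` (`exp_cb`) and by `LB E V C₁ a₀ θ₀` some `|ν b| ≥ exp (- C₁ (D' + 1) ^ a₀)`, `dg b ≤ C₁ (D' + 1) ^ a₀`. `exists_pt_fin` (with the constant `max C₁ C₂`, for `D'`) gives `θ₁` in the box with `|G j₀ θ₁| ≥ exp (- C' (D' + 1) ^ a log T)`; `θ₁ ∈ S'` as `|θ₁ i - θ₀ i| ≤ ρ / 4 ≤ η` (the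
norm is the sup norm), so all `G j` have expansions `Exp ρ (C₂ ^ (D' + 1)) θ₁ (G j) (ν j)`, and `ν j₀ 0 = G j₀ θ₁` (`Exp.sum` for `h = 0`, `hasSum_single`/uniqueness of sums: `mon 0 b = 0` for `b ≠ 0`). `r₁ = ρ`; `D' + 1 ≤ (s + D_Q + 1) (D + 1)`: `C` such that `C₂ ^ (D' + 1) ≤ C ^ (D + 1)` and `C' (D' + 1) ^ a ≤ C (D + 1) ^ a`. -/
theorem fam_point {s r : ℕ} {Ω : Set (Fin s → ℝ)} {V : Fin r → (Fin s → ℝ) → ℝ} (hop : IsOpen Ω)
    (hconn : IsPreconnected Ω) (hana : ∀ i, AnalyticOnNhd ℝ (V i) Ω) (hpf : PfHyp Ω V) :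
    ∃ a : ℕ, ∀ S : Set (Fin s → ℝ), IsCompact S → S ⊆ Ω →
      ∃ (r₁ : ℝ) (C : ℕ), 0 < r₁ ∧ 1 ≤ C ∧ FamPt Ω S V r₁ C a := by
  classical
  obtain ⟨E, g, Q, e, C₀, a₀, he, hg, hC0, ha0, hrel, hLB⟩ := lb_base hana hpf
  have hrel' : ∀ i, ∀ θ ∈ Ω, eval θ g * V i θ = ∑ j ∈ E, eval θ (Q i j) * V j θ := by
    intro i
    have h1 : AnalyticOnNhd ℝ (fun θ => eval θ g * V i θ) Ω := (XF21_an Ω g).mul (hana i)
    have h2 : AnalyticOnNhd ℝ (fun θ => ∑ j ∈ E, eval θ (Q i j) * V j θ) Ω :=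
      E.analyticOnNhd_fun_sum fun j _ => (XF21_an Ω (Q i j)).mul (hana j)
    exact h1.eqOn_of_preconnected_of_eventuallyEq h2 hconn he (hrel.mono fun θ h => h i)
  refine ⟨16 * a₀ + 16, fun S hS hSΩ => ?_⟩
  obtain ⟨η, hη, hη'⟩ := hS.exists_cthickening_subset_open hop hSΩ
  have hS' : IsCompact (Metric.cthickening η S) := hS.cthickening
  obtain ⟨C₁, hC1, hLB1⟩ := lb_compact hop hconn hana he ha0 hLB hS hSΩ
  obtain ⟨r₀, B₀, hr0, hB0, hexp⟩ := XF21_exp hS' (fun j => (hana j).mono hη')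
  obtain ⟨M, hM, hMb⟩ := XF21_bound hS'
  obtain ⟨ρ, hρd⟩ : ∃ ρ : ℝ, ρ = min r₀ (min η 1) := ⟨_, rfl⟩
  have hρ : 0 < ρ := by
    rw [hρd]
    exact lt_min hr0 (lt_min hη one_pos)
  have hρ1 : ρ ≤ 1 := by
    rw [hρd]
    exact (min_le_right _ _).trans (min_le_right _ _)
  have hρη : ρ ≤ η := by
    rw [hρd]
    exact (min_le_right _ _).trans (min_le_left _ _)
  have hρr : ρ ≤ r₀ := by
    rw [hρd]
    exact min_le_left _ _
  obtain ⟨C₂, hC2, hcb⟩ := exp_cb E V ρ B₀ M hρ hB0 hM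
  have hcb' : ∀ p ∈ Metric.cthickening η S, ∀ (D : ℕ) (z : Fin r → MvPolynomial (Fin s) ℝ),
      (∀ j ∈ E, (z j).totalDegree ≤ D) → (∀ j ∈ E, ∀ α, |coeff α (z j)| ≤ 1) →
      ∃ ν, Exp ρ ((C₂ : ℝ) ^ (D + 1)) p (cb E V z) ν := by
    intro p hp
    refine hcb p (hMb p hp) fun j => ?_
    obtain ⟨ν, hν⟩ := hexp p hp j
    exact ⟨ν, hν.mono_radius hρ hρr hB0⟩
  obtain ⟨C₃, hC3⟩ : ∃ C₃ : ℕ, C₃ = max C₁ C₂ := ⟨_, rfl⟩
  have hC31 : C₁ ≤ C₃ := by rw [hC3]; exact le_max_left _ _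
  have hC32 : C₂ ≤ C₃ := by rw [hC3]; exact le_max_right _ _
  obtain ⟨C', hC', hpt⟩ := exists_pt_fin s a₀ C₃ (hC1.trans hC31) ρ hρ hρ1
  obtain ⟨DQ, hDQ⟩ : ∃ DQ : ℕ, DQ = ∑ i, ∑ k, (Q i k).totalDegree := ⟨_, rfl⟩
  have hDQ' : ∀ i k, (Q i k).totalDegree ≤ DQ := by
    intro i k
    rw [hDQ]
    exact (Finset.single_le_sum (f := fun k => (Q i k).totalDegree) (fun _ _ => Nat.zero_le _)
      (Finset.mem_univ k)).trans
      (Finset.single_le_sum (f := fun i => ∑ k, (Q i k).totalDegree) (fun _ _ => Nat.zero_le _)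
        (Finset.mem_univ i))
  obtain ⟨κ, hκ⟩ : ∃ κ : ℕ, κ = s + DQ + 1 := ⟨_, rfl⟩
  refine ⟨ρ, C₂ ^ κ + C' * κ ^ (16 * a₀ + 16), hρ, ?_, ?_⟩
  · exact (Nat.one_le_pow _ _ hC2).trans (Nat.le_add_right _ _)
  intro D T hT ℓ hℓ1 hℓ2 θ₀ hθ₀ q y hy hne
  obtain ⟨D', hD'⟩ : ∃ D' : ℕ, D' = s * D + DQ := ⟨_, rfl⟩
  have hD'κ : D' + 1 ≤ κ * (D + 1) := by
    rw [hD', hκ]
    nlinarith [Nat.zero_le (DQ * D), Nat.zero_le s, Nat.zero_le D]
  have hθ₀' : θ₀ ∈ Metric.cthickening η S := Metric.self_subset_cthickening S hθ₀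
  -- the vectors of polynomials
  obtain ⟨z, hz⟩ : ∃ z : Fin q → Fin r → MvPolynomial (Fin s) ℝ,
      ∀ j k, z j k = ∑ i, map (algebraMap ℚ ℝ) (y j i) * Q i k := ⟨_, fun _ _ => rfl⟩
  have hzdeg : ∀ j k, (z j k).totalDegree ≤ D' := by
    intro j k
    rw [hz]
    refine totalDegree_finsetSum_le fun i _ => ?_
    refine (totalDegree_mul _ _).trans ?_
    rw [hD']
    exact add_le_add (XF21_deg (y j i) (hy j i)) (hDQ' i k)
  have hev : ∀ (θ : Fin s → ℝ) (p : MvPolynomial (Fin s) ℚ),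
      eval θ (map (algebraMap ℚ ℝ) p) = aeval θ p := by
    intro θ p
    rw [eval_map, aeval_def]
  have hcbz : ∀ j, ∀ θ ∈ Ω, cb E V (z j) θ = eval θ g * ∑ i, aeval θ (y j i) * V i θ := by
    intro j θ hθ
    unfold cb
    calc ∑ k ∈ E, eval θ (z j k) * V k θ
        = ∑ k ∈ E, ∑ i, aeval θ (y j i) * (eval θ (Q i k) * V k θ) := by
          refine Finset.sum_congr rfl fun k _ => ?_
          rw [hz, map_sum, Finset.sum_mul]
          refine Finset.sum_congr rfl fun i _ => ?_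
          rw [map_mul, hev]
          ring
      _ = ∑ i, ∑ k ∈ E, aeval θ (y j i) * (eval θ (Q i k) * V k θ) := Finset.sum_comm
      _ = ∑ i, aeval θ (y j i) * (eval θ g * V i θ) := by
          refine Finset.sum_congr rfl fun i _ => ?_
          rw [← Finset.mul_sum, hrel' i θ hθ]
      _ = eval θ g * ∑ i, aeval θ (y j i) * V i θ := by
          rw [Finset.mul_sum]
          exact Finset.sum_congr rfl fun i _ => by ring
  have hz0 : ∃ j, ∃ k ∈ E, z j k ≠ 0 := by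
    by_contra hcon
    push Not at hcon
    obtain ⟨j, θ, hθ, hN⟩ := hne
    apply hg
    refine XF21_poly g θ ?_
    have h1 : AnalyticOnNhd ℝ (fun θ => ∑ i, aeval θ (y j i) * V i θ) Ω := by
      refine Finset.univ.analyticOnNhd_fun_sum fun i _ => ?_
      have h2 := XF21_an Ω (map (algebraMap ℚ ℝ) (y j i))
      simp only [hev] at h2
      exact h2.mul (hana i)
    have h3 : ∀ᶠ θ' in 𝓝 θ, (∑ i, aeval θ' (y j i) * V i θ') ≠ 0 :=
      (h1 θ hθ).continuousAt.eventually_ne hN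
    filter_upwards [h3, hop.mem_nhds hθ] with θ' h4 h5
    have h6 := hcbz j θ' h5
    have h7 : cb E V (z j) θ' = 0 := by
      unfold cb
      refine Finset.sum_eq_zero fun k hk => ?_
      rw [hcon j k hk, map_zero, zero_mul]
    rw [h7] at h6
    rcases mul_eq_zero.1 h6.symm with h8 | h8
    · exact h8
    · exact absurd h8 h4
  obtain ⟨m, hm, hmle, j₀, k₀, hk₀, α₀, hα₀⟩ := XF21_norm z hz0
  obtain ⟨z', hz'⟩ : ∃ z' : Fin q → Fin r → MvPolynomial (Fin s) ℝ,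
      ∀ j k, z' j k = C (m⁻¹) * z j k := ⟨_, fun _ _ => rfl⟩
  have hz'deg : ∀ j, ∀ k ∈ E, (z' j k).totalDegree ≤ D' := by
    intro j k _
    rw [hz']
    refine (totalDegree_mul _ _).trans ?_
    rw [totalDegree_C, zero_add]
    exact hzdeg j k
  have hz'co : ∀ j, ∀ k ∈ E, ∀ α, |coeff α (z' j k)| ≤ 1 := by
    intro j k hk α
    rw [hz', coeff_C_mul, abs_mul, abs_of_pos (inv_pos.2 hm), inv_mul_le_iff₀ hm, mul_one]
    exact hmle j k hk α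
  have hnrm : Nrm E D' (z' j₀) := by
    refine ⟨hz'deg j₀, hz'co j₀, k₀, hk₀, α₀, ?_⟩
    rw [hz', coeff_C_mul, abs_mul, abs_of_pos (inv_pos.2 hm), hα₀, inv_mul_cancel₀ hm.ne']
  have hcbz' : ∀ j θ, cb E V (z' j) θ = m⁻¹ * cb E V (z j) θ := by
    intro j θ
    unfold cb
    rw [Finset.mul_sum]
    refine Finset.sum_congr rfl fun k _ => ?_
    rw [hz', map_mul, eval_C, mul_assoc]
  -- the point
  obtain ⟨ν₀, hν₀⟩ := hcb' θ₀ hθ₀' D' (z' j₀) (hz'deg j₀) (hz'co j₀)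
  have hC2R : (0 : ℝ) ≤ (C₂ : ℝ) ^ (D' + 1) := by positivity
  have hlow := hLB1 θ₀ hθ₀ D' (z' j₀) hnrm ρ ((C₂ : ℝ) ^ (D' + 1)) ν₀ hρ hC2R hν₀
  have hν₀' : Exp ρ ((C₃ : ℝ) ^ (D' + 1)) θ₀ (cb E V (z' j₀)) ν₀ :=
    hν₀.mono hρ (pow_le_pow_left₀ (Nat.cast_nonneg _) (by exact_mod_cast hC32) _)
  have hlow' : ∃ b, dg b ≤ C₃ * (D' + 1) ^ a₀ ∧
      Real.exp (-((C₃ : ℝ) * ((D' : ℕ) + 1) ^ a₀)) ≤ |ν₀ b| := by
    obtain ⟨b, hb1, hb2⟩ := hlow
    refine ⟨b, hb1.trans (Nat.mul_le_mul_right _ hC31), le_trans ?_ hb2⟩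
    rw [Real.exp_le_exp]
    have h1 : (C₁ : ℝ) ≤ C₃ := by exact_mod_cast hC31
    have h2 : (0 : ℝ) ≤ ((D' : ℕ) + 1 : ℝ) ^ a₀ := by positivity
    nlinarith [mul_le_mul_of_nonneg_right h1 h2]
  obtain ⟨θ₁, hθ₁, hbig⟩ := hpt D' T hT ℓ hℓ1 θ₀ (cb E V (z' j₀)) ν₀ hν₀' hlow'
  have hθ₁' : θ₁ ∈ Metric.cthickening η S := by
    refine Metric.mem_cthickening_of_dist_le θ₁ θ₀ η S hθ₀ ?_
    rw [dist_pi_le_iff hη.le]
    intro i
    rw [Real.dist_eq]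
    have := (hθ₁ i).2
    linarith
  choose ν hν using fun j => hcb' θ₁ hθ₁' D' (z' j) (hz'deg j) (hz'co j)
  have hT0 : 0 < Real.log T := by
    refine Real.log_pos ?_
    have : (2 : ℝ) ≤ T := by exact_mod_cast hT
    linarith
  refine ⟨θ₁, fun θ => m⁻¹ * eval θ g, fun j => cb E V (z' j), ν, fun i => (hθ₁ i).1, fun j => ?_,
    fun j θ hθ => ?_, j₀, ?_⟩
  · refine (hν j).mono hρ ?_
    have h1 : (C₂ : ℝ) ^ (D' + 1) ≤ ((C₂ : ℝ) ^ κ) ^ (D + 1) := by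
      rw [← pow_mul]
      exact pow_le_pow_right₀ (by exact_mod_cast hC2) hD'κ
    refine h1.trans (pow_le_pow_left₀ (by positivity) ?_ _)
    push_cast
    have : (0 : ℝ) ≤ (C' : ℝ) * (κ : ℝ) ^ (16 * a₀ + 16) := by positivity
    linarith
  · show cb E V (z' j) θ = _
    rw [hcbz', hcbz j θ hθ, mul_assoc]
  · rw [XF21_zero (hν j₀) hρ]
    refine le_trans ?_ hbig
    rw [Real.exp_le_exp, neg_le_neg_iff]
    refine mul_le_mul_of_nonneg_right ?_ hT0.le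
    have h1 : ((D' : ℕ) + 1 : ℝ) ≤ (κ : ℝ) * (D + 1) := by exact_mod_cast hD'κ
    calc (C' : ℝ) * ((D' : ℕ) + 1 : ℝ) ^ (16 * a₀ + 16)
        ≤ C' * ((κ : ℝ) * (D + 1)) ^ (16 * a₀ + 16) :=
          mul_le_mul_of_nonneg_left (pow_le_pow_left₀ (by positivity) h1 _) (Nat.cast_nonneg _)
      _ = (C' * (κ : ℝ) ^ (16 * a₀ + 16)) * (D + 1) ^ (16 * a₀ + 16) := by
          rw [mul_pow]
          ring
      _ ≤ ((C₂ ^ κ + C' * κ ^ (16 * a₀ + 16) : ℕ) : ℝ) * (D + 1) ^ (16 * a₀ + 16) := by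
          refine mul_le_mul_of_nonneg_right ?_ (by positivity)
          push_cast
          have : (0 : ℝ) ≤ (C₂ : ℝ) ^ κ := by positivity
          linarith

end Pool.Agent.Lib.MP_bbe012_lc.XS
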