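import Pool.Agent.Lib.MP_bbe012_lc.XS.E0
import Pool.Agent.Lib.MP_bbe012_lc.XS.F15
import Pool.Agent.Lib.MP_bbe012_lc.XS.F17
import Pool.Agent.Lib.MP_bbe012_lc.XS.F20
import Pool.Agent.Lib.MP_bbe012_lc.XS.R0

/-!
# Block A for integer relations: the effective non-degeneracy with a bounded factor
-/

set_option autoImplicit false

namespace Pool.Agent.Lib.MP_bbe012_lc.XS

open MvPolynomial PG PM PH Topology

private theorem XF22_deg {s D : ℕ} (p : MvPolynomial (Fin s) ℤ) (h : ∀ l, p.degreeOf l ≤ D) :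
    (map (algebraMap ℤ ℝ) p).totalDegree ≤ s * D := by
  refine Finset.sup_le fun b hb => ?_
  have hb' : b ∈ p.support := support_map_subset _ _ hb
  have h1 : (b.sum fun _ e => e) = ∑ l, b l := by
    rw [Finsupp.sum_fintype]
    intro _
    rfl
  rw [h1]
  calc ∑ l, b l ≤ ∑ _l : Fin s, D :=
        Finset.sum_le_sum fun l _ => (monomial_le_degreeOf l hb').trans (h l)
    _ = s * D := by rw [Finset.sum_const, Finset.card_univ, Fintype.card_fin, smul_eq_mul]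

private theorem XF22_zero {s : ℕ} {ρ B : ℝ} {p : Fin s → ℝ} {G : (Fin s → ℝ) → ℝ}
    {ν : (Fin s → ℕ) → ℝ} (h : Exp ρ B p G ν) (hρ : 0 < ρ) : ν 0 = G p := by
  classical
  have h1 := h.sum 0 (fun i => by rw [Pi.zero_apply, abs_zero]; exact hρ)
  rw [add_zero] at h1
  have h2 : HasSum (fun b => ν b * mon 0 b) (ν 0 * mon 0 (0 : Fin s → ℕ)) := by
    refine hasSum_single 0 fun b hb => ?_
    obtain ⟨i, hi⟩ := Function.ne_iff.1 hb
    have h3 : mon (0 : Fin s → ℝ) b = 0 := by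
      unfold mon
      refine Finset.prod_eq_zero (Finset.mem_univ i) ?_
      rw [Pi.zero_apply]
      exact zero_pow hi
    rw [h3, mul_zero]
  have h4 : mon (0 : Fin s → ℝ) (0 : Fin s → ℕ) = 1 := by
    unfold mon
    refine Finset.prod_eq_one fun i _ => ?_
    rw [Pi.zero_apply, Pi.zero_apply, pow_zero]
  rw [h4, mul_one] at h2
  exact h2.unique h1

private theorem XF22_an {s : ℕ} (Ω : Set (Fin s → ℝ)) (p : MvPolynomial (Fin s) ℝ) :
    AnalyticOnNhd ℝ (fun θ => eval θ p) Ω :=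
  (AnalyticOnNhd.eval_mvPolynomial p).mono (Set.subset_univ Ω)

private theorem XF22_bound {s : ℕ} {S : Set (Fin s → ℝ)} (hS : IsCompact S) :
    ∃ M : ℝ, 0 ≤ M ∧ ∀ p ∈ S, ∀ i, |p i| ≤ M := by
  obtain ⟨M, hM⟩ := hS.isBounded.exists_norm_le
  refine ⟨max M 0, le_max_right _ _, fun p hp i => ?_⟩
  exact ((norm_le_pi_norm p i).trans (hM p hp)).trans (le_max_left _ _)

private theorem XF22_evb {s : ℕ} {S : Set (Fin s → ℝ)} (hS : IsCompact S) (g : MvPolynomial (Fin s) ℝ) :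
    ∃ M : ℝ, 0 ≤ M ∧ ∀ θ ∈ S, |eval θ g| ≤ M := by
  obtain ⟨M, hM⟩ := hS.exists_bound_of_continuousOn
    ((XF22_an Set.univ g).continuousOn.mono (Set.subset_univ S))
  exact ⟨max M 0, le_max_right _ _, fun θ hθ => (hM θ hθ).trans (le_max_left _ _)⟩

private theorem XF22_exp {s r : ℕ} {S : Set (Fin s → ℝ)} (hS : IsCompact S)
    {V : Fin r → (Fin s → ℝ) → ℝ} (hV : ∀ j, AnalyticOnNhd ℝ (V j) S) :
    ∃ r₀ B₀ : ℝ, 0 < r₀ ∧ 0 ≤ B₀ ∧ ∀ p ∈ S, ∀ j, ∃ ν, Exp r₀ B₀ p (V j) ν := by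
  choose ρ B m hρ hB hm using fun j => PH.exists_LA hS (hV j)
  have h0 : 0 < ∑ j, (ρ j)⁻¹ + 1 := by
    have : 0 ≤ ∑ j, (ρ j)⁻¹ := Finset.sum_nonneg fun j _ => (inv_pos.2 (hρ j)).le
    linarith
  refine ⟨(∑ j, (ρ j)⁻¹ + 1)⁻¹, ∑ j, B j, inv_pos.2 h0, Finset.sum_nonneg fun j _ => hB j,
    fun p hp j => ⟨m j p, ?_⟩⟩
  have h1 : (∑ j, (ρ j)⁻¹ + 1)⁻¹ ≤ ρ j := by
    rw [inv_le_comm₀ h0 (hρ j)]
    have := Finset.single_le_sum (f := fun j => (ρ j)⁻¹) (fun j _ => (inv_pos.2 (hρ j)).le)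
      (Finset.mem_univ j)
    linarith
  have h2 : B j ≤ ∑ j, B j := Finset.single_le_sum (fun j _ => hB j) (Finset.mem_univ j)
  exact (((hm j).exp p hp).mono_radius (inv_pos.2 h0) h1 (hB j)).mono (inv_pos.2 h0) h2

/-- normalisation of a family of vectors of polynomials -/
private theorem XF22_norm {s r q : ℕ} {E : Finset (Fin r)}
    (z : Fin q → Fin r → MvPolynomial (Fin s) ℝ) (h : ∃ j, ∃ k ∈ E, z j k ≠ 0) :
    ∃ (m : ℝ), 0 < m ∧ (∀ j, ∀ k ∈ E, ∀ α, |coeff α (z j k)| ≤ m) ∧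
      ∃ j, ∃ k ∈ E, ∃ α, |coeff α (z j k)| = m := by
  classical
  obtain ⟨j₁, k₁, hk₁, hz₁⟩ := h
  obtain ⟨α₁, hα₁⟩ := MvPolynomial.ne_zero_iff.1 hz₁
  let T : Finset (Fin q × Fin r × (Fin s →₀ ℕ)) :=
    Finset.univ ×ˢ (E ×ˢ (Finset.univ.biUnion fun j => E.biUnion fun k => (z j k).support))
  have hT : ∀ j, ∀ k ∈ E, ∀ α, coeff α (z j k) ≠ 0 → (j, k, α) ∈ T := by
    intro j k hk α hα
    simp only [T, Finset.mem_product, Finset.mem_univ, true_and, Finset.mem_biUnion]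
    exact ⟨hk, j, k, hk, mem_support_iff.2 hα⟩
  obtain ⟨⟨j₀, k₀, α₀⟩, h0, hmax⟩ := T.exists_max_image (fun x => |coeff x.2.2 (z x.1 x.2.1)|)
    ⟨_, hT j₁ k₁ hk₁ α₁ hα₁⟩
  have hk₀ : k₀ ∈ E := by
    simp only [T, Finset.mem_product, Finset.mem_univ, true_and] at h0
    exact h0.1
  have hm : ∀ j, ∀ k ∈ E, ∀ α, |coeff α (z j k)| ≤ |coeff α₀ (z j₀ k₀)| := by
    intro j k hk α
    by_cases h1 : coeff α (z j k) = 0
    · rw [h1, abs_zero]
      exact abs_nonneg _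
    · exact hmax (j, k, α) (hT j k hk α h1)
  exact ⟨|coeff α₀ (z j₀ k₀)|, (abs_pos.2 hα₁).trans_le (hm j₁ k₁ hk₁ α₁), hm, j₀, k₀, hk₀, α₀, rfl⟩

/-- the leading coefficient of a product with an integer polynomial -/
private theorem XF22_lead {s : ℕ} (g : MvPolynomial (Fin s) ℝ) (p : MvPolynomial (Fin s) ℤ) (hp : p ≠ 0) :
    |MonomialOrder.lex.leadingCoeff g| ≤
      |coeff (MonomialOrder.lex.degree (map (algebraMap ℤ ℝ) p * g)) (map (algebraMap ℤ ℝ) p * g)| := by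
  have h1 : MonomialOrder.lex.leadingCoeff (map (algebraMap ℤ ℝ) p * g) =
      MonomialOrder.lex.leadingCoeff (map (algebraMap ℤ ℝ) p) * MonomialOrder.lex.leadingCoeff g :=
    MonomialOrder.leadingCoeff_mul
  have h2 : (1 : ℝ) ≤ |MonomialOrder.lex.leadingCoeff (map (algebraMap ℤ ℝ) p)| := by
    unfold MonomialOrder.leadingCoeff
    have h3 : map (algebraMap ℤ ℝ) p ≠ 0 := by
      intro h0
      exact hp (map_injective _ (RingHom.injective_int _) (h0.trans (map_zero _).symm))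
    have h4 : coeff (MonomialOrder.lex.degree (map (algebraMap ℤ ℝ) p)) (map (algebraMap ℤ ℝ) p) ≠ 0 :=
      MonomialOrder.coeff_degree_ne_zero_iff.2 h3
    rw [coeff_map, algebraMap_int_eq, eq_intCast] at h4 ⊢
    have h5 : coeff (MonomialOrder.lex.degree (map (algebraMap ℤ ℝ) p)) p ≠ 0 := by
      intro h0
      rw [algebraMap_int_eq] at h0
      rw [h0, Int.cast_zero] at h4
      exact h4 rfl
    rw [algebraMap_int_eq] at h5
    exact_mod_cast Int.one_le_abs h5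
  have h6 : coeff (MonomialOrder.lex.degree (map (algebraMap ℤ ℝ) p * g)) (map (algebraMap ℤ ℝ) p * g) =
      MonomialOrder.lex.leadingCoeff (map (algebraMap ℤ ℝ) p) * MonomialOrder.lex.leadingCoeff g := h1
  rw [h6, abs_mul]
  exact le_mul_of_one_le_left (abs_nonneg _) h2

/-- independence over the real rational functions determines the reduction of `lb_base` -/
private theorem XF22_ind {s r : ℕ} {V : Fin r → (Fin s → ℝ) → ℝ} {e : Fin s → ℝ} {E : Finset (Fin r)}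
    {g : MvPolynomial (Fin s) ℝ} {Q : Fin r → Fin r → MvPolynomial (Fin s) ℝ} (hg : g ≠ 0)
    (hind : ∀ P : Fin r → MvPolynomial (Fin s) ℝ,
      (∀ᶠ θ' in 𝓝 e, ∑ i, eval θ' (P i) * V i θ' = 0) → ∀ i, P i = 0)
    (hrel : ∀ᶠ θ in 𝓝 e, ∀ i, eval θ g * V i θ = ∑ j ∈ E, eval θ (Q i j) * V j θ) :
    ∀ i, i ∈ E ∧ ∀ j ∈ E, Q i j = if j = i then g else 0 := by
  classical
  intro i
  have h := hind (fun j => (if j ∈ E then Q i j else 0) - (if j = i then g else 0)) (by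
    filter_upwards [hrel] with θ hθ
    have h1 := hθ i
    have h2 : ∀ j, eval θ ((if j ∈ E then Q i j else 0) - (if j = i then g else 0)) * V j θ =
        (if j ∈ E then eval θ (Q i j) * V j θ else 0) - (if j = i then eval θ g * V j θ else 0) := by
      intro j
      rw [map_sub, sub_mul]
      congr 1
      · split_ifs
        · rfl
        · rw [map_zero, zero_mul]
      · split_ifs
        · rfl
        · rw [map_zero, zero_mul]
    rw [Finset.sum_congr rfl fun j _ => h2 j, Finset.sum_sub_distrib, Finset.sum_ite_eq' Finset.univ i,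
      if_pos (Finset.mem_univ i), Finset.sum_ite_mem, Finset.univ_inter, h1, sub_self])
  have hi : i ∈ E := by
    by_contra hi
    have h1 := h i
    rw [if_neg hi, if_pos rfl, zero_sub, neg_eq_zero] at h1
    exact hg h1
  refine ⟨hi, fun j hj => ?_⟩
  have h1 := h j
  rw [if_pos hj] at h1
  exact sub_eq_zero.1 h1

/-- The result of block A for integer relations between functions `V i` which are independent over the real rational functions. -/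
theorem fam_pointZ {s r : ℕ} {Ω : Set (Fin s → ℝ)} {V : Fin r → (Fin s → ℝ) → ℝ} (hop : IsOpen Ω)
    (hconn : IsPreconnected Ω) (hana : ∀ i, AnalyticOnNhd ℝ (V i) Ω) (hpf : PfHyp Ω V)
    (hind : ∀ θ ∈ Ω, ∀ P : Fin r → MvPolynomial (Fin s) ℝ,
      (∀ᶠ θ' in 𝓝 θ, ∑ i, eval θ' (P i) * V i θ' = 0) → ∀ i, P i = 0) :
    ∃ a : ℕ, ∀ S : Set (Fin s → ℝ), IsCompact S → S ⊆ Ω →
      ∃ (r₁ : ℝ) (C : ℕ), 0 < r₁ ∧ 1 ≤ C ∧ FamPtZ Ω S V r₁ C a := by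
  classical
  obtain ⟨E, g, Q, e, C₀, a₀, he, hg, hC0, ha0, hrel, hLB⟩ := lb_base hana hpf
  have hred := XF22_ind hg (hind e he) hrel
  have hEuniv : ∀ i, i ∈ E := fun i => (hred i).1
  refine ⟨16 * a₀ + 16, fun S hS hSΩ => ?_⟩
  obtain ⟨η, hη, hη'⟩ := hS.exists_cthickening_subset_open hop hSΩ
  have hS' : IsCompact (Metric.cthickening η S) := hS.cthickening
  obtain ⟨C₁, hC1, hLB1⟩ := lb_compact hop hconn hana he ha0 hLB hS hSΩ
  obtain ⟨r₀, B₀, hr0, hB0, hexp⟩ := XF22_exp hS' (fun j => (hana j).mono hη')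
  obtain ⟨M, hM, hMb⟩ := XF22_bound hS'
  obtain ⟨Mg, hMg, hMgb⟩ := XF22_evb hS g
  obtain ⟨ρ, hρd⟩ : ∃ ρ : ℝ, ρ = min r₀ (min η 1) := ⟨_, rfl⟩
  have hρ : 0 < ρ := by
    rw [hρd]
    exact lt_min hr0 (lt_min hη one_pos)
  have hρ1 : ρ ≤ 1 := by
    rw [hρd]
    exact (min_le_right _ _).trans (min_le_right _ _)
  have hρη : ρ ≤ η := by
    rw [hρd]
    exact (min_le_right _ _).trans (min_le_left _ _)
  have hρr : ρ ≤ r₀ := by
    rw [hρd]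
    exact min_le_left _ _
  obtain ⟨C₂, hC2, hcb⟩ := exp_cb E V ρ B₀ M hρ hB0 hM
  have hcb' : ∀ p ∈ Metric.cthickening η S, ∀ (D : ℕ) (z : Fin r → MvPolynomial (Fin s) ℝ),
      (∀ j ∈ E, (z j).totalDegree ≤ D) → (∀ j ∈ E, ∀ α, |coeff α (z j)| ≤ 1) →
      ∃ ν, Exp ρ ((C₂ : ℝ) ^ (D + 1)) p (cb E V z) ν := by
    intro p hp
    refine hcb p (hMb p hp) fun j => ?_
    obtain ⟨ν, hν⟩ := hexp p hp j
    exact ⟨ν, hν.mono_radius hρ hρr hB0⟩
  obtain ⟨C₃, hC3⟩ : ∃ C₃ : ℕ, C₃ = max C₁ C₂ := ⟨_, rfl⟩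
  have hC31 : C₁ ≤ C₃ := by rw [hC3]; exact le_max_left _ _
  have hC32 : C₂ ≤ C₃ := by rw [hC3]; exact le_max_right _ _
  obtain ⟨C', hC', hpt⟩ := exists_pt_fin s a₀ C₃ (hC1.trans hC31) ρ hρ hρ1
  obtain ⟨DQ, hDQ⟩ : ∃ DQ : ℕ, DQ = g.totalDegree := ⟨_, rfl⟩
  obtain ⟨κ, hκ⟩ : ∃ κ : ℕ, κ = s + DQ + 1 := ⟨_, rfl⟩
  -- the leading coefficient of `g`
  have hlc : 0 < |MonomialOrder.lex.leadingCoeff g| :=
    abs_pos.2 (MonomialOrder.coeff_degree_ne_zero_iff.2 hg)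
  obtain ⟨c₅, hc5⟩ : ∃ c₅ : ℝ, c₅ = |MonomialOrder.lex.leadingCoeff g|⁻¹ * Mg := ⟨_, rfl⟩
  have hc50 : 0 ≤ c₅ := by rw [hc5]; positivity
  refine ⟨ρ, C₂ ^ κ + C' * κ ^ (16 * a₀ + 16) + ⌈c₅⌉₊, hρ, ?_, ?_⟩
  · exact (Nat.one_le_pow _ _ hC2).trans ((Nat.le_add_right _ _).trans (Nat.le_add_right _ _))
  intro D T hT ℓ hℓ1 hℓ2 θ₀ hθ₀ q y hy hne
  obtain ⟨D', hD'⟩ : ∃ D' : ℕ, D' = s * D + DQ := ⟨_, rfl⟩
  have hD'κ : D' + 1 ≤ κ * (D + 1) := by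
    rw [hD', hκ]
    nlinarith [Nat.zero_le (DQ * D), Nat.zero_le s, Nat.zero_le D]
  have hθ₀' : θ₀ ∈ Metric.cthickening η S := Metric.self_subset_cthickening S hθ₀
  -- the vectors of polynomials
  obtain ⟨z, hz⟩ : ∃ z : Fin q → Fin r → MvPolynomial (Fin s) ℝ,
      ∀ j k, z j k = map (algebraMap ℤ ℝ) (y j k) * g := ⟨_, fun _ _ => rfl⟩
  have hzdeg : ∀ j k, (z j k).totalDegree ≤ D' := by
    intro j k
    rw [hz]
    refine (totalDegree_mul _ _).trans ?_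
    rw [hD', hDQ]
    exact Nat.add_le_add_right (XF22_deg (y j k) (hy j k)) _
  have hev : ∀ (θ : Fin s → ℝ) (p : MvPolynomial (Fin s) ℤ),
      eval θ (map (algebraMap ℤ ℝ) p) = aeval θ p := by
    intro θ p
    rw [eval_map, aeval_def]
  have hcbz : ∀ j θ, cb E V (z j) θ = eval θ g * ∑ i, aeval θ (y j i) * V i θ := by
    intro j θ
    have hE : E = Finset.univ := Finset.eq_univ_of_forall hEuniv
    unfold cb
    rw [hE, Finset.mul_sum]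
    refine Finset.sum_congr rfl fun k _ => ?_
    rw [hz, map_mul, hev]
    ring
  obtain ⟨jy, iy, hyne⟩ := hne
  have hz0 : ∃ j, ∃ k ∈ E, z j k ≠ 0 := by
    refine ⟨jy, iy, hEuniv iy, ?_⟩
    rw [hz]
    refine mul_ne_zero ?_ hg
    intro h0
    exact hyne (map_injective _ (RingHom.injective_int _) (h0.trans (map_zero _).symm))
  obtain ⟨m, hm, hmle, j₀, k₀, hk₀, α₀, hα₀⟩ := XF22_norm z hz0
  have hmlow : |MonomialOrder.lex.leadingCoeff g| ≤ m := by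
    refine (XF22_lead g (y jy iy) hyne).trans ?_
    rw [← hz]
    exact hmle jy iy (hEuniv iy) _
  obtain ⟨z', hz'⟩ : ∃ z' : Fin q → Fin r → MvPolynomial (Fin s) ℝ,
      ∀ j k, z' j k = C (m⁻¹) * z j k := ⟨_, fun _ _ => rfl⟩
  have hz'deg : ∀ j, ∀ k ∈ E, (z' j k).totalDegree ≤ D' := by
    intro j k _
    rw [hz']
    refine (totalDegree_mul _ _).trans ?_
    rw [totalDegree_C, zero_add]
    exact hzdeg j k
  have hz'co : ∀ j, ∀ k ∈ E, ∀ α, |coeff α (z' j k)| ≤ 1 := by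
    intro j k hk α
    rw [hz', coeff_C_mul, abs_mul, abs_of_pos (inv_pos.2 hm), inv_mul_le_iff₀ hm, mul_one]
    exact hmle j k hk α
  have hnrm : Nrm E D' (z' j₀) := by
    refine ⟨hz'deg j₀, hz'co j₀, k₀, hk₀, α₀, ?_⟩
    rw [hz', coeff_C_mul, abs_mul, abs_of_pos (inv_pos.2 hm), hα₀, inv_mul_cancel₀ hm.ne']
  have hcbz' : ∀ j θ, cb E V (z' j) θ = m⁻¹ * cb E V (z j) θ := by
    intro j θ
    unfold cb
    rw [Finset.mul_sum]
    refine Finset.sum_congr rfl fun k _ => ?_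
    rw [hz', map_mul, eval_C, mul_assoc]
  -- the point
  obtain ⟨ν₀, hν₀⟩ := hcb' θ₀ hθ₀' D' (z' j₀) (hz'deg j₀) (hz'co j₀)
  have hC2R : (0 : ℝ) ≤ (C₂ : ℝ) ^ (D' + 1) := by positivity
  have hlow := hLB1 θ₀ hθ₀ D' (z' j₀) hnrm ρ ((C₂ : ℝ) ^ (D' + 1)) ν₀ hρ hC2R hν₀
  have hν₀' : Exp ρ ((C₃ : ℝ) ^ (D' + 1)) θ₀ (cb E V (z' j₀)) ν₀ :=
    hν₀.mono hρ (pow_le_pow_left₀ (Nat.cast_nonneg _) (by exact_mod_cast hC32) _)
  have hlow' : ∃ b, dg b ≤ C₃ * (D' + 1) ^ a₀ ∧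
      Real.exp (-((C₃ : ℝ) * ((D' : ℕ) + 1) ^ a₀)) ≤ |ν₀ b| := by
    obtain ⟨b, hb1, hb2⟩ := hlow
    refine ⟨b, hb1.trans (Nat.mul_le_mul_right _ hC31), le_trans ?_ hb2⟩
    rw [Real.exp_le_exp]
    have h1 : (C₁ : ℝ) ≤ C₃ := by exact_mod_cast hC31
    have h2 : (0 : ℝ) ≤ ((D' : ℕ) + 1 : ℝ) ^ a₀ := by positivity
    nlinarith [mul_le_mul_of_nonneg_right h1 h2]
  obtain ⟨θ₁, hθ₁, hbig⟩ := hpt D' T hT ℓ hℓ1 θ₀ (cb E V (z' j₀)) ν₀ hν₀' hlow'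
  have hθ₁' : θ₁ ∈ Metric.cthickening η S := by
    refine Metric.mem_cthickening_of_dist_le θ₁ θ₀ η S hθ₀ ?_
    rw [dist_pi_le_iff hη.le]
    intro i
    rw [Real.dist_eq]
    have := (hθ₁ i).2
    linarith
  choose ν hν using fun j => hcb' θ₁ hθ₁' D' (z' j) (hz'deg j) (hz'co j)
  have hT0 : 0 < Real.log T := by
    refine Real.log_pos ?_
    have : (2 : ℝ) ≤ T := by exact_mod_cast hT
    linarith
  have hCle : ((C₂ ^ κ + C' * κ ^ (16 * a₀ + 16) : ℕ) : ℝ) ≤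
      ((C₂ ^ κ + C' * κ ^ (16 * a₀ + 16) + ⌈c₅⌉₊ : ℕ) : ℝ) := by
    exact_mod_cast Nat.le_add_right _ _
  refine ⟨θ₁, fun θ => m⁻¹ * eval θ g, fun j => cb E V (z' j), ν, fun i => (hθ₁ i).1, fun j => ?_,
    fun j θ hθ => ?_, fun θ hθ => ?_, j₀, ?_⟩
  · refine (hν j).mono hρ ?_
    have h1 : (C₂ : ℝ) ^ (D' + 1) ≤ ((C₂ : ℝ) ^ κ) ^ (D + 1) := by
      rw [← pow_mul]
      exact pow_le_pow_right₀ (by exact_mod_cast hC2) hD'κ
    refine h1.trans (pow_le_pow_left₀ (by positivity) (le_trans ?_ hCle) _)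
    push_cast
    have : (0 : ℝ) ≤ (C' : ℝ) * (κ : ℝ) ^ (16 * a₀ + 16) := by positivity
    linarith
  · show cb E V (z' j) θ = _
    rw [hcbz', hcbz j θ, mul_assoc]
  · show |m⁻¹ * eval θ g| ≤ _
    rw [abs_mul, abs_of_pos (inv_pos.2 hm)]
    have h1 : m⁻¹ ≤ |MonomialOrder.lex.leadingCoeff g|⁻¹ := inv_anti₀ hlc hmlow
    have h2 : m⁻¹ * |eval θ g| ≤ c₅ := by
      rw [hc5]
      exact mul_le_mul h1 (hMgb θ hθ) (abs_nonneg _) (by positivity)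
    refine h2.trans ((Nat.le_ceil c₅).trans ?_)
    exact_mod_cast Nat.le_add_left _ _
  · rw [XF22_zero (hν j₀) hρ]
    refine le_trans ?_ hbig
    rw [Real.exp_le_exp, neg_le_neg_iff]
    refine mul_le_mul_of_nonneg_right ?_ hT0.le
    have h1 : ((D' : ℕ) + 1 : ℝ) ≤ (κ : ℝ) * (D + 1) := by exact_mod_cast hD'κ
    calc (C' : ℝ) * ((D' : ℕ) + 1 : ℝ) ^ (16 * a₀ + 16)
        ≤ C' * ((κ : ℝ) * (D + 1)) ^ (16 * a₀ + 16) :=
          mul_le_mul_of_nonneg_left (pow_le_pow_left₀ (by positivity) h1 _) (Nat.cast_nonneg _)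
      _ = (C' * (κ : ℝ) ^ (16 * a₀ + 16)) * (D + 1) ^ (16 * a₀ + 16) := by
          rw [mul_pow]
          ring
      _ ≤ ((C₂ ^ κ + C' * κ ^ (16 * a₀ + 16) + ⌈c₅⌉₊ : ℕ) : ℝ) * (D + 1) ^ (16 * a₀ + 16) := by
          refine mul_le_mul_of_nonneg_right (le_trans ?_ hCle) (by positivity)
          push_cast
          have : (0 : ℝ) ≤ (C₂ : ℝ) ^ κ := by positivity
          linarith

end Pool.Agent.Lib.MP_bbe012_lc.XS
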