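import Pool.Agent.Lib.MP_bbe012_lc.XS.F0

/-!
# LEAF XF3 (medium): the rational fundamental matrix
-/

set_option autoImplicit false

namespace Pool.Agent.Lib.MP_bbe012_lc.XS

open MvPolynomial

private theorem XF3_deg {s : ℕ} {β : Fin s →₀ ℕ} {p : (Fin s →₀ ℕ) × (Fin s →₀ ℕ)}
    (hp : p ∈ (Finset.HasAntidiagonal.antidiagonal β).erase (0, β)) : p.2.degree < β.degree := by
  rw [Finset.mem_erase, Finset.HasAntidiagonal.mem_antidiagonal] at hp
  obtain ⟨h1, h2⟩ := hp
  have h3 : p.1 ≠ 0 := by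
    intro h
    rw [h, zero_add] at h2
    exact h1 (Prod.ext h h2)
  have h4 : p.1.degree ≠ 0 := fun h => h3 ((Finsupp.degree_eq_zero_iff p.1).1 h)
  have h5 : β.degree = p.1.degree + p.2.degree := by rw [← h2, map_add]
  omega

/-- the coefficients of the fundamental solution, for a denominator with constant coefficient `1` -/
private noncomputable def XF3_U {s N : ℕ} (δ : MvPolynomial (Fin s) ℚ)
    (G : Fin N → Fin N → MvPolynomial (Fin s) ℚ) : (Fin s →₀ ℕ) → Fin N → Fin N → ℚ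
  | β => fun b c =>
    if β = 0 then (if b = c then 1 else 0)
    else ((β.degree : ℕ) : ℚ)⁻¹ * ∑ p : {p // p ∈ (Finset.HasAntidiagonal.antidiagonal β).erase (0, β)},
      (∑ b', coeff p.1.1 (G b b') * XF3_U δ G p.1.2 b' c -
        coeff p.1.1 δ * ((p.1.2.degree : ℕ) : ℚ) * XF3_U δ G p.1.2 b c)
termination_by β => β.degree
decreasing_by
  · exact XF3_deg p.2
  · exact XF3_deg p.2

private theorem XF3_zero {s N : ℕ} (δ : MvPolynomial (Fin s) ℚ) (G : Fin N → Fin N → MvPolynomial (Fin s) ℚ)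
    (b c : Fin N) : XF3_U δ G 0 b c = if b = c then 1 else 0 := by
  rw [XF3_U]
  exact if_pos rfl

private theorem XF3_rec {s N : ℕ} (δ : MvPolynomial (Fin s) ℚ) (G : Fin N → Fin N → MvPolynomial (Fin s) ℚ)
    {β : Fin s →₀ ℕ} (hβ : β ≠ 0) (b c : Fin N) :
    ((β.degree : ℕ) : ℚ) * XF3_U δ G β b c = ∑ p ∈ (Finset.HasAntidiagonal.antidiagonal β).erase (0, β),
      (∑ b', coeff p.1 (G b b') * XF3_U δ G p.2 b' c -
        coeff p.1 δ * ((p.2.degree : ℕ) : ℚ) * XF3_U δ G p.2 b c) := by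
  have hn : ((β.degree : ℕ) : ℚ) ≠ 0 := by
    exact_mod_cast fun h => hβ ((Finsupp.degree_eq_zero_iff β).1 h)
  rw [XF3_U]
  beta_reduce
  rw [if_neg hβ, ← mul_assoc, mul_inv_cancel₀ hn, one_mul]
  exact Finset.sum_coe_sort ((Finset.HasAntidiagonal.antidiagonal β).erase (0, β)) (fun p =>
    ∑ b', coeff p.1 (G b b') * XF3_U δ G p.2 b' c -
        coeff p.1 δ * ((p.2.degree : ℕ) : ℚ) * XF3_U δ G p.2 b c)

/-- a common denominator of the coefficients of a polynomial -/
private theorem XF3_den {s : ℕ} (P : MvPolynomial (Fin s) ℚ) : ∃ q : ℕ, 1 ≤ q ∧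
    ∀ γ, (q : ℚ) * coeff γ P ∈ (Int.castRingHom ℚ).range := by
  classical
  refine ⟨∏ γ ∈ P.support, (coeff γ P).den, Finset.prod_pos fun γ _ => (coeff γ P).den_pos, fun γ => ?_⟩
  by_cases hγ : γ ∈ P.support
  · rw [← Finset.mul_prod_erase _ _ hγ]
    push_cast
    have h1 : ((coeff γ P).den : ℚ) * (∏ x ∈ P.support.erase γ, ((coeff x P).den : ℚ)) * coeff γ P =
        (∏ x ∈ P.support.erase γ, ((coeff x P).den : ℚ)) * ((coeff γ P).num : ℚ) := by
      have h2 := Rat.den_mul_eq_num (coeff γ P)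
      linear_combination (∏ x ∈ P.support.erase γ, ((coeff x P).den : ℚ)) * h2
    rw [h1]
    exact ⟨(∏ x ∈ P.support.erase γ, ((coeff x P).den : ℤ)) * (coeff γ P).num, by simp⟩
  · rw [notMem_support_iff.1 hγ, mul_zero]
    exact Subring.zero_mem _

private theorem XF3_sum {s : ℕ} (P : MvPolynomial (Fin s) ℚ) (β : Fin s →₀ ℕ) :
    ∑ p ∈ Finset.HasAntidiagonal.antidiagonal β, |coeff p.1 P| ≤ ∑ γ ∈ P.support, |coeff γ P| := by
  classical
  have h1 : ∑ p ∈ Finset.HasAntidiagonal.antidiagonal β, |coeff p.1 P| =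
      ∑ γ ∈ (Finset.HasAntidiagonal.antidiagonal β).image Prod.fst, |coeff γ P| := by
    rw [Finset.sum_image]
    intro p hp p' hp' h
    have e1 := Finset.HasAntidiagonal.mem_antidiagonal.1 hp
    have e2 := Finset.HasAntidiagonal.mem_antidiagonal.1 hp'
    refine Prod.ext h ?_
    rw [← e2, h] at e1
    exact add_left_cancel e1
  rw [h1, ← Finset.sum_filter_ne_zero]
  refine Finset.sum_le_sum_of_subset_of_nonneg ?_ fun _ _ _ => abs_nonneg _
  intro γ hγ
  rw [Finset.mem_filter] at hγ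
  rw [mem_support_iff]
  exact fun h => hγ.2 (by rw [h, abs_zero])

private theorem XF3_int {s N : ℕ} (δ : MvPolynomial (Fin s) ℚ) (G : Fin N → Fin N → MvPolynomial (Fin s) ℚ) {q : ℕ}
    (h1 : ∀ γ, (q : ℚ) * coeff γ δ ∈ (Int.castRingHom ℚ).range)
    (h2 : ∀ b c γ, (q : ℚ) * coeff γ (G b c) ∈ (Int.castRingHom ℚ).range) (n : ℕ) :
    ∀ β : Fin s →₀ ℕ, β.degree = n → ∀ b c,
      (q : ℚ) ^ n * (Nat.factorial n : ℚ) * XF3_U δ G β b c ∈ (Int.castRingHom ℚ).range := by
  induction n using Nat.strong_induction_on with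
  | _ n ih =>
    intro β hβn b c
    by_cases hβ : β = 0
    · subst hβ
      rw [XF3_zero]
      refine Subring.mul_mem _ (Subring.mul_mem _ (Subring.pow_mem _ (natCast_mem _ q) _) (natCast_mem _ _)) ?_
      split_ifs
      · exact Subring.one_mem _
      · exact Subring.zero_mem _
    · have hn : n ≠ 0 := by
        rw [← hβn]
        exact fun h => hβ ((Finsupp.degree_eq_zero_iff β).1 h)
      obtain ⟨m, rfl⟩ := Nat.exists_eq_succ_of_ne_zero hn
      have hr := XF3_rec δ G hβ b c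
      rw [hβn] at hr
      have e1 : (q : ℚ) ^ (m + 1) * (Nat.factorial (m + 1) : ℚ) * XF3_U δ G β b c =
          (q : ℚ) ^ (m + 1) * (Nat.factorial m : ℚ) * (((m + 1 : ℕ) : ℚ) * XF3_U δ G β b c) := by
        rw [Nat.factorial_succ]
        push_cast
        ring
      have e2 : Nat.succ m = m + 1 := rfl
      rw [e2] at hr ⊢
      rw [e1, hr, Finset.mul_sum]
      refine Subring.sum_mem _ fun p hp => ?_
      have hlt : p.2.degree < m + 1 := by
        have := XF3_deg hp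
        rw [hβn] at this
        exact this
      have key : ∀ b', (q : ℚ) ^ m * (Nat.factorial m : ℚ) * XF3_U δ G p.2 b' c ∈ (Int.castRingHom ℚ).range := by
        intro b'
        obtain ⟨k, hk⟩ := Nat.exists_eq_add_of_le (Nat.le_of_lt_succ hlt)
        obtain ⟨t, ht⟩ := Nat.factorial_dvd_factorial (Nat.le_of_lt_succ hlt)
        have h3 := ih p.2.degree hlt p.2 rfl b' c
        have h4 : (q : ℚ) ^ m * (Nat.factorial m : ℚ) * XF3_U δ G p.2 b' c =
            ((q : ℚ) ^ k * (t : ℚ)) * ((q : ℚ) ^ p.2.degree * (Nat.factorial p.2.degree : ℚ) *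
              XF3_U δ G p.2 b' c) := by
          rw [ht, hk, pow_add]
          push_cast
          ring
        rw [h4]
        exact Subring.mul_mem _ (Subring.mul_mem _ (Subring.pow_mem _ (natCast_mem _ q) _) (natCast_mem _ t)) h3
      have e3 : (q : ℚ) ^ (m + 1) * (Nat.factorial m : ℚ) *
          (∑ b', coeff p.1 (G b b') * XF3_U δ G p.2 b' c -
            coeff p.1 δ * ((p.2.degree : ℕ) : ℚ) * XF3_U δ G p.2 b c) =
          ∑ b', ((q : ℚ) * coeff p.1 (G b b')) * ((q : ℚ) ^ m * (Nat.factorial m : ℚ) * XF3_U δ G p.2 b' c) -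
            ((q : ℚ) * coeff p.1 δ) * ((p.2.degree : ℕ) : ℚ) *
              ((q : ℚ) ^ m * (Nat.factorial m : ℚ) * XF3_U δ G p.2 b c) := by
        rw [mul_sub, Finset.mul_sum]
        congr 1
        · refine Finset.sum_congr rfl fun b' _ => ?_
          ring
        · ring
      rw [e3]
      refine Subring.sub_mem _ (Subring.sum_mem _ fun b' _ => Subring.mul_mem _ (h2 _ _ _) (key b')) ?_
      exact Subring.mul_mem _ (Subring.mul_mem _ (h1 _) (natCast_mem _ _)) (key b)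

private theorem XF3_bd {s N : ℕ} (δ : MvPolynomial (Fin s) ℚ) (G : Fin N → Fin N → MvPolynomial (Fin s) ℚ) {K : ℕ}
    (hK1 : 1 ≤ K)
    (hK : ∀ b, (∑ b', ∑ γ ∈ (G b b').support, |coeff γ (G b b')|) + ∑ γ ∈ δ.support, |coeff γ δ| ≤ (K : ℚ)) (n : ℕ) :
    ∀ β : Fin s →₀ ℕ, β.degree = n → ∀ b c, |XF3_U δ G β b c| ≤ (K : ℚ) ^ n := by
  have hKr : (1 : ℚ) ≤ K := by exact_mod_cast hK1
  induction n using Nat.strong_induction_on with
  | _ n ih =>
    intro β hβn b c
    by_cases hβ : β = 0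
    · subst hβ
      rw [XF3_zero]
      refine le_trans ?_ (one_le_pow₀ hKr)
      split_ifs <;> simp
    · have hn : n ≠ 0 := by
        rw [← hβn]
        exact fun h => hβ ((Finsupp.degree_eq_zero_iff β).1 h)
      obtain ⟨m, rfl⟩ := Nat.exists_eq_succ_of_ne_zero hn
      have hr := XF3_rec δ G hβ b c
      rw [hβn] at hr
      have e2 : Nat.succ m = m + 1 := rfl
      rw [e2] at hr ih hβn ⊢
      have hm0 : (0 : ℚ) < ((m + 1 : ℕ) : ℚ) := by exact_mod_cast Nat.succ_pos m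
      have hKm : (0 : ℚ) ≤ (K : ℚ) ^ m := by positivity
      have hterm : ∀ p ∈ (Finset.HasAntidiagonal.antidiagonal β).erase (0, β),
          |∑ b', coeff p.1 (G b b') * XF3_U δ G p.2 b' c -
            coeff p.1 δ * ((p.2.degree : ℕ) : ℚ) * XF3_U δ G p.2 b c| ≤
          (((m + 1 : ℕ) : ℚ) * (K : ℚ) ^ m) * (∑ b', |coeff p.1 (G b b')| + |coeff p.1 δ|) := by
        intro p hp
        have hlt : p.2.degree < m + 1 := by
          have := XF3_deg hp
          rw [hβn] at this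
          exact this
        have hU : ∀ b', |XF3_U δ G p.2 b' c| ≤ (K : ℚ) ^ m := fun b' =>
          (ih p.2.degree hlt p.2 rfl b' c).trans (pow_le_pow_right₀ hKr (Nat.le_of_lt_succ hlt))
        have hd : ((p.2.degree : ℕ) : ℚ) ≤ ((m + 1 : ℕ) : ℚ) := by exact_mod_cast hlt.le
        have hd0 : (0 : ℚ) ≤ ((p.2.degree : ℕ) : ℚ) := Nat.cast_nonneg _
        have h1m : (1 : ℚ) ≤ ((m + 1 : ℕ) : ℚ) := by exact_mod_cast Nat.succ_pos m
        have a1 : |∑ b', coeff p.1 (G b b') * XF3_U δ G p.2 b' c| ≤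
            (((m + 1 : ℕ) : ℚ) * (K : ℚ) ^ m) * ∑ b', |coeff p.1 (G b b')| := by
          refine (Finset.abs_sum_le_sum_abs _ _).trans ?_
          rw [Finset.mul_sum]
          refine Finset.sum_le_sum fun b' _ => ?_
          rw [abs_mul]
          calc |coeff p.1 (G b b')| * |XF3_U δ G p.2 b' c| ≤ |coeff p.1 (G b b')| * (K : ℚ) ^ m :=
                mul_le_mul_of_nonneg_left (hU b') (abs_nonneg _)
            _ ≤ |coeff p.1 (G b b')| * (((m + 1 : ℕ) : ℚ) * (K : ℚ) ^ m) :=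
                mul_le_mul_of_nonneg_left (le_mul_of_one_le_left hKm h1m) (abs_nonneg _)
            _ = _ := mul_comm _ _
        have a2 : |coeff p.1 δ * ((p.2.degree : ℕ) : ℚ) * XF3_U δ G p.2 b c| ≤
            (((m + 1 : ℕ) : ℚ) * (K : ℚ) ^ m) * |coeff p.1 δ| := by
          rw [abs_mul, abs_mul, abs_of_nonneg hd0]
          calc |coeff p.1 δ| * ((p.2.degree : ℕ) : ℚ) * |XF3_U δ G p.2 b c| ≤
                |coeff p.1 δ| * ((m + 1 : ℕ) : ℚ) * (K : ℚ) ^ m := by
                gcongr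
                exact hU b
            _ = _ := by ring
        calc |∑ b', coeff p.1 (G b b') * XF3_U δ G p.2 b' c -
              coeff p.1 δ * ((p.2.degree : ℕ) : ℚ) * XF3_U δ G p.2 b c| ≤
              |∑ b', coeff p.1 (G b b') * XF3_U δ G p.2 b' c| +
              |coeff p.1 δ * ((p.2.degree : ℕ) : ℚ) * XF3_U δ G p.2 b c| := abs_sub _ _
          _ ≤ _ := by
              rw [mul_add]
              exact add_le_add a1 a2
      have hall : |((m + 1 : ℕ) : ℚ) * XF3_U δ G β b c| ≤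
          (((m + 1 : ℕ) : ℚ) * (K : ℚ) ^ m) * (K : ℚ) := by
        rw [hr]
        refine (Finset.abs_sum_le_sum_abs _ _).trans ((Finset.sum_le_sum hterm).trans ?_)
        rw [← Finset.mul_sum]
        refine mul_le_mul_of_nonneg_left ?_ (by positivity)
        refine le_trans ?_ (hK b)
        refine (Finset.sum_le_sum_of_subset_of_nonneg (Finset.erase_subset _ _)
          fun p _ _ => add_nonneg (Finset.sum_nonneg fun _ _ => abs_nonneg _) (abs_nonneg _)).trans ?_
        rw [Finset.sum_add_distrib, Finset.sum_comm]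
        exact add_le_add (Finset.sum_le_sum fun b' _ => XF3_sum (G b b') β) (XF3_sum δ β)
      rw [abs_mul, abs_of_pos hm0, mul_assoc] at hall
      have := le_of_mul_le_mul_left hall hm0
      rw [pow_succ]
      exact this

/-- PROOF. Let `d = constantCoeff δ ≠ 0`. Coefficient of `h ^ β`, `n = degree β`, of the equation (`MvPowerSeries.coeff_mul`, antidiagonal `(γ, β - γ)`): `∑_γ δ_γ (n - |γ|) U_(β-γ) = ∑_γ G_γ U_(β-γ)`, that is, as `G_0 = 0`,
`d n U_β = ∑_{γ ≠ 0, γ ≤ β} (G_γ - (n - |γ|) δ_γ) U_(β-γ)` (matrix product in the indices `b, b'`): for `n ≥ 1` this defines `U_β` by recursion on the degree (well founded recursion, or define the list of the homogeneous parts as in PP/Sol.lean), and `U_0 = 1`; for `β = 0` the equation is `0 = 0`.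
Denominators: let `q ≥ 1` be a common denominator of the finitely many rational numbers `G_γ / d` and `δ_γ / d` (all `b, b'`, `γ` in the supports). Claim `q ^ n n! U_β ∈ ℤ`: `q ^ n n! U_β = ∑_{γ ≠ 0} (q G_γ / d - (n - |γ|) q δ_γ / d) * (q ^ (n - 1) (n - 1)! U_(β-γ))`, and `q ^ (n - 1) (n - 1)!` is an integer multiple of
`q ^ (n - |γ|) (n - |γ|)!` (`|γ| ≥ 1`). Size: `|U_β| ≤ (1 / n) ∑_{γ ≠ 0} (|G_γ / d| + n |δ_γ / d|) ... ≤ ∑_γ (g + δ') N K ^ (n - |γ|) ≤ K ^ n` if the natural number `K ≥ 1` is at least `N (g + δ')` times the number of all `γ` in the supports, `g`, `δ'` bounds for the `|G_γ / d|` and `|δ_γ / d|`. -/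
theorem exists_fund {s N : ℕ} (δ : MvPolynomial (Fin s) ℚ) (hδ : constantCoeff δ ≠ 0)
    (G : Fin N → Fin N → MvPolynomial (Fin s) ℚ) (hG : ∀ b c, constantCoeff (G b c) = 0) :
    ∃ (U : Fin N → Fin N → MvPowerSeries (Fin s) ℚ) (q K : ℕ), Fund δ G U q K := by
  classical
  set d : ℚ := constantCoeff δ with hd
  let δ' : MvPolynomial (Fin s) ℚ := C d⁻¹ * δ
  let G' : Fin N → Fin N → MvPolynomial (Fin s) ℚ := fun b c => C d⁻¹ * G b c
  have hδ'c : ∀ γ, coeff γ δ' = d⁻¹ * coeff γ δ := fun γ => coeff_C_mul _ _ _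
  have hG'c : ∀ b c γ, coeff γ (G' b c) = d⁻¹ * coeff γ (G b c) := fun b c γ => coeff_C_mul _ _ _
  obtain ⟨q₀, hq₀, hq₀'⟩ := XF3_den δ'
  choose Q hQ hQ' using fun b c => XF3_den (G' b c)
  obtain ⟨K₀, hK₀⟩ := exists_nat_ge ((∑ b, ∑ b', ∑ γ ∈ (G' b b').support, |coeff γ (G' b b')|) +
    ∑ γ ∈ δ'.support, |coeff γ δ'|)
  have hq1 : 1 ≤ q₀ * ∏ b, ∏ c, Q b c :=
    Nat.mul_pos hq₀ (Finset.prod_pos fun b _ => Finset.prod_pos fun c _ => hQ b c)
  refine ⟨fun b c β => XF3_U δ' G' β b c, q₀ * ∏ b, ∏ c, Q b c, max 1 K₀, hq1, le_max_left _ _, ?_, ?_, ?_, ?_⟩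
  · intro b c
    refine MvPowerSeries.ext fun β => ?_
    rw [MvPowerSeries.coeff_mul, map_sum]
    simp only [MvPowerSeries.coeff_mul, coeff_eu, MvPolynomial.coeff_coe]
    have hcf : ∀ (p : Fin s →₀ ℕ) (b c : Fin N),
        MvPowerSeries.coeff p ((fun b c β => XF3_U δ' G' β b c : Fin N → Fin N → MvPowerSeries (Fin s) ℚ) b c) =
          XF3_U δ' G' p b c := fun p b c => rfl
    simp only [hcf]
    rw [Finset.sum_comm]
    have hmem : ((0 : Fin s →₀ ℕ), β) ∈ Finset.HasAntidiagonal.antidiagonal β := by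
      rw [Finset.HasAntidiagonal.mem_antidiagonal, zero_add]
    rw [← Finset.add_sum_erase _ _ hmem, ← Finset.add_sum_erase _ _ hmem]
    have hG0 : ∀ b', coeff 0 (G b b') = 0 := fun b' => hG b b'
    have hd0 : coeff 0 δ = d := rfl
    by_cases hβ : β = 0
    · subst hβ
      have he : (Finset.HasAntidiagonal.antidiagonal (0 : Fin s →₀ ℕ)).erase (0, 0) = ∅ := by
        refine Finset.eq_empty_of_forall_notMem fun p hp => ?_
        have := XF3_deg hp
        rw [map_zero] at this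
        omega
      rw [he, Finset.sum_empty, Finset.sum_empty]
      simp [hG0]
    · have hr := XF3_rec δ' G' hβ b c
      have h1 : ∑ b', coeff 0 (G b b') * XF3_U δ' G' β b' c = 0 :=
        Finset.sum_eq_zero fun b' _ => by rw [hG0, zero_mul]
      have h2 : d * (((β.degree : ℕ) : ℚ) * XF3_U δ' G' β b c) =
          (∑ p ∈ (Finset.HasAntidiagonal.antidiagonal β).erase (0, β), ∑ b', coeff p.1 (G b b') * XF3_U δ' G' p.2 b' c) -
          ∑ p ∈ (Finset.HasAntidiagonal.antidiagonal β).erase (0, β),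
            coeff p.1 δ * (((p.2.degree : ℕ) : ℚ) * XF3_U δ' G' p.2 b c) := by
        rw [hr, Finset.mul_sum, ← Finset.sum_sub_distrib]
        refine Finset.sum_congr rfl fun p _ => ?_
        rw [mul_sub, Finset.mul_sum]
        congr 1
        · refine Finset.sum_congr rfl fun b' _ => ?_
          rw [hG'c, ← mul_assoc, ← mul_assoc, mul_inv_cancel₀ hδ, one_mul]
        · rw [hδ'c]
          have h3 : d * (d⁻¹ * coeff p.1 δ * ((p.2.degree : ℕ) : ℚ) * XF3_U δ' G' p.2 b c) =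
              (d * d⁻¹) * (coeff p.1 δ * (((p.2.degree : ℕ) : ℚ) * XF3_U δ' G' p.2 b c)) := by ring
          rw [h3, mul_inv_cancel₀ hδ, one_mul]
      simp only []
      rw [h1, hd0, h2]
      ring
  · intro b c
    exact XF3_zero δ' G' b c
  · intro b c β
    have h1 : ∀ γ, ((q₀ * ∏ b, ∏ c, Q b c : ℕ) : ℚ) * coeff γ δ' ∈ (Int.castRingHom ℚ).range := by
      intro γ
      have e : ((q₀ * ∏ b, ∏ c, Q b c : ℕ) : ℚ) * coeff γ δ' =
          ((∏ b, ∏ c, Q b c : ℕ) : ℚ) * ((q₀ : ℚ) * coeff γ δ') := by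
        push_cast
        ring
      rw [e]
      exact Subring.mul_mem _ (natCast_mem _ _) (hq₀' γ)
    have h2 : ∀ b c γ, ((q₀ * ∏ b, ∏ c, Q b c : ℕ) : ℚ) * coeff γ (G' b c) ∈ (Int.castRingHom ℚ).range := by
      intro b c γ
      have hdv : Q b c ∣ q₀ * ∏ b, ∏ c, Q b c :=
        Dvd.dvd.mul_left ((Finset.dvd_prod_of_mem _ (Finset.mem_univ c)).trans
          (Finset.dvd_prod_of_mem (fun b => ∏ c, Q b c) (Finset.mem_univ b))) _
      obtain ⟨t, ht⟩ := hdv
      rw [ht]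
      have e : ((Q b c * t : ℕ) : ℚ) * coeff γ (G' b c) = (t : ℚ) * ((Q b c : ℚ) * coeff γ (G' b c)) := by
        push_cast
        ring
      rw [e]
      exact Subring.mul_mem _ (natCast_mem _ _) (hQ' b c γ)
    obtain ⟨z, hz⟩ := XF3_int δ' G' h1 h2 β.degree β rfl b c
    exact ⟨z, hz.symm⟩
  · intro b c β
    refine XF3_bd δ' G' (le_max_left _ _) (fun b => ?_) β.degree β rfl b c
    have h1 : (K₀ : ℚ) ≤ ((max 1 K₀ : ℕ) : ℚ) := by exact_mod_cast le_max_right 1 K₀
    refine le_trans ?_ (hK₀.trans h1)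
    refine add_le_add ?_ le_rfl
    exact Finset.single_le_sum (f := fun b => ∑ b', ∑ γ ∈ (G' b b').support, |coeff γ (G' b b')|)
      (fun b _ => Finset.sum_nonneg fun b' _ => Finset.sum_nonneg fun γ _ => abs_nonneg _) (Finset.mem_univ b)

end Pool.Agent.Lib.MP_bbe012_lc.XS
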