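import Mathlib

/-!
# Polynomially many digits: integer normal vectors of bounded size
-/

namespace Pool.Agent.Lib.MP_bbe012_lc.XS

attribute [local instance] Matrix.seminormedAddCommGroup

/-- Integer vectors of size at most `W` which are orthogonal to a rational vector `P₀ ≠ 0` are orthogonal to an integer vector `P ≠ 0` of size at most `(n W) ^ n` (Siegel's lemma). -/
theorem int_normal {S n : Type} [Fintype n] (v : S → n → ℤ) {W : ℕ} (hW : 1 ≤ W) (hv : ∀ z i, |v z i| ≤ (W : ℤ))
    {P₀ : n → ℚ} (h0 : ∃ i, P₀ i ≠ 0) (h : ∀ z, ∑ i, P₀ i * (v z i : ℚ) = 0) :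
    ∃ P : n → ℤ, (∃ i, P i ≠ 0) ∧ (∀ i, |P i| ≤ (((Fintype.card n * W) ^ Fintype.card n : ℕ) : ℤ)) ∧
      ∀ z, ∑ i, P i * v z i = 0 := by
  classical
  obtain ⟨i₀, hi₀⟩ := h0
  obtain ⟨N, hN⟩ : ∃ N, N = Fintype.card n := ⟨_, rfl⟩
  have hN1 : 1 ≤ N := by
    rw [hN]
    exact Fintype.card_pos_iff.2 ⟨i₀⟩
  obtain ⟨sp, hsp⟩ : ∃ sp : Submodule ℚ (n → ℚ), sp = Submodule.span ℚ (Set.range fun z => (fun i => (v z i : ℚ))) :=
    ⟨_, rfl⟩
  let L : (n → ℚ) →ₗ[ℚ] ℚ :=
    { toFun := fun x => ∑ j, P₀ j * x j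
      map_add' := by
        intro x y
        rw [← Finset.sum_add_distrib]
        refine Finset.sum_congr rfl fun j _ => ?_
        rw [Pi.add_apply, mul_add]
      map_smul' := by
        intro c x
        rw [RingHom.id_apply, smul_eq_mul, Finset.mul_sum]
        refine Finset.sum_congr rfl fun j _ => ?_
        rw [Pi.smul_apply, smul_eq_mul]
        ring }
  have hspL : sp ≤ LinearMap.ker L := by
    rw [hsp]
    refine Submodule.span_le.2 ?_
    rintro _ ⟨z, rfl⟩
    exact h z
  have hsplt : sp < ⊤ := by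
    refine lt_top_iff_ne_top.2 fun hT => hi₀ ?_
    have h1 : (Pi.single i₀ (1 : ℚ) : n → ℚ) ∈ LinearMap.ker L := hspL (hT ▸ Submodule.mem_top)
    have h2 : ∑ j, P₀ j * (Pi.single i₀ (1 : ℚ) : n → ℚ) j = 0 := h1
    rw [Finset.sum_eq_single i₀ (fun j _ hj => by rw [Pi.single_eq_of_ne hj, mul_zero])
      (fun hj => absurd (Finset.mem_univ _) hj), Pi.single_eq_same, mul_one] at h2
    exact h2
  have hfr : Module.finrank ℚ sp < N := by
    have h1 := Submodule.finrank_lt hsplt.ne
    rw [Module.finrank_fintype_fun_eq_card] at h1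
    rw [hN]
    exact h1
  have hex : ∃ (ρ : ℕ) (z : Fin ρ → S), ρ = Module.finrank ℚ sp ∧
      Submodule.span ℚ (Set.range fun i => (fun j => (v (z i) j : ℚ))) = sp := by
    obtain ⟨f, hf1, hf2, -⟩ := Submodule.exists_fun_fin_finrank_span_eq ℚ (Set.range fun z => (fun i => (v z i : ℚ)))
    have hf1' : ∀ i, ∃ z, (fun j => (v z j : ℚ)) = f i := fun i => hf1 i
    choose z hz using hf1'
    refine ⟨_, z, by rw [hsp], ?_⟩
    rw [funext hz, hf2, hsp]
  obtain ⟨ρ, z, hρ, hf2⟩ := hex
  have hρN : ρ < N := by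
    rw [hρ]
    exact hfr
  -- orthogonality to the chosen vectors is enough
  have key : ∀ P : n → ℤ, (∀ i, ∑ j, P j * v (z i) j = 0) → ∀ y, ∑ j, P j * v y j = 0 := by
    intro P hP y
    let L' : (n → ℚ) →ₗ[ℚ] ℚ :=
      { toFun := fun x => ∑ j, (P j : ℚ) * x j
        map_add' := by
          intro x y
          rw [← Finset.sum_add_distrib]
          refine Finset.sum_congr rfl fun j _ => ?_
          rw [Pi.add_apply, mul_add]
        map_smul' := by
          intro c x
          rw [RingHom.id_apply, smul_eq_mul, Finset.mul_sum]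
          refine Finset.sum_congr rfl fun j _ => ?_
          rw [Pi.smul_apply, smul_eq_mul]
          ring }
    have h1 : sp ≤ LinearMap.ker L' := by
      rw [← hf2]
      refine Submodule.span_le.2 ?_
      rintro _ ⟨i, rfl⟩
      show ∑ j, (P j : ℚ) * (v (z i) j : ℚ) = 0
      have h2 := hP i
      exact_mod_cast h2
    have h3 : (fun j => (v y j : ℚ)) ∈ LinearMap.ker L' := by
      apply h1
      rw [hsp]
      exact Submodule.subset_span ⟨y, rfl⟩
    have h4 : ∑ j, (P j : ℚ) * (v y j : ℚ) = 0 := h3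
    exact_mod_cast h4
  rcases Nat.eq_zero_or_pos ρ with h00 | hpos
  · refine ⟨Pi.single i₀ 1, ⟨i₀, ?_⟩, ?_, ?_⟩
    · rw [Pi.single_eq_same]
      exact one_ne_zero
    · intro i
      have h1 : 1 ≤ (Fintype.card n * W) ^ Fintype.card n := by
        refine Nat.one_le_pow _ _ (Nat.mul_pos ?_ hW)
        rw [← hN]
        exact hN1
      have h2 : (1 : ℤ) ≤ (((Fintype.card n * W) ^ Fintype.card n : ℕ) : ℤ) := by exact_mod_cast h1
      refine le_trans ?_ h2
      by_cases hi : i = i₀
      · rw [hi, Pi.single_eq_same, abs_one]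
      · rw [Pi.single_eq_of_ne hi, abs_zero]
        exact zero_le_one
    · refine key _ fun i => ?_
      have h1 : (i : ℕ) < 0 := lt_of_lt_of_eq i.2 h00
      exact absurd h1 (Nat.not_lt_zero _)
  · obtain ⟨t, ht0, hAt, hnt⟩ := Int.Matrix.exists_ne_zero_int_vec_norm_le
      (Matrix.of fun (i : Fin ρ) (j : n) => v (z i) j)
      (by
        rw [Fintype.card_fin, ← hN]
        exact hρN)
      (by
        rw [Fintype.card_fin]
        exact hpos)
    refine ⟨t, ?_, ?_, ?_⟩
    · by_contra hcon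
      push Not at hcon
      exact ht0 (funext hcon)
    · rw [Fintype.card_fin] at hnt
      have hWr : (1 : ℝ) ≤ (W : ℝ) := by exact_mod_cast hW
      have hNr : (1 : ℝ) ≤ (N : ℝ) := by exact_mod_cast hN1
      have hA : ‖(Matrix.of fun (i : Fin ρ) (j : n) => v (z i) j)‖ ≤ (W : ℝ) := by
        rw [Matrix.norm_le_iff (by linarith)]
        intro i j
        rw [Matrix.of_apply, Int.norm_eq_abs]
        have h1 := hv (z i) j
        have h2 : ((|v (z i) j| : ℤ) : ℝ) ≤ ((W : ℤ) : ℝ) := by exact_mod_cast h1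
        rw [Int.cast_abs] at h2
        simpa using h2
      have hbase : (Fintype.card n : ℝ) * max 1 ‖(Matrix.of fun (i : Fin ρ) (j : n) => v (z i) j)‖ ≤ N * W := by
        rw [← hN]
        exact mul_le_mul_of_nonneg_left (max_le hWr hA) (by linarith)
      have hbase1 : (1 : ℝ) ≤ (Fintype.card n : ℝ) * max 1 ‖(Matrix.of fun (i : Fin ρ) (j : n) => v (z i) j)‖ := by
        rw [← hN]
        calc (1 : ℝ) = 1 * 1 := by norm_num
          _ ≤ N * max 1 _ := mul_le_mul hNr (le_max_left _ _) zero_le_one (by linarith)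
      have hexp : ((ρ : ℝ) / ((Fintype.card n : ℝ) - ρ)) ≤ (N : ℝ) := by
        rw [← hN]
        have h1 : (ρ : ℝ) + 1 ≤ N := by exact_mod_cast hρN
        have h2 : (1 : ℝ) ≤ (N : ℝ) - ρ := by linarith
        rw [div_le_iff₀ (by linarith)]
        nlinarith
      have hfin : ‖t‖ ≤ (((N * W) ^ N : ℕ) : ℝ) := by
        refine hnt.trans ?_
        refine (Real.rpow_le_rpow_of_exponent_le hbase1 hexp).trans ?_
        rw [Real.rpow_natCast]
        refine (pow_le_pow_left₀ (by linarith) hbase N).trans (le_of_eq ?_)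
        push_cast
        rfl
      intro i
      have h1 : ‖t i‖ ≤ ‖t‖ := norm_le_pi_norm t i
      rw [Int.norm_eq_abs] at h1
      have h2 : ((|t i| : ℤ) : ℝ) ≤ (((N * W) ^ N : ℕ) : ℝ) := by
        rw [Int.cast_abs]
        exact h1.trans hfin
      rw [← hN]
      exact_mod_cast h2
    · refine key t fun i => ?_
      have h1 := congrFun hAt i
      rw [Matrix.mulVec, dotProduct] at h1
      have h2 : ∑ j, v (z i) j * t j = 0 := h1
      rw [← h2]
      exact Finset.sum_congr rfl fun j _ => mul_comm _ _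

end Pool.Agent.Lib.MP_bbe012_lc.XS
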