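import Pool.Agent.Lib.MP_bbe012_lc.XS.R1
import Pool.Agent.Lib.MP_bbe012_lc.XS.R2
import Pool.Agent.Lib.MP_bbe012_lc.XS.R3
import Pool.Agent.Lib.MP_bbe012_lc.PM.Ct1

/-!
# Polynomially many digits: the auxiliary vector of polynomials
-/

namespace Pool.Agent.Lib.MP_bbe012_lc.XS

open Finset PG PM

/-- The exponent in the bound for the auxiliary vector. -/
def lamR (s q L h : ℕ) : ℕ := ((2 * h + 1) ^ s * q) * ((2 * h + 1) ^ s * q + (2 * h * s + L))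

/-- the cleared vector -/
private def R4_vec {s q : ℕ} (h : ℕ) (cf : (Fin s → ℚ) → Fin q → ℤ) (σ : Fin s → ℚ)
    (ja : Fin q × (Fin s → Fin (2 * h + 1))) : ℤ :=
  (∏ l, (σ l).num ^ (ja.2 l : ℕ) * ((σ l).den : ℤ) ^ (2 * h - (ja.2 l : ℕ))) * cf σ ja.1

private theorem R4_vec_eq {s q : ℕ} (h : ℕ) (cf : (Fin s → ℚ) → Fin q → ℤ) (σ : Fin s → ℚ)
    (ja : Fin q × (Fin s → Fin (2 * h + 1))) : (R4_vec h cf σ ja : ℚ) =
      (∏ l, ((σ l).den : ℚ) ^ (2 * h)) * ((∏ l, σ l ^ (ja.2 l : ℕ)) * (cf σ ja.1 : ℚ)) := by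
  unfold R4_vec
  push_cast
  rw [← mul_assoc, ← Finset.prod_mul_distrib]
  congr 1
  refine Finset.prod_congr rfl fun l _ => ?_
  have h1 : (ja.2 l : ℕ) ≤ 2 * h := Nat.le_of_lt_succ (ja.2 l).2
  have h3 : ((σ l).den : ℚ) * σ l = (σ l).num := Rat.den_mul_eq_num _
  have h4 : ((σ l).den : ℚ) ^ (2 * h) = ((σ l).den : ℚ) ^ (2 * h - (ja.2 l : ℕ)) * ((σ l).den : ℚ) ^ (ja.2 l : ℕ) := by
    rw [← pow_add]
    congr 1
    omega
  rw [h4, mul_assoc, ← mul_pow, h3]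
  ring

private theorem R4_vec_le {s q : ℕ} (h : ℕ) (cf : (Fin s → ℚ) → Fin q → ℤ) {T L : ℕ} {σ : Fin s → ℚ}
    (hσ : ∀ i, HLE T (σ i)) (hcf : ∀ j, |cf σ j| ≤ (T : ℤ) ^ L) (ja : Fin q × (Fin s → Fin (2 * h + 1))) :
    |R4_vec h cf σ ja| ≤ ((T ^ (2 * h * s + L) : ℕ) : ℤ) := by
  unfold R4_vec
  rw [abs_mul, Finset.abs_prod]
  have h1 : ∏ l, |(σ l).num ^ (ja.2 l : ℕ) * ((σ l).den : ℤ) ^ (2 * h - (ja.2 l : ℕ))| ≤ ∏ _l : Fin s, (T : ℤ) ^ (2 * h) := by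
    refine Finset.prod_le_prod (fun l _ => abs_nonneg _) fun l _ => ?_
    rw [abs_mul, abs_pow, abs_pow]
    have h2 : (ja.2 l : ℕ) ≤ 2 * h := Nat.le_of_lt_succ (ja.2 l).2
    have h3 : |(σ l).num| ≤ (T : ℤ) := by
      rw [Int.abs_eq_natAbs]
      exact_mod_cast (hσ l).1
    have h4 : |((σ l).den : ℤ)| ≤ (T : ℤ) := by
      rw [Nat.abs_cast]
      exact_mod_cast (hσ l).2
    calc |(σ l).num| ^ (ja.2 l : ℕ) * |((σ l).den : ℤ)| ^ (2 * h - (ja.2 l : ℕ))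
        ≤ (T : ℤ) ^ (ja.2 l : ℕ) * (T : ℤ) ^ (2 * h - (ja.2 l : ℕ)) :=
          mul_le_mul (pow_le_pow_left₀ (abs_nonneg _) h3 _) (pow_le_pow_left₀ (abs_nonneg _) h4 _)
            (pow_nonneg (abs_nonneg _) _) (pow_nonneg (Nat.cast_nonneg _) _)
      _ = (T : ℤ) ^ (2 * h) := by
          rw [← pow_add]
          congr 1
          omega
  rw [Finset.prod_const, Finset.card_univ, Fintype.card_fin, ← pow_mul] at h1
  calc (∏ l, |(σ l).num ^ (ja.2 l : ℕ) * ((σ l).den : ℤ) ^ (2 * h - (ja.2 l : ℕ))|) * |cf σ ja.1|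
      ≤ (T : ℤ) ^ (2 * h * s) * (T : ℤ) ^ L :=
        mul_le_mul h1 (hcf _) (abs_nonneg _) (pow_nonneg (Nat.cast_nonneg _) _)
    _ = ((T ^ (2 * h * s + L) : ℕ) : ℤ) := by
        push_cast
        rw [pow_add]

theorem stageR {s q M : ℕ} (hs : 0 < s) (hq : 0 < q) (hM : 2 ^ (s + 3) * s * q ≤ M) {r : ℝ} (hr : 0 < r) :
    ∃ T₀ : ℕ, 2 ≤ T₀ ∧ ∀ T : ℕ, T₀ ≤ T → ∀ m L h : ℕ, 2 ^ (s + 1) * q * L + 4 * m + 1 ≤ h →
      ∀ B : ℝ, 0 ≤ B → B ≤ (T : ℝ) ^ m → ∀ (θ₀ θ₁ : Fin s → ℝ) (G : Fin q → (Fin s → ℝ) → ℝ)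
      (ν : Fin q → (Fin s → ℕ) → ℝ), (∀ i, |θ₁ i - θ₀ i| ≤ ell M T) → (∀ j, Exp r B θ₁ (G j) (ν j)) →
      (∃ j, ((T : ℝ) ^ m)⁻¹ ≤ |ν j 0|) → ∀ (Z : Set (Fin s → ℚ)) (cf : (Fin s → ℚ) → Fin q → ℤ),
        (∀ σ ∈ Z, (∀ i, HLE T (σ i)) ∧ (∀ i, |(σ i : ℝ) - θ₀ i| ≤ ell M T) ∧ (∀ j, |cf σ j| ≤ (T : ℤ) ^ L) ∧
          |∑ j, (cf σ j : ℝ) * G j (fun i => (σ i : ℝ))| ≤ ((T : ℝ) ^ (h + 1))⁻¹) →
        ∃ P : Fin q → (Fin s → Fin (2 * h + 1)) → ℤ, (∃ j a, P j a ≠ 0) ∧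
          (∀ j a, |P j a| ≤ ((T ^ lamR s q L h : ℕ) : ℤ)) ∧
          ∀ σ ∈ Z, ∑ j, (∑ a, (P j a : ℚ) * ∏ l, σ l ^ (a l : ℕ)) * (cf σ j : ℚ) = 0 := by
  classical
  have hMpos : 1 ≤ M := le_trans (Nat.mul_pos (Nat.mul_pos (by positivity) hs) hq) hM
  have instS : Nonempty (Fin s) := Fin.pos_iff_nonempty.1 hs
  have instQ : Nonempty (Fin q) := Fin.pos_iff_nonempty.1 hq
  obtain ⟨T₀, hT₀, hA⟩ := arithR hs hq hM hr
  refine ⟨T₀, hT₀, fun T hT m L h hh B hB hBT θ₀ θ₁ G ν hθ hE hν Z cf hZ => ?_⟩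
  have hT2 : 2 ≤ T := hT₀.trans hT
  have hT1 : 1 ≤ T := by omega
  have hTr : (1 : ℝ) ≤ T := by exact_mod_cast hT1
  have hT0 : (0 : ℝ) < T := lt_of_lt_of_le one_pos hTr
  obtain ⟨hell0, -⟩ := ell_spec hMpos hT1
  obtain ⟨hℓr, harith⟩ := hA T hT
  have harith' := harith m L h hh B hB hBT ((T : ℝ) ^ (h + 1))⁻¹ (by positivity) le_rfl
  let v : Z → (Fin s → Fin (2 * h + 1)) × Fin q → ℝ := fun z aj =>
    (∏ l, ((z : Fin s → ℚ) l : ℝ) ^ (aj.1 l : ℕ)) * (cf z aj.2 : ℝ)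
  rcases exists_normal v with ⟨P, hP1, ⟨⟨a₀, j₀⟩, hP2⟩, hP3⟩ | ⟨f, hf⟩
  · obtain ⟨Q, hQ1, ⟨⟨j₁, a₁⟩, hQ2⟩, hQ3⟩ := rat_normal (S := Z) (n := Fin q × (Fin s → Fin (2 * h + 1)))
      (fun σ ja => (∏ l, (σ : Fin s → ℚ) l ^ (ja.2 l : ℕ)) * (cf σ ja.1 : ℚ)) (fun ja => P (ja.2, ja.1))
      ⟨(j₀, a₀), fun h0 => by
        have h1 : P (a₀, j₀) = 0 := h0
        rw [h1, abs_zero] at hP2
        exact zero_ne_one hP2⟩
      (fun σ => by
        have h1 := hP3 σ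
        rw [Fintype.sum_prod_type, Finset.sum_comm] at h1
        rw [Fintype.sum_prod_type, ← h1]
        refine Finset.sum_congr rfl fun j _ => ?_
        refine Finset.sum_congr rfl fun a _ => ?_
        simp only [v]
        push_cast
        ring)
    obtain ⟨R, ⟨⟨j₂, a₂⟩, hR1⟩, hR2, hR3⟩ := int_normal (S := Z) (n := Fin q × (Fin s → Fin (2 * h + 1)))
      (fun σ ja => R4_vec h cf σ ja) (W := T ^ (2 * h * s + L)) (Nat.one_le_pow _ _ (by omega))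
      (fun σ ja => R4_vec_le h cf (hZ _ σ.2).1 (hZ _ σ.2).2.2.1 ja) (P₀ := Q)
      ⟨(j₁, a₁), fun h0 => by
        rw [h0, abs_zero] at hQ2
        exact zero_ne_one hQ2⟩
      (fun σ => by
        have h1 := hQ3 σ
        have h2 : ∀ ja : Fin q × (Fin s → Fin (2 * h + 1)), Q ja * (R4_vec h cf σ ja : ℚ) =
            (∏ l, (((σ : Fin s → ℚ) l).den : ℚ) ^ (2 * h)) *
              (Q ja * ((∏ l, (σ : Fin s → ℚ) l ^ (ja.2 l : ℕ)) * (cf σ ja.1 : ℚ))) := by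
          intro ja
          rw [R4_vec_eq]
          ring
        rw [Finset.sum_congr rfl fun ja _ => h2 ja, ← Finset.mul_sum, h1, mul_zero])
    refine ⟨fun j a => R (j, a), ⟨j₂, a₂, hR1⟩, fun j a => (hR2 (j, a)).trans ?_, fun σ hσ => ?_⟩
    · have hcard : Fintype.card (Fin q × (Fin s → Fin (2 * h + 1))) = (2 * h + 1) ^ s * q := by
        rw [Fintype.card_prod, Fintype.card_fun, Fintype.card_fin, Fintype.card_fin, Fintype.card_fin, mul_comm]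
      rw [hcard]
      have h1 : ((2 * h + 1) ^ s * q * T ^ (2 * h * s + L)) ^ ((2 * h + 1) ^ s * q) ≤ T ^ lamR s q L h := by
        calc ((2 * h + 1) ^ s * q * T ^ (2 * h * s + L)) ^ ((2 * h + 1) ^ s * q)
            ≤ (T ^ ((2 * h + 1) ^ s * q) * T ^ (2 * h * s + L)) ^ ((2 * h + 1) ^ s * q) := by
              refine Nat.pow_le_pow_left (Nat.mul_le_mul_right _ ?_) _
              exact le_trans (le_of_lt Nat.lt_two_pow_self) (Nat.pow_le_pow_left hT2 _)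
          _ = T ^ lamR s q L h := by
              rw [← pow_add, ← pow_mul, lamR, mul_comm]
      exact_mod_cast h1
    · have h1 := hR3 ⟨σ, hσ⟩
      have hden : (∏ l, ((σ l).den : ℚ) ^ (2 * h)) ≠ 0 := by
        refine Finset.prod_ne_zero_iff.2 fun l _ => pow_ne_zero _ ?_
        exact_mod_cast (σ l).den_ne_zero
      have h2 : (∏ l, ((σ l).den : ℚ) ^ (2 * h)) *
          ∑ j, (∑ a, (R (j, a) : ℚ) * ∏ l, σ l ^ (a l : ℕ)) * (cf σ j : ℚ) = 0 := by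
        have h3 : ((∑ ja, R ja * R4_vec h cf σ ja : ℤ) : ℚ) = 0 := by
          exact_mod_cast h1
        rw [← h3]
        push_cast
        rw [Fintype.sum_prod_type, Finset.mul_sum]
        refine Finset.sum_congr rfl fun j _ => ?_
        rw [Finset.sum_mul, Finset.mul_sum]
        refine Finset.sum_congr rfl fun a _ => ?_
        rw [R4_vec_eq]
        ring
      exact (mul_eq_zero.1 h2).resolve_left hden
  · exfalso
    -- the rational matrix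
    let Mq : Matrix ((Fin s → Fin (2 * h + 1)) × Fin q) ((Fin s → Fin (2 * h + 1)) × Fin q) ℚ :=
      Matrix.of fun i aj => (∏ l, (f i : Fin s → ℚ) l ^ (aj.1 l : ℕ)) * (cf (f i) aj.2 : ℚ)
    have hcast : ((Mq.det : ℚ) : ℝ) = (Matrix.of fun i => v (f i)).det := by
      have h1 := (Rat.castHom ℝ).map_det Mq
      have h2 : (Rat.castHom ℝ) Mq.det = ((Mq.det : ℚ) : ℝ) := rfl
      rw [← h2, h1]
      congr 1
      ext i aj
      simp only [RingHom.mapMatrix_apply, Matrix.map_apply, Matrix.of_apply, Mq, v, map_mul, map_prod,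
        map_pow, eq_ratCast, map_intCast]
    have hdq : Mq.det ≠ 0 := by
      intro h0
      apply hf
      rw [← hcast, h0, Rat.cast_zero]
    have hlow := det_lower Mq (fun i => ∏ l, ((f i : Fin s → ℚ) l).den ^ (2 * h)) (T ^ (2 * h * s))
      (by
        intro i
        constructor
        · exact Finset.prod_pos fun l _ => pow_pos ((f i : Fin s → ℚ) l).den_pos _
        · calc ∏ l, ((f i : Fin s → ℚ) l).den ^ (2 * h) ≤ ∏ _l : Fin s, T ^ (2 * h) :=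
                Finset.prod_le_prod' fun l _ =>
                  Nat.pow_le_pow_left ((hZ _ (f i).2).1 l).2 _
            _ = T ^ (2 * h * s) := by
                rw [Finset.prod_const, Finset.card_univ, Fintype.card_fin, ← pow_mul])
      (by
        intro i aj
        refine ⟨R4_vec h cf (f i) (aj.2, aj.1), ?_⟩
        rw [R4_vec_eq]
        simp only [Mq, Matrix.of_apply]
        push_cast
        ring)
      hdq
    have hlow' : 1 ≤ |(Matrix.of fun i => v (f i)).det| *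
        ((T : ℝ) ^ (2 * h * s)) ^ Fintype.card ((Fin s → Fin (2 * h + 1)) × Fin q) := by
      have h1 : ((1 : ℚ) : ℝ) ≤ ((|Mq.det| * ((T ^ (2 * h * s) : ℕ) : ℚ) ^
          Fintype.card ((Fin s → Fin (2 * h + 1)) × Fin q) : ℚ) : ℝ) := by exact_mod_cast hlow
      rw [← hcast]
      push_cast at h1 ⊢
      exact h1
    have hupp := det_upperR h hr hB hE (μ := ((T : ℝ) ^ m)⁻¹) (by positivity) hν (ℓ := 2 * ell M T)
      (by positivity) hℓr (fun i l => ((f i : Fin s → ℚ) l : ℝ))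
      (fun i j => (cf (f i) j : ℝ)) (X := (T : ℝ) ^ L) (δ := ((T : ℝ) ^ (h + 1))⁻¹) (by positivity) (by positivity)
      (fun i l => by
        have h1 := (hZ _ (f i).2).2.1 l
        have h2 := hθ l
        rw [abs_sub_comm] at h2
        calc |((f i : Fin s → ℚ) l : ℝ) - θ₁ l| =
              |(((f i : Fin s → ℚ) l : ℝ) - θ₀ l) + (θ₀ l - θ₁ l)| := by
              congr 1
              ring
          _ ≤ |((f i : Fin s → ℚ) l : ℝ) - θ₀ l| + |θ₀ l - θ₁ l| := abs_add_le _ _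
          _ ≤ 2 * ell M T := by linarith)
      (fun i j => by
        have h1 := (hZ _ (f i).2).2.2.1 j
        have h2 : ((|cf (f i) j| : ℤ) : ℝ) ≤ (((T : ℤ) ^ L : ℤ) : ℝ) := by exact_mod_cast h1
        push_cast at h2
        exact h2)
      (fun i => by
        refine ((hZ _ (f i).2).2.2.2).trans ?_
        exact le_mul_of_one_le_left (by positivity) (one_le_pow₀ hTr))
    have hmat : rowMat (2 * h) (fun i l => ((f i : Fin s → ℚ) l : ℝ)) (fun i j => (cf (f i) j : ℝ)) =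
        Matrix.of fun i => v (f i) := by
      ext i aj
      simp only [rowMat, Matrix.of_apply, v]
    rw [hmat] at hupp
    have hcard : Fintype.card ((Fin s → Fin (2 * h + 1)) × Fin q) = (2 * h + 1) ^ s * q := by
      rw [Fintype.card_prod, Fintype.card_fun, Fintype.card_fin, Fintype.card_fin, Fintype.card_fin]
    have hdeg : ∑ a : Fin s → Fin (2 * h + 1), ∑ l, (a l : ℕ) = s * h * (2 * h + 1) ^ s := by
      have h1 := two_mul_sum_deg (ι := Fin s) (2 * h)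
      rw [Fintype.card_fin] at h1
      have h2 : 2 * ∑ a : Fin s → Fin (2 * h + 1), ∑ l, (a l : ℕ) = 2 * (s * h * (2 * h + 1) ^ s) := by
        rw [h1]
        ring
      omega
    rw [hdeg, hcard, Fintype.card_fin, Fintype.card_fin] at hupp
    rw [hcard] at hlow'
    have hμ0 : (0 : ℝ) ≤ (((T : ℝ) ^ m)⁻¹) ^ (h + 1) ^ s := by positivity
    have hTQ : (0 : ℝ) ≤ ((T : ℝ) ^ (2 * h * s)) ^ ((2 * h + 1) ^ s * q) := by positivity
    have h1 := mul_le_mul_of_nonneg_right hlow' hμ0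
    have h2 := mul_le_mul_of_nonneg_right hupp hTQ
    have h3 : |(Matrix.of fun i => v (f i)).det| * ((T : ℝ) ^ (2 * h * s)) ^ ((2 * h + 1) ^ s * q) *
        (((T : ℝ) ^ m)⁻¹) ^ (h + 1) ^ s = |(Matrix.of fun i => v (f i)).det| * (((T : ℝ) ^ m)⁻¹) ^ (h + 1) ^ s *
        ((T : ℝ) ^ (2 * h * s)) ^ ((2 * h + 1) ^ s * q) := by ring
    rw [one_mul, h3] at h1
    exact absurd ((h1.trans h2).trans_lt harith') (lt_irrefl _)

end Pool.Agent.Lib.MP_bbe012_lc.XS
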