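import Pool.Agent.Lib.MP_bbe012_lc.PG.A12

/-!
# Polynomially many digits: polynomials with integer coefficients
-/

namespace Pool.Agent.Lib.MP_bbe012_lc.XS

open Finset MvPolynomial PG

/-- The polynomial with the coefficients `p a`. -/
noncomputable def mkZ {s n : ℕ} (p : (Fin s → Fin (n + 1)) → ℤ) : MvPolynomial (Fin s) ℤ :=
  ∑ a, monomial (Finsupp.equivFunOnFinite.symm (fun i => (a i : ℕ))) (p a)

theorem mkZ_coeff {s n : ℕ} (p : (Fin s → Fin (n + 1)) → ℤ) (a : Fin s → Fin (n + 1)) :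
    coeff (Finsupp.equivFunOnFinite.symm (fun i => (a i : ℕ))) (mkZ p) = p a := by
  classical
  rw [mkZ, coeff_sum, Finset.sum_eq_single a]
  · rw [coeff_monomial, if_pos rfl]
  · intro a' _ ha'
    rw [coeff_monomial, if_neg]
    intro h
    exact ha' (toF_inj h)
  · intro h
    exact absurd (Finset.mem_univ a) h

theorem mkZ_deg {s n : ℕ} (p : (Fin s → Fin (n + 1)) → ℤ) (l : Fin s) : (mkZ p).degreeOf l ≤ n := by
  classical
  rw [mkZ]
  refine (degreeOf_sum_le l _ _).trans ?_
  refine Finset.sup_le fun a _ => ?_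
  refine degreeOf_le_iff.2 fun m hm => ?_
  have h1 := support_monomial_subset hm
  rw [Finset.mem_singleton] at h1
  rw [h1]
  exact Nat.le_of_lt_succ (a l).2

theorem mkZ_aeval {s n : ℕ} {R : Type} [CommRing R] (p : (Fin s → Fin (n + 1)) → ℤ) (θ : Fin s → R) :
    aeval θ (mkZ p) = ∑ a, (p a : R) * ∏ l, θ l ^ (a l : ℕ) := by
  classical
  rw [mkZ, map_sum]
  refine Finset.sum_congr rfl fun a _ => ?_
  rw [aeval_monomial, Finsupp.prod_fintype _ _ (fun i => pow_zero _)]
  rfl

/-- The value at a rational point, as a real number. -/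
theorem aevalZ_cast {s : ℕ} (p : MvPolynomial (Fin s) ℤ) (σ : Fin s → ℚ) :
    (aeval (fun i => (σ i : ℝ)) p : ℝ) = ((aeval σ p : ℚ) : ℝ) := by
  induction p using MvPolynomial.induction_on with
  | C a => simp
  | add p q hp hq => rw [map_add, map_add, hp, hq, Rat.cast_add]
  | mul_X p i hp => rw [map_mul, map_mul, hp, aeval_X, aeval_X, Rat.cast_mul]

/-- Zeros of a polynomial with integer coefficients. -/
theorem evalZ_map {s : ℕ} (p : MvPolynomial (Fin s) ℤ) (σ : Fin s → ℚ) :
    eval σ (map (Int.castRingHom ℚ) p) = aeval σ p := by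
  rw [eval_map, aeval_def]
  rfl

theorem degZ_map {s : ℕ} (p : MvPolynomial (Fin s) ℤ) (l : Fin s) :
    (map (Int.castRingHom ℚ) p).degreeOf l ≤ p.degreeOf l := by
  refine degreeOf_le_iff.2 fun m hm => ?_
  exact degreeOf_le_iff.1 le_rfl m (support_map_subset _ _ hm)

theorem mapZ_ne {s : ℕ} {p : MvPolynomial (Fin s) ℤ} (h : p ≠ 0) : map (Int.castRingHom ℚ) p ≠ 0 := by
  intro h0
  apply h
  have h1 : Function.Injective (Int.castRingHom ℚ) := Int.cast_injective
  exact map_injective _ h1 (by rw [h0, map_zero])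

end Pool.Agent.Lib.MP_bbe012_lc.XS
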