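import Pool.Agent.Lib.MP_bbe012_lc.XS.R0
import Pool.Agent.Lib.MP_bbe012_lc.XS.R4
import Pool.Agent.Lib.MP_bbe012_lc.XS.R5
import Pool.Agent.Lib.MP_bbe012_lc.XS.B5

/-!
# Polynomially many digits: the induction on the number of functions

As `claimE` (B6.lean), but the relations are only small: `|∑ cf_j N_j(σ)| ≤ T ^ (- κ (D + L + 1) ^ b)`.  The polynomials are integral with bounded coefficients, so that the small number stays small under the elimination.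
-/

namespace Pool.Agent.Lib.MP_bbe012_lc.XS

open MvPolynomial Set PG PM

/-- The exponent of `D + L + 1` for `q` functions; it depends only on `a`, `s` and `q`, not on the compact set. -/
def bR (a s : ℕ) : ℕ → ℕ
  | 0 => 0
  | q + 1 => (a + 1) * (bR a s q + (2 * s + 1))

private theorem R6_ne {s r q : ℕ} (hq : 0 < q) {Ω : Set (Fin s → ℝ)} {V : Fin r → (Fin s → ℝ) → ℝ}
    {y : Fin q → Fin r → MvPolynomial (Fin s) ℤ}
    (hI : ∀ P : Fin q → MvPolynomial (Fin s) ℤ,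
      (∀ θ ∈ Ω, ∑ j, aeval θ (P j) * ∑ i, aeval θ (y j i) * V i θ = 0) → ∀ j, P j = 0) :
    ∃ j i, y j i ≠ 0 := by
  classical
  by_contra hcon
  push Not at hcon
  have h1 := hI (fun _ => 1) (by
    intro θ hθ
    refine Finset.sum_eq_zero fun j _ => ?_
    rw [Finset.sum_eq_zero (fun i _ => by rw [hcon j i, map_zero, zero_mul]), mul_zero]) ⟨0, hq⟩
  exact one_ne_zero h1

private theorem R6_eval {s : ℕ} (σ : Fin s → ℚ) (p : MvPolynomial (Fin s) ℤ)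
    (h : aeval (fun i => (σ i : ℝ)) p = 0) : eval σ (map (Int.castRingHom ℚ) p) = 0 := by
  rw [evalZ_map]
  rw [aevalZ_cast] at h
  exact_mod_cast h

private theorem R6_h {s q L C D a : ℕ} : 2 ^ (s + 1) * q * L + 4 * (C * (D + 1) ^ (a + 1)) + 1 ≤
    (2 ^ (s + 1) * q + 4 * C + 1) * (D + L + 1) ^ (a + 1) := by
  have h0 : D + L + 1 ≤ (D + L + 1) ^ (a + 1) := Nat.le_self_pow (by omega) _
  have h1 : L ≤ (D + L + 1) ^ (a + 1) := le_trans (by omega) h0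
  have h2 : (D + 1) ^ (a + 1) ≤ (D + L + 1) ^ (a + 1) := Nat.pow_le_pow_left (by omega) _
  have h3 : 1 ≤ (D + L + 1) ^ (a + 1) := le_trans (by omega) h0
  calc 2 ^ (s + 1) * q * L + 4 * (C * (D + 1) ^ (a + 1)) + 1
      ≤ 2 ^ (s + 1) * q * (D + L + 1) ^ (a + 1) + 4 * (C * (D + L + 1) ^ (a + 1)) + (D + L + 1) ^ (a + 1) :=
        Nat.add_le_add (Nat.add_le_add (Nat.mul_le_mul_left _ h1) (Nat.mul_le_mul_left _ (Nat.mul_le_mul_left _ h2))) h3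
    _ = _ := by ring

private theorem R6_B {C D a T : ℕ} (hT : 2 ≤ T) : ((C : ℝ) ^ (D + 1)) ≤ (T : ℝ) ^ (C * (D + 1) ^ (a + 1)) := by
  have h1 : C ^ (D + 1) ≤ T ^ (C * (D + 1) ^ (a + 1)) := by
    calc C ^ (D + 1) ≤ (T ^ C) ^ (D + 1) := by
          refine Nat.pow_le_pow_left ?_ _
          exact le_trans (le_of_lt Nat.lt_two_pow_self) (Nat.pow_le_pow_left hT _)
      _ = T ^ (C * (D + 1)) := by rw [pow_mul]
      _ ≤ T ^ (C * (D + 1) ^ (a + 1)) :=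
          Nat.pow_le_pow_right (by omega) (Nat.mul_le_mul_left _ (Nat.le_self_pow (by omega) _))
  exact_mod_cast h1

private theorem R6_exp {C D a T : ℕ} (hT : 2 ≤ T) :
    ((T : ℝ) ^ (C * (D + 1) ^ (a + 1)))⁻¹ ≤ Real.exp (-((C : ℝ) * ((D : ℝ) + 1) ^ a * Real.log T)) := by
  have hT0 : (0 : ℝ) < T := by
    have : 0 < T := by omega
    exact_mod_cast this
  have h1 : Real.exp (-((C : ℝ) * ((D : ℝ) + 1) ^ a * Real.log T)) = ((T : ℝ) ^ (C * (D + 1) ^ a))⁻¹ := by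
    rw [Real.exp_neg]
    congr 1
    have h2 : (C : ℝ) * ((D : ℝ) + 1) ^ a * Real.log T = ((C * (D + 1) ^ a : ℕ) : ℝ) * Real.log T := by
      push_cast
      ring
    rw [h2, Real.exp_nat_mul, Real.exp_log hT0]
  rw [h1]
  have h3 : T ^ (C * (D + 1) ^ a) ≤ T ^ (C * (D + 1) ^ (a + 1)) :=
    Nat.pow_le_pow_right (by omega) (Nat.mul_le_mul_left _ (Nat.pow_le_pow_right (by omega) (by omega)))
  have h4 : (T : ℝ) ^ (C * (D + 1) ^ a) ≤ (T : ℝ) ^ (C * (D + 1) ^ (a + 1)) := by exact_mod_cast h3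
  exact inv_anti₀ (pow_pos hT0 _) h4

/-- `C ≤ T ^ C` -/
private theorem R6_C {C T : ℕ} (hT : 2 ≤ T) : (C : ℝ) ≤ (T : ℝ) ^ C := by
  have h1 : C ≤ T ^ C := le_trans (le_of_lt Nat.lt_two_pow_self) (Nat.pow_le_pow_left hT _)
  exact_mod_cast h1

/-- the size of the polynomial at a rational point -/
private theorem R6_val {s n T lam : ℕ} (hT : 2 ≤ T) {P : (Fin s → Fin (n + 1)) → ℤ}
    (hP : ∀ a, |P a| ≤ ((T ^ lam : ℕ) : ℤ)) {σ : Fin s → ℚ} (hσ : ∀ i, HLE T (σ i)) :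
    |aeval (fun i => (σ i : ℝ)) (mkZ P)| ≤ (T : ℝ) ^ ((n + 1) ^ s + lam + n * s) := by
  classical
  have hTr : (1 : ℝ) ≤ T := by
    have : 1 ≤ T := by omega
    exact_mod_cast this
  have hT0 : (0 : ℝ) ≤ T := le_trans zero_le_one hTr
  have hx : ∀ i, |((σ i : ℚ) : ℝ)| ≤ (T : ℝ) := by
    intro i
    have h1 : |σ i| ≤ (T : ℚ) := by
      have h2 : |σ i| = ((σ i).num.natAbs : ℚ) / (σ i).den := by
        have h3 : σ i = ((σ i).num : ℚ) / (σ i).den := (Rat.num_div_den (σ i)).symm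
        calc |σ i| = |((σ i).num : ℚ) / (σ i).den| := by rw [← h3]
          _ = _ := by
            rw [abs_div, Nat.abs_cast, ← Int.cast_abs, Int.abs_eq_natAbs, Int.cast_natCast]
      rw [h2, div_le_iff₀ (by exact_mod_cast (σ i).den_pos)]
      have h3 : ((σ i).num.natAbs : ℚ) ≤ T := by exact_mod_cast (hσ i).1
      have h4 : (1 : ℚ) ≤ (σ i).den := by exact_mod_cast (σ i).den_pos
      have h5 : (0 : ℚ) ≤ T := Nat.cast_nonneg _
      nlinarith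
    have h2 : (|σ i| : ℚ) ≤ ((T : ℕ) : ℚ) := h1
    rw [← Rat.cast_abs]
    exact_mod_cast h2
  rw [mkZ_aeval]
  have hterm : ∀ a : Fin s → Fin (n + 1), |((P a : ℤ) : ℝ) * ∏ l, ((σ l : ℚ) : ℝ) ^ (a l : ℕ)| ≤
      (T : ℝ) ^ lam * (T : ℝ) ^ (n * s) := by
    intro a
    rw [abs_mul, Finset.abs_prod]
    refine mul_le_mul ?_ ?_ (Finset.prod_nonneg fun _ _ => abs_nonneg _) (pow_nonneg hT0 _)
    · have h1 : ((|P a| : ℤ) : ℝ) ≤ (((T ^ lam : ℕ) : ℤ) : ℝ) := by exact_mod_cast hP a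
      rw [Int.cast_abs] at h1
      refine h1.trans (le_of_eq ?_)
      push_cast
      rfl
    · calc ∏ l, |((σ l : ℚ) : ℝ) ^ (a l : ℕ)| ≤ ∏ _l : Fin s, (T : ℝ) ^ n := by
            refine Finset.prod_le_prod (fun _ _ => abs_nonneg _) fun l _ => ?_
            rw [abs_pow]
            exact (pow_le_pow_left₀ (abs_nonneg _) (hx l) _).trans
              (pow_le_pow_right₀ hTr (Nat.le_of_lt_succ (a l).2))
        _ = (T : ℝ) ^ (n * s) := by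
            rw [Finset.prod_const, Finset.card_univ, Fintype.card_fin, ← pow_mul]
  calc |∑ a, ((P a : ℤ) : ℝ) * ∏ l, ((σ l : ℚ) : ℝ) ^ (a l : ℕ)|
      ≤ ∑ a, |((P a : ℤ) : ℝ) * ∏ l, ((σ l : ℚ) : ℝ) ^ (a l : ℕ)| := Finset.abs_sum_le_sum_abs _ _
    _ ≤ ∑ _a : Fin s → Fin (n + 1), (T : ℝ) ^ lam * (T : ℝ) ^ (n * s) := Finset.sum_le_sum fun a _ => hterm a
    _ = (((n + 1) ^ s : ℕ) : ℝ) * ((T : ℝ) ^ lam * (T : ℝ) ^ (n * s)) := by
        rw [Finset.sum_const, Finset.card_univ, Fintype.card_fun, Fintype.card_fin, Fintype.card_fin, nsmul_eq_mul]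
    _ ≤ (T : ℝ) ^ ((n + 1) ^ s) * ((T : ℝ) ^ lam * (T : ℝ) ^ (n * s)) := by
        refine mul_le_mul_of_nonneg_right (R6_C hT) ?_
        positivity
    _ = _ := by
        rw [pow_add, pow_add]
        ring

/-- the exponent of the size -/
private theorem R6_lam {s q L h : ℕ} (hL : L ≤ h) :
    (2 * h + 1) ^ s + lamR s q L h + 2 * h * s ≤ (1 + q * (q + s + 1) + s) * (2 * h + 1) ^ (2 * s + 1) := by
  obtain ⟨Y, hY⟩ : ∃ Y, Y = 2 * h + 1 := ⟨_, rfl⟩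
  have hY1 : 1 ≤ Y := by omega
  have h1 : Y ^ s ≤ Y ^ (2 * s + 1) := Nat.pow_le_pow_right hY1 (by omega)
  have h2 : 2 * h * s ≤ s * Y ^ (2 * s + 1) := by
    calc 2 * h * s ≤ Y * s := Nat.mul_le_mul_right _ (by omega)
      _ = s * Y := mul_comm _ _
      _ ≤ s * Y ^ (2 * s + 1) := Nat.mul_le_mul_left _ (Nat.le_self_pow (by omega) _)
  have h3 : lamR s q L h ≤ q * (q + s + 1) * Y ^ (2 * s + 1) := by
    rw [lamR, ← hY]
    have h4 : Y ^ s * q + (2 * h * s + L) ≤ (q + s + 1) * Y ^ (s + 1) := by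
      have h5 : Y ^ s * q ≤ q * Y ^ (s + 1) := by
        rw [mul_comm]
        exact Nat.mul_le_mul_left _ (Nat.pow_le_pow_right hY1 (by omega))
      have h6 : 2 * h * s ≤ s * Y ^ (s + 1) := by
        calc 2 * h * s ≤ Y * s := Nat.mul_le_mul_right _ (by omega)
          _ = s * Y := mul_comm _ _
          _ ≤ s * Y ^ (s + 1) := Nat.mul_le_mul_left _ (Nat.le_self_pow (by omega) _)
      have h7 : L ≤ Y ^ (s + 1) := le_trans (by omega) (Nat.le_self_pow (by omega) Y)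
      calc Y ^ s * q + (2 * h * s + L) ≤ q * Y ^ (s + 1) + (s * Y ^ (s + 1) + Y ^ (s + 1)) :=
            Nat.add_le_add h5 (Nat.add_le_add h6 h7)
        _ = _ := by ring
    calc Y ^ s * q * (Y ^ s * q + (2 * h * s + L)) ≤ Y ^ s * q * ((q + s + 1) * Y ^ (s + 1)) :=
          Nat.mul_le_mul_left _ h4
      _ = q * (q + s + 1) * Y ^ (2 * s + 1) := by
          rw [show 2 * s + 1 = s + (s + 1) by ring, pow_add]
          ring
  rw [← hY]
  calc Y ^ s + lamR s q L h + 2 * h * s ≤ Y ^ (2 * s + 1) + q * (q + s + 1) * Y ^ (2 * s + 1) + s * Y ^ (2 * s + 1) :=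
        Nat.add_le_add (Nat.add_le_add h1 h3) h2
    _ = _ := by ring

private theorem R6_stage {s r : ℕ} (hs : 0 < s) {Ω S : Set (Fin s → ℝ)} (hSΩ : S ⊆ Ω) {V : Fin r → (Fin s → ℝ) → ℝ}
    {r₁ : ℝ} {C a : ℕ} (h0 : 0 < r₁) (hF : FamPtZ Ω S V r₁ C a) {M : ℕ}
    (hM : 2 ^ (s + 3) * s * r ≤ M) (hM1 : 1 ≤ M) {q : ℕ} (hq : 0 < q) (hqr : q ≤ r) :
    ∃ T₀ : ℕ, 2 ≤ T₀ ∧ ∀ T : ℕ, T₀ ≤ T → ∀ D L h E : ℕ, h = 2 ^ (s + 1) * q * L + 4 * (C * (D + 1) ^ (a + 1)) + 1 →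
      h + 1 + C ≤ E → ∀ θ₀ ∈ S,
      ∀ y : Fin q → Fin r → MvPolynomial (Fin s) ℤ, (∀ j i l, (y j i).degreeOf l ≤ D) → (∃ j i, y j i ≠ 0) →
      ∀ (Z : Finset (Fin s → ℚ)) (cf : (Fin s → ℚ) → Fin q → ℤ),
        (∀ σ ∈ Z, (∀ i, HLE T (σ i)) ∧ (∀ i, |(σ i : ℝ) - θ₀ i| ≤ ell M T) ∧ (fun i => (σ i : ℝ)) ∈ S ∧
          (∃ j, cf σ j ≠ 0) ∧ (∀ j, |cf σ j| ≤ (T : ℤ) ^ L) ∧
          |∑ j, (cf σ j : ℝ) * ∑ i, aeval (fun i => (σ i : ℝ)) (y j i) * V i (fun i => (σ i : ℝ))| ≤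
            ((T : ℝ) ^ E)⁻¹) →
        ∃ (p : Fin q → MvPolynomial (Fin s) ℤ) (j₁ : Fin q), p j₁ ≠ 0 ∧
          (∀ j l, (p j).degreeOf l ≤ 2 * h) ∧
          (∀ j, ∀ σ ∈ Z, |aeval (fun i => (σ i : ℝ)) (p j)| ≤ (T : ℝ) ^ ((2 * h + 1) ^ s + lamR s q L h + 2 * h * s)) ∧
          ∀ σ ∈ Z, ∑ j, (cf σ j : ℝ) * aeval (fun i => (σ i : ℝ)) (p j) = 0 := by
  classical
  have hM2 : 2 ^ (s + 3) * s * q ≤ M := (Nat.mul_le_mul_left _ hqr).trans hM
  obtain ⟨T₁, hT₁, HS⟩ := stageR hs hq hM2 h0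
  refine ⟨max T₁ (⌈1 / r₁⌉₊ + 1), le_trans hT₁ (le_max_left _ _), ?_⟩
  intro T hTT D L h E hh hE θ₀ hθ₀ y hdeg hne Z cf hZ
  have hTT1 : T₁ ≤ T := le_trans (le_max_left _ _) hTT
  have hT2 : 2 ≤ T := le_trans hT₁ hTT1
  have hT1 : 1 ≤ T := by omega
  have hTR0 : (0 : ℝ) < T := by exact_mod_cast hT1
  have hTR1 : (1 : ℝ) ≤ T := by exact_mod_cast hT1
  obtain ⟨hl0, hl1, hl2, hl3⟩ := ell_spec hM1 hT1
  have hr : ell M T ≤ r₁ := by
    refine le_trans hl1 ?_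
    rw [div_le_iff₀ hTR0]
    have h1 : 1 / r₁ ≤ (T : ℝ) := by
      refine le_trans (Nat.le_ceil _) ?_
      exact_mod_cast le_trans (Nat.le_succ _) (le_trans (le_max_right _ _) hTT)
    rw [div_le_iff₀ h0] at h1
    linarith
  have hl4 : 1 / (T : ℝ) ^ 2 ≤ ell M T := by
    rw [div_le_iff₀ (pow_pos hTR0 2), hl3]
    exact Real.one_le_rpow hTR1 (by positivity)
  obtain ⟨θ₁, w, G, ν, hθ₁, hEx, hG, hw, hν⟩ := hF D T hT2 (ell M T) hl4 hr θ₀ hθ₀ q y hdeg hne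
  obtain ⟨P, ⟨j₁, a₁, hP1⟩, hP2, hP3⟩ := HS T hTT1 (C * (D + 1) ^ (a + 1)) L h (le_of_eq hh.symm)
    ((C : ℝ) ^ (D + 1)) (by positivity) (R6_B hT2) θ₀ θ₁ G ν hθ₁ hEx (by
      obtain ⟨j, hj⟩ := hν
      exact ⟨j, le_trans (R6_exp hT2) hj⟩) (Z : Set (Fin s → ℚ)) cf (by
      intro σ hσ
      obtain ⟨h1, h2, h3, h4, h5, h6⟩ := hZ σ (by simpa using hσ)
      refine ⟨h1, h2, h5, ?_⟩
      have h7 : ∀ j, (cf σ j : ℝ) * G j (fun i => (σ i : ℝ)) =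
          w (fun i => (σ i : ℝ)) * ((cf σ j : ℝ) * ∑ i, aeval (fun i => (σ i : ℝ)) (y j i) * V i (fun i => (σ i : ℝ))) := by
        intro j
        rw [hG j _ (hSΩ h3)]
        ring
      rw [Finset.sum_congr rfl fun j _ => h7 j, ← Finset.mul_sum, abs_mul]
      calc |w (fun i => (σ i : ℝ))| * |∑ j, (cf σ j : ℝ) * ∑ i, aeval (fun i => (σ i : ℝ)) (y j i) * V i (fun i => (σ i : ℝ))|
          ≤ (T : ℝ) ^ C * ((T : ℝ) ^ E)⁻¹ :=
            mul_le_mul ((hw _ h3).trans (R6_C hT2)) h6 (abs_nonneg _) (by positivity)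
        _ ≤ ((T : ℝ) ^ (h + 1))⁻¹ := by
            rw [mul_inv_le_iff₀ (by positivity), ← div_eq_inv_mul, le_div_iff₀ (by positivity), ← pow_add]
            exact pow_le_pow_right₀ hTR1 (by omega))
  refine ⟨fun j => mkZ (P j), j₁, ?_, fun j l => mkZ_deg (P j) l, fun j σ hσ => R6_val hT2 (hP2 j) (hZ σ hσ).1, ?_⟩
  · intro hz
    have hz' : mkZ (P j₁) = 0 := hz
    have h1 := mkZ_coeff (P j₁) a₁
    rw [hz', coeff_zero] at h1
    exact hP1 h1.symm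
  · intro σ hσ
    have h1 := hP3 σ (by simpa using hσ)
    have h2 : ((∑ j, (∑ a, (P j a : ℚ) * ∏ l, σ l ^ (a l : ℕ)) * (cf σ j : ℚ) : ℚ) : ℝ) = 0 := by
      rw [h1]
      simp
    rw [← h2]
    push_cast
    refine Finset.sum_congr rfl fun j _ => ?_
    rw [mkZ_aeval, mul_comm]

/-- the zeros of one of the polynomials -/
private theorem R6_one {s : ℕ} (hs : 0 < s) {M T : ℕ} (hM : 1 ≤ M) (hT : 1 ≤ T) (θ₀ : Fin s → ℝ) {h H X : ℕ}
    (hhH : h ≤ H * X) {p : MvPolynomial (Fin s) ℤ} (hp : p ≠ 0)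
    (hdeg : ∀ l, p.degreeOf l ≤ 2 * h) (Z : Finset (Fin s → ℚ))
    (hZ : ∀ σ ∈ Z, (∀ i, HLE T (σ i)) ∧ (∀ i, |(σ i : ℝ) - θ₀ i| ≤ ell M T) ∧ aeval (fun i => (σ i : ℝ)) p = 0) :
    (Z.card : ℝ) ≤ ((s * (2 * H) * 3 ^ s * X : ℕ) : ℝ) * (T : ℝ) ^ (((s : ℝ) - 1) / M) := by
  have h1 := zeros_poly hs hM hT θ₀ (mapZ_ne hp) (fun l => (degZ_map p l).trans (hdeg l)) Z
    (fun σ hσ => ⟨(hZ σ hσ).1, (hZ σ hσ).2.1, R6_eval σ p (hZ σ hσ).2.2⟩)
  refine le_trans h1 (mul_le_mul_of_nonneg_right ?_ (Real.rpow_nonneg (Nat.cast_nonneg _) _))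
  have h2 : s * (2 * h) * 3 ^ s ≤ s * (2 * H) * 3 ^ s * X := by
    calc s * (2 * h) * 3 ^ s ≤ s * (2 * (H * X)) * 3 ^ s :=
          Nat.mul_le_mul_right _ (Nat.mul_le_mul_left _ (Nat.mul_le_mul_left _ hhH))
      _ = _ := by ring
  have h3 : ((s * (2 * h) * 3 ^ s : ℕ) : ℝ) ≤ ((s * (2 * H) * 3 ^ s * X : ℕ) : ℝ) := by exact_mod_cast h2
  push_cast at h3 ⊢
  exact h3

theorem claimR {s r : ℕ} (hs : 0 < s) {Ω S : Set (Fin s → ℝ)} (hSΩ : S ⊆ Ω) {V : Fin r → (Fin s → ℝ) → ℝ}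
    {r₁ : ℝ} {C a : ℕ} (h0 : 0 < r₁) (hF : FamPtZ Ω S V r₁ C a) {M : ℕ}
    (hM : 2 ^ (s + 3) * s * r ≤ M) (hM1 : 1 ≤ M) :
    ∀ q : ℕ, 1 ≤ q → q ≤ r → ∃ T₀ κ : ℕ, ∀ T : ℕ, T₀ ≤ T → ∀ D L E : ℕ, κ * (D + L + 1) ^ bR a s q ≤ E →
      ∀ θ₀ ∈ S, ∀ y : Fin q → Fin r → MvPolynomial (Fin s) ℤ, (∀ j i l, (y j i).degreeOf l ≤ D) →
      (∀ P : Fin q → MvPolynomial (Fin s) ℤ,
        (∀ θ ∈ Ω, ∑ j, aeval θ (P j) * ∑ i, aeval θ (y j i) * V i θ = 0) → ∀ j, P j = 0) →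
      ∀ (Z : Finset (Fin s → ℚ)) (cf : (Fin s → ℚ) → Fin q → ℤ),
        (∀ σ ∈ Z, (∀ i, HLE T (σ i)) ∧ (∀ i, |(σ i : ℝ) - θ₀ i| ≤ ell M T) ∧ (fun i => (σ i : ℝ)) ∈ S ∧
          (∃ j, cf σ j ≠ 0) ∧ (∀ j, |cf σ j| ≤ (T : ℤ) ^ L) ∧
          |∑ j, (cf σ j : ℝ) * ∑ i, aeval (fun i => (σ i : ℝ)) (y j i) * V i (fun i => (σ i : ℝ))| ≤
            ((T : ℝ) ^ E)⁻¹) →
        (Z.card : ℝ) ≤ ((κ * (D + L + 1) ^ bR a s q : ℕ) : ℝ) * (T : ℝ) ^ (((s : ℝ) - 1) / M) := by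
  classical
  intro q hq
  induction q, hq using Nat.le_induction with
  | base =>
    intro hqr
    obtain ⟨T₀, hT₀, HS⟩ := R6_stage hs hSΩ h0 hF hM hM1 one_pos hqr
    obtain ⟨H, hH⟩ : ∃ H : ℕ, H = 2 ^ (s + 1) * 1 + 4 * C + 1 := ⟨_, rfl⟩
    refine ⟨T₀, s * (2 * H) * 3 ^ s + (H + 1 + C), ?_⟩
    intro T hT D L E hE θ₀ hθ₀ y hdeg hI Z cf hZ
    have hb : bR a s 1 = (a + 1) * (2 * s + 1) := by
      rw [bR, bR, zero_add]
    rw [hb] at hE ⊢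
    obtain ⟨h, hh⟩ : ∃ h : ℕ, h = 2 ^ (s + 1) * 1 * L + 4 * (C * (D + 1) ^ (a + 1)) + 1 := ⟨_, rfl⟩
    have hhH : h ≤ H * (D + L + 1) ^ (a + 1) := by
      rw [hh, hH]
      exact R6_h
    have hpow1 : (D + L + 1) ^ (a + 1) ≤ (D + L + 1) ^ ((a + 1) * (2 * s + 1)) :=
      Nat.pow_le_pow_right (by omega) (Nat.le_mul_of_pos_right _ (by omega))
    have hX1 : 1 ≤ (D + L + 1) ^ ((a + 1) * (2 * s + 1)) := Nat.one_le_pow _ _ (by omega)
    have hhE : h + 1 + C ≤ E := by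
      refine le_trans ?_ hE
      calc h + 1 + C ≤ H * (D + L + 1) ^ ((a + 1) * (2 * s + 1)) + (1 + C) * (D + L + 1) ^ ((a + 1) * (2 * s + 1)) := by
            have h1 := hhH.trans (Nat.mul_le_mul_left H hpow1)
            have h2 : 1 + C ≤ (1 + C) * (D + L + 1) ^ ((a + 1) * (2 * s + 1)) := Nat.le_mul_of_pos_right _ hX1
            omega
        _ = (H + 1 + C) * (D + L + 1) ^ ((a + 1) * (2 * s + 1)) := by ring
        _ ≤ _ := Nat.mul_le_mul_right _ (Nat.le_add_left _ _)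
    obtain ⟨p, j₁, hp1, hpdeg, -, hrel⟩ := HS T hT D L h E hh hhE θ₀ hθ₀ y hdeg (R6_ne one_pos hI) Z cf hZ
    have hT1 : 1 ≤ T := by omega
    have h1 := R6_one hs hM1 hT1 θ₀ hhH hp1 (hpdeg j₁) Z (by
      intro σ hσ
      obtain ⟨h1, h2, h3, ⟨j', hj'⟩, h5, h6⟩ := hZ σ hσ
      refine ⟨h1, h2, ?_⟩
      have h7 := hrel σ hσ
      have hjj : j' = j₁ := Subsingleton.elim _ _
      have hj0 : (0 : Fin 1) = j₁ := Subsingleton.elim _ _
      rw [Fin.sum_univ_one, hj0] at h7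
      rw [hjj] at hj'
      have h8 : (cf σ j₁ : ℝ) ≠ 0 := by exact_mod_cast hj'
      exact (mul_eq_zero.1 h7).resolve_left h8)
    refine h1.trans (mul_le_mul_of_nonneg_right ?_ (Real.rpow_nonneg (Nat.cast_nonneg _) _))
    have h2 : s * (2 * H) * 3 ^ s * (D + L + 1) ^ (a + 1) ≤
        (s * (2 * H) * 3 ^ s + (H + 1 + C)) * (D + L + 1) ^ ((a + 1) * (2 * s + 1)) :=
      Nat.mul_le_mul (Nat.le_add_right _ _) hpow1
    exact_mod_cast h2
  | succ q hq IH =>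
    intro hqr
    obtain ⟨T₁, hT₁, HS⟩ := R6_stage hs hSΩ h0 hF hM hM1 (Nat.succ_pos q) hqr
    obtain ⟨T₂, κ, H2⟩ := IH (by omega)
    obtain ⟨b, hb⟩ : ∃ b, b = bR a s q := ⟨_, rfl⟩
    rw [← hb] at H2
    have hb' : bR a s (q + 1) = (a + 1) * (b + (2 * s + 1)) := by
      rw [hb, bR]
    obtain ⟨H, hH⟩ : ∃ H : ℕ, H = 2 ^ (s + 1) * (q + 1) + 4 * C + 1 := ⟨_, rfl⟩
    obtain ⟨K₁, hK₁⟩ : ∃ K₁ : ℕ, K₁ = s * (2 * H) * 3 ^ s := ⟨_, rfl⟩
    obtain ⟨K₂, hK₂⟩ : ∃ K₂ : ℕ, K₂ = (1 + (q + 1) * ((q + 1) + s + 1) + s) := ⟨_, rfl⟩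
    refine ⟨max T₁ T₂, K₁ + κ * (1 + 2 * H) ^ b + K₂ * (2 * H + 1) ^ (2 * s + 1) + (H + 1 + C), ?_⟩
    intro T hTT D L E hE θ₀ hθ₀ y hdeg hI Z cf hZ
    rw [hb'] at hE ⊢
    have hTT1 : T₁ ≤ T := le_trans (le_max_left _ _) hTT
    have hTT2 : T₂ ≤ T := le_trans (le_max_right _ _) hTT
    have hT2 : 2 ≤ T := le_trans hT₁ hTT1
    have hT1 : 1 ≤ T := by omega
    have hTR0 : (0 : ℝ) < T := by exact_mod_cast hT1
    have hTR1 : (1 : ℝ) ≤ T := by exact_mod_cast hT1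
    obtain ⟨h, hh⟩ : ∃ h : ℕ, h = 2 ^ (s + 1) * (q + 1) * L + 4 * (C * (D + 1) ^ (a + 1)) + 1 := ⟨_, rfl⟩
    have hhH : h ≤ H * (D + L + 1) ^ (a + 1) := by
      rw [hh, hH]
      exact R6_h
    have hLh : L ≤ h := by
      rw [hh]
      have h1 : L ≤ 2 ^ (s + 1) * (q + 1) * L := Nat.le_mul_of_pos_left _ (by positivity)
      omega
    obtain ⟨X, hX⟩ : ∃ X, X = (D + L + 1) ^ ((a + 1) * (b + (2 * s + 1))) := ⟨_, rfl⟩
    have hX1 : 1 ≤ X := by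
      rw [hX]
      exact Nat.one_le_pow _ _ (by omega)
    have hX0 : D + L + 1 ≤ (D + L + 1) ^ (a + 1) := Nat.le_self_pow (by omega) _
    have hpow1 : (D + L + 1) ^ (a + 1) ≤ X := by
      rw [hX]
      exact Nat.pow_le_pow_right (by omega) (Nat.le_mul_of_pos_right _ (by omega))
    have hdl : D + 2 * h + L + 1 ≤ (1 + 2 * H) * (D + L + 1) ^ (a + 1) := by
      calc D + 2 * h + L + 1 = (D + L + 1) + 2 * h := by ring
        _ ≤ (D + L + 1) ^ (a + 1) + 2 * (H * (D + L + 1) ^ (a + 1)) :=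
            Nat.add_le_add hX0 (Nat.mul_le_mul_left _ hhH)
        _ = _ := by ring
    have hpow2 : (D + 2 * h + L + 1) ^ b ≤ (1 + 2 * H) ^ b * X := by
      calc (D + 2 * h + L + 1) ^ b ≤ ((1 + 2 * H) * (D + L + 1) ^ (a + 1)) ^ b := Nat.pow_le_pow_left hdl _
        _ = (1 + 2 * H) ^ b * (D + L + 1) ^ ((a + 1) * b) := by rw [mul_pow, ← pow_mul]
        _ ≤ _ := by
            rw [hX]
            exact Nat.mul_le_mul_left _ (Nat.pow_le_pow_right (by omega) (Nat.mul_le_mul_left _ (by omega)))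
    have hY : 2 * h + 1 ≤ (2 * H + 1) * (D + L + 1) ^ (a + 1) := by
      have h1 : 1 ≤ (D + L + 1) ^ (a + 1) := Nat.one_le_pow _ _ (by omega)
      calc 2 * h + 1 ≤ 2 * (H * (D + L + 1) ^ (a + 1)) + (D + L + 1) ^ (a + 1) :=
            Nat.add_le_add (Nat.mul_le_mul_left _ hhH) h1
        _ = _ := by ring
    obtain ⟨Λ, hΛ⟩ : ∃ Λ, Λ = (2 * h + 1) ^ s + lamR s (q + 1) L h + 2 * h * s := ⟨_, rfl⟩
    have hΛX : Λ ≤ K₂ * (2 * H + 1) ^ (2 * s + 1) * X := by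
      rw [hΛ]
      refine (R6_lam hLh).trans ?_
      rw [← hK₂, mul_assoc]
      refine Nat.mul_le_mul_left _ ?_
      calc (2 * h + 1) ^ (2 * s + 1) ≤ ((2 * H + 1) * (D + L + 1) ^ (a + 1)) ^ (2 * s + 1) := Nat.pow_le_pow_left hY _
        _ = (2 * H + 1) ^ (2 * s + 1) * (D + L + 1) ^ ((a + 1) * (2 * s + 1)) := by rw [mul_pow, ← pow_mul]
        _ ≤ _ := by
            rw [hX]
            exact Nat.mul_le_mul_left _ (Nat.pow_le_pow_right (by omega) (Nat.mul_le_mul_left _ (by omega)))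
    rw [← hX] at hE ⊢
    have hEE : κ * (D + 2 * h + L + 1) ^ b + Λ + (h + 1 + C) ≤ E := by
      refine le_trans ?_ hE
      calc κ * (D + 2 * h + L + 1) ^ b + Λ + (h + 1 + C)
          ≤ κ * ((1 + 2 * H) ^ b * X) + K₂ * (2 * H + 1) ^ (2 * s + 1) * X + (H * X + (1 + C) * X) := by
            have h1 := Nat.mul_le_mul_left κ hpow2
            have h2 := hhH.trans (Nat.mul_le_mul_left H hpow1)
            have h3 : 1 + C ≤ (1 + C) * X := Nat.le_mul_of_pos_right _ hX1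
            omega
        _ = (κ * (1 + 2 * H) ^ b + K₂ * (2 * H + 1) ^ (2 * s + 1) + (H + 1 + C)) * X := by ring
        _ ≤ _ := Nat.mul_le_mul_right _ (by omega)
    obtain ⟨p, j₁, hp1, hpdeg, hpval, hrel⟩ := HS T hTT1 D L h E hh (by omega) θ₀ hθ₀ y hdeg
      (R6_ne (Nat.succ_pos q) hI) Z cf hZ
    have hZ1 := R6_one hs hM1 hT1 θ₀ hhH hp1 (hpdeg j₁) (Z.filter fun σ => ∀ j : Fin q, cf σ (j₁.succAbove j) = 0) (by
      intro σ hσ
      rw [Finset.mem_filter] at hσ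
      obtain ⟨h1, h2, h3, ⟨j, hj0⟩, h5, h6⟩ := hZ σ hσ.1
      refine ⟨h1, h2, ?_⟩
      have hjj : j = j₁ := by
        by_contra hne'
        obtain ⟨j', hj'⟩ := Fin.exists_succAbove_eq hne'
        exact hj0 (hj' ▸ hσ.2 j')
      have h7 := hrel σ hσ.1
      rw [Fin.sum_univ_succAbove _ j₁, Finset.sum_eq_zero (fun j' _ => by
        rw [hσ.2 j']
        simp), add_zero] at h7
      have h8 : (cf σ j₁ : ℝ) ≠ 0 := by
        rw [← hjj]
        exact_mod_cast hj0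
      exact (mul_eq_zero.1 h7).resolve_left h8)
    have hZ2 : ((Z.filter fun σ => ¬ ∀ j : Fin q, cf σ (j₁.succAbove j) = 0).card : ℝ) ≤
        ((κ * (D + 2 * h + L + 1) ^ b : ℕ) : ℝ) * (T : ℝ) ^ (((s : ℝ) - 1) / M) := by
      have hN : ∀ (θ : Fin s → ℝ) (j : Fin q),
          ∑ i, aeval θ (p j₁ * y (j₁.succAbove j) i - p (j₁.succAbove j) * y j₁ i) * V i θ =
            aeval θ (p j₁) * (∑ i, aeval θ (y (j₁.succAbove j) i) * V i θ) -
              aeval θ (p (j₁.succAbove j)) * ∑ i, aeval θ (y j₁ i) * V i θ := by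
        intro θ j
        rw [Finset.mul_sum, Finset.mul_sum, ← Finset.sum_sub_distrib]
        refine Finset.sum_congr rfl fun i _ => ?_
        rw [map_sub, map_mul, map_mul]
        ring
      refine H2 T hTT2 (D + 2 * h) L (κ * (D + 2 * h + L + 1) ^ b) le_rfl θ₀ hθ₀
        (fun j i => p j₁ * y (j₁.succAbove j) i - p (j₁.succAbove j) * y j₁ i) ?_ ?_ _
        (fun σ j => cf σ (j₁.succAbove j)) ?_
      · intro j i l
        refine (degreeOf_sub_le l _ _).trans (max_le ?_ ?_)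
        · refine (degreeOf_mul_le l _ _).trans ?_
          have := hpdeg j₁ l
          have := hdeg (j₁.succAbove j) i l
          omega
        · refine (degreeOf_mul_le l _ _).trans ?_
          have := hpdeg (j₁.succAbove j) l
          have := hdeg j₁ i l
          omega
      · intro R hR j
        have h1 := hI (Fin.insertNth (α := fun _ => MvPolynomial (Fin s) ℤ) j₁ (-∑ j, R j * p (j₁.succAbove j)) fun j => R j * p j₁) (by
          intro θ hθ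
          rw [Fin.sum_univ_succAbove _ j₁]
          simp only [Fin.insertNth_apply_same, Fin.insertNth_apply_succAbove]
          have h2 := hR θ hθ
          simp only [hN] at h2
          rw [← h2, map_neg, map_sum, ← sub_eq_zero]
          simp only [map_mul]
          have h3 : ∀ j : Fin q, aeval θ (R j) * (aeval θ (p j₁) * (∑ i, aeval θ (y (j₁.succAbove j) i) * V i θ) -
              aeval θ (p (j₁.succAbove j)) * ∑ i, aeval θ (y j₁ i) * V i θ) =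
              aeval θ (R j) * aeval θ (p j₁) * (∑ i, aeval θ (y (j₁.succAbove j) i) * V i θ) -
              aeval θ (R j) * aeval θ (p (j₁.succAbove j)) * ∑ i, aeval θ (y j₁ i) * V i θ := by
            intro j
            ring
          rw [Finset.sum_congr rfl fun j _ => h3 j, Finset.sum_sub_distrib, ← Finset.sum_mul]
          ring) (j₁.succAbove j)
        rw [Fin.insertNth_apply_succAbove] at h1
        exact (mul_eq_zero.1 h1).resolve_right hp1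
      · intro σ hσ
        rw [Finset.mem_filter] at hσ
        obtain ⟨h1, h2, h3, h4, h5, h6⟩ := hZ σ hσ.1
        refine ⟨h1, h2, h3, ?_, fun j => h5 _, ?_⟩
        · have h7 := hσ.2
          push Not at h7
          exact h7
        · have h8 := hrel σ hσ.1
          have h10 : ∑ j : Fin q, (cf σ (j₁.succAbove j) : ℝ) *
              ∑ i, aeval (fun i => (σ i : ℝ)) (p j₁ * y (j₁.succAbove j) i - p (j₁.succAbove j) * y j₁ i) *
                V i (fun i => (σ i : ℝ)) =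
              aeval (fun i => (σ i : ℝ)) (p j₁) *
                ∑ j, (cf σ j : ℝ) * ∑ i, aeval (fun i => (σ i : ℝ)) (y j i) * V i (fun i => (σ i : ℝ)) := by
            rw [Fin.sum_univ_succAbove _ j₁] at h8
            rw [Fin.sum_univ_succAbove (fun j => (cf σ j : ℝ) *
              ∑ i, aeval (fun i => (σ i : ℝ)) (y j i) * V i (fun i => (σ i : ℝ))) j₁]
            simp only [hN]
            have h9 : ∀ j : Fin q, (cf σ (j₁.succAbove j) : ℝ) * (aeval (fun i => (σ i : ℝ)) (p j₁) *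
                (∑ i, aeval (fun i => (σ i : ℝ)) (y (j₁.succAbove j) i) * V i (fun i => (σ i : ℝ))) -
                aeval (fun i => (σ i : ℝ)) (p (j₁.succAbove j)) *
                  ∑ i, aeval (fun i => (σ i : ℝ)) (y j₁ i) * V i (fun i => (σ i : ℝ))) =
                aeval (fun i => (σ i : ℝ)) (p j₁) * ((cf σ (j₁.succAbove j) : ℝ) *
                  ∑ i, aeval (fun i => (σ i : ℝ)) (y (j₁.succAbove j) i) * V i (fun i => (σ i : ℝ))) -
                ((cf σ (j₁.succAbove j) : ℝ) * aeval (fun i => (σ i : ℝ)) (p (j₁.succAbove j))) *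
                  ∑ i, aeval (fun i => (σ i : ℝ)) (y j₁ i) * V i (fun i => (σ i : ℝ)) := by
              intro j
              ring
            rw [Finset.sum_congr rfl fun j _ => h9 j, Finset.sum_sub_distrib, ← Finset.mul_sum, ← Finset.sum_mul,
              eq_neg_of_add_eq_zero_right h8]
            ring
          rw [h10, abs_mul]
          calc |aeval (fun i => (σ i : ℝ)) (p j₁)| *
                |∑ j, (cf σ j : ℝ) * ∑ i, aeval (fun i => (σ i : ℝ)) (y j i) * V i (fun i => (σ i : ℝ))|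
              ≤ (T : ℝ) ^ Λ * ((T : ℝ) ^ E)⁻¹ := by
                rw [hΛ]
                exact mul_le_mul (hpval j₁ σ hσ.1) h6 (abs_nonneg _) (by positivity)
            _ ≤ ((T : ℝ) ^ (κ * (D + 2 * h + L + 1) ^ b))⁻¹ := by
                rw [mul_inv_le_iff₀ (by positivity), ← div_eq_inv_mul, le_div_iff₀ (by positivity), ← pow_add]
                exact pow_le_pow_right₀ hTR1 (by omega)
    have hsum : (Z.card : ℝ) = ((Z.filter fun σ => ∀ j : Fin q, cf σ (j₁.succAbove j) = 0).card : ℝ) +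
        ((Z.filter fun σ => ¬ ∀ j : Fin q, cf σ (j₁.succAbove j) = 0).card : ℝ) := by
      rw [← Nat.cast_add, Finset.card_filter_add_card_filter_not]
    have hnat : s * (2 * H) * 3 ^ s * (D + L + 1) ^ (a + 1) + κ * (D + 2 * h + L + 1) ^ b ≤
        (K₁ + κ * (1 + 2 * H) ^ b + K₂ * (2 * H + 1) ^ (2 * s + 1) + (H + 1 + C)) * X := by
      rw [← hK₁]
      calc K₁ * (D + L + 1) ^ (a + 1) + κ * (D + 2 * h + L + 1) ^ b
          ≤ K₁ * X + κ * ((1 + 2 * H) ^ b * X) :=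
            Nat.add_le_add (Nat.mul_le_mul_left _ hpow1) (Nat.mul_le_mul_left _ hpow2)
        _ = (K₁ + κ * (1 + 2 * H) ^ b) * X := by ring
        _ ≤ _ := Nat.mul_le_mul_right _ (by omega)
    have hreal : ((s * (2 * H) * 3 ^ s * (D + L + 1) ^ (a + 1) : ℕ) : ℝ) + ((κ * (D + 2 * h + L + 1) ^ b : ℕ) : ℝ) ≤
        (((K₁ + κ * (1 + 2 * H) ^ b + K₂ * (2 * H + 1) ^ (2 * s + 1) + (H + 1 + C)) * X : ℕ) : ℝ) := by
      exact_mod_cast hnat
    have hTp : 0 ≤ (T : ℝ) ^ (((s : ℝ) - 1) / M) := Real.rpow_nonneg (Nat.cast_nonneg _) _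
    calc (Z.card : ℝ) = _ := hsum
      _ ≤ ((s * (2 * H) * 3 ^ s * (D + L + 1) ^ (a + 1) : ℕ) : ℝ) * (T : ℝ) ^ (((s : ℝ) - 1) / M) +
          ((κ * (D + 2 * h + L + 1) ^ b : ℕ) : ℝ) * (T : ℝ) ^ (((s : ℝ) - 1) / M) := add_le_add hZ1 hZ2
      _ = (((s * (2 * H) * 3 ^ s * (D + L + 1) ^ (a + 1) : ℕ) : ℝ) + ((κ * (D + 2 * h + L + 1) ^ b : ℕ) : ℝ)) *
          (T : ℝ) ^ (((s : ℝ) - 1) / M) := by ring
      _ ≤ _ := mul_le_mul_of_nonneg_right hreal hTp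

end Pool.Agent.Lib.MP_bbe012_lc.XS
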