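import Pool.Agent.Lib.MP_bbe012_lc.GAP.NLin
import Pool.Agent.Lib.MP_bbe012_lc.PH.HFinal
import Pool.Agent.Lib.MP_bbe012_lc.XS.F22
import Pool.Agent.Lib.MP_bbe012_lc.XS.R7

/-!
# Polynomially many digits: the assembly for the families of domains, from the differential equations
-/

set_option autoImplicit false

namespace Pool.Agent.Lib.MP_bbe012_lc.XS

open MvPolynomial MeasureTheory Set PP PG PT PH PM GAP Topology

/-- the bound for the linear form -/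
private theorem R8_L {T L A' b B' : ℕ} (hT : 1 ≤ T) (hL : 1 ≤ L) :
    ((T ^ L : ℕ) : ℝ) ^ A' * ((T : ℝ) ^ ((A' + B' * (A' + 1) ^ b) * L ^ (b + 1)))⁻¹ ≤
        ((T : ℝ) ^ (B' * ((A' + 1) * L) ^ b))⁻¹ := by
  have hT1 : (1 : ℝ) ≤ T := by exact_mod_cast hT
  have h1 : L * A' + B' * ((A' + 1) * L) ^ b ≤ (A' + B' * (A' + 1) ^ b) * L ^ (b + 1) := by
    have h2 : L ≤ L ^ (b + 1) := Nat.le_self_pow (Nat.succ_ne_zero b) L
    have h3 : L ^ b ≤ L ^ (b + 1) := Nat.pow_le_pow_right hL (Nat.le_succ b)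
    calc L * A' + B' * ((A' + 1) * L) ^ b = A' * L + B' * (A' + 1) ^ b * L ^ b := by
          rw [mul_pow]
          ring
      _ ≤ A' * L ^ (b + 1) + B' * (A' + 1) ^ b * L ^ (b + 1) :=
          Nat.add_le_add (Nat.mul_le_mul_left _ h2) (Nat.mul_le_mul_left _ h3)
      _ = _ := by ring
  rw [Nat.cast_pow, ← pow_mul, mul_inv_le_iff₀ (by positivity), ← div_eq_inv_mul, le_div_iff₀ (by positivity), ← pow_add]
  exact pow_le_pow_right₀ hT1 h1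

/-- Many exceptional parameters are impossible: the frame of the two theorems. -/
private theorem R8_frame {s : ℕ} (hs : 0 < s) {S : Set (Fin s → ℝ)} (hSi : (interior S).Nonempty)
    {q : MvPolynomial (Fin s) ℚ} (hq : q ≠ 0) {K η₁ : ℝ} (hK : 0 < K) (hη₁ : 0 < η₁)
    {Bad X : ℕ → Set (Fin s → ℚ)} (hBad : ∀ T, 1 ≤ T → (Bad T).Finite ∧ ((Bad T).ncard : ℝ) ≤ K * (T : ℝ) ^ (2 * (s : ℝ) - η₁))
    (hX : ∀ T, X T ⊆ PtsT S T) {T₂ : ℕ}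
    (hsub : ∀ T, T₂ ≤ T → ∀ θ ∈ X T, aeval θ q ≠ 0 → θ ∈ Bad T) :
    ∃ C : ℝ, ∀ T : ℕ, 1 ≤ T → ((X T).ncard : ℝ) ≤ C * (T : ℝ) ^ (-(min η₁ 1)) * ((PtsT S T).ncard : ℝ) := by
  obtain ⟨C₂, hC₂, H₂⟩ := few_zeros hs hq
  obtain ⟨c, T₀, hc, H₃⟩ := many_pts hSi
  obtain ⟨T₁, hT₁⟩ : ∃ T₁ : ℕ, T₁ = max T₀ T₂ := ⟨_, rfl⟩
  obtain ⟨η, hη⟩ : ∃ η : ℝ, η = min η₁ 1 := ⟨_, rfl⟩
  have hη0 : 0 < η := by
    rw [hη]
    exact lt_min hη₁ one_pos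
  have hηa : η ≤ η₁ := by
    rw [hη]
    exact min_le_left _ _
  have hηb : η ≤ 1 := by
    rw [hη]
    exact min_le_right _ _
  rw [← hη]
  refine ⟨max ((T₁ : ℝ) ^ η) ((K + C₂) / c), ?_⟩
  intro T hT
  have hT0 : (0 : ℝ) < (T : ℝ) := by exact_mod_cast hT
  have hT1 : (1 : ℝ) ≤ (T : ℝ) := by exact_mod_cast hT
  have hTη : (0 : ℝ) < (T : ℝ) ^ (-η) := Real.rpow_pos_of_pos hT0 _
  have hn0 : (0 : ℝ) ≤ ((PtsT S T).ncard : ℝ) := Nat.cast_nonneg _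
  have hfinA : {θ : Fin s → ℚ | ∀ i, HLE T (θ i)}.Finite :=
    Set.Finite.pi' (fun _ : Fin s => finite_HLE T)
  have hfinP : (PtsT S T).Finite := hfinA.subset fun θ hθ => hθ.1
  by_cases hTT : T₁ ≤ T
  · have hTT0 : T₀ ≤ T := by
      have h1 : T₀ ≤ max T₀ T₂ := le_max_left _ _
      omega
    have hTT2 : T₂ ≤ T := by
      have h1 : T₂ ≤ max T₀ T₂ := le_max_right _ _
      omega
    obtain ⟨hfB, hcB⟩ := hBad T hT
    obtain ⟨Zer, hZer⟩ : ∃ Zer : Set (Fin s → ℚ), Zer = {θ : Fin s → ℚ | (∀ i, HLE T (θ i)) ∧ aeval θ q = 0} :=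
      ⟨_, rfl⟩
    have hcZ := H₂ T hT
    rw [← hZer] at hcZ
    have hfZ : Zer.Finite := by
      rw [hZer]
      exact hfinA.subset fun θ hθ => hθ.1
    have hsub' : X T ⊆ Bad T ∪ Zer := by
      intro θ hθ
      by_cases h0 : aeval θ q = 0
      · refine Or.inr ?_
        rw [hZer]
        exact ⟨(hX T hθ).1, h0⟩
      · exact Or.inl (hsub T hTT2 θ hθ h0)
    have h1 : ((X T).ncard : ℝ) ≤ ((Bad T).ncard : ℝ) + (Zer.ncard : ℝ) := by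
      have h2 := (Set.ncard_le_ncard hsub' (hfB.union hfZ)).trans (Set.ncard_union_le (Bad T) Zer)
      exact_mod_cast h2
    have h3 : (T : ℝ) ^ (2 * (s : ℝ) - η₁) ≤ (T : ℝ) ^ (2 * (s : ℝ)) * (T : ℝ) ^ (-η) := by
      rw [← Real.rpow_add hT0]
      exact Real.rpow_le_rpow_of_exponent_le hT1 (by linarith)
    have h4 : (T : ℝ) ^ (2 * (s : ℝ) - 2) ≤ (T : ℝ) ^ (2 * (s : ℝ)) * (T : ℝ) ^ (-η) := by
      rw [← Real.rpow_add hT0]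
      exact Real.rpow_le_rpow_of_exponent_le hT1 (by linarith)
    have h5 : (T : ℝ) ^ (2 * (s : ℝ)) ≤ ((PtsT S T).ncard : ℝ) / c := by
      rw [le_div_iff₀ hc, mul_comm]
      exact H₃ T hTT0
    calc ((X T).ncard : ℝ) ≤ K * ((T : ℝ) ^ (2 * (s : ℝ)) * (T : ℝ) ^ (-η)) +
          C₂ * ((T : ℝ) ^ (2 * (s : ℝ)) * (T : ℝ) ^ (-η)) := by
            refine h1.trans (add_le_add (hcB.trans ?_) (hcZ.trans ?_))
            · exact mul_le_mul_of_nonneg_left h3 hK.le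
            · exact mul_le_mul_of_nonneg_left h4 hC₂.le
      _ = (K + C₂) * (T : ℝ) ^ (-η) * (T : ℝ) ^ (2 * (s : ℝ)) := by ring
      _ ≤ (K + C₂) * (T : ℝ) ^ (-η) * (((PtsT S T).ncard : ℝ) / c) := by
            refine mul_le_mul_of_nonneg_left h5 ?_
            positivity
      _ = (K + C₂) / c * (T : ℝ) ^ (-η) * ((PtsT S T).ncard : ℝ) := by ring
      _ ≤ _ := by
            refine mul_le_mul_of_nonneg_right ?_ hn0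
            exact mul_le_mul_of_nonneg_right (le_max_right _ _) hTη.le
  · have hTle : (T : ℝ) ≤ (T₁ : ℝ) := by
      have h1 : T ≤ T₁ := by omega
      exact_mod_cast h1
    have h1 : ((X T).ncard : ℝ) ≤ ((PtsT S T).ncard : ℝ) := by
      exact_mod_cast Set.ncard_le_ncard (hX T) hfinP
    have h2 : (1 : ℝ) ≤ (T₁ : ℝ) ^ η * (T : ℝ) ^ (-η) := by
      have h3 : (T : ℝ) ^ η * (T : ℝ) ^ (-η) = 1 := by
        rw [← Real.rpow_add hT0, add_neg_cancel, Real.rpow_zero]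
      rw [← h3]
      refine mul_le_mul_of_nonneg_right ?_ hTη.le
      exact Real.rpow_le_rpow hT0.le hTle hη0.le
    calc ((X T).ncard : ℝ) ≤ 1 * ((PtsT S T).ncard : ℝ) := by
            rw [one_mul]
            exact h1
      _ ≤ (T₁ : ℝ) ^ η * (T : ℝ) ^ (-η) * ((PtsT S T).ncard : ℝ) := mul_le_mul_of_nonneg_right h2 hn0
      _ ≤ _ := by
            refine mul_le_mul_of_nonneg_right ?_ hn0
            exact mul_le_mul_of_nonneg_right (le_max_left _ _) hTη.le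

/-- `(A' + 1) x ≤ T ^ k₁` if `x ≤ T ^ (k₁ / 2)` and `T` is large -/
private theorem R8_k {k₁ : ℝ} (hk₁ : 0 < k₁) (A' : ℕ) : ∃ T₂ : ℕ, 2 ≤ T₂ ∧ ∀ T : ℕ, T₂ ≤ T → ∀ L : ℕ, (L : ℝ) ≤ (T : ℝ) ^ (k₁ / 2) →
    (((A' + 1) * L : ℕ) : ℝ) ≤ (T : ℝ) ^ k₁ := by
  refine ⟨max 2 ⌈((A' : ℝ) + 1) ^ (2 / k₁)⌉₊, le_max_left _ _, ?_⟩
  intro T hT L hx
  have hT3 : 2 ≤ T := (le_max_left _ _).trans hT
  have hT0 : (0 : ℝ) < T := by
    have : 0 < T := by omega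
    exact_mod_cast this
  have h1 : ((A' : ℝ) + 1) ^ (2 / k₁) ≤ (T : ℝ) := by
    refine (Nat.le_ceil _).trans ?_
    exact_mod_cast (le_max_right _ _).trans hT
  have h2 : (A' : ℝ) + 1 ≤ (T : ℝ) ^ (k₁ / 2) := by
    have h3 : (((A' : ℝ) + 1) ^ (2 / k₁)) ^ (k₁ / 2) ≤ (T : ℝ) ^ (k₁ / 2) :=
      Real.rpow_le_rpow (by positivity) h1 (by positivity)
    rw [← Real.rpow_mul (by positivity), show 2 / k₁ * (k₁ / 2) = 1 by field_simp, Real.rpow_one] at h3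
    exact h3
  push_cast
  calc ((A' : ℝ) + 1) * L ≤ ((A' : ℝ) + 1) * (T : ℝ) ^ (k₁ / 2) := mul_le_mul_of_nonneg_left hx (by positivity)
    _ ≤ (T : ℝ) ^ (k₁ / 2) * (T : ℝ) ^ (k₁ / 2) := mul_le_mul_of_nonneg_right h2 (by positivity)
    _ = (T : ℝ) ^ k₁ := by
        rw [← Real.rpow_add hT0]
        congr 1
        ring

/-- The counting theorem for the functions of the patterns. -/
private theorem R8_count {s ρ : ℕ} (hs : 0 < s) {Ω : Set (Fin s → ℝ)} {V : Fin ρ → (Fin s → ℝ) → ℝ}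
    (hop : IsOpen Ω) (hconn : IsPreconnected Ω) {e : Fin s → ℚ} (he : cst e ∈ Ω)
    (hana : ∀ i, AnalyticOnNhd ℝ (V i) Ω) (hpf : PfHyp Ω V)
    (hV : ∀ S : Set (Fin s → ℝ), IsCompact S → S ⊆ Ω → VHyp S V) :
    ∃ k η : ℝ, 0 < k ∧ 0 < η ∧ ∃ b : ℕ, ∀ S : Set (Fin s → ℝ), IsCompact S → S ⊆ Ω → ∃ K : ℝ, 0 < K ∧ ∃ B : ℕ,
      ∀ T : ℕ, 1 ≤ T →
      ({σ : Fin s → ℚ | (∀ i, HLE T (σ i)) ∧ cst σ ∈ S ∧ ∃ L : ℕ, 1 ≤ L ∧ (L : ℝ) ≤ (T : ℝ) ^ k ∧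
        ∃ c : Fin ρ → ℤ, c ≠ 0 ∧ (∀ j, |c j| ≤ (T : ℤ) ^ L) ∧
        |∑ j, (c j : ℝ) * V j (cst σ)| ≤ ((T : ℝ) ^ (B * L ^ b))⁻¹}.ncard : ℝ) ≤ K * (T : ℝ) ^ (2 * (s : ℝ) - η) := by
  have hind : ∀ θ ∈ Ω, ∀ P : Fin ρ → MvPolynomial (Fin s) ℝ,
      (∀ᶠ θ' in 𝓝 θ, ∑ i, eval θ' (P i) * V i θ' = 0) → ∀ i, P i = 0 := fun θ hθ =>
    (hV {θ} isCompact_singleton (singleton_subset_iff.2 hθ)).indep θ (mem_singleton θ)
  obtain ⟨a, ha⟩ := fam_pointZ hop hconn hana hpf hind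
  obtain ⟨k, η, hk, hη, b, H⟩ := count_expR hs ρ a
  refine ⟨k, η, hk, hη, b, fun S hS hSΩ => ?_⟩
  obtain ⟨r₁, C, hr₁, -, hF⟩ := ha S hS hSΩ
  refine H (Ω := Ω) (S := S) (V := V) ?_ hr₁ hF
  refine ⟨hop, hconn, hS, hSΩ, hana, ?_⟩
  intro P hP i
  have h1 := hind (cst e) he (fun i => map (algebraMap ℚ ℝ) (P i)) (by
    filter_upwards [hop.mem_nhds he] with θ hθ
    rw [← hP θ hθ]
    refine Finset.sum_congr rfl fun i _ => ?_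
    rw [eval_map, aeval_def]) i
  exact map_injective _ (algebraMap ℚ ℝ).injective (by rw [h1, map_zero])

/-- **Polynomially many digits**, from the differential equations of the functions. -/
theorem digits_of_pf {s μ b : ℕ} (hs : 0 < s) (hb : 2 ≤ b) {m : Fin μ → ℕ} (F : (k : Fin μ) → Typ s (m k))
    (e : Fin s → ℚ) (he : ∀ k, (F k).Base e) (A : ℕ)
    (hpf : ∀ {n : ℕ} (hm : ∀ k, m k ≤ n) {ρ : ℕ} (π : Fin ρ → PatH μ n A),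
      PfHyp (Reg F b e) (fun i => VPH (fun k => (F k).pad (hm k)) b A (π i))) :
    ∃ (k η : ℝ) (p : ℕ), 0 < k ∧ 0 < η ∧ ∀ S : Set (Fin s → ℝ), IsCompact S → S ⊆ Reg F b e → (interior S).Nonempty →
      ∃ (B : ℕ) (C : ℝ), ∀ T : ℕ, 1 ≤ T →
        ({θ ∈ PtsT S T | ∃ (L : ℕ) (E : ExH), 1 ≤ L ∧ (L : ℝ) ≤ (T : ℝ) ^ k ∧ InClassH F b A (T ^ L) θ E ∧
          exhVal E ≠ 0 ∧ |exhVal E| < ((T : ℝ) ^ (B * L ^ p))⁻¹}.ncard : ℝ) ≤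
          C * (T : ℝ) ^ (-η) * ((PtsT S T).ncard : ℝ) := by
  classical
  have : Nonempty (Fin s) := ⟨⟨0, hs⟩⟩
  obtain ⟨n, hn⟩ : ∃ n : ℕ, n = ∑ k, m k := ⟨_, rfl⟩
  have hm : ∀ k, m k ≤ n := fun k => by
    rw [hn]
    exact Finset.single_le_sum (f := m) (fun i _ => Nat.zero_le _) (Finset.mem_univ k)
  have hR := regOK hb hm he
  obtain ⟨ρ, π, q, r, hq, hrel, hV⟩ := exists_relH hR A
  obtain ⟨A', hA'⟩ := exists_linH hm hR hrel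
  obtain ⟨k₁, η₁, hk₁, hη₁, b', H⟩ := R8_count hs hR.op hR.pre hR.mem (fun i => analyticOn_VPH hR (π i)) (hpf hm π) hV
  obtain ⟨T₂, hT₂, HT₂⟩ := R8_k hk₁ A'
  refine ⟨k₁ / 2, min η₁ 1, b' + 1, by positivity, lt_min hη₁ one_pos, fun S hS hSR hSi => ?_⟩
  obtain ⟨K, hK, B', HB⟩ := H S hS hSR
  refine ⟨A' + B' * (A' + 1) ^ b', ?_⟩
  refine R8_frame hs hSi hq hK hη₁ (Bad := fun T => {σ : Fin s → ℚ | (∀ i, HLE T (σ i)) ∧ cst σ ∈ S ∧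
        ∃ L : ℕ, 1 ≤ L ∧ (L : ℝ) ≤ (T : ℝ) ^ k₁ ∧ ∃ c : Fin ρ → ℤ, c ≠ 0 ∧ (∀ j, |c j| ≤ (T : ℤ) ^ L) ∧
        |∑ j, (c j : ℝ) * VPH (fun k => (F k).pad (hm k)) b A (π j) (cst σ)| ≤ ((T : ℝ) ^ (B' * L ^ b'))⁻¹})
    (fun T hT => ⟨(Set.Finite.pi' (fun _ : Fin s => finite_HLE T)).subset fun σ hσ => hσ.1, HB T hT⟩)
    (fun T θ hθ => hθ.1) (T₂ := T₂) ?_
  rintro T hTT θ ⟨⟨hθ1, hθ2⟩, L, E, hL1, hLk, hE1, hE2, hE3⟩ h0
  have hT2 : 2 ≤ T := hT₂.trans hTT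
  have hT0 : (0 : ℝ) < T := by
    have : 0 < T := by omega
    exact_mod_cast this
  have hTN : T ≤ T ^ L := Nat.le_self_pow (by omega) T
  have hAL : (T ^ L) ^ A' ≤ T ^ ((A' + 1) * L) := by
    rw [← pow_mul]
    refine Nat.pow_le_pow_right (by omega) ?_
    rw [mul_comm]
    exact Nat.mul_le_mul_right _ (Nat.le_succ _)
  obtain ⟨c', w, hc', hw0, hw, hval⟩ := hA' (T ^ L) (hT2.trans hTN) θ
    (fun i => ⟨(hθ1 i).1.trans hTN, (hθ1 i).2.trans hTN⟩) (hSR hθ2) h0 E hE1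
  refine ⟨hθ1, hθ2, (A' + 1) * L, Nat.mul_pos (Nat.succ_pos _) hL1, HT₂ T hTT L hLk, c', ?_,
    fun j => (hc' j).trans (by exact_mod_cast hAL), ?_⟩
  · intro h3
    rw [h3] at hval
    simp only [Pi.zero_apply, Int.cast_zero, zero_mul, Finset.sum_const_zero] at hval
    exact (mul_ne_zero hw0 hE2) hval
  · rw [← hval, abs_mul]
    refine le_trans ?_ (R8_L (by omega : 1 ≤ T) hL1)
    exact mul_le_mul hw hE3.le (abs_nonneg _) (by positivity)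

/-- The algorithm halts on all inputs of exponential size, from the differential equations of the functions. -/
theorem halts_of_pf {s μ b : ℕ} (hs : 0 < s) (hb : 2 ≤ b) {m : Fin μ → ℕ} (F : (k : Fin μ) → Typ s (m k))
    (e : Fin s → ℚ) (he : ∀ k, (F k).Base e) (A : ℕ)
    (hpf : ∀ {n : ℕ} (hm : ∀ k, m k ≤ n) {ρ : ℕ} (π : Fin ρ → PatH μ n A),
      PfHyp (Reg F b e) (fun i => VPH (fun k => (F k).pad (hm k)) b A (π i))) :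
    ∃ (k η : ℝ), 0 < k ∧ 0 < η ∧ ∀ S : Set (Fin s → ℝ), IsCompact S → S ⊆ Reg F b e → (interior S).Nonempty →
      ∃ C : ℝ, ∀ T : ℕ, 1 ≤ T →
        ({θ ∈ PtsT S T | ∃ (L : ℕ) (E : ExH), 1 ≤ L ∧ (L : ℝ) ≤ (T : ℝ) ^ k ∧ InClassH F b A (T ^ L) θ E ∧
          ¬ (decideH E).Dom}.ncard : ℝ) ≤ C * (T : ℝ) ^ (-η) * ((PtsT S T).ncard : ℝ) := by
  classical
  have : Nonempty (Fin s) := ⟨⟨0, hs⟩⟩
  obtain ⟨n, hn⟩ : ∃ n : ℕ, n = ∑ k, m k := ⟨_, rfl⟩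
  have hm : ∀ k, m k ≤ n := fun k => by
    rw [hn]
    exact Finset.single_le_sum (f := m) (fun i _ => Nat.zero_le _) (Finset.mem_univ k)
  have hR := regOK hb hm he
  obtain ⟨ρ, π, q, r, hq, hrel, hV⟩ := exists_relH hR A
  obtain ⟨A', hA'⟩ := exists_haltH hm hR hrel
  obtain ⟨k₁, η₁, hk₁, hη₁, b', H⟩ := R8_count hs hR.op hR.pre hR.mem (fun i => analyticOn_VPH hR (π i)) (hpf hm π) hV
  obtain ⟨T₂, hT₂, HT₂⟩ := R8_k hk₁ A'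
  refine ⟨k₁ / 2, min η₁ 1, by positivity, lt_min hη₁ one_pos, fun S hS hSR hSi => ?_⟩
  obtain ⟨K, hK, B', HB⟩ := H S hS hSR
  refine R8_frame hs hSi hq hK hη₁ (Bad := fun T => {σ : Fin s → ℚ | (∀ i, HLE T (σ i)) ∧ cst σ ∈ S ∧
        ∃ L : ℕ, 1 ≤ L ∧ (L : ℝ) ≤ (T : ℝ) ^ k₁ ∧ ∃ c : Fin ρ → ℤ, c ≠ 0 ∧ (∀ j, |c j| ≤ (T : ℤ) ^ L) ∧
        |∑ j, (c j : ℝ) * VPH (fun k => (F k).pad (hm k)) b A (π j) (cst σ)| ≤ ((T : ℝ) ^ (B' * L ^ b'))⁻¹})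
    (fun T hT => ⟨(Set.Finite.pi' (fun _ : Fin s => finite_HLE T)).subset fun σ hσ => hσ.1, HB T hT⟩)
    (fun T θ hθ => hθ.1) (T₂ := T₂) ?_
  rintro T hTT θ ⟨⟨hθ1, hθ2⟩, L, E, hL1, hLk, hE1, hE2⟩ h0
  have hT2 : 2 ≤ T := hT₂.trans hTT
  have hTN : T ≤ T ^ L := Nat.le_self_pow (by omega) T
  have hAL : (T ^ L) ^ A' ≤ T ^ ((A' + 1) * L) := by
    rw [← pow_mul]
    refine Nat.pow_le_pow_right (by omega) ?_
    rw [mul_comm]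
    exact Nat.mul_le_mul_right _ (Nat.le_succ _)
  by_contra hB
  apply hE2
  refine hA' (T ^ L) (hT2.trans hTN) θ (fun i => ⟨(hθ1 i).1.trans hTN, (hθ1 i).2.trans hTN⟩) (hSR hθ2) h0 ?_ E hE1
  intro c' hc' hs'
  by_contra hne
  apply hB
  refine ⟨hθ1, hθ2, (A' + 1) * L, Nat.mul_pos (Nat.succ_pos _) hL1, HT₂ T hTT L hLk, c', hne,
    fun j => (hc' j).trans (by exact_mod_cast hAL), ?_⟩
  rw [hs', abs_zero]
  positivity

end Pool.Agent.Lib.MP_bbe012_lc.XS
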