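import Pool.Agent.Lib.MP_bbe012_lc.XS.S1

/-!
# The integrals of a family of domains as integrals over regions in the cube: the identity
-/

set_option autoImplicit false

namespace Pool.Agent.Lib.MP_bbe012_lc.XS

open MvPolynomial MeasureTheory Set PP PG PH PM
open scoped Pointwise

/-- specialisation at real parameters -/
private noncomputable def S2R {s n : ℕ} (θ : Fin s → ℝ) : Pz s n →ₐ[ℚ] MvPolynomial (Fin n) ℝ :=
  aeval (Sum.elim (fun i => C (θ i)) X)

private theorem S2R_eval {s n : ℕ} (D : Pz s n) (θ : Fin s → ℝ) (x : Fin n → ℝ) :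
    eval x (S2R θ D) = vl D θ x := by
  unfold vl S2R
  induction D using MvPolynomial.induction_on with
  | C a =>
    rw [aeval_C, aeval_C]
    exact eval_C _
  | add P Q hP hQ => rw [map_add, map_add, map_add, hP, hQ]
  | mul_X P i hP =>
    rw [map_mul, map_mul, map_mul, hP, aeval_X, aeval_X]
    rcases i with i | l
    · change _ * eval x (C (θ i)) = _ * θ i
      rw [eval_C]
    · change _ * eval x (X l) = _ * x l
      rw [eval_X]

private theorem S2R_pderiv {s n : ℕ} (D : Pz s n) (θ : Fin s → ℝ) (j : Fin n) :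
    S2R θ (pderiv (Sum.inr j) D) = pderiv j (S2R θ D) := by
  induction D using MvPolynomial.induction_on with
  | C a =>
    rw [pderiv_C, map_zero]
    unfold S2R
    rw [aeval_C]
    exact (pderiv_C).symm
  | add P Q hP hQ => rw [map_add, map_add, map_add, map_add, hP, hQ]
  | mul_X P i hP =>
    rw [pderiv_mul, map_add, map_mul, map_mul, hP, map_mul, pderiv_mul]
    congr 2
    rcases i with i | l
    · rw [pderiv_X_of_ne Sum.inl_ne_inr, map_zero]
      unfold S2R
      rw [aeval_X]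
      change 0 = pderiv j (C (θ i))
      rw [pderiv_C]
    · unfold S2R
      rw [aeval_X]
      change aeval _ (pderiv (Sum.inr j) (X (Sum.inr l))) = pderiv j (X l)
      by_cases h : l = j
      · rw [h, pderiv_X_self, pderiv_X_self, map_one]
      · rw [pderiv_X_of_ne h, pderiv_X_of_ne (fun h2 => h (Sum.inr_injective h2)), map_zero]

private theorem S2_jd {s n : ℕ} (F : Typ s n) (θ : Fin s → ℝ) (x : Fin n → ℝ) :
    vl F.jd θ x = (Matrix.of fun i j : Fin n => vl (F.B i) θ x * vl (pderiv (Sum.inr j) (F.A i)) θ x -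
      vl (F.A i) θ x * vl (pderiv (Sum.inr j) (F.B i)) θ x).det := by
  unfold Typ.jd vl
  rw [AlgHom.map_det]
  congr 1
  ext i j
  rw [AlgHom.mapMatrix_apply, Matrix.map_apply, Matrix.of_apply, Matrix.of_apply, map_sub, map_mul, map_mul]

/-- the polynomials of the boundary do not vanish identically -/
private theorem S2_ne {s n : ℕ} {F : Typ s n} {θ : Fin s → ℝ} {x : Fin n → ℝ} (h : vl F.jd θ x ≠ 0) (l : Fin n) :
    S2R θ (F.A l) ≠ 0 ∧ S2R θ (F.B l) - S2R θ (F.A l) ≠ 0 := by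
  constructor
  · intro h0
    apply h
    rw [S2_jd]
    refine Matrix.det_eq_zero_of_row_eq_zero l fun j => ?_
    rw [Matrix.of_apply, ← S2R_eval (F.A l), ← S2R_eval (pderiv (Sum.inr j) (F.A l)), S2R_pderiv, h0, map_zero,
      map_zero, mul_zero, zero_mul, sub_zero]
  · intro h0
    apply h
    rw [S2_jd]
    refine Matrix.det_eq_zero_of_row_eq_zero l fun j => ?_
    have h1 : S2R θ (F.B l) = S2R θ (F.A l) := sub_eq_zero.1 h0
    rw [Matrix.of_apply, ← S2R_eval (F.A l), ← S2R_eval (F.B l), ← S2R_eval (pderiv (Sum.inr j) (F.A l)),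
      ← S2R_eval (pderiv (Sum.inr j) (F.B l)), S2R_pderiv, S2R_pderiv, h1, sub_self]

private theorem S2_ae {s n : ℕ} {F : Typ s n} {θ : Fin s → ℝ} {x : Fin n → ℝ} (h : vl F.jd θ x ≠ 0) :
    ∀ᵐ y : Fin n → ℝ, ∀ l, vl (F.A l) θ y ≠ 0 ∧ vl (F.B l) θ y ≠ vl (F.A l) θ y := by
  rw [ae_all_iff]
  intro l
  filter_upwards [ae_eval_ne_zero (S2_ne h l).1, ae_eval_ne_zero (S2_ne h l).2] with y h1 h2
  rw [S2R_eval] at h1
  rw [map_sub, S2R_eval, S2R_eval] at h2
  exact ⟨h1, sub_ne_zero.1 h2⟩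

private theorem S2_cont {s n : ℕ} (D : Pz s n) (θ : Fin s → ℝ) : Continuous fun x : Fin n → ℝ => vl D θ x := by
  have h : (fun x : Fin n → ℝ => vl D θ x) = fun x => eval x (S2R θ D) := by
    funext x
    rw [S2R_eval]
  rw [h]
  exact MvPolynomial.continuous_eval _

private theorem S2_compact {s n : ℕ} (F : Typ s n) (b : ℕ) (θ : Fin s → ℝ) : IsCompact (F.dom b θ) := by
  have hK : IsCompact {x : Fin n → ℝ | ∀ l, |x l| ≤ (b : ℝ)} := by
    have h1 : {x : Fin n → ℝ | ∀ l, |x l| ≤ (b : ℝ)} = Set.pi Set.univ fun _ => Icc (-(b : ℝ)) b := by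
      ext x
      simp only [mem_ofPred_eq, mem_pi, mem_univ, true_implies, mem_Icc, abs_le]
    rw [h1]
    exact isCompact_univ_pi fun _ => isCompact_Icc
  refine hK.of_isClosed_subset ?_ fun x hx l => (hx l).1
  have h2 : F.dom b θ = ⋂ l, {x : Fin n → ℝ | |x l| ≤ (b : ℝ) ∧ 0 ≤ vl (F.A l) θ x ∧ vl (F.A l) θ x ≤ vl (F.B l) θ x} := by
    ext x
    simp only [Typ.dom, mem_ofPred_eq, mem_iInter]
  rw [h2]
  refine isClosed_iInter fun l => ?_
  exact (isClosed_le (continuous_abs.comp (continuous_apply l)) continuous_const).inter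
    ((isClosed_le continuous_const (S2_cont _ θ)).inter (isClosed_le (S2_cont _ θ) (S2_cont _ θ)))

private theorem S2_open {s n r : ℕ} (p : Fin r → Pz s n) (θ : Fin s → ℝ) : IsOpen (rg p θ) := by
  have h : rg p θ = (⋂ i : Fin n, {x : Fin n → ℝ | x i ^ 2 < 1}) ∩ ⋂ j, {x | 0 < vl (p j) θ x} := by
    ext x
    simp only [rg, mem_ofPred_eq, mem_inter_iff, mem_iInter]
  rw [h]
  refine (isOpen_iInter_of_finite fun i => ?_).inter (isOpen_iInter_of_finite fun j => ?_)
  · exact isOpen_lt (by fun_prop) continuous_const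
  · exact isOpen_lt continuous_const (S2_cont _ θ)

/-- The integrals of the family as integrals over the region in the cube. -/
theorem vH_rg {s n μ : ℕ} {F : Fin μ → Typ s n} {b : ℕ} {e : Fin s → ℚ} {Ω : Set (Fin s → ℝ)} (hR : RegOK F b e Ω)
    (k : Fin μ) (a : Fin n → ℕ) (κ : ℕ) {θ : Fin s → ℝ} (hθ : θ ∈ Ω) :
    IntegrableOn (fun y => vl (WT (F k) b a κ) θ y / vl (hh (pT (F k) b)) θ y ^ κ) (rg (pT (F k) b) θ) ∧
    ∫ y in rg (pT (F k) b) θ, vl (WT (F k) b a κ) θ y / vl (hh (pT (F k) b)) θ y ^ κ = vH (F k) b a κ θ := by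
  have hb := hR.b2
  have hb0 : (0 : ℝ) < b := by
    have : 0 < b := by omega
    exact_mod_cast this
  have hpos : ∀ x ∈ (F k).dom b θ, (∀ l, |x l| < (b : ℝ) ∧ 0 < vl ((F k).B l) θ x) ∧ 0 < vl (F k).jd θ x ∧
      0 < vl (F k).D θ x := fun x hx => Typ.dom_pos hb (hR.base k) hR.pre hR.mem (hR.nond k) hθ hx
  obtain ⟨g, hg⟩ : ∃ g : (Fin n → ℝ) → ℝ, g = fun x => (∏ l, x l ^ a l) / vl (F k).D θ x ^ κ := ⟨_, rfl⟩
  obtain ⟨U, hU⟩ : ∃ U : Set (Fin n → ℝ), U = {x ∈ (F k).dom b θ | ∀ l, 0 < vl ((F k).A l) θ x ∧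
      vl ((F k).A l) θ x < vl ((F k).B l) θ x} := ⟨_, rfl⟩
  have hrg : rg (pT (F k) b) θ = (fun y => (b : ℝ) • y) ⁻¹' U := by
    ext y
    rw [mem_rg_pT, hU, mem_preimage, mem_ofPred_eq]
    constructor
    · rintro ⟨h1, h2, h3⟩
      refine ⟨fun l => ⟨?_, (h2 l).1.le, (h2 l).2.le⟩, h2⟩
      rw [Pi.smul_apply, smul_eq_mul, abs_mul, abs_of_pos hb0]
      have h4 : |y l| ≤ 1 := by
        have := h1 l
        rw [← one_pow 2, sq_lt_sq, abs_one] at this
        exact this.le
      calc (b : ℝ) * |y l| ≤ b * 1 := mul_le_mul_of_nonneg_left h4 hb0.le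
        _ = b := mul_one _
    · rintro ⟨h1, h2⟩
      obtain ⟨h3, -, h4⟩ := hpos _ h1
      refine ⟨fun l => ?_, h2, h4⟩
      have h5 := (h3 l).1
      rw [Pi.smul_apply, smul_eq_mul, abs_mul, abs_of_pos hb0] at h5
      rw [← one_pow 2, sq_lt_sq, abs_one]
      by_contra h6
      push Not at h6
      nlinarith
  have hsm : (b : ℝ) • rg (pT (F k) b) θ = U := by
    rw [hrg]
    ext x
    rw [Set.mem_smul_set_iff_inv_smul_mem₀ hb0.ne', mem_preimage, smul_inv_smul₀ hb0.ne']
  have hFg : ∀ y ∈ rg (pT (F k) b) θ, vl (WT (F k) b a κ) θ y / vl (hh (pT (F k) b)) θ y ^ κ =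
      (b : ℝ) ^ n * g ((b : ℝ) • y) := by
    intro y hy
    have hy' := hy
    rw [mem_rg_pT] at hy'
    obtain ⟨h1, h2, h3⟩ := hy'
    have hmul : ∀ P Q : Pz s n, vl (P * Q) θ y = vl P θ y * vl Q θ y := fun P Q =>
      map_mul (aeval (Sum.elim θ y) : Pz s n →ₐ[ℚ] ℝ) P Q
    have hpow : ∀ (P : Pz s n) (m : ℕ), vl (P ^ m) θ y = vl P θ y ^ m := fun P m =>
      map_pow (aeval (Sum.elim θ y) : Pz s n →ₐ[ℚ] ℝ) P m
    have hprod : ∀ f : Fin n → Pz s n, vl (∏ l, f l) θ y = ∏ l, vl (f l) θ y := fun f =>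
      map_prod (aeval (Sum.elim θ y) : Pz s n →ₐ[ℚ] ℝ) f _
    have hc : vl (cT (F k) b) θ y ≠ 0 := by
      unfold cT
      rw [hmul, hmul, hprod, hprod, hprod]
      refine mul_ne_zero (mul_ne_zero (Finset.prod_ne_zero_iff.2 fun l _ => ?_)
        (Finset.prod_ne_zero_iff.2 fun l _ => ?_)) (Finset.prod_ne_zero_iff.2 fun l _ => ?_)
      · rw [vl_scp]
        exact (h2 l).1.ne'
      · rw [vl_scp]
        have h4 : vl ((F k).B l - (F k).A l) θ ((b : ℝ) • y) =
            vl ((F k).B l) θ ((b : ℝ) • y) - vl ((F k).A l) θ ((b : ℝ) • y) :=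
          map_sub (aeval (Sum.elim θ ((b : ℝ) • y)) : Pz s n →ₐ[ℚ] ℝ) _ _
        rw [h4]
        exact (sub_pos.2 (h2 l).2).ne'
      · have h4 : vl (1 - X (Sum.inr l) ^ 2 : Pz s n) θ y = 1 - y l ^ 2 := by
          unfold vl
          rw [map_sub, map_one, map_pow, aeval_X]
          rfl
        rw [h4]
        exact (sub_pos.2 (h1 l)).ne'
    have hW : vl (WT (F k) b a κ) θ y = ((b : ℝ) ^ n * ∏ l, ((b : ℝ) • y) l ^ a l) * vl (cT (F k) b) θ y ^ κ := by
      unfold WT
      rw [hmul, hmul, hprod, hpow, hpow]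
      congr 2
      · congr 1
        unfold vl
        rw [aeval_C]
        simp
      · refine Finset.prod_congr rfl fun l _ => ?_
        rw [hpow, hmul]
        congr 1
        rw [Pi.smul_apply, smul_eq_mul]
        congr 1
        · unfold vl
          rw [aeval_C]
          simp
        · unfold vl
          rw [aeval_X]
          rfl
    rw [hW, hh_pT, hmul, vl_scp, hg, mul_pow]
    dsimp only
    rw [mul_div_mul_right _ _ (pow_ne_zero _ hc), mul_div_assoc]
  have hgc : ContinuousOn g ((F k).dom b θ) := by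
    rw [hg]
    refine ContinuousOn.div ?_ ((S2_cont _ θ).continuousOn.pow κ) fun x hx => (pow_pos (hpos x hx).2.2 κ).ne'
    exact (continuous_finsetProd _ fun l _ => (continuous_apply l).pow (a l)).continuousOn
  have hmeas : MeasurableSet (rg (pT (F k) b) θ) := (S2_open _ θ).measurableSet
  refine ⟨?_, ?_⟩
  · have h1 : IntegrableOn (fun y => (b : ℝ) ^ n * g ((b : ℝ) • y)) (rg (pT (F k) b) θ) := by
      have h2 : IsCompact ((fun y : Fin n → ℝ => (b : ℝ) • y) ⁻¹' (F k).dom b θ) := by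
        have h3 : ((fun y : Fin n → ℝ => (b : ℝ) • y) ⁻¹' (F k).dom b θ) =
            (fun x : Fin n → ℝ => (b : ℝ)⁻¹ • x) '' (F k).dom b θ := by
          ext y
          rw [mem_preimage, mem_image]
          constructor
          · intro h
            exact ⟨_, h, inv_smul_smul₀ hb0.ne' y⟩
          · rintro ⟨x, hx, rfl⟩
            rw [smul_inv_smul₀ hb0.ne']
            exact hx
        rw [h3]
        exact (S2_compact (F k) b θ).image (continuous_const_smul _)
      have h3 : ContinuousOn (fun y : Fin n → ℝ => (b : ℝ) ^ n * g ((b : ℝ) • y))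
          ((fun y : Fin n → ℝ => (b : ℝ) • y) ⁻¹' (F k).dom b θ) :=
        continuousOn_const.mul (hgc.comp (continuous_const_smul _).continuousOn fun y hy => hy)
      refine (h3.integrableOn_compact h2).mono_set ?_
      rw [hrg, hU]
      exact preimage_mono fun x hx => hx.1
    exact h1.congr_fun (fun y hy => (hFg y hy).symm) hmeas
  · rw [setIntegral_congr_fun hmeas hFg, integral_const_mul,
      Measure.setIntegral_comp_smul_of_pos volume g _ hb0, hsm, Module.finrank_fintype_fun_eq_card, Fintype.card_fin,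
      smul_eq_mul, ← mul_assoc, mul_inv_cancel₀ (pow_ne_zero _ hb0.ne'), one_mul]
    have h1 : U =ᵐ[volume] (F k).dom b θ := by
      by_cases hne : ((F k).dom b θ).Nonempty
      · obtain ⟨x₀, hx₀⟩ := hne
        filter_upwards [S2_ae (hpos x₀ hx₀).2.1.ne'] with x hx
        rw [hU]
        refine propext ⟨fun h => h.1, fun h => ⟨h, fun l => ?_⟩⟩
        exact ⟨lt_of_le_of_ne (h l).2.1 (hx l).1.symm, lt_of_le_of_ne (h l).2.2 (hx l).2.symm⟩
      · have h2 : (F k).dom b θ = ∅ := Set.not_nonempty_iff_eq_empty.1 hne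
        have h3 : U = ∅ := by
          rw [hU]
          ext x
          rw [h2]
          simp
        rw [h2, h3]
    rw [setIntegral_congr_set h1, hg]
    rfl

end Pool.Agent.Lib.MP_bbe012_lc.XS
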