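import Pool.Agent.Lib.MP_bbe012_lc.PH.HFinal
import Pool.Agent.Lib.MP_bbe012_lc.PN.BReg
import Pool.Agent.Lib.MP_bbe012_lc.XS.C4
import Pool.Agent.Lib.MP_bbe012_lc.XS.C5
import Pool.Agent.Lib.MP_bbe012_lc.XS.C6
import Pool.Agent.Lib.MP_bbe012_lc.XS.E0
import Pool.Agent.Lib.MP_bbe012_lc.XS.S2

/-!
# Differential equations for the integrals of families of domains
-/

set_option autoImplicit false

namespace Pool.Agent.Lib.MP_bbe012_lc.XS

open MvPolynomial MeasureTheory Set PP PG PT PH PM PN Topology Filter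

private theorem S3_aeval {s : ℕ} (e : Fin s → ℚ) (z : MvPolynomial (Fin s) ℚ) :
    (aeval (cst e) z : ℝ) = ((eval e z : ℚ) : ℝ) :=
  MvPolynomial.aeval_algebraMap_apply ℝ e z

/-- A rational point of an open set at which a polynomial does not vanish. -/
theorem exists_ratpt {s : ℕ} {Ω : Set (Fin s → ℝ)} (ho : IsOpen Ω) {e : Fin s → ℚ} (he : cst e ∈ Ω)
    {z : MvPolynomial (Fin s) ℚ} (hz : z ≠ 0) : ∃ e' : Fin s → ℚ, cst e' ∈ Ω ∧ aeval (cst e') z ≠ (0 : ℝ) := by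
  obtain ⟨ε, hε, hball⟩ := Metric.isOpen_iff.1 ho (cst e) he
  obtain ⟨δ, hδ0, hδε⟩ := exists_rat_btwn hε
  have hδ0' : (0 : ℚ) < δ := by exact_mod_cast hδ0
  by_contra hcon
  push Not at hcon
  apply hz
  refine funext_set (fun i => Set.Ioo (e i - δ) (e i + δ)) (fun i => Set.Ioo_infinite (by linarith)) fun x hx => ?_
  rw [map_zero]
  have h1 : cst x ∈ Ω := by
    apply hball
    rw [Metric.mem_ball]
    refine lt_of_le_of_lt ((dist_pi_le_iff hδ0.le).2 fun i => ?_) hδε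
    have h2 := hx i (Set.mem_univ i)
    have h3 : (e i : ℝ) - δ < x i := by exact_mod_cast h2.1
    have h4 : (x i : ℝ) < e i + δ := by exact_mod_cast h2.2
    change dist (x i : ℝ) (e i : ℝ) ≤ δ
    rw [Real.dist_eq, abs_le]
    exact ⟨by linarith, by linarith⟩
  have h2 := hcon x h1
  rw [S3_aeval] at h2
  exact_mod_cast h2

private theorem S3_cont {s : ℕ} (z : MvPolynomial (Fin s) ℚ) : Continuous fun θ : Fin s → ℝ => (aeval θ z : ℝ) := by
  have h : (fun θ : Fin s → ℝ => (aeval θ z : ℝ)) = fun θ => eval θ (map (algebraMap ℚ ℝ) z) := by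
    funext θ
    rw [eval_map, aeval_def]
  rw [h]
  exact MvPolynomial.continuous_eval _

/-- Outside of a hypersurface the integrals satisfy differential equations near the rational points. -/
theorem exists_DFvH {s n μ : ℕ} {F : Fin μ → Typ s n} {b : ℕ} {e : Fin s → ℚ} {Ω : Set (Fin s → ℝ)} (hR : RegOK F b e Ω)
    (k : Fin μ) (a : Fin n → ℕ) (κ : ℕ) : ∃ z : MvPolynomial (Fin s) ℚ, z ≠ 0 ∧
      ∀ e' : Fin s → ℚ, cst e' ∈ Ω → aeval (cst e') z ≠ (0 : ℝ) → DF e' (vH (F k) b a κ) := by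
  obtain ⟨z, V, hz, -, hV, hD⟩ := exists_VRE (N := 1) (pT (F k) b) (hh_pT_ne hR.b2 (hR.base k))
    (fun _ => WT (F k) b a κ) κ
  refine ⟨z, hz, fun e' he' hze' => (hD e' hze' 0).congr ?_⟩
  filter_upwards [hR.op.mem_nhds he', (S3_cont z).continuousAt.eventually_ne hze'] with θ h1 h2
  obtain ⟨h3, h4⟩ := vH_rg hR k a κ h1
  have h5 := reg_int (pT (F k) b) θ h3
  rw [h4] at h5
  exact (hV θ h2 0).unique h5

/-- The hypothesis of block A for the functions of the patterns. -/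
theorem pf_of_RegOK {s n μ : ℕ} {F : Fin μ → Typ s n} {b : ℕ} {e : Fin s → ℚ} {Ω : Set (Fin s → ℝ)} (hR : RegOK F b e Ω)
    (A : ℕ) {ρ : ℕ} (π : Fin ρ → PatH μ n A) : PfHyp Ω (fun i => VPH F b A (π i)) := by
  classical
  choose z hz hzD using fun y : Fin μ × ((Fin n → Fin (A + 1)) × Fin (A + 1)) =>
    exists_DFvH hR y.1 (fun l => (y.2.1 l : ℕ)) (y.2.2 : ℕ)
  obtain ⟨e', he', hze'⟩ := exists_ratpt hR.op hR.mem (z := ∏ y, z y) (Finset.prod_ne_zero_iff.2 fun y _ => hz y)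
  rw [map_prod, Finset.prod_ne_zero_iff] at hze'
  have h1 : ∀ y : IH μ n A, DF e' (fH F b A y) := by
    intro y
    rcases y with _ | y
    · exact DF.one e'
    · exact hzD y e' he' (hze' y (Finset.mem_univ y))
  have h2 : ∀ i, DF e' (VPH F b A (π i)) := fun i => DF.prod Finset.univ fun j => h1 (π i j)
  obtain ⟨N, Y, δ, Γ, R, h3, h4, h5, h6⟩ := DF.family h2
  exact ⟨N, e', Y, δ, Γ, R, he', h3, h4, h5, h6⟩

end Pool.Agent.Lib.MP_bbe012_lc.XS
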