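import Pool.Agent.Lib.MP_bbe012_lc.PH.HFinal
import Pool.Agent.Lib.MP_bbe012_lc.XS.E0
import Pool.Agent.Lib.MP_bbe012_lc.XS.S3

/-!
# Differential equations for the functions of the patterns (helper26)
-/

set_option autoImplicit false

namespace Pool.Agent.Lib.MP_bbe012_lc.XS

open MvPolynomial MeasureTheory Set PP PG PT PH Topology

theorem pf_VPH {s μ b : ℕ} (hb : 2 ≤ b) {m : Fin μ → ℕ} (F : (k : Fin μ) → Typ s (m k))
    (e : Fin s → ℚ) (he : ∀ k, (F k).Base e) (A : ℕ) {n : ℕ} (hm : ∀ k, m k ≤ n) {ρ : ℕ} (π : Fin ρ → PatH μ n A) :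
    PfHyp (Reg F b e) (fun i => VPH (fun k => (F k).pad (hm k)) b A (π i)) :=
  pf_of_RegOK (regOK hb hm he) A π

end Pool.Agent.Lib.MP_bbe012_lc.XS
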