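import Pool.Agent.Lib.MP_bbe012_lc.PH.HG1
import Pool.Agent.Lib.MP_bbe012_lc.PM.Defs
import Pool.Agent.Lib.MP_bbe012_lc.PolyInt

/-!
# The integrals of a family of domains as integrals over regions in the cube
-/

set_option autoImplicit false

namespace Pool.Agent.Lib.MP_bbe012_lc.XS

open MvPolynomial MeasureTheory Set PP PG PH PM

/-- The substitution `x ↦ b x`. -/
noncomputable def scp {s n : ℕ} (b : ℕ) : Pz s n →ₐ[ℚ] Pz s n :=
  aeval (Sum.elim (fun i => X (Sum.inl i)) fun l => C (b : ℚ) * X (Sum.inr l))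

theorem vl_scp {s n : ℕ} (b : ℕ) (D : Pz s n) (θ : Fin s → ℝ) (y : Fin n → ℝ) :
    vl (scp b D) θ y = vl D θ ((b : ℝ) • y) := by
  unfold vl scp
  rw [← AlgHom.comp_apply, comp_aeval]
  congr 2
  funext i
  rcases i with i | l
  · change aeval (Sum.elim θ y) (X (Sum.inl i)) = θ i
    rw [aeval_X]
    rfl
  · change aeval (Sum.elim θ y) (C (b : ℚ) * X (Sum.inr l)) = ((b : ℝ) • y) l
    rw [map_mul, aeval_X, aeval_C, Pi.smul_apply, smul_eq_mul]
    simp

/-- The polynomials which are positive in the interior of the domain, in the coordinates `y = x / b`. -/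
noncomputable def pT {s n : ℕ} (F : Typ s n) (b : ℕ) : Fin (n + n + 1) → Pz s n :=
  Fin.snoc (α := fun _ => Pz s n) (Fin.append (fun l => scp b (F.A l)) fun l => scp b (F.B l - F.A l)) (scp b F.D)

/-- The cofactor of `D` in the product of the polynomials which define the region. -/
noncomputable def cT {s n : ℕ} (F : Typ s n) (b : ℕ) : Pz s n :=
  ((∏ l, scp b (F.A l)) * ∏ l, scp b (F.B l - F.A l)) * ∏ i : Fin n, (1 - X (Sum.inr i) ^ 2)

/-- The numerator of `b ^ n` times the function `x ^ a / D ^ κ`, over the denominator `hh ^ κ`. -/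
noncomputable def WT {s n : ℕ} (F : Typ s n) (b : ℕ) (a : Fin n → ℕ) (κ : ℕ) : Pz s n :=
  (C (b : ℚ) ^ n * ∏ l, (C (b : ℚ) * X (Sum.inr l)) ^ a l) * cT F b ^ κ

theorem hh_pT {s n : ℕ} (F : Typ s n) (b : ℕ) : hh (pT F b) = scp b F.D * cT F b := by
  unfold hh cT pT
  rw [Fin.prod_univ_castSucc, Fin.snoc_last]
  simp only [Fin.snoc_castSucc]
  rw [Fin.prod_univ_add]
  simp only [Fin.append_left, Fin.append_right]
  ring

theorem mem_rg_pT {s n : ℕ} (F : Typ s n) (b : ℕ) (θ : Fin s → ℝ) (y : Fin n → ℝ) :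
    y ∈ rg (pT F b) θ ↔ (∀ i, y i ^ 2 < 1) ∧ (∀ l, 0 < vl (F.A l) θ ((b : ℝ) • y) ∧
      vl (F.A l) θ ((b : ℝ) • y) < vl (F.B l) θ ((b : ℝ) • y)) ∧ 0 < vl F.D θ ((b : ℝ) • y) := by
  have hsub : ∀ l, vl (scp b (F.B l - F.A l)) θ y =
      vl (F.B l) θ ((b : ℝ) • y) - vl (F.A l) θ ((b : ℝ) • y) := by
    intro l
    rw [vl_scp]
    exact map_sub (aeval (Sum.elim θ ((b : ℝ) • y)) : Pz s n →ₐ[ℚ] ℝ) _ _
  change ((∀ i, y i ^ 2 < 1) ∧ ∀ j, 0 < vl (pT F b j) θ y) ↔ _
  refine and_congr_right fun _ => ?_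
  rw [Fin.forall_fin_succ']
  unfold pT
  simp only [Fin.snoc_castSucc, Fin.snoc_last]
  rw [vl_scp b F.D]
  refine and_congr_left fun _ => ?_
  constructor
  · intro h l
    have h1 := h (Fin.castAdd n l)
    have h2 := h (Fin.natAdd n l)
    rw [Fin.append_left, vl_scp] at h1
    rw [Fin.append_right, hsub] at h2
    exact ⟨h1, sub_pos.1 h2⟩
  · intro h j
    refine Fin.addCases (fun l => ?_) (fun l => ?_) j
    · rw [Fin.append_left, vl_scp]
      exact (h l).1
    · rw [Fin.append_right, hsub]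
      exact sub_pos.2 (h l).2

private theorem S1_spz {s m : ℕ} (D : Pz s m) (θ : Fin s → ℚ) (x : Fin m → ℝ) :
    vl D (cst θ) x = aeval x (spz D θ) := by
  unfold vl spz
  induction D using MvPolynomial.induction_on with
  | C a =>
    rw [aeval_C, aeval_C]
    exact (aeval_C x a).symm
  | add P Q hP hQ => rw [map_add, map_add, map_add, hP, hQ]
  | mul_X P i hP =>
    rw [map_mul, map_mul, map_mul, hP, aeval_X, aeval_X]
    rcases i with i | l
    · change _ * ((θ i : ℚ) : ℝ) = _ * aeval x (C (θ i))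
      rw [aeval_C]
      rfl
    · change _ * x l = _ * aeval x (X l)
      rw [aeval_X]

theorem hh_pT_ne {s n b : ℕ} (hb : 2 ≤ b) {F : Typ s n} {e : Fin s → ℚ} (he : F.Base e) : hh (pT F b) ≠ 0 := by
  have hb0 : (0 : ℝ) < b := by
    have : 0 < b := by omega
    exact_mod_cast this
  have hb2 : (2 : ℝ) ≤ b := by exact_mod_cast hb
  obtain ⟨y, hy⟩ : ∃ y : Fin n → ℝ, y = fun _ => 1 / (2 * (b : ℝ)) := ⟨_, rfl⟩
  have hby : (b : ℝ) • y = fun _ => (1 / 2 : ℝ) := by
    funext l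
    rw [Pi.smul_apply, smul_eq_mul, hy]
    field_simp
  have hA : ∀ l, vl (F.A l) (cst e) ((b : ℝ) • y) = 1 / 2 := by
    intro l
    rw [S1_spz, (he.1 l).1, aeval_X, hby]
  have hB : ∀ l, vl (F.B l) (cst e) ((b : ℝ) • y) = 1 := by
    intro l
    rw [S1_spz, (he.1 l).2, map_one]
  have hD : vl F.D (cst e) ((b : ℝ) • y) = 1 := by
    rw [S1_spz, he.2, map_one]
  have h1 : 0 < vl (hh (pT F b)) (cst e) y := by
    have hhom : ∀ P Q : Pz s n, vl (P * Q) (cst e) y = vl P (cst e) y * vl Q (cst e) y := fun P Q =>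
      map_mul (aeval (Sum.elim (cst e) y) : Pz s n →ₐ[ℚ] ℝ) P Q
    have hprod : ∀ f : Fin n → Pz s n, vl (∏ l, f l) (cst e) y = ∏ l, vl (f l) (cst e) y := fun f =>
      map_prod (aeval (Sum.elim (cst e) y) : Pz s n →ₐ[ℚ] ℝ) f _
    rw [hh_pT]
    unfold cT
    rw [hhom, hhom, hhom, hprod, hprod, hprod, vl_scp, hD, one_mul]
    refine mul_pos (mul_pos (Finset.prod_pos fun l _ => ?_) (Finset.prod_pos fun l _ => ?_))
      (Finset.prod_pos fun l _ => ?_)
    · rw [vl_scp, hA]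
      norm_num
    · rw [vl_scp]
      have h2 : vl (F.B l - F.A l) (cst e) ((b : ℝ) • y) = 1 - 1 / 2 := by
        rw [← hA l, ← hB l]
        exact map_sub (aeval (Sum.elim (cst e) ((b : ℝ) • y)) : Pz s n →ₐ[ℚ] ℝ) _ _
      rw [h2]
      norm_num
    · have h2 : vl (1 - X (Sum.inr l) ^ 2 : Pz s n) (cst e) y = 1 - y l ^ 2 := by
        unfold vl
        rw [map_sub, map_one, map_pow, aeval_X]
        rfl
      rw [h2, hy]
      have h3 : 1 / (2 * (b : ℝ)) ≤ 1 / 4 := by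
        apply one_div_le_one_div_of_le (by norm_num)
        linarith
      have h4 : 0 < 1 / (2 * (b : ℝ)) := by positivity
      dsimp only
      nlinarith
  intro h0
  rw [h0] at h1
  have h2 : vl (0 : Pz s n) (cst e) y = 0 := map_zero (aeval (Sum.elim (cst e) y) : Pz s n →ₐ[ℚ] ℝ)
  rw [h2] at h1
  exact lt_irrefl _ h1

end Pool.Agent.Lib.MP_bbe012_lc.XS
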